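import Pool.Agent.Lib.MP_845d9b_co.Abs.Stmts

/-!
# AB: the absorber (from slots and the template)
-/

set_option autoImplicit false

namespace Pool.Agent.DNA

open Finset

namespace AbsorbAux

lemma par_add {n : ℕ} [NeZero n] (x y : ZMod n) : par (x + y) = par x + par y := by
  unfold par
  split_ifs with h
  · rw [ZMod.val_add]
    have h2 : 2 ∣ n := h.two_dvd
    have : (((x.val + y.val) % n : ℕ) : ZMod 2) = ((x.val + y.val : ℕ) : ZMod 2) :=
      (ZMod.natCast_eq_natCast_iff _ _ 2).2 ((Nat.mod_modEq _ n).of_dvd h2)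
    rw [this, Nat.cast_add]
  · rw [add_zero]

lemma par_one {n : ℕ} [NeZero n] (h : Even n) : par (1 : ZMod n) = 1 := by
  unfold par
  rw [if_pos h, ZMod.val_one_eq_one_mod]
  have h0 : n ≠ 0 := NeZero.ne n
  obtain ⟨k, hk⟩ := h
  rw [Nat.mod_eq_of_lt (by omega)]
  rfl

lemma zmod2 : ∀ z : ZMod 2, z ≠ 0 → z + 1 = 0 := by decide

lemma zmod2' : ∀ z : ZMod 2, z = 0 → z + 1 ≠ 0 := by decide

lemma two_sol {n : ℕ} [NeZero n] (c : ZMod n) :
    (univ.filter fun w : ZMod n => w + w = c).card ≤ 2 := by
  have hsub : (univ.filter fun w : ZMod n => w + w = c) ⊆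
      {((c.val / 2 : ℕ) : ZMod n), (((c.val + n) / 2 : ℕ) : ZMod n)} := by
    intro w hw
    rw [mem_filter] at hw
    have h1 : (w.val + w.val) % n = c.val := by rw [← ZMod.val_add, hw.2]
    have hlt := ZMod.val_lt w
    have h2 : w.val + w.val = c.val ∨ w.val + w.val = c.val + n := by
      rcases lt_or_ge (w.val + w.val) n with h | h
      · left; rw [← h1, Nat.mod_eq_of_lt h]
      · right
        rw [Nat.mod_eq_sub_mod h, Nat.mod_eq_of_lt (by omega)] at h1
        omega
    rw [mem_insert, mem_singleton]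
    rcases h2 with h | h
    · left
      rw [← h, show (w.val + w.val) / 2 = w.val by omega]
      exact (ZMod.natCast_zmod_val w).symm
    · right
      rw [← h, show (w.val + w.val) / 2 = w.val by omega]
      exact (ZMod.natCast_zmod_val w).symm
  exact (card_le_card hsub).trans card_le_two

lemma cl_eq {n : ℕ} {w w' : ZMod n} (h : cl w = cl w') : w' = w ∨ w' = 1 - w := by
  unfold cl at h
  rw [Sym2.eq_iff] at h
  rcases h with ⟨h1, _⟩ | ⟨h1, h2⟩
  · exact Or.inl h1.symm
  · exact Or.inr h2.symm

/-- kinds that occur have many elements -/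
lemma kind_large {n : ℕ} [NeZero n] (t : Fin 3) (y : Elt n) (hk : kd y = t) :
    n ≤ 2 * ((All n).filter fun z => kd z = t).card + 4 := by
  have hn : (univ : Finset (ZMod n)).card = n := by rw [card_univ, ZMod.card]
  have hinl : ∀ x : ZMod n, Sum.inl x ∈ All n := fun x => by
    unfold All
    rw [mem_union]
    exact Or.inl (mem_image_of_mem _ (mem_univ x))
  have hsplit : (univ.filter fun x : ZMod n => par x = 0).card +
      (univ.filter fun x : ZMod n => ¬ par x = 0).card = n := by
    rw [Finset.card_filter_add_card_filter_not, hn]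
  rcases y with x | c
  · have hkx : kd (Sum.inl x : Elt n) = if par x = 0 then 0 else 1 := rfl
    by_cases hx : par x = 0
    · rw [hkx, if_pos hx] at hk
      subst hk
      have h1 : (univ.filter fun x : ZMod n => par x = 0).card ≤
          ((All n).filter fun z => kd z = 0).card := by
        refine card_le_card_of_injOn Sum.inl ?_ (Sum.inl_injective.injOn)
        intro z hz
        have hz' : par z = 0 := (mem_filter.1 hz).2
        have : kd (Sum.inl z : Elt n) = 0 := by
          show (if par z = 0 then (0 : Fin 3) else 1) = 0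
          rw [if_pos hz']
        exact mem_filter.2 ⟨hinl z, this⟩
      have h2 : (univ.filter fun x : ZMod n => ¬ par x = 0).card ≤
          (univ.filter fun x : ZMod n => par x = 0).card := by
        by_cases he : Even n
        · refine card_le_card_of_injOn (fun z => z + 1) ?_ (fun a _ b _ h => by simpa using h)
          intro z hz
          have hz' : par z ≠ 0 := (mem_filter.1 hz).2
          refine mem_filter.2 ⟨mem_univ _, ?_⟩
          rw [par_add, par_one he]
          exact zmod2 _ hz'
        · rw [filter_false_of_mem]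
          · simp
          · intro z _
            unfold par
            rw [if_neg he]
            simp
      omega
    · rw [hkx, if_neg hx] at hk
      subst hk
      have he : Even n := by
        by_contra he
        apply hx
        unfold par
        rw [if_neg he]
      have h1 : (univ.filter fun x : ZMod n => ¬ par x = 0).card ≤
          ((All n).filter fun z => kd z = 1).card := by
        refine card_le_card_of_injOn Sum.inl ?_ (Sum.inl_injective.injOn)
        intro z hz
        have hz' : par z ≠ 0 := (mem_filter.1 hz).2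
        have : kd (Sum.inl z : Elt n) = 1 := by
          show (if par z = 0 then (0 : Fin 3) else 1) = 1
          rw [if_neg hz']
        exact mem_filter.2 ⟨hinl z, this⟩
      have h2 : (univ.filter fun x : ZMod n => par x = 0).card ≤
          (univ.filter fun x : ZMod n => ¬ par x = 0).card := by
        refine card_le_card_of_injOn (fun z => z + 1) ?_ (fun a _ b _ h => by simpa using h)
        intro z hz
        have hz' : par z = 0 := (mem_filter.1 hz).2
        refine mem_filter.2 ⟨mem_univ _, ?_⟩
        rw [par_add, par_one he]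
        exact zmod2' _ hz'
      omega
  · have hkc : kd (Sum.inr c : Elt n) = 2 := rfl
    rw [hkc] at hk
    subst hk
    set OK := univ.filter fun w : ZMod n => ClOk w with hOK
    have h1 : n ≤ OK.card + 4 := by
      have hsub : (univ : Finset (ZMod n)) ⊆ OK ∪ ({0, 1} ∪
          univ.filter fun w : ZMod n => w + w = 1) := by
        intro w _
        rw [mem_union, mem_union, hOK, mem_filter, mem_filter, mem_insert, mem_singleton]
        unfold ClOk
        by_cases a1 : w = 0
        · exact Or.inr (Or.inl (Or.inl a1))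
        · by_cases a2 : w = 1
          · exact Or.inr (Or.inl (Or.inr a2))
          · by_cases a3 : w + w = 1
            · exact Or.inr (Or.inr ⟨mem_univ _, a3⟩)
            · exact Or.inl ⟨mem_univ _, a1, a2, a3⟩
      have h2 := card_le_card hsub
      rw [hn] at h2
      have h3 := card_union_le OK ({0, 1} ∪ univ.filter fun w : ZMod n => w + w = 1)
      have h4 := card_union_le ({0, 1} : Finset (ZMod n)) (univ.filter fun w : ZMod n => w + w = 1)
      have h5 : ({0, 1} : Finset (ZMod n)).card ≤ 2 := card_le_two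
      have h6 := two_sol (1 : ZMod n)
      omega
    have h2 : OK.card ≤ 2 * (OK.image fun w => (Sum.inr (cl w) : Elt n)).card := by
      refine card_le_mul_card_image OK 2 fun a ha => ?_
      obtain ⟨w0, hw0, rfl⟩ := mem_image.1 ha
      have hsub : (OK.filter fun x => (Sum.inr (cl x) : Elt n) = Sum.inr (cl w0)) ⊆
          {w0, 1 - w0} := by
        intro w hw
        have hw' := Sum.inr_injective (mem_filter.1 hw).2
        rw [mem_insert, mem_singleton]
        exact cl_eq hw'.symm
      exact (card_le_card hsub).trans card_le_two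
    have h3 : (OK.image fun w => (Sum.inr (cl w) : Elt n)).card ≤
        ((All n).filter fun z => kd z = 2).card := by
      refine card_le_card fun z hz => ?_
      refine mem_filter.2 ⟨?_, ?_⟩
      · unfold All
        exact mem_union_right _ hz
      · obtain ⟨w, _, rfl⟩ := mem_image.1 hz
        rfl
    omega

lemma packs_card {n Q : ℕ} {U : ℕ → ZMod n} {Js : Finset ℕ} {S : Finset (Elt n)}
    (h : Packable n Q U Js S) : S.card ≤ Js.card * (3 * Q) := by
  obtain ⟨F, hF⟩ := h
  rw [← hF.cover]
  refine card_biUnion_le.trans ?_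
  rw [Finset.sum_congr rfl fun j hj => (hF.fill j hj).card, sum_const, smul_eq_mul]
  exact Nat.mul_le_mul_left _ (Nat.sub_le _ _)

lemma packable_biUnion (h1 : StPackUnion) {n Q : ℕ} {U : ℕ → ZMod n} {ι : Type} [DecidableEq ι]
    (J : ι → Finset ℕ) (S : ι → Finset (Elt n)) (A : Finset ι)
    (hJ : ∀ a ∈ A, ∀ b ∈ A, a ≠ b → Disjoint (J a) (J b))
    (hS : ∀ a ∈ A, ∀ b ∈ A, a ≠ b → Disjoint (S a) (S b))
    (hP : ∀ a ∈ A, Packable n Q U (J a) (S a)) :
    Packable n Q U (A.biUnion J) (A.biUnion S) := by
  induction A using Finset.induction_on with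
  | empty =>
    refine ⟨fun _ => U, ?_, ?_, ?_⟩
    · intro j hj; simp at hj
    · intro j hj; simp at hj
    · simp
  | insert a A ha ih =>
    rw [biUnion_insert, biUnion_insert]
    apply h1
    · rw [disjoint_biUnion_right]
      intro b hb
      exact hJ a (mem_insert_self _ _) b (mem_insert_of_mem hb) (fun e => ha (e ▸ hb))
    · rw [disjoint_biUnion_right]
      intro b hb
      exact hS a (mem_insert_self _ _) b (mem_insert_of_mem hb) (fun e => ha (e ▸ hb))
    · exact hP a (mem_insert_self _ _)
    · exact ih (fun x hx y hy => hJ x (mem_insert_of_mem hx) y (mem_insert_of_mem hy))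
        (fun x hx y hy => hS x (mem_insert_of_mem hx) y (mem_insert_of_mem hy))
        (fun x hx => hP x (mem_insert_of_mem hx))

/-- many slots -/
lemma iter {n Q : ℕ} [NeZero n]
    (slot : ∀ (U : ℕ → ZMod n) (BadE : Finset (Elt n)) (BadJ : Finset ℕ), 60 * BadE.card ≤ n →
      60 * Q * BadJ.card ≤ n → ∀ R ⊆ All n, R.Nonempty → (∀ y ∈ R, ∀ y' ∈ R, kd y = kd y') →
      10 ^ 6 * Q * R.card ≤ n →
      ∃ Js ⊆ Blocks n Q \ BadJ, Js.card ≤ 40 * R.card ∧
        ∃ Z ⊆ All n \ (BadE ∪ R), ∀ y ∈ R, Packable n Q U Js (insert y Z))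
    (U : ℕ → ZMod n) (BadE X : Finset (Elt n)) (BadJ : Finset ℕ) (T : ℕ) {ι : Type}
    [DecidableEq ι] (R : ι → Finset (Elt n)) (hX : X ⊆ All n) (hRX : ∀ s, R s ⊆ X)
    (hRn : ∀ s, (R s).Nonempty) (hRk : ∀ s, ∀ y ∈ R s, ∀ y' ∈ R s, kd y = kd y')
    (hE : 60 * (BadE.card + X.card + 120 * Q * T) ≤ n)
    (hJ : 60 * Q * (BadJ.card + 40 * T) ≤ n) (hT : 10 ^ 6 * Q * T ≤ n)
    (A : Finset ι) (hA : ∑ s ∈ A, (R s).card ≤ T) :
    ∃ (J : ι → Finset ℕ) (Z : ι → Finset (Elt n)),
      (∀ s ∈ A, J s ⊆ Blocks n Q \ BadJ ∧ (J s).card ≤ 40 * (R s).card ∧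
        Z s ⊆ All n \ (BadE ∪ X) ∧ ∀ y ∈ R s, Packable n Q U (J s) (insert y (Z s))) ∧
      (∀ s ∈ A, ∀ s' ∈ A, s ≠ s' → Disjoint (J s) (J s')) ∧
      (∀ s ∈ A, ∀ s' ∈ A, s ≠ s' → Disjoint (Z s) (Z s')) := by
  induction A using Finset.induction_on with
  | empty => exact ⟨fun _ => ∅, fun _ => ∅, by simp, by simp, by simp⟩
  | insert a A ha ih =>
    rw [sum_insert ha] at hA
    obtain ⟨J, Z, h1, h2, h3⟩ := ih (by omega)
    have hZ : (A.biUnion Z).card ≤ 120 * Q * T := by
      refine card_biUnion_le.trans ?_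
      calc ∑ s ∈ A, (Z s).card ≤ ∑ s ∈ A, 120 * Q * (R s).card := by
            refine sum_le_sum fun s hs => ?_
            obtain ⟨_, k2, _, k4⟩ := h1 s hs
            obtain ⟨y, hy⟩ := hRn s
            have k5 := packs_card (k4 y hy)
            have k6 : (Z s).card ≤ (insert y (Z s)).card := card_le_card (subset_insert _ _)
            calc (Z s).card ≤ (J s).card * (3 * Q) := k6.trans k5
              _ ≤ 40 * (R s).card * (3 * Q) := Nat.mul_le_mul_right _ k2
              _ = 120 * Q * (R s).card := by ring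
        _ = 120 * Q * ∑ s ∈ A, (R s).card := by rw [mul_sum]
        _ ≤ 120 * Q * T := Nat.mul_le_mul_left _ (by omega)
    have hJc : (A.biUnion J).card ≤ 40 * T := by
      refine card_biUnion_le.trans ?_
      calc ∑ s ∈ A, (J s).card ≤ ∑ s ∈ A, 40 * (R s).card :=
            sum_le_sum fun s hs => (h1 s hs).2.1
        _ = 40 * ∑ s ∈ A, (R s).card := by rw [mul_sum]
        _ ≤ 40 * T := Nat.mul_le_mul_left _ (by omega)
    obtain ⟨Ja, hJa, hJa2, Za, hZa, hP⟩ := slot U (BadE ∪ X ∪ A.biUnion Z) (BadJ ∪ A.biUnion J)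
      (by
        have e1 := card_union_le (BadE ∪ X) (A.biUnion Z)
        have e2 := card_union_le BadE X
        have e3 : (BadE ∪ X ∪ A.biUnion Z).card ≤ BadE.card + X.card + 120 * Q * T := by omega
        exact (Nat.mul_le_mul_left _ e3).trans hE)
      (by
        have e1 := card_union_le BadJ (A.biUnion J)
        have e3 : (BadJ ∪ A.biUnion J).card ≤ BadJ.card + 40 * T := by omega
        exact (Nat.mul_le_mul_left _ e3).trans hJ)
      (R a) ((hRX a).trans hX) (hRn a) (hRk a)
      ((Nat.mul_le_mul_left _ (by omega : (R a).card ≤ T)).trans hT)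
    have hne : ∀ s ∈ A, s ≠ a := fun s hs e => ha (e ▸ hs)
    refine ⟨fun s => if s = a then Ja else J s, fun s => if s = a then Za else Z s, ?_, ?_, ?_⟩
    · intro s hs
      rcases mem_insert.1 hs with rfl | hs
      · simp only [if_true]
        refine ⟨hJa.trans ?_, hJa2, hZa.trans ?_, hP⟩
        · exact sdiff_subset_sdiff le_rfl subset_union_left
        · refine sdiff_subset_sdiff le_rfl ?_
          intro z hz
          rw [mem_union, mem_union, mem_union]
          rw [mem_union] at hz
          tauto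
      · simp only [if_neg (hne s hs)]
        exact h1 s hs
    · have key : ∀ s ∈ A, Disjoint Ja (J s) := by
        intro s hs
        rw [disjoint_left]
        intro j hj hj'
        have := (mem_sdiff.1 (hJa hj)).2
        exact this (mem_union_right _ (mem_biUnion.2 ⟨s, hs, hj'⟩))
      intro s hs s' hs' hss
      rcases mem_insert.1 hs with rfl | ks
      · rcases mem_insert.1 hs' with rfl | ks'
        · exact absurd rfl hss
        · simp only [if_true, if_neg (hne s' ks')]
          exact key s' ks'
      · rcases mem_insert.1 hs' with rfl | ks'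
        · simp only [if_true, if_neg (hne s ks)]
          exact (key s ks).symm
        · simp only [if_neg (hne s ks), if_neg (hne s' ks')]
          exact h2 s ks s' ks' hss
    · have key : ∀ s ∈ A, Disjoint Za (Z s) := by
        intro s hs
        rw [disjoint_left]
        intro z hz hz'
        have := (mem_sdiff.1 (hZa hz)).2
        exact this (mem_union_left _ (mem_union_right _ (mem_biUnion.2 ⟨s, hs, hz'⟩)))
      intro s hs s' hs' hss
      rcases mem_insert.1 hs with rfl | ks
      · rcases mem_insert.1 hs' with rfl | ks'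
        · exact absurd rfl hss
        · simp only [if_true, if_neg (hne s' ks')]
          exact key s' ks'
      · rcases mem_insert.1 hs' with rfl | ks'
        · simp only [if_true, if_neg (hne s ks)]
          exact (key s ks).symm
        · simp only [if_neg (hne s ks), if_neg (hne s' ks')]
          exact h3 s ks s' ks' hss

end AbsorbAux

open AbsorbAux

theorem stAbsorb (h1 : StPackUnion) (h2 : Nibble.StTemplate) (h3 : StSlot) : StAbsorb := by
  obtain ⟨C, hC⟩ := h2
  intro Q μ hQ hμ
  obtain ⟨N3, hN3⟩ := h3 Q hQ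
  have hQ0 : (0 : ℝ) < Q := by
    have : (100 : ℝ) ≤ Q := by exact_mod_cast hQ
    linarith
  have hC0 : (0 : ℝ) < (C : ℝ) + 1 := by positivity
  refine ⟨min (μ / (40 * ((C : ℝ) + 1))) (1 / (10 ^ 6 * Q * ((C : ℝ) + 1))),
    lt_min (by positivity) (by positivity), max N3 100, ?_⟩
  intro n hn _ U BadE BadJ hE hJ Y u hYA hYc hu
  have hn3 : N3 ≤ n := (le_max_left _ _).trans hn
  have hn100 : 100 ≤ n := (le_max_right _ _).trans hn
  -- sizes
  have hYn : 10 ^ 6 * Q * ((C + 1) * Y.card) ≤ n := by
    have k1 : (Y.card : ℝ) ≤ 1 / (10 ^ 6 * Q * ((C : ℝ) + 1)) * n :=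
      hYc.trans (mul_le_mul_of_nonneg_right (min_le_right _ _) (Nat.cast_nonneg _))
    have k2 : (10 ^ 6 * Q * ((C : ℝ) + 1)) * (Y.card : ℝ) ≤ n := by
      calc (10 ^ 6 * Q * ((C : ℝ) + 1)) * (Y.card : ℝ)
          ≤ (10 ^ 6 * Q * ((C : ℝ) + 1)) * (1 / (10 ^ 6 * Q * ((C : ℝ) + 1)) * n) :=
            mul_le_mul_of_nonneg_left k1 (by positivity)
        _ = n := by field_simp
    have k3 : ((10 ^ 6 * Q * ((C + 1) * Y.card) : ℕ) : ℝ) ≤ (n : ℝ) := by
      push_cast
      linarith
    exact_mod_cast k3
  have hYμ : ((40 * (C * Y.card) : ℕ) : ℝ) ≤ μ * n := by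
    have k1 : (Y.card : ℝ) ≤ μ / (40 * ((C : ℝ) + 1)) * n :=
      hYc.trans (mul_le_mul_of_nonneg_right (min_le_left _ _) (Nat.cast_nonneg _))
    have k2 : (40 * ((C : ℝ) + 1)) * (Y.card : ℝ) ≤ μ * n := by
      calc (40 * ((C : ℝ) + 1)) * (Y.card : ℝ)
          ≤ (40 * ((C : ℝ) + 1)) * (μ / (40 * ((C : ℝ) + 1)) * n) :=
            mul_le_mul_of_nonneg_left k1 (by positivity)
        _ = μ * n := by field_simp
    have k3 : (0 : ℝ) ≤ Y.card := Nat.cast_nonneg _
    push_cast
    nlinarith
  have hYn6 : 10 ^ 6 * Y.card ≤ n := by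
    refine le_trans ?_ hYn
    have k1 : Y.card ≤ Q * ((C + 1) * Y.card) := by
      calc Y.card = 1 * (1 * Y.card) := by ring
        _ ≤ Q * ((C + 1) * Y.card) :=
          Nat.mul_le_mul (by omega) (Nat.mul_le_mul_right _ (by omega))
    calc 10 ^ 6 * Y.card ≤ 10 ^ 6 * (Q * ((C + 1) * Y.card)) := Nat.mul_le_mul_left _ k1
      _ = _ := by ring
  -- numbers
  set m : Fin 3 → ℕ := fun t => kc Y t - u t with hm
  have hmu : ∀ t, kc Y t = m t + u t := by
    intro t
    have := hu t
    simp only [hm]
    omega
  have hum : ∀ t, u t ≤ m t := by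
    intro t
    have := hu t
    simp only [hm]
    omega
  have hkcsum : ∀ S : Finset (Elt n), ∑ t, kc S t = S.card := by
    intro S
    exact (Finset.card_eq_sum_card_fiberwise (f := kd) (s := S) (t := univ)
      (fun _ _ => by simp)).symm
  have hmY : ∑ t, m t ≤ Y.card := by
    rw [← hkcsum Y]
    exact sum_le_sum fun t _ => by rw [hmu t]; omega
  have hkcY : ∀ t, kc Y t ≤ Y.card := fun t => card_filter_le _ _
  -- fixed items
  have hW : ∀ t, ∃ W ⊆ ((All n).filter fun z => kd z = t) \ (BadE ∪ Y), W.card = 2 * m t := by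
    intro t
    apply exists_subset_card_eq
    by_cases h0 : m t = 0
    · rw [h0]; omega
    · have hpos : 0 < kc Y t := by rw [hmu t]; omega
      obtain ⟨y, hy⟩ := card_pos.1 hpos
      have k1 := kind_large t y (mem_filter.1 hy).2
      have k2 := le_card_sdiff (BadE ∪ Y) ((All n).filter fun z => kd z = t)
      have k3 := card_union_le BadE Y
      have k4 := hkcY t
      have k5 := hmu t
      omega
  choose W hWs hWc using hW
  have hWk : ∀ t, ∀ z ∈ W t, kd z = t := fun t z hz =>
    (mem_filter.1 (mem_sdiff.1 (hWs t hz)).1).2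
  have hWA : ∀ t, ∀ z ∈ W t, z ∈ All n := fun t z hz =>
    (mem_filter.1 (mem_sdiff.1 (hWs t hz)).1).1
  have hWb : ∀ t, ∀ z ∈ W t, z ∉ BadE ∪ Y := fun t z hz => (mem_sdiff.1 (hWs t hz)).2
  -- enumeration of the items
  have hYt : ∀ t, (Y.filter fun y => kd y = t).card = m t + u t := fun t => hmu t
  set eY : ∀ t, Fin (m t + u t) → Elt n := fun t i =>
    (((Y.filter fun y => kd y = t).equivFinOfCardEq (hYt t)).symm i : Elt n) with heY
  set eW : ∀ t, Fin (2 * m t) → Elt n := fun t i =>
    (((W t).equivFinOfCardEq (hWc t)).symm i : Elt n) with heW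
  have eYmem : ∀ t i, eY t i ∈ Y ∧ kd (eY t i) = t := fun t i =>
    mem_filter.1 (((Y.filter fun y => kd y = t).equivFinOfCardEq (hYt t)).symm i).2
  have eWmem : ∀ t i, eW t i ∈ W t := fun t i =>
    (((W t).equivFinOfCardEq (hWc t)).symm i).2
  have eYinj : ∀ t, Function.Injective (eY t) := by
    intro t i j h
    exact (Equiv.injective _) (Subtype.ext h)
  have eWinj : ∀ t, Function.Injective (eW t) := by
    intro t i j h
    exact (Equiv.injective _) (Subtype.ext h)
  have eYsurj : ∀ t, ∀ y ∈ Y, kd y = t → ∃ i, eY t i = y := by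
    intro t y hy hk
    refine ⟨(Y.filter fun y => kd y = t).equivFinOfCardEq (hYt t) ⟨y, mem_filter.2 ⟨hy, hk⟩⟩, ?_⟩
    simp only [heY, Equiv.symm_apply_apply]
  set it : ∀ t, Fin (m t + u t) ⊕ Fin (2 * m t) → Elt n := fun t => Sum.elim (eY t) (eW t)
    with hit
  have itinj : ∀ t, Function.Injective (it t) := by
    intro t x y h
    rcases x with x | x <;> rcases y with y | y
    · exact congrArg Sum.inl (eYinj t h)
    · have h' : eY t x = eW t y := h
      have := hWb t _ (eWmem t y)
      rw [← h'] at this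
      exact absurd (mem_union_right _ (eYmem t x).1) this
    · have h' : eW t x = eY t y := h
      have := hWb t _ (eWmem t x)
      rw [h'] at this
      exact absurd (mem_union_right _ (eYmem t y).1) this
    · exact congrArg Sum.inr (eWinj t h)
  have itk : ∀ t x, kd (it t x) = t := by
    intro t x
    rcases x with x | x
    · exact (eYmem t x).2
    · exact hWk t _ (eWmem t x)
  -- the template
  choose Rt hRt1 hRt2 using fun t => hC (m t) (u t) (hum t)
  set R : (Σ t : Fin 3, Fin (3 * m t)) → Finset (Elt n) := fun s => (Rt s.1 s.2).image (it s.1)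
    with hR
  set X : Finset (Elt n) := Y ∪ univ.biUnion W with hXdef
  have hXA : X ⊆ All n := by
    intro z hz
    rcases mem_union.1 hz with h | h
    · exact hYA h
    · obtain ⟨t, _, ht⟩ := mem_biUnion.1 h
      exact hWA t z ht
  have itX : ∀ t x, it t x ∈ X := by
    intro t x
    rcases x with x | x
    · exact mem_union_left _ (eYmem t x).1
    · exact mem_union_right _ (mem_biUnion.2 ⟨t, mem_univ _, eWmem t x⟩)
  have hRX : ∀ s, R s ⊆ X := by
    intro s z hz
    obtain ⟨x, _, rfl⟩ := mem_image.1 hz
    exact itX _ _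
  have hRn : ∀ s, (R s).Nonempty := by
    rintro ⟨t, i⟩
    obtain ⟨Y0, _, hY0⟩ := exists_subset_card_eq
      (s := (univ : Finset (Fin (m t + u t)))) (n := m t) (by simp)
    obtain ⟨g, _, hg, _⟩ := hRt2 t Y0 hY0
    exact ⟨it t (g i), mem_image_of_mem _ (hg i)⟩
  have hRk : ∀ s, ∀ y ∈ R s, ∀ y' ∈ R s, kd y = kd y' := by
    intro s y hy y' hy'
    obtain ⟨x, _, rfl⟩ := mem_image.1 hy
    obtain ⟨x', _, rfl⟩ := mem_image.1 hy'
    rw [itk, itk]
  have hRsum : ∑ s, (R s).card ≤ C * Y.card := by
    calc ∑ s, (R s).card ≤ ∑ s : (Σ t : Fin 3, Fin (3 * m t)), (Rt s.1 s.2).card :=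
          sum_le_sum fun s _ => card_image_le
      _ = ∑ t, ∑ i, (Rt t i).card := by rw [Fintype.sum_sigma]
      _ ≤ ∑ t, C * m t := sum_le_sum fun t _ => hRt1 t
      _ = C * ∑ t, m t := by rw [mul_sum]
      _ ≤ C * Y.card := Nat.mul_le_mul_left _ hmY
  have hXc : X.card ≤ 3 * Y.card := by
    have k1 := card_union_le Y (univ.biUnion W)
    have k2 : (univ.biUnion W).card ≤ ∑ t, 2 * m t := by
      refine card_biUnion_le.trans (le_of_eq ?_)
      exact sum_congr rfl fun t _ => hWc t
    rw [← mul_sum] at k2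
    rw [← hXdef] at k1
    omega
  have hQC : Y.card ≤ Q * ((C + 1) * Y.card) := by
    calc Y.card = 1 * (1 * Y.card) := by ring
      _ ≤ Q * ((C + 1) * Y.card) :=
        Nat.mul_le_mul (by omega) (Nat.mul_le_mul_right _ (by omega))
  obtain ⟨J, Z, hJZ, hJd, hZd⟩ := iter (fun U BadE BadJ => hN3 n hn3 U BadE BadJ) U BadE X BadJ
    (C * Y.card) R hXA hRX hRn hRk
    (by
      have k1 : Q * (C * Y.card) ≤ Q * ((C + 1) * Y.card) :=
        Nat.mul_le_mul_left _ (Nat.mul_le_mul_right _ (by omega))
      have k2 : 120 * Q * (C * Y.card) = 120 * (Q * (C * Y.card)) := by ring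
      have k3 : 10 ^ 6 * Q * ((C + 1) * Y.card) = 10 ^ 6 * (Q * ((C + 1) * Y.card)) := by ring
      rw [k3] at hYn
      rw [k2]
      omega)
    (by
      have k1 : Q * (C * Y.card) ≤ Q * ((C + 1) * Y.card) :=
        Nat.mul_le_mul_left _ (Nat.mul_le_mul_right _ (by omega))
      have k2 : 60 * Q * (BadJ.card + 40 * (C * Y.card)) =
        60 * (Q * BadJ.card) + 2400 * (Q * (C * Y.card)) := by ring
      have k3 : 10 ^ 6 * Q * ((C + 1) * Y.card) = 10 ^ 6 * (Q * ((C + 1) * Y.card)) := by ring
      have k4 : 100 * Q * BadJ.card = 100 * (Q * BadJ.card) := by ring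
      rw [k3] at hYn
      rw [k4] at hJ
      rw [k2]
      omega)
    (by
      refine le_trans ?_ hYn
      exact Nat.mul_le_mul_left _ (Nat.mul_le_mul_right _ (by omega)))
    univ hRsum
  refine ⟨univ.biUnion J, ?_, ?_, univ.biUnion W ∪ univ.biUnion Z, ?_, ?_⟩
  · intro j hj
    obtain ⟨s, hs, hjs⟩ := mem_biUnion.1 hj
    exact (hJZ s hs).1 hjs
  · refine le_trans ?_ hYμ
    have : (univ.biUnion J).card ≤ 40 * (C * Y.card) := by
      refine card_biUnion_le.trans ?_
      calc ∑ s, (J s).card ≤ ∑ s, 40 * (R s).card := sum_le_sum fun s hs => (hJZ s hs).2.1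
        _ = 40 * ∑ s, (R s).card := by rw [mul_sum]
        _ ≤ _ := Nat.mul_le_mul_left _ hRsum
    exact_mod_cast this
  · intro z hz
    rcases mem_union.1 hz with h | h
    · obtain ⟨t, _, ht⟩ := mem_biUnion.1 h
      exact mem_sdiff.2 ⟨hWA t z ht, hWb t z ht⟩
    · obtain ⟨s, hs, hzs⟩ := mem_biUnion.1 h
      have k := mem_sdiff.1 ((hJZ s hs).2.2.1 hzs)
      refine mem_sdiff.2 ⟨k.1, fun h' => k.2 ?_⟩
      rcases mem_union.1 h' with h' | h'
      · exact mem_union_left _ h'
      · exact mem_union_right _ (mem_union_left _ h')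
  · intro Y' hY' hkc
    have hkc' : ∀ t, kc Y' t = m t := by
      intro t
      have k1 := hkc t
      have k2 := hmu t
      omega
    -- the matchings
    have hF : ∀ t, (univ.filter fun i : Fin (m t + u t) => eY t i ∈ Y').card = m t := by
      intro t
      refine Eq.trans ?_ (hkc' t)
      unfold kc
      have e : (Y'.filter fun y => kd y = t) =
          (univ.filter fun i : Fin (m t + u t) => eY t i ∈ Y').image (eY t) := by
        ext z
        rw [mem_filter, mem_image]
        constructor
        · rintro ⟨hz, hk⟩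
          obtain ⟨i, rfl⟩ := eYsurj t z (hY' hz) hk
          exact ⟨i, mem_filter.2 ⟨mem_univ _, hz⟩, rfl⟩
        · rintro ⟨i, hi, rfl⟩
          exact ⟨(mem_filter.1 hi).2, (eYmem t i).2⟩
      rw [e, card_image_of_injective _ (eYinj t)]
    choose g hginj hgR hgY using fun t => hRt2 t _ (hF t)
    set y : (Σ t : Fin 3, Fin (3 * m t)) → Elt n := fun s => it s.1 (g s.1 s.2) with hy
    have hyR : ∀ s, y s ∈ R s := fun s => mem_image_of_mem _ (hgR s.1 s.2)
    have hyinj : Function.Injective y := by
      rintro ⟨t, i⟩ ⟨t', i'⟩ h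
      have hk : t = t' := by
        have k1 := itk t (g t i)
        have k2 := itk t' (g t' i')
        have h' : it t (g t i) = it t' (g t' i') := h
        rw [h', k2] at k1
        exact k1.symm
      subst hk
      have h' : it t (g t i) = it t (g t i') := h
      rw [hginj t (itinj t h')]
    have hyX : ∀ s, y s ∈ X := fun s => hRX s (hyR s)
    have hZX : ∀ s, ∀ z ∈ Z s, z ∉ X := by
      intro s z hz hzX
      exact (mem_sdiff.1 ((hJZ s (mem_univ s)).2.2.1 hz)).2 (mem_union_right _ hzX)
    have main := packable_biUnion h1 J (fun s => insert (y s) (Z s)) univ hJd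
      (by
        intro s hs s' hs' hss
        rw [disjoint_left]
        intro z hz hz'
        rcases mem_insert.1 hz with rfl | hz
        · rcases mem_insert.1 hz' with h | hz'
          · exact hss (hyinj h)
          · exact hZX s' _ hz' (hyX s)
        · rcases mem_insert.1 hz' with rfl | hz'
          · exact hZX s _ hz (hyX s')
          · exact (disjoint_left.1 (hZd s hs s' hs' hss)) hz hz')
      (fun s hs => (hJZ s hs).2.2.2 (y s) (hyR s))
    have himg : univ.image y = univ.biUnion W ∪ Y' := by
      apply eq_of_subset_of_card_le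
      · intro z hz
        obtain ⟨⟨t, i⟩, _, rfl⟩ := mem_image.1 hz
        rcases hgi : g t i with x | x
        · have h' : y ⟨t, i⟩ = eY t x := by
            show it t (g t i) = _
            rw [hgi]
            rfl
          rw [h']
          exact mem_union_right _ (mem_filter.1 (hgY t i x hgi)).2
        · have h' : y ⟨t, i⟩ = eW t x := by
            show it t (g t i) = _
            rw [hgi]
            rfl
          rw [h']
          exact mem_union_left _ (mem_biUnion.2 ⟨t, mem_univ _, eWmem t x⟩)
      · rw [card_image_of_injective _ hyinj]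
        have k1 := card_union_le (univ.biUnion W) Y'
        have k2 : (univ.biUnion W).card ≤ ∑ t, 2 * m t := by
          refine card_biUnion_le.trans (le_of_eq ?_)
          exact sum_congr rfl fun t _ => hWc t
        have k3 : Y'.card = ∑ t, m t := by
          rw [← hkcsum Y']
          exact sum_congr rfl fun t _ => hkc' t
        have k4 : (univ : Finset (Σ t : Fin 3, Fin (3 * m t))).card = ∑ t, 3 * m t := by
          rw [card_univ, Fintype.card_sigma]
          exact sum_congr rfl fun t _ => by rw [Fintype.card_fin]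
        rw [← mul_sum] at k2 k4
        omega
    have heq : (univ.biUnion fun s => insert (y s) (Z s)) =
        univ.biUnion W ∪ univ.biUnion Z ∪ Y' := by
      have e1 : (univ.biUnion fun s => insert (y s) (Z s)) = univ.image y ∪ univ.biUnion Z := by
        ext z
        simp only [mem_biUnion, mem_insert, mem_union, mem_image, mem_univ, true_and]
        constructor
        · rintro ⟨s, rfl | h⟩
          · exact Or.inl ⟨s, rfl⟩
          · exact Or.inr ⟨s, h⟩
        · rintro (⟨s, rfl⟩ | ⟨s, h⟩)
          · exact ⟨s, Or.inl rfl⟩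
          · exact ⟨s, Or.inr h⟩
      rw [e1, himg, union_right_comm]
    rw [heq] at main
    exact main

end Pool.Agent.DNA
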