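import Pool.Agent.Lib.MP_845d9b_co.Abs.Stmts

/-!
# Anchors: `StAnchors` (helper28)

The values at the fixed times are chosen greedily, controlled by an exponential potential.
-/

set_option autoImplicit false

namespace Pool.Agent.DNA.Anchors

open Finset Pool.Agent.DNA

variable {n : ℕ}

/-- points used by the times in `T` -/
def Pts (U : ℕ → ZMod n) (T : Finset ℕ) : Finset (ZMod n) :=
  T.biUnion fun k => {U k, U k - (k : ZMod n)}

/-- number of pairs with difference `s` -/
def SX (A : Finset (ZMod n)) (s : ZMod n) : ℕ := (A ∩ A.image (· + s)).card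

/-- number of times on the two lines through `x` -/
def SY (F : Finset ℕ) (A : Finset (ZMod n)) (x : ZMod n) : ℕ :=
  (F.filter fun k : ℕ => x + (k : ZMod n) ∈ A).card +
    (F.filter fun k : ℕ => x - (k : ZMod n) ∈ A).card

/-- number of processed times equal to `s` or `-s` -/
def Eta (T : Finset ℕ) (s : ZMod n) : ℕ :=
  (T.filter fun k : ℕ => s = (k : ZMod n)).card + (T.filter fun k : ℕ => s = -(k : ZMod n)).card

/-- increase of `SX` -/
def IX (A : Finset (ZMod n)) (s : ZMod n) (t : ℕ) (v : ZMod n) : ℕ :=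
  (if v - s ∈ A then 1 else 0) + (if v - (t : ZMod n) - s ∈ A then 1 else 0) +
    ((if v + s ∈ A then 1 else 0) + (if v - (t : ZMod n) + s ∈ A then 1 else 0))

/-- increase of `SY` -/
def IY (F : Finset ℕ) (x : ZMod n) (t : ℕ) (v : ZMod n) : ℕ :=
  (F.filter fun k : ℕ => x + (k : ZMod n) = v).card +
    (F.filter fun k : ℕ => x + (k : ZMod n) = v - (t : ZMod n)).card +
  ((F.filter fun k : ℕ => x - (k : ZMod n) = v).card +
    (F.filter fun k : ℕ => x - (k : ZMod n) = v - (t : ZMod n)).card)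

lemma card_ite_le (p : Prop) [Decidable p] (y : ZMod n) :
    (if p then ({y} : Finset (ZMod n)) else ∅).card ≤ if p then 1 else 0 := by
  split_ifs <;> simp

lemma SX_step (A : Finset (ZMod n)) {s : ZMod n} (hs : s ≠ 0) (t : ℕ) (v : ZMod n) :
    SX (A ∪ {v, v - (t : ZMod n)}) s ≤ SX A s + IX A s t v +
      ((if s = (t : ZMod n) then 1 else 0) + (if s = -(t : ZMod n) then 1 else 0)) := by
  have hsub : (A ∪ {v, v - (t : ZMod n)}) ∩ (A ∪ {v, v - (t : ZMod n)}).image (· + s) ⊆
      (A ∩ A.image (· + s)) ∪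
      (((if v - s ∈ A then {v} else ∅) ∪ (if v - (t : ZMod n) - s ∈ A then {v - (t : ZMod n)} else ∅)) ∪
      ((if v + s ∈ A then {v + s} else ∅) ∪
        (if v - (t : ZMod n) + s ∈ A then {v - (t : ZMod n) + s} else ∅))) ∪
      ((if s = (t : ZMod n) then {v} else ∅) ∪
        (if s = -(t : ZMod n) then {v - (t : ZMod n)} else ∅)) := by
    intro y hy
    rw [mem_inter, mem_image] at hy
    obtain ⟨h1, z, hz, rfl⟩ := hy
    simp only [mem_union, mem_insert, mem_singleton] at h1 hz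
    simp only [mem_union, mem_inter, mem_image]
    rcases h1 with h1 | h1 | h1 <;> rcases hz with hz | hz | hz
    · exact Or.inl (Or.inl ⟨h1, z, hz, rfl⟩)
    · subst hz
      refine Or.inl (Or.inr (Or.inr (Or.inl ?_)))
      rw [if_pos h1, mem_singleton]
    · subst hz
      refine Or.inl (Or.inr (Or.inr (Or.inr ?_)))
      rw [if_pos h1, mem_singleton]
    · refine Or.inl (Or.inr (Or.inl (Or.inl ?_)))
      have : v - s = z := by rw [← h1]; ring
      rw [if_pos (this ▸ hz), mem_singleton, h1]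
    · exfalso
      apply hs
      rw [hz] at h1
      simpa using h1
    · refine Or.inr (Or.inl ?_)
      have : s = (t : ZMod n) := by
        rw [hz] at h1
        linear_combination h1
      rw [if_pos this, mem_singleton, h1]
    · refine Or.inl (Or.inr (Or.inl (Or.inr ?_)))
      have : v - (t : ZMod n) - s = z := by rw [← h1]; ring
      rw [if_pos (this ▸ hz), mem_singleton, h1]
    · refine Or.inr (Or.inr ?_)
      have : s = -(t : ZMod n) := by
        rw [hz] at h1
        linear_combination h1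
      rw [if_pos this, mem_singleton, h1]
    · exfalso
      apply hs
      rw [hz] at h1
      linear_combination h1
  refine (card_le_card hsub).trans ?_
  refine (card_union_le _ _).trans ?_
  refine Nat.add_le_add ((card_union_le _ _).trans (Nat.add_le_add le_rfl ?_)) ?_
  · refine (card_union_le _ _).trans (Nat.add_le_add ?_ ?_)
    · exact (card_union_le _ _).trans (Nat.add_le_add (card_ite_le _ _) (card_ite_le _ _))
    · exact (card_union_le _ _).trans (Nat.add_le_add (card_ite_le _ _) (card_ite_le _ _))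
  · exact (card_union_le _ _).trans (Nat.add_le_add (card_ite_le _ _) (card_ite_le _ _))

lemma SY_step (F : Finset ℕ) (A : Finset (ZMod n)) (x : ZMod n) (t : ℕ) (v : ZMod n) :
    SY F (A ∪ {v, v - (t : ZMod n)}) x ≤ SY F A x + IY F x t v := by
  have key : ∀ g : ℕ → ZMod n, (F.filter fun k : ℕ => g k ∈ A ∪ {v, v - (t : ZMod n)}).card ≤
      (F.filter fun k : ℕ => g k ∈ A).card + ((F.filter fun k : ℕ => g k = v).card +
        (F.filter fun k : ℕ => g k = v - (t : ZMod n)).card) := by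
    intro g
    have hsub : (F.filter fun k : ℕ => g k ∈ A ∪ {v, v - (t : ZMod n)}) ⊆
        (F.filter fun k : ℕ => g k ∈ A) ∪ ((F.filter fun k : ℕ => g k = v) ∪
        (F.filter fun k : ℕ => g k = v - (t : ZMod n))) := by
      intro k hk
      simp only [mem_filter, mem_union, mem_insert, mem_singleton] at hk ⊢
      tauto
    exact (card_le_card hsub).trans ((card_union_le _ _).trans
      (Nat.add_le_add le_rfl (card_union_le _ _)))
  have h1 := key fun k => x + (k : ZMod n)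
  have h2 := key fun k => x - (k : ZMod n)
  unfold SY IY
  omega

lemma Eta_insert {T : Finset ℕ} {t : ℕ} (ht : t ∉ T) (s : ZMod n) :
    Eta (insert t T) s = Eta T s +
      ((if s = (t : ZMod n) then 1 else 0) + (if s = -(t : ZMod n) then 1 else 0)) := by
  unfold Eta
  rw [filter_insert, filter_insert]
  have h1 : t ∉ T.filter fun k : ℕ => s = (k : ZMod n) := fun h => ht (mem_filter.mp h).1
  have h2 : t ∉ T.filter fun k : ℕ => s = -(k : ZMod n) := fun h => ht (mem_filter.mp h).1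
  split_ifs <;> simp [card_insert_of_notMem, h1, h2] <;> omega

lemma IX_le (A : Finset (ZMod n)) (s : ZMod n) (t : ℕ) (v : ZMod n) : IX A s t v ≤ 4 := by
  unfold IX
  split_ifs <;> omega

lemma card_le_one_of_inj {F : Finset ℕ} (hF : ∀ k ∈ F, k < n) (g : ℕ → ZMod n)
    (hg : ∀ k k', g k = g k' → (k : ZMod n) = (k' : ZMod n)) (y : ZMod n) :
    (F.filter fun k : ℕ => g k = y).card ≤ 1 := by
  rw [card_le_one]
  intro a ha b hb
  rw [mem_filter] at ha hb
  have h1 := hg a b (ha.2.trans hb.2.symm)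
  have h2 := (ZMod.natCast_eq_natCast_iff' a b n).mp h1
  rwa [Nat.mod_eq_of_lt (hF a ha.1), Nat.mod_eq_of_lt (hF b hb.1)] at h2

lemma IY_le {F : Finset ℕ} (hF : ∀ k ∈ F, k < n) (x : ZMod n) (t : ℕ) (v : ZMod n) :
    IY F x t v ≤ 4 := by
  have h1 := card_le_one_of_inj hF (fun k => x + (k : ZMod n)) (fun k k' h => add_left_cancel h)
  have h2 := card_le_one_of_inj hF (fun k => x - (k : ZMod n))
    (fun k k' h => by simpa using h)
  have a1 := h1 v
  have a2 := h1 (v - (t : ZMod n))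
  have a3 := h2 v
  have a4 := h2 (v - (t : ZMod n))
  unfold IY
  omega

lemma Eta_le {F : Finset ℕ} (hF : ∀ k ∈ F, k < n) (s : ZMod n) : Eta F s ≤ 2 := by
  have h1 := card_le_one_of_inj hF (fun k => (k : ZMod n)) (fun k k' h => h) s
  have h2 := card_le_one_of_inj hF (fun k => -(k : ZMod n)) (fun k k' h => neg_injective h) s
  unfold Eta
  have e1 : (F.filter fun k : ℕ => s = (k : ZMod n)) = F.filter fun k : ℕ => (k : ZMod n) = s :=
    filter_congr fun k _ => eq_comm
  have e2 : (F.filter fun k : ℕ => s = -(k : ZMod n)) = F.filter fun k : ℕ => -(k : ZMod n) = s :=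
    filter_congr fun k _ => eq_comm
  rw [e1, e2]
  omega

lemma sum_ind_le [NeZero n] (A : Finset (ZMod n)) (g : ZMod n → ZMod n)
    (hg : Function.Injective g) (V : Finset (ZMod n)) :
    ∑ v ∈ V, (if g v ∈ A then 1 else 0) ≤ A.card := by
  rw [sum_boole, Nat.cast_id]
  exact card_le_card_of_injOn g (fun v hv => by simpa using (mem_filter.mp hv).2)
    (fun a _ b _ h => hg h)

lemma sum_IX_le [NeZero n] (A : Finset (ZMod n)) (s : ZMod n) (t : ℕ) (V : Finset (ZMod n)) :
    ∑ v ∈ V, IX A s t v ≤ 4 * A.card := by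
  have h1 := sum_ind_le A (fun v => v - s) (sub_left_injective) V
  have h2 := sum_ind_le A (fun v => v - (t : ZMod n) - s)
    (fun a b h => by simpa using h) V
  have h3 := sum_ind_le A (fun v => v + s) (add_left_injective s) V
  have h4 := sum_ind_le A (fun v => v - (t : ZMod n) + s)
    (fun a b h => by simpa using h) V
  unfold IX
  simp only [sum_add_distrib]
  omega

lemma sum_card_le [NeZero n] (F : Finset ℕ) (g : ℕ → ZMod n) (h : ZMod n → ZMod n)
    (hh : Function.Injective h) (V : Finset (ZMod n)) :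
    ∑ v ∈ V, (F.filter fun k : ℕ => g k = h v).card ≤ F.card := by
  simp only [card_filter]
  rw [sum_comm]
  calc ∑ y ∈ F, ∑ x ∈ V, (if g y = h x then 1 else 0) ≤ ∑ y ∈ F, 1 := by
        refine sum_le_sum fun k _ => ?_
        rw [sum_boole, Nat.cast_id, card_le_one]
        intro a ha b hb
        rw [mem_filter] at ha hb
        exact hh (ha.2.symm.trans hb.2)
    _ = F.card := by simp

lemma sum_IY_le [NeZero n] (F : Finset ℕ) (x : ZMod n) (t : ℕ) (V : Finset (ZMod n)) :
    ∑ v ∈ V, IY F x t v ≤ 4 * F.card := by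
  have h1 := sum_card_le F (fun k => x + (k : ZMod n)) (fun v => v) (fun _ _ h => h) V
  have h2 := sum_card_le F (fun k => x + (k : ZMod n)) (fun v => v - (t : ZMod n))
    (sub_left_injective) V
  have h3 := sum_card_le F (fun k => x - (k : ZMod n)) (fun v => v) (fun _ _ h => h) V
  have h4 := sum_card_le F (fun k => x - (k : ZMod n)) (fun v => v - (t : ZMod n))
    (sub_left_injective) V
  unfold IY
  simp only [sum_add_distrib]
  omega

/-! ## The exponential inequality -/

lemma exp_le_lin {k : ℕ} (hk : k ≤ 4) : Real.exp ((k : ℝ) / 8) ≤ 1 + 0.1625 * k := by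
  set q := Real.exp (1 / 8) with hq
  have hq0 : 0 < q := Real.exp_pos _
  have hq8 : q ^ 8 = Real.exp 1 := by
    rw [hq, ← Real.exp_nat_mul]
    norm_num
  have hq1 : q ≤ 1.1332 := by
    by_contra h
    push Not at h
    have h1 : (1.1332 : ℝ) ^ 8 < q ^ 8 := pow_lt_pow_left₀ h (by norm_num) (by norm_num)
    rw [hq8] at h1
    have h2 := Real.exp_one_lt_d9
    norm_num at h1 h2
    linarith
  have hk' : Real.exp ((k : ℝ) / 8) = q ^ k := by
    rw [hq, ← Real.exp_nat_mul]
    congr 1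
    ring
  rw [hk']
  have h1 : q ^ k ≤ (1.1332 : ℝ) ^ k := pow_le_pow_left₀ hq0.le hq1 k
  refine h1.trans ?_
  interval_cases k <;> norm_num

lemma exists_step {ι : Type*} [Fintype ι] (V : Finset (ZMod n)) (hV : V.Nonempty) (e : ι → ℝ)
    (he : ∀ i, 0 ≤ e i) (I : ι → ZMod n → ℕ) (hI : ∀ i v, I i v ≤ 4) (M : ℝ)
    (hM : ∀ i, ∑ v ∈ V, (I i v : ℝ) ≤ M) :
    ∃ v ∈ V, ∑ i, e i * Real.exp ((I i v : ℝ) / 8) ≤ (1 + 0.1625 * M / V.card) * ∑ i, e i := by
  refine exists_le_of_sum_le hV ?_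
  have hc : (0 : ℝ) < V.card := by exact_mod_cast hV.card_pos
  rw [sum_const, nsmul_eq_mul, sum_comm]
  calc ∑ i, ∑ v ∈ V, e i * Real.exp ((I i v : ℝ) / 8)
      ≤ ∑ i, e i * (V.card + 0.1625 * M) := by
        refine sum_le_sum fun i _ => ?_
        rw [← mul_sum]
        refine mul_le_mul_of_nonneg_left ?_ (he i)
        calc ∑ v ∈ V, Real.exp ((I i v : ℝ) / 8) ≤ ∑ v ∈ V, (1 + 0.1625 * (I i v : ℝ)) :=
              sum_le_sum fun v _ => exp_le_lin (hI i v)
          _ = V.card + 0.1625 * ∑ v ∈ V, (I i v : ℝ) := by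
              rw [sum_add_distrib, ← mul_sum]; simp
          _ ≤ V.card + 0.1625 * M := by
              have := hM i
              linarith
    _ = V.card * ((1 + 0.1625 * M / V.card) * ∑ i, e i) := by
        rw [← sum_mul]
        field_simp

/-! ## The invariant -/

/-- the processed times -/
def Tt (n Q t : ℕ) : Finset ℕ := (FixT n Q).filter (· < t)

lemma mem_Tt {n Q t k : ℕ} : k ∈ Tt n Q t ↔ k ∈ FixT n Q ∧ k < t := by
  unfold Tt; rw [mem_filter]

/-- exponents -/
noncomputable def Ex (n Q : ℕ) (U : ℕ → ZMod n) (T : Finset ℕ) : ZMod n ⊕ ZMod n → ℝ :=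
  Sum.elim (fun s => if s = 0 then 0 else ((SX (Pts U T) s : ℝ) - (Eta T s : ℝ)) / 8)
    (fun x => (SY (FixT n Q) (Pts U T) x : ℝ) / 8)

structure Inv (n Q : ℕ) [NeZero n] (U : ℕ → ZMod n) (t : ℕ) : Prop where
  up : ∀ k ∈ Tt n Q t, ∀ k' ∈ Tt n Q t, U k = U k' → k = k'
  lo : ∀ k ∈ Tt n Q t, ∀ k' ∈ Tt n Q t, U k - (k : ZMod n) = U k' - (k' : ZMod n) → k = k'
  ul : ∀ k ∈ Tt n Q t, ∀ k' ∈ Tt n Q t, U k = U k' - (k' : ZMod n) → k = 0 ∧ k' = 0
  ok : ∀ k ∈ FixL n Q, k + 1 < t → ClOk (U (k + 1) - U k)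
  cls : ∀ k ∈ FixL n Q, k + 1 < t → ∀ k' ∈ FixL n Q, k' + 1 < t →
    cl (U (k + 1) - U k) = cl (U (k' + 1) - U k') → k = k'
  pot : ∑ i, Real.exp (Ex n Q U (Tt n Q t) i) ≤
    2 * n * Real.exp (3.9 * (FixT n Q).card / n * (Tt n Q t).card)

lemma FixT_lt {n Q k : ℕ} (hn : 0 < n) (hk : k ∈ FixT n Q) : k < n := by
  unfold FixT at hk
  rw [mem_filter, mem_Icc] at hk
  have := hk.1.2
  unfold T1 at this
  omega

lemma mem_FixT_of_FixL {n Q k : ℕ} (hQ : 1 ≤ Q) (hn : 2 * Q + 4 ≤ n) (hk : k ∈ FixL n Q) :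
    k ∈ FixT n Q ∧ k + 1 ∈ FixT n Q := by
  unfold FixL at hk
  rw [mem_union, mem_Ico, mem_Ico] at hk
  unfold FixT
  rw [mem_filter, mem_filter, mem_Icc, mem_Icc]
  have h1 : Q < T1 n := by unfold T1; omega
  have h2 : T0 n ≤ 1 := by unfold T0; omega
  rcases hk with ⟨h3, h4⟩ | ⟨h3, h4⟩
  · refine ⟨⟨⟨h3, by omega⟩, Or.inl h4⟩, ⟨by omega, by omega⟩, ?_⟩
    rcases Nat.lt_or_ge (k + 1) Q with h | h
    · exact Or.inl h
    · exact Or.inr (Or.inl (by have : k + 1 = Q := by omega
                               rw [this]))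
  · have h5 : 1 ≤ J1 n Q * Q := by
      have h6 : 1 ≤ J1 n Q := by
        unfold J1
        exact (Nat.one_le_div_iff (by omega)).mpr h1.le
      exact Nat.mul_pos h6 (by omega)
    exact ⟨⟨⟨by omega, h4.le⟩, Or.inr (Or.inr h3)⟩, ⟨by omega, h4⟩, Or.inr (Or.inr (by omega))⟩

lemma Tt_succ_of_mem {n Q t : ℕ} (ht : t ∈ FixT n Q) : Tt n Q (t + 1) = insert t (Tt n Q t) := by
  ext k
  rw [mem_Tt, mem_insert, mem_Tt]
  constructor
  · rintro ⟨h1, h2⟩
    rcases Nat.lt_or_ge k t with h | h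
    · exact Or.inr ⟨h1, h⟩
    · exact Or.inl (by omega)
  · rintro (rfl | ⟨h1, h2⟩)
    · exact ⟨ht, by omega⟩
    · exact ⟨h1, by omega⟩

lemma Tt_succ_of_notMem {n Q t : ℕ} (ht : t ∉ FixT n Q) : Tt n Q (t + 1) = Tt n Q t := by
  ext k
  rw [mem_Tt, mem_Tt]
  constructor
  · rintro ⟨h1, h2⟩
    refine ⟨h1, ?_⟩
    rcases Nat.lt_or_ge k t with h | h
    · exact h
    · exact absurd ((by omega : k = t) ▸ h1) ht
  · rintro ⟨h1, h2⟩
    exact ⟨h1, by omega⟩

lemma notMem_Tt {n Q t : ℕ} : t ∉ Tt n Q t := fun h => by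
  have := (mem_Tt.mp h).2
  omega

lemma Pts_card_le (U : ℕ → ZMod n) (T : Finset ℕ) : (Pts U T).card ≤ 2 * T.card := by
  unfold Pts
  refine card_biUnion_le.trans ?_
  calc ∑ k ∈ T, ({U k, U k - (k : ZMod n)} : Finset (ZMod n)).card ≤ ∑ k ∈ T, 2 :=
        sum_le_sum fun k _ => card_le_two
    _ = 2 * T.card := by rw [sum_const, smul_eq_mul, mul_comm]

lemma Pts_update (U : ℕ → ZMod n) {T : Finset ℕ} {t : ℕ} (ht : t ∉ T) (v : ZMod n) :
    Pts (Function.update U t v) (insert t T) = Pts U T ∪ {v, v - (t : ZMod n)} := by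
  unfold Pts
  rw [biUnion_insert, Function.update_self, union_comm]
  congr 1
  refine biUnion_congr rfl fun k hk => ?_
  have hne : k ≠ t := fun h => ht (h ▸ hk)
  simp only [Function.update_of_ne hne]

lemma mem_Pts_up {U : ℕ → ZMod n} {T : Finset ℕ} {k : ℕ} (hk : k ∈ T) : U k ∈ Pts U T := by
  unfold Pts
  rw [mem_biUnion]
  exact ⟨k, hk, by simp⟩

lemma mem_Pts_lo {U : ℕ → ZMod n} {T : Finset ℕ} {k : ℕ} (hk : k ∈ T) :
    U k - (k : ZMod n) ∈ Pts U T := by
  unfold Pts
  rw [mem_biUnion]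
  exact ⟨k, hk, by simp⟩

lemma half_card_le_one (n : ℕ) [NeZero n] :
    ((univ : Finset (ZMod n)).filter fun d => d + d = 1).card ≤ 1 := by
  rw [card_le_one]
  intro a ha b hb
  simp only [mem_filter, mem_univ, true_and] at ha hb
  rcases Nat.even_or_odd n with h | h
  · exfalso
    obtain ⟨m, hm⟩ := h
    have h2 : (2 : ℕ) ∣ n := ⟨m, by omega⟩
    have := congrArg (ZMod.castHom h2 (ZMod 2)) ha
    rw [map_add, map_one] at this
    have h3 : ∀ z : ZMod 2, z + z ≠ 1 := by decide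
    exact h3 _ this
  · obtain ⟨m, hm⟩ := h
    have h2 : (a - b) + (a - b) = 0 := by linear_combination ha - hb
    have h3 : ((2 * m + 1 : ℕ) : ZMod n) = 0 := by
      rw [← hm]
      exact ZMod.natCast_self n
    push_cast at h3
    have h4 : a - b = 0 := by
      linear_combination (a - b) * h3 - (m : ZMod n) * h2
    exact sub_eq_zero.mp h4

lemma cl_eq {w w' : ZMod n} (h : cl w = cl w') : w = w' ∨ w = 1 - w' := by
  unfold cl at h
  rw [Sym2.eq_iff] at h
  rcases h with h | h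
  · exact Or.inl h.1
  · exact Or.inr h.1

/-- excluded values -/
def Bd (n Q : ℕ) [NeZero n] (U : ℕ → ZMod n) (t : ℕ) : Finset (ZMod n) :=
  (Pts U (Tt n Q t) ∪ (Pts U (Tt n Q t)).image (· + (t : ZMod n))) ∪
  (({U (t - 1), U (t - 1) + 1} ∪ (univ.filter fun d : ZMod n => d + d = 1).image (· + U (t - 1))) ∪
  ((FixL n Q).image (fun k => U (t - 1) + (U (k + 1) - U k)) ∪
    (FixL n Q).image (fun k => U (t - 1) + (1 - (U (k + 1) - U k)))))

lemma FixL_card_le {n Q : ℕ} (hQ : 1 ≤ Q) : (FixL n Q).card ≤ 2 * Q := by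
  unfold FixL
  refine (card_union_le _ _).trans ?_
  rw [Nat.card_Ico, Nat.card_Ico]
  have h1 : T1 n < J1 n Q * Q + Q := by
    unfold J1
    exact Nat.lt_div_mul_add (by omega)
  omega

lemma Bd_card_le {n Q : ℕ} [NeZero n] (hQ : 1 ≤ Q) (U : ℕ → ZMod n) (t : ℕ) :
    (Bd n Q U t).card ≤ 4 * (FixT n Q).card + 4 * Q + 3 := by
  have h0 : (Tt n Q t).card ≤ (FixT n Q).card := card_le_card (filter_subset _ _)
  have h1 := Pts_card_le U (Tt n Q t)
  have h2 := FixL_card_le (n := n) hQ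
  have h3 := half_card_le_one n
  unfold Bd
  refine (card_union_le _ _).trans ?_
  have a1 := (card_union_le (Pts U (Tt n Q t)) ((Pts U (Tt n Q t)).image (· + (t : ZMod n)))).trans
    (Nat.add_le_add le_rfl card_image_le)
  have a2 := (card_union_le ({U (t - 1), U (t - 1) + 1} : Finset (ZMod n))
    ((univ.filter fun d : ZMod n => d + d = 1).image (· + U (t - 1)))).trans
    (Nat.add_le_add card_le_two card_image_le)
  have a3 := (card_union_le ((FixL n Q).image (fun k => U (t - 1) + (U (k + 1) - U k)))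
    ((FixL n Q).image (fun k => U (t - 1) + (1 - (U (k + 1) - U k))))).trans
    (Nat.add_le_add card_image_le card_image_le)
  have a4 := card_union_le (({U (t - 1), U (t - 1) + 1} ∪
    (univ.filter fun d : ZMod n => d + d = 1).image (· + U (t - 1))) : Finset (ZMod n))
    ((FixL n Q).image (fun k => U (t - 1) + (U (k + 1) - U k)) ∪
    (FixL n Q).image (fun k => U (t - 1) + (1 - (U (k + 1) - U k))))
  omega

lemma FixT_card_le {n Q : ℕ} (hQ : 1 ≤ Q) : Q * (FixT n Q).card ≤ T1 n + 2 * Q ^ 2 + Q := by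
  have hsub : FixT n Q ⊆ range Q ∪ ((range (J1 n Q + 1)).image (· * Q) ∪
      Icc (J1 n Q * Q) (T1 n)) := by
    intro k hk
    unfold FixT at hk
    rw [mem_filter, mem_Icc] at hk
    rw [mem_union, mem_union, mem_range, mem_image, mem_Icc]
    rcases hk.2 with h | h | h
    · exact Or.inl h
    · obtain ⟨c, hc⟩ := h
      refine Or.inr (Or.inl ⟨c, ?_, by rw [hc]; ring⟩)
      rw [mem_range]
      have : c ≤ T1 n / Q := by
        rw [Nat.le_div_iff_mul_le (by omega)]
        calc c * Q = k := by rw [hc]; ring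
          _ ≤ T1 n := hk.1.2
      unfold J1
      omega
    · exact Or.inr (Or.inr ⟨h, hk.1.2⟩)
  have h1 := card_le_card hsub
  have h2 := (card_union_le (range Q) ((range (J1 n Q + 1)).image (· * Q) ∪
      Icc (J1 n Q * Q) (T1 n)))
  have h3 := (card_union_le ((range (J1 n Q + 1)).image (· * Q)) (Icc (J1 n Q * Q) (T1 n))).trans
    (Nat.add_le_add card_image_le le_rfl)
  rw [card_range, Nat.card_Icc] at h3
  rw [card_range] at h2
  have h4 : T1 n < J1 n Q * Q + Q := by
    unfold J1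
    exact Nat.lt_div_mul_add (by omega)
  have h5 : J1 n Q * Q ≤ T1 n := by
    unfold J1
    exact Nat.div_mul_le_self _ _
  have h6 : (FixT n Q).card ≤ 2 * Q + J1 n Q + 1 := by omega
  calc Q * (FixT n Q).card ≤ Q * (2 * Q + J1 n Q + 1) := Nat.mul_le_mul_left _ h6
    _ = J1 n Q * Q + 2 * Q ^ 2 + Q := by ring
    _ ≤ T1 n + 2 * Q ^ 2 + Q := by omega

lemma base (n Q : ℕ) [NeZero n] (U : ℕ → ZMod n) : Inv n Q U 0 := by
  have h0 : Tt n Q 0 = ∅ := by
    ext k
    rw [mem_Tt]
    simp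
  refine ⟨?_, ?_, ?_, ?_, ?_, ?_⟩
  · rw [h0]; simp
  · rw [h0]; simp
  · rw [h0]; simp
  · intro k _ h; omega
  · intro k _ h; omega
  · rw [h0]
    have h1 : ∀ i, Ex n Q U ∅ i = 0 := by
      rintro (s | x)
      · simp [Ex, Pts, SX, Eta]
      · simp [Ex, Pts, SY]
    simp only [h1, Real.exp_zero, card_empty, Nat.cast_zero, mul_zero, mul_one]
    rw [sum_const, card_univ, Fintype.card_sum, ZMod.card, nsmul_eq_mul]
    push_cast
    linarith

lemma exists_value {n Q t : ℕ} [NeZero n] (hQ : 1 ≤ Q)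
    (hV : 3 * (4 * (FixT n Q).card + 4 * Q + 3) ≤ 2 * n) (U : ℕ → ZMod n)
    (ht : t ∉ Tt n Q t) :
    ∃ v ∈ univ \ Bd n Q U t,
      ∑ i, Real.exp (Ex n Q (Function.update U t v) (insert t (Tt n Q t)) i) ≤
        Real.exp (3.9 * (FixT n Q).card / n) * ∑ i, Real.exp (Ex n Q U (Tt n Q t) i) := by
  have hn0 : 0 < n := Nat.pos_of_ne_zero (NeZero.ne n)
  set T := Tt n Q t with hT
  set F := FixT n Q with hF
  set A := Pts U T with hA
  set L := F.card with hL
  have hFn : ∀ k ∈ F, k < n := fun k hk => FixT_lt hn0 hk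
  have hTL : T.card ≤ L := card_le_card (filter_subset _ _)
  have hAL : A.card ≤ 2 * L := (Pts_card_le U T).trans (by omega)
  set V : Finset (ZMod n) := univ \ Bd n Q U t with hVdef
  have hVc : n ≤ 3 * V.card := by
    have h1 := Bd_card_le hQ U t
    rw [← hF, ← hL] at h1
    have h2 : V.card = n - (Bd n Q U t).card := by
      rw [hVdef, card_sdiff_of_subset (subset_univ _), card_univ, ZMod.card]
    omega
  have hVne : V.Nonempty := by
    rw [← card_pos]; omega
  let I : ZMod n ⊕ ZMod n → ZMod n → ℕ :=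
    Sum.elim (fun s v => if s = 0 then 0 else IX A s t v) (fun x v => IY F x t v)
  obtain ⟨v, hv, h⟩ := exists_step V hVne (fun i => Real.exp (Ex n Q U T i))
    (fun i => (Real.exp_pos _).le) I
    (by
      rintro (s | x) v
      · change (if s = 0 then 0 else IX A s t v) ≤ 4
        split_ifs
        · omega
        · exact IX_le _ _ _ _
      · exact IY_le hFn x t v)
    (8 * L)
    (by
      rintro (s | x)
      · change ∑ v ∈ V, (((if s = 0 then 0 else IX A s t v : ℕ)) : ℝ) ≤ 8 * L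
        split_ifs with hs
        · simp
        · have h1 := sum_IX_le A s t V
          have h2 : ∑ v ∈ V, IX A s t v ≤ 8 * L := by omega
          exact_mod_cast h2
      · change ∑ v ∈ V, ((IY F x t v : ℕ) : ℝ) ≤ 8 * L
        have h1 := sum_IY_le F x t V
        have h2 : ∑ v ∈ V, IY F x t v ≤ 8 * L := by omega
        exact_mod_cast h2)
  refine ⟨v, hv, ?_⟩
  have h1 : ∀ i, Ex n Q (Function.update U t v) (insert t T) i ≤
      Ex n Q U T i + (I i v : ℝ) / 8 := by
    rintro (s | x)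
    · change (if s = 0 then (0 : ℝ) else ((SX (Pts (Function.update U t v) (insert t T)) s : ℝ) -
        (Eta (insert t T) s : ℝ)) / 8) ≤ (if s = 0 then (0 : ℝ) else ((SX A s : ℝ) -
        (Eta T s : ℝ)) / 8) + (((if s = 0 then 0 else IX A s t v : ℕ)) : ℝ) / 8
      split_ifs with hs
      · simp
      · rw [Pts_update U ht, Eta_insert ht]
        have h2 := SX_step A hs t v
        have h3 : ((SX (A ∪ {v, v - (t : ZMod n)}) s : ℕ) : ℝ) ≤ ((SX A s + IX A s t v +
          ((if s = (t : ZMod n) then 1 else 0) + (if s = -(t : ZMod n) then 1 else 0)) : ℕ) : ℝ) :=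
          Nat.cast_le.mpr h2
        push_cast at h3 ⊢
        linarith
    · change ((SY F (Pts (Function.update U t v) (insert t T)) x : ℕ) : ℝ) / 8 ≤
        (SY F A x : ℝ) / 8 + ((IY F x t v : ℕ) : ℝ) / 8
      rw [Pts_update U ht]
      have h2 := SY_step F A x t v
      have h3 : ((SY F (A ∪ {v, v - (t : ZMod n)}) x : ℕ) : ℝ) ≤
        ((SY F A x + IY F x t v : ℕ) : ℝ) := Nat.cast_le.mpr h2
      push_cast at h3
      linarith
  calc ∑ i, Real.exp (Ex n Q (Function.update U t v) (insert t T) i)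
      ≤ ∑ i, Real.exp (Ex n Q U T i) * Real.exp ((I i v : ℝ) / 8) := by
        refine sum_le_sum fun i _ => ?_
        rw [← Real.exp_add]
        exact Real.exp_le_exp.mpr (h1 i)
    _ ≤ (1 + 0.1625 * (8 * L) / V.card) * ∑ i, Real.exp (Ex n Q U T i) := h
    _ ≤ Real.exp (3.9 * L / n) * ∑ i, Real.exp (Ex n Q U T i) := by
        refine mul_le_mul_of_nonneg_right ?_ (sum_nonneg fun i _ => (Real.exp_pos _).le)
        have h5 : 0.1625 * (8 * (L : ℝ)) / V.card ≤ 3.9 * L / n := by
          have hVr : (n : ℝ) ≤ 3 * V.card := by exact_mod_cast hVc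
          have hnr : (0 : ℝ) < n := by exact_mod_cast hn0
          have hVp : (0 : ℝ) < V.card := by linarith
          rw [div_le_div_iff₀ hVp hnr]
          have hL0 : (0 : ℝ) ≤ L := Nat.cast_nonneg _
          nlinarith
        have h6 := Real.add_one_le_exp (3.9 * (L : ℝ) / n)
        linarith

lemma step {n Q t : ℕ} [NeZero n] (hQ : 1 ≤ Q) (hn : 2 * Q + 4 ≤ n)
    (hV : 3 * (4 * (FixT n Q).card + 4 * Q + 3) ≤ 2 * n) {U : ℕ → ZMod n} (h : Inv n Q U t) :
    ∃ U' : ℕ → ZMod n, Inv n Q U' (t + 1) := by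
  have hn0 : 0 < n := by omega
  by_cases ht : t ∈ FixT n Q
  swap
  · refine ⟨U, ?_⟩
    have hk : ∀ k ∈ FixL n Q, k + 1 < t + 1 → k + 1 < t := by
      intro k hk h1
      rcases Nat.lt_or_ge (k + 1) t with h2 | h2
      · exact h2
      · exfalso
        apply ht
        have := (mem_FixT_of_FixL hQ hn hk).2
        rwa [(by omega : k + 1 = t)] at this
    refine ⟨?_, ?_, ?_, ?_, ?_, ?_⟩
    · rw [Tt_succ_of_notMem ht]; exact h.up
    · rw [Tt_succ_of_notMem ht]; exact h.lo
    · rw [Tt_succ_of_notMem ht]; exact h.ul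
    · exact fun k h1 h2 => h.ok k h1 (hk k h1 h2)
    · exact fun k h1 h2 k' h3 h4 => h.cls k h1 (hk k h1 h2) k' h3 (hk k' h3 h4)
    · rw [Tt_succ_of_notMem ht]; exact h.pot
  · obtain ⟨v, hv, hpot⟩ := exists_value hQ hV U (notMem_Tt (n := n) (Q := Q) (t := t))
    refine ⟨Function.update U t v, ?_⟩
    have hv' : v ∉ Bd n Q U t := (mem_sdiff.mp hv).2
    unfold Bd at hv'
    simp only [mem_union, not_or] at hv'
    obtain ⟨⟨v1, v2⟩, ⟨v3, v4⟩, v5, v6⟩ := hv'
    have w2 : v - (t : ZMod n) ∉ Pts U (Tt n Q t) := by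
      intro h1
      apply v2
      rw [mem_image]
      exact ⟨_, h1, by ring⟩
    have hne : ∀ k ∈ Tt n Q t, k ≠ t := fun k hk h1 => notMem_Tt (h1 ▸ hk)
    have hs := Tt_succ_of_mem (n := n) (Q := Q) ht
    have key : ∀ k ∈ FixL n Q, k + 1 < t + 1 →
        (k + 1 < t ∧ Function.update U t v (k + 1) - Function.update U t v k = U (k + 1) - U k) ∨
        (k + 1 = t ∧ Function.update U t v (k + 1) - Function.update U t v k = v - U (t - 1)) := by
      intro k hk h1
      rcases Nat.lt_or_ge (k + 1) t with h2 | h2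
      · left
        refine ⟨h2, ?_⟩
        rw [Function.update_of_ne (by omega), Function.update_of_ne (by omega)]
      · right
        have h3 : k + 1 = t := by omega
        refine ⟨h3, ?_⟩
        have h4 : k = t - 1 := by omega
        rw [h3, Function.update_self, Function.update_of_ne (by omega), h4]
    have w5 : ∀ k ∈ FixL n Q, v - U (t - 1) ≠ U (k + 1) - U k := by
      intro k hk h1
      apply v5
      rw [mem_image]
      exact ⟨k, hk, by rw [← h1]; ring⟩
    have w6 : ∀ k ∈ FixL n Q, v - U (t - 1) ≠ 1 - (U (k + 1) - U k) := by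
      intro k hk h1
      apply v6
      rw [mem_image]
      exact ⟨k, hk, by rw [← h1]; ring⟩
    have hclok : ClOk (v - U (t - 1)) := by
      refine ⟨?_, ?_, ?_⟩
      · intro h1
        apply v3
        rw [mem_insert]
        left
        exact sub_eq_zero.mp h1
      · intro h1
        apply v3
        rw [mem_insert, mem_singleton]
        right
        linear_combination h1
      · intro h1
        apply v4
        rw [mem_image]
        exact ⟨v - U (t - 1), by rw [mem_filter]; exact ⟨mem_univ _, h1⟩, by ring⟩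
    refine ⟨?_, ?_, ?_, ?_, ?_, ?_⟩
    · rw [hs]
      intro k hk k' hk' he
      rw [mem_insert] at hk hk'
      rcases hk with rfl | hk <;> rcases hk' with rfl | hk'
      · rfl
      · rw [Function.update_self, Function.update_of_ne (hne k' hk')] at he
        exact absurd (he ▸ mem_Pts_up hk') v1
      · rw [Function.update_self, Function.update_of_ne (hne k hk)] at he
        exact absurd (he ▸ mem_Pts_up hk) v1
      · rw [Function.update_of_ne (hne k hk), Function.update_of_ne (hne k' hk')] at he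
        exact h.up k hk k' hk' he
    · rw [hs]
      intro k hk k' hk' he
      rw [mem_insert] at hk hk'
      rcases hk with rfl | hk <;> rcases hk' with rfl | hk'
      · rfl
      · rw [Function.update_self, Function.update_of_ne (hne k' hk')] at he
        exact absurd (he ▸ mem_Pts_lo hk') w2
      · rw [Function.update_self, Function.update_of_ne (hne k hk)] at he
        exact absurd (he ▸ mem_Pts_lo hk) w2
      · rw [Function.update_of_ne (hne k hk), Function.update_of_ne (hne k' hk')] at he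
        exact h.lo k hk k' hk' he
    · rw [hs]
      intro k hk k' hk' he
      rw [mem_insert] at hk hk'
      rcases hk with rfl | hk <;> rcases hk' with rfl | hk'
      · rw [Function.update_self] at he
        have h1 : ((k' : ℕ) : ZMod n) = 0 := by linear_combination he
        rw [ZMod.natCast_eq_zero_iff] at h1
        have h2 := Nat.eq_zero_of_dvd_of_lt h1 (FixT_lt hn0 ht)
        exact ⟨h2, h2⟩
      · rw [Function.update_self, Function.update_of_ne (hne k' hk')] at he
        exact absurd (he ▸ mem_Pts_lo hk') v1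
      · rw [Function.update_self, Function.update_of_ne (hne k hk)] at he
        exact absurd (he ▸ mem_Pts_up hk) w2
      · rw [Function.update_of_ne (hne k hk), Function.update_of_ne (hne k' hk')] at he
        exact h.ul k hk k' hk' he
    · intro k hk h1
      rcases key k hk h1 with ⟨h2, h3⟩ | ⟨h2, h3⟩
      · rw [h3]; exact h.ok k hk h2
      · rw [h3]; exact hclok
    · intro k hk h1 k' hk' h1' he
      rcases key k hk h1 with ⟨h2, h3⟩ | ⟨h2, h3⟩ <;> rcases key k' hk' h1' with ⟨h2', h3'⟩ | ⟨h2', h3'⟩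
      · rw [h3, h3'] at he
        exact h.cls k hk h2 k' hk' h2' he
      · rw [h3, h3'] at he
        rcases cl_eq he.symm with h4 | h4
        · exact absurd h4 (w5 k hk)
        · exact absurd h4 (w6 k hk)
      · rw [h3, h3'] at he
        rcases cl_eq he with h4 | h4
        · exact absurd h4 (w5 k' hk')
        · exact absurd h4 (w6 k' hk')
      · omega
    · rw [hs, card_insert_of_notMem notMem_Tt]
      refine hpot.trans ?_
      have h1 := mul_le_mul_of_nonneg_left h.pot (Real.exp_pos (3.9 * (FixT n Q).card / n)).le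
      refine h1.trans (le_of_eq ?_)
      have h2 : (3.9 * ((FixT n Q).card : ℝ) / n * ((Tt n Q t).card + 1 : ℕ)) =
          3.9 * ((FixT n Q).card : ℝ) / n + 3.9 * ((FixT n Q).card : ℝ) / n * (Tt n Q t).card := by
        push_cast; ring
      rw [h2, Real.exp_add]
      ring

lemma exists_inv {n Q : ℕ} [NeZero n] (hQ : 1 ≤ Q) (hn : 2 * Q + 4 ≤ n)
    (hV : 3 * (4 * (FixT n Q).card + 4 * Q + 3) ≤ 2 * n) (t : ℕ) :
    ∃ U : ℕ → ZMod n, Inv n Q U t := by
  induction t with
  | zero => exact ⟨fun _ => 0, base n Q _⟩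
  | succ t ih =>
    obtain ⟨U, hU⟩ := ih
    exact step hQ hn hV hU

/-! ## Conclusion -/

lemma single_le [Fintype (ZMod n ⊕ ZMod n)] (E : ZMod n ⊕ ZMod n → ℝ) (i : ZMod n ⊕ ZMod n) {x : ℝ}
    (h : ∑ i, Real.exp (E i) ≤ Real.exp x) : E i ≤ x := by
  rw [← Real.exp_le_exp]
  exact (single_le_sum (f := fun i => Real.exp (E i)) (fun i _ => (Real.exp_pos _).le)
    (mem_univ i)).trans h

end Pool.Agent.DNA.Anchors

namespace Pool.Agent.DNA

open Finset Anchors

theorem stAnchors : StAnchors := by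
  intro Q hQ
  refine ⟨100 * Q ^ 4, fun n hn => ?_⟩
  have hQ1 : 1 ≤ Q := by omega
  have hQ4 : 64 * Q ≤ Q ^ 4 := by
    have h1 : 4 ^ 3 ≤ Q ^ 3 := Nat.pow_le_pow_left hQ 3
    calc 64 * Q = 4 ^ 3 * Q := by norm_num
      _ ≤ Q ^ 3 * Q := Nat.mul_le_mul_right _ h1
      _ = Q ^ 4 := by ring
  have hn1 : 6400 * Q ≤ n := by omega
  have : NeZero n := ⟨by omega⟩
  have hF := FixT_card_le (n := n) hQ1
  set L := (FixT n Q).card with hL
  have hT1 : 2 * T1 n ≤ n := by unfold T1; omega
  have hnr : (0 : ℝ) < n := by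
    have : 0 < n := by omega
    exact_mod_cast this
  have hQr : (4 : ℝ) ≤ Q := by exact_mod_cast hQ
  have hn4 : 100 * (Q : ℝ) ^ 4 ≤ n := by exact_mod_cast hn
  have hQ24 : 16 * (Q : ℝ) ^ 2 ≤ (Q : ℝ) ^ 4 := by
    have h16 : (16 : ℝ) ≤ (Q : ℝ) ^ 2 := by nlinarith
    calc 16 * (Q : ℝ) ^ 2 ≤ (Q : ℝ) ^ 2 * (Q : ℝ) ^ 2 :=
          mul_le_mul_of_nonneg_right h16 (sq_nonneg _)
      _ = (Q : ℝ) ^ 4 := by ring
  have hLr : (Q : ℝ) * L ≤ 0.55 * n := by
    have h1 : (Q : ℝ) * L ≤ T1 n + 2 * (Q : ℝ) ^ 2 + Q := by exact_mod_cast hF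
    have h2 : 2 * (T1 n : ℝ) ≤ n := by exact_mod_cast hT1
    have h3 : (Q : ℝ) ≤ (Q : ℝ) ^ 2 := by nlinarith
    nlinarith
  have hV : 3 * (4 * L + 4 * Q + 3) ≤ 2 * n := by
    have h1 : (12 : ℝ) * L ≤ 1.65 * n := by nlinarith
    have h2 : 6400 * (Q : ℝ) ≤ n := by exact_mod_cast hn1
    have h3 : ((3 * (4 * L + 4 * Q + 3) : ℕ) : ℝ) ≤ ((2 * n : ℕ) : ℝ) := by
      push_cast
      linarith
    exact_mod_cast h3
  obtain ⟨U, hU⟩ := exists_inv (n := n) (Q := Q) hQ1 (by omega) hV n
  have hTt : Tt n Q n = FixT n Q := by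
    ext k
    rw [mem_Tt]
    exact ⟨fun h => h.1, fun h => ⟨h, FixT_lt (by omega) h⟩⟩
  have hFL : ∀ k ∈ FixL n Q, k + 1 < n := fun k hk =>
    FixT_lt (by omega) (mem_FixT_of_FixL hQ1 (by omega) hk).2
  have hpot := hU.pot
  rw [hTt, ← hL] at hpot
  have hQ2 : (0 : ℝ) < (Q : ℝ) ^ 2 := by positivity
  set x : ℝ := n / (Q : ℝ) ^ 2 with hx
  have hxn : x * (Q : ℝ) ^ 2 = n := by rw [hx]; field_simp
  have hx1 : 1 ≤ x := by
    rw [hx, le_div_iff₀ hQ2]
    nlinarith
  have hpot2 : ∑ i, Real.exp (Ex n Q U (FixT n Q) i) ≤ Real.exp (2.18 * x) := by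
    refine hpot.trans ?_
    have h1 : 2 * (n : ℝ) ≤ Real.exp x := by
      have h2 := Real.quadratic_le_exp_of_nonneg (x := x) (by linarith)
      have h3 : 2 * (n : ℝ) ≤ x ^ 2 / 2 := by
        rw [← hxn]
        have h4 : 100 * (Q : ℝ) ^ 4 ≤ x * (Q : ℝ) ^ 2 := by rw [hxn]; exact hn4
        have h5 : 100 * (Q : ℝ) ^ 2 ≤ x := by
          have h6 : (Q : ℝ) ^ 2 * (100 * (Q : ℝ) ^ 2) ≤ (Q : ℝ) ^ 2 * x := by nlinarith
          exact le_of_mul_le_mul_left h6 hQ2
        nlinarith
      linarith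
    have h2 : 3.9 * (L : ℝ) / n * L ≤ 1.18 * x := by
      have h3 : ((Q : ℝ) * L) ^ 2 ≤ (0.55 * n) ^ 2 := by
        have h0 : (0 : ℝ) ≤ (Q : ℝ) * L := by positivity
        nlinarith
      have h4 : (L : ℝ) ^ 2 * (Q : ℝ) ^ 2 ≤ 0.3025 * n * (x * (Q : ℝ) ^ 2) := by
        rw [hxn]; nlinarith
      have h5 : (L : ℝ) ^ 2 ≤ 0.3025 * n * x := by
        refine le_of_mul_le_mul_right ?_ hQ2
        linarith
      rw [div_mul_eq_mul_div, div_le_iff₀ hnr]
      nlinarith
    calc 2 * (n : ℝ) * Real.exp (3.9 * L / n * L) ≤ Real.exp x * Real.exp (1.18 * x) :=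
          mul_le_mul h1 (Real.exp_le_exp.mpr h2) (Real.exp_pos _).le (Real.exp_pos _).le
      _ = Real.exp (2.18 * x) := by rw [← Real.exp_add]; ring_nf
  refine ⟨U, ⟨?_, ?_, ?_, ?_, ?_⟩, ⟨?_, ?_⟩⟩
  · have := hU.up
    rwa [hTt] at this
  · have := hU.lo
    rwa [hTt] at this
  · have := hU.ul
    rwa [hTt] at this
  · exact fun k hk => hU.ok k hk (hFL k hk)
  · exact fun k hk k' hk' => hU.cls k hk (hFL k hk) k' hk' (hFL k' hk')
  · intro s hs
    have h1 := single_le _ (Sum.inl s) hpot2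
    have h2 : Ex n Q U (FixT n Q) (Sum.inl s) =
        ((SX (Pts U (FixT n Q)) s : ℝ) - (Eta (FixT n Q) s : ℝ)) / 8 := by
      change (if s = 0 then (0 : ℝ) else _) = _
      rw [if_neg hs]
    rw [h2] at h1
    have h3 := Eta_le (F := FixT n Q) (n := n) (fun k hk => FixT_lt (by omega) hk) s
    have h4 : (Eta (FixT n Q) s : ℝ) ≤ 2 := by exact_mod_cast h3
    have h5 : (SX (Pts U (FixT n Q)) s : ℝ) ≤ 20 * x := by linarith
    have h6 : (Q : ℝ) ^ 2 * (SX (Pts U (FixT n Q)) s : ℝ) ≤ 20 * n := by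
      rw [← hxn]; nlinarith
    have h7 : Q ^ 2 * SX (Pts U (FixT n Q)) s ≤ 20 * n := by exact_mod_cast h6
    exact h7
  · intro y
    have h1 := single_le _ (Sum.inr y) hpot2
    have h2 : Ex n Q U (FixT n Q) (Sum.inr y) =
        (SY (FixT n Q) (Pts U (FixT n Q)) y : ℝ) / 8 := rfl
    rw [h2] at h1
    have h5 : (SY (FixT n Q) (Pts U (FixT n Q)) y : ℝ) ≤ 20 * x := by linarith
    have h6 : (Q : ℝ) ^ 2 * (SY (FixT n Q) (Pts U (FixT n Q)) y : ℝ) ≤ 20 * n := by
      rw [← hxn]; nlinarith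
    have h7 : Q ^ 2 * SY (FixT n Q) (Pts U (FixT n Q)) y ≤ 20 * n := by exact_mod_cast h6
    exact h7

end Pool.Agent.DNA
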