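import Pool.Agent.Lib.MP_845d9b_co.Abs.AsmHalf

/-!
# Assembly (helper85): `stAssemble : StAssemble`
-/

set_option autoImplicit false

namespace Pool.Agent.DNA
namespace Asm

open Finset

variable {n : ℕ}

theorem packable_union {Q : ℕ} {U : ℕ → ZMod n} {A B : Finset ℕ} {S T : Finset (Elt n)}
    (hAB : Disjoint A B) (hST : Disjoint S T) (hA : Packable n Q U A S)
    (hB : Packable n Q U B T) : Packable n Q U (A ∪ B) (S ∪ T) := by
  obtain ⟨F1, h1⟩ := hA
  obtain ⟨F2, h2⟩ := hB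
  have eA : ∀ j ∈ A, (if j ∈ A then F1 j else F2 j) = F1 j := fun j hj => if_pos hj
  have eB : ∀ j ∈ B, (if j ∈ A then F1 j else F2 j) = F2 j := fun j hj =>
    if_neg fun h => disjoint_left.mp hAB h hj
  have sA : ∀ j ∈ A, foot n Q j (F1 j) ⊆ S := fun j hj => by
    rw [← h1.cover]; exact subset_biUnion_of_mem (fun j => foot n Q j (F1 j)) hj
  have sB : ∀ j ∈ B, foot n Q j (F2 j) ⊆ T := fun j hj => by
    rw [← h2.cover]; exact subset_biUnion_of_mem (fun j => foot n Q j (F2 j)) hj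
  refine ⟨fun j => if j ∈ A then F1 j else F2 j, ?_, ?_, ?_⟩
  · intro j hj
    rcases mem_union.mp hj with h | h
    · simp only [eA j h]; exact h1.fill j h
    · simp only [eB j h]; exact h2.fill j h
  · intro i hi j hj hij
    rcases mem_union.mp hi with h | h <;> rcases mem_union.mp hj with h' | h'
    · simp only [eA i h, eA j h']; exact h1.disj i h j h' hij
    · simp only [eA i h, eB j h']; exact hST.mono (sA i h) (sB j h')
    · simp only [eB i h, eA j h']; exact hST.symm.mono (sB i h) (sA j h')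
    · simp only [eB i h, eB j h']; exact h2.disj i h j h' hij
  · rw [union_biUnion, ← h1.cover, ← h2.cover]
    congr 1
    · exact biUnion_congr rfl fun j hj => by simp only [eA j hj]
    · exact biUnion_congr rfl fun j hj => by simp only [eB j hj]

theorem exists_subset_kc (Y : Finset (Elt n)) (v : Fin 3 → ℕ) (h : ∀ t, v t ≤ kc Y t) :
    ∃ Y1 ⊆ Y, ∀ t, kc Y1 t = v t := by
  have h1 : ∀ t, ∃ A ⊆ Y.filter (fun y => kd y = t), A.card = v t := fun t =>
    exists_subset_card_eq (h t)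
  choose A hA hc using h1
  refine ⟨univ.biUnion A, ?_, ?_⟩
  · intro y hy
    rw [mem_biUnion] at hy
    obtain ⟨t, _, ht⟩ := hy
    exact (mem_filter.mp (hA t ht)).1
  · intro t
    unfold kc
    rw [← hc t]
    congr 1
    ext y
    rw [mem_filter, mem_biUnion]
    constructor
    · rintro ⟨⟨s, _, hs⟩, h2⟩
      have h3 := (mem_filter.mp (hA s hs)).2
      rw [h3] at h2
      rw [← h2]; exact hs
    · intro hy
      exact ⟨⟨t, mem_univ _, hy⟩, (mem_filter.mp (hA t hy)).2⟩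

/-- weight of the numbers `uu` -/
def u3 (u : Fin 3 → ℕ) : ℤ × ℤ × ZMod 2 :=
  (((u 0 : ℕ) : ℤ) + ((u 1 : ℕ) : ℤ), ((u 2 : ℕ) : ℤ), ((u 1 : ℕ) : ZMod 2))

theorem acc_of_kc {Y Y1 : Finset (Elt n)} {u : Fin 3 → ℕ} (h : ∀ t, kc Y1 t + u t = kc Y t) :
    acc Y1 + u3 u = acc Y := by
  rw [acc_eq, acc_eq, ← h 0, ← h 1, ← h 2]
  unfold u3
  refine Prod.ext ?_ (Prod.ext ?_ ?_)
  · simp only [Prod.fst_add]; push_cast; ring
  · simp only [Prod.snd_add, Prod.fst_add]; push_cast; ring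
  · simp only [Prod.snd_add]; push_cast; ring

theorem sum_bl (Q : ℕ) (Js : Finset ℕ) : ∑ j ∈ Js, bl n Q j =
    (2 * ((Q : ℤ) - 1) * (Js.card : ℤ), (Q : ℤ) * (Js.card : ℤ),
      ∑ j ∈ Js, ∑ k ∈ Ioo (j * Q) ((j + 1) * Q), parT n k) := by
  refine Prod.ext ?_ (Prod.ext ?_ ?_)
  · simp only [Prod.fst_sum, bl, sum_const, nsmul_eq_mul]; ring
  · simp only [Prod.snd_sum, Prod.fst_sum, bl, sum_const, nsmul_eq_mul]; ring
  · simp only [Prod.snd_sum, bl]

theorem uu_le (Q r : ℕ) (t : Fin 3) : uu n Q r t ≤ 2 * Q * r := by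
  have h1 : (Q - 1) * r ≤ 2 * Q * r := Nat.mul_le_mul_right _ (by omega)
  have h2 : 2 * (Q - 1) * r ≤ 2 * Q * r := Nat.mul_le_mul_right _ (by omega)
  have h3 : Q * r ≤ 2 * Q * r := Nat.mul_le_mul_right _ (by omega)
  fin_cases t
  · show (if Even n then (Q - 1) * r else 2 * (Q - 1) * r) ≤ _
    split_ifs
    · exact h1
    · exact h2
  · show (if Even n then (Q - 1) * r else 0) ≤ _
    split_ifs
    · exact h1
    · exact Nat.zero_le _
  · exact h3

theorem u3_uu {Q : ℕ} (hQ : 1 ≤ Q) (r : ℕ) : u3 (uu n Q r) =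
    (2 * ((Q : ℤ) - 1) * (r : ℤ), (Q : ℤ) * (r : ℤ), ((uu n Q r 1 : ℕ) : ZMod 2)) := by
  unfold u3
  refine Prod.ext ?_ (Prod.ext ?_ rfl)
  · show (((if Even n then (Q - 1) * r else 2 * (Q - 1) * r : ℕ) : ℤ)) +
      (((if Even n then (Q - 1) * r else 0 : ℕ) : ℤ)) = _
    split_ifs
    · push_cast [Nat.cast_sub hQ]; ring
    · push_cast [Nat.cast_sub hQ]; ring
  · show ((Q * r : ℕ) : ℤ) = _
    push_cast; ring

/-- size facts for large `n` -/
theorem sizes {Q : ℕ} (hQ : 1000 ≤ Q) (hn : 1000 * Q ^ 2 ≤ n) :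
    Q ≤ T1 n ∧ 1000 * J1 n Q ≤ n ∧ n ≤ 2 * (J1 n Q + 1) * Q + 2 ∧ 1000000 * Q ≤ n := by
  have h1 : 1000000 * Q ≤ 1000 * Q ^ 2 := by nlinarith
  have h2 := J1_mul_le n Q
  have h3 := T1_lt (n := n) (Q := Q) (by omega)
  have h4 : J1 n Q * 1000 ≤ J1 n Q * Q := Nat.mul_le_mul_left _ hQ
  have h5 : T1 n = (n - 1) / 2 := rfl
  have h6 : 2 * (J1 n Q + 1) * Q = 2 * ((J1 n Q + 1) * Q) := by ring
  refine ⟨by omega, by omega, ?_, by omega⟩
  rw [h6]
  omega

theorem bad_small {Q : ℕ} (hQ : 1000 ≤ Q) (hn : 1000 * Q ^ 2 ≤ n) (U : ℕ → ZMod n) (xs : ZMod n) :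
    100 * (insert (Sum.inl xs) (FixE n Q U)).card ≤ n := by
  obtain ⟨_, h2, _, h4⟩ := sizes hQ hn
  have h5 := card_fixE (n := n) (Q := Q) (by omega) U
  have h6 := card_insert_le (Sum.inl xs) (FixE n Q U)
  omega

theorem bad_blocks' [NeZero n] {Q : ℕ} (hQ : 1000 ≤ Q) (hn : 1000 * Q ^ 2 ≤ n) {U : ℕ → ZMod n}
    (hreg : Reg n Q U) (xs x : ZMod n) :
    2 * ((Blocks n Q).filter fun j =>
        Sum.inl (x - ((j * Q + 2 : ℕ) : ZMod n)) ∈ insert (Sum.inl xs) (FixE n Q U)).card ≤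
      (Blocks n Q).card := by
  obtain ⟨_, h2, h3, h4⟩ := sizes hQ hn
  have h5 := bad_blocks (Q := Q) (by omega) hreg xs x
  have h6 : (Blocks n Q).card = J1 n Q - 1 := by
    unfold Blocks; rw [Nat.card_Ico]
  rw [h6]
  by_contra hcon
  push Not at hcon
  set b := ((Blocks n Q).filter fun j =>
        Sum.inl (x - ((j * Q + 2 : ℕ) : ZMod n)) ∈ insert (Sum.inl xs) (FixE n Q U)).card with hb
  have h7 : J1 n Q ≤ 2 * b := by omega
  have h8 : Q ^ 2 * J1 n Q ≤ 2 * (20 * n + Q ^ 2) := by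
    calc Q ^ 2 * J1 n Q ≤ Q ^ 2 * (2 * b) := Nat.mul_le_mul_left _ h7
      _ = 2 * (Q ^ 2 * b) := by ring
      _ ≤ _ := Nat.mul_le_mul_left _ h5
  have h9 : Q * n ≤ 2 * (Q ^ 2 * J1 n Q) + 2 * Q ^ 2 + 2 * Q := by
    calc Q * n ≤ Q * (2 * (J1 n Q + 1) * Q + 2) := Nat.mul_le_mul_left _ h3
      _ = _ := by ring
  have h10 : 1000 * n ≤ Q * n := Nat.mul_le_mul_right _ hQ
  omega

end Asm

open Finset Asm

theorem stAssemble : StAssemble := by
  intro hAn hY hRes hAb hNear hCov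
  obtain ⟨Q0, hQ0, hNear⟩ := hNear
  obtain ⟨Q, hQQ, hQ⟩ : ∃ Q : ℕ, Q0 ≤ Q ∧ 1000 ≤ Q := ⟨max Q0 1000, le_max_left _ _, le_max_right _ _⟩
  obtain ⟨μ0, hμ0, hNear⟩ := hNear Q hQQ
  obtain ⟨ε, hε, NA, hAb⟩ := hAb Q (μ0 / 4) (by omega) (by positivity)
  obtain ⟨c0, hc0, NY, hY⟩ := hY ε Q hε (by omega)
  obtain ⟨c1, hc1, hCov⟩ := hCov Q c0 (by omega) hc0
  have hQr : (1000 : ℝ) ≤ (Q : ℝ) := by exact_mod_cast hQ
  have hQp : (0 : ℝ) < (Q : ℝ) := by linarith
  obtain ⟨c1', hc1', hc1a, hc1b, hc1c, hc1d⟩ : ∃ c : ℝ, 0 < c ∧ c ≤ c1 ∧ c ≤ μ0 / 4 ∧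
      c ≤ 1 / (1000 * (Q : ℝ) ^ 2) ∧ c ≤ c0 / (8 * Q) := by
    refine ⟨min (min c1 (μ0 / 4)) (min (1 / (1000 * (Q : ℝ) ^ 2)) (c0 / (8 * Q))), ?_, ?_, ?_, ?_, ?_⟩
    · refine lt_min (lt_min hc1 (by positivity)) (lt_min (by positivity) (by positivity))
    · exact (min_le_left _ _).trans (min_le_left _ _)
    · exact (min_le_left _ _).trans (min_le_right _ _)
    · exact (min_le_right _ _).trans (min_le_left _ _)
    · exact (min_le_right _ _).trans (min_le_right _ _)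
  obtain ⟨c2, hc2, NR, hRes⟩ := hRes c0 c1' hc0 hc1'
  obtain ⟨γ, hγ, NC, hCov⟩ := hCov c2 hc2
  obtain ⟨NN, hNear⟩ := hNear γ hγ
  obtain ⟨NU, hAn⟩ := hAn Q (by omega)
  refine ⟨NA + NY + NR + NC + NN + NU + 1000 * Q ^ 2, fun n hn => ?_⟩
  have hn2 : 1000 * Q ^ 2 ≤ n := by omega
  obtain ⟨hQT, hJ, _, hnQ⟩ := sizes hQ hn2
  have : NeZero n := ⟨by omega⟩
  have hQ1 : 1 ≤ Q := by omega
  obtain ⟨U, hU, hreg⟩ := hAn n (by omega)
  -- the omitted point
  obtain ⟨xs, hxs, hpar⟩ := exists_point (FixP n Q U)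
    (by have := card_fixP (n := n) hQ1 U; omega) (starPar n U) (starPar_odd U)
  set Bad := insert (Sum.inl xs) (FixE n Q U) with hBad
  have hFB : FixE n Q U ⊆ Bad := subset_insert _ _
  have hBadc : 100 * Bad.card ≤ n := bad_small hQ hn2 U xs
  have hrest : acc (All n \ Bad) = ∑ j ∈ Blocks n Q, bl n Q j :=
    acc_rest (by omega) hQ1 hQT hU (fixE_subset hU) hxs hpar
  -- flexible elements
  obtain ⟨Y, hYs, hYc, hYok⟩ := hY n (by omega) Bad (by omega) (bad_blocks' hQ hn2 hreg xs)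
  have hYA : Y ⊆ All n := hYs.trans sdiff_subset
  have hYB : Disjoint Y Bad := disjoint_of_subset_left hYs sdiff_disjoint
  -- reserved blocks
  have hBr : Blocks n Q ⊆ range n := by
    intro j hj
    rw [mem_range]
    have := (mem_blocks.mp hj).2
    omega
  obtain ⟨Jres, hJs, hJc, hJH⟩ := hRes n (by omega) (Blocks n Q)
    (fun x : Fin n => (Blocks n Q).filter fun j =>
      Sum.inl (((x : ℕ) : ZMod n) - ((j * Q + 2 : ℕ) : ZMod n)) ∈ Y) hBr
    (fun x => filter_subset _ _) (fun x => hYok.n6 _)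
  have hnr : (0 : ℝ) ≤ (n : ℝ) := Nat.cast_nonneg n
  set r := Jres.card with hr
  have hr1 : 100 * Q * r ≤ n := by
    have h1 : (r : ℝ) ≤ 1 / (1000 * (Q : ℝ) ^ 2) * n :=
      hJc.trans (mul_le_mul_of_nonneg_right hc1c hnr)
    have h2 : (100 * Q * r : ℝ) ≤ (n : ℝ) := by
      calc (100 * Q * r : ℝ) ≤ 100 * Q * (1 / (1000 * (Q : ℝ) ^ 2) * n) :=
            mul_le_mul_of_nonneg_left h1 (by positivity)
        _ = n * (1 / (10 * Q)) := by field_simp; ring
        _ ≤ n * 1 := by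
            apply mul_le_mul_of_nonneg_left _ hnr
            rw [div_le_one (by positivity)]
            linarith
        _ = n := mul_one _
    exact_mod_cast h2
  have hr2 : (4 * Q * r : ℝ) ≤ c0 * n / 2 := by
    have h1 : (r : ℝ) ≤ c0 / (8 * Q) * n := hJc.trans (mul_le_mul_of_nonneg_right hc1d hnr)
    calc (4 * Q * r : ℝ) ≤ 4 * Q * (c0 / (8 * Q) * n) :=
            mul_le_mul_of_nonneg_left h1 (by positivity)
      _ = c0 * n / 2 := by field_simp; ring
  have hu : ∀ t, 2 * uu n Q r t ≤ kc Y t := by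
    intro t
    by_cases ht : t = 1 → Even n
    · have h1 := kc_lower (by omega) hYok t ht
      have h2 := uu_le (n := n) Q r t
      have h3 : ((2 * uu n Q r t : ℕ) : ℝ) ≤ (kc Y t : ℝ) := by
        have h4 : ((uu n Q r t : ℕ) : ℝ) ≤ 2 * Q * r := by exact_mod_cast h2
        push_cast
        linarith
      exact_mod_cast h3
    · push Not at ht
      obtain ⟨h1, h2⟩ := ht
      rw [h1]
      show 2 * (if Even n then (Q - 1) * r else 0) ≤ _
      rw [if_neg h2]
      omega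
  -- absorber
  obtain ⟨JA, hJA, hJAc, Z, hZ, habs⟩ := hAb n (by omega) U Bad Jres hBadc hr1 Y (uu n Q r)
    hYA hYc hu
  have hJA1 : JA ⊆ Blocks n Q := hJA.trans sdiff_subset
  have hJA2 : Disjoint JA Jres := disjoint_of_subset_left hJA sdiff_disjoint
  have hZY : Disjoint Z Y := (disjoint_of_subset_left hZ sdiff_disjoint).mono_right subset_union_right
  have hZB : Disjoint Z Bad := (disjoint_of_subset_left hZ sdiff_disjoint).mono_right subset_union_left
  have hZA : Z ⊆ All n := hZ.trans sdiff_subset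
  have hZYs : Z ∪ Y ⊆ All n \ Bad := by
    apply union_subset _ hYs
    intro y hy
    rw [mem_sdiff]
    exact ⟨hZA hy, fun h => disjoint_left.mp hZB hy h⟩
  set J' := Blocks n Q \ (JA ∪ Jres) with hJ'
  set E' := (All n \ Bad) \ (Z ∪ Y) with hE'
  have hE'A : E' ⊆ All n := sdiff_subset.trans sdiff_subset
  have hE'B : Disjoint E' Bad := disjoint_of_subset_left (sdiff_subset) sdiff_disjoint
  have hE'ZY : Disjoint E' (Z ∪ Y) := sdiff_disjoint
  have hE'Y : Disjoint E' Y := hE'ZY.mono_right subset_union_right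
  have hE'Z : Disjoint E' Z := hE'ZY.mono_right subset_union_left
  -- decomposition of the blocks
  have hsumB : ∑ j ∈ Blocks n Q, bl n Q j = ∑ j ∈ JA, bl n Q j + ∑ j ∈ Jres, bl n Q j +
      ∑ j ∈ J', bl n Q j := by
    rw [← sum_union hJA2, add_comm, hJ']
    exact (sum_sdiff (union_subset hJA1 hJs)).symm
  -- accounting
  obtain ⟨Y1, hY1, hY1c⟩ := exists_subset_kc Y (fun t => kc Y t - uu n Q r t)
    (fun t => Nat.sub_le _ _)
  have hY1c' : ∀ t, kc Y1 t + uu n Q r t = kc Y t := by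
    intro t
    have h1 : kc Y1 t = kc Y t - uu n Q r t := hY1c t
    have h2 := hu t
    omega
  have hY1a := acc_of_kc hY1c'
  have hJAa : acc Z + acc Y1 = ∑ j ∈ JA, bl n Q j := by
    rw [← acc_union (hZY.mono_right hY1)]
    exact acc_packable hQ1 (habs Y1 hY1 hY1c')
  have hE'a : acc E' = ∑ j ∈ Jres, bl n Q j + ∑ j ∈ J', bl n Q j - u3 (uu n Q r) := by
    rw [hE', acc_sdiff hZYs, hrest, acc_union hZY, hsumB, ← hJAa, ← hY1a]
    ring
  have hres3 : ∑ j ∈ Jres, bl n Q j - u3 (uu n Q r) =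
      (0, 0, ∑ j ∈ Jres, ∑ k ∈ Ioo (j * Q) ((j + 1) * Q), parT n k - ((uu n Q r 1 : ℕ) : ZMod 2)) := by
    rw [sum_bl, u3_uu hQ1, ← hr]
    refine Prod.ext ?_ (Prod.ext ?_ ?_) <;> simp
  have hQc : ((Q - 1 : ℕ) : ℤ) = (Q : ℤ) - 1 := by push_cast [Nat.cast_sub hQ1]; ring
  have hE'b : acc E' = (0, 0, ∑ j ∈ Jres, ∑ k ∈ Ioo (j * Q) ((j + 1) * Q), parT n k -
      ((uu n Q r 1 : ℕ) : ZMod 2)) + ∑ j ∈ J', bl n Q j := by
    rw [hE'a, ← hres3]; ring
  have hnear : NearHyp n Q U μ0 J' E' := by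
    refine ⟨hU, hreg, sdiff_subset, ?_, ?_, ?_, ?_⟩
    · have h1 : Blocks n Q \ J' ⊆ JA ∪ Jres := by
        rw [hJ']
        intro j hj
        rw [mem_sdiff, mem_sdiff] at hj
        by_contra h
        exact hj.2 ⟨hj.1, h⟩
      have h2 : ((Blocks n Q \ J').card : ℝ) ≤ (JA.card : ℝ) + (Jres.card : ℝ) := by
        exact_mod_cast (card_le_card h1).trans (card_union_le _ _)
      have h3 : (Jres.card : ℝ) ≤ μ0 / 4 * n := hJc.trans (mul_le_mul_of_nonneg_right hc1b hnr)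
      have h4 : 0 ≤ μ0 * n := by positivity
      linarith
    · intro y hy
      rw [mem_sdiff]
      exact ⟨hE'A hy, fun h => disjoint_left.mp hE'B hy (hFB h)⟩
    · have h1 := congrArg Prod.fst hE'b
      rw [acc_eq, sum_bl] at h1
      simp only [Prod.fst_add, zero_add] at h1
      have h2 : ((kc E' 0 + kc E' 1 : ℕ) : ℤ) = ((2 * (Q - 1) * J'.card : ℕ) : ℤ) := by
        rw [Nat.cast_mul, Nat.cast_mul, hQc]
        push_cast
        linarith
      exact_mod_cast h2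
    · have h1 := congrArg (fun p => Prod.fst (Prod.snd p)) hE'b
      rw [acc_eq, sum_bl] at h1
      simp only [Prod.fst_add, Prod.snd_add, zero_add] at h1
      exact_mod_cast h1
  obtain ⟨J'', hJ'', hJ''c, S, hS, hSp⟩ := hNear n (by omega) U J' E' hnear
  set E'' := E' \ S with hE''
  have hSa : acc S = ∑ j ∈ J' \ J'', bl n Q j := acc_packable hQ1 hSp
  have hE''b : acc E'' = (0, 0, ∑ j ∈ Jres, ∑ k ∈ Ioo (j * Q) ((j + 1) * Q), parT n k -
      ((uu n Q r 1 : ℕ) : ZMod 2)) + ∑ j ∈ J'', bl n Q j := by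
    rw [hE'', acc_sdiff hS, hE'b, hSa, ← sum_sdiff hJ'']
    ring
  have hJ''B : J'' ⊆ Blocks n Q := hJ''.trans sdiff_subset
  have hJ'd : Disjoint J' (JA ∪ Jres) := sdiff_disjoint
  have hJ''res : Disjoint Jres J'' :=
    (hJ'd.mono_left hJ'').symm.mono_left subset_union_right
  -- the cover
  obtain ⟨Y'', hY'', hY''c, hcov⟩ := hCov n (by omega) U Y Jres J'' E'' hU hYA hYok hJs
    (hJc.trans (mul_le_mul_of_nonneg_right hc1a hnr))
    (by
      intro x
      have h1 := hJH ⟨x.val, ZMod.val_lt x⟩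
      refine h1.trans ?_
      have h2 : (((⟨x.val, ZMod.val_lt x⟩ : Fin n) : ℕ) : ZMod n) = x := ZMod.natCast_zmod_val x
      have h3 : ((Blocks n Q).filter fun j =>
          Sum.inl ((((⟨x.val, ZMod.val_lt x⟩ : Fin n) : ℕ) : ZMod n) -
            ((j * Q + 2 : ℕ) : ZMod n)) ∈ Y) ∩ Jres ⊆
          Jres.filter fun j => Sum.inl (x - ((j * Q + 2 : ℕ) : ZMod n)) ∈ Y := by
        intro j hj
        rw [mem_inter, mem_filter, h2] at hj
        rw [mem_filter]
        exact ⟨hj.2, hj.1.2⟩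
      exact_mod_cast card_le_card h3)
    (by
      intro j hj
      rw [mem_sdiff]
      exact ⟨hJ''B hj, fun h => disjoint_left.mp hJ''res h hj⟩)
    hJ''c
    (by
      intro y hy
      rw [mem_sdiff]
      have h1 : y ∈ E' := sdiff_subset hy
      exact ⟨hE'A h1, fun h => disjoint_left.mp hE'Y h1 h⟩)
    (by
      have h1 := congrArg Prod.fst hE''b
      rw [acc_eq, sum_bl] at h1
      simp only [Prod.fst_add, zero_add] at h1
      have h2 : ((kc E'' 0 + kc E'' 1 : ℕ) : ℤ) = ((2 * (Q - 1) * J''.card : ℕ) : ℤ) := by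
        rw [Nat.cast_mul, Nat.cast_mul, hQc]
        push_cast
        linarith
      exact_mod_cast h2)
    (by
      have h1 := congrArg (fun p => Prod.fst (Prod.snd p)) hE''b
      rw [acc_eq, sum_bl] at h1
      simp only [Prod.fst_add, Prod.snd_add, zero_add] at h1
      exact_mod_cast h1)
    (by
      have h1 := congrArg (fun p => Prod.snd (Prod.snd p)) hE''b
      rw [acc_eq, sum_bl] at h1
      simp only [Prod.snd_add] at h1
      rw [sum_union hJ''res]
      push_cast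
      rw [h1]
      ring)
  -- the absorber for the remaining flexible elements
  have hY'c : ∀ t, kc (Y \ Y'') t + uu n Q r t = kc Y t := by
    intro t
    rw [← hY''c t]
    exact kc_sdiff hY'' t
  have habs' := habs (Y \ Y'') sdiff_subset hY'c
  have hE''E' : E'' ⊆ E' := sdiff_subset
  -- union of the three packings
  have hd1 : Disjoint JA (J' \ J'') :=
    ((hJ'd.mono_left sdiff_subset).symm).mono_left subset_union_left
  have hd2 : Disjoint (Z ∪ (Y \ Y'')) S := by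
    rw [disjoint_union_left]
    exact ⟨(hE'Z.mono_left hS).symm, ((hE'Y.mono_left hS).symm).mono_left sdiff_subset⟩
  have hp1 := packable_union hd1 hd2 habs' hSp
  have hd3 : Disjoint (JA ∪ (J' \ J'')) (Jres ∪ J'') := by
    rw [disjoint_union_left, disjoint_union_right, disjoint_union_right]
    refine ⟨⟨hJA2, ?_⟩, ?_, sdiff_disjoint⟩
    · exact ((hJ'd.mono_left hJ'').symm).mono_left subset_union_left
    · exact (hJ'd.mono_left sdiff_subset).mono_right subset_union_right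
  have hd4 : Disjoint ((Z ∪ (Y \ Y'')) ∪ S) (E'' ∪ Y'') := by
    rw [disjoint_union_left, disjoint_union_left, disjoint_union_right, disjoint_union_right,
      disjoint_union_right]
    refine ⟨⟨⟨(hE'Z.mono_left hE''E').symm, hZY.mono_right hY''⟩,
      ⟨((hE'Y.mono_left hE''E').symm).mono_left sdiff_subset, sdiff_disjoint⟩⟩, ?_, ?_⟩
    · exact disjoint_sdiff
    · exact (hE'Y.mono_left hS).mono_right hY''
  have hp2 := packable_union hd3 hd4 hp1 hcov
  have hBl : (JA ∪ (J' \ J'')) ∪ (Jres ∪ J'') = Blocks n Q := by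
    ext j
    simp only [mem_union, mem_sdiff, hJ']
    constructor
    · rintro ((h | h) | (h | h))
      · exact hJA1 h
      · exact h.1.1
      · exact hJs h
      · exact hJ''B h
    · intro h
      by_cases h1 : j ∈ JA
      · exact Or.inl (Or.inl h1)
      · by_cases h2 : j ∈ Jres
        · exact Or.inr (Or.inl h2)
        · by_cases h3 : j ∈ J''
          · exact Or.inr (Or.inr h3)
          · refine Or.inl (Or.inr ⟨⟨h, ?_⟩, h3⟩)
            rintro (h4 | h4)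
            · exact h1 h4
            · exact h2 h4
  rw [hBl] at hp2
  obtain ⟨F, hF⟩ := hp2
  have hfin : Disjoint (((Z ∪ (Y \ Y'')) ∪ S) ∪ (E'' ∪ Y'')) (FixE n Q U) := by
    have h1 : ((Z ∪ (Y \ Y'')) ∪ S) ∪ (E'' ∪ Y'') ⊆ All n \ Bad := by
      refine union_subset (union_subset (union_subset ?_ ?_) ?_) (union_subset ?_ ?_)
      · exact subset_union_left.trans hZYs
      · exact sdiff_subset.trans hYs
      · exact hS.trans sdiff_subset
      · exact hE''E'.trans sdiff_subset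
      · exact hY''.trans hYs
    exact (disjoint_of_subset_left h1 sdiff_disjoint).mono_right hFB
  exact ⟨glue n Q U F, halfSol_of_packs hQ1 hQT hU hF hfin⟩

end Pool.Agent.DNA
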