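import Pool.Agent.Lib.MP_845d9b_co.Abs.FpmStmts

/-!
# The bad event (`StBad`), helper66. Blueprint: team-store dna_fpm_blueprint.md, F4
-/

set_option autoImplicit false

namespace Pool.Agent.DNA

open Finset

namespace BadAux

variable {n : ℕ}

section
variable [NeZero n] {Q : ℕ} {U : ℕ → ZMod n} {E' : Finset (Elt n)} {j : ℕ}

lemma pa_nonneg (k : ℕ) (x : ZMod n) : 0 ≤ pa Q U E' k x := by
  unfold pa; split_ifs <;> positivity

lemma pr_nonneg (m : Fin (Q - 1) → ZMod n) : 0 ≤ pr Q U E' j m :=
  prod_nonneg fun _ _ => pa_nonneg _ _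

lemma Ex_mono {F G : (ℕ → ZMod n) → ℝ}
    (h : ∀ m, F (ext n Q U j m) ≤ G (ext n Q U j m)) :
    Ex Q U E' j F ≤ Ex Q U E' j G :=
  sum_le_sum fun m _ => mul_le_mul_of_nonneg_left (h m) (pr_nonneg m)

lemma Ex_nonneg {F : (ℕ → ZMod n) → ℝ} (h : ∀ f, 0 ≤ F f) : 0 ≤ Ex Q U E' j F :=
  sum_nonneg fun m _ => mul_nonneg (pr_nonneg m) (h (ext n Q U j m))

lemma Ex_sum {ι : Type*} (s : Finset ι) (F : ι → (ℕ → ZMod n) → ℝ) :
    Ex Q U E' j (fun f => ∑ i ∈ s, F i f) = ∑ i ∈ s, Ex Q U E' j (F i) := by
  unfold Ex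
  rw [sum_comm]
  exact sum_congr rfl fun m _ => by rw [mul_sum]

lemma Ex_add (F G : (ℕ → ZMod n) → ℝ) :
    Ex Q U E' j (fun f => F f + G f) = Ex Q U E' j F + Ex Q U E' j G := by
  unfold Ex
  rw [← sum_add_distrib]
  exact sum_congr rfl fun m _ => by rw [mul_add]

lemma Ex_smul (c : ℝ) (F : (ℕ → ZMod n) → ℝ) :
    Ex Q U E' j (fun f => c * F f) = c * Ex Q U E' j F := by
  unfold Ex
  rw [mul_sum]
  exact sum_congr rfl fun m _ => by ring

lemma Ex_one (h : ∀ k ∈ Ioo (j * Q) ((j + 1) * Q), (∑ x, pa Q U E' k x) = 1) :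
    Ex Q U E' j (fun _ => 1) = 1 := by
  have h1 : Ex Q U E' j (fun _ => 1) =
      ∏ i : Fin (Q - 1), ∑ x : ZMod n, pa Q U E' (j * Q + 1 + (i : ℕ)) x := by
    rw [Finset.prod_univ_sum, Fintype.piFinset_univ]
    unfold Ex pr
    exact sum_congr rfl fun m _ => by rw [mul_one]
  rw [h1]
  apply prod_eq_one
  intro i _
  apply h
  have := i.2
  rw [mem_Ioo]
  constructor
  · omega
  · have : (j + 1) * Q = j * Q + Q := by ring
    omega

lemma ext_off (m : Fin (Q - 1) → ZMod n) {k : ℕ} (hk : k ∉ Ioo (j * Q) ((j + 1) * Q)) :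
    ext n Q U j m k = U k := by
  unfold ext
  rw [dif_neg]
  rintro ⟨h1, h2⟩
  apply hk
  rw [mem_Ioo]
  refine ⟨h1, ?_⟩
  have : (j + 1) * Q = j * Q + Q := by ring
  omega

/-- conditioning on one free time -/
lemma cond_le (hK : StK1) {k : ℕ} (hk : k ∈ Ioo (j * Q) ((j + 1) * Q))
    (h1 : (∑ x, pa Q U E' k x) = 1) {δ : ℝ} (h2 : ∀ x, pa Q U E' k x ≤ δ)
    (G : (ℕ → ZMod n) → Finset (ZMod n)) (H : (ℕ → ZMod n) → ℝ)
    (hG : ∀ f x, G (Function.update f k x) = G f) (hH : ∀ f x, H (Function.update f k x) = H f)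
    (hH0 : ∀ f, 0 ≤ H f) {s : ℝ} (hs : ∀ f, ((G f).card : ℝ) ≤ s) :
    Ex Q U E' j (fun f => if f k ∈ G f then H f else 0) ≤ δ * s * Ex Q U E' j H := by
  have e1 : Ex Q U E' j (fun f => if f k ∈ G f then H f else 0) =
      ∑ x, pa Q U E' k x * Ex Q U E' j (fun f => if x ∈ G f then H f else 0) := by
    have : (fun f : ℕ → ZMod n => if f k ∈ G f then H f else 0) =
        fun f => ∑ x, (if f k = x then (if f k ∈ G f then H f else 0) else 0) := by
      funext f
      rw [sum_ite_eq]
      simp
    rw [this, Ex_sum]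
    refine sum_congr rfl fun x _ => ?_
    rw [hK n Q U E' j k hk h1 (fun f => if f k ∈ G f then H f else 0) x]
    congr 2
    funext f
    simp only [Function.update_self, hG, hH]
  rw [e1]
  have hδ : 0 ≤ δ := le_trans (pa_nonneg k 0) (h2 0)
  calc ∑ x, pa Q U E' k x * Ex Q U E' j (fun f => if x ∈ G f then H f else 0)
      ≤ ∑ x, δ * Ex Q U E' j (fun f => if x ∈ G f then H f else 0) := by
        apply sum_le_sum
        intro x _
        apply mul_le_mul_of_nonneg_right (h2 x)
        apply Ex_nonneg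
        intro f
        split_ifs
        · exact hH0 f
        · exact le_rfl
    _ = δ * Ex Q U E' j (fun f => ∑ x, if x ∈ G f then H f else 0) := by
        rw [Ex_sum, mul_sum]
    _ ≤ δ * Ex Q U E' j (fun f => s * H f) := by
        apply mul_le_mul_of_nonneg_left _ hδ
        apply Ex_mono
        intro m
        rw [← sum_filter, sum_const, nsmul_eq_mul]
        apply mul_le_mul_of_nonneg_right _ (hH0 _)
        refine le_trans ?_ (hs (ext n Q U j m))
        have : (univ.filter fun x => x ∈ G (ext n Q U j m)) = G (ext n Q U j m) := by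
          ext; simp
        rw [this]
    _ = δ * s * Ex Q U E' j H := by
        rw [Ex_smul, mul_assoc]

/-- the hypotheses on the free times of block `j` -/
def Free (Q : ℕ) (U : ℕ → ZMod n) (E' : Finset (Elt n)) (j : ℕ) (δ : ℝ) : Prop :=
  ∀ k ∈ Ioo (j * Q) ((j + 1) * Q), (∑ x, pa Q U E' k x) = 1 ∧ ∀ x, pa Q U E' k x ≤ δ

lemma Free.one {δ : ℝ} (hF : Free Q U E' j δ) : Ex Q U E' j (fun _ => 1) = 1 :=
  Ex_one fun k hk => (hF k hk).1

lemma ite_nn (p : Prop) [Decidable p] {δ : ℝ} (h : 0 ≤ δ) : 0 ≤ if p then δ else 0 := by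
  by_cases hp : p
  · rw [if_pos hp]; exact h
  · rw [if_neg hp]

lemma ind_nonneg (p : Prop) [Decidable p] : (0 : ℝ) ≤ if p then 1 else 0 := by
  split_ifs <;> norm_num

/-- difference event, conditioning on the left end -/
lemma diff_left (hK : StK1) {δ : ℝ} (hF : Free Q U E' j δ) {l : ℕ}
    (hl : l ∈ Ioo (j * Q) ((j + 1) * Q)) (A : Finset (ZMod n)) (H : (ℕ → ZMod n) → ℝ)
    (hH : ∀ f x, H (Function.update f l x) = H f) (hH0 : ∀ f, 0 ≤ H f) :
    Ex Q U E' j (fun f => if f (l + 1) - f l ∈ A then H f else 0) ≤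
      δ * A.card * Ex Q U E' j H := by
  have := cond_le (s := (A.card : ℝ)) hK hl (hF l hl).1 (hF l hl).2
    (fun f => A.image fun w => f (l + 1) - w) H
    (fun f x => by simp [Function.update_of_ne]) hH hH0
    (fun f => by exact_mod_cast card_image_le)
  refine le_trans (le_of_eq ?_) this
  congr 1
  funext f
  apply if_congr _ rfl rfl
  simp only [mem_image]
  constructor
  · intro h
    exact ⟨_, h, by ring⟩
  · rintro ⟨w, hw, h⟩
    rw [← h]
    simpa using hw

/-- difference event, conditioning on the right end -/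
lemma diff_right (hK : StK1) {δ : ℝ} (hF : Free Q U E' j δ) {l : ℕ}
    (hl : l + 1 ∈ Ioo (j * Q) ((j + 1) * Q)) (A : Finset (ZMod n)) (H : (ℕ → ZMod n) → ℝ)
    (hH : ∀ f x, H (Function.update f (l + 1) x) = H f) (hH0 : ∀ f, 0 ≤ H f) :
    Ex Q U E' j (fun f => if f (l + 1) - f l ∈ A then H f else 0) ≤
      δ * A.card * Ex Q U E' j H := by
  have := cond_le (s := (A.card : ℝ)) hK hl (hF _ hl).1 (hF _ hl).2
    (fun f => A.image fun w => f l + w) H
    (fun f x => by simp [Function.update_of_ne]) hH hH0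
    (fun f => by exact_mod_cast card_image_le)
  refine le_trans (le_of_eq ?_) this
  congr 1
  funext f
  apply if_congr _ rfl rfl
  simp only [mem_image]
  constructor
  · intro h
    exact ⟨_, h, by ring⟩
  · rintro ⟨w, hw, h⟩
    rw [← h]
    simpa using hw

/-- one difference -/
lemma diff_one (hK : StK1) {δ : ℝ} (hF : Free Q U E' j δ) (hQ : 2 ≤ Q) {l : ℕ}
    (hl : l ∈ Ico (j * Q) ((j + 1) * Q)) (A : Finset (ZMod n)) :
    Ex Q U E' j (fun f => if f (l + 1) - f l ∈ A then 1 else 0) ≤ δ * A.card := by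
  have e : (j + 1) * Q = j * Q + Q := by ring
  rw [mem_Ico] at hl
  by_cases h : l = j * Q
  · have := diff_right (l := l) hK hF (by rw [mem_Ioo]; omega) A (fun _ => 1)
      (fun _ _ => rfl) (fun _ => zero_le_one)
    rwa [hF.one, mul_one] at this
  · have := diff_left (l := l) hK hF (by rw [mem_Ioo]; omega) A (fun _ => 1)
      (fun _ _ => rfl) (fun _ => zero_le_one)
    rwa [hF.one, mul_one] at this

/-- two differences -/
lemma diff_two (hK : StK1) {δ : ℝ} (hF : Free Q U E' j δ) (hQ : 3 ≤ Q) {l k : ℕ}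
    (hlk : l < k) (hl : l ∈ Ico (j * Q) ((j + 1) * Q)) (hk : k ∈ Ico (j * Q) ((j + 1) * Q))
    (A B : Finset (ZMod n)) :
    Ex Q U E' j (fun f => if f (l + 1) - f l ∈ A then
      (if f (k + 1) - f k ∈ B then 1 else 0) else 0) ≤ δ ^ 2 * A.card * B.card := by
  have e : (j + 1) * Q = j * Q + Q := by ring
  have hδ : 0 ≤ δ := by
    have h1 : j * Q + 1 ∈ Ioo (j * Q) ((j + 1) * Q) := by rw [mem_Ioo]; omega
    exact le_trans (pa_nonneg _ 0) ((hF _ h1).2 0)
  have hl' := hl
  have hk' := hk
  rw [mem_Ico] at hl hk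
  have swap : (fun f : ℕ → ZMod n => if f (l + 1) - f l ∈ A then
      (if f (k + 1) - f k ∈ B then (1 : ℝ) else 0) else 0) =
      fun f => if f (k + 1) - f k ∈ B then
      (if f (l + 1) - f l ∈ A then (1 : ℝ) else 0) else 0 := by
    funext f
    split_ifs <;> rfl
  by_cases h : l = j * Q
  · rw [swap]
    by_cases h' : k + 1 = (j + 1) * Q
    · have := diff_left (l := k) hK hF (by rw [mem_Ioo]; omega) B
        (fun f => if f (l + 1) - f l ∈ A then 1 else 0)
        (fun f x => by
          have h1 : l + 1 ≠ k := by omega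
          have h2 : l ≠ k := by omega
          simp only [Function.update_of_ne h1, Function.update_of_ne h2])
        (fun _ => ind_nonneg _)
      refine this.trans ?_
      have h3 := diff_one hK hF (by omega) hl' A
      calc δ * B.card * Ex Q U E' j (fun f => if f (l + 1) - f l ∈ A then 1 else 0)
          ≤ δ * B.card * (δ * A.card) := by
            apply mul_le_mul_of_nonneg_left h3; positivity
        _ = δ ^ 2 * A.card * B.card := by ring
    · have := diff_right (l := k) hK hF (by rw [mem_Ioo]; omega) B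
        (fun f => if f (l + 1) - f l ∈ A then 1 else 0)
        (fun f x => by
          have h1 : l + 1 ≠ k + 1 := by omega
          have h2 : l ≠ k + 1 := by omega
          simp only [Function.update_of_ne h1, Function.update_of_ne h2])
        (fun _ => ind_nonneg _)
      refine this.trans ?_
      have h3 := diff_one hK hF (by omega) hl' A
      calc δ * B.card * Ex Q U E' j (fun f => if f (l + 1) - f l ∈ A then 1 else 0)
          ≤ δ * B.card * (δ * A.card) := by
            apply mul_le_mul_of_nonneg_left h3; positivity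
        _ = δ ^ 2 * A.card * B.card := by ring
  · have := diff_left (l := l) hK hF (by rw [mem_Ioo]; omega) A
      (fun f => if f (k + 1) - f k ∈ B then 1 else 0)
      (fun f x => by
        have h1 : k + 1 ≠ l := by omega
        have h2 : k ≠ l := by omega
        simp only [Function.update_of_ne h1, Function.update_of_ne h2])
      (fun _ => ind_nonneg _)
    refine this.trans ?_
    have h3 := diff_one hK hF (by omega) hk' B
    calc δ * A.card * Ex Q U E' j (fun f => if f (k + 1) - f k ∈ B then 1 else 0)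
        ≤ δ * A.card * (δ * B.card) := by
          apply mul_le_mul_of_nonneg_left h3; positivity
      _ = δ ^ 2 * A.card * B.card := by ring

/-- two different differences -/
lemma diff_two' (hK : StK1) {δ : ℝ} (hF : Free Q U E' j δ) (hQ : 3 ≤ Q) {l k : ℕ}
    (hlk : l ≠ k) (hl : l ∈ Ico (j * Q) ((j + 1) * Q)) (hk : k ∈ Ico (j * Q) ((j + 1) * Q))
    (A B : Finset (ZMod n)) :
    Ex Q U E' j (fun f => if f (l + 1) - f l ∈ A then
      (if f (k + 1) - f k ∈ B then 1 else 0) else 0) ≤ δ ^ 2 * A.card * B.card := by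
  rcases lt_or_gt_of_ne hlk with h | h
  · exact diff_two hK hF hQ h hl hk A B
  · have := diff_two hK hF hQ h hk hl B A
    have swap : (fun f : ℕ → ZMod n => if f (l + 1) - f l ∈ A then
      (if f (k + 1) - f k ∈ B then (1 : ℝ) else 0) else 0) =
      fun f => if f (k + 1) - f k ∈ B then
      (if f (l + 1) - f l ∈ A then (1 : ℝ) else 0) else 0 := by
      funext f
      split_ifs <;> rfl
    rw [swap]
    calc _ ≤ _ := this
      _ = δ ^ 2 * A.card * B.card := by ring

/-- one value -/
lemma val_one (hK : StK1) {δ : ℝ} (hF : Free Q U E' j δ) {k : ℕ}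
    (hk : k ∈ Ioo (j * Q) ((j + 1) * Q)) (v : ZMod n) :
    Ex Q U E' j (fun f => if f k = v then 1 else 0) ≤ δ := by
  rw [hK n Q U E' j k hk (hF k hk).1 (fun _ => 1) v, hF.one, mul_one]
  exact (hF k hk).2 v

/-- a value and a difference -/
lemma val_diff (hK : StK1) {δ : ℝ} (hF : Free Q U E' j δ) (hQ : 2 ≤ Q) {l k : ℕ}
    (hl : l ∈ Ico (j * Q) ((j + 1) * Q)) (hk : k ∈ Ioo (j * Q) ((j + 1) * Q))
    (A : Finset (ZMod n)) (v : ZMod n) :
    Ex Q U E' j (fun f => if f (l + 1) - f l ∈ A then (if f k = v then 1 else 0) else 0) ≤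
      δ ^ 2 * A.card + (if l = j * Q ∧ k = j * Q + 1 ∧ v - U (j * Q) ∈ A then δ else 0) +
        (if l = k ∧ k + 1 = (j + 1) * Q ∧ U ((j + 1) * Q) - v ∈ A then δ else 0) := by
  have e : (j + 1) * Q = j * Q + Q := by ring
  have hδ : 0 ≤ δ := le_trans (pa_nonneg _ 0) ((hF _ hk).2 0)
  have h3 := val_one hK hF hk v
  have hk' := hk
  rw [mem_Ico] at hl
  rw [mem_Ioo] at hk
  have p1 : 0 ≤ δ ^ 2 * (A.card : ℝ) := by positivity
  have p2 : 0 ≤ (if l = j * Q ∧ k = j * Q + 1 ∧ v - U (j * Q) ∈ A then δ else 0) :=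
    ite_nn _ hδ
  have p3 : 0 ≤ (if l = k ∧ k + 1 = (j + 1) * Q ∧ U ((j + 1) * Q) - v ∈ A then δ else 0) :=
    ite_nn _ hδ
  by_cases hL : l ≠ j * Q ∧ l ≠ k
  · have := diff_left (l := l) hK hF (by rw [mem_Ioo]; omega) A
      (fun f => if f k = v then 1 else 0)
      (fun f x => by
        have h1 : k ≠ l := fun h => hL.2 h.symm
        simp only [Function.update_of_ne h1])
      (fun _ => ind_nonneg _)
    have h4 : δ * A.card * Ex Q U E' j (fun f => if f k = v then 1 else 0) ≤
        δ * A.card * δ := by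
      exact mul_le_mul_of_nonneg_left h3 (mul_nonneg hδ (Nat.cast_nonneg _))
    have h5 : δ * A.card * δ = δ ^ 2 * A.card := by ring
    rw [h5] at h4
    exact (this.trans h4).trans (by linarith only [p2, p3])
  · by_cases hR : l + 1 ≠ (j + 1) * Q ∧ l + 1 ≠ k
    · have := diff_right (l := l) hK hF (by rw [mem_Ioo]; omega) A
        (fun f => if f k = v then 1 else 0)
        (fun f x => by
          have h1 : k ≠ l + 1 := fun h => hR.2 h.symm
          simp only [Function.update_of_ne h1])
        (fun _ => ind_nonneg _)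
      have h4 : δ * A.card * Ex Q U E' j (fun f => if f k = v then 1 else 0) ≤
          δ * A.card * δ := by
        exact mul_le_mul_of_nonneg_left h3 (mul_nonneg hδ (Nat.cast_nonneg _))
      have h5 : δ * A.card * δ = δ ^ 2 * A.card := by ring
      rw [h5] at h4
      exact (this.trans h4).trans (by linarith only [p2, p3])
    · have hcase : (l = j * Q ∧ k = j * Q + 1) ∨ (l = k ∧ k + 1 = (j + 1) * Q) := by omega
      rcases hcase with ⟨h5, h6⟩ | ⟨h5, h6⟩
      · have hb : Ex Q U E' j (fun f => if f (l + 1) - f l ∈ A then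
            (if f k = v then 1 else 0) else 0) ≤
            if v - U (j * Q) ∈ A then δ else 0 := by
          split_ifs with hA
          · refine le_trans (Ex_mono fun m => ?_) h3
            split_ifs <;> norm_num
          · have : Ex Q U E' j (fun f => if f (l + 1) - f l ∈ A then
              (if f k = v then 1 else 0) else 0) ≤ Ex Q U E' j (fun _ => 0) := by
              refine Ex_mono fun m => ?_
              split_ifs with h7 h8
              · exfalso
                apply hA
                rw [h5, ext_off (k := j * Q) m (by rw [mem_Ioo]; omega), ← h6, h8] at h7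
                exact h7
              · exact le_rfl
              · exact le_rfl
            refine this.trans ?_
            simp [Ex]
        have hc : (if l = j * Q ∧ k = j * Q + 1 ∧ v - U (j * Q) ∈ A then δ else 0) =
            if v - U (j * Q) ∈ A then δ else 0 := by
          simp [h5, h6]
        rw [hc]
        linarith
      · have hb : Ex Q U E' j (fun f => if f (l + 1) - f l ∈ A then
            (if f k = v then 1 else 0) else 0) ≤
            if U ((j + 1) * Q) - v ∈ A then δ else 0 := by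
          split_ifs with hA
          · refine le_trans (Ex_mono fun m => ?_) h3
            split_ifs <;> norm_num
          · have : Ex Q U E' j (fun f => if f (l + 1) - f l ∈ A then
              (if f k = v then 1 else 0) else 0) ≤ Ex Q U E' j (fun _ => 0) := by
              refine Ex_mono fun m => ?_
              split_ifs with h7 h8
              · exfalso
                apply hA
                rw [h5, h6, ext_off (k := (j + 1) * Q) m (by rw [mem_Ioo]; omega), h8] at h7
                exact h7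
              · exact le_rfl
              · exact le_rfl
            refine this.trans ?_
            simp [Ex]
        have hc : (if l = k ∧ k + 1 = (j + 1) * Q ∧ U ((j + 1) * Q) - v ∈ A then δ else 0) =
            if U ((j + 1) * Q) - v ∈ A then δ else 0 := by
          simp [h5, h6]
        rw [hc]
        linarith

/-- the bad event is covered by the differences -/
lemma bad_le (f : ℕ → ZMod n) {c : ℝ} (hc : 0 ≤ c) :
    (if Gd Q E' j f then 0 else c) ≤
      ∑ l ∈ Ico (j * Q) ((j + 1) * Q), if f (l + 1) - f l ∈ Xt E' then c else 0 := by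
  have hnn : ∀ l ∈ Ico (j * Q) ((j + 1) * Q),
      0 ≤ if f (l + 1) - f l ∈ Xt E' then c else 0 := fun l _ => ite_nn _ hc
  by_cases h : Gd Q E' j f
  · rw [if_pos h]
    exact sum_nonneg hnn
  · rw [if_neg h]
    unfold Gd at h
    push Not at h
    obtain ⟨l, hl, h⟩ := h
    refine le_trans ?_ (single_le_sum hnn hl)
    rw [if_pos]
    unfold Xt
    rw [mem_filter]
    exact ⟨mem_univ _, h⟩

lemma dsum (s t : Finset ℕ) (a b : ℕ) (P : ℕ → Prop) [DecidablePred P] {δ : ℝ} (hδ : 0 ≤ δ) :
    ∑ l ∈ s, ∑ k ∈ t, (if l = a ∧ k = b ∧ P k then δ else 0) ≤ if P b then δ else 0 := by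
  have h1 : ∀ l ∈ s, ∑ k ∈ t, (if l = a ∧ k = b ∧ P k then δ else 0) ≤
      if l = a then (if P b then δ else 0) else 0 := by
    intro l _
    have : ∑ k ∈ t, (if l = a ∧ k = b ∧ P k then δ else 0) =
        ∑ k ∈ t, if b = k then (if l = a ∧ P b then δ else 0) else 0 := by
      refine sum_congr rfl fun k _ => ?_
      by_cases hk : k = b
      · subst hk
        simp
      · rw [if_neg (fun h => hk h.2.1), if_neg (fun h => hk h.symm)]
    rw [this, sum_ite_eq]
    by_cases hb : b ∈ t
    · rw [if_pos hb]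
      by_cases hl : l = a
      · simp [hl]
      · simp [hl]
    · rw [if_neg hb]
      exact ite_nn _ (ite_nn _ hδ)
  refine (sum_le_sum h1).trans ?_
  have : ∑ l ∈ s, (if l = a then (if P b then δ else 0) else 0) =
      ∑ l ∈ s, (if a = l then (if P b then δ else 0) else 0) := by
    refine sum_congr rfl fun l _ => if_congr eq_comm rfl rfl
  rw [this, sum_ite_eq]
  by_cases ha : a ∈ s
  · rw [if_pos ha]
  · rw [if_neg ha]
    exact ite_nn _ hδ

lemma inj_sum (J' : Finset ℕ) (X : Finset (ZMod n)) (φ : ℕ → ZMod n)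
    (hφ : ∀ i ∈ J', ∀ j ∈ J', φ i = φ j → i = j) {δ : ℝ} (hδ : 0 ≤ δ) :
    ∑ j ∈ J', (if φ j ∈ X then δ else 0) ≤ δ * X.card := by
  rw [← sum_filter, sum_const, nsmul_eq_mul, mul_comm]
  apply mul_le_mul_of_nonneg_left _ hδ
  have : (J'.filter fun j => φ j ∈ X).card ≤ X.card := by
    apply card_le_card_of_injOn φ
    · intro j hj
      exact (mem_filter.1 hj).2
    · intro i hi j hj h
      exact hφ i (mem_filter.1 hi).1 j (mem_filter.1 hj).1 h
  exact_mod_cast this

lemma free_of_fp {J' : Finset ℕ} (hQ : 2 ≤ Q) (h : Fp n Q U J' E') (hj : j ∈ J') :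
    Free Q U E' j (2 / n) := by
  intro k hk
  have hn : (0 : ℝ) < n := by exact_mod_cast Nat.pos_of_ne_zero (NeZero.ne n)
  have hj' := h.est.sub hj
  unfold Blocks J1 at hj'
  rw [mem_Ico] at hj'
  rw [mem_Ioo] at hk
  have h1 : (j + 1) * Q ≤ T1 n := (Nat.le_div_iff_mul_le (by omega)).1 hj'.2
  have hk1 : k ∈ Icc 1 (T1 n) := by rw [mem_Icc]; omega
  have hM := h.mkc k hk1
  have hMr : (n : ℝ) ≤ 2 * ((Mk E' k).card : ℝ) := by exact_mod_cast hM
  have hM0 : (0 : ℝ) < ((Mk E' k).card : ℝ) := by linarith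
  have hd : ¬ Q ∣ k := by
    rintro ⟨c, rfl⟩
    have h2 : j < c := by
      by_contra h3
      have : Q * c ≤ j * Q := by
        rw [mul_comm]; exact Nat.mul_le_mul_right _ (by omega)
      omega
    have h3 : c < j + 1 := by
      by_contra h3
      have : (j + 1) * Q ≤ Q * c := by
        rw [mul_comm Q c]; exact Nat.mul_le_mul_right _ (by omega)
      omega
    omega
  have e : ∀ x, pa Q U E' k x = if x ∈ Mk E' k then 1 / ((Mk E' k).card : ℝ) else 0 := by
    intro x
    unfold pa
    rw [if_neg hd]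
  constructor
  · simp only [e]
    rw [← sum_filter, sum_const, nsmul_eq_mul]
    have : (univ.filter fun x => x ∈ Mk E' k) = Mk E' k := by ext; simp
    rw [this]
    field_simp
  · intro x
    rw [e]
    have h4 : 1 / ((Mk E' k).card : ℝ) ≤ 2 / n := by
      rw [div_le_div_iff₀ hM0 hn]
      linarith
    by_cases hx : x ∈ Mk E' k
    · rw [if_pos hx]; exact h4
    · rw [if_neg hx]; positivity

lemma num1 {a b q N : ℝ} (ha : 0 ≤ a) (hb : 0 ≤ b) (hq : 10 ^ 5 ≤ q) (hN : 0 < N)
    (h1 : 2 * q * a ≤ N) (h2 : q ^ 4 * b ≤ N) :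
    a * (q * q * (2 * ((2 / N) ^ 2 * b))) ≤ 4 / q ^ 3 := by
  have hq0 : 0 < q := by linarith
  have e : a * (q * q * (2 * ((2 / N) ^ 2 * b))) =
      4 / q ^ 3 * ((2 * q * a) / N) * ((q ^ 4 * b) / N) := by
    field_simp
    ring
  rw [e]
  have h3 : (2 * q * a) / N ≤ 1 := by rw [div_le_one hN]; exact h1
  have h4 : (q ^ 4 * b) / N ≤ 1 := by rw [div_le_one hN]; exact h2
  have h5 : 0 ≤ (2 * q * a) / N := by positivity
  have h6 : 0 ≤ (q ^ 4 * b) / N := by positivity
  have h7 : 0 ≤ 4 / q ^ 3 := by positivity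
  calc 4 / q ^ 3 * ((2 * q * a) / N) * ((q ^ 4 * b) / N)
      ≤ 4 / q ^ 3 * 1 * 1 := by gcongr
    _ = 4 / q ^ 3 := by ring

lemma num2 {b q N : ℝ} (hb : 0 ≤ b) (hq : 10 ^ 5 ≤ q) (hN : 0 < N)
    (h2 : q ^ 4 * b ≤ N) : 4 * (2 / N * b) ≤ 1 / q ^ 3 := by
  have hq0 : 0 < q := by linarith
  have e : 4 * (2 / N * b) = 8 / q ^ 4 * ((q ^ 4 * b) / N) := by
    field_simp
    ring
  rw [e]
  have h4 : (q ^ 4 * b) / N ≤ 1 := by rw [div_le_one hN]; exact h2
  calc 8 / q ^ 4 * ((q ^ 4 * b) / N) ≤ 8 / q ^ 4 * 1 := by gcongr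
    _ ≤ 1 / q ^ 3 := by
      rw [mul_one, div_le_div_iff₀ (by positivity) (by positivity)]
      have : 8 * q ^ 3 ≤ q * q ^ 3 := by
        apply mul_le_mul_of_nonneg_right (by linarith); positivity
      calc 8 * q ^ 3 ≤ q * q ^ 3 := this
        _ = 1 * q ^ 4 := by ring

end

end BadAux

open BadAux in
theorem stBad : StK1 → StBad := by
  intro hK n Q _ U J' E' hQ hE h
  have hn : (0 : ℝ) < n := by exact_mod_cast Nat.pos_of_ne_zero (NeZero.ne n)
  have hδ : (0 : ℝ) ≤ 2 / n := by positivity
  have hq : (10 : ℝ) ^ 5 ≤ (Q : ℝ) := by exact_mod_cast hQ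
  have hq0 : (0 : ℝ) < (Q : ℝ) := by linarith
  have hX : (Q : ℝ) ^ 4 * ((Xt E').card : ℝ) ≤ n := by exact_mod_cast h.est.xc
  have hJ : 2 * (Q : ℝ) * (J'.card : ℝ) ≤ n := by exact_mod_cast h.est.jc
  have hQ3 : 3 ≤ Q := le_trans (by norm_num) hQ
  have hX1 : 2 / (n : ℝ) * ((Xt E').card : ℝ) ≤ 2 / (Q : ℝ) ^ 4 := by
    rw [le_div_iff₀ (by positivity), div_mul_eq_mul_div, div_mul_eq_mul_div, div_le_iff₀ hn]
    nlinarith
  have cI : ∀ j : ℕ, ((Ico (j * Q) ((j + 1) * Q)).card : ℝ) = Q := by
    intro j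
    rw [Nat.card_Ico]
    have : (j + 1) * Q - j * Q = Q := by
      have : (j + 1) * Q = j * Q + Q := by ring
      omega
    rw [this]
  have cO : ∀ j : ℕ, ((Ioo (j * Q) ((j + 1) * Q)).card : ℝ) ≤ Q := by
    intro j
    rw [← cI j]
    exact_mod_cast card_le_card Ioo_subset_Ico_self
  constructor
  · intro j hj
    have hF := free_of_fp (by omega) h hj
    calc Ex Q U E' j (fun f => if Gd Q E' j f then 0 else 1)
        ≤ Ex Q U E' j (fun f => ∑ l ∈ Ico (j * Q) ((j + 1) * Q),
            if f (l + 1) - f l ∈ Xt E' then 1 else 0) :=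
          Ex_mono fun m => bad_le _ zero_le_one
      _ = ∑ l ∈ Ico (j * Q) ((j + 1) * Q),
            Ex Q U E' j (fun f => if f (l + 1) - f l ∈ Xt E' then 1 else 0) := Ex_sum _ _
      _ ≤ ∑ l ∈ Ico (j * Q) ((j + 1) * Q), 2 / (n : ℝ) * ((Xt E').card : ℝ) :=
          sum_le_sum fun l hl => diff_one hK hF (by omega) hl _
      _ = Q * (2 / (n : ℝ) * ((Xt E').card : ℝ)) := by
          rw [sum_const, nsmul_eq_mul, cI]
      _ ≤ Q * (2 / (Q : ℝ) ^ 4) := by gcongr
      _ = 2 / (Q : ℝ) ^ 3 := by field_simp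
  · intro y hy
    rcases y with x | c
    · -- points
      have key : ∀ j ∈ J', Ex Q U E' j (fun f => if Gd Q E' j f then 0 else
          (mult n Q j f (Sum.inl x) : ℝ)) ≤
          Q * Q * (2 * ((2 / (n : ℝ)) ^ 2 * ((Xt E').card : ℝ))) +
          (if x - U (j * Q) ∈ Xt E' then 2 / (n : ℝ) else 0) +
          (if U ((j + 1) * Q) - x ∈ Xt E' then 2 / (n : ℝ) else 0) +
          (if x + ((j * Q + 1 : ℕ) : ZMod n) - U (j * Q) ∈ Xt E' then 2 / (n : ℝ) else 0) +
          (if U ((j + 1) * Q) - (x + (((j + 1) * Q - 1 : ℕ) : ZMod n)) ∈ Xt E' then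
            2 / (n : ℝ) else 0) := by
        intro j hj
        have hF := free_of_fp (by omega) h hj
        have e : (j + 1) * Q = j * Q + Q := by ring
        have s1 : Ex Q U E' j (fun f => if Gd Q E' j f then 0 else
            (mult n Q j f (Sum.inl x) : ℝ)) ≤
            ∑ l ∈ Ico (j * Q) ((j + 1) * Q), ∑ k ∈ Ioo (j * Q) ((j + 1) * Q),
              (Ex Q U E' j (fun f => if f (l + 1) - f l ∈ Xt E' then
                (if f k = x then 1 else 0) else 0) +
              Ex Q U E' j (fun f => if f (l + 1) - f l ∈ Xt E' then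
                (if f k = x + (k : ZMod n) then 1 else 0) else 0)) := by
          simp only [← Ex_add, ← Ex_sum]
          refine Ex_mono fun m => ?_
          refine (bad_le _ (Nat.cast_nonneg _)).trans ?_
          refine sum_le_sum fun l _ => ?_
          by_cases hl : ext n Q U j m (l + 1) - ext n Q U j m l ∈ Xt E'
          · simp only [if_pos hl]
            unfold mult
            simp only [Sum.elim_inl]
            push_cast
            refine sum_le_sum fun k _ => ?_
            refine add_le_add le_rfl (le_of_eq (if_congr ?_ rfl rfl))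
            rw [sub_eq_iff_eq_add]
          · simp only [if_neg hl]
            simp
        refine s1.trans ?_
        have s2 : ∑ l ∈ Ico (j * Q) ((j + 1) * Q), ∑ k ∈ Ioo (j * Q) ((j + 1) * Q),
              (Ex Q U E' j (fun f => if f (l + 1) - f l ∈ Xt E' then
                (if f k = x then 1 else 0) else 0) +
              Ex Q U E' j (fun f => if f (l + 1) - f l ∈ Xt E' then
                (if f k = x + (k : ZMod n) then 1 else 0) else 0)) ≤
            ∑ l ∈ Ico (j * Q) ((j + 1) * Q), ∑ k ∈ Ioo (j * Q) ((j + 1) * Q),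
              (2 * ((2 / (n : ℝ)) ^ 2 * ((Xt E').card : ℝ)) +
              (if l = j * Q ∧ k = j * Q + 1 ∧ x - U (j * Q) ∈ Xt E' then 2 / (n : ℝ) else 0) +
              (if l = (j + 1) * Q - 1 ∧ k = (j + 1) * Q - 1 ∧ U ((j + 1) * Q) - x ∈ Xt E' then
                2 / (n : ℝ) else 0) +
              (if l = j * Q ∧ k = j * Q + 1 ∧ x + (k : ZMod n) - U (j * Q) ∈ Xt E' then
                2 / (n : ℝ) else 0) +
              (if l = (j + 1) * Q - 1 ∧ k = (j + 1) * Q - 1 ∧
                U ((j + 1) * Q) - (x + (k : ZMod n)) ∈ Xt E' then 2 / (n : ℝ) else 0)) := by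
          refine sum_le_sum fun l hl => sum_le_sum fun k hk => ?_
          have a1 := val_diff hK hF (by omega) hl hk (Xt E') x
          have a2 := val_diff hK hF (by omega) hl hk (Xt E') (x + (k : ZMod n))
          have e1 : ∀ P : Prop, (l = k ∧ k + 1 = (j + 1) * Q ∧ P) ↔
              (l = (j + 1) * Q - 1 ∧ k = (j + 1) * Q - 1 ∧ P) := by
            intro P
            constructor
            · rintro ⟨b1, b2, b3⟩
              exact ⟨by omega, by omega, b3⟩
            · rintro ⟨b1, b2, b3⟩
              exact ⟨by omega, by omega, b3⟩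
          rw [if_congr (e1 _) rfl rfl] at a1 a2
          linarith
        refine s2.trans ?_
        simp only [sum_add_distrib]
        refine add_le_add (add_le_add (add_le_add (add_le_add ?_ ?_) ?_) ?_) ?_
        · simp only [sum_const, nsmul_eq_mul]
          rw [cI, mul_assoc]
          apply mul_le_mul_of_nonneg_left _ hq0.le
          apply mul_le_mul_of_nonneg_right (cO j)
          positivity
        · exact dsum _ _ _ _ (fun _ => x - U (j * Q) ∈ Xt E') hδ
        · exact dsum _ _ _ _ (fun _ => U ((j + 1) * Q) - x ∈ Xt E') hδ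
        · exact dsum _ _ _ _ (fun k : ℕ => x + (k : ZMod n) - U (j * Q) ∈ Xt E') hδ
        · exact dsum _ _ _ _ (fun k : ℕ => U ((j + 1) * Q) - (x + (k : ZMod n)) ∈ Xt E') hδ
      refine (sum_le_sum key).trans ?_
      simp only [sum_add_distrib]
      have fT : ∀ j ∈ J', j * Q ∈ FixT n Q ∧ (j + 1) * Q ∈ FixT n Q := by
        intro j hj
        have hj' := h.est.sub hj
        unfold Blocks J1 at hj'
        rw [mem_Ico] at hj'
        have h1 : (j + 1) * Q ≤ T1 n := (Nat.le_div_iff_mul_le (by omega)).1 hj'.2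
        have h2 : Q ≤ j * Q := Nat.le_mul_of_pos_left _ hj'.1
        have e : (j + 1) * Q = j * Q + Q := by ring
        have h3 : T0 n ≤ 1 := by unfold T0; omega
        unfold FixT
        constructor
        · rw [mem_filter, mem_Icc]
          exact ⟨by omega, Or.inr (Or.inl (dvd_mul_left _ _))⟩
        · rw [mem_filter, mem_Icc]
          exact ⟨by omega, Or.inr (Or.inl (dvd_mul_left _ _))⟩
      have hQ0 : 0 < Q := by omega
      have i1 := inj_sum J' (Xt E') (fun j => x - U (j * Q)) (by
        intro i hi j hj hij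
        have := h.est.fix.up _ (fT i hi).1 _ (fT j hj).1 (sub_right_injective hij)
        exact Nat.eq_of_mul_eq_mul_right hQ0 this) hδ
      have i2 := inj_sum J' (Xt E') (fun j => U ((j + 1) * Q) - x) (by
        intro i hi j hj hij
        have := h.est.fix.up _ (fT i hi).2 _ (fT j hj).2 (sub_left_injective hij)
        have := Nat.eq_of_mul_eq_mul_right hQ0 this
        omega) hδ
      have i3 := inj_sum J' (Xt E')
        (fun j => x + ((j * Q + 1 : ℕ) : ZMod n) - U (j * Q)) (by
        intro i hi j hj hij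
        have h1 : U (i * Q) - ((i * Q : ℕ) : ZMod n) = U (j * Q) - ((j * Q : ℕ) : ZMod n) := by
          have hij' : x + ((i * Q + 1 : ℕ) : ZMod n) - U (i * Q) =
            x + ((j * Q + 1 : ℕ) : ZMod n) - U (j * Q) := hij
          push_cast at hij' ⊢
          linear_combination -hij'
        have := h.est.fix.lo _ (fT i hi).1 _ (fT j hj).1 h1
        exact Nat.eq_of_mul_eq_mul_right hQ0 this) hδ
      have i4 := inj_sum J' (Xt E')
        (fun j => U ((j + 1) * Q) - (x + (((j + 1) * Q - 1 : ℕ) : ZMod n))) (by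
        intro i hi j hj hij
        have h1 : U ((i + 1) * Q) - (((i + 1) * Q : ℕ) : ZMod n) =
            U ((j + 1) * Q) - (((j + 1) * Q : ℕ) : ZMod n) := by
          have hij' : U ((i + 1) * Q) - (x + (((i + 1) * Q - 1 : ℕ) : ZMod n)) =
            U ((j + 1) * Q) - (x + (((j + 1) * Q - 1 : ℕ) : ZMod n)) := hij
          have c1 : 1 ≤ (i + 1) * Q := Nat.mul_pos (by omega) hQ0
          have c2 : 1 ≤ (j + 1) * Q := Nat.mul_pos (by omega) hQ0
          rw [Nat.cast_sub c1, Nat.cast_sub c2] at hij'
          linear_combination hij'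
        have := h.est.fix.lo _ (fT i hi).2 _ (fT j hj).2 h1
        have := Nat.eq_of_mul_eq_mul_right hQ0 this
        omega) hδ
      have n1 := num1 (Nat.cast_nonneg J'.card) (Nat.cast_nonneg (Xt E').card) hq hn hJ hX
      have n2 := num2 (Nat.cast_nonneg (Xt E').card) hq hn hX
      rw [sum_const, nsmul_eq_mul]
      have n3 : (10 : ℝ) / (Q : ℝ) ^ 3 = 4 / (Q : ℝ) ^ 3 + 1 / (Q : ℝ) ^ 3 + 5 / (Q : ℝ) ^ 3 := by
        ring
      have n4 : (0 : ℝ) ≤ 5 / (Q : ℝ) ^ 3 := by positivity
      rw [n3]
      linarith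
    · -- classes
      have hc := hE hy
      unfold All at hc
      rw [mem_union] at hc
      obtain ⟨w, hw⟩ : ∃ w : ZMod n, cl w = c := by
        rcases hc with hc | hc
        · rw [mem_image] at hc
          obtain ⟨a, _, ha⟩ := hc
          exact absurd ha Sum.inl_ne_inr
        · rw [mem_image] at hc
          obtain ⟨a, _, ha⟩ := hc
          exact ⟨a, Sum.inr_injective ha⟩
      subst hw
      have hB : ∀ d : ZMod n, cl d = cl w ↔ d ∈ ({w, 1 - w} : Finset (ZMod n)) := by
        intro d
        unfold cl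
        rw [Sym2.eq_iff, mem_insert, mem_singleton]
        constructor
        · rintro (⟨h1, _⟩ | ⟨h1, _⟩)
          · exact Or.inl h1
          · exact Or.inr h1
        · rintro (h1 | h1)
          · exact Or.inl ⟨h1, by rw [h1]⟩
          · exact Or.inr ⟨h1, by rw [h1]; ring⟩
      have key : ∀ j ∈ J', Ex Q U E' j (fun f => if Gd Q E' j f then 0 else
          (mult n Q j f (Sum.inr (cl w)) : ℝ)) ≤
          Q * Q * (2 * ((2 / (n : ℝ)) ^ 2 * ((Xt E').card : ℝ))) := by
        intro j hj
        have hF := free_of_fp (by omega) h hj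
        have s1 : Ex Q U E' j (fun f => if Gd Q E' j f then 0 else
            (mult n Q j f (Sum.inr (cl w)) : ℝ)) ≤
            ∑ l ∈ Ico (j * Q) ((j + 1) * Q), ∑ k ∈ Ico (j * Q) ((j + 1) * Q),
              Ex Q U E' j (fun f => if f (l + 1) - f l ∈ Xt E' then
                (if f (k + 1) - f k ∈ ({w, 1 - w} : Finset (ZMod n)) then 1 else 0) else 0) := by
          simp only [← Ex_sum]
          refine Ex_mono fun m => ?_
          refine (bad_le _ (Nat.cast_nonneg _)).trans ?_
          refine sum_le_sum fun l _ => ?_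
          by_cases hl : ext n Q U j m (l + 1) - ext n Q U j m l ∈ Xt E'
          · simp only [if_pos hl]
            unfold mult
            simp only [Sum.elim_inr]
            push_cast
            refine sum_le_sum fun k _ => ?_
            exact le_of_eq (if_congr (hB _) rfl rfl)
          · simp only [if_neg hl]
            simp
        refine s1.trans ?_
        have s2 : ∑ l ∈ Ico (j * Q) ((j + 1) * Q), ∑ k ∈ Ico (j * Q) ((j + 1) * Q),
              Ex Q U E' j (fun f => if f (l + 1) - f l ∈ Xt E' then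
                (if f (k + 1) - f k ∈ ({w, 1 - w} : Finset (ZMod n)) then 1 else 0) else 0) ≤
            ∑ l ∈ Ico (j * Q) ((j + 1) * Q), ∑ k ∈ Ico (j * Q) ((j + 1) * Q),
              (2 * ((2 / (n : ℝ)) ^ 2 * ((Xt E').card : ℝ))) := by
          refine sum_le_sum fun l hl => sum_le_sum fun k hk => ?_
          by_cases hlk : l = k
          · subst hlk
            have : Ex Q U E' j (fun f => if f (l + 1) - f l ∈ Xt E' then
                (if f (l + 1) - f l ∈ ({w, 1 - w} : Finset (ZMod n)) then 1 else 0) else 0) ≤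
                Ex Q U E' j (fun _ => 0) := by
              refine Ex_mono fun m => ?_
              split_ifs with h7 h8
              · exfalso
                rw [← hB] at h8
                unfold Xt at h7
                rw [mem_filter, h8] at h7
                exact h7.2 hy
              · exact le_rfl
              · exact le_rfl
            refine this.trans ?_
            have : Ex Q U E' j (fun _ => 0) = 0 := by simp [Ex]
            rw [this]
            positivity
          · refine (diff_two' hK hF hQ3 hlk hl hk _ _).trans ?_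
            have h2 : ((({w, 1 - w} : Finset (ZMod n)).card : ℕ) : ℝ) ≤ 2 := by
              exact_mod_cast card_le_two
            calc (2 / (n : ℝ)) ^ 2 * ((Xt E').card : ℝ) *
                ((({w, 1 - w} : Finset (ZMod n)).card : ℕ) : ℝ)
                ≤ (2 / (n : ℝ)) ^ 2 * ((Xt E').card : ℝ) * 2 := by gcongr
              _ = _ := by ring
        refine s2.trans ?_
        simp only [sum_const, nsmul_eq_mul]
        rw [cI, mul_assoc]
      refine (sum_le_sum key).trans ?_
      rw [sum_const, nsmul_eq_mul]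
      have n1 := num1 (Nat.cast_nonneg J'.card) (Nat.cast_nonneg (Xt E').card) hq hn hJ hX
      refine n1.trans ?_
      gcongr
      norm_num

end Pool.Agent.DNA
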