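import Pool.Agent.Lib.MP_845d9b_co.Abs.Stmts

/-!
# Class swap (helper20)
-/

set_option autoImplicit false

namespace Pool.Agent.DNA

open Finset

namespace CSAux

variable {n : ℕ}

/-! ### parity -/

theorem par_even [NeZero n] (h : Even n) (x : ZMod n) :
    par x = ZMod.castHom h.two_dvd (ZMod 2) x := by
  unfold par
  rw [if_pos h, ZMod.castHom_apply, ZMod.natCast_val]

theorem par_odd (h : ¬ Even n) (x : ZMod n) : par x = 0 := by
  unfold par; rw [if_neg h]

theorem par_add [NeZero n] (x y : ZMod n) : par (x + y) = par x + par y := by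
  by_cases h : Even n
  · rw [par_even h, par_even h, par_even h, map_add]
  · rw [par_odd h, par_odd h, par_odd h, add_zero]

theorem par_sub [NeZero n] (x y : ZMod n) : par (x - y) = par x + par y := by
  by_cases h : Even n
  · rw [par_even h, par_even h, par_even h, map_sub]
    have : ∀ a b : ZMod 2, a - b = a + b := by decide
    exact this _ _
  · rw [par_odd h, par_odd h, par_odd h, add_zero]

theorem par_one [NeZero n] (h : Even n) : par (1 : ZMod n) = 1 := by
  rw [par_even h, map_one]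

theorem par_natOdd [NeZero n] (h : Even n) {k : ℕ} (hk : Odd k) : par (k : ZMod n) = 1 := by
  rw [par_even h, map_natCast]
  obtain ⟨m, rfl⟩ := hk
  push_cast
  have : (2 : ZMod 2) = 0 := by decide
  rw [this]; simp

theorem half [NeZero n] (x : ZMod n) (hx : par x = 0) : ∃ y, x = y + y := by
  by_cases h : Even n
  · unfold par at hx
    rw [if_pos h] at hx
    have h2 : 2 ∣ x.val := (ZMod.natCast_eq_zero_iff _ _).1 hx
    obtain ⟨m, hm⟩ := h2
    refine ⟨(m : ZMod n), ?_⟩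
    rw [← Nat.cast_add, ← two_mul, ← hm, ZMod.natCast_zmod_val]
  · rw [Nat.not_even_iff_odd] at h
    obtain ⟨m, hm⟩ := h
    refine ⟨((m + 1 : ℕ) : ZMod n) * x, ?_⟩
    have h0 : ((n : ℕ) : ZMod n) = 0 := ZMod.natCast_self n
    have h1 : (2 * (m : ZMod n) + 1) = 0 := by
      rw [hm] at h0 ⊢
      push_cast at h0 ⊢
      exact h0
    push_cast
    linear_combination (-x) * h1

/-! ### classes -/

theorem cl_eq_iff {w w' : ZMod n} : cl w = cl w' ↔ w = w' ∨ w = 1 - w' := by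
  unfold cl
  rw [Sym2.eq_iff]
  constructor
  · rintro (⟨h, -⟩ | ⟨h, -⟩)
    · exact Or.inl h
    · exact Or.inr h
  · rintro (h | h)
    · exact Or.inl ⟨h, by rw [h]⟩
    · exact Or.inr ⟨h, by rw [h]; ring⟩

theorem cl_one_sub (w : ZMod n) : cl (1 - w) = cl w := cl_eq_iff.2 (Or.inr rfl)

theorem clOk_one_sub {w : ZMod n} (h : ClOk w) : ClOk (1 - w) := by
  obtain ⟨h0, h1, h2⟩ := h
  refine ⟨fun h => h1 ?_, fun h => h0 ?_, fun h => h2 ?_⟩
  · linear_combination -h
  · linear_combination -h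
  · linear_combination -h

theorem mem_All_inr [NeZero n] {w : ZMod n} (h : ClOk w) : Sum.inr (cl w) ∈ All n := by
  unfold All
  exact mem_union_right _ (mem_image.2 ⟨w, mem_filter.2 ⟨mem_univ _, h⟩, rfl⟩)

theorem mem_All_inl [NeZero n] (x : ZMod n) : Sum.inl x ∈ All n := by
  unfold All
  exact mem_union_left _ (mem_image.2 ⟨x, mem_univ _, rfl⟩)

/-! ### number of solutions of `m x = c` -/

theorem card_mul_eq [NeZero n] (m : ℕ) (hm : 0 < m) (c : ZMod n) :
    (univ.filter fun x : ZMod n => (m : ZMod n) * x = c).card ≤ m := by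
  rcases (univ.filter fun x : ZMod n => (m : ZMod n) * x = c).eq_empty_or_nonempty with h | ⟨x0, h0⟩
  · rw [h]; simp
  · have h0' := (mem_filter.1 h0).2
    calc (univ.filter fun x : ZMod n => (m : ZMod n) * x = c).card
        ≤ (univ.filter fun x : ZMod n => m • x = 0).card := by
          apply card_le_card_of_injOn (fun x => x - x0)
          · intro x hx
            have hx' := (mem_filter.1 (mem_coe.1 hx)).2
            refine mem_coe.2 (mem_filter.2 ⟨mem_univ _, ?_⟩)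
            rw [nsmul_eq_mul]
            linear_combination hx' - h0'
          · intro x _ y _ hxy
            simpa using hxy
      _ ≤ m := IsAddCyclic.card_nsmul_eq_zero_le hm

/-! ### packings -/

theorem Packable.card {Q : ℕ} {U : ℕ → ZMod n} {Js : Finset ℕ} {S : Finset (Elt n)}
    (h : Packable n Q U Js S) : S.card = Js.card * (3 * Q - 2) := by
  obtain ⟨F, hF⟩ := h
  rw [← hF.cover, card_biUnion (fun i hi j hj hij => hF.disj i hi j hj hij)]
  rw [sum_const_nat (fun j hj => (hF.fill j hj).card)]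

theorem packable_single {Q : ℕ} {U : ℕ → ZMod n} {j : ℕ} {f : ℕ → ZMod n} {S : Finset (Elt n)}
    (h : IsFill n Q U j f) (hS : foot n Q j f = S) : Packable n Q U {j} S := by
  refine ⟨fun _ => f, ?_, ?_, ?_⟩
  · intro i hi; rw [mem_singleton.1 hi]; exact h
  · intro i hi i' hi' hne
    exact absurd ((mem_singleton.1 hi).trans (mem_singleton.1 hi').symm) hne
  · rw [singleton_biUnion, hS]

/-- some block is not bad -/
theorem exists_block {Q : ℕ} (hQ : 100 ≤ Q) (hn : 100 * Q ≤ n) (BadJ : Finset ℕ)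
    (hJ : 40 * Q * BadJ.card ≤ n) : ∃ j ∈ Blocks n Q, j ∉ BadJ := by
  apply Finset.exists_mem_notMem_of_card_lt_card
  unfold Blocks J1 T1
  rw [Nat.card_Ico]
  have hQ0 : 0 < Q := by omega
  have h1 := Nat.div_add_mod ((n - 1) / 2) Q
  have h2 := Nat.mod_lt ((n - 1) / 2) hQ0
  set J := (n - 1) / 2 / Q with hJd
  set B := BadJ.card
  by_contra hcon
  have h3 : J ≤ B + 1 := by omega
  have h4 : Q * J ≤ Q * B + Q := by nlinarith
  have h5 : 40 * (Q * B) ≤ n := by nlinarith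
  omega

/-! ### choice of the time and of the value -/

/-- an odd time in the block, avoiding at most 16 residues -/
theorem exists_time {Q j : ℕ} (hQ : 100 ≤ Q) (hj : j ∈ Blocks n Q) (F : Finset (ZMod n))
    (hF : F.card ≤ 16) :
    ∃ k, j * Q + 4 ≤ k ∧ k + 4 ≤ (j + 1) * Q ∧ Odd k ∧ (k : ZMod n) ∉ F ∧ 0 < k ∧ k < n := by
  have hlt : (j + 1) * Q ≤ (n - 1) / 2 := by
    have h := (mem_Ico.1 hj).2
    unfold J1 T1 at h
    calc (j + 1) * Q ≤ ((n - 1) / 2 / Q) * Q := Nat.mul_le_mul_right _ h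
      _ ≤ (n - 1) / 2 := Nat.div_mul_le_self _ _
  have hexp : (j + 1) * Q = j * Q + Q := by ring
  obtain ⟨s, hs1, hs2, hs3⟩ : ∃ s, j * Q + 4 ≤ s ∧ s ≤ j * Q + 5 ∧ Odd s := by
    rcases Nat.even_or_odd (j * Q + 4) with h | h
    · exact ⟨j * Q + 5, by omega, le_rfl, h.add_one⟩
    · exact ⟨j * Q + 4, le_rfl, by omega, h⟩
  have hcard : ((range 17).image fun i => ((s + 2 * i : ℕ) : ZMod n)).card = 17 := by
    rw [card_image_of_injOn, card_range]
    intro a ha b hb hab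
    have ha' := mem_range.1 (mem_coe.1 ha)
    have hb' := mem_range.1 (mem_coe.1 hb)
    have h1 : (s + 2 * a) % n = (s + 2 * b) % n := (ZMod.natCast_eq_natCast_iff' _ _ _).1 hab
    rw [Nat.mod_eq_of_lt (by omega), Nat.mod_eq_of_lt (by omega)] at h1
    omega
  obtain ⟨x, hx1, hx2⟩ := Finset.exists_mem_notMem_of_card_lt_card
    (s := F) (t := (range 17).image fun i => ((s + 2 * i : ℕ) : ZMod n)) (by omega)
  obtain ⟨i, hi, rfl⟩ := mem_image.1 hx1
  have hi' := mem_range.1 hi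
  refine ⟨s + 2 * i, by omega, by omega, hs3.add_even (even_two_mul i), hx2, by omega, by omega⟩

/-- a value all of whose translates by the elements of `O` are not bad -/
theorem exists_value [NeZero n] (B : Finset (Elt n)) (O : Finset (ZMod n))
    (h : O.card * B.card < n) : ∃ f : ZMod n, ∀ o ∈ O, Sum.inl (f + o) ∉ B := by
  let X : Finset (ZMod n) := (O ×ˢ B).image fun p => Sum.elim id (fun _ => 0) p.2 - p.1
  have hX : X.card < (univ : Finset (ZMod n)).card := by
    rw [card_univ, ZMod.card]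
    calc X.card ≤ (O ×ˢ B).card := card_image_le
      _ = O.card * B.card := card_product _ _
      _ < n := h
  obtain ⟨f, -, hf⟩ := Finset.exists_mem_notMem_of_card_lt_card hX
  refine ⟨f, fun o ho hb => hf (mem_image.2 ⟨(o, Sum.inl (f + o)), mem_product.2 ⟨ho, hb⟩, ?_⟩)⟩
  simp

theorem combine3 (hPU : StPackUnion) {Q : ℕ} {U : ℕ → ZMod n} {J0 J1 J2 : Finset ℕ}
    {S0 S1 S2 : Finset (Elt n)} (d01 : Disjoint J0 J1) (d02 : Disjoint J0 J2)
    (d12 : Disjoint J1 J2) (e01 : Disjoint S0 S1) (e02 : Disjoint S0 S2) (e12 : Disjoint S1 S2)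
    (p0 : Packable n Q U J0 S0) (p1 : Packable n Q U J1 S1) (p2 : Packable n Q U J2 S2) :
    Packable n Q U (J0 ∪ J1 ∪ J2) (S0 ∪ S1 ∪ S2) :=
  hPU n Q U _ _ _ _ (disjoint_union_left.2 ⟨d02, d12⟩) (disjoint_union_left.2 ⟨e02, e12⟩)
    (hPU n Q U _ _ _ _ d01 e01 p0 p1) p2

theorem set1 {α : Type*} [DecidableEq α] (T R : Finset α) (x y z w : α) :
    T ∪ R ∪ {x, y, z, w} = T ∪ R ∪ {z} ∪ {x, y, w} := by
  ext u; simp only [mem_union, mem_insert, mem_singleton]; tauto

theorem set2 {α : Type*} [DecidableEq α] (T R : Finset α) (x y z w : α) :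
    T ∪ R ∪ {x, y, w, z} = T ∪ R ∪ {z} ∪ {x, y, w} := by
  ext u; simp only [mem_union, mem_insert, mem_singleton]; tauto

/-- the centre of an elementary class swap -/
theorem centre (hFr : StFrame) (Q : ℕ) (hQ : 100 ≤ Q) : ∃ N : ℕ, ∀ n : ℕ, N ≤ n → ∀ [NeZero n],
    ∀ (U : ℕ → ZMod n)
    (BadE : Finset (Elt n)) (BadJ : Finset ℕ), 45 * BadE.card ≤ n → 45 * Q * BadJ.card ≤ n →
    ∀ w1 e e' : ZMod n, e' = 2 * w1 + e - 1 → ClOk w1 → ClOk e → ClOk e' → cl w1 ≠ cl e →
      cl w1 ≠ cl e' → Sum.inr (cl w1) ∉ BadE → w1 + e ≠ 0 → w1 + e ≠ 2 →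
      ∃ j ∈ Blocks n Q, j ∉ BadJ ∧ ∃ (Z0 : Finset (Elt n)) (A1 A2 B1 B2 : ZMod n),
        Z0 ⊆ All n ∧ (∀ x ∈ BadE, x ∉ Z0) ∧ Sum.inr (cl e) ∉ Z0 ∧ Sum.inr (cl e') ∉ Z0 ∧
        (Sum.inl A1 ∉ BadE ∧ Sum.inl A2 ∉ BadE ∧ Sum.inl B1 ∉ BadE ∧ Sum.inl B2 ∉ BadE) ∧
        (Sum.inl A1 ∉ Z0 ∧ Sum.inl A2 ∉ Z0 ∧ Sum.inl B1 ∉ Z0 ∧ Sum.inl B2 ∉ Z0) ∧
        (A1 ≠ A2 ∧ A1 ≠ B1 ∧ A1 ≠ B2 ∧ A2 ≠ B1 ∧ A2 ≠ B2 ∧ B1 ≠ B2) ∧
        par A1 = par B1 ∧ par A2 = par B2 ∧
        Packable n Q U {j} (Z0 ∪ {Sum.inl B1, Sum.inl B2, Sum.inr (cl e)}) ∧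
        Packable n Q U {j} (Z0 ∪ {Sum.inl A1, Sum.inl A2, Sum.inr (cl e')}) := by
  obtain ⟨NF, hF⟩ := hFr Q (by omega)
  refine ⟨NF + 20000 * Q, ?_⟩
  intro n hn _ U BadE BadJ hE hJ w1 e e' he' ow oe oe' cwe cwe' hw1B hs0 hs2
  -- the block
  obtain ⟨j, hj, hjB⟩ := exists_block (n := n) hQ (by omega) BadJ (by nlinarith)
  -- the time
  obtain ⟨k, hk1, hk2, hkodd, hkF, hk0, hkn⟩ := exists_time (n := n) hQ hj
    (image₂ (fun l u => l - u) ({1 - w1, e - 1, 0, w1 + e - 1} : Finset (ZMod n))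
      ({-w1, e, 0, w1 + e - 1} : Finset (ZMod n)))
    ((card_image₂_le _ _ _).trans (Nat.mul_le_mul card_le_four card_le_four))
  -- the value
  obtain ⟨f, hfB⟩ := exists_value BadE
    ({-w1, -w1 - ((k : ZMod n) - 1), e, e - ((k : ZMod n) + 1), 0, -(k : ZMod n), w1 + e - 1,
      w1 + e - 1 - (k : ZMod n)} : Finset (ZMod n))
    (by
      have h8 : ({-w1, -w1 - ((k : ZMod n) - 1), e, e - ((k : ZMod n) + 1), 0, -(k : ZMod n),
        w1 + e - 1, w1 + e - 1 - (k : ZMod n)} : Finset (ZMod n)).card ≤ 8 := by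
        refine (card_insert_le _ _).trans ?_
        refine Nat.succ_le_succ ((card_insert_le _ _).trans ?_)
        refine Nat.succ_le_succ card_le_six
      have h9 := Nat.mul_le_mul_right BadE.card h8
      omega)
  have ul : ∀ l u : ZMod n, l ∈ ({1 - w1, e - 1, 0, w1 + e - 1} : Finset (ZMod n)) →
      u ∈ ({-w1, e, 0, w1 + e - 1} : Finset (ZMod n)) → f + u ≠ f + l - (k : ZMod n) := by
    intro l u hl hu h
    exact hkF (mem_image₂.2 ⟨l, hl, u, hu, by linear_combination (-1) * h⟩)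
  obtain ⟨a, ha⟩ : ∃ a, a = f - w1 := ⟨_, rfl⟩
  obtain ⟨b, hb⟩ : ∃ b, b = f + e := ⟨_, rfl⟩
  obtain ⟨g, hg⟩ : ∃ g, g = f + (w1 + e - 1) := ⟨_, rfl⟩
  obtain ⟨a2, ha2⟩ : ∃ a2, a2 = a - ((k : ZMod n) - 1) := ⟨_, rfl⟩
  obtain ⟨b2, hb2⟩ : ∃ b2, b2 = b - ((k : ZMod n) + 1) := ⟨_, rfl⟩
  obtain ⟨f2, hf2⟩ : ∃ f2, f2 = f - (k : ZMod n) := ⟨_, rfl⟩
  obtain ⟨g2, hg2⟩ : ∃ g2, g2 = g - (k : ZMod n) := ⟨_, rfl⟩
  have n_a_a2 : a ≠ a2 := fun h => ul (1 - w1) (-w1) (by simp) (by simp)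
    (by simp only [ha, hb, hg, ha2, hb2, hf2, hg2] at h; linear_combination h)
  have n_a_b2 : a ≠ b2 := fun h => ul (e - 1) (-w1) (by simp) (by simp)
    (by simp only [ha, hb, hg, ha2, hb2, hf2, hg2] at h; linear_combination h)
  have n_a_f2 : a ≠ f2 := fun h => ul (0) (-w1) (by simp) (by simp)
    (by simp only [ha, hb, hg, ha2, hb2, hf2, hg2] at h; linear_combination h)
  have n_a_g2 : a ≠ g2 := fun h => ul ((w1 + e - 1)) (-w1) (by simp) (by simp)
    (by simp only [ha, hb, hg, ha2, hb2, hf2, hg2] at h; linear_combination h)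
  have n_b_a2 : b ≠ a2 := fun h => ul (1 - w1) (e) (by simp) (by simp)
    (by simp only [ha, hb, hg, ha2, hb2, hf2, hg2] at h; linear_combination h)
  have n_b_b2 : b ≠ b2 := fun h => ul (e - 1) (e) (by simp) (by simp)
    (by simp only [ha, hb, hg, ha2, hb2, hf2, hg2] at h; linear_combination h)
  have n_b_f2 : b ≠ f2 := fun h => ul (0) (e) (by simp) (by simp)
    (by simp only [ha, hb, hg, ha2, hb2, hf2, hg2] at h; linear_combination h)
  have n_b_g2 : b ≠ g2 := fun h => ul ((w1 + e - 1)) (e) (by simp) (by simp)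
    (by simp only [ha, hb, hg, ha2, hb2, hf2, hg2] at h; linear_combination h)
  have n_f_a2 : f ≠ a2 := fun h => ul (1 - w1) (0) (by simp) (by simp)
    (by simp only [ha, hb, hg, ha2, hb2, hf2, hg2] at h; linear_combination h)
  have n_f_b2 : f ≠ b2 := fun h => ul (e - 1) (0) (by simp) (by simp)
    (by simp only [ha, hb, hg, ha2, hb2, hf2, hg2] at h; linear_combination h)
  have n_f_f2 : f ≠ f2 := fun h => ul (0) (0) (by simp) (by simp)
    (by simp only [ha, hb, hg, ha2, hb2, hf2, hg2] at h; linear_combination h)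
  have n_f_g2 : f ≠ g2 := fun h => ul ((w1 + e - 1)) (0) (by simp) (by simp)
    (by simp only [ha, hb, hg, ha2, hb2, hf2, hg2] at h; linear_combination h)
  have n_g_a2 : g ≠ a2 := fun h => ul (1 - w1) ((w1 + e - 1)) (by simp) (by simp)
    (by simp only [ha, hb, hg, ha2, hb2, hf2, hg2] at h; linear_combination h)
  have n_g_b2 : g ≠ b2 := fun h => ul (e - 1) ((w1 + e - 1)) (by simp) (by simp)
    (by simp only [ha, hb, hg, ha2, hb2, hf2, hg2] at h; linear_combination h)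
  have n_g_f2 : g ≠ f2 := fun h => ul (0) ((w1 + e - 1)) (by simp) (by simp)
    (by simp only [ha, hb, hg, ha2, hb2, hf2, hg2] at h; linear_combination h)
  have n_g_g2 : g ≠ g2 := fun h => ul ((w1 + e - 1)) ((w1 + e - 1)) (by simp) (by simp)
    (by simp only [ha, hb, hg, ha2, hb2, hf2, hg2] at h; linear_combination h)
  have hd0 : w1 + e - 1 ≠ 0 := fun h => cwe (cl_eq_iff.2 (Or.inr (by linear_combination h)))
  have n_a_b : a ≠ b := fun h => hs0 (by rw [ha, hb] at h; linear_combination -h)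
  have n_a_f : a ≠ f := fun h => ow.1 (by rw [ha] at h; linear_combination -h)
  have n_a_g : a ≠ g := fun h => oe'.1 (by rw [ha, hg] at h; rw [he']; linear_combination -h)
  have n_b_f : b ≠ f := fun h => oe.1 (by rw [hb] at h; linear_combination h)
  have n_b_g : b ≠ g := fun h => ow.2.1 (by rw [hb, hg] at h; linear_combination -h)
  have n_f_g : f ≠ g := fun h => hd0 (by rw [hg] at h; linear_combination -h)
  have n_a2_b2 : a2 ≠ b2 := fun h => hs2 (by rw [ha2, hb2, ha, hb] at h; linear_combination -h)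
  have n_a2_f2 : a2 ≠ f2 := fun h => ow.2.1 (by rw [ha2, hf2, ha] at h; linear_combination -h)
  have n_a2_g2 : a2 ≠ g2 := fun h => oe'.2.1
    (by rw [ha2, hg2, ha, hg] at h; rw [he']; linear_combination -h)
  have n_b2_f2 : b2 ≠ f2 := fun h => oe.2.1 (by rw [hb2, hf2, hb] at h; linear_combination h)
  have n_b2_g2 : b2 ≠ g2 := fun h => ow.1 (by rw [hb2, hg2, hb, hg] at h; linear_combination -h)
  have n_f2_g2 : f2 ≠ g2 := fun h => hd0 (by rw [hf2, hg2, hg] at h; linear_combination -h)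
  -- not bad
  have ba : Sum.inl a ∉ BadE := by
    have := hfB (-w1) (by simp); rwa [show f + -w1 = a by rw [ha]; ring] at this
  have ba2 : Sum.inl a2 ∉ BadE := by
    have := hfB (-w1 - ((k : ZMod n) - 1)) (by simp)
    rwa [show f + (-w1 - ((k : ZMod n) - 1)) = a2 by rw [ha2, ha]; ring] at this
  have bb : Sum.inl b ∉ BadE := by
    have := hfB e (by simp); rwa [show f + e = b by rw [hb]] at this
  have bb2 : Sum.inl b2 ∉ BadE := by
    have := hfB (e - ((k : ZMod n) + 1)) (by simp)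
    rwa [show f + (e - ((k : ZMod n) + 1)) = b2 by rw [hb2, hb]; ring] at this
  have bf : Sum.inl f ∉ BadE := by
    have := hfB 0 (by simp); rwa [add_zero] at this
  have bf2 : Sum.inl f2 ∉ BadE := by
    have := hfB (-(k : ZMod n)) (by simp)
    rwa [show f + -(k : ZMod n) = f2 by rw [hf2]; ring] at this
  have bg : Sum.inl g ∉ BadE := by
    have := hfB (w1 + e - 1) (by simp); rwa [show f + (w1 + e - 1) = g by rw [hg]] at this
  have bg2 : Sum.inl g2 ∉ BadE := by
    have := hfB (w1 + e - 1 - (k : ZMod n)) (by simp)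
    rwa [show f + (w1 + e - 1 - (k : ZMod n)) = g2 by rw [hg2, hg]; ring] at this
  have htri : tri n k a b = {Sum.inl a, Sum.inl a2, Sum.inl b, Sum.inl b2} := by
    rw [tri, ha2, hb2]
  have htri4 : (tri n k a b).card = 4 := by
    rw [htri, card_insert_of_notMem, card_insert_of_notMem, card_insert_of_notMem, card_singleton]
    · simpa using n_b_b2
    · simp [n_b_a2.symm, n_a2_b2]
    · simp [n_a_a2, n_a_b, n_a_b2]
  have hsf : sta n k a b f = {Sum.inl f, Sum.inl f2, Sum.inr (cl w1), Sum.inr (cl e)} := by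
    rw [sta, hf2, show f - a = w1 by rw [ha]; ring, show b - f = e by rw [hb]; ring]
  have hsg : sta n k a b g = {Sum.inl g, Sum.inl g2, Sum.inr (cl e'), Sum.inr (cl w1)} := by
    rw [sta, hg2, show g - a = e' by rw [hg, ha, he']; ring,
      show b - g = 1 - w1 by rw [hb, hg]; ring, cl_one_sub]
  set X : Finset (Elt n) := {Sum.inl f, Sum.inl f2, Sum.inl g, Sum.inl g2, Sum.inr (cl e),
    Sum.inr (cl e'), Sum.inr (cl w1)} with hX
  have hXc : X.card ≤ 7 := by
    rw [hX]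
    exact (card_insert_le _ _).trans (Nat.succ_le_succ card_le_six)
  obtain ⟨f0, R, hR1, hR2, hR3, hfill⟩ := hF n (by omega) U j k hj hk1 hk2 a b (BadE ∪ X)
    (by have := card_union_le BadE X; omega) htri4
  have hRX : ∀ x ∈ X, x ∉ R := fun x hx hR =>
    (disjoint_left.1 hR2 hR) (mem_union_right _ hx)
  have hRB : ∀ x ∈ BadE, x ∉ R := fun x hx hR =>
    (disjoint_left.1 hR2 hR) (mem_union_left _ hx)
  have rf : Sum.inl f ∉ R := hRX _ (by simp [hX])
  have rf2 : Sum.inl f2 ∉ R := hRX _ (by simp [hX])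
  have rg : Sum.inl g ∉ R := hRX _ (by simp [hX])
  have rg2 : Sum.inl g2 ∉ R := hRX _ (by simp [hX])
  have re : Sum.inr (cl e) ∉ R := hRX _ (by simp [hX])
  have re' : Sum.inr (cl e') ∉ R := hRX _ (by simp [hX])
  have rw1 : Sum.inr (cl w1) ∉ R := hRX _ (by simp [hX])
  obtain ⟨Z0, hZ0⟩ : ∃ Z0 : Finset (Elt n), Z0 = tri n k a b ∪ R ∪ {Sum.inr (cl w1)} := ⟨_, rfl⟩
  have mZ0 : ∀ x, x ∈ Z0 ↔ (x = Sum.inl a ∨ x = Sum.inl a2 ∨ x = Sum.inl b ∨ x = Sum.inl b2 ∨
      x ∈ R ∨ x = Sum.inr (cl w1)) := by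
    intro x
    rw [hZ0, htri]
    simp only [mem_union, mem_insert, mem_singleton, or_assoc]
  have zf : Sum.inl f ∉ Z0 := by
    rw [mZ0]; simp [rf, n_a_f.symm, n_f_a2, n_b_f.symm, n_f_b2]
  have zf2 : Sum.inl f2 ∉ Z0 := by
    rw [mZ0]; simp [rf2, n_a_f2.symm, n_a2_f2.symm, n_b_f2.symm, n_b2_f2.symm]
  have zg : Sum.inl g ∉ Z0 := by
    rw [mZ0]; simp [rg, n_a_g.symm, n_g_a2, n_b_g.symm, n_g_b2]
  have zg2 : Sum.inl g2 ∉ Z0 := by
    rw [mZ0]; simp [rg2, n_a_g2.symm, n_a2_g2.symm, n_b_g2.symm, n_b2_g2.symm]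
  have ze : Sum.inr (cl e) ∉ Z0 := by
    rw [mZ0]; simp [re, cwe.symm]
  have ze' : Sum.inr (cl e') ∉ Z0 := by
    rw [mZ0]; simp [re', cwe'.symm]
  have zB : ∀ x ∈ BadE, x ∉ Z0 := by
    intro x hx hz
    rw [mZ0] at hz
    rcases hz with h | h | h | h | h | h
    · exact ba (h ▸ hx)
    · exact ba2 (h ▸ hx)
    · exact bb (h ▸ hx)
    · exact bb2 (h ▸ hx)
    · exact hRB x hx h
    · exact hw1B (h ▸ hx)
  have zA : Z0 ⊆ All n := by
    intro x hz
    rw [mZ0] at hz
    rcases hz with h | h | h | h | h | h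
    · rw [h]; exact mem_All_inl _
    · rw [h]; exact mem_All_inl _
    · rw [h]; exact mem_All_inl _
    · rw [h]; exact mem_All_inl _
    · exact hR1 h
    · rw [h]; exact mem_All_inr ow
  have P0 : Packable n Q U {j} (Z0 ∪ {Sum.inl f, Sum.inl f2, Sum.inr (cl e)}) := by
    obtain ⟨h1, h2⟩ := hfill f
      (by
        rw [hsf, card_insert_of_notMem, card_insert_of_notMem, card_insert_of_notMem,
          card_singleton]
        · simpa using cwe
        · simp
        · simp [n_f_f2])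
      (by rw [show f - a = w1 by rw [ha]; ring]; exact ow)
      (by rw [show b - f = e by rw [hb]; ring]; exact oe)
      (by
        rw [hsf, htri, disjoint_left]
        intro x hx
        simp only [mem_insert, mem_singleton] at hx
        simp only [mem_union, mem_insert, mem_singleton]
        rcases hx with rfl | rfl | rfl | rfl
        · simp [rf, n_a_f.symm, n_f_a2, n_b_f.symm, n_f_b2]
        · simp [rf2, n_a_f2.symm, n_a2_f2.symm, n_b_f2.symm, n_b2_f2.symm]
        · simp [rw1]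
        · simp [re])
    refine packable_single h1 (h2.trans ?_)
    rw [hsf, hZ0, set1]
  have P0' : Packable n Q U {j} (Z0 ∪ {Sum.inl g, Sum.inl g2, Sum.inr (cl e')}) := by
    obtain ⟨h1, h2⟩ := hfill g
      (by
        rw [hsg, card_insert_of_notMem, card_insert_of_notMem, card_insert_of_notMem,
          card_singleton]
        · simpa using cwe'.symm
        · simp
        · simp [n_g_g2])
      (by rw [show g - a = e' by rw [hg, ha, he']; ring]; exact oe')
      (by rw [show b - g = 1 - w1 by rw [hb, hg]; ring]; exact clOk_one_sub ow)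
      (by
        rw [hsg, htri, disjoint_left]
        intro x hx
        simp only [mem_insert, mem_singleton] at hx
        simp only [mem_union, mem_insert, mem_singleton]
        rcases hx with rfl | rfl | rfl | rfl
        · simp [rg, n_a_g.symm, n_g_a2, n_b_g.symm, n_g_b2]
        · simp [rg2, n_a_g2.symm, n_a2_g2.symm, n_b_g2.symm, n_b2_g2.symm]
        · simp [re']
        · simp [rw1])
    refine packable_single h1 (h2.trans ?_)
    rw [hsg, hZ0, set2]
  have pg : par g = par f + par (w1 + e - 1) := by rw [hg, par_add]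
  have pf2 : par f2 = par f + par (k : ZMod n) := by rw [hf2, par_sub]
  have pg2 : par g2 = par g + par (k : ZMod n) := by rw [hg2, par_sub]
  have z2 : ∀ z : ZMod 2, z = 0 ∨ z = 1 := by decide
  rcases z2 (par (w1 + e - 1)) with hp | hp
  · refine ⟨j, hj, hjB, Z0, g, g2, f, f2, zA, zB, ze, ze', ⟨bg, bg2, bf, bf2⟩,
      ⟨zg, zg2, zf, zf2⟩, ⟨n_g_g2, n_f_g.symm, n_g_f2, n_f_g2.symm, n_f2_g2.symm, n_f_f2⟩,
      ?_, ?_, P0, P0'⟩
    · rw [pg, hp, add_zero]
    · rw [pg2, pf2, pg, hp, add_zero]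
  · have hev : Even n := by
      by_contra hc
      rw [par_odd hc] at hp
      exact absurd hp (by decide)
    have hpk := par_natOdd hev hkodd
    refine ⟨j, hj, hjB, Z0, g2, g, f, f2, zA, zB, ze, ze', ⟨bg2, bg, bf, bf2⟩,
      ⟨zg2, zg, zf, zf2⟩, ⟨n_g_g2.symm, n_f_g2.symm, n_f2_g2.symm, n_f_g.symm, n_g_f2, n_f_f2⟩,
      ?_, ?_, P0, ?_⟩
    · rw [pg2, pg, hp, hpk, add_assoc, show (1 : ZMod 2) + 1 = 0 by decide, add_zero]
    · rw [pf2, pg, hp, hpk]
    · have : ({Sum.inl g2, Sum.inl g, Sum.inr (cl e')} : Finset (Elt n)) =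
          {Sum.inl g, Sum.inl g2, Sum.inr (cl e')} := Finset.insert_comm _ _ _
      rw [this]; exact P0'

/-- the elementary class swap -/
def Elem (Q N : ℕ) : Prop :=
  ∀ n : ℕ, N ≤ n → ∀ [NeZero n], ∀ (U : ℕ → ZMod n)
    (BadE : Finset (Elt n)) (BadJ : Finset ℕ), 45 * BadE.card ≤ n → 45 * Q * BadJ.card ≤ n →
    ∀ w1 e e' : ZMod n, e' = 2 * w1 + e - 1 → ClOk w1 → ClOk e → ClOk e' → cl w1 ≠ cl e →
      cl w1 ≠ cl e' → cl e ≠ cl e' → Sum.inr (cl w1) ∉ BadE → w1 + e ≠ 0 → w1 + e ≠ 2 →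
      ∃ Js ⊆ Blocks n Q \ BadJ, Js.card ≤ 7 ∧
        ∃ Z ⊆ All n \ (BadE ∪ {Sum.inr (cl e), Sum.inr (cl e')}),
          Packable n Q U Js (insert (Sum.inr (cl e)) Z) ∧
          Packable n Q U Js (insert (Sum.inr (cl e')) Z)

theorem set3 {α : Type*} [DecidableEq α] (Z0 Z1 Z2 : Finset α) (a b c d e : α) :
    Z0 ∪ {c, d, e} ∪ insert a Z1 ∪ insert b Z2 = insert e (Z0 ∪ Z1 ∪ Z2 ∪ {a, b, c, d}) := by
  ext u; simp only [mem_union, mem_insert, mem_singleton]; tauto

theorem set4 {α : Type*} [DecidableEq α] (Z0 Z1 Z2 : Finset α) (a b c d e : α) :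
    Z0 ∪ {a, b, e} ∪ insert c Z1 ∪ insert d Z2 = insert e (Z0 ∪ Z1 ∪ Z2 ∪ {a, b, c, d}) := by
  ext u; simp only [mem_union, mem_insert, mem_singleton]; tauto

theorem elem (hPU : StPackUnion) (hFr : StFrame) (hPS : StPS) (Q : ℕ) (hQ : 100 ≤ Q) :
    ∃ N, Elem Q N := by
  obtain ⟨NC, hC⟩ := centre hFr Q hQ
  obtain ⟨NP, hP⟩ := hPS Q hQ
  refine ⟨NC + NP + 20000 * Q, ?_⟩
  intro n hn _ U BadE BadJ hE hJ w1 e e' he' ow oe oe' cwe cwe' cee' hw1B hs0 hs2
  obtain ⟨j, hj, hjB, Z0, A1, A2, B1, B2, zA, zB, ze, ze', ⟨bA1, bA2, bB1, bB2⟩,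
    ⟨zA1, zA2, zB1, zB2⟩, ⟨n12, n11, n1', n21, n2', nB⟩, p1, p2, P0, P0'⟩ :=
    hC n (by omega) U BadE BadJ hE hJ w1 e e' he' ow oe oe' cwe cwe' hw1B hs0 hs2
  have hcard0 := Packable.card P0
  rw [card_singleton, one_mul] at hcard0
  have hZ0c : Z0.card ≤ 3 * Q :=
    (card_le_card (subset_union_left (s₂ := {Sum.inl B1, Sum.inl B2, Sum.inr (cl e)}))).trans
      (hcard0.le.trans (by omega))
  -- first swap
  obtain ⟨E1, hE1⟩ : ∃ E1 : Finset (Elt n), E1 = BadE ∪ Z0 ∪ {Sum.inl A1, Sum.inl A2, Sum.inl B1,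
    Sum.inl B2, Sum.inr (cl e), Sum.inr (cl e')} := ⟨_, rfl⟩
  have hE1c : E1.card ≤ BadE.card + 3 * Q + 6 := by
    rw [hE1]
    refine (card_union_le _ _).trans ?_
    have h1 := card_union_le BadE Z0
    have h2 : ({Sum.inl A1, Sum.inl A2, Sum.inl B1, Sum.inl B2, Sum.inr (cl e),
      Sum.inr (cl e')} : Finset (Elt n)).card ≤ 6 := card_le_six
    omega
  have mE1 : ∀ x, x ∈ E1 ↔ (x ∈ BadE ∨ x ∈ Z0 ∨ x = Sum.inl A1 ∨ x = Sum.inl A2 ∨
      x = Sum.inl B1 ∨ x = Sum.inl B2 ∨ x = Sum.inr (cl e) ∨ x = Sum.inr (cl e')) := by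
    intro x; rw [hE1]; simp only [mem_union, mem_insert, mem_singleton, or_assoc]
  obtain ⟨J1, hJ1, hJ1c, Z1, hZ1, P1, P1'⟩ := hP n (by omega) U E1 (BadJ ∪ {j}) (by omega)
    (by
      have h1 := card_union_le BadJ {j}
      rw [card_singleton] at h1
      have h2 : 40 * Q * (BadJ ∪ {j}).card ≤ 40 * Q * (BadJ.card + 1) := Nat.mul_le_mul_left _ h1
      nlinarith) A1 B1 n11 p1
  have hZ1c : Z1.card ≤ 9 * Q := by
    have h := Packable.card P1
    have h1 : Z1.card ≤ (insert (Sum.inl A1) Z1).card := card_le_card (subset_insert _ _)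
    have h2 : J1.card * (3 * Q - 2) ≤ 3 * (3 * Q - 2) := Nat.mul_le_mul_right _ hJ1c
    omega
  have z1E1 : ∀ x ∈ E1, x ∉ Z1 := fun x hx hz =>
    (mem_sdiff.1 (hZ1 hz)).2 (mem_union_left _ hx)
  -- second swap
  obtain ⟨J2, hJ2, hJ2c, Z2, hZ2, P2, P2'⟩ := hP n (by omega) U (E1 ∪ Z1) (BadJ ∪ {j} ∪ J1)
    (by have := card_union_le E1 Z1; omega)
    (by
      have h0 := card_union_le (BadJ ∪ {j}) J1
      have h1 := card_union_le BadJ {j}
      rw [card_singleton] at h1
      have h2 : 40 * Q * (BadJ ∪ {j} ∪ J1).card ≤ 40 * Q * (BadJ.card + 4) :=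
        Nat.mul_le_mul_left _ (by omega)
      nlinarith) A2 B2 n2' p2
  have z2E1 : ∀ x ∈ E1, x ∉ Z2 := fun x hx hz =>
    (mem_sdiff.1 (hZ2 hz)).2 (mem_union_left _ (mem_union_left _ hx))
  have z2Z1 : ∀ x ∈ Z1, x ∉ Z2 := fun x hx hz =>
    (mem_sdiff.1 (hZ2 hz)).2 (mem_union_left _ (mem_union_right _ hx))
  have hj1 : j ∉ J1 := fun h => (mem_sdiff.1 (hJ1 h)).2 (mem_union_right _ (mem_singleton_self _))
  have hj2 : j ∉ J2 := fun h => (mem_sdiff.1 (hJ2 h)).2
    (mem_union_left _ (mem_union_right _ (mem_singleton_self _)))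
  have h12 : Disjoint J1 J2 := disjoint_left.2 fun i hi1 hi2 =>
    (mem_sdiff.1 (hJ2 hi2)).2 (mem_union_right _ hi1)
  refine ⟨{j} ∪ J1 ∪ J2, ?_, ?_, Z0 ∪ Z1 ∪ Z2 ∪ {Sum.inl A1, Sum.inl A2, Sum.inl B1, Sum.inl B2},
    ?_, ?_, ?_⟩
  · intro i hi
    rw [mem_union, mem_union, mem_singleton] at hi
    rcases hi with (h | h) | h
    · rw [h]; exact mem_sdiff.2 ⟨hj, hjB⟩
    · have := mem_sdiff.1 (hJ1 h)
      exact mem_sdiff.2 ⟨this.1, fun h' => this.2 (mem_union_left _ h')⟩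
    · have := mem_sdiff.1 (hJ2 h)
      exact mem_sdiff.2 ⟨this.1, fun h' => this.2 (mem_union_left _ (mem_union_left _ h'))⟩
  · have h1 := card_union_le ({j} ∪ J1) J2
    have h2 := card_union_le {j} J1
    rw [card_singleton] at h2
    omega
  · intro x hx
    rw [mem_sdiff]
    simp only [mem_union, mem_insert, mem_singleton] at hx
    have key : ∀ y : ZMod n, Sum.inl y ∉ BadE → (Sum.inl y ∈ All n ∧ ¬ (Sum.inl y ∈
        BadE ∪ {Sum.inr (cl e), Sum.inr (cl e')})) := by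
      intro y hy
      refine ⟨mem_All_inl _, ?_⟩
      simpa using hy
    rcases hx with ((h | h) | h) | h | h | h | h
    · refine ⟨zA h, ?_⟩
      simp only [mem_union, mem_insert, mem_singleton]
      rintro (h' | h' | h')
      · exact zB x h' h
      · exact ze (h' ▸ h)
      · exact ze' (h' ▸ h)
    · refine ⟨(mem_sdiff.1 (hZ1 h)).1, fun h' => ?_⟩
      simp only [mem_union, mem_insert, mem_singleton] at h'
      exact z1E1 x ((mE1 x).2 (by tauto)) h
    · refine ⟨(mem_sdiff.1 (hZ2 h)).1, fun h' => ?_⟩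
      simp only [mem_union, mem_insert, mem_singleton] at h'
      exact z2E1 x ((mE1 x).2 (by tauto)) h
    · rw [h]; exact key _ bA1
    · rw [h]; exact key _ bA2
    · rw [h]; exact key _ bB1
    · rw [h]; exact key _ bB2
  · rw [← set3]
    have mS : ∀ x, x ∈ Z0 ∪ {Sum.inl B1, Sum.inl B2, Sum.inr (cl e)} → x ∈ E1 := by
      intro x hx
      simp only [mem_union, mem_insert, mem_singleton] at hx
      exact (mE1 x).2 (by tauto)
    refine combine3 hPU (disjoint_singleton_left.2 hj1) (disjoint_singleton_left.2 hj2) h12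
      ?_ ?_ ?_ P0 P1 P2
    · rw [disjoint_right]
      intro x hx hx'
      rcases mem_insert.1 hx with h | h
      · rw [h] at hx'
        simp [zA1, n11, n1'] at hx'
      · exact z1E1 x (mS x hx') h
    · rw [disjoint_right]
      intro x hx hx'
      rcases mem_insert.1 hx with h | h
      · rw [h] at hx'
        simp [zA2, n21, n2'] at hx'
      · exact z2E1 x (mS x hx') h
    · rw [disjoint_right]
      intro x hx hx'
      rcases mem_insert.1 hx with h | h
      · rw [h] at hx'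
        rcases mem_insert.1 hx' with h' | h'
        · exact n12 (Sum.inl_injective h').symm
        · exact z1E1 _ ((mE1 _).2 (by simp)) h'
      · rcases mem_insert.1 hx' with h' | h'
        · rw [h'] at h
          exact z2E1 _ ((mE1 _).2 (by simp)) h
        · exact z2Z1 x h' h
  · rw [← set4]
    have mS : ∀ x, x ∈ Z0 ∪ {Sum.inl A1, Sum.inl A2, Sum.inr (cl e')} → x ∈ E1 := by
      intro x hx
      simp only [mem_union, mem_insert, mem_singleton] at hx
      exact (mE1 x).2 (by tauto)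
    refine combine3 hPU (disjoint_singleton_left.2 hj1) (disjoint_singleton_left.2 hj2) h12
      ?_ ?_ ?_ P0' P1' P2'
    · rw [disjoint_right]
      intro x hx hx'
      rcases mem_insert.1 hx with h | h
      · rw [h] at hx'
        simp [zB1, n11.symm, n21.symm] at hx'
      · exact z1E1 x (mS x hx') h
    · rw [disjoint_right]
      intro x hx hx'
      rcases mem_insert.1 hx with h | h
      · rw [h] at hx'
        simp [zB2, n1'.symm, n2'.symm] at hx'
      · exact z2E1 x (mS x hx') h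
    · rw [disjoint_right]
      intro x hx hx'
      rcases mem_insert.1 hx with h | h
      · rw [h] at hx'
        rcases mem_insert.1 hx' with h' | h'
        · exact nB (Sum.inl_injective h').symm
        · exact z1E1 _ ((mE1 _).2 (by simp)) h'
      · rcases mem_insert.1 hx' with h' | h'
        · rw [h'] at h
          exact z2E1 _ ((mE1 _).2 (by simp)) h
        · exact z2Z1 x h' h

/-- at most two values in a class -/
theorem card_cl_le [NeZero n] (y : Elt n) :
    (univ.filter fun x : ZMod n => Sum.inr (cl x) = y).card ≤ 2 := by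
  rcases (univ.filter fun x : ZMod n => Sum.inr (cl x) = y).eq_empty_or_nonempty with h | ⟨x0, h0⟩
  · rw [h]; simp
  · have h0' := (mem_filter.1 h0).2
    have : (univ.filter fun x : ZMod n => Sum.inr (cl x) = y) ⊆ {x0, 1 - x0} := by
      intro x hx
      have hx' := (mem_filter.1 hx).2
      rw [← h0'] at hx'
      have h1 := cl_eq_iff.1 (Sum.inr_injective hx')
      simpa using h1
    exact (card_le_card this).trans card_le_two

/-- avoidance of finitely many linear equations and of bad classes -/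
theorem exists_avoid [NeZero n] (L : List (Fin 4 × ZMod n)) (B : Finset (Elt n))
    (c1 c2 : ZMod n) (h : 4 * L.length + 8 * B.card < n) :
    ∃ x : ZMod n, (∀ p ∈ L, ((p.1.val + 1 : ℕ) : ZMod n) * x ≠ p.2) ∧
      Sum.inr (cl x) ∉ B ∧ Sum.inr (cl (2 * x + c1)) ∉ B ∧ Sum.inr (cl (c2 - x)) ∉ B := by
  classical
  let X1 : Finset (ZMod n) := L.toFinset.biUnion fun p =>
    univ.filter fun x : ZMod n => ((p.1.val + 1 : ℕ) : ZMod n) * x = p.2
  let X2 : Finset (ZMod n) := B.biUnion fun y => univ.filter fun x : ZMod n => Sum.inr (cl x) = y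
  let X3 : Finset (ZMod n) := B.biUnion fun y =>
    univ.filter fun x : ZMod n => Sum.inr (cl (2 * x + c1)) = y
  let X4 : Finset (ZMod n) := B.biUnion fun y =>
    univ.filter fun x : ZMod n => Sum.inr (cl (c2 - x)) = y
  have h1 : X1.card ≤ L.length * 4 := by
    refine (card_biUnion_le_card_mul _ _ 4 ?_).trans (Nat.mul_le_mul_right _
      (List.toFinset_card_le _))
    intro p _
    exact (card_mul_eq _ (Nat.succ_pos _) _).trans (by omega)
  have h2 : X2.card ≤ B.card * 2 := card_biUnion_le_card_mul _ _ 2 fun y _ => card_cl_le y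
  have h3 : X3.card ≤ B.card * 4 := by
    refine card_biUnion_le_card_mul _ _ 4 fun y _ => ?_
    -- preimages of at most two values
    have hsub : (univ.filter fun x : ZMod n => Sum.inr (cl (2 * x + c1)) = y) ⊆
        (univ.filter fun z : ZMod n => Sum.inr (cl z) = y).biUnion fun z =>
          univ.filter fun x : ZMod n => ((2 : ℕ) : ZMod n) * x = z - c1 := by
      intro x hx
      have hx' := (mem_filter.1 hx).2
      refine mem_biUnion.2 ⟨2 * x + c1, mem_filter.2 ⟨mem_univ _, hx'⟩, mem_filter.2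
        ⟨mem_univ _, ?_⟩⟩
      push_cast; ring
    refine (card_le_card hsub).trans ((card_biUnion_le_card_mul _ _ 2 fun z _ =>
      card_mul_eq 2 (by norm_num) _).trans ?_)
    have := card_cl_le (n := n) y
    omega
  have h4 : X4.card ≤ B.card * 2 := by
    refine card_biUnion_le_card_mul _ _ 2 fun y _ => ?_
    refine le_trans ?_ (card_cl_le y)
    refine card_le_card_of_injOn (fun x => c2 - x) ?_ ?_
    · intro x hx
      have hx' := (mem_filter.1 (mem_coe.1 hx)).2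
      exact mem_coe.2 (mem_filter.2 ⟨mem_univ _, hx'⟩)
    · intro x _ x' _ hxx
      exact sub_right_injective hxx
  have hX : (X1 ∪ X2 ∪ X3 ∪ X4).card < (univ : Finset (ZMod n)).card := by
    rw [card_univ, ZMod.card]
    have a1 := card_union_le X1 X2
    have a2 := card_union_le (X1 ∪ X2) X3
    have a3 := card_union_le (X1 ∪ X2 ∪ X3) X4
    omega
  obtain ⟨x, -, hx⟩ := Finset.exists_mem_notMem_of_card_lt_card hX
  simp only [mem_union, not_or] at hx
  obtain ⟨⟨⟨g1, g2⟩, g3⟩, g4⟩ := hx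
  refine ⟨x, fun p hp he => g1 (mem_biUnion.2 ⟨p, List.mem_toFinset.2 hp, mem_filter.2
    ⟨mem_univ _, he⟩⟩), fun hb => g2 (mem_biUnion.2 ⟨_, hb, mem_filter.2 ⟨mem_univ _, rfl⟩⟩),
    fun hb => g3 (mem_biUnion.2 ⟨_, hb, mem_filter.2 ⟨mem_univ _, rfl⟩⟩),
    fun hb => g4 (mem_biUnion.2 ⟨_, hb, mem_filter.2 ⟨mem_univ _, rfl⟩⟩)⟩

theorem exists_rep [NeZero n] (w w' : ZMod n) (ow' : ClOk w') :
    ∃ e2 : ZMod n, cl e2 = cl w' ∧ ClOk e2 ∧ par (e2 - w) = 0 := by
  have z2 : ∀ z y : ZMod 2, z ≠ y → 1 + z + y = 0 := by decide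
  have z3 : ∀ y : ZMod 2, y + y = 0 := by decide
  by_cases h : par w' = par w
  · exact ⟨w', rfl, ow', by rw [par_sub, h, z3]⟩
  · have hev : Even n := by
      by_contra hc
      exact h (by rw [par_odd hc, par_odd hc])
    refine ⟨1 - w', cl_one_sub _, clOk_one_sub ow', ?_⟩
    rw [par_sub, par_sub, par_one hev]
    exact z2 _ _ h

theorem set5 {α : Type*} [DecidableEq α] (Z1 Z2 : Finset α) (a b : α) :
    insert a Z1 ∪ insert b Z2 = insert a (Z1 ∪ Z2 ∪ {b}) := by
  ext u; simp only [mem_union, mem_insert, mem_singleton]; tauto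

theorem set6 {α : Type*} [DecidableEq α] (Z1 Z2 : Finset α) (a b : α) :
    insert b Z1 ∪ insert a Z2 = insert a (Z1 ∪ Z2 ∪ {b}) := by
  ext u; simp only [mem_union, mem_insert, mem_singleton]; tauto

/-- all conditions on the free difference -/
theorem choice [NeZero n] (B : Finset (Elt n)) (hB : 200 + 8 * B.card < n) (w h : ZMod n) :
    ∃ x g w2 : ZMod n, g = 2 * x + w - 1 ∧ w + h + h = 2 * w2 + g - 1 ∧
      (ClOk x ∧ ClOk g ∧ ClOk w2) ∧
      (cl x ≠ cl w ∧ cl x ≠ cl g ∧ cl w ≠ cl g ∧ cl x ≠ cl (w + h + h)) ∧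
      (cl w2 ≠ cl g ∧ cl w2 ≠ cl (w + h + h) ∧ cl g ≠ cl (w + h + h) ∧ cl w2 ≠ cl w ∧
        (h ≠ 0 → cl w2 ≠ cl x)) ∧
      (x + w ≠ 0 ∧ x + w ≠ 2 ∧ w2 + g ≠ 0 ∧ w2 + g ≠ 2) ∧
      (Sum.inr (cl x) ∉ B ∧ Sum.inr (cl g) ∉ B ∧ Sum.inr (cl w2) ∉ B) := by
  obtain ⟨x, hx, b1, b2, b3⟩ := exists_avoid
    [(0, 0), (0, 1), (1, 1), (0, w), (0, 1 - w), (1, 1 - w), (1, 2 - w), (3, 3 - 2 * w),
     (2, 2 - w), (1, 2 - 2 * w), (0, -w), (0, 2 - w), (0, h + 1), (0, h), (1, 2 * h + 1),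
     (2, h + 2 - w), (0, 1 - w - h), (0, h + 1 - (w + h + h)), (0, h + (w + h + h)),
     (1, (w + h + h) + 1 - w), (1, 2 - w - (w + h + h)), (0, h + 1 - w), (0, h + w), (1, h + 1),
     (0, -h - w), (0, 2 - h - w), (0, w + h + h), (0, 1 - (w + h + h))]
    B (w - 1) (h + 1) (by simp only [List.length_cons, List.length_nil]; omega)
  simp only [List.forall_mem_cons, List.not_mem_nil, false_imp_iff, implies_true, and_true,
    Fin.val_zero, Fin.val_one, Fin.val_two, show ((3 : Fin 4).val) = 3 from rfl] at hx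
  push_cast at hx
  obtain ⟨q1, q2, q3, q4, q5, q6, q7, q8, q9, q10, q11, q12, q13, q14, q15, q16, q17, q18, q19,
    q20, q21, q22, q23, q24, q25, q26, q27, q28⟩ := hx
  rw [show 2 * x + (w - 1) = 2 * x + w - 1 by ring] at b2
  refine ⟨x, 2 * x + w - 1, h + 1 - x, rfl, by ring, ⟨⟨?_, ?_, ?_⟩, ⟨?_, ?_, ?_⟩, ?_, ?_, ?_⟩,
    ⟨?_, ?_, ?_, ?_⟩, ⟨?_, ?_, ?_, ?_, ?_⟩, ⟨?_, ?_, ?_, ?_⟩, b1, b2, b3⟩
  · exact fun H => q1 (by linear_combination H)
  · exact fun H => q2 (by linear_combination H)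
  · exact fun H => q3 (by linear_combination H)
  · exact fun H => q6 (by linear_combination H)
  · exact fun H => q7 (by linear_combination H)
  · exact fun H => q8 (by linear_combination H)
  · exact fun H => q13 (by linear_combination -H)
  · exact fun H => q14 (by linear_combination -H)
  · exact fun H => q15 (by linear_combination -H)
  · rw [Ne, cl_eq_iff]; rintro (H | H)
    · exact q4 (by linear_combination H)
    · exact q5 (by linear_combination H)
  · rw [Ne, cl_eq_iff]; rintro (H | H)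
    · exact q5 (by linear_combination -H)
    · exact q9 (by linear_combination H)
  · rw [Ne, cl_eq_iff]; rintro (H | H)
    · exact q3 (by linear_combination -H)
    · exact q10 (by linear_combination H)
  · rw [Ne, cl_eq_iff]; rintro (H | H)
    · exact q27 (by linear_combination H)
    · exact q28 (by linear_combination H)
  · rw [Ne, cl_eq_iff]; rintro (H | H)
    · exact q16 (by linear_combination -H)
    · exact q17 (by linear_combination H)
  · rw [Ne, cl_eq_iff]; rintro (H | H)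
    · exact q18 (by linear_combination -H)
    · exact q19 (by linear_combination -H)
  · rw [Ne, cl_eq_iff]; rintro (H | H)
    · exact q20 (by linear_combination H)
    · exact q21 (by linear_combination H)
  · rw [Ne, cl_eq_iff]; rintro (H | H)
    · exact q22 (by linear_combination -H)
    · exact q23 (by linear_combination -H)
  · intro h0
    rw [Ne, cl_eq_iff]; rintro (H | H)
    · exact q24 (by linear_combination -H)
    · exact h0 (by linear_combination H)
  · exact fun H => q11 (by linear_combination H)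
  · exact fun H => q12 (by linear_combination H)
  · exact fun H => q25 (by linear_combination H)
  · exact fun H => q26 (by linear_combination H)

end CSAux

open CSAux in
theorem stCS (hPU : StPackUnion) (hFr : StFrame) (hPS : StPS) : StCS := by
  intro Q hQ
  obtain ⟨NE, hEl⟩ := elem hPU hFr hPS Q hQ
  refine ⟨NE + 20000 * Q, ?_⟩
  intro n hn _ U BadE BadJ hE hJ w w' ow ow' hne
  obtain ⟨e2, ce2, oe2, pe2⟩ := exists_rep w w' ow'
  obtain ⟨h, hh⟩ := half _ pe2
  have hh' : e2 = w + h + h := by linear_combination hh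
  have h0 : h ≠ 0 := by
    rintro rfl
    apply hne
    rw [← ce2, hh', add_zero, add_zero]
  obtain ⟨x, g, w2, hg, hw2, ⟨ox, og, ow2⟩, ⟨c1, c2, c3, c4⟩, ⟨d1, d2, d3, d4, d5⟩,
    ⟨s1, s2, s3, s4⟩, b1, b2, b3⟩ := choice BadE (by omega) w h
  rw [← hh'] at hw2 c4 d2 d3
  have d5' := d5 h0
  rw [ce2] at c4 d2 d3
  -- first elementary swap
  obtain ⟨E1, hE1⟩ : ∃ E1 : Finset (Elt n), E1 = BadE ∪ {Sum.inr (cl w2), Sum.inr (cl w')} :=
    ⟨_, rfl⟩
  have hE1c : E1.card ≤ BadE.card + 2 := by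
    rw [hE1]
    exact (card_union_le _ _).trans (Nat.add_le_add_left card_le_two _)
  obtain ⟨J1, hJ1, hJ1c, Z1, hZ1, P1, P1'⟩ := hEl n (by omega) U E1 BadJ (by omega)
    (by nlinarith) x w g hg ox ow og c1 c2 c3
    (by
      rw [hE1]
      simp only [mem_union, mem_insert, mem_singleton, Sum.inr.injEq, not_or]
      exact ⟨b1, fun H => d5' H.symm, c4⟩) s1 s2
  have hZ1c : Z1.card ≤ 21 * Q := by
    have h := Packable.card P1
    have h1 : Z1.card ≤ (insert (Sum.inr (cl w)) Z1).card := card_le_card (subset_insert _ _)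
    have h2 : J1.card * (3 * Q - 2) ≤ 7 * (3 * Q - 2) := Nat.mul_le_mul_right _ hJ1c
    omega
  have z1 : ∀ y ∈ Z1, y ∈ All n ∧ y ∉ BadE ∧ y ≠ Sum.inr (cl w2) ∧ y ≠ Sum.inr (cl w') ∧
      y ≠ Sum.inr (cl w) ∧ y ≠ Sum.inr (cl g) := by
    intro y hy
    obtain ⟨hA, hB⟩ := mem_sdiff.1 (hZ1 hy)
    rw [hE1] at hB
    simp only [mem_union, mem_insert, mem_singleton, not_or] at hB
    exact ⟨hA, hB.1.1, hB.1.2.1, hB.1.2.2, hB.2.1, hB.2.2⟩
  -- second elementary swap
  obtain ⟨J2, hJ2, hJ2c, Z2, hZ2, P2, P2'⟩ := hEl n (by omega) U (BadE ∪ Z1 ∪ {Sum.inr (cl w)})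
    (BadJ ∪ J1)
    (by
      have h1 := card_union_le (BadE ∪ Z1) {Sum.inr (cl w)}
      have h2 := card_union_le BadE Z1
      rw [card_singleton] at h1
      omega)
    (by
      have h1 := card_union_le BadJ J1
      have h2 : 45 * Q * (BadJ ∪ J1).card ≤ 45 * Q * (BadJ.card + 7) :=
        Nat.mul_le_mul_left _ (by omega)
      nlinarith) w2 g e2 hw2 ow2 og oe2 d1 (by rw [ce2]; exact d2) (by rw [ce2]; exact d3)
    (by
      simp only [mem_union, mem_singleton, Sum.inr.injEq, not_or]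
      exact ⟨⟨b3, fun H => (z1 _ H).2.2.1 rfl⟩, d4⟩) s3 s4
  rw [ce2] at hZ2 P2'
  have z2 : ∀ y ∈ Z2, y ∈ All n ∧ y ∉ BadE ∧ y ∉ Z1 ∧ y ≠ Sum.inr (cl w) ∧
      y ≠ Sum.inr (cl g) ∧ y ≠ Sum.inr (cl w') := by
    intro y hy
    obtain ⟨hA, hB⟩ := mem_sdiff.1 (hZ2 hy)
    simp only [mem_union, mem_insert, mem_singleton, not_or] at hB
    exact ⟨hA, hB.1.1.1, hB.1.1.2, hB.1.2, hB.2.1, hB.2.2⟩
  have h12 : Disjoint J1 J2 := disjoint_left.2 fun i hi1 hi2 =>
    (mem_sdiff.1 (hJ2 hi2)).2 (mem_union_right _ hi1)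
  refine ⟨J1 ∪ J2, ?_, ?_, Z1 ∪ Z2 ∪ {Sum.inr (cl g)}, ?_, ?_, ?_⟩
  · intro i hi
    rcases mem_union.1 hi with h | h
    · exact hJ1 h
    · have := mem_sdiff.1 (hJ2 h)
      exact mem_sdiff.2 ⟨this.1, fun h' => this.2 (mem_union_left _ h')⟩
  · exact (card_union_le _ _).trans (by omega)
  · intro y hy
    rw [mem_sdiff]
    simp only [mem_union, mem_insert, mem_singleton, not_or] at hy ⊢
    rcases hy with (h | h) | h
    · obtain ⟨k1, k2, k3, k4, k5, k6⟩ := z1 y h
      exact ⟨k1, k2, k5, k4⟩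
    · obtain ⟨k1, k2, k3, k4, k5, k6⟩ := z2 y h
      exact ⟨k1, k2, k4, k6⟩
    · rw [h]
      exact ⟨mem_All_inr og, b2, fun H => c3 (Sum.inr_injective H).symm,
        fun H => d3 (Sum.inr_injective H)⟩
  · rw [← set5]
    refine hPU n Q U _ _ _ _ h12 ?_ P1 P2
    rw [disjoint_left]
    intro y hy hy'
    rcases mem_insert.1 hy with h | h <;> rcases mem_insert.1 hy' with h' | h'
    · exact c3 (Sum.inr_injective (h.symm.trans h'))
    · exact (z2 y h').2.2.2.1 h
    · exact (z1 y h).2.2.2.2.2 h'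
    · exact (z2 y h').2.2.1 h
  · rw [← set6]
    refine hPU n Q U _ _ _ _ h12 ?_ P1' P2'
    rw [disjoint_left]
    intro y hy hy'
    rcases mem_insert.1 hy with h | h <;> rcases mem_insert.1 hy' with h' | h'
    · exact d3 (Sum.inr_injective (h.symm.trans h'))
    · exact (z2 y h').2.2.2.2.1 h
    · exact (z1 y h).2.2.2.1 h'
    · exact (z2 y h').2.2.1 h

end Pool.Agent.DNA
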