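import Pool.Agent.Lib.MP_845d9b_co.Abs.FpmStmts

/-!
# Module F3b (helper93): expectations of `Sb` on events, from the update formula
-/

set_option autoImplicit false

namespace Pool.Agent.DNA

open Finset

namespace Cond

variable {n : ℕ} [NeZero n] {Q : ℕ} {U : ℕ → ZMod n} {E' : Finset (Elt n)} {j : ℕ}

theorem pa_nonneg (k : ℕ) (x : ZMod n) : 0 ≤ pa Q U E' k x := by
  unfold pa
  split_ifs
  · exact zero_le_one
  · exact le_refl _
  · positivity
  · exact le_refl _

theorem pr_nonneg (m : Fin (Q - 1) → ZMod n) : 0 ≤ pr Q U E' j m :=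
  Finset.prod_nonneg fun _ _ => pa_nonneg _ _

theorem pr_sum (hs : ∀ k ∈ Ioo (j * Q) ((j + 1) * Q), (∑ x, pa Q U E' k x) = 1) :
    ∑ m, pr Q U E' j m = 1 := by
  unfold pr
  have h := Finset.prod_univ_sum (fun _ : Fin (Q - 1) => (univ : Finset (ZMod n)))
    (fun i x => pa Q U E' (j * Q + 1 + (i : ℕ)) x)
  rw [Fintype.piFinset_univ] at h
  rw [← h]
  refine Finset.prod_eq_one fun i _ => hs _ ?_
  rw [Finset.mem_Ioo, Nat.add_one_mul]
  have := i.2
  omega

theorem Ex_add (F G : (ℕ → ZMod n) → ℝ) :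
    Ex Q U E' j (fun f => F f + G f) = Ex Q U E' j F + Ex Q U E' j G := by
  unfold Ex
  rw [← Finset.sum_add_distrib]
  exact Finset.sum_congr rfl fun m _ => by ring

theorem Ex_sub (F G : (ℕ → ZMod n) → ℝ) :
    Ex Q U E' j (fun f => F f - G f) = Ex Q U E' j F - Ex Q U E' j G := by
  unfold Ex
  rw [← Finset.sum_sub_distrib]
  exact Finset.sum_congr rfl fun m _ => by ring

theorem Ex_mul (c : ℝ) (F : (ℕ → ZMod n) → ℝ) :
    Ex Q U E' j (fun f => c * F f) = c * Ex Q U E' j F := by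
  unfold Ex
  rw [Finset.mul_sum]
  exact Finset.sum_congr rfl fun m _ => by ring

theorem Ex_sum {ι : Type*} (s : Finset ι) (F : ι → (ℕ → ZMod n) → ℝ) :
    Ex Q U E' j (fun f => ∑ i ∈ s, F i f) = ∑ i ∈ s, Ex Q U E' j (F i) := by
  unfold Ex
  rw [Finset.sum_comm]
  exact Finset.sum_congr rfl fun m _ => by rw [Finset.mul_sum]

theorem Ex_const (hs : ∀ k ∈ Ioo (j * Q) ((j + 1) * Q), (∑ x, pa Q U E' k x) = 1) (c : ℝ) :
    Ex Q U E' j (fun _ => c) = c := by
  unfold Ex
  rw [← Finset.sum_mul, pr_sum hs, one_mul]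

theorem Ex_abs_le (hs : ∀ k ∈ Ioo (j * Q) ((j + 1) * Q), (∑ x, pa Q U E' k x) = 1)
    (F : (ℕ → ZMod n) → ℝ) (c : ℝ) (hF : ∀ f, |F f| ≤ c) : |Ex Q U E' j F| ≤ c := by
  unfold Ex
  calc |∑ m, pr Q U E' j m * F (ext n Q U j m)|
      ≤ ∑ m, |pr Q U E' j m * F (ext n Q U j m)| := Finset.abs_sum_le_sum_abs _ _
    _ ≤ ∑ m, pr Q U E' j m * c := by
        refine Finset.sum_le_sum fun m _ => ?_
        rw [abs_mul, abs_of_nonneg (pr_nonneg m)]
        exact mul_le_mul_of_nonneg_left (hF _) (pr_nonneg m)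
    _ = c := by rw [← Finset.sum_mul, pr_sum hs, one_mul]

/-- conditioning on the value at time `k` -/
theorem Ex_cond (h : StK1) (hs : ∀ k ∈ Ioo (j * Q) ((j + 1) * Q), (∑ x, pa Q U E' k x) = 1)
    (k : ℕ) (hk : k ∈ Ioo (j * Q) ((j + 1) * Q)) (F : (ℕ → ZMod n) → ℝ) :
    Ex Q U E' j F = ∑ x, pa Q U E' k x * Ex Q U E' j (fun f => F (Function.update f k x)) := by
  have h1 : Ex Q U E' j F = Ex Q U E' j (fun f => ∑ x, if f k = x then F f else 0) := by
    congr 1
    funext f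
    rw [Finset.sum_ite_eq, if_pos (Finset.mem_univ _)]
  rw [h1, Ex_sum]
  exact Finset.sum_congr rfl fun x _ => h n Q U E' j k hk (hs k hk) F x

theorem cond_le (h : StK1) (hs : ∀ k ∈ Ioo (j * Q) ((j + 1) * Q), (∑ x, pa Q U E' k x) = 1)
    (k : ℕ) (hk : k ∈ Ioo (j * Q) ((j + 1) * Q)) (F : (ℕ → ZMod n) → ℝ) (c : ℝ)
    (hF : ∀ f, |∑ x, pa Q U E' k x * F (Function.update f k x)| ≤ c) :
    |Ex Q U E' j F| ≤ c := by
  have h1 : Ex Q U E' j F =
      Ex Q U E' j (fun f => ∑ x, pa Q U E' k x * F (Function.update f k x)) := by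
    rw [Ex_cond h hs k hk F, Ex_sum]
    exact Finset.sum_congr rfl fun x _ => (Ex_mul _ _).symm
  rw [h1]
  exact Ex_abs_le hs _ _ hF

omit [NeZero n] in
theorem cl_symm (w : ZMod n) : cl (1 - w) = cl w := by
  unfold cl
  rw [sub_sub_cancel]
  exact Sym2.eq_swap

section bounds

variable {β : Elt n → ℝ} {ε b : ℝ}

theorem e_hh (h : StK1) (hs : ∀ k ∈ Ioo (j * Q) ((j + 1) * Q), (∑ x, pa Q U E' k x) = 1)
    (h1 : ∀ k ∈ Ioo (j * Q) ((j + 1) * Q), |∑ x, pa Q U E' k x * hh β k x| ≤ ε)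
    (k : ℕ) (hk : k ∈ Ioo (j * Q) ((j + 1) * Q)) :
    |Ex Q U E' j (fun f => hh β k (f k))| ≤ ε := by
  refine cond_le h hs k hk _ _ fun f => ?_
  simp only [Function.update_self]
  exact h1 k hk

theorem flip (h2 : ∀ k ∈ Ioo (j * Q) ((j + 1) * Q), ∀ z : ZMod n,
      |∑ x, pa Q U E' k x * β (Sum.inr (cl (x - z)))| ≤ ε)
    (k : ℕ) (hk : k ∈ Ioo (j * Q) ((j + 1) * Q)) (v : ZMod n) :
    |∑ x, pa Q U E' k x * β (Sum.inr (cl (v - x)))| ≤ ε := by
  have h3 := h2 k hk (v - 1)
  have h4 : ∀ x : ZMod n, cl (x - (v - 1)) = cl (v - x) := by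
    intro x
    rw [← cl_symm (v - x)]
    congr 1
    ring
  simp only [h4] at h3
  exact h3

/-- condition on the right end -/
theorem e_gl (h : StK1) (hs : ∀ k ∈ Ioo (j * Q) ((j + 1) * Q), (∑ x, pa Q U E' k x) = 1)
    (h2 : ∀ k ∈ Ioo (j * Q) ((j + 1) * Q), ∀ z : ZMod n,
      |∑ x, pa Q U E' k x * β (Sum.inr (cl (x - z)))| ≤ ε)
    (p : ℕ) (hp : p + 1 ∈ Ioo (j * Q) ((j + 1) * Q)) :
    |Ex Q U E' j (fun f => β (Sum.inr (cl (f (p + 1) - f p))))| ≤ ε := by
  refine cond_le h hs (p + 1) hp _ _ fun f => ?_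
  have h3 : ∀ x : ZMod n, Function.update f (p + 1) x p = f p := fun x =>
    Function.update_of_ne (Nat.succ_ne_self p).symm x f
  simp only [Function.update_self, h3]
  exact h2 (p + 1) hp _

/-- condition on the left end -/
theorem e_gr (h : StK1) (hs : ∀ k ∈ Ioo (j * Q) ((j + 1) * Q), (∑ x, pa Q U E' k x) = 1)
    (h2 : ∀ k ∈ Ioo (j * Q) ((j + 1) * Q), ∀ z : ZMod n,
      |∑ x, pa Q U E' k x * β (Sum.inr (cl (x - z)))| ≤ ε)
    (p : ℕ) (hp : p ∈ Ioo (j * Q) ((j + 1) * Q)) :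
    |Ex Q U E' j (fun f => β (Sum.inr (cl (f (p + 1) - f p))))| ≤ ε := by
  refine cond_le h hs p hp _ _ fun f => ?_
  have h3 : ∀ x : ZMod n, Function.update f p x (p + 1) = f (p + 1) := fun x =>
    Function.update_of_ne (Nat.succ_ne_self p) x f
  simp only [Function.update_self, h3]
  exact flip h2 p hp _

theorem e_xl (h : StK1) (hs : ∀ k ∈ Ioo (j * Q) ((j + 1) * Q), (∑ x, pa Q U E' k x) = 1)
    (h2 : ∀ k ∈ Ioo (j * Q) ((j + 1) * Q), ∀ z : ZMod n,
      |∑ x, pa Q U E' k x * β (Sum.inr (cl (x - z)))| ≤ ε)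
    (p : ℕ) (hp : p ∈ Ioo (j * Q) ((j + 1) * Q)) (x : ZMod n) :
    |Ex Q U E' j (fun f => β (Sum.inr (cl (x - f p))))| ≤ ε := by
  refine cond_le h hs p hp _ _ fun f => ?_
  simp only [Function.update_self]
  exact flip h2 p hp _

theorem e_xr (h : StK1) (hs : ∀ k ∈ Ioo (j * Q) ((j + 1) * Q), (∑ x, pa Q U E' k x) = 1)
    (h2 : ∀ k ∈ Ioo (j * Q) ((j + 1) * Q), ∀ z : ZMod n,
      |∑ x, pa Q U E' k x * β (Sum.inr (cl (x - z)))| ≤ ε)
    (p : ℕ) (hp : p ∈ Ioo (j * Q) ((j + 1) * Q)) (x : ZMod n) :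
    |Ex Q U E' j (fun f => β (Sum.inr (cl (f p - x))))| ≤ ε := by
  refine cond_le h hs p hp _ _ fun f => ?_
  simp only [Function.update_self]
  exact h2 p hp _

theorem e_b (hs : ∀ k ∈ Ioo (j * Q) ((j + 1) * Q), (∑ x, pa Q U E' k x) = 1)
    (hb : ∀ y, |β y| ≤ b) (g : (ℕ → ZMod n) → Elt n) :
    |Ex Q U E' j (fun f => β (g f))| ≤ b :=
  Ex_abs_le hs _ _ fun _ => hb _

end bounds

omit [NeZero n] in
/-- change of `Sb` when the value at `p + 1` is changed -/
theorem Sb_upd1 (βJ : ℕ → ℝ) (β : Elt n → ℝ) (p : ℕ) (hp : p + 1 ∈ Ioo (j * Q) ((j + 1) * Q))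
    (f : ℕ → ZMod n) (x : ZMod n) :
    Sb Q βJ β j (Function.update f (p + 1) x) =
      βJ j + Sb Q (fun _ => 0) β j f + hh β (p + 1) x - hh β (p + 1) (f (p + 1))
      + β (Sum.inr (cl (x - f p))) - β (Sum.inr (cl (f (p + 1) - f p)))
      + β (Sum.inr (cl (f (p + 2) - x))) - β (Sum.inr (cl (f (p + 2) - f (p + 1)))) := by
  have hp' := hp
  rw [Finset.mem_Ioo] at hp'
  have hA : ∑ k ∈ Ioo (j * Q) ((j + 1) * Q), (hh β k (Function.update f (p + 1) x k) -
      hh β k (f k)) = hh β (p + 1) x - hh β (p + 1) (f (p + 1)) := by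
    rw [Finset.sum_eq_single (p + 1)]
    · rw [Function.update_self]
    · intro k _ hk
      rw [Function.update_of_ne hk, sub_self]
    · intro h0
      exact absurd hp h0
  have hB : ∑ k ∈ Ico (j * Q) ((j + 1) * Q),
      (β (Sum.inr (cl (Function.update f (p + 1) x (k + 1) - Function.update f (p + 1) x k))) -
        β (Sum.inr (cl (f (k + 1) - f k)))) =
      (β (Sum.inr (cl (x - f p))) - β (Sum.inr (cl (f (p + 1) - f p)))) +
      (β (Sum.inr (cl (f (p + 2) - x))) - β (Sum.inr (cl (f (p + 2) - f (p + 1))))) := by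
    have hsub : ({p, p + 1} : Finset ℕ) ⊆ Ico (j * Q) ((j + 1) * Q) := by
      intro k hk
      rw [Finset.mem_insert, Finset.mem_singleton] at hk
      rw [Finset.mem_Ico]
      omega
    rw [← Finset.sum_subset hsub, Finset.sum_pair (Nat.succ_ne_self p).symm]
    · rw [Function.update_self, Function.update_of_ne (Nat.succ_ne_self p).symm,
        Function.update_of_ne (show p + 1 + 1 ≠ p + 1 by omega)]
    · intro k _ hk
      rw [Finset.mem_insert, Finset.mem_singleton] at hk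
      rw [Function.update_of_ne (show k + 1 ≠ p + 1 by omega),
        Function.update_of_ne (show k ≠ p + 1 by omega), sub_self]
  rw [Finset.sum_sub_distrib] at hA hB
  unfold Sb
  linarith

omit [NeZero n] in
/-- change of `Sb` when the values at `p + 1` and `p + 2` are changed -/
theorem Sb_upd2 (βJ : ℕ → ℝ) (β : Elt n → ℝ) (p : ℕ) (hp : j * Q < p + 1)
    (hp2 : p + 2 < (j + 1) * Q) (f : ℕ → ZMod n) (x y : ZMod n) :
    Sb Q βJ β j (Function.update (Function.update f (p + 2) y) (p + 1) x) =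
      βJ j + Sb Q (fun _ => 0) β j f + (hh β (p + 1) x - hh β (p + 1) (f (p + 1)))
      + (hh β (p + 2) y - hh β (p + 2) (f (p + 2)))
      + (β (Sum.inr (cl (x - f p))) - β (Sum.inr (cl (f (p + 1) - f p))))
      + (β (Sum.inr (cl (y - x))) - β (Sum.inr (cl (f (p + 2) - f (p + 1)))))
      + (β (Sum.inr (cl (f (p + 3) - y))) - β (Sum.inr (cl (f (p + 3) - f (p + 2))))) := by
  have m1 : p + 1 ∈ Ioo (j * Q) ((j + 1) * Q) := by rw [Finset.mem_Ioo]; omega
  have m2 : p + 1 + 1 ∈ Ioo (j * Q) ((j + 1) * Q) := by rw [Finset.mem_Ioo]; omega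
  have h1 := Sb_upd1 βJ β p m1 (Function.update f (p + 2) y) x
  have h2 := Sb_upd1 (fun _ => (0 : ℝ)) β (p + 1) m2 f y
  have u1 : Function.update f (p + 2) y p = f p := Function.update_of_ne (by omega) _ _
  have u2 : Function.update f (p + 2) y (p + 1) = f (p + 1) :=
    Function.update_of_ne (by omega) _ _
  have u3 : Function.update f (p + 2) y (p + 2) = y := Function.update_self _ _ _
  rw [u1, u2, u3] at h1
  change Sb Q (fun _ => 0) β j (Function.update f (p + 2) y) = _ at h2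
  rw [h2] at h1
  rw [h1]
  simp only [show p + 1 + 1 = p + 2 from rfl, show p + 1 + 2 = p + 3 from rfl]
  ring

end Cond

open Cond in
/-- module F3b -/
theorem stCond : StK1 → StCond := by
  intro h n Q _ U E' j βJ β ε b hQ hs h1 h2 hb
  have hblk : (j + 1) * Q = j * Q + Q := Nat.add_one_mul j Q
  have hε : 0 ≤ ε := by
    have hm : j * Q + 1 ∈ Ioo (j * Q) ((j + 1) * Q) := by rw [Finset.mem_Ioo]; omega
    exact (abs_nonneg _).trans (h1 _ hm)
  have hb0 : 0 ≤ b := (abs_nonneg _).trans (hb (Sum.inl 0))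
  constructor
  · intro k hk x
    obtain ⟨p, rfl⟩ : ∃ p, k = p + 1 := ⟨k - 1, by rw [Finset.mem_Ioo] at hk; omega⟩
    rw [h n Q U E' j (p + 1) hk (hs _ hk), ← mul_sub, abs_mul, abs_of_nonneg (pa_nonneg _ _)]
    refine mul_le_mul_of_nonneg_left ?_ (pa_nonneg _ _)
    have key : Ex Q U E' j (fun f => Sb Q βJ β j (Function.update f (p + 1) x)) =
        βJ j + Ex Q U E' j (Sb Q (fun _ => 0) β j) + hh β (p + 1) x
        - Ex Q U E' j (fun f => hh β (p + 1) (f (p + 1)))
        + Ex Q U E' j (fun f => β (Sum.inr (cl (x - f p))))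
        - Ex Q U E' j (fun f => β (Sum.inr (cl (f (p + 1) - f p))))
        + Ex Q U E' j (fun f => β (Sum.inr (cl (f (p + 2) - x))))
        - Ex Q U E' j (fun f => β (Sum.inr (cl (f (p + 1 + 1) - f (p + 1))))) := by
      simp only [Sb_upd1 βJ β p hk]
      rw [Ex_sub, Ex_add, Ex_sub, Ex_add, Ex_sub, Ex_add, Ex_add, Ex_const hs, Ex_const hs]
    rw [key]
    have hk' := hk
    rw [Finset.mem_Ioo] at hk'
    have b1 := abs_le.mp (e_hh h hs h1 (p + 1) hk)
    have b2 := abs_le.mp (e_gl h hs h2 p hk)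
    have b3 := abs_le.mp (e_gr h hs h2 (p + 1) hk)
    have b4 : |Ex Q U E' j (fun f => β (Sum.inr (cl (x - f p))))| +
        |Ex Q U E' j (fun f => β (Sum.inr (cl (f (p + 2) - x))))| ≤
        2 * ε + if p + 1 = j * Q + 1 ∨ p + 1 + 1 = (j + 1) * Q then b else 0 := by
      by_cases c1 : p + 1 = j * Q + 1
      · have t1 := e_b hs hb (fun f => Sum.inr (cl (x - f p)))
        have t2 := e_xr h hs h2 (p + 2) (by rw [Finset.mem_Ioo]; omega) x
        rw [if_pos (Or.inl c1)]
        linarith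
      · by_cases c2 : p + 1 + 1 = (j + 1) * Q
        · have t1 := e_xl h hs h2 p (by rw [Finset.mem_Ioo]; omega) x
          have t2 := e_b hs hb (fun f => Sum.inr (cl (f (p + 2) - x)))
          rw [if_pos (Or.inr c2)]
          linarith
        · have t1 := e_xl h hs h2 p (by rw [Finset.mem_Ioo]; omega) x
          have t2 := e_xr h hs h2 (p + 2) (by rw [Finset.mem_Ioo]; omega) x
          rw [if_neg (by tauto)]
          linarith
    have b5 := abs_le.mp (le_refl |Ex Q U E' j (fun f => β (Sum.inr (cl (x - f p))))|)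
    have b6 := abs_le.mp (le_refl |Ex Q U E' j (fun f => β (Sum.inr (cl (f (p + 2) - x))))|)
    rw [abs_le]
    constructor <;> linarith [b1.1, b1.2, b2.1, b2.2, b3.1, b3.2, b5.1, b5.2, b6.1, b6.2]
  · intro k hk0 hk1 w ε' hε'
    obtain ⟨p, rfl⟩ : ∃ p, k = p + 1 := ⟨k - 1, by omega⟩
    have m1 : p + 1 ∈ Ioo (j * Q) ((j + 1) * Q) := by rw [Finset.mem_Ioo]; omega
    have m2 : p + 2 ∈ Ioo (j * Q) ((j + 1) * Q) := by rw [Finset.mem_Ioo]; omega
    set c0 : ℝ := if p + 1 = j * Q + 1 ∨ p + 1 + 2 = (j + 1) * Q then b else 0 with hc0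
    -- the conditional expectations
    have hcond : Ex Q U E' j (fun f => if f (p + 1 + 1) - f (p + 1) = w then Sb Q βJ β j f else 0) =
        ∑ x, pa Q U E' (p + 1) x * (pa Q U E' (p + 1 + 1) (x + w) * Ex Q U E' j (fun f =>
          Sb Q βJ β j (Function.update (Function.update f (p + 2) (x + w)) (p + 1) x))) := by
      rw [Ex_cond h hs (p + 1) m1]
      refine Finset.sum_congr rfl fun x _ => ?_
      congr 1
      rw [← h n Q U E' j (p + 2) m2 (hs _ m2) (fun f => Sb Q βJ β j (Function.update f (p + 1) x))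
        (x + w)]
      congr 1
      funext f
      rw [Function.update_self, Function.update_of_ne (show p + 1 + 1 ≠ p + 1 by omega)]
      by_cases hw : f (p + 1 + 1) - x = w
      · rw [if_pos hw, if_pos (show f (p + 2) = x + w by
          rw [← hw]
          change f (p + 2) = x + (f (p + 2) - x)
          ring)]
      · rw [if_neg hw, if_neg]
        intro h0
        apply hw
        change f (p + 2) - x = w
        rw [h0]
        ring
    have key : ∀ x : ZMod n, |Ex Q U E' j (fun f =>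
          Sb Q βJ β j (Function.update (Function.update f (p + 2) (x + w)) (p + 1) x)) -
        (βJ j + Ex Q U E' j (Sb Q (fun _ => 0) β j) + β (Sum.inr (cl w))) -
        (hh β (p + 1) x + hh β (p + 1 + 1) (x + w))| ≤ 7 * ε + c0 := by
      intro x
      have key1 : Ex Q U E' j (fun f =>
          Sb Q βJ β j (Function.update (Function.update f (p + 2) (x + w)) (p + 1) x)) =
          βJ j + Ex Q U E' j (Sb Q (fun _ => 0) β j)
          + (hh β (p + 1) x - Ex Q U E' j (fun f => hh β (p + 1) (f (p + 1))))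
          + (hh β (p + 2) (x + w) - Ex Q U E' j (fun f => hh β (p + 2) (f (p + 2))))
          + (Ex Q U E' j (fun f => β (Sum.inr (cl (x - f p))))
            - Ex Q U E' j (fun f => β (Sum.inr (cl (f (p + 1) - f p)))))
          + (β (Sum.inr (cl (x + w - x)))
            - Ex Q U E' j (fun f => β (Sum.inr (cl (f (p + 1 + 1) - f (p + 1))))))
          + (Ex Q U E' j (fun f => β (Sum.inr (cl (f (p + 3) - (x + w)))))
            - Ex Q U E' j (fun f => β (Sum.inr (cl (f (p + 2 + 1) - f (p + 2)))))) := by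
        simp only [Sb_upd2 βJ β p (show j * Q < p + 1 by omega) (show p + 2 < (j + 1) * Q by omega)]
        rw [Ex_add, Ex_add, Ex_add, Ex_add, Ex_add, Ex_add, Ex_sub, Ex_sub, Ex_sub, Ex_sub, Ex_sub,
          Ex_const hs, Ex_const hs, Ex_const hs, Ex_const hs]
      have hxw : x + w - x = w := by ring
      rw [hxw] at key1
      rw [key1]
      have b1 := abs_le.mp (e_hh h hs h1 (p + 1) m1)
      have b1' := abs_le.mp (e_hh h hs h1 (p + 2) m2)
      have b2 := abs_le.mp (e_gl h hs h2 p m1)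
      have b3 := abs_le.mp (e_gr h hs h2 (p + 1) m1)
      have b3' := abs_le.mp (e_gr h hs h2 (p + 2) m2)
      have b4 : |Ex Q U E' j (fun f => β (Sum.inr (cl (x - f p))))| +
          |Ex Q U E' j (fun f => β (Sum.inr (cl (f (p + 3) - (x + w)))))| ≤ 2 * ε + c0 := by
        rw [hc0]
        by_cases c1 : p + 1 = j * Q + 1
        · have t1 := e_b hs hb (fun f => Sum.inr (cl (x - f p)))
          have t2 := e_xr h hs h2 (p + 3) (by rw [Finset.mem_Ioo]; omega) (x + w)
          rw [if_pos (Or.inl c1)]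
          linarith
        · by_cases c2 : p + 1 + 2 = (j + 1) * Q
          · have t1 := e_xl h hs h2 p (by rw [Finset.mem_Ioo]; omega) x
            have t2 := e_b hs hb (fun f => Sum.inr (cl (f (p + 3) - (x + w))))
            rw [if_pos (Or.inr c2)]
            linarith
          · have t1 := e_xl h hs h2 p (by rw [Finset.mem_Ioo]; omega) x
            have t2 := e_xr h hs h2 (p + 3) (by rw [Finset.mem_Ioo]; omega) (x + w)
            rw [if_neg (by tauto)]
            linarith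
      have b5 := abs_le.mp (le_refl |Ex Q U E' j (fun f => β (Sum.inr (cl (x - f p))))|)
      have b6 := abs_le.mp (le_refl |Ex Q U E' j (fun f => β (Sum.inr (cl (f (p + 3) - (x + w)))))|)
      change |_ - (_ : ℝ) - (hh β (p + 1) x + hh β (p + 2) (x + w))| ≤ _
      rw [abs_le]
      constructor <;> linarith [b1.1, b1.2, b1'.1, b1'.2, b2.1, b2.2, b3.1, b3.2, b3'.1, b3'.2,
        b5.1, b5.2, b6.1, b6.2]
    rw [hcond]
    have hexp : (∑ x, pa Q U E' (p + 1) x * (pa Q U E' (p + 1 + 1) (x + w) * Ex Q U E' j (fun f =>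
          Sb Q βJ β j (Function.update (Function.update f (p + 2) (x + w)) (p + 1) x)))) -
        pe Q U E' (p + 1) w * (βJ j + Ex Q U E' j (Sb Q (fun _ => 0) β j) + β (Sum.inr (cl w))) =
        (∑ x, pa Q U E' (p + 1) x * pa Q U E' (p + 1 + 1) (x + w) * (Ex Q U E' j (fun f =>
          Sb Q βJ β j (Function.update (Function.update f (p + 2) (x + w)) (p + 1) x)) -
        (βJ j + Ex Q U E' j (Sb Q (fun _ => 0) β j) + β (Sum.inr (cl w))) -
        (hh β (p + 1) x + hh β (p + 1 + 1) (x + w)))) +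
        ∑ x, pa Q U E' (p + 1) x * pa Q U E' (p + 1 + 1) (x + w) *
          (hh β (p + 1) x + hh β (p + 1 + 1) (x + w)) := by
      unfold pe
      rw [Finset.sum_mul, ← Finset.sum_sub_distrib, ← Finset.sum_add_distrib]
      exact Finset.sum_congr rfl fun x _ => by ring
    rw [hexp]
    refine (abs_add_le _ _).trans (add_le_add ?_ hε')
    refine (Finset.abs_sum_le_sum_abs _ _).trans ?_
    unfold pe
    rw [Finset.sum_mul]
    refine Finset.sum_le_sum fun x _ => ?_
    rw [abs_mul, abs_of_nonneg (mul_nonneg (pa_nonneg _ _) (pa_nonneg _ _))]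
    exact mul_le_mul_of_nonneg_left (key x) (mul_nonneg (pa_nonneg _ _) (pa_nonneg _ _))

end Pool.Agent.DNA
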