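import Pool.Agent.Lib.MP_845d9b_co.Abs.CountAux

/-!
# CT: counting tuples
-/

set_option autoImplicit false

namespace Pool.Agent.DNA

open Finset

namespace CountAux

open AbsorbAux (two_sol cl_eq)

open Classical in
lemma cover {M ι : Type} (I : Finset ι) (S : Finset M) (P : ι → M → Prop) (B : ℕ)
    (hcov : ∀ m ∈ S, ∃ i ∈ I, P i m)
    (hB : ∀ i ∈ I, ∀ S' : Finset M, S'.Nonempty → (∀ m ∈ S', P i m) → S'.card ≤ B) :
    S.card ≤ I.card * B := by
  have hsub : S ⊆ I.biUnion fun i => S.filter (P i) := by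
    intro m hm
    obtain ⟨i, hi, hP⟩ := hcov m hm
    exact mem_biUnion.2 ⟨i, hi, mem_filter.2 ⟨hm, hP⟩⟩
  refine (card_le_card hsub).trans (card_biUnion_le_card_mul _ _ _ fun i hi => ?_)
  rcases (S.filter (P i)).eq_empty_or_nonempty with h | h
  · rw [h]; simp
  · exact hB i hi _ h fun m hm => (mem_filter.1 hm).2

lemma sum_bound (Bs X : Finset ℕ) (g : ℕ → ℕ) (A B c : ℕ) (h1 : ∀ j ∈ Bs, j ∉ X → g j ≤ A)
    (h2 : ∀ j ∈ Bs, g j ≤ B) (h3 : X.card ≤ c) : ∑ j ∈ Bs, g j ≤ Bs.card * A + c * B := by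
  calc ∑ j ∈ Bs, g j ≤ ∑ j ∈ Bs, (A + if j ∈ X then B else 0) := by
        refine sum_le_sum fun j hj => ?_
        split_ifs with h
        · exact (h2 j hj).trans (Nat.le_add_left _ _)
        · exact (h1 j hj h).trans (Nat.le_add_right _ _)
    _ = Bs.card * A + (Bs ∩ X).card * B := by
        rw [sum_add_distrib, sum_const, smul_eq_mul, sum_ite_mem, sum_const, smul_eq_mul]
    _ ≤ _ := by
        refine Nat.add_le_add_left (Nat.mul_le_mul_right _ ?_) _
        exact (card_le_card inter_subset_right).trans h3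

lemma two_of_sum (s : Finset ℕ) (g : ℕ → ℕ) (h1 : ∀ k ∈ s, g k ≤ 1) (h2 : 2 ≤ ∑ k ∈ s, g k) :
    ∃ k ∈ s, ∃ k' ∈ s, k < k' ∧ g k ≠ 0 ∧ g k' ≠ 0 := by
  have h3 : ∑ k ∈ s, g k ≤ (s.filter fun k => g k ≠ 0).card := by
    rw [card_filter]
    refine sum_le_sum fun k hk => ?_
    have := h1 k hk
    split_ifs with h
    · exact this
    · push Not at h
      omega
  have h4 : 1 < (s.filter fun k => g k ≠ 0).card := by omega
  obtain ⟨k, hk, k', hk', hne⟩ := one_lt_card.1 h4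
  rw [mem_filter] at hk hk'
  rcases lt_or_gt_of_ne hne with h | h
  · exact ⟨k, hk.1, k', hk'.1, h, hk.2, hk'.2⟩
  · exact ⟨k', hk'.1, k, hk.1, h, hk'.2, hk.2⟩

variable {n Q j : ℕ}

lemma cl_symm (w : ZMod n) : cl (1 - w) = cl w := by
  unfold cl
  rw [sub_sub_cancel, Sym2.eq_swap]

lemma mult_inl (F : ℕ → ZMod n) (x : ZMod n) : mult n Q j F (Sum.inl x) =
    ∑ k ∈ Ioo (j * Q) ((j + 1) * Q),
      ((if F k = x then 1 else 0) + (if F k - (k : ZMod n) = x then 1 else 0)) := rfl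

lemma mult_inr (F : ℕ → ZMod n) (c : Sym2 (ZMod n)) : mult n Q j F (Sum.inr c) =
    ∑ k ∈ Ico (j * Q) ((j + 1) * Q), if cl (F (k + 1) - F k) = c then 1 else 0 := rfl

lemma ev_inl {x : ZMod n} {F : ℕ → ZMod n} (h : mult n Q j F (Sum.inl x) ≠ 0) :
    ∃ k, j * Q < k ∧ k < (j + 1) * Q ∧ ∃ b, PEv x k b F := by
  rw [mult_inl] at h
  obtain ⟨k, hk, hne⟩ := exists_ne_zero_of_sum_ne_zero h
  rw [mem_Ioo] at hk
  refine ⟨k, hk.1, hk.2, ?_⟩
  by_cases h1 : F k = x
  · exact ⟨false, by unfold PEv; simp [h1]⟩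
  · by_cases h2 : F k - (k : ZMod n) = x
    · exact ⟨true, by unfold PEv; rw [← h2]; simp⟩
    · simp [h1, h2] at hne

lemma cl_cases {u w : ZMod n} (h : cl u = cl w) : u = w ∨ u = 1 - w := by
  rcases cl_eq h with h | h
  · exact Or.inl h.symm
  · right; rw [h]; ring

lemma ev_inr {w : ZMod n} {F : ℕ → ZMod n} (h : mult n Q j F (Sum.inr (cl w)) ≠ 0) :
    ∃ l, j * Q ≤ l ∧ l < (j + 1) * Q ∧ ∃ b : Bool, CEv (if b then 1 - w else w) l F := by
  rw [mult_inr] at h
  obtain ⟨l, hl, hne⟩ := exists_ne_zero_of_sum_ne_zero h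
  rw [mem_Ico] at hl
  refine ⟨l, hl.1, hl.2, ?_⟩
  by_cases h1 : cl (F (l + 1) - F l) = cl w
  · rcases cl_cases h1 with h2 | h2
    · exact ⟨false, by unfold CEv; simpa using h2⟩
    · exact ⟨true, by unfold CEv; simpa using h2⟩
  · simp [h1] at hne

lemma coin {F : ℕ → ZMod n} (hk : ∀ k, j * Q < k → k < (j + 1) * Q → (k : ZMod n) ≠ 0)
    (h : ∃ y, 2 ≤ mult n Q j F y) :
    (∃ a b, j * Q < a ∧ a < b ∧ b < (j + 1) * Q ∧ ∃ s t, DEv a b s t F) ∨
      ∃ l l', j * Q ≤ l ∧ l < l' ∧ l' < (j + 1) * Q ∧ ∃ s, GEv l l' s F := by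
  obtain ⟨y, hy⟩ := h
  rcases y with x | c
  · left
    rw [mult_inl] at hy
    obtain ⟨a, ha, b, hb, hab, hga, hgb⟩ := two_of_sum _ _ (by
      intro k hkm
      rw [mem_Ioo] at hkm
      have h0 := hk k hkm.1 hkm.2
      split_ifs with h1 h2
      · exfalso
        apply h0
        rw [h1] at h2
        linear_combination -h2
      all_goals omega) hy
    rw [mem_Ioo] at ha hb
    have key : ∀ k, ((if F k = x then 1 else 0) + (if F k - (k : ZMod n) = x then 1 else 0) : ℕ)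
        ≠ 0 → ∃ s : Bool, PEv x k s F := by
      intro k hne
      by_cases h1 : F k = x
      · exact ⟨false, by unfold PEv; simp [h1]⟩
      · by_cases h2 : F k - (k : ZMod n) = x
        · exact ⟨true, by unfold PEv; rw [← h2]; simp⟩
        · simp [h1, h2] at hne
    obtain ⟨s, hs⟩ := key a hga
    obtain ⟨t, ht⟩ := key b hgb
    refine ⟨a, b, ha.1, hab, hb.2, s, t, ?_⟩
    unfold PEv at hs ht
    unfold DEv
    rw [hs, ht]
    ring
  · right
    rw [mult_inr] at hy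
    obtain ⟨a, ha, b, hb, hab, hga, hgb⟩ := two_of_sum _ _ (by
      intro k _
      split_ifs <;> omega) hy
    rw [mem_Ico] at ha hb
    have h1 : cl (F (a + 1) - F a) = c := by
      by_contra h'
      simp [h'] at hga
    have h2 : cl (F (b + 1) - F b) = c := by
      by_contra h'
      simp [h'] at hgb
    refine ⟨a, b, ha.1, hab, hb.2, ?_⟩
    rcases cl_cases (h1.trans h2.symm) with h3 | h3
    · exact ⟨false, by unfold GEv; simpa using h3⟩
    · refine ⟨true, ?_⟩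
      unfold GEv
      simp only [if_true]
      rw [h3]
      ring

/-! ### exceptional blocks -/

lemma block_facts (_ : 4 ≤ Q) (hj : j ∈ Blocks n Q) :
    1 ≤ j ∧ (j + 1) * Q ≤ T1 n ∧ j * Q ≤ T1 n := by
  unfold Blocks at hj
  rw [mem_Ico] at hj
  unfold J1 at hj
  have h1 : (j + 1) * Q ≤ (T1 n / Q) * Q := Nat.mul_le_mul_right _ (by omega)
  have h2 : T1 n / Q * Q ≤ T1 n := Nat.div_mul_le_self _ _
  have h3 : j * Q ≤ (j + 1) * Q := Nat.mul_le_mul_right _ (by omega)
  exact ⟨hj.1, h1.trans h2, (h3.trans h1).trans h2⟩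

lemma T1_lt (hn : 1 ≤ n) : T1 n < n := by
  unfold T1
  omega

lemma cast_inj {k k' : ℕ} (h : k < n) (h' : k' < n) (e : (k : ZMod n) = (k' : ZMod n)) :
    k = k' := by
  rw [ZMod.natCast_eq_natCast_iff'] at e
  rwa [Nat.mod_eq_of_lt h, Nat.mod_eq_of_lt h'] at e

lemma block_inj {j j' k : ℕ} (h1 : j * Q < k) (h2 : k < (j + 1) * Q) (h3 : j' * Q < k)
    (h4 : k < (j' + 1) * Q) : j = j' := by
  rcases lt_trichotomy j j' with h | h | h
  · have := Nat.mul_le_mul_right Q (show j + 1 ≤ j' from h)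
    omega
  · exact h
  · have := Nat.mul_le_mul_right Q (show j' + 1 ≤ j from h)
    omega

open Classical in
/-- blocks that contain the time `c` -/
noncomputable def XK (n Q : ℕ) (c : ZMod n) : Finset ℕ :=
  (Blocks n Q).filter fun j => ∃ k, j * Q < k ∧ k < (j + 1) * Q ∧ (k : ZMod n) = c

open Classical in
/-- exceptional left anchor -/
noncomputable def XL (n Q : ℕ) (U : ℕ → ZMod n) (x c : ZMod n) (e : ℕ) (b : Bool) : Finset ℕ :=
  (Blocks n Q).filter fun j => U (j * Q) + c = x + (if b then ((j * Q + e : ℕ) : ZMod n) else 0)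

open Classical in
/-- exceptional right anchor -/
noncomputable def XR (n Q : ℕ) (U : ℕ → ZMod n) (x c : ZMod n) (e : ℕ) (b : Bool) : Finset ℕ :=
  (Blocks n Q).filter fun j => ∃ k, k + e = (j + 1) * Q ∧
    U ((j + 1) * Q) - c = x + (if b then (k : ZMod n) else 0)

open Classical in
lemma mem_XK {c : ZMod n} : j ∈ XK n Q c ↔
    j ∈ Blocks n Q ∧ ∃ k, j * Q < k ∧ k < (j + 1) * Q ∧ (k : ZMod n) = c := by
  unfold XK
  rw [mem_filter]

open Classical in
lemma mem_XL {U : ℕ → ZMod n} {x c : ZMod n} {e : ℕ} {b : Bool} : j ∈ XL n Q U x c e b ↔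
    j ∈ Blocks n Q ∧ U (j * Q) + c = x + (if b then ((j * Q + e : ℕ) : ZMod n) else 0) := by
  unfold XL
  rw [mem_filter]

open Classical in
lemma mem_XR {U : ℕ → ZMod n} {x c : ZMod n} {e : ℕ} {b : Bool} : j ∈ XR n Q U x c e b ↔
    j ∈ Blocks n Q ∧ ∃ k, k + e = (j + 1) * Q ∧
      U ((j + 1) * Q) - c = x + (if b then (k : ZMod n) else 0) := by
  unfold XR
  rw [mem_filter]

lemma XK_card (hQ : 4 ≤ Q) (hn : 1 ≤ n) (c : ZMod n) : (XK n Q c).card ≤ 1 := by
  rw [card_le_one]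
  intro j hj j' hj'
  rw [mem_XK] at hj hj'
  obtain ⟨hj, k, h1, h2, h3⟩ := hj
  obtain ⟨hj', k', h1', h2', h3'⟩ := hj'
  have b1 := block_facts hQ hj
  have b2 := block_facts hQ hj'
  have b3 := T1_lt hn
  have e := cast_inj (by omega) (by omega) (h3.trans h3'.symm)
  subst e
  exact block_inj h1 h2 h1' h2'

lemma fixT_anchor (hQ : 4 ≤ Q) {i : ℕ} (hi : 1 ≤ i) (hi' : i * Q ≤ T1 n) :
    i * Q ∈ FixT n Q := by
  unfold FixT
  rw [mem_filter, mem_Icc]
  refine ⟨⟨?_, hi'⟩, Or.inr (Or.inl (Nat.dvd_mul_left _ _))⟩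
  have h1 : 1 * Q ≤ i * Q := Nat.mul_le_mul_right _ hi
  unfold T0
  omega

lemma anchor_up (hQ : 4 ≤ Q) {U : ℕ → ZMod n} (hU : FixOk n Q U) {i i' : ℕ} (hi : 1 ≤ i)
    (hi1 : i * Q ≤ T1 n) (hi' : 1 ≤ i') (hi1' : i' * Q ≤ T1 n) (h : U (i * Q) = U (i' * Q)) :
    i = i' := by
  have := hU.up _ (fixT_anchor hQ hi hi1) _ (fixT_anchor hQ hi' hi1') h
  exact Nat.eq_of_mul_eq_mul_right (by omega) this

lemma anchor_lo (hQ : 4 ≤ Q) {U : ℕ → ZMod n} (hU : FixOk n Q U) {i i' : ℕ} (hi : 1 ≤ i)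
    (hi1 : i * Q ≤ T1 n) (hi' : 1 ≤ i') (hi1' : i' * Q ≤ T1 n)
    (h : U (i * Q) - ((i * Q : ℕ) : ZMod n) = U (i' * Q) - ((i' * Q : ℕ) : ZMod n)) :
    i = i' := by
  have := hU.lo _ (fixT_anchor hQ hi hi1) _ (fixT_anchor hQ hi' hi1') h
  exact Nat.eq_of_mul_eq_mul_right (by omega) this

lemma XL_card (hQ : 4 ≤ Q) {U : ℕ → ZMod n} (hU : FixOk n Q U) (x c : ZMod n) (e : ℕ)
    (b : Bool) : (XL n Q U x c e b).card ≤ 1 := by
  rw [card_le_one]
  intro j hj j' hj'
  rw [mem_XL] at hj hj'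
  obtain ⟨hj, h1⟩ := hj
  obtain ⟨hj', h1'⟩ := hj'
  have b1 := block_facts hQ hj
  have b2 := block_facts hQ hj'
  cases b with
  | false =>
    simp only [Bool.false_eq_true, if_false] at h1 h1'
    exact anchor_up hQ hU b1.1 b1.2.2 b2.1 b2.2.2 (by linear_combination h1 - h1')
  | true =>
    simp only [if_true, Nat.cast_add] at h1 h1'
    exact anchor_lo hQ hU b1.1 b1.2.2 b2.1 b2.2.2 (by linear_combination h1 - h1')

lemma XR_card (hQ : 4 ≤ Q) {U : ℕ → ZMod n} (hU : FixOk n Q U) (x c : ZMod n) (e : ℕ)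
    (b : Bool) : (XR n Q U x c e b).card ≤ 1 := by
  rw [card_le_one]
  intro j hj j' hj'
  rw [mem_XR] at hj hj'
  obtain ⟨hj, k, hk, h1⟩ := hj
  obtain ⟨hj', k', hk', h1'⟩ := hj'
  have b1 := block_facts hQ hj
  have b2 := block_facts hQ hj'
  cases b with
  | false =>
    simp only [Bool.false_eq_true, if_false] at h1 h1'
    have := anchor_up hQ hU (i := j + 1) (i' := j' + 1) (by omega) b1.2.1 (by omega) b2.2.1
      (by linear_combination h1 - h1')
    omega
  | true =>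
    simp only [if_true] at h1 h1'
    have e1 : (((j + 1) * Q : ℕ) : ZMod n) = (k : ZMod n) + (e : ZMod n) := by
      rw [← hk]; push_cast; ring
    have e2 : (((j' + 1) * Q : ℕ) : ZMod n) = (k' : ZMod n) + (e : ZMod n) := by
      rw [← hk']; push_cast; ring
    have := anchor_lo hQ hU (i := j + 1) (i' := j' + 1) (by omega) b1.2.1 (by omega) b2.2.1
      (by rw [e1, e2]; linear_combination h1 - h1')
    omega

/-! ### the four claims -/

lemma card_I (j Q : ℕ) : (Ico (j * Q) ((j + 1) * Q)).card = Q := by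
  rw [Nat.card_Ico, Nat.succ_mul]
  omega

variable [NeZero n] (U : ℕ → ZMod n)

lemma claim1 (hQ : 4 ≤ Q) (y : Elt n) (hy : y ∈ All n)
    (S : Finset (Fin (Q - 1) → ZMod n)) (hS : ∀ m ∈ S, mult n Q j (ext n Q U j m) y ≠ 0) :
    S.card ≤ 4 * Q * n ^ (Q - 2) := by
  set I := Ico (j * Q) ((j + 1) * Q) ×ˢ (univ : Finset Bool) with hI
  have hIc : I.card = Q * 2 := by
    rw [hI, card_product, card_I]
    rfl
  have key : S.card ≤ I.card * (2 * n ^ (Q - 2)) := by
    rcases y with x | c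
    · refine cover I S (fun i m => j * Q < i.1 ∧ i.1 < (j + 1) * Q ∧
        PEv x i.1 i.2 (ext n Q U j m)) _ ?_ ?_
      · intro m hm
        obtain ⟨k, h1, h2, b, h3⟩ := ev_inl (hS m hm)
        refine ⟨(k, b), ?_, h1, h2, h3⟩
        rw [hI, mem_product, mem_Ico]
        exact ⟨⟨h1.le, h2⟩, mem_univ _⟩
      · rintro ⟨k, b⟩ _ S' ⟨m0, hm0⟩ hP
        obtain ⟨h1, h2, _⟩ := hP m0 hm0
        exact one_p U S' h1 h2 fun m hm => (hP m hm).2.2
    · have hc : ∃ w, c = cl w := by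
        unfold All at hy
        rcases mem_union.1 hy with h | h
        · obtain ⟨x, _, hx⟩ := mem_image.1 h
          exact absurd hx (by simp)
        · obtain ⟨w, _, hw⟩ := mem_image.1 h
          exact ⟨w, (Sum.inr_injective hw).symm⟩
      obtain ⟨w, rfl⟩ := hc
      refine cover I S (fun i m => j * Q ≤ i.1 ∧ i.1 < (j + 1) * Q ∧
        CEv (if i.2 then 1 - w else w) i.1 (ext n Q U j m)) _ ?_ ?_
      · intro m hm
        obtain ⟨l, h1, h2, b, h3⟩ := ev_inr (hS m hm)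
        refine ⟨(l, b), ?_, h1, h2, h3⟩
        rw [hI, mem_product, mem_Ico]
        exact ⟨⟨h1, h2⟩, mem_univ _⟩
      · rintro ⟨l, b⟩ _ S' ⟨m0, hm0⟩ hP
        obtain ⟨h1, h2, _⟩ := hP m0 hm0
        exact one_c U S' hQ h1 h2 fun m hm => (hP m hm).2.2
  rw [hIc] at key
  calc S.card ≤ _ := key
    _ = 4 * Q * n ^ (Q - 2) := by ring

lemma claim2 (hQ : 4 ≤ Q) (hk : ∀ k, j * Q < k → k < (j + 1) * Q → (k : ZMod n) ≠ 0)
    (S : Finset (Fin (Q - 1) → ZMod n))
    (hS : ∀ m ∈ S, ∃ y, 2 ≤ mult n Q j (ext n Q U j m) y) :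
    S.card ≤ 16 * Q ^ 2 * n ^ (Q - 2) := by
  set I := Ico (j * Q) ((j + 1) * Q) with hI
  set I2 := I ×ˢ (I ×ˢ (univ : Finset (Bool × Bool × Bool))) with hI2
  have hIc : I2.card = Q * (Q * 8) := by
    rw [hI2, card_product, card_product, hI, card_I]
    rfl
  have key : S.card ≤ I2.card * (2 * n ^ (Q - 2)) := by
    refine cover I2 S (fun i m => if i.2.2.1 then j * Q < i.1 ∧ i.1 < i.2.1 ∧
      i.2.1 < (j + 1) * Q ∧ DEv i.1 i.2.1 i.2.2.2.1 i.2.2.2.2 (ext n Q U j m) else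
      j * Q ≤ i.1 ∧ i.1 < i.2.1 ∧ i.2.1 < (j + 1) * Q ∧
        GEv i.1 i.2.1 i.2.2.2.1 (ext n Q U j m)) _ ?_ ?_
    · intro m hm
      rcases coin hk (hS m hm) with ⟨a, b, h1, h2, h3, s, t, h4⟩ | ⟨l, l', h1, h2, h3, s, h4⟩
      · refine ⟨(a, b, true, s, t), ?_, ?_⟩
        · rw [hI2, mem_product, mem_product, hI, mem_Ico, mem_Ico]
          exact ⟨⟨h1.le, by omega⟩, ⟨by simp only; omega, h3⟩, mem_univ _⟩
        · simp only [if_true]
          exact ⟨h1, h2, h3, h4⟩
      · refine ⟨(l, l', false, s, true), ?_, ?_⟩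
        · rw [hI2, mem_product, mem_product, hI, mem_Ico, mem_Ico]
          exact ⟨⟨h1, by simp only; omega⟩, ⟨by simp only; omega, h3⟩, mem_univ _⟩
        · simp only [Bool.false_eq_true, if_false]
          exact ⟨h1, h2, h3, h4⟩
    · rintro ⟨a, b, f, s, t⟩ _ S' ⟨m0, hm0⟩ hP
      cases f with
      | true =>
        simp only [if_true] at hP
        obtain ⟨h1, h2, h3, _⟩ := hP m0 hm0
        exact one_d U S' h1 (by omega) (by omega) fun m hm => (hP m hm).2.2.2
      | false =>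
        simp only [Bool.false_eq_true, if_false] at hP
        obtain ⟨h1, h2, h3, _⟩ := hP m0 hm0
        exact one_g U S' hQ h1 h2 h3 fun m hm => (hP m hm).2.2.2
  rw [hIc] at key
  calc S.card ≤ _ := key
    _ = 16 * Q ^ 2 * n ^ (Q - 2) := by ring

omit [NeZero n] in
/-- combination of the estimates over all blocks -/
lemma finish (hQ : 4 ≤ Q) (hn : 1 ≤ n) (X : Finset ℕ) (hX : X.card ≤ 8) (g : ℕ → ℕ)
    (A : ℕ) (h1 : ∀ j ∈ Blocks n Q, j ∉ X → g j ≤ A * n ^ (Q - 3))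
    (h2 : ∀ j ∈ Blocks n Q, g j ≤ 4 * Q * n ^ (Q - 2)) :
    ∑ j ∈ Blocks n Q, g j ≤ (A + 32 * Q) * n ^ (Q - 2) := by
  have h3 := sum_bound (Blocks n Q) X g _ _ 8 h1 h2 hX
  have h4 : (Blocks n Q).card ≤ n := by
    unfold Blocks J1
    rw [Nat.card_Ico]
    have := T1_lt hn
    have := Nat.div_le_self (T1 n) Q
    omega
  have h5 : n * n ^ (Q - 3) = n ^ (Q - 2) := by
    rw [← pow_succ']
    congr 1
    omega
  calc ∑ j ∈ Blocks n Q, g j ≤ (Blocks n Q).card * (A * n ^ (Q - 3)) + 8 * (4 * Q * n ^ (Q - 2)) :=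
        h3
    _ ≤ n * (A * n ^ (Q - 3)) + 8 * (4 * Q * n ^ (Q - 2)) :=
        Nat.add_le_add_right (Nat.mul_le_mul_right _ h4) _
    _ = A * (n * n ^ (Q - 3)) + 8 * (4 * Q * n ^ (Q - 2)) := by ring
    _ = (A + 32 * Q) * n ^ (Q - 2) := by rw [h5]; ring

lemma claim3_pp (hQ : 4 ≤ Q) (hn : 1 ≤ n) {x x' : ZMod n} (hne : x ≠ x') :
    ∑ j ∈ Blocks n Q, ((univ.filter fun m : Fin (Q - 1) → ZMod n =>
      mult n Q j (ext n Q U j m) (Sum.inl x) ≠ 0 ∧
        mult n Q j (ext n Q U j m) (Sum.inl x') ≠ 0).card) ≤ (16 * Q ^ 2 + 32 * Q) * n ^ (Q - 2) := by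
  refine finish hQ hn (XK n Q (x - x') ∪ XK n Q (x' - x)) ?_ _ _ ?_ ?_
  · have h1 := card_union_le (XK n Q (x - x')) (XK n Q (x' - x))
    have h2 := XK_card hQ hn (x - x')
    have h3 := XK_card hQ hn (x' - x)
    omega
  · intro j hj hjX
    set I := Ico (j * Q) ((j + 1) * Q) ×ˢ (univ : Finset Bool) with hI
    have hIc : (I ×ˢ I).card = Q * 2 * (Q * 2) := by
      rw [card_product, hI, card_product, card_I]
      rfl
    have key := cover (I ×ˢ I) (univ.filter fun m : Fin (Q - 1) → ZMod n =>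
      mult n Q j (ext n Q U j m) (Sum.inl x) ≠ 0 ∧ mult n Q j (ext n Q U j m) (Sum.inl x') ≠ 0)
      (fun i m => (j * Q < i.1.1 ∧ i.1.1 < (j + 1) * Q ∧ j * Q < i.2.1 ∧ i.2.1 < (j + 1) * Q) ∧
        PEv x i.1.1 i.1.2 (ext n Q U j m) ∧ PEv x' i.2.1 i.2.2 (ext n Q U j m))
      (4 * n ^ (Q - 3)) (by
        intro m hm
        obtain ⟨k, h1, h2, b, h3⟩ := ev_inl (mem_filter.1 hm).2.1
        obtain ⟨k', h1', h2', b', h3'⟩ := ev_inl (mem_filter.1 hm).2.2
        refine ⟨((k, b), (k', b')), ?_, ⟨h1, h2, h1', h2'⟩, h3, h3'⟩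
        rw [mem_product, hI, mem_product, mem_product, mem_Ico, mem_Ico]
        exact ⟨⟨⟨h1.le, h2⟩, mem_univ _⟩, ⟨h1'.le, h2'⟩, mem_univ _⟩) (by
        rintro ⟨⟨k, b⟩, ⟨k', b'⟩⟩ _ S' ⟨m0, hm0⟩ hP
        obtain ⟨⟨h1, h2, h1', h2'⟩, _⟩ := hP m0 hm0
        simp only at h1 h2 h1' h2'
        refine two_pp U S' h1 h2 h1' h2' ?_ fun m hm => (hP m hm).2
        intro hkk heq
        subst hkk
        apply hjX
        rw [mem_union, mem_XK, mem_XK]
        cases b <;> cases b' <;> simp only [Bool.false_eq_true, if_false, if_true] at heq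
        · exact absurd (by linear_combination heq) hne
        · exact Or.inl ⟨hj, k, h1, h2, by linear_combination -heq⟩
        · exact Or.inr ⟨hj, k, h1, h2, by linear_combination heq⟩
        · exact absurd (by linear_combination heq) hne)
    rw [hIc] at key
    calc _ ≤ _ := key
      _ = 16 * Q ^ 2 * n ^ (Q - 3) := by ring
  · intro j _
    refine claim1 U hQ (Sum.inl x) ?_ _ fun m hm => (mem_filter.1 hm).2.1
    unfold All
    exact mem_union_left _ (mem_image_of_mem _ (mem_univ x))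

lemma claim3_pc (hQ : 4 ≤ Q) (hn : 1 ≤ n) (hU : FixOk n Q U) (x w : ZMod n) :
    ∑ j ∈ Blocks n Q, ((univ.filter fun m : Fin (Q - 1) → ZMod n =>
      mult n Q j (ext n Q U j m) (Sum.inl x) ≠ 0 ∧
        mult n Q j (ext n Q U j m) (Sum.inr (cl w)) ≠ 0).card) ≤
          (16 * Q ^ 2 + 32 * Q) * n ^ (Q - 2) := by
  classical
  refine finish hQ hn ((univ : Finset (Bool × Bool)).biUnion fun p =>
    XL n Q U x (if p.2 then 1 - w else w) 1 p.1 ∪ XR n Q U x (if p.2 then 1 - w else w) 1 p.1)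
    ?_ _ _ ?_ ?_
  · refine (card_biUnion_le_card_mul _ _ 2 fun p _ => ?_).trans (by decide)
    have h1 := card_union_le (XL n Q U x (if p.2 then 1 - w else w) 1 p.1)
      (XR n Q U x (if p.2 then 1 - w else w) 1 p.1)
    have h2 := XL_card hQ hU x (if p.2 then 1 - w else w) 1 p.1
    have h3 := XR_card hQ hU x (if p.2 then 1 - w else w) 1 p.1
    omega
  · intro j hj hjX
    set I := Ico (j * Q) ((j + 1) * Q) ×ˢ (univ : Finset Bool) with hI
    have hIc : (I ×ˢ I).card = Q * 2 * (Q * 2) := by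
      rw [card_product, hI, card_product, card_I]
      rfl
    have key := cover (I ×ˢ I) (univ.filter fun m : Fin (Q - 1) → ZMod n =>
      mult n Q j (ext n Q U j m) (Sum.inl x) ≠ 0 ∧
        mult n Q j (ext n Q U j m) (Sum.inr (cl w)) ≠ 0)
      (fun i m => (j * Q < i.1.1 ∧ i.1.1 < (j + 1) * Q ∧ j * Q ≤ i.2.1 ∧ i.2.1 < (j + 1) * Q) ∧
        PEv x i.1.1 i.1.2 (ext n Q U j m) ∧
        CEv (if i.2.2 then 1 - w else w) i.2.1 (ext n Q U j m))
      (4 * n ^ (Q - 3)) (by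
        intro m hm
        obtain ⟨k, h1, h2, b, h3⟩ := ev_inl (mem_filter.1 hm).2.1
        obtain ⟨k', h1', h2', b', h3'⟩ := ev_inr (mem_filter.1 hm).2.2
        refine ⟨((k, b), (k', b')), ?_, ⟨h1, h2, h1', h2'⟩, h3, h3'⟩
        rw [mem_product, hI, mem_product, mem_product, mem_Ico, mem_Ico]
        exact ⟨⟨⟨h1.le, h2⟩, mem_univ _⟩, ⟨h1', h2'⟩, mem_univ _⟩) (by
        rintro ⟨⟨k, b⟩, ⟨l, b'⟩⟩ _ S' ⟨m0, hm0⟩ hP
        obtain ⟨⟨h1, h2, h1', h2'⟩, _⟩ := hP m0 hm0
        simp only at h1 h2 h1' h2'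
        refine two_pc U S' hQ h1 h2 h1' h2' ?_ ?_ fun m hm => (hP m hm).2
        · intro hl hkl heq
          apply hjX
          refine mem_biUnion.2 ⟨(b, b'), mem_univ _, mem_union_left _ ?_⟩
          rw [mem_XL]
          refine ⟨hj, ?_⟩
          have e : j * Q + 1 = k := by omega
          rw [e]
          exact heq
        · intro hl hkl heq
          apply hjX
          refine mem_biUnion.2 ⟨(b, b'), mem_univ _, mem_union_right _ ?_⟩
          rw [mem_XR]
          exact ⟨hj, k, by omega, heq⟩)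
    rw [hIc] at key
    calc _ ≤ _ := key
      _ = 16 * Q ^ 2 * n ^ (Q - 3) := by ring
  · intro j _
    refine claim1 U hQ (Sum.inl x) ?_ _ fun m hm => (mem_filter.1 hm).2.1
    unfold All
    exact mem_union_left _ (mem_image_of_mem _ (mem_univ x))

lemma mem_all_inr {c : Sym2 (ZMod n)} (h : (Sum.inr c : Elt n) ∈ All n) :
    ∃ w, ClOk w ∧ c = cl w := by
  unfold All at h
  rcases mem_union.1 h with h | h
  · obtain ⟨x, _, hx⟩ := mem_image.1 h
    exact absurd hx (by simp)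
  · obtain ⟨w, hw, hw'⟩ := mem_image.1 h
    exact ⟨w, (mem_filter.1 hw).2, (Sum.inr_injective hw').symm⟩

lemma all_inr {w : ZMod n} (h : ClOk w) : (Sum.inr (cl w) : Elt n) ∈ All n := by
  unfold All
  exact mem_union_right _ (mem_image.2 ⟨w, mem_filter.2 ⟨mem_univ _, h⟩, rfl⟩)

lemma claim3_cc (hQ : 4 ≤ Q) (hn : 1 ≤ n) {w w' : ZMod n} (hw : ClOk w)
    (hne : cl w ≠ cl w') :
    ∑ j ∈ Blocks n Q, ((univ.filter fun m : Fin (Q - 1) → ZMod n =>
      mult n Q j (ext n Q U j m) (Sum.inr (cl w)) ≠ 0 ∧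
        mult n Q j (ext n Q U j m) (Sum.inr (cl w')) ≠ 0).card) ≤
          (16 * Q ^ 2 + 32 * Q) * n ^ (Q - 2) := by
  refine finish hQ hn ∅ (by simp) _ _ ?_ ?_
  · intro j hj _
    set I := Ico (j * Q) ((j + 1) * Q) ×ˢ (univ : Finset Bool) with hI
    have hIc : (I ×ˢ I).card = Q * 2 * (Q * 2) := by
      rw [card_product, hI, card_product, card_I]
      rfl
    have key := cover (I ×ˢ I) (univ.filter fun m : Fin (Q - 1) → ZMod n =>
      mult n Q j (ext n Q U j m) (Sum.inr (cl w)) ≠ 0 ∧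
        mult n Q j (ext n Q U j m) (Sum.inr (cl w')) ≠ 0)
      (fun i m => (j * Q ≤ i.1.1 ∧ i.1.1 < (j + 1) * Q ∧ j * Q ≤ i.2.1 ∧ i.2.1 < (j + 1) * Q) ∧
        CEv (if i.1.2 then 1 - w else w) i.1.1 (ext n Q U j m) ∧
        CEv (if i.2.2 then 1 - w' else w') i.2.1 (ext n Q U j m))
      (4 * n ^ (Q - 3)) (by
        intro m hm
        obtain ⟨k, h1, h2, b, h3⟩ := ev_inr (mem_filter.1 hm).2.1
        obtain ⟨k', h1', h2', b', h3'⟩ := ev_inr (mem_filter.1 hm).2.2
        refine ⟨((k, b), (k', b')), ?_, ⟨h1, h2, h1', h2'⟩, h3, h3'⟩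
        rw [mem_product, hI, mem_product, mem_product, mem_Ico, mem_Ico]
        exact ⟨⟨⟨h1, h2⟩, mem_univ _⟩, ⟨h1', h2'⟩, mem_univ _⟩) (by
        rintro ⟨⟨l, b⟩, ⟨l', b'⟩⟩ _ S' ⟨m0, hm0⟩ hP
        obtain ⟨⟨h1, h2, h1', h2'⟩, h3, h4⟩ := hP m0 hm0
        simp only at h1 h2 h1' h2' h3 h4
        rcases lt_trichotomy l l' with h | h | h
        · exact two_cc U S' hQ h1 h h2' fun m hm => (hP m hm).2
        · exfalso
          subst h
          apply hne
          unfold CEv at h3 h4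
          have e1 : cl (if b then 1 - w else w) = cl w := by
            cases b
            · simp
            · simp [cl_symm]
          have e2 : cl (if b' then 1 - w' else w') = cl w' := by
            cases b'
            · simp
            · simp [cl_symm]
          rw [← e1, ← e2, ← h3, ← h4]
        · exact two_cc U S' hQ h1' h h2 fun m hm => ⟨(hP m hm).2.2, (hP m hm).2.1⟩)
    rw [hIc] at key
    calc _ ≤ _ := key
      _ = 16 * Q ^ 2 * n ^ (Q - 3) := by ring
  · intro j _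
    exact claim1 U hQ (Sum.inr (cl w)) (all_inr hw) _ fun m hm => (mem_filter.1 hm).2.1

lemma claim4_p (hQ : 4 ≤ Q) (hn : 1 ≤ n) (hU : FixOk n Q U)
    (hk : ∀ j ∈ Blocks n Q, ∀ k, j * Q < k → k < (j + 1) * Q → (k : ZMod n) ≠ 0) (x : ZMod n) :
    ∑ j ∈ Blocks n Q, ((univ.filter fun m : Fin (Q - 1) → ZMod n =>
      mult n Q j (ext n Q U j m) (Sum.inl x) ≠ 0 ∧
        ∃ y', 2 ≤ mult n Q j (ext n Q U j m) y').card) ≤
          (64 * Q ^ 3 + 32 * Q) * n ^ (Q - 2) := by
  classical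
  refine finish hQ hn ((univ : Finset Bool).biUnion fun b => XL n Q U x 1 2 b ∪ XR n Q U x 1 2 b)
    ?_ _ _ ?_ ?_
  · refine (card_biUnion_le_card_mul _ _ 2 fun p _ => ?_).trans (by decide)
    have h1 := card_union_le (XL n Q U x 1 2 p) (XR n Q U x 1 2 p)
    have h2 := XL_card hQ hU x 1 2 p
    have h3 := XR_card hQ hU x 1 2 p
    omega
  · intro j hj hjX
    set I := Ico (j * Q) ((j + 1) * Q) with hI
    set I1 := I ×ˢ (univ : Finset Bool) with hI1
    set I2 := I ×ˢ (I ×ˢ (univ : Finset (Bool × Bool × Bool))) with hI2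
    have hIc : (I1 ×ˢ I2).card = Q * 2 * (Q * (Q * 8)) := by
      rw [card_product, hI1, hI2, card_product, card_product, card_product, hI, card_I]
      rfl
    have key := cover (I1 ×ˢ I2) (univ.filter fun m : Fin (Q - 1) → ZMod n =>
      mult n Q j (ext n Q U j m) (Sum.inl x) ≠ 0 ∧
        ∃ y', 2 ≤ mult n Q j (ext n Q U j m) y')
      (fun i m => (j * Q < i.1.1 ∧ i.1.1 < (j + 1) * Q ∧ PEv x i.1.1 i.1.2 (ext n Q U j m)) ∧
        if i.2.2.2.1 then j * Q < i.2.1 ∧ i.2.1 < i.2.2.1 ∧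
          i.2.2.1 < (j + 1) * Q ∧ DEv i.2.1 i.2.2.1 i.2.2.2.2.1 i.2.2.2.2.2 (ext n Q U j m) else
          j * Q ≤ i.2.1 ∧ i.2.1 < i.2.2.1 ∧ i.2.2.1 < (j + 1) * Q ∧
            GEv i.2.1 i.2.2.1 i.2.2.2.2.1 (ext n Q U j m))
      (4 * n ^ (Q - 3)) (by
        intro m hm
        obtain ⟨k, h1, h2, b, h3⟩ := ev_inl (mem_filter.1 hm).2.1
        rcases coin (hk j hj) (mem_filter.1 hm).2.2 with
          ⟨a, b', k1, k2, k3, s, t, k4⟩ | ⟨l, l', k1, k2, k3, s, k4⟩
        · refine ⟨((k, b), (a, b', true, s, t)), ?_, ⟨h1, h2, h3⟩, ?_⟩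
          · rw [mem_product, hI1, hI2, mem_product, mem_product, mem_product, hI, mem_Ico,
              mem_Ico, mem_Ico]
            exact ⟨⟨⟨h1.le, h2⟩, mem_univ _⟩, ⟨k1.le, by simp only; omega⟩,
              ⟨by simp only; omega, k3⟩, mem_univ _⟩
          · simp only [if_true]
            exact ⟨k1, k2, k3, k4⟩
        · refine ⟨((k, b), (l, l', false, s, true)), ?_, ⟨h1, h2, h3⟩, ?_⟩
          · rw [mem_product, hI1, hI2, mem_product, mem_product, mem_product, hI, mem_Ico,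
              mem_Ico, mem_Ico]
            exact ⟨⟨⟨h1.le, h2⟩, mem_univ _⟩, ⟨k1, by simp only; omega⟩,
              ⟨by simp only; omega, k3⟩, mem_univ _⟩
          · simp only [Bool.false_eq_true, if_false]
            exact ⟨k1, k2, k3, k4⟩) (by
        rintro ⟨⟨k, b⟩, ⟨a, c, f, s, t⟩⟩ _ S' ⟨m0, hm0⟩ hP
        cases f with
        | true =>
          simp only [if_true] at hP
          obtain ⟨⟨h1, h2, _⟩, k1, k2, k3, _⟩ := hP m0 hm0
          exact two_pd U S' h1 h2 k1 (by omega) (by omega) k3 (by omega)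
            fun m hm => ⟨(hP m hm).1.2.2, (hP m hm).2.2.2.2⟩
        | false =>
          simp only [Bool.false_eq_true, if_false] at hP
          obtain ⟨⟨h1, h2, _⟩, k1, k2, k3, _⟩ := hP m0 hm0
          refine two_pg U S' hQ h1 h2 k1 k2 k3 ?_ ?_
            fun m hm => ⟨(hP m hm).1.2.2, (hP m hm).2.2.2.2⟩
          · intro hl hkl heq
            apply hjX
            refine mem_biUnion.2 ⟨b, mem_univ _, mem_union_left _ ?_⟩
            rw [mem_XL]
            refine ⟨hj, ?_⟩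
            have e : j * Q + 2 = k := by omega
            rw [e]
            exact heq
          · intro hl hkl heq
            apply hjX
            refine mem_biUnion.2 ⟨b, mem_univ _, mem_union_right _ ?_⟩
            rw [mem_XR]
            exact ⟨hj, k, hl, heq⟩)
    rw [hIc] at key
    calc _ ≤ _ := key
      _ = 64 * Q ^ 3 * n ^ (Q - 3) := by ring
  · intro j _
    refine claim1 U hQ (Sum.inl x) ?_ _ fun m hm => (mem_filter.1 hm).2.1
    unfold All
    exact mem_union_left _ (mem_image_of_mem _ (mem_univ x))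

lemma claim4_c (hQ : 4 ≤ Q) (hn : 1 ≤ n)
    (hk : ∀ j ∈ Blocks n Q, ∀ k, j * Q < k → k < (j + 1) * Q → (k : ZMod n) ≠ 0) {w : ZMod n}
    (hw : ClOk w) :
    ∑ j ∈ Blocks n Q, ((univ.filter fun m : Fin (Q - 1) → ZMod n =>
      mult n Q j (ext n Q U j m) (Sum.inr (cl w)) ≠ 0 ∧
        ∃ y', 2 ≤ mult n Q j (ext n Q U j m) y').card) ≤
          (64 * Q ^ 3 + 32 * Q) * n ^ (Q - 2) := by
  classical
  refine finish hQ hn ((univ : Finset Bool).biUnion fun b =>
    XK n Q ((if b then 1 - w else w) - 1) ∪ XK n Q (-(if b then 1 - w else w))) ?_ _ _ ?_ ?_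
  · refine (card_biUnion_le_card_mul _ _ 2 fun p _ => ?_).trans (by decide)
    have h1 := card_union_le (XK n Q ((if p then 1 - w else w) - 1))
      (XK n Q (-(if p then 1 - w else w)))
    have h2 := XK_card hQ hn ((if p then 1 - w else w) - 1)
    have h3 := XK_card hQ hn (-(if p then 1 - w else w))
    omega
  · intro j hj hjX
    set I := Ico (j * Q) ((j + 1) * Q) with hI
    set I1 := I ×ˢ (univ : Finset Bool) with hI1
    set I2 := I ×ˢ (I ×ˢ (univ : Finset (Bool × Bool × Bool))) with hI2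
    have hIc : (I1 ×ˢ I2).card = Q * 2 * (Q * (Q * 8)) := by
      rw [card_product, hI1, hI2, card_product, card_product, card_product, hI, card_I]
      rfl
    have key := cover (I1 ×ˢ I2) (univ.filter fun m : Fin (Q - 1) → ZMod n =>
      mult n Q j (ext n Q U j m) (Sum.inr (cl w)) ≠ 0 ∧
        ∃ y', 2 ≤ mult n Q j (ext n Q U j m) y')
      (fun i m => (j * Q ≤ i.1.1 ∧ i.1.1 < (j + 1) * Q ∧
          CEv (if i.1.2 then 1 - w else w) i.1.1 (ext n Q U j m)) ∧
        if i.2.2.2.1 then j * Q < i.2.1 ∧ i.2.1 < i.2.2.1 ∧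
          i.2.2.1 < (j + 1) * Q ∧ DEv i.2.1 i.2.2.1 i.2.2.2.2.1 i.2.2.2.2.2 (ext n Q U j m) else
          j * Q ≤ i.2.1 ∧ i.2.1 < i.2.2.1 ∧ i.2.2.1 < (j + 1) * Q ∧
            GEv i.2.1 i.2.2.1 i.2.2.2.2.1 (ext n Q U j m))
      (4 * n ^ (Q - 3)) (by
        intro m hm
        obtain ⟨k, h1, h2, b, h3⟩ := ev_inr (mem_filter.1 hm).2.1
        rcases coin (hk j hj) (mem_filter.1 hm).2.2 with
          ⟨a, b', k1, k2, k3, s, t, k4⟩ | ⟨l, l', k1, k2, k3, s, k4⟩
        · refine ⟨((k, b), (a, b', true, s, t)), ?_, ⟨h1, h2, h3⟩, ?_⟩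
          · rw [mem_product, hI1, hI2, mem_product, mem_product, mem_product, hI, mem_Ico,
              mem_Ico, mem_Ico]
            exact ⟨⟨⟨h1, h2⟩, mem_univ _⟩, ⟨k1.le, by simp only; omega⟩,
              ⟨by simp only; omega, k3⟩, mem_univ _⟩
          · simp only [if_true]
            exact ⟨k1, k2, k3, k4⟩
        · refine ⟨((k, b), (l, l', false, s, true)), ?_, ⟨h1, h2, h3⟩, ?_⟩
          · rw [mem_product, hI1, hI2, mem_product, mem_product, mem_product, hI, mem_Ico,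
              mem_Ico, mem_Ico]
            exact ⟨⟨⟨h1, h2⟩, mem_univ _⟩, ⟨k1, by simp only; omega⟩,
              ⟨by simp only; omega, k3⟩, mem_univ _⟩
          · simp only [Bool.false_eq_true, if_false]
            exact ⟨k1, k2, k3, k4⟩) (by
        rintro ⟨⟨l0, b⟩, ⟨a, c, f, s, t⟩⟩ _ S' ⟨m0, hm0⟩ hP
        cases f with
        | true =>
          simp only [if_true] at hP
          obtain ⟨⟨h1, h2, _⟩, k1, k2, k3, _⟩ := hP m0 hm0
          refine two_cd U S' hQ h1 h2 k1 k2 k3 ?_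
            fun m hm => ⟨(hP m hm).1.2.2, (hP m hm).2.2.2.2⟩
          intro ha hc heq
          have hw0 : (if b then 1 - w else w) ≠ 0 := by
            cases b
            · simpa using hw.1
            · simp only [if_true]
              intro h
              exact hw.2.1 (by linear_combination -h)
          have hw1 : (if b then 1 - w else w) ≠ 1 := by
            cases b
            · simpa using hw.2.1
            · simp only [if_true]
              intro h
              exact hw.1 (by linear_combination -h)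
          have hcc : (c : ZMod n) = (a : ZMod n) + 1 := by
            rw [hc, ha]
            push_cast
            ring
          rw [hcc] at heq
          have hx : ∀ z : ZMod n, (a : ZMod n) = z → j ∈ XK n Q z := by
            intro z hz
            rw [mem_XK]
            exact ⟨hj, a, k1, by omega, hz⟩
          cases s <;> cases t <;> simp only [Bool.false_eq_true, if_false, if_true] at heq
          · exact hw0 (by linear_combination heq)
          · apply hjX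
            refine mem_biUnion.2 ⟨b, mem_univ _, mem_union_left _ (hx _ ?_)⟩
            linear_combination -heq
          · apply hjX
            refine mem_biUnion.2 ⟨b, mem_univ _, mem_union_right _ (hx _ ?_)⟩
            linear_combination heq
          · exact hw1 (by linear_combination heq)
        | false =>
          simp only [Bool.false_eq_true, if_false] at hP
          obtain ⟨⟨h1, h2, _⟩, k1, k2, k3, _⟩ := hP m0 hm0
          exact two_cg U S' hQ h1 h2 k1 k2 k3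
            fun m hm => ⟨(hP m hm).1.2.2, (hP m hm).2.2.2.2⟩)
    rw [hIc] at key
    calc _ ≤ _ := key
      _ = 64 * Q ^ 3 * n ^ (Q - 3) := by ring
  · intro j _
    exact claim1 U hQ (Sum.inr (cl w)) (all_inr hw) _ fun m hm => (mem_filter.1 hm).2.1

end CountAux

open CountAux

theorem stCount : StCount := by
  intro Q hQ
  refine ⟨64 * Q ^ 3 + 16 * Q ^ 2 + 36 * Q, ?_⟩
  intro n hn _ U hU
  have hn1 : 1 ≤ n := by omega
  have hk : ∀ j ∈ Blocks n Q, ∀ k, j * Q < k → k < (j + 1) * Q → (k : ZMod n) ≠ 0 := by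
    intro j hj k h1 h2 h3
    have b1 := block_facts hQ hj
    have b2 := T1_lt hn1
    have := cast_inj (n := n) (k := k) (k' := 0) (by omega) (by omega) (by simpa using h3)
    omega
  refine ⟨?_, ?_, ?_, ?_⟩
  · intro j _ y hy
    refine (claim1 U hQ y hy _ fun m hm => (mem_filter.1 hm).2).trans ?_
    exact Nat.mul_le_mul_right _ (by omega)
  · intro j hj
    refine (claim2 U hQ (hk j hj) _ fun m hm => (mem_filter.1 hm).2).trans ?_
    exact Nat.mul_le_mul_right _ (by omega)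
  · intro y hy y' hy' hne
    have hC : (16 * Q ^ 2 + 32 * Q) * n ^ (Q - 2) ≤
        (64 * Q ^ 3 + 16 * Q ^ 2 + 36 * Q) * n ^ (Q - 2) := Nat.mul_le_mul_right _ (by omega)
    rcases y with x | c <;> rcases y' with x' | c'
    · exact (claim3_pp U hQ hn1 (fun h => hne (by rw [h]))).trans hC
    · obtain ⟨w, hw, rfl⟩ := mem_all_inr hy'
      exact (claim3_pc U hQ hn1 hU x w).trans hC
    · obtain ⟨w, hw, rfl⟩ := mem_all_inr hy
      have h := (claim3_pc U hQ hn1 hU x' w).trans hC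
      refine le_trans (le_of_eq ?_) h
      refine sum_congr rfl fun j _ => ?_
      congr 1
      ext m
      rw [mem_filter, mem_filter, and_comm (a := mult n Q j (ext n Q U j m) (Sum.inr (cl w)) ≠ 0)]
    · obtain ⟨w, hw, rfl⟩ := mem_all_inr hy
      obtain ⟨w', hw', rfl⟩ := mem_all_inr hy'
      exact (claim3_cc U hQ hn1 hw (fun h => hne (by rw [h]))).trans hC
  · intro y hy
    have hC : (64 * Q ^ 3 + 32 * Q) * n ^ (Q - 2) ≤
        (64 * Q ^ 3 + 16 * Q ^ 2 + 36 * Q) * n ^ (Q - 2) := Nat.mul_le_mul_right _ (by omega)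
    rcases y with x | c
    · exact (claim4_p U hQ hn1 hU hk x).trans hC
    · obtain ⟨w, hw, rfl⟩ := mem_all_inr hy
      exact (claim4_c U hQ hn1 hk hw).trans hC

end Pool.Agent.DNA
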