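import Pool.Agent.Lib.MP_845d9b_co.Abs.Stmts

/-!
# Covering the rest with the flexible elements (module StCover, helper18)
-/

set_option autoImplicit false

namespace Pool.Agent.DNA.Cover

open Finset

variable {n : ℕ}

/-! ### Basic facts -/

lemma cl_eq_iff (w w' : ZMod n) : cl w = cl w' ↔ w = w' ∨ w = 1 - w' := by
  unfold cl
  rw [Sym2.eq_iff]
  constructor
  · rintro (⟨h, -⟩ | ⟨h, -⟩)
    · exact Or.inl h
    · exact Or.inr h
  · rintro (h | h)
    · subst h
      exact Or.inl ⟨rfl, rfl⟩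
    · subst h
      exact Or.inr ⟨rfl, by ring⟩

lemma cl_sub_rev (q m : ZMod n) : cl (q - m) = cl (m - (q - 1)) := by
  rw [cl_eq_iff]
  right
  ring

lemma clOk_compl {w : ZMod n} (h : ClOk w) : ClOk (1 - w) := by
  obtain ⟨h0, h1, h2⟩ := h
  refine ⟨?_, ?_, ?_⟩
  · intro h
    exact h1 (by linear_combination -h)
  · intro h
    exact h0 (by linear_combination -h)
  · intro h
    exact h2 (by linear_combination -h)

lemma inl_mem_all [NeZero n] (x : ZMod n) : (Sum.inl x : Elt n) ∈ All n := by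
  unfold All
  rw [mem_union]
  left
  exact mem_image_of_mem _ (mem_univ _)

lemma inr_mem_all [NeZero n] {w : ZMod n} : (Sum.inr (cl w) : Elt n) ∈ All n ↔ ClOk w := by
  unfold All
  rw [mem_union]
  constructor
  · rintro (h | h)
    · obtain ⟨y, _, hy⟩ := mem_image.1 h
      exact absurd hy (by simp)
    · obtain ⟨w', hw', h'⟩ := mem_image.1 h
      have h1 : cl w' = cl w := by
        have := Sum.inr.inj h'
        exact this
      have h2 : ClOk w' := (mem_filter.1 hw').2
      rcases (cl_eq_iff w' w).1 h1 with rfl | h3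
      · exact h2
      · have h4 := clOk_compl h2
        rw [h3] at h4
        have h5 : 1 - (1 - w) = w := by ring
        rwa [h5] at h4
  · intro h
    right
    exact mem_image.2 ⟨w, mem_filter.2 ⟨mem_univ _, h⟩, rfl⟩

lemma mem_all_inr [NeZero n] {c : Sym2 (ZMod n)} (h : (Sum.inr c : Elt n) ∈ All n) :
    ∃ w : ZMod n, ClOk w ∧ cl w = c := by
  unfold All at h
  rw [mem_union] at h
  rcases h with h | h
  · obtain ⟨y, _, hy⟩ := mem_image.1 h
    exact absurd hy (by simp)
  · obtain ⟨w', hw', h'⟩ := mem_image.1 h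
    exact ⟨w', (mem_filter.1 hw').2, Sum.inr.inj h'⟩

lemma cast_ne_zero {k : ℕ} (h1 : 1 ≤ k) (h2 : k < n) : ((k : ℕ) : ZMod n) ≠ 0 := by
  intro h
  rw [ZMod.natCast_eq_zero_iff] at h
  have := Nat.le_of_dvd (by omega) h
  omega

lemma cast_inj {k k' : ℕ} (h1 : k < n) (h2 : k' < n) (h : (k : ZMod n) = (k' : ZMod n)) :
    k = k' := by
  have h3 := (ZMod.natCast_eq_natCast_iff' k k' n).1 h
  rwa [Nat.mod_eq_of_lt h1, Nat.mod_eq_of_lt h2] at h3

lemma T1_lt [NeZero n] : T1 n < n := by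
  unfold T1
  have := NeZero.pos n
  omega

/-- at most two solutions of `m + m = c` -/
lemma two_card [NeZero n] (c : ZMod n) : (univ.filter fun m : ZMod n => m + m = c).card ≤ 2 := by
  classical
  by_cases hne : (univ.filter fun m : ZMod n => m + m = c).Nonempty
  · obtain ⟨m0, hm0⟩ := hne
    have h0 : m0 + m0 = c := (mem_filter.1 hm0).2
    have : (univ.filter fun m : ZMod n => m + m = c).card ≤ ({0, n / 2} : Finset ℕ).card := by
      refine card_le_card_of_injOn (fun m => (m - m0).val) ?_ ?_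
      · intro m hm
        have h1 : m + m = c := (mem_filter.1 hm).2
        have h2 : (m - m0) + (m - m0) = 0 := by linear_combination h1 - h0
        have h3 : (((m - m0).val + (m - m0).val : ℕ) : ZMod n) = 0 := by
          push_cast
          rw [ZMod.natCast_zmod_val]
          exact h2
        rw [ZMod.natCast_eq_zero_iff] at h3
        have h4 := ZMod.val_lt (m - m0)
        obtain ⟨t, ht⟩ := h3
        have h5 : t < 2 := by
          by_contra h
          have : n * 2 ≤ n * t := Nat.mul_le_mul_left n (by omega)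
          omega
        simp only [coe_insert, coe_singleton, Set.mem_insert_iff, Set.mem_singleton_iff]
        interval_cases t
        · left
          omega
        · right
          omega
      · intro m _ m' _ h
        have h1 : m - m0 = m' - m0 := ZMod.val_injective n h
        exact sub_left_injective h1
    exact this.trans (card_le_two)
  · rw [not_nonempty_iff_eq_empty] at hne
    rw [hne]
    simp

lemma badPt_card [NeZero n] (B : Finset (Elt n)) (c : ZMod n) :
    (univ.filter fun m : ZMod n => (Sum.inl (m + c) : Elt n) ∈ B).card ≤ B.card := by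
  refine card_le_card_of_injOn (fun m => Sum.inl (m + c)) ?_ ?_
  · intro m hm
    exact (mem_filter.1 hm).2
  · intro m _ m' _ h
    exact add_right_cancel (Sum.inl.inj h)

lemma badCl_card [NeZero n] (B : Finset (Elt n)) (p : ZMod n) :
    (univ.filter fun m : ZMod n => (Sum.inr (cl (m - p)) : Elt n) ∈ B).card ≤ 2 * B.card := by
  classical
  set s := univ.filter fun m : ZMod n => (Sum.inr (cl (m - p)) : Elt n) ∈ B with hs
  have h1 : s.card ≤ 2 * (s.image fun m : ZMod n => (Sum.inr (cl (m - p)) : Elt n)).card := by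
    refine card_le_mul_card_image s 2 ?_
    intro e he
    obtain ⟨m0, hm0, rfl⟩ := mem_image.1 he
    have : (s.filter fun m : ZMod n => (Sum.inr (cl (m - p)) : Elt n) = Sum.inr (cl (m0 - p))) ⊆
        {m0, 1 + p + p - m0} := by
      intro m hm
      have h2 : cl (m - p) = cl (m0 - p) := Sum.inr.inj (mem_filter.1 hm).2
      rw [mem_insert, mem_singleton]
      rcases (cl_eq_iff _ _).1 h2 with h3 | h3
      · left
        exact sub_left_injective h3
      · right
        linear_combination h3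
    exact (card_le_card this).trans card_le_two
  have h2 : (s.image fun m : ZMod n => (Sum.inr (cl (m - p)) : Elt n)) ⊆ B := by
    intro e he
    obtain ⟨m, hm, rfl⟩ := mem_image.1 he
    exact (mem_filter.1 hm).2
  have h3 := card_le_card h2
  omega

/-! ### Parities -/

lemma par_odd (h : ¬ Even n) (x : ZMod n) : par x = 0 := by
  unfold par
  rw [if_neg h]

lemma par_even [NeZero n] (h : Even n) (x : ZMod n) :
    par x = ZMod.castHom (even_iff_two_dvd.1 h) (ZMod 2) x := by
  unfold par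
  rw [if_pos h, ZMod.castHom_apply, ZMod.natCast_val]

lemma par_add [NeZero n] (x y : ZMod n) : par (x + y) = par x + par y := by
  by_cases h : Even n
  · rw [par_even h, par_even h, par_even h, map_add]
  · rw [par_odd h, par_odd h, par_odd h, add_zero]

lemma par_sub [NeZero n] (x y : ZMod n) : par (x - y) = par x - par y := by
  by_cases h : Even n
  · rw [par_even h, par_even h, par_even h, map_sub]
  · rw [par_odd h, par_odd h, par_odd h, sub_zero]

lemma par_natCast [NeZero n] (k : ℕ) : par (k : ZMod n) = parT n k := by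
  by_cases h : Even n
  · rw [par_even h, map_natCast]
    unfold parT
    rw [if_pos h]
  · rw [par_odd h]
    unfold parT
    rw [if_neg h]

lemma par_zero [NeZero n] : par (0 : ZMod n) = 0 := by
  have := par_sub (0 : ZMod n) 0
  rw [sub_zero, sub_self] at this
  exact this

/-! ### The list of elements of a segment -/

/-- elements of the segment `a, a+1, ..., a+L+1` with inner times `a+1, ..., a+L` -/
def evl (f : ℕ → ZMod n) : ℕ → ℕ → List (Elt n)
  | a, 0 => [Sum.inr (cl (f (a + 1) - f a))]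
  | a, L + 1 => Sum.inl (f (a + 1)) :: Sum.inl (f (a + 1) - ((a + 1 : ℕ) : ZMod n)) ::
      Sum.inr (cl (f (a + 1) - f a)) :: evl f (a + 1) L

lemma evl_succ (f : ℕ → ZMod n) (a L : ℕ) : evl f a (L + 1) = Sum.inl (f (a + 1)) ::
    Sum.inl (f (a + 1) - ((a + 1 : ℕ) : ZMod n)) ::
      Sum.inr (cl (f (a + 1) - f a)) :: evl f (a + 1) L := rfl

lemma evl_congr {f g : ℕ → ZMod n} : ∀ (L a : ℕ), (∀ k, a ≤ k → k ≤ a + L + 1 → f k = g k) →
    evl f a L = evl g a L
  | 0, a, h => by
    unfold evl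
    rw [h (a + 1) (by omega) (by omega), h a (by omega) (by omega)]
  | L + 1, a, h => by
    unfold evl
    rw [h (a + 1) (by omega) (by omega), h a (by omega) (by omega),
      evl_congr L (a + 1) (fun k hk hk' => h k (by omega) (by omega))]

lemma evl_length (f : ℕ → ZMod n) : ∀ (L a : ℕ), (evl f a L).length = 3 * L + 1
  | 0, a => by simp [evl]
  | L + 1, a => by
    simp only [evl, List.length_cons, evl_length f L (a + 1)]
    ring

lemma evl_inr_mem (f : ℕ → ZMod n) : ∀ (L a k : ℕ), a ≤ k → k < a + L + 1 →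
    Sum.inr (cl (f (k + 1) - f k)) ∈ evl f a L
  | 0, a, k, h1, h2 => by
    have : k = a := by omega
    subst this
    simp [evl]
  | L + 1, a, k, h1, h2 => by
    unfold evl
    by_cases h : k = a
    · subst h
      simp
    · have := evl_inr_mem f L (a + 1) k (by omega) (by omega)
      simp [this]

lemma evl_toFinset (f : ℕ → ZMod n) : ∀ (L a : ℕ), (evl f a L).toFinset =
    ((Ioo a (a + L + 1)).biUnion fun k =>
      ({Sum.inl (f k), Sum.inl (f k - (k : ZMod n))} : Finset (Elt n))) ∪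
    (Ico a (a + L + 1)).image fun k => Sum.inr (cl (f (k + 1) - f k))
  | 0, a => by
    have h1 : Ioo a (a + 0 + 1) = ∅ := by
      ext x; simp
    have h2 : Ico a (a + 0 + 1) = {a} := by
      ext x; simp
    rw [h1, h2]
    simp [evl]
  | L + 1, a => by
    have h1 : Ioo a (a + (L + 1) + 1) = insert (a + 1) (Ioo (a + 1) (a + 1 + L + 1)) := by
      ext x; simp only [mem_insert, mem_Ioo]; omega
    have h2 : Ico a (a + (L + 1) + 1) = insert a (Ico (a + 1) (a + 1 + L + 1)) := by
      ext x; simp only [mem_insert, mem_Ico]; omega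
    rw [h1, h2, biUnion_insert, image_insert]
    unfold evl
    rw [List.toFinset_cons, List.toFinset_cons, List.toFinset_cons, evl_toFinset f L (a + 1)]
    ext y
    simp only [mem_insert, mem_union, mem_singleton]
    tauto

lemma foot_eq {Q j : ℕ} (hQ : 1 ≤ Q) (f : ℕ → ZMod n) :
    foot n Q j f = (evl f (j * Q) (Q - 1)).toFinset := by
  rw [evl_toFinset]
  unfold foot
  have : j * Q + (Q - 1) + 1 = (j + 1) * Q := by
    rw [Nat.add_mul, Nat.one_mul]; omega
  rw [this]

/-- the number of odd points among the two points of the value `v` at time `k` -/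
def cnt (k : ℕ) (v : ZMod n) : ℕ :=
  (if par v = 0 then 0 else 1) + (if par (v - (k : ZMod n)) = 0 then 0 else 1)

lemma evl_count1 (f : ℕ → ZMod n) : ∀ (L a : ℕ), (evl f a L).countP (fun y => kd y = 1) =
    ∑ k ∈ Ioo a (a + L + 1), cnt k (f k)
  | 0, a => by
    have h1 : Ioo a (a + 0 + 1) = ∅ := by
      ext x; simp
    rw [h1, sum_empty]
    simp [evl, kd]
  | L + 1, a => by
    have h1 : Ioo a (a + (L + 1) + 1) = insert (a + 1) (Ioo (a + 1) (a + 1 + L + 1)) := by
      ext x; simp only [mem_insert, mem_Ioo]; omega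
    rw [h1, sum_insert (by simp), ← evl_count1 f L (a + 1), evl_succ]
    unfold cnt
    rw [List.countP_cons, List.countP_cons, List.countP_cons]
    have e0 : ∀ v : ZMod n, (if (decide (kd (Sum.inl v : Elt n) = 1)) = true then 1 else 0) =
        (if par v = 0 then 0 else 1) := by
      intro v
      unfold kd
      rw [Sum.elim_inl]
      by_cases hv : par v = 0
      · rw [if_pos hv, if_pos hv]; simp
      · rw [if_neg hv, if_neg hv]; simp
    have e1 : ∀ c : Sym2 (ZMod n), (if (decide (kd (Sum.inr c : Elt n) = 1)) = true then 1 else 0) =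
        0 := by
      intro c
      unfold kd
      rw [Sum.elim_inr]
      simp
    rw [e0, e0, e1]
    omega

lemma evl_count2 (f : ℕ → ZMod n) : ∀ (L a : ℕ),
    (evl f a L).countP (fun y => kd y = 2) = L + 1
  | 0, a => by
    simp [evl, kd]
  | L + 1, a => by
    rw [evl_succ, List.countP_cons, List.countP_cons, List.countP_cons, evl_count2 f L (a + 1)]
    have e0 : ∀ v : ZMod n, (if (decide (kd (Sum.inl v : Elt n) = 2)) = true then 1 else 0) =
        0 := by
      intro v
      unfold kd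
      rw [Sum.elim_inl]
      by_cases hv : par v = 0
      · rw [if_pos hv]; simp
      · rw [if_neg hv]; simp
    have e1 : ∀ c : Sym2 (ZMod n), (if (decide (kd (Sum.inr c : Elt n) = 2)) = true then 1 else 0) =
        1 := by
      intro c
      unfold kd
      rw [Sum.elim_inr]
      simp
    rw [e0, e0, e1]

lemma kc_toFinset (l : List (Elt n)) (h : l.Nodup) (t : Fin 3) :
    kc l.toFinset t = l.countP (fun y => kd y = t) := by
  unfold kc
  rw [List.countP_eq_length_filter, ← List.toFinset_card_of_nodup (h.filter _),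
    List.toFinset_filter]
  congr 1
  ext y
  simp

lemma kc_total (Y : Finset (Elt n)) : kc Y 0 + kc Y 1 + kc Y 2 = Y.card := by
  have := card_eq_sum_card_fiberwise (f := kd (n := n)) (s := Y) (t := univ) (by simp)
  rw [this, Fin.sum_univ_three]
  rfl

lemma fill_nodup {Q j : ℕ} (hQ : 1 ≤ Q) {U f : ℕ → ZMod n} (h : IsFill n Q U j f) :
    (evl f (j * Q) (Q - 1)).Nodup := by
  have h1 := h.card
  rw [foot_eq hQ] at h1
  have h2 := evl_length f (Q - 1) (j * Q)
  rw [← List.dedup_eq_self]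
  rw [List.card_toFinset] at h1
  exact (List.dedup_sublist _).eq_of_length (by omega)

lemma fill_kc {Q j : ℕ} (hQ : 1 ≤ Q) {U f : ℕ → ZMod n} (h : IsFill n Q U j f) :
    kc (foot n Q j f) 2 = Q ∧ kc (foot n Q j f) 0 + kc (foot n Q j f) 1 = 2 * (Q - 1) ∧
    kc (foot n Q j f) 1 = ∑ k ∈ Ioo (j * Q) ((j + 1) * Q), cnt k (f k) := by
  have hn := fill_nodup hQ h
  have h2 : kc (foot n Q j f) 2 = Q := by
    rw [foot_eq hQ, kc_toFinset _ hn, evl_count2]
    omega
  have h3 := kc_total (foot n Q j f)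
  have h4 := h.card
  refine ⟨h2, by omega, ?_⟩
  rw [foot_eq hQ, kc_toFinset _ hn, evl_count1]
  have : j * Q + (Q - 1) + 1 = (j + 1) * Q := by
    rw [Nat.add_mul, Nat.one_mul]; omega
  rw [this]

lemma fill_of {Q j : ℕ} [NeZero n] (hQ : 1 ≤ Q) {U f : ℕ → ZMod n}
    (h1 : f (j * Q) = U (j * Q)) (h2 : f ((j + 1) * Q) = U ((j + 1) * Q))
    (h3 : (evl f (j * Q) (Q - 1)).Nodup) (h4 : ∀ y ∈ evl f (j * Q) (Q - 1), y ∈ All n) :
    IsFill n Q U j f := by
  refine ⟨h1, h2, ?_, ?_⟩
  · intro k hk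
    rw [mem_Ico] at hk
    rw [← inr_mem_all]
    apply h4
    apply evl_inr_mem
    · exact hk.1
    · have : j * Q + (Q - 1) + 1 = (j + 1) * Q := by
        rw [Nat.add_mul, Nat.one_mul]; omega
      rw [this]
      exact hk.2
  · rw [foot_eq hQ, List.toFinset_card_of_nodup h3, evl_length]
    omega

/-! ### Choosing one value -/

lemma badCl_card' [NeZero n] (B : Finset (Elt n)) (q : ZMod n) :
    (univ.filter fun m : ZMod n => (Sum.inr (cl (q - m)) : Elt n) ∈ B).card ≤ 2 * B.card := by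
  have h := badCl_card B (q - 1)
  simp only [cl_sub_rev q]
  exact h

lemma badPt_card0 [NeZero n] (B : Finset (Elt n)) :
    (univ.filter fun m : ZMod n => (Sum.inl m : Elt n) ∈ B).card ≤ B.card := by
  have h := badPt_card B 0
  simpa using h

lemma badPt_cards [NeZero n] (B : Finset (Elt n)) (c : ZMod n) :
    (univ.filter fun m : ZMod n => (Sum.inl (m - c) : Elt n) ∈ B).card ≤ B.card := by
  have h := badPt_card B (-c)
  simpa [sub_eq_add_neg] using h

lemma pick4 [NeZero n] {Q : ℕ} {c0 : ℝ} {Y : Finset (Elt n)} (hY : YOk n Q c0 Y) {k : ℕ}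
    (hk : k ∈ Icc 1 (T1 n)) (p q : ZMod n) (hpq : q - p ≠ 1) (z : ZMod n) (B : Finset (Elt n))
    (x0 : ZMod n) (hB : ((6 * B.card + 3 : ℕ) : ℝ) < c0 * n) :
    ∃ m : ZMod n, par m = par z ∧ m ≠ x0 ∧ m + m ≠ p + q ∧ Sum.inl m ∈ Y \ B ∧
      Sum.inl (m - (k : ZMod n)) ∈ Y \ B ∧ Sum.inr (cl (m - p)) ∈ Y \ B ∧
      Sum.inr (cl (q - m)) ∈ Y \ B := by
  classical
  by_contra hcon
  push Not at hcon
  have h1 := hY.n4 k hk p q hpq z
  set S := univ.filter fun m : ZMod n => par m = par z ∧ Sum.inl m ∈ Y ∧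
      Sum.inl (m - (k : ZMod n)) ∈ Y ∧ Sum.inr (cl (m - p)) ∈ Y ∧
      Sum.inr (cl (q - m)) ∈ Y with hS
  have h2 : S ⊆ ((univ.filter fun m : ZMod n => (Sum.inl m : Elt n) ∈ B) ∪
      (univ.filter fun m : ZMod n => (Sum.inl (m - (k : ZMod n)) : Elt n) ∈ B)) ∪
      ((univ.filter fun m : ZMod n => (Sum.inr (cl (m - p)) : Elt n) ∈ B) ∪
      (univ.filter fun m : ZMod n => (Sum.inr (cl (q - m)) : Elt n) ∈ B)) ∪
      ({x0} ∪ (univ.filter fun m : ZMod n => m + m = p + q)) := by
    intro m hm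
    obtain ⟨-, g1, g2, g3, g4, g5⟩ := mem_filter.1 hm
    have := hcon m g1
    simp only [mem_union, mem_filter, mem_univ, true_and, mem_singleton]
    simp only [mem_sdiff] at this
    tauto
  have h3 := card_le_card h2
  have u1 := card_union_le (((univ.filter fun m : ZMod n => (Sum.inl m : Elt n) ∈ B) ∪
      (univ.filter fun m : ZMod n => (Sum.inl (m - (k : ZMod n)) : Elt n) ∈ B)) ∪
      ((univ.filter fun m : ZMod n => (Sum.inr (cl (m - p)) : Elt n) ∈ B) ∪
      (univ.filter fun m : ZMod n => (Sum.inr (cl (q - m)) : Elt n) ∈ B)))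
      ({x0} ∪ (univ.filter fun m : ZMod n => m + m = p + q))
  have u2 := card_union_le ((univ.filter fun m : ZMod n => (Sum.inl m : Elt n) ∈ B) ∪
      (univ.filter fun m : ZMod n => (Sum.inl (m - (k : ZMod n)) : Elt n) ∈ B))
      ((univ.filter fun m : ZMod n => (Sum.inr (cl (m - p)) : Elt n) ∈ B) ∪
      (univ.filter fun m : ZMod n => (Sum.inr (cl (q - m)) : Elt n) ∈ B))
  have u3 := card_union_le (univ.filter fun m : ZMod n => (Sum.inl m : Elt n) ∈ B)
      (univ.filter fun m : ZMod n => (Sum.inl (m - (k : ZMod n)) : Elt n) ∈ B)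
  have u4 := card_union_le (univ.filter fun m : ZMod n => (Sum.inr (cl (m - p)) : Elt n) ∈ B)
      (univ.filter fun m : ZMod n => (Sum.inr (cl (q - m)) : Elt n) ∈ B)
  have u5 := card_union_le {x0} (univ.filter fun m : ZMod n => m + m = p + q)
  rw [card_singleton] at u5
  have b1 := badPt_card0 B
  have b2 := badPt_cards B (k : ZMod n)
  have b3 := badCl_card B p
  have b4 := badCl_card' B q
  have b5 := two_card (p + q)
  have h4 : S.card ≤ 6 * B.card + 3 := by omega
  have h5 : (S.card : ℝ) ≤ ((6 * B.card + 3 : ℕ) : ℝ) := by exact_mod_cast h4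
  linarith

lemma pick5 [NeZero n] {Q : ℕ} {c0 : ℝ} {Y : Finset (Elt n)} (hY : YOk n Q c0 Y) {k : ℕ}
    (hk : k ∈ Ico 1 (T1 n)) (w : ZMod n) (hw : ClOk w) (hw1 : w ≠ (k : ZMod n) + 1)
    (hw2 : w ≠ -(k : ZMod n)) (a : ZMod n) (B : Finset (Elt n))
    (hB : ((6 * B.card + 3 : ℕ) : ℝ) < c0 * n) :
    ∃ m : ZMod n, par m = 0 ∧ Sum.inl m ∈ Y \ B ∧
      Sum.inl (m - (k : ZMod n)) ∈ Y \ B ∧ Sum.inl (m + w) ∈ Y \ B ∧
      Sum.inl (m + w - ((k : ZMod n) + 1)) ∈ Y \ B ∧ Sum.inr (cl (m - a)) ∈ Y \ B := by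
  classical
  by_contra hcon
  push Not at hcon
  have h1 := hY.n5 k hk w hw hw1 hw2 a
  set S := univ.filter fun m : ZMod n => par m = 0 ∧ Sum.inl m ∈ Y ∧
      Sum.inl (m - (k : ZMod n)) ∈ Y ∧ Sum.inl (m + w) ∈ Y ∧
      Sum.inl (m + w - ((k : ZMod n) + 1)) ∈ Y ∧ Sum.inr (cl (m - a)) ∈ Y with hS
  have h2 : S ⊆ ((univ.filter fun m : ZMod n => (Sum.inl m : Elt n) ∈ B) ∪
      (univ.filter fun m : ZMod n => (Sum.inl (m - (k : ZMod n)) : Elt n) ∈ B)) ∪
      ((univ.filter fun m : ZMod n => (Sum.inl (m + w) : Elt n) ∈ B) ∪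
      (univ.filter fun m : ZMod n => (Sum.inl (m + (w - ((k : ZMod n) + 1))) : Elt n) ∈ B)) ∪
      (univ.filter fun m : ZMod n => (Sum.inr (cl (m - a)) : Elt n) ∈ B) := by
    intro m hm
    obtain ⟨-, g1, g2, g3, g4, g5, g6⟩ := mem_filter.1 hm
    have := hcon m g1
    have e : m + (w - ((k : ZMod n) + 1)) = m + w - ((k : ZMod n) + 1) := by ring
    simp only [mem_union, mem_filter, mem_univ, true_and, e]
    simp only [mem_sdiff] at this
    tauto
  have h3 := card_le_card h2
  have u1 := card_union_le (((univ.filter fun m : ZMod n => (Sum.inl m : Elt n) ∈ B) ∪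
      (univ.filter fun m : ZMod n => (Sum.inl (m - (k : ZMod n)) : Elt n) ∈ B)) ∪
      ((univ.filter fun m : ZMod n => (Sum.inl (m + w) : Elt n) ∈ B) ∪
      (univ.filter fun m : ZMod n => (Sum.inl (m + (w - ((k : ZMod n) + 1))) : Elt n) ∈ B)))
      (univ.filter fun m : ZMod n => (Sum.inr (cl (m - a)) : Elt n) ∈ B)
  have u2 := card_union_le ((univ.filter fun m : ZMod n => (Sum.inl m : Elt n) ∈ B) ∪
      (univ.filter fun m : ZMod n => (Sum.inl (m - (k : ZMod n)) : Elt n) ∈ B))
      ((univ.filter fun m : ZMod n => (Sum.inl (m + w) : Elt n) ∈ B) ∪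
      (univ.filter fun m : ZMod n => (Sum.inl (m + (w - ((k : ZMod n) + 1))) : Elt n) ∈ B))
  have u3 := card_union_le (univ.filter fun m : ZMod n => (Sum.inl m : Elt n) ∈ B)
      (univ.filter fun m : ZMod n => (Sum.inl (m - (k : ZMod n)) : Elt n) ∈ B)
  have u4 := card_union_le (univ.filter fun m : ZMod n => (Sum.inl (m + w) : Elt n) ∈ B)
      (univ.filter fun m : ZMod n => (Sum.inl (m + (w - ((k : ZMod n) + 1))) : Elt n) ∈ B)
  have b1 := badPt_card0 B
  have b2 := badPt_cards B (k : ZMod n)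
  have b3 := badPt_card B w
  have b4 := badPt_card B (w - ((k : ZMod n) + 1))
  have b5 := badCl_card B a
  have h4 : S.card ≤ 6 * B.card + 3 := by omega
  have h5 : (S.card : ℝ) ≤ ((6 * B.card + 3 : ℕ) : ℝ) := by exact_mod_cast h4
  linarith

/-! ### Filling a segment -/

lemma sub_k_ne [NeZero n] {k : ℕ} (h1 : 1 ≤ k) (h2 : k ≤ T1 n) (m : ZMod n) :
    m ≠ m - (k : ZMod n) := by
  intro h
  have h3 : (k : ZMod n) = 0 := by linear_combination h
  have h4 := T1_lt (n := n)
  exact cast_ne_zero h1 (by omega) h3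

lemma cl_ne {p q m : ZMod n} (hpq : q - p ≠ 1) (hm : m + m ≠ p + q) :
    cl (m - p) ≠ cl (q - m) := by
  intro h
  rcases (cl_eq_iff _ _).1 h with h | h
  · exact hm (by linear_combination h)
  · exact hpq (by linear_combination h)

lemma one_ne [NeZero n] (hn : 1 < n) : (0 : ZMod n) ≠ 1 := by
  have : Fact (1 < n) := ⟨hn⟩
  exact zero_ne_one

lemma seg [NeZero n] {Q : ℕ} {c0 : ℝ} {Y : Finset (Elt n)} (hn : 1 < n) (hY : YOk n Q c0 Y)
    (zl : ℕ → ZMod n) : ∀ (L a : ℕ) (p q : ZMod n) (B : Finset (Elt n)), 1 ≤ L → a + L ≤ T1 n →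
    (L = 1 → q - p ≠ 1) → ((6 * (B.card + 3 * L) + 3 : ℕ) : ℝ) < c0 * n →
    ∃ g : ℕ → ZMod n, g a = p ∧ g (a + L + 1) = q ∧
      (∀ k, a < k → k < a + L + 1 → par (g k) = par (zl k)) ∧ (evl g a L).Nodup ∧
      ∀ y ∈ evl g a L, y ∈ Y \ B := by
  classical
  intro L
  induction L with
  | zero => intro a p q B h; omega
  | succ L ih =>
    intro a p q B _ hT hL hB
    rcases Nat.eq_zero_or_pos L with h0 | h0
    · subst h0
      have hpq : q - p ≠ 1 := hL rfl
      have hk : a + 1 ∈ Icc 1 (T1 n) := mem_Icc.2 ⟨by omega, by omega⟩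
      obtain ⟨m, m1, -, m3, m4, m5, m6, m7⟩ := pick4 hY hk p q hpq (zl (a + 1)) B 0 (by
        refine lt_of_le_of_lt ?_ hB
        exact_mod_cast (by omega))
      obtain ⟨g, g0, g1, g2⟩ : ∃ g : ℕ → ZMod n, g a = p ∧ g (a + 1) = m ∧ g (a + 1 + 1) = q := by
        refine ⟨fun k => if k ≤ a then p else if k = a + 1 then m else q, by simp, ?_, ?_⟩
        · show (if a + 1 ≤ a then p else if a + 1 = a + 1 then m else q) = m
          rw [if_neg (by omega), if_pos rfl]
        · show (if a + 1 + 1 ≤ a then p else if a + 1 + 1 = a + 1 then m else q) = q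
          rw [if_neg (by omega), if_neg (by omega)]
      have he : evl g a (0 + 1) = [Sum.inl m, Sum.inl (m - ((a + 1 : ℕ) : ZMod n)),
          Sum.inr (cl (m - p)), Sum.inr (cl (q - m))] := by
        simp only [evl]
        rw [g0, g1, g2]
      refine ⟨g, g0, g2, ?_, ?_, ?_⟩
      · intro k hk1 hk2
        have : k = a + 1 := by omega
        subst this
        rw [g1]
        exact m1
      · rw [he]
        have d1 := sub_k_ne (k := a + 1) (by omega) (by omega) m
        have d2 := cl_ne hpq m3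
        simp only [List.nodup_cons, List.mem_cons, List.not_mem_nil, Sum.inl.injEq,
          Sum.inr.injEq, reduceCtorEq, or_false, not_false_eq_true, List.nodup_nil, and_true]
        exact ⟨d1, trivial, d2⟩
      · rw [he]
        intro y hy
        simp only [List.mem_cons, List.not_mem_nil, or_false] at hy
        rcases hy with rfl | rfl | rfl | rfl
        · exact m4
        · exact m5
        · exact m6
        · exact m7
    · have hk : a + 1 ∈ Icc 1 (T1 n) := mem_Icc.2 ⟨by omega, by omega⟩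
      obtain ⟨m, m1, m2, m3, m4, m5, m6, m7⟩ := pick4 hY hk p p
        (by rw [sub_self]; exact one_ne hn) (zl (a + 1)) B (q - 1) (by
        refine lt_of_le_of_lt ?_ hB
        exact_mod_cast (by omega))
      set B' : Finset (Elt n) := insert (Sum.inl m) (insert (Sum.inl (m - ((a + 1 : ℕ) : ZMod n)))
        (insert (Sum.inr (cl (m - p))) B)) with hB'
      have hcard : B'.card ≤ B.card + 3 := by
        have c1 := card_insert_le (Sum.inl m) (insert (Sum.inl (m - ((a + 1 : ℕ) : ZMod n)))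
          (insert (Sum.inr (cl (m - p))) B))
        have c2 := card_insert_le (Sum.inl (m - ((a + 1 : ℕ) : ZMod n)))
          (insert (Sum.inr (cl (m - p))) B)
        have c3 := card_insert_le (Sum.inr (cl (m - p))) B
        rw [hB']
        omega
      obtain ⟨g, g1, g2, g3, g4, g5⟩ := ih (a + 1) m q B' h0 (by omega) (by
        intro _ h
        exact m2 (by linear_combination -h)) (by
        refine lt_of_le_of_lt ?_ hB
        exact_mod_cast (by omega))
      have hcongr : evl (Function.update g a p) (a + 1) L = evl g (a + 1) L :=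
        evl_congr L (a + 1) (fun k hk _ => by
          rw [Function.update_of_ne (by omega)])
      have hu : Function.update g a p (a + 1) = m := by
        rw [Function.update_of_ne (by omega), g1]
      refine ⟨Function.update g a p, by simp, ?_, ?_, ?_, ?_⟩
      · rw [Function.update_of_ne (by omega)]
        have : a + (L + 1) + 1 = a + 1 + L + 1 := by omega
        rw [this]
        exact g2
      · intro k hk1 hk2
        rw [Function.update_of_ne (by omega)]
        by_cases h : k = a + 1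
        · subst h
          rw [g1]
          exact m1
        · exact g3 k (by omega) (by omega)
      · rw [evl_succ, hcongr, hu, Function.update_self]
        have d1 := sub_k_ne (k := a + 1) (by omega) (by omega) m
        have e1 : (Sum.inl m : Elt n) ∉ evl g (a + 1) L := fun h =>
          (mem_sdiff.1 (g5 _ h)).2 (by simp [hB'])
        have e2 : (Sum.inl (m - ((a + 1 : ℕ) : ZMod n)) : Elt n) ∉ evl g (a + 1) L := fun h =>
          (mem_sdiff.1 (g5 _ h)).2 (by simp [hB'])
        have e3 : (Sum.inr (cl (m - p)) : Elt n) ∉ evl g (a + 1) L := fun h =>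
          (mem_sdiff.1 (g5 _ h)).2 (by simp [hB'])
        simp only [List.nodup_cons, List.mem_cons, Sum.inl.injEq,
          reduceCtorEq, false_or, not_or]
        exact ⟨⟨d1, e1⟩, e2, e3, g4⟩
      · rw [evl_succ, hcongr, hu, Function.update_self]
        intro y hy
        simp only [List.mem_cons] at hy
        rcases hy with rfl | rfl | rfl | hy
        · exact m4
        · exact m5
        · exact m6
        · have := mem_sdiff.1 (g5 _ hy)
          refine mem_sdiff.2 ⟨this.1, fun h => this.2 ?_⟩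
          simp [hB', h]

/-! ### Filling a block -/

/-- block `j` can be filled covering `sp`, everything else in `Y \ B` -/
def BlockOk (n Q : ℕ) (U : ℕ → ZMod n) (Y O : Finset (Elt n)) (c0 : ℝ) (zl : ℕ → ZMod n)
    (j : ℕ) (sp : Finset (Elt n)) : Prop :=
  ∀ B : Finset (Elt n), O ⊆ B → ((6 * (B.card + 3 * Q) + 3 : ℕ) : ℝ) < c0 * n →
    ∃ f : ℕ → ZMod n, IsFill n Q U j f ∧
      (∀ k ∈ Ioo (j * Q) ((j + 1) * Q), par (f k) = par (zl k)) ∧ sp ⊆ foot n Q j f ∧
      ∀ y ∈ foot n Q j f, y ∈ sp ∨ y ∈ Y \ B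

lemma block_times {Q j : ℕ} (_ : 1 ≤ Q) (hj : j ∈ Blocks n Q) :
    1 ≤ j ∧ j * Q + Q ≤ T1 n ∧ (j + 1) * Q = j * Q + Q := by
  unfold Blocks at hj
  rw [mem_Ico] at hj
  have h2 : (j + 1) * Q ≤ J1 n Q * Q := Nat.mul_le_mul_right Q hj.2
  have h3 : J1 n Q * Q ≤ T1 n := Nat.div_mul_le_self _ _
  have h4 : (j + 1) * Q = j * Q + Q := by ring
  exact ⟨hj.1, by omega, h4⟩

lemma blockN [NeZero n] {Q : ℕ} {U : ℕ → ZMod n} {Y O : Finset (Elt n)} {c0 : ℝ}
    (hQ : 20 ≤ Q) (hY : YOk n Q c0 Y) (hYA : Y ⊆ All n) (zl : ℕ → ZMod n) {j : ℕ}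
    (hj : j ∈ Blocks n Q) : BlockOk n Q U Y O c0 zl j ∅ := by
  intro B _ hB
  obtain ⟨h1, h2, h3⟩ := block_times (by omega) hj
  have hn : 1 < n := by
    have := T1_lt (n := n)
    omega
  obtain ⟨g, g1, g2, g3, g4, g5⟩ := seg hn hY zl (Q - 1) (j * Q) (U (j * Q)) (U ((j + 1) * Q)) B
    (by omega) (by omega) (by omega) (by
      refine lt_of_le_of_lt ?_ hB
      exact_mod_cast (by omega))
  have e : j * Q + (Q - 1) + 1 = (j + 1) * Q := by omega
  rw [e] at g2 g3
  refine ⟨g, fill_of (by omega) g1 g2 g4 (fun y hy => hYA (mem_sdiff.1 (g5 y hy)).1), ?_,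
    empty_subset _, ?_⟩
  · intro k hk
    rw [mem_Ioo] at hk
    exact g3 k hk.1 hk.2
  · intro y hy
    rw [foot_eq (by omega), List.mem_toFinset] at hy
    exact Or.inr (g5 y hy)

/-- the six head elements -/
def hd (n a : ℕ) (p v1 v2 : ZMod n) : List (Elt n) :=
  [Sum.inl v1, Sum.inl (v1 - ((a + 1 : ℕ) : ZMod n)), Sum.inr (cl (v1 - p)), Sum.inl v2,
    Sum.inl (v2 - ((a + 2 : ℕ) : ZMod n)), Sum.inr (cl (v2 - v1))]

lemma blockHead [NeZero n] {Q : ℕ} {U : ℕ → ZMod n} {Y : Finset (Elt n)} {c0 : ℝ}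
    (hQ : 20 ≤ Q) (hY : YOk n Q c0 Y) (hYA : Y ⊆ All n) (zl : ℕ → ZMod n) {j : ℕ}
    (hj : j ∈ Blocks n Q) (v1 v2 : ZMod n) (B : Finset (Elt n))
    (hB : ((6 * (B.card + 3 * Q) + 3 : ℕ) : ℝ) < c0 * n)
    (hnd : (hd n (j * Q) (U (j * Q)) v1 v2).Nodup)
    (hall : ∀ y ∈ hd n (j * Q) (U (j * Q)) v1 v2, y ∈ All n)
    (hp1 : par v1 = par (zl (j * Q + 1))) (hp2 : par v2 = par (zl (j * Q + 2))) :
    ∃ f : ℕ → ZMod n, IsFill n Q U j f ∧
      (∀ k ∈ Ioo (j * Q) ((j + 1) * Q), par (f k) = par (zl k)) ∧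
      (∀ y ∈ hd n (j * Q) (U (j * Q)) v1 v2, y ∈ foot n Q j f) ∧
      ∀ y ∈ foot n Q j f, y ∈ hd n (j * Q) (U (j * Q)) v1 v2 ∨ y ∈ Y \ B := by
  classical
  obtain ⟨h1, h2, h3⟩ := block_times (by omega) hj
  have hn : 1 < n := by
    have := T1_lt (n := n)
    omega
  set a := j * Q with ha
  set H := hd n a (U a) v1 v2 with hH
  have hHc : H.toFinset.card ≤ 6 := by
    have := List.toFinset_card_le H
    have h6 : H.length = 6 := rfl
    omega
  have hBH : (B ∪ H.toFinset).card ≤ B.card + 6 := by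
    have := card_union_le B H.toFinset
    omega
  obtain ⟨g, g1, g2, g3, g4, g5⟩ := seg hn hY zl (Q - 3) (a + 2) v2 (U ((j + 1) * Q))
    (B ∪ H.toFinset) (by omega) (by omega) (by omega) (by
      refine lt_of_le_of_lt ?_ hB
      exact_mod_cast (by omega))
  have e : a + 2 + (Q - 3) + 1 = (j + 1) * Q := by omega
  rw [e] at g2 g3
  set f : ℕ → ZMod n := fun k => if k ≤ a then U a else if k = a + 1 then v1 else g k with hf
  have f0 : f a = U a := by simp [hf]
  have f1 : f (a + 1) = v1 := by simp [hf]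
  have f2 : f (a + 1 + 1) = v2 := by
    show (if a + 1 + 1 ≤ a then U a else if a + 1 + 1 = a + 1 then v1 else g (a + 1 + 1)) = v2
    rw [if_neg (by omega), if_neg (by omega)]
    exact g1
  have f3 : ∀ k, a + 2 ≤ k → f k = g k := by
    intro k hk
    show (if k ≤ a then U a else if k = a + 1 then v1 else g k) = g k
    rw [if_neg (by omega), if_neg (by omega)]
  have hev : evl f a (Q - 1) = H ++ evl g (a + 2) (Q - 3) := by
    have e1 : Q - 1 = (Q - 3) + 1 + 1 := by omega
    rw [e1, evl_succ, evl_succ, f0, f1, f2, evl_congr (Q - 3) (a + 1 + 1) (f := f) (g := g)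
      (fun k hk _ => f3 k (by omega))]
    rfl
  have hdisj : ∀ y ∈ H, y ∉ evl g (a + 2) (Q - 3) := by
    intro y hy hy2
    have := (mem_sdiff.1 (g5 y hy2)).2
    rw [mem_union] at this
    exact this (Or.inr (List.mem_toFinset.2 hy))
  have hfill : IsFill n Q U j f := by
    refine fill_of (by omega) f0 ?_ ?_ ?_
    · rw [f3 _ (by omega)]
      exact g2
    · rw [← ha, hev, List.nodup_append]
      refine ⟨hnd, g4, ?_⟩
      intro x hx y hy hxy
      subst hxy
      exact hdisj x hx hy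
    · rw [← ha, hev]
      intro y hy
      rcases List.mem_append.1 hy with hy | hy
      · exact hall y hy
      · exact hYA (mem_sdiff.1 (g5 y hy)).1
  refine ⟨f, hfill, ?_, ?_, ?_⟩
  · intro k hk
    rw [mem_Ioo] at hk
    by_cases k1 : k = a + 1
    · subst k1
      rw [f1]
      exact hp1
    · by_cases k2 : k = a + 2
      · subst k2
        have : f (a + 2) = v2 := f2
        rw [this]
        exact hp2
      · rw [f3 k (by omega)]
        exact g3 k (by omega) hk.2
  · intro y hy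
    rw [foot_eq (by omega), List.mem_toFinset, ← ha, hev]
    exact List.mem_append.2 (Or.inl hy)
  · intro y hy
    rw [foot_eq (by omega), List.mem_toFinset, ← ha, hev] at hy
    rcases List.mem_append.1 hy with hy | hy
    · exact Or.inl hy
    · have := mem_sdiff.1 (g5 y hy)
      rw [mem_union] at this
      exact Or.inr (mem_sdiff.2 ⟨this.1, fun h => this.2 (Or.inl h)⟩)

lemma blockP [NeZero n] {Q : ℕ} {U : ℕ → ZMod n} {Y O : Finset (Elt n)} {c0 : ℝ}
    (hQ : 20 ≤ Q) (hY : YOk n Q c0 Y) (hYA : Y ⊆ All n) (zl : ℕ → ZMod n) {j : ℕ}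
    (hj : j ∈ Blocks n Q) (x : ZMod n) (hx : Sum.inl x ∉ Y) (hU : x - U (j * Q) ≠ 1)
    (ho : Sum.inl (x - ((j * Q + 2 : ℕ) : ZMod n)) ∈ Y)
    (hO : Sum.inl (x - ((j * Q + 2 : ℕ) : ZMod n)) ∈ O)
    (hz : par x = par (zl (j * Q + 2))) :
    BlockOk n Q U Y O c0 zl j {Sum.inl x, Sum.inl (x - ((j * Q + 2 : ℕ) : ZMod n))} := by
  classical
  intro B hOB hB
  obtain ⟨h1, h2, h3⟩ := block_times (by omega) hj
  have hn : 1 < n := by
    have := T1_lt (n := n)
    omega
  have hk : j * Q + 1 ∈ Icc 1 (T1 n) := mem_Icc.2 ⟨by omega, by omega⟩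
  obtain ⟨m, m1, -, m3, m4, m5, m6, m7⟩ := pick4 hY hk (U (j * Q)) x hU (zl (j * Q + 1)) B 0 (by
    refine lt_of_le_of_lt ?_ hB
    exact_mod_cast (by omega))
  have d1 := sub_k_ne (k := j * Q + 1) (by omega) (by omega) m
  have d2 := cl_ne hU m3
  have d3 : (Sum.inl m : Elt n) ≠ Sum.inl x := fun h => hx (h ▸ (mem_sdiff.1 m4).1)
  have d4 : (Sum.inl (m - ((j * Q + 1 : ℕ) : ZMod n)) : Elt n) ≠ Sum.inl x :=
    fun h => hx (h ▸ (mem_sdiff.1 m5).1)
  have d5 : (Sum.inl m : Elt n) ≠ Sum.inl (x - ((j * Q + 2 : ℕ) : ZMod n)) :=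
    fun h => (mem_sdiff.1 m4).2 (h ▸ hOB hO)
  have d6 : (Sum.inl (m - ((j * Q + 1 : ℕ) : ZMod n)) : Elt n) ≠
      Sum.inl (x - ((j * Q + 2 : ℕ) : ZMod n)) := fun h => (mem_sdiff.1 m5).2 (h ▸ hOB hO)
  have d7 : (Sum.inl x : Elt n) ≠ Sum.inl (x - ((j * Q + 2 : ℕ) : ZMod n)) :=
    fun h => hx (h ▸ ho)
  obtain ⟨f, f1, f2, f3, f4⟩ := blockHead (U := U) hQ hY hYA zl hj m x B hB (by
      unfold hd
      simp only [List.nodup_cons, List.mem_cons, List.not_mem_nil, Sum.inl.injEq,
          Sum.inr.injEq, reduceCtorEq, or_false, not_false_eq_true, List.nodup_nil, and_true,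
          false_or, not_or]
      have e3 : ¬ m = x := fun h => d3 (by rw [h])
      have e4 : ¬ m - ((j * Q + 1 : ℕ) : ZMod n) = x := fun h => d4 (by rw [h])
      have e5 : ¬ m = x - ((j * Q + 2 : ℕ) : ZMod n) := fun h => d5 (by rw [h])
      have e6 : ¬ m - ((j * Q + 1 : ℕ) : ZMod n) = x - ((j * Q + 2 : ℕ) : ZMod n) :=
        fun h => d6 (by rw [h])
      have e7 : ¬ x = x - ((j * Q + 2 : ℕ) : ZMod n) := fun h => d7 (by rw [← h])
      tauto) (by
      unfold hd
      intro y hy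
      simp only [List.mem_cons, List.not_mem_nil, or_false] at hy
      rcases hy with rfl | rfl | rfl | rfl | rfl | rfl
      · exact inl_mem_all _
      · exact inl_mem_all _
      · exact hYA (mem_sdiff.1 m6).1
      · exact inl_mem_all _
      · exact inl_mem_all _
      · exact hYA (mem_sdiff.1 m7).1) m1 hz
  refine ⟨f, f1, f2, ?_, ?_⟩
  · intro y hy
    rw [mem_insert, mem_singleton] at hy
    apply f3
    unfold hd
    rcases hy with rfl | rfl <;> simp
  · intro y hy
    rcases f4 y hy with h | h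
    · unfold hd at h
      simp only [List.mem_cons, List.not_mem_nil, or_false] at h
      rcases h with rfl | rfl | rfl | rfl | rfl | rfl
      · exact Or.inr m4
      · exact Or.inr m5
      · exact Or.inr m6
      · left; simp
      · left; simp
      · exact Or.inr m7
    · exact Or.inr h

lemma blockC [NeZero n] {Q : ℕ} {U : ℕ → ZMod n} {Y O : Finset (Elt n)} {c0 : ℝ}
    (hQ : 20 ≤ Q) (hY : YOk n Q c0 Y) (hYA : Y ⊆ All n) (zl : ℕ → ZMod n) {j : ℕ}
    (hj : j ∈ Blocks n Q) (w : ZMod n) (hw : Sum.inr (cl w) ∉ Y) (hwo : ClOk w)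
    (hw1 : w ≠ ((j * Q + 1 : ℕ) : ZMod n) + 1) (hw2 : w ≠ -((j * Q + 1 : ℕ) : ZMod n))
    (hz1 : par (zl (j * Q + 1)) = 0) (hz2 : par w = par (zl (j * Q + 2))) :
    BlockOk n Q U Y O c0 zl j {Sum.inr (cl w)} := by
  classical
  intro B _ hB
  obtain ⟨h1, h2, h3⟩ := block_times (by omega) hj
  have hn : 1 < n := by
    have := T1_lt (n := n)
    omega
  have hk : j * Q + 1 ∈ Ico 1 (T1 n) := mem_Ico.2 ⟨by omega, by omega⟩
  obtain ⟨m, m1, m2, m3, m4, m5, m6⟩ := pick5 hY hk w hwo hw1 hw2 (U (j * Q)) B (by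
    refine lt_of_le_of_lt ?_ hB
    exact_mod_cast (by omega))
  have ek : ((j * Q + 2 : ℕ) : ZMod n) = ((j * Q + 1 : ℕ) : ZMod n) + 1 := by push_cast; ring
  have ew : m + w - m = w := by ring
  have e1 := sub_k_ne (k := j * Q + 1) (by omega) (by omega) m
  have e2 : ¬ m = m + w := fun h => hwo.1 (by linear_combination -h)
  have e3 : ¬ m = m + w - ((j * Q + 2 : ℕ) : ZMod n) := fun h => hw1 (by
    rw [← ek]; linear_combination -h)
  have e4 : ¬ m - ((j * Q + 1 : ℕ) : ZMod n) = m + w := fun h => hw2 (by linear_combination -h)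
  have e5 : ¬ m - ((j * Q + 1 : ℕ) : ZMod n) = m + w - ((j * Q + 2 : ℕ) : ZMod n) :=
    fun h => hwo.2.1 (by rw [ek] at h; linear_combination -h)
  have e6 := sub_k_ne (k := j * Q + 2) (by omega) (by omega) (m + w)
  have e7 : ¬ cl (m - U (j * Q)) = cl w := fun h => hw (h ▸ (mem_sdiff.1 m6).1)
  obtain ⟨f, f1, f2, f3, f4⟩ := blockHead (U := U) hQ hY hYA zl hj m (m + w) B hB (by
      unfold hd
      rw [ew]
      simp only [List.nodup_cons, List.mem_cons, List.not_mem_nil, Sum.inl.injEq,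
          Sum.inr.injEq, reduceCtorEq, or_false, not_false_eq_true, List.nodup_nil, and_true,
          false_or, not_or]
      tauto) (by
      unfold hd
      rw [ew]
      intro y hy
      simp only [List.mem_cons, List.not_mem_nil, or_false] at hy
      rcases hy with rfl | rfl | rfl | rfl | rfl | rfl
      · exact inl_mem_all _
      · exact inl_mem_all _
      · exact hYA (mem_sdiff.1 m6).1
      · exact inl_mem_all _
      · exact inl_mem_all _
      · exact inr_mem_all.2 hwo) (by rw [m1, hz1]) (by rw [par_add, m1, zero_add, hz2])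
  refine ⟨f, f1, f2, ?_, ?_⟩
  · intro y hy
    rw [mem_singleton] at hy
    subst hy
    apply f3
    unfold hd
    rw [ew]
    simp
  · intro y hy
    rcases f4 y hy with h | h
    · unfold hd at h
      rw [ew, ek] at h
      simp only [List.mem_cons, List.not_mem_nil, or_false] at h
      rcases h with rfl | rfl | rfl | rfl | rfl | rfl
      · exact Or.inr m2
      · exact Or.inr m3
      · exact Or.inr m6
      · exact Or.inr m4
      · exact Or.inr m5
      · left; simp
    · exact Or.inr h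

/-! ### Filling all blocks -/

lemma fillAll [NeZero n] {Q : ℕ} (hQ : 1 ≤ Q) {U : ℕ → ZMod n} {Y O : Finset (Elt n)} {c0 : ℝ}
    {zl : ℕ → ZMod n} (sp : ℕ → Finset (Elt n)) (J : Finset ℕ)
    (hb : ∀ j ∈ J, BlockOk n Q U Y O c0 zl j (sp j))
    (hd : ∀ i ∈ J, ∀ j ∈ J, i ≠ j → Disjoint (sp i) (sp j))
    (hO : ∀ j ∈ J, ∀ y ∈ sp j, y ∈ Y → y ∈ O)
    (hcard : ((6 * (O.card + 3 * Q * J.card + 3 * Q) + 3 : ℕ) : ℝ) < c0 * n) :
    ∀ J' ⊆ J, ∃ F : ℕ → ℕ → ZMod n,
      (∀ j ∈ J', IsFill n Q U j (F j) ∧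
        (∀ k ∈ Ioo (j * Q) ((j + 1) * Q), par (F j k) = par (zl k)) ∧
        sp j ⊆ foot n Q j (F j) ∧ ∀ y ∈ foot n Q j (F j), y ∈ sp j ∨ (y ∈ Y ∧ y ∉ O)) ∧
      ∀ i ∈ J', ∀ j ∈ J', i ≠ j → Disjoint (foot n Q i (F i)) (foot n Q j (F j)) := by
  classical
  intro J'
  induction J' using Finset.induction_on with
  | empty =>
    intro _
    exact ⟨fun _ _ => 0, by simp, by simp⟩
  | insert j J' hj ih =>
    intro hsub
    have hjJ : j ∈ J := hsub (mem_insert_self _ _)
    have hJ' : J' ⊆ J := fun i hi => hsub (mem_insert_of_mem hi)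
    obtain ⟨F, F1, F2⟩ := ih hJ'
    set B : Finset (Elt n) := O ∪ J'.biUnion fun i => foot n Q i (F i) with hB
    have hBc : B.card ≤ O.card + 3 * Q * J.card := by
      have c1 := card_union_le O (J'.biUnion fun i => foot n Q i (F i))
      have c2 : (J'.biUnion fun i => foot n Q i (F i)).card ≤ J'.card * (3 * Q) := by
        refine card_biUnion_le_card_mul _ _ _ ?_
        intro i hi
        rw [(F1 i hi).1.card]
        omega
      have c3 : J'.card ≤ J.card := card_le_card hJ'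
      have c4 : J'.card * (3 * Q) ≤ 3 * Q * J.card := by
        rw [Nat.mul_comm]
        exact Nat.mul_le_mul_left _ c3
      rw [hB]
      omega
    obtain ⟨f, f1, f2, f3, f4⟩ := hb j hjJ B subset_union_left (by
      refine lt_of_le_of_lt ?_ hcard
      exact_mod_cast (by omega))
    have key : ∀ i ∈ J', Disjoint (foot n Q j f) (foot n Q i (F i)) := by
      intro i hi
      have hij : i ≠ j := fun h => hj (h ▸ hi)
      rw [disjoint_left]
      intro y hy hy'
      rcases f4 y hy with h | h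
      · rcases (F1 i hi).2.2.2 y hy' with h' | ⟨h', h''⟩
        · exact disjoint_left.1 (hd i (hJ' hi) j hjJ hij) h' h
        · exact h'' (hO j hjJ y h h')
      · refine (mem_sdiff.1 h).2 ?_
        rw [hB, mem_union]
        exact Or.inr (mem_biUnion.2 ⟨i, hi, hy'⟩)
    have hself : Function.update F j f j = f := Function.update_self _ _ _
    have hne : ∀ i ∈ J', Function.update F j f i = F i := fun i hi =>
      Function.update_of_ne (fun h => hj (by rw [← h]; exact hi)) _ _
    refine ⟨Function.update F j f, ?_, ?_⟩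
    · intro i hi
      rcases mem_insert.1 hi with e | hi
      · rw [e, hself]
        refine ⟨f1, f2, f3, ?_⟩
        intro y hy
        rcases f4 y hy with h | h
        · exact Or.inl h
        · have := mem_sdiff.1 h
          rw [hB, mem_union] at this
          exact Or.inr ⟨this.1, fun h => this.2 (Or.inl h)⟩
      · rw [hne i hi]
        exact F1 i hi
    · intro i hi i' hi' hii
      rcases mem_insert.1 hi with e | g
      · rcases mem_insert.1 hi' with e' | g'
        · exact absurd (e.trans e'.symm) hii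
        · rw [e, hself, hne i' g']
          exact key i' g'
      · rcases mem_insert.1 hi' with e' | g'
        · rw [e', hself, hne i g]
          exact (key i g).symm
        · rw [hne i g, hne i' g']
          exact F2 i g i' g' hii

/-! ### Greedy choice -/

lemma greedy {α β : Type*} [DecidableEq α] [DecidableEq β] [Inhabited β] (conf : α → β → α → β → Prop)
    [∀ a b a' b', Decidable (conf a b a' b')]
    (hs : ∀ a b a' b', conf a b a' b' → conf a' b' a b)
    (A : Finset α) (C : α → Finset β) (K : ℕ)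
    (hK : ∀ a ∈ A, ∀ a' ∈ A, ∀ b', ((C a).filter fun b => conf a b a' b').card ≤ K)
    (hC : ∀ a ∈ A, K * A.card < (C a).card) :
    ∀ A' ⊆ A, ∃ f : α → β, (∀ a ∈ A', f a ∈ C a) ∧
      ∀ a ∈ A', ∀ a' ∈ A', a ≠ a' → ¬ conf a (f a) a' (f a') := by
  intro A'
  induction A' using Finset.induction_on with
  | empty =>
    intro _
    exact ⟨fun _ => default, by simp, by simp⟩
  | insert a A' ha ih =>
    intro hsub
    have haA : a ∈ A := hsub (mem_insert_self _ _)
    have hA' : A' ⊆ A := fun i hi => hsub (mem_insert_of_mem hi)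
    obtain ⟨f, f1, f2⟩ := ih hA'
    have h1 : (A'.biUnion fun a' => (C a).filter fun b => conf a b a' (f a')).card <
        (C a).card := by
      have c2 : (A'.biUnion fun a' => (C a).filter fun b => conf a b a' (f a')).card ≤
          A'.card * K := card_biUnion_le_card_mul _ _ _ (fun a' ha' => hK a haA a' (hA' ha') _)
      have c3 : A'.card ≤ A.card := card_le_card hA'
      have c4 : A'.card * K ≤ K * A.card := by
        rw [Nat.mul_comm]
        exact Nat.mul_le_mul_left _ c3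
      have := hC a haA
      omega
    obtain ⟨b, hb1, hb2⟩ := exists_mem_notMem_of_card_lt_card h1
    have hb3 : ∀ a' ∈ A', ¬ conf a b a' (f a') := by
      intro a' ha' hc
      exact hb2 (mem_biUnion.2 ⟨a', ha', mem_filter.2 ⟨hb1, hc⟩⟩)
    have hself : Function.update f a b a = b := Function.update_self _ _ _
    have hne : ∀ i ∈ A', Function.update f a b i = f i := fun i hi =>
      Function.update_of_ne (fun h => ha (by rw [← h]; exact hi)) _ _
    refine ⟨Function.update f a b, ?_, ?_⟩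
    · intro i hi
      rcases mem_insert.1 hi with e | hi
      · rw [e, hself]
        exact hb1
      · rw [hne i hi]
        exact f1 i hi
    · intro i hi i' hi' hii
      rcases mem_insert.1 hi with e | g
      · rcases mem_insert.1 hi' with e' | g'
        · exact absurd (e.trans e'.symm) hii
        · rw [e, hself, hne i' g']
          exact hb3 i' g'
      · rcases mem_insert.1 hi' with e' | g'
        · rw [e', hself, hne i g]
          exact fun h => hb3 i g (hs _ _ _ _ h)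
        · rw [hne i g, hne i' g']
          exact f2 i g i' g' hii

/-! ### Types of the blocks -/

lemma pts_card [NeZero n] (E : Finset (Elt n)) :
    (univ.filter fun x : ZMod n => (Sum.inl x : Elt n) ∈ E).card = kc E 0 + kc E 1 ∧
    (univ.filter fun c : Sym2 (ZMod n) => (Sum.inr c : Elt n) ∈ E).card = kc E 2 := by
  classical
  have h1 : (univ.filter fun x : ZMod n => (Sum.inl x : Elt n) ∈ E).card =
      (E.filter fun y => ¬ kd y = 2).card := by
    refine card_bij (fun x _ => Sum.inl x) ?_ ?_ ?_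
    · intro x hx
      refine mem_filter.2 ⟨(mem_filter.1 hx).2, ?_⟩
      unfold kd
      rw [Sum.elim_inl]
      split_ifs <;> decide
    · intro x _ y _ h
      exact Sum.inl.inj h
    · intro y hy
      obtain ⟨h1, h2⟩ := mem_filter.1 hy
      rcases y with x | c
      · exact ⟨x, mem_filter.2 ⟨mem_univ _, h1⟩, rfl⟩
      · exact absurd rfl h2
  have h2 : (univ.filter fun c : Sym2 (ZMod n) => (Sum.inr c : Elt n) ∈ E).card =
      (E.filter fun y => kd y = 2).card := by
    refine card_bij (fun x _ => Sum.inr x) ?_ ?_ ?_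
    · intro x hx
      exact mem_filter.2 ⟨(mem_filter.1 hx).2, rfl⟩
    · intro x _ y _ h
      exact Sum.inr.inj h
    · intro y hy
      obtain ⟨h1, h2⟩ := mem_filter.1 hy
      rcases y with x | c
      · exfalso
        unfold kd at h2
        rw [Sum.elim_inl] at h2
        split_ifs at h2 <;> exact absurd h2 (by decide)
      · exact ⟨c, mem_filter.2 ⟨mem_univ _, h1⟩, rfl⟩
  have h3 := kc_total E
  have h4 := card_filter_add_card_filter_not (s := E) (fun y => kd y = 2)
  refine ⟨?_, h2⟩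
  rw [h1]
  have h5 : (E.filter fun y => kd y = 2).card = kc E 2 := rfl
  omega

lemma anchor_mem {Q j : ℕ} (hQ : 1 ≤ Q) (hj : j ∈ Blocks n Q) : j * Q ∈ FixT n Q := by
  obtain ⟨h1, h2, h3⟩ := block_times hQ hj
  unfold FixT
  rw [mem_filter, mem_Icc]
  have h4 : T0 n ≤ 1 := by
    unfold T0
    omega
  have h5 : 1 * 1 ≤ j * Q := Nat.mul_le_mul h1 hQ
  exact ⟨⟨by omega, by omega⟩, Or.inr (Or.inl (Dvd.intro_left j rfl))⟩

lemma block_cast_inj [NeZero n] {Q i j c : ℕ} (hQ : 1 ≤ Q) (hc : c ≤ Q) (hi : i ∈ Blocks n Q)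
    (hj : j ∈ Blocks n Q) (h : ((i * Q + c : ℕ) : ZMod n) = ((j * Q + c : ℕ) : ZMod n)) :
    i = j := by
  obtain ⟨h1, h2, h3⟩ := block_times hQ hi
  obtain ⟨h1', h2', h3'⟩ := block_times hQ hj
  have h4 := T1_lt (n := n)
  have h5 := cast_inj (n := n) (by omega) (by omega) h
  have h6 : i * Q = j * Q := by omega
  exact Nat.eq_of_mul_eq_mul_right (by omega) h6

lemma types [NeZero n] {Q s : ℕ} (hQ : 20 ≤ Q) {U : ℕ → ZMod n} {Y E : Finset (Elt n)}
    {Jres : Finset ℕ} (hfix : FixOk n Q U) (hJ : Jres ⊆ Blocks n Q) (hE : E ⊆ All n \ Y)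
    (hp : kc E 0 + kc E 1 = 2 * (Q - 1) * s) (hc : kc E 2 = Q * s)
    (hr : 1000 * (Q * s) ≤ Jres.card)
    (hx : ∀ x : ZMod n, 1000 * (Q * s) ≤ (Jres.filter fun j : ℕ =>
        (Sum.inl (x - ((j * Q + 2 : ℕ) : ZMod n)) : Elt n) ∈ Y).card) :
    ∃ (JP JC : Finset ℕ) (px pw : ℕ → ZMod n), JP ⊆ Jres ∧ JC ⊆ Jres ∧ Disjoint JP JC ∧
      JP.card = 2 * (Q - 1) * s ∧ JC.card = Q * s ∧
      (∀ j ∈ JP, Sum.inl (px j) ∈ E ∧ Sum.inl (px j - ((j * Q + 2 : ℕ) : ZMod n)) ∈ Y ∧
        px j - U (j * Q) ≠ 1) ∧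
      (∀ i ∈ JP, ∀ j ∈ JP, px i = px j → i = j) ∧
      (∀ i ∈ JP, ∀ j ∈ JP, px i - ((i * Q + 2 : ℕ) : ZMod n) =
        px j - ((j * Q + 2 : ℕ) : ZMod n) → i = j) ∧
      (∀ x, Sum.inl x ∈ E → ∃ j ∈ JP, px j = x) ∧
      (∀ j ∈ JC, Sum.inr (cl (pw j)) ∈ E ∧ ClOk (pw j) ∧
        pw j ≠ ((j * Q + 1 : ℕ) : ZMod n) + 1 ∧ pw j ≠ -((j * Q + 1 : ℕ) : ZMod n)) ∧
      (∀ i ∈ JC, ∀ j ∈ JC, cl (pw i) = cl (pw j) → i = j) ∧
      (∀ c, Sum.inr c ∈ E → ∃ j ∈ JC, cl (pw j) = c) := by
  classical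
  obtain ⟨pc1, pc2⟩ := pts_card E
  rw [hp] at pc1
  rw [hc] at pc2
  set P := univ.filter fun x : ZMod n => (Sum.inl x : Elt n) ∈ E with hP
  set C := univ.filter fun c : Sym2 (ZMod n) => (Sum.inr c : Elt n) ∈ E with hC
  have hQs : (Q - 1) * s + s = Q * s := by
    have : Q = (Q - 1) + 1 := by omega
    calc (Q - 1) * s + s = ((Q - 1) + 1) * s := by ring
      _ = Q * s := by rw [← this]
  have hPc : P.card = 2 * ((Q - 1) * s) := by rw [pc1]; ring
  have hsQ : P.Nonempty → 1 ≤ s := by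
    intro h
    rcases Nat.eq_zero_or_pos s with h0 | h0
    · rw [h0, Nat.mul_zero, Nat.mul_zero] at hPc
      exact absurd (card_pos.2 h) (by omega)
    · exact h0
  have hsC : C.Nonempty → 1 ≤ s := by
    intro h
    rcases Nat.eq_zero_or_pos s with h0 | h0
    · rw [h0, Nat.mul_zero] at pc2
      exact absurd (card_pos.2 h) (by omega)
    · exact h0
  have hQ20 : 20 * s ≤ Q * s := Nat.mul_le_mul_right s hQ
  -- points
  obtain ⟨φ, φ1, φ2⟩ := greedy (α := ZMod n) (β := ℕ)
    (fun x j x' j' => j = j' ∨ x - ((j * Q + 2 : ℕ) : ZMod n) = x' - ((j' * Q + 2 : ℕ) : ZMod n))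
    (by
      intro a b a' b' h
      rcases h with h | h
      · exact Or.inl h.symm
      · exact Or.inr h.symm) P
    (fun x => (Jres.filter fun j : ℕ =>
        (Sum.inl (x - ((j * Q + 2 : ℕ) : ZMod n)) : Elt n) ∈ Y).filter fun j : ℕ =>
        x - U (j * Q) ≠ 1) 2 (by
      intro x _ x' _ j'
      have : (((Jres.filter fun j : ℕ =>
        (Sum.inl (x - ((j * Q + 2 : ℕ) : ZMod n)) : Elt n) ∈ Y).filter fun j : ℕ =>
        x - U (j * Q) ≠ 1).filter fun j : ℕ => j = j' ∨ x - ((j * Q + 2 : ℕ) : ZMod n) =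
          x' - ((j' * Q + 2 : ℕ) : ZMod n)) ⊆ {j'} ∪ (Jres.filter fun j : ℕ =>
          x - ((j * Q + 2 : ℕ) : ZMod n) = x' - ((j' * Q + 2 : ℕ) : ZMod n)) := by
        intro j hj
        simp only [mem_filter, mem_union, mem_singleton] at hj ⊢
        tauto
      refine (card_le_card this).trans ((card_union_le _ _).trans ?_)
      have h1 : (Jres.filter fun j : ℕ =>
          x - ((j * Q + 2 : ℕ) : ZMod n) = x' - ((j' * Q + 2 : ℕ) : ZMod n)).card ≤ 1 := by
        rw [card_le_one]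
        intro i hi j hj
        have hi' := mem_filter.1 hi
        have hj' := mem_filter.1 hj
        refine block_cast_inj (n := n) (c := 2) (by omega) (by omega) (hJ hi'.1) (hJ hj'.1) ?_
        have h1 := hi'.2
        have h2 := hj'.2
        linear_combination h2 - h1
      rw [card_singleton]
      omega) (by
      intro x hxP
      have h1 := hx x
      have h2 := card_filter_add_card_filter_not (s := Jres.filter fun j : ℕ =>
        (Sum.inl (x - ((j * Q + 2 : ℕ) : ZMod n)) : Elt n) ∈ Y) (fun j : ℕ => x - U (j * Q) ≠ 1)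
      have h3 : ((Jres.filter fun j : ℕ =>
        (Sum.inl (x - ((j * Q + 2 : ℕ) : ZMod n)) : Elt n) ∈ Y).filter fun j : ℕ =>
          ¬ (x - U (j * Q) ≠ 1)).card ≤ 1 := by
        rw [card_le_one]
        intro i hi j hj
        rw [mem_filter, mem_filter, not_not] at hi hj
        have hib := hJ hi.1.1
        have hjb := hJ hj.1.1
        have h5 : i * Q = j * Q := by
          refine hfix.up _ (anchor_mem (by omega) hib) _ (anchor_mem (by omega) hjb) ?_
          have h1 := hi.2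
          have h2 := hj.2
          linear_combination h2 - h1
        exact Nat.eq_of_mul_eq_mul_right (by omega) h5
      have h4 := hsQ ⟨x, hxP⟩
      show 2 * P.card < ((Jres.filter fun j : ℕ =>
        (Sum.inl (x - ((j * Q + 2 : ℕ) : ZMod n)) : Elt n) ∈ Y).filter fun j : ℕ =>
          x - U (j * Q) ≠ 1).card
      omega) P (Subset.refl _)
  have φinj : Set.InjOn φ P := by
    intro x hx x' hx' h
    by_contra hne
    exact φ2 x hx x' hx' hne (Or.inl h)
  set JP := P.image φ with hJP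
  have hJPc : JP.card = P.card := card_image_of_injOn φinj
  have hJPr : JP ⊆ Jres := by
    intro j hj
    obtain ⟨x, hx, rfl⟩ := mem_image.1 hj
    exact (mem_filter.1 (mem_filter.1 (φ1 x hx)).1).1
  have hpx : ∀ j ∈ JP, Function.invFunOn φ P j ∈ P ∧ φ (Function.invFunOn φ P j) = j := by
    intro j hj
    obtain ⟨x, hx, hx'⟩ := mem_image.1 hj
    have hex : ∃ a ∈ (P : Set (ZMod n)), φ a = j := ⟨x, hx, hx'⟩
    exact ⟨Function.invFunOn_mem hex, Function.invFunOn_eq hex⟩
  have hpx2 : ∀ x ∈ P, Function.invFunOn φ P (φ x) = x := fun x hx =>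
    φinj.leftInvOn_invFunOn hx
  -- classes
  have hw : ∀ c : Sym2 (ZMod n), ∃ w : ZMod n, c ∈ C → ClOk w ∧ cl w = c := by
    intro c
    by_cases hcC : c ∈ C
    · obtain ⟨w, h1, h2⟩ := mem_all_inr (mem_sdiff.1 (hE (mem_filter.1 hcC).2)).1
      exact ⟨w, fun _ => ⟨h1, h2⟩⟩
    · exact ⟨0, fun h => absurd h hcC⟩
  choose wc hwc using hw
  obtain ⟨ψ, ψ1, ψ2⟩ := greedy (α := Sym2 (ZMod n)) (β := ℕ)
    (fun _ j _ j' => j = j') (by
      intro a b a' b' h
      exact h.symm) C
    (fun c => (Jres \ JP).filter fun j : ℕ =>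
        wc c ≠ ((j * Q + 1 : ℕ) : ZMod n) + 1 ∧ wc c ≠ -((j * Q + 1 : ℕ) : ZMod n)) 1 (by
      intro c _ c' _ j'
      have : (((Jres \ JP).filter fun j : ℕ =>
        wc c ≠ ((j * Q + 1 : ℕ) : ZMod n) + 1 ∧ wc c ≠ -((j * Q + 1 : ℕ) : ZMod n)).filter
          fun j : ℕ => j = j') ⊆ {j'} := by
        intro j hj
        simp only [mem_filter, mem_singleton] at hj ⊢
        exact hj.2
      exact (card_le_card this).trans (by rw [card_singleton])) (by
      intro c hcC
      have h2 := card_filter_add_card_filter_not (s := Jres \ JP) (fun j : ℕ =>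
        wc c ≠ ((j * Q + 1 : ℕ) : ZMod n) + 1 ∧ wc c ≠ -((j * Q + 1 : ℕ) : ZMod n))
      have h3 : ((Jres \ JP).filter fun j : ℕ =>
        ¬ (wc c ≠ ((j * Q + 1 : ℕ) : ZMod n) + 1 ∧
          wc c ≠ -((j * Q + 1 : ℕ) : ZMod n))).card ≤ 2 := by
        have hs : ((Jres \ JP).filter fun j : ℕ =>
          ¬ (wc c ≠ ((j * Q + 1 : ℕ) : ZMod n) + 1 ∧
            wc c ≠ -((j * Q + 1 : ℕ) : ZMod n))) ⊆
          (Jres.filter fun j : ℕ => wc c = ((j * Q + 1 : ℕ) : ZMod n) + 1) ∪
          (Jres.filter fun j : ℕ => wc c = -((j * Q + 1 : ℕ) : ZMod n)) := by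
          intro j hj
          simp only [mem_filter, mem_union, mem_sdiff] at hj ⊢
          tauto
        refine (card_le_card hs).trans ((card_union_le _ _).trans ?_)
        have k1 : (Jres.filter fun j : ℕ => wc c = ((j * Q + 1 : ℕ) : ZMod n) + 1).card ≤ 1 := by
          rw [card_le_one]
          intro i hi j hj
          have hi' := mem_filter.1 hi
          have hj' := mem_filter.1 hj
          refine block_cast_inj (n := n) (c := 1) (by omega) (by omega) (hJ hi'.1) (hJ hj'.1) ?_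
          have h1 := hi'.2
          have h2 := hj'.2
          linear_combination h2 - h1
        have k2 : (Jres.filter fun j : ℕ => wc c = -((j * Q + 1 : ℕ) : ZMod n)).card ≤ 1 := by
          rw [card_le_one]
          intro i hi j hj
          have hi' := mem_filter.1 hi
          have hj' := mem_filter.1 hj
          refine block_cast_inj (n := n) (c := 1) (by omega) (by omega) (hJ hi'.1) (hJ hj'.1) ?_
          have h1 := hi'.2
          have h2 := hj'.2
          linear_combination h1 - h2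
        omega
      have h4 := hsC ⟨c, hcC⟩
      have h5 := card_sdiff_add_card_eq_card hJPr
      show 1 * C.card < ((Jres \ JP).filter fun j : ℕ =>
        wc c ≠ ((j * Q + 1 : ℕ) : ZMod n) + 1 ∧ wc c ≠ -((j * Q + 1 : ℕ) : ZMod n)).card
      omega) C (Subset.refl _)
  have ψinj : Set.InjOn ψ C := by
    intro x hx x' hx' h
    by_contra hne
    exact ψ2 x hx x' hx' hne h
  set JC := C.image ψ with hJC
  have hJCc : JC.card = C.card := card_image_of_injOn ψinj
  have hJCr : JC ⊆ Jres \ JP := by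
    intro j hj
    obtain ⟨x, hx, rfl⟩ := mem_image.1 hj
    exact (mem_filter.1 (ψ1 x hx)).1
  have hpc : ∀ j ∈ JC, Function.invFunOn ψ C j ∈ C ∧ ψ (Function.invFunOn ψ C j) = j := by
    intro j hj
    obtain ⟨x, hx, hx'⟩ := mem_image.1 hj
    have hex : ∃ a ∈ (C : Set (Sym2 (ZMod n))), ψ a = j := ⟨x, hx, hx'⟩
    exact ⟨Function.invFunOn_mem hex, Function.invFunOn_eq hex⟩
  have hpc2 : ∀ x ∈ C, Function.invFunOn ψ C (ψ x) = x := fun x hx =>
    ψinj.leftInvOn_invFunOn hx
  refine ⟨JP, JC, fun j => Function.invFunOn φ P j, fun j => wc (Function.invFunOn ψ C j),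
    hJPr, fun j hj => (mem_sdiff.1 (hJCr hj)).1, ?_, by rw [hJPc, pc1], by rw [hJCc, pc2],
    ?_, ?_, ?_, ?_, ?_, ?_, ?_⟩
  · rw [disjoint_left]
    intro j hj hj'
    exact (mem_sdiff.1 (hJCr hj')).2 hj
  · intro j hj
    obtain ⟨h1, h2⟩ := hpx j hj
    have h3 := φ1 _ h1
    rw [mem_filter, mem_filter] at h3
    simp only [h2] at h3
    exact ⟨(mem_filter.1 h1).2, h3.1.2, h3.2⟩
  · intro i hi j hj h
    rw [← (hpx i hi).2, ← (hpx j hj).2]
    exact congrArg φ h
  · intro i hi j hj h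
    by_contra hne
    obtain ⟨h1, h2⟩ := hpx i hi
    obtain ⟨h3, h4⟩ := hpx j hj
    refine φ2 _ h1 _ h3 ?_ ?_
    · intro h5
      apply hne
      rw [← h2, ← h4, h5]
    · right
      rw [h2, h4]
      exact h
  · intro x hx
    have hxP : x ∈ P := mem_filter.2 ⟨mem_univ _, hx⟩
    exact ⟨φ x, mem_image_of_mem _ hxP, hpx2 x hxP⟩
  · intro j hj
    obtain ⟨h1, h2⟩ := hpc j hj
    have h3 := ψ1 _ h1
    rw [mem_filter] at h3
    simp only [h2] at h3
    obtain ⟨h4, h5⟩ := hwc _ h1
    refine ⟨?_, h4, h3.2.1, h3.2.2⟩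
    show (Sum.inr (cl (wc (Function.invFunOn ψ C j))) : Elt n) ∈ E
    rw [h5]
    exact (mem_filter.1 h1).2
  · intro i hi j hj h
    obtain ⟨h1, h2⟩ := hpc i hi
    obtain ⟨h3, h4⟩ := hpc j hj
    have h : cl (wc (Function.invFunOn ψ C i)) = cl (wc (Function.invFunOn ψ C j)) := h
    rw [(hwc _ h1).2, (hwc _ h3).2] at h
    rw [← h2, ← h4, h]
  · intro c hcE
    have hcC : c ∈ C := mem_filter.2 ⟨mem_univ _, hcE⟩
    refine ⟨ψ c, mem_image_of_mem _ hcC, ?_⟩
    show cl (wc (Function.invFunOn ψ C (ψ c))) = c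
    rw [hpc2 c hcC]
    exact (hwc c hcC).2

/-! ### Labels -/

lemma zmod2_cases (x : ZMod 2) : x = 0 ∨ x = 1 := by
  revert x
  decide

lemma cast2_of_even {k : ℕ} (h : Even k) : (k : ZMod 2) = 0 :=
  (ZMod.natCast_eq_zero_iff k 2).2 h.two_dvd

lemma cast2_of_odd {k : ℕ} (h : ¬ Even k) : (k : ZMod 2) = 1 := by
  rcases zmod2_cases (k : ZMod 2) with h' | h'
  · exact absurd (even_iff_two_dvd.2 ((ZMod.natCast_eq_zero_iff k 2).1 h')) h
  · exact h'

lemma cnt_even [NeZero n] {k : ℕ} (hk : Even k) (v : ZMod n) :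
    cnt k v = if par v = 0 then 0 else 2 := by
  unfold cnt
  have : par (v - (k : ZMod n)) = par v := by
    rw [par_sub, par_natCast]
    unfold parT
    rw [cast2_of_even hk]
    simp
  rw [this]
  split_ifs <;> rfl

lemma cnt_odd [NeZero n] {k : ℕ} (hn : Even n) (hk : ¬ Even k) (v : ZMod n) :
    cnt k v = 1 := by
  unfold cnt
  have : par (v - (k : ZMod n)) = par v - 1 := by
    rw [par_sub, par_natCast]
    unfold parT
    rw [if_pos hn, cast2_of_odd hk]
  rw [this]
  rcases zmod2_cases (par v) with h | h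
  · rw [h]
    have h1 : ¬ ((0 : ZMod 2) - 1 = 0) := by decide
    rw [if_pos rfl, if_neg h1]
  · rw [h]
    have h1 : ¬ ((1 : ZMod 2) = 0) := by decide
    rw [if_neg h1, if_pos (sub_self _)]

lemma cnt_cast [NeZero n] (hn : Even n) (k : ℕ) (v : ZMod n) :
    ((cnt k v : ℕ) : ZMod 2) = parT n k := by
  unfold parT
  rw [if_pos hn]
  by_cases hk : Even k
  · rw [cnt_even hk, cast2_of_even hk]
    split_ifs
    · rfl
    · decide
  · rw [cnt_odd hn hk, cast2_of_odd hk]
    rfl

lemma cnt_zero_of_odd (hn : ¬ Even n) (k : ℕ) (v : ZMod n) : cnt k v = 0 := by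
  unfold cnt
  rw [if_pos (par_odd hn _), if_pos (par_odd hn _)]

lemma par_one_ne [NeZero n] (hn : Even n) : par (1 : ZMod n) ≠ 0 := by
  have h := par_natCast (n := n) 1
  rw [Nat.cast_one] at h
  rw [h]
  unfold parT
  rw [if_pos hn]
  decide

lemma half_card (a Q : ℕ) (hQ : 1 ≤ Q) (p : ℕ) :
    2 * ((Ioo a (a + Q)).filter fun k => k % 2 = p).card ≤ Q + 1 := by
  have : ((Ioo a (a + Q)).filter fun k => k % 2 = p).card ≤
      (Icc ((a + 1) / 2) ((a + Q - 1) / 2)).card := by
    refine card_le_card_of_injOn (fun k => k / 2) ?_ ?_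
    · intro k hk
      have hk' := mem_filter.1 hk
      rw [mem_Ioo] at hk'
      rw [coe_Icc, Set.mem_Icc]
      constructor
      · exact Nat.div_le_div_right (by omega)
      · exact Nat.div_le_div_right (by omega)
    · intro k hk k' hk' h
      have h1 := (mem_filter.1 hk).2
      have h2 := (mem_filter.1 hk').2
      have h : k / 2 = k' / 2 := h
      omega
  rw [Nat.card_Icc] at this
  omega

lemma block_card (a Q : ℕ) (hQ : 1 ≤ Q) :
    2 * ((Ioo a (a + Q)).filter fun k => Even k).card ≤ Q + 1 ∧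
    2 * ((Ioo a (a + Q)).filter fun k => ¬ Even k).card ≤ Q + 1 ∧
    ((Ioo a (a + Q)).filter fun k => Even k).card +
    ((Ioo a (a + Q)).filter fun k => ¬ Even k).card + 1 = Q := by
  have h1 := half_card a Q hQ 0
  have h2 := half_card a Q hQ 1
  have e1 : ((Ioo a (a + Q)).filter fun k => Even k) =
      ((Ioo a (a + Q)).filter fun k => k % 2 = 0) := by
    ext k
    rw [mem_filter, mem_filter, Nat.even_iff]
  have e2 : ((Ioo a (a + Q)).filter fun k => ¬ Even k) =
      ((Ioo a (a + Q)).filter fun k => k % 2 = 1) := by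
    ext k
    rw [mem_filter, mem_filter, Nat.not_even_iff]
  have h3 := card_filter_add_card_filter_not (s := Ioo a (a + Q)) (fun k => Even k)
  rw [Nat.card_Ioo] at h3
  rw [e1, e2] at *
  refine ⟨h1, h2, ?_⟩
  omega

lemma blocks_disj {Q i j : ℕ} (h : i ≠ j) :
    Disjoint (Ioo (i * Q) ((i + 1) * Q)) (Ioo (j * Q) ((j + 1) * Q)) := by
  rw [disjoint_left]
  intro k hk hk'
  rw [mem_Ioo] at hk hk'
  rcases lt_or_gt_of_ne h with h | h
  · have : (i + 1) * Q ≤ j * Q := Nat.mul_le_mul_right Q h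
    omega
  · have : (j + 1) * Q ≤ i * Q := Nat.mul_le_mul_right Q h
    omega

lemma labels [NeZero n] {Q r s T : ℕ} (hQ : 20 ≤ Q) (hn : Even n) (J : Finset ℕ)
    (hJc : J.card = r + s) (hrs : 1000 * (Q * s) ≤ r) (zl0 : ℕ → ZMod n) (FT : Finset ℕ)
    (hFT : FT.card ≤ 6 * (Q * s)) (hz0 : ∀ k, k ∉ FT → zl0 k = 0)
    (hT : ((T : ℕ) : ZMod 2) = ∑ j ∈ J, ∑ k ∈ Ioo (j * Q) ((j + 1) * Q), parT n k)
    (hTl : (Q - 1) * r ≤ T) (hTu : T ≤ (Q - 1) * r + 2 * (Q * s)) :
    ∃ zl : ℕ → ZMod n, (∀ k ∈ FT, zl k = zl0 k) ∧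
      ∑ j ∈ J, ∑ k ∈ Ioo (j * Q) ((j + 1) * Q), cnt k (zl k) = T := by
  classical
  set A := J.biUnion fun j => Ioo (j * Q) ((j + 1) * Q) with hA
  have hdisj : ∀ i ∈ J, ∀ j ∈ J, i ≠ j →
      Disjoint (Ioo (i * Q) ((i + 1) * Q)) (Ioo (j * Q) ((j + 1) * Q)) :=
    fun i _ j _ h => blocks_disj h
  have hsum : ∀ g : ℕ → ℕ, ∑ j ∈ J, ∑ k ∈ Ioo (j * Q) ((j + 1) * Q), g k = ∑ k ∈ A, g k :=
    fun g => (sum_biUnion hdisj).symm
  have hsum2 : ∑ j ∈ J, ∑ k ∈ Ioo (j * Q) ((j + 1) * Q), parT n k = ∑ k ∈ A, parT n k :=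
    (sum_biUnion hdisj).symm
  rw [hsum2] at hT
  have hev : (A.filter fun k => Even k).card =
      ∑ j ∈ J, ((Ioo (j * Q) ((j + 1) * Q)).filter fun k => Even k).card := by
    rw [card_filter, ← hsum]
    refine sum_congr rfl fun j _ => ?_
    rw [card_filter]
  have hod : (A.filter fun k => ¬ Even k).card =
      ∑ j ∈ J, ((Ioo (j * Q) ((j + 1) * Q)).filter fun k => ¬ Even k).card := by
    rw [card_filter, ← hsum]
    refine sum_congr rfl fun j _ => ?_
    rw [card_filter]
  have hb : ∀ j ∈ J, 2 * ((Ioo (j * Q) ((j + 1) * Q)).filter fun k => Even k).card ≤ Q + 1 ∧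
    2 * ((Ioo (j * Q) ((j + 1) * Q)).filter fun k => ¬ Even k).card ≤ Q + 1 ∧
    ((Ioo (j * Q) ((j + 1) * Q)).filter fun k => Even k).card +
    ((Ioo (j * Q) ((j + 1) * Q)).filter fun k => ¬ Even k).card + 1 = Q := by
    intro j _
    have e : (j + 1) * Q = j * Q + Q := by ring
    rw [e]
    exact block_card _ _ (by omega)
  have h1 : 2 * (A.filter fun k => Even k).card ≤ (Q + 1) * (r + s) := by
    rw [hev, mul_sum, ← hJc, Nat.mul_comm (Q + 1)]
    refine (sum_le_card_nsmul J _ (Q + 1) fun j hj => (hb j hj).1).trans ?_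
    rw [smul_eq_mul]
  have h2 : 2 * (A.filter fun k => ¬ Even k).card ≤ (Q + 1) * (r + s) := by
    rw [hod, mul_sum, ← hJc, Nat.mul_comm (Q + 1)]
    refine (sum_le_card_nsmul J _ (Q + 1) fun j hj => (hb j hj).2.1).trans ?_
    rw [smul_eq_mul]
  have h3 : (A.filter fun k => Even k).card + (A.filter fun k => ¬ Even k).card + (r + s) =
      Q * (r + s) := by
    rw [hev, hod, ← sum_add_distrib, ← hJc, card_eq_sum_ones, ← sum_add_distrib, mul_sum]
    refine sum_congr rfl fun j hj => ?_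
    rw [(hb j hj).2.2, Nat.mul_one]
  set W := A.filter fun k => Even k ∧ k ∉ FT with hW
  have hWc : (A.filter fun k => Even k).card ≤ W.card + FT.card := by
    refine (card_le_card (t := W ∪ FT) ?_).trans (card_union_le _ _)
    intro k hk
    rw [mem_union, hW, mem_filter]
    rw [mem_filter] at hk
    by_cases h : k ∈ FT
    · exact Or.inr h
    · exact Or.inl ⟨hk.1, hk.2, h⟩
  have hS0 : ∑ k ∈ A, cnt k (zl0 k) ≤ (A.filter fun k => ¬ Even k).card + 2 * FT.card := by
    have e1 : ∑ k ∈ A, cnt k (zl0 k) ≤ ∑ k ∈ A, ((if ¬ Even k then 1 else 0) +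
        (if k ∈ FT then 2 else 0)) := by
      refine sum_le_sum fun k _ => ?_
      by_cases hk : Even k
      · rw [cnt_even hk, if_neg (not_not.2 hk)]
        by_cases hk2 : k ∈ FT
        · rw [if_pos hk2]
          split_ifs <;> omega
        · rw [if_neg hk2, hz0 k hk2, if_pos par_zero]
      · rw [cnt_odd hn hk, if_pos hk]
        omega
    refine e1.trans ?_
    rw [sum_add_distrib, ← card_filter]
    have e2 : ∑ k ∈ A, (if k ∈ FT then 2 else 0) ≤ 2 * FT.card := by
      rw [← sum_filter, sum_const, smul_eq_mul, Nat.mul_comm]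
      refine Nat.mul_le_mul_left 2 (card_le_card ?_)
      intro k hk
      exact (mem_filter.1 hk).2
    omega
  have hS1 : (A.filter fun k => ¬ Even k).card ≤ ∑ k ∈ A, cnt k (zl0 k) := by
    rw [card_filter]
    refine sum_le_sum fun k _ => ?_
    by_cases hk : Even k
    · rw [if_neg (not_not.2 hk)]
      exact Nat.zero_le _
    · rw [cnt_odd hn hk, if_pos hk]
  have hpar : ((∑ k ∈ A, cnt k (zl0 k) : ℕ) : ZMod 2) = ((T : ℕ) : ZMod 2) := by
    rw [hT, Nat.cast_sum]
    exact sum_congr rfl fun k _ => cnt_cast hn k _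
  have hmod := (ZMod.natCast_eq_natCast_iff' _ _ _).1 hpar
  have m1 : 20 * r ≤ Q * r := Nat.mul_le_mul_right r hQ
  have m2 : 20 * s ≤ Q * s := Nat.mul_le_mul_right s hQ
  have m3 : (Q - 1) * r + r = Q * r := by
    have : Q = (Q - 1) + 1 := by omega
    calc (Q - 1) * r + r = ((Q - 1) + 1) * r := by ring
      _ = Q * r := by rw [← this]
  have m4 : (Q + 1) * (r + s) = Q * r + Q * s + r + s := by ring
  have m5 : Q * (r + s) = Q * r + Q * s := by ring
  rw [m4] at h1 h2
  rw [m5] at h3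
  set S0 := ∑ k ∈ A, cnt k (zl0 k) with hS0def
  have hle : S0 ≤ T := by omega
  have hle2 : (T - S0) / 2 ≤ W.card := by omega
  obtain ⟨A', hA', hA'c⟩ := exists_subset_card_eq hle2
  refine ⟨fun k => if k ∈ A' then 1 else zl0 k, ?_, ?_⟩
  · intro k hk
    have : k ∉ A' := fun h => (mem_filter.1 (hA' h)).2.2 hk
    show (if k ∈ A' then 1 else zl0 k) = zl0 k
    rw [if_neg this]
  · rw [hsum (fun k => cnt k (if k ∈ A' then 1 else zl0 k))]
    have e1 : ∑ k ∈ A, cnt k (if k ∈ A' then 1 else zl0 k) =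
        ∑ k ∈ A, (cnt k (zl0 k) + (if k ∈ A' then 2 else 0)) := by
      refine sum_congr rfl fun k _ => ?_
      by_cases hk : k ∈ A'
      · have h4 := (mem_filter.1 (hA' hk)).2
        rw [if_pos hk, if_pos hk, cnt_even h4.1, cnt_even h4.1, hz0 k h4.2, if_pos par_zero,
          if_neg (par_one_ne hn)]
      · rw [if_neg hk, if_neg hk, Nat.add_zero]
    rw [e1, sum_add_distrib, ← hS0def, ← sum_filter, sum_const, smul_eq_mul]
    have e2 : (A.filter fun k => k ∈ A') = A' := by
      ext k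
      rw [mem_filter]
      exact ⟨fun h => h.2, fun h => ⟨(mem_filter.1 (hA' h)).1, h⟩⟩
    rw [e2, hA'c]
    omega

/-! ### Assembly -/

lemma cnt_congr [NeZero n] {k : ℕ} {v v' : ZMod n} (h : par v = par v') : cnt k v = cnt k v' := by
  unfold cnt
  rw [par_sub, par_sub, h]

lemma kc_biUnion (J : Finset ℕ) (g : ℕ → Finset (Elt n)) (t : Fin 3)
    (h : ∀ i ∈ J, ∀ j ∈ J, i ≠ j → Disjoint (g i) (g j)) :
    kc (J.biUnion g) t = ∑ j ∈ J, kc (g j) t := by
  unfold kc
  rw [filter_biUnion, card_biUnion]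
  intro i hi j hj hij
  exact disjoint_filter_filter (h i hi j hj hij)

lemma kc_sdiff {T E : Finset (Elt n)} (h : E ⊆ T) (t : Fin 3) :
    kc T t = kc E t + kc (T \ E) t := by
  unfold kc
  have e : (T.filter fun y => kd y = t) = (E.filter fun y => kd y = t) ∪
      ((T \ E).filter fun y => kd y = t) := by
    rw [← filter_union, union_sdiff_of_subset h]
  rw [e, card_union_of_disjoint]
  exact disjoint_filter_filter disjoint_sdiff

lemma kc_one_of_odd (hn : ¬ Even n) (E : Finset (Elt n)) : kc E 1 = 0 := by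
  unfold kc
  rw [card_eq_zero, filter_eq_empty_iff]
  intro y _
  rcases y with x | c
  · unfold kd
    rw [Sum.elim_inl, if_pos (par_odd hn x)]
    decide
  · unfold kd
    rw [Sum.elim_inr]
    decide

lemma main [NeZero n] {Q s : ℕ} {c0 : ℝ} (hQ : 20 ≤ Q) {U : ℕ → ZMod n} {Y E : Finset (Elt n)}
    {Jres J2 : Finset ℕ} (hfix : FixOk n Q U) (hYA : Y ⊆ All n) (hY : YOk n Q c0 Y)
    (hJ : Jres ⊆ Blocks n Q) (hJ2 : J2 ⊆ Blocks n Q \ Jres) (hs : J2.card = s)
    (hE : E ⊆ All n \ Y)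
    (hp : kc E 0 + kc E 1 = 2 * (Q - 1) * s) (hc : kc E 2 = Q * s)
    (hr : 1000 * (Q * s) ≤ Jres.card)
    (hx : ∀ x : ZMod n, 1000 * (Q * s) ≤ (Jres.filter fun j : ℕ =>
        (Sum.inl (x - ((j * Q + 2 : ℕ) : ZMod n)) : Elt n) ∈ Y).card)
    (hcard : ((6 * (2 * (Q * s) + 3 * Q * (Jres.card + s) + 3 * Q) + 3 : ℕ) : ℝ) < c0 * n)
    (hpar : ((kc E 1 + uu n Q Jres.card 1 : ℕ) : ZMod 2) =
        ∑ j ∈ Jres ∪ J2, ∑ k ∈ Ioo (j * Q) ((j + 1) * Q), parT n k) :
    ∃ Y2 ⊆ Y, (∀ t, kc Y2 t = uu n Q Jres.card t) ∧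
      Packable n Q U (Jres ∪ J2) (E ∪ Y2) := by
  classical
  obtain ⟨JP, JC, px, pw, hJP, hJC, hPC, hJPc, hJCc, p1, p2, p3, p4, q1, q2, q3⟩ :=
    types hQ hfix hJ hE hp hc hr hx
  set r := Jres.card with hrdef
  have hdJ : Disjoint Jres J2 := by
    rw [disjoint_left]
    intro j hj hj'
    exact (mem_sdiff.1 (hJ2 hj')).2 hj
  have hJc : (Jres ∪ J2).card = r + s := by
    rw [card_union_of_disjoint hdJ, hs]
  have hJB : ∀ j ∈ Jres ∪ J2, j ∈ Blocks n Q := by
    intro j hj
    rcases mem_union.1 hj with h | h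
    · exact hJ h
    · exact (mem_sdiff.1 (hJ2 h)).1
  have hEY : ∀ y ∈ E, y ∉ Y := fun y hy => (mem_sdiff.1 (hE hy)).2
  have hQs : (Q - 1) * s + s = Q * s := by
    have : Q = (Q - 1) + 1 := by omega
    calc (Q - 1) * s + s = ((Q - 1) + 1) * s := by ring
      _ = Q * s := by rw [← this]
  have hQr : (Q - 1) * r + r = Q * r := by
    have : Q = (Q - 1) + 1 := by omega
    calc (Q - 1) * r + r = ((Q - 1) + 1) * r := by ring
      _ = Q * r := by rw [← this]
  have hpA : 2 * (Q - 1) * s = 2 * ((Q - 1) * s) := by ring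
  -- labels
  set zl0 : ℕ → ZMod n := fun k => if k % Q = 2 then
    (if k / Q ∈ JP then px (k / Q) else if k / Q ∈ JC then pw (k / Q) else 0) else 0 with hzl0
  have hmod : ∀ j c : ℕ, c < Q → (j * Q + c) % Q = c := by
    intro j c hc
    rw [Nat.add_comm, Nat.add_mul_mod_self_right, Nat.mod_eq_of_lt hc]
  have hdiv : ∀ j c : ℕ, c < Q → (j * Q + c) / Q = j := by
    intro j c hc
    rw [Nat.add_comm, Nat.add_mul_div_right _ _ (by omega), Nat.div_eq_of_lt hc, Nat.zero_add]
  have z1 : ∀ j ∈ JP, zl0 (j * Q + 2) = px j := by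
    intro j hj
    simp only [hzl0]
    rw [hmod j 2 (by omega), hdiv j 2 (by omega), if_pos rfl, if_pos hj]
  have z2 : ∀ j ∈ JC, zl0 (j * Q + 2) = pw j := by
    intro j hj
    simp only [hzl0]
    rw [hmod j 2 (by omega), hdiv j 2 (by omega), if_pos rfl,
      if_neg (fun h => disjoint_left.1 hPC h hj), if_pos hj]
  have z3 : ∀ j : ℕ, zl0 (j * Q + 1) = 0 := by
    intro j
    simp only [hzl0]
    rw [hmod j 1 (by omega), if_neg (by omega)]
  set FT : Finset ℕ := (JP.image fun j => j * Q + 2) ∪ ((JC.image fun j => j * Q + 2) ∪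
    (JC.image fun j => j * Q + 1)) with hFT
  have hFTc : FT.card ≤ 6 * (Q * s) := by
    have u1 := card_union_le (JP.image fun j => j * Q + 2) ((JC.image fun j => j * Q + 2) ∪
      (JC.image fun j => j * Q + 1))
    have u2 := card_union_le (JC.image fun j => j * Q + 2) (JC.image fun j => j * Q + 1)
    have u3 := card_image_le (s := JP) (f := fun j => j * Q + 2)
    have u4 := card_image_le (s := JC) (f := fun j => j * Q + 2)
    have u5 := card_image_le (s := JC) (f := fun j => j * Q + 1)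
    rw [hFT]
    omega
  have hz0 : ∀ k, k ∉ FT → zl0 k = 0 := by
    intro k hk
    simp only [hzl0]
    by_cases h1 : k % Q = 2
    · have hkq : k / Q * Q + 2 = k := by
        have := Nat.div_add_mod k Q
        rw [h1, Nat.mul_comm] at this
        exact this
      rw [if_pos h1]
      by_cases h2 : k / Q ∈ JP
      · exfalso
        apply hk
        rw [hFT]
        exact mem_union_left _ (mem_image.2 ⟨k / Q, h2, hkq⟩)
      · rw [if_neg h2]
        by_cases h3 : k / Q ∈ JC
        · exfalso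
          apply hk
          rw [hFT]
          exact mem_union_right _ (mem_union_left _ (mem_image.2 ⟨k / Q, h3, hkq⟩))
        · rw [if_neg h3]
    · rw [if_neg h1]
  obtain ⟨zl, l1, l2⟩ : ∃ zl : ℕ → ZMod n, (∀ k ∈ FT, zl k = zl0 k) ∧
      ∑ j ∈ Jres ∪ J2, ∑ k ∈ Ioo (j * Q) ((j + 1) * Q), cnt k (zl k) =
        kc E 1 + uu n Q r 1 := by
    by_cases hn : Even n
    · have hu : uu n Q r 1 = (Q - 1) * r := by
        simp [uu, hn]
      refine labels hQ hn (Jres ∪ J2) hJc hr zl0 FT hFTc hz0 hpar ?_ ?_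
      · rw [hu]
        omega
      · rw [hu]
        omega
    · have hu : uu n Q r 1 = 0 := by
        simp [uu, hn]
      refine ⟨zl0, fun _ _ => rfl, ?_⟩
      rw [hu, kc_one_of_odd hn]
      refine sum_eq_zero fun j _ => sum_eq_zero fun k _ => cnt_zero_of_odd hn _ _
  -- special elements
  set O : Finset (Elt n) := JP.image fun j => Sum.inl (px j - ((j * Q + 2 : ℕ) : ZMod n)) with hO
  have hOc : O.card ≤ 2 * (Q * s) := by
    have := card_image_le (s := JP)
      (f := fun j => (Sum.inl (px j - ((j * Q + 2 : ℕ) : ZMod n)) : Elt n))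
    rw [hO]
    omega
  set sp : ℕ → Finset (Elt n) := fun j => if j ∈ JP then
      {Sum.inl (px j), Sum.inl (px j - ((j * Q + 2 : ℕ) : ZMod n))}
    else if j ∈ JC then {Sum.inr (cl (pw j))} else ∅ with hsp
  have hspm : ∀ j y, y ∈ sp j ↔ (j ∈ JP ∧ (y = Sum.inl (px j) ∨
      y = Sum.inl (px j - ((j * Q + 2 : ℕ) : ZMod n)))) ∨ (j ∈ JC ∧ y = Sum.inr (cl (pw j))) := by
    intro j y
    simp only [hsp]
    by_cases h1 : j ∈ JP
    · have h2 : j ∉ JC := disjoint_left.1 hPC h1
      rw [if_pos h1, mem_insert, mem_singleton]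
      tauto
    · by_cases h2 : j ∈ JC
      · rw [if_neg h1, if_pos h2, mem_singleton]
        tauto
      · rw [if_neg h1, if_neg h2]
        have : y ∉ (∅ : Finset (Elt n)) := notMem_empty _
        tauto
  have hblock : ∀ j ∈ Jres ∪ J2, BlockOk n Q U Y O c0 zl j (sp j) := by
    intro j hj
    have hjB := hJB j hj
    by_cases h1 : j ∈ JP
    · have e : sp j = {Sum.inl (px j), Sum.inl (px j - ((j * Q + 2 : ℕ) : ZMod n))} := by
        simp only [hsp]
        rw [if_pos h1]
      rw [e]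
      obtain ⟨a1, a2, a3⟩ := p1 j h1
      refine blockP hQ hY hYA zl hjB (px j) (hEY _ a1) a3 a2 (mem_image.2 ⟨j, h1, rfl⟩) ?_
      rw [l1 (j * Q + 2) (by
        rw [hFT]; exact mem_union_left _ (mem_image.2 ⟨j, h1, rfl⟩)), z1 j h1]
    · by_cases h2 : j ∈ JC
      · have e : sp j = {Sum.inr (cl (pw j))} := by
          simp only [hsp]
          rw [if_neg h1, if_pos h2]
        rw [e]
        obtain ⟨a1, a2, a3, a4⟩ := q1 j h2
        refine blockC hQ hY hYA zl hjB (pw j) (hEY _ a1) a2 a3 a4 ?_ ?_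
        · rw [l1 (j * Q + 1) (by
            rw [hFT]; exact mem_union_right _ (mem_union_right _ (mem_image.2 ⟨j, h2, rfl⟩))),
            z3 j, par_zero]
        · rw [l1 (j * Q + 2) (by
            rw [hFT]; exact mem_union_right _ (mem_union_left _ (mem_image.2 ⟨j, h2, rfl⟩))),
            z2 j h2]
      · have e : sp j = ∅ := by
          simp only [hsp]
          rw [if_neg h1, if_neg h2]
        rw [e]
        exact blockN hQ hY hYA zl hjB
  have hspE : ∀ j, ∀ y ∈ sp j, y ∈ E ∨ (y ∈ Y ∧ y ∈ O) := by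
    intro j y hy
    rcases (hspm j y).1 hy with ⟨h1, rfl | rfl⟩ | ⟨h1, rfl⟩
    · exact Or.inl (p1 j h1).1
    · exact Or.inr ⟨(p1 j h1).2.1, mem_image.2 ⟨j, h1, rfl⟩⟩
    · exact Or.inl (q1 j h1).1
  obtain ⟨F, F1, F2⟩ := fillAll (by omega) sp (Jres ∪ J2) hblock (by
      intro i _ j _ hij
      rw [disjoint_left]
      intro y hy hy'
      rcases (hspm i y).1 hy with ⟨h1, h | h⟩ | ⟨h1, h⟩
      · rcases (hspm j y).1 hy' with ⟨h2, h' | h'⟩ | ⟨h2, h'⟩
        · exact hij (p2 i h1 j h2 (Sum.inl.inj (h.symm.trans h')))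
        · exact hEY _ (p1 i h1).1 (by rw [← h, h']; exact (p1 j h2).2.1)
        · exact absurd (h.symm.trans h') (by simp)
      · rcases (hspm j y).1 hy' with ⟨h2, h' | h'⟩ | ⟨h2, h'⟩
        · exact hEY _ (p1 j h2).1 (by rw [← h', h]; exact (p1 i h1).2.1)
        · exact hij (p3 i h1 j h2 (Sum.inl.inj (h.symm.trans h')))
        · exact absurd (h.symm.trans h') (by simp)
      · rcases (hspm j y).1 hy' with ⟨h2, h' | h'⟩ | ⟨h2, h'⟩
        · exact absurd (h.symm.trans h') (by simp)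
        · exact absurd (h.symm.trans h') (by simp)
        · exact hij (q2 i h1 j h2 (Sum.inr.inj (h.symm.trans h')))) (by
      intro j _ y hy hyY
      rcases hspE j y hy with h | h
      · exact absurd hyY (hEY y h)
      · exact h.2) (by
      rw [hJc]
      refine lt_of_le_of_lt ?_ hcard
      exact_mod_cast (by omega)) (Jres ∪ J2) (Subset.refl _)
  set T := (Jres ∪ J2).biUnion fun j => foot n Q j (F j) with hT
  have hET : E ⊆ T := by
    intro y hy
    rcases y with x | c
    · obtain ⟨j, hj, rfl⟩ := p4 x hy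
      have hjJ : j ∈ Jres ∪ J2 := mem_union_left _ (hJP hj)
      exact mem_biUnion.2 ⟨j, hjJ, (F1 j hjJ).2.2.1 ((hspm _ _).2 (Or.inl ⟨hj, Or.inl rfl⟩))⟩
    · obtain ⟨j, hj, rfl⟩ := q3 c hy
      have hjJ : j ∈ Jres ∪ J2 := mem_union_left _ (hJC hj)
      exact mem_biUnion.2 ⟨j, hjJ, (F1 j hjJ).2.2.1 ((hspm _ _).2 (Or.inr ⟨hj, rfl⟩))⟩
  have hkT : ∀ t, kc T t = ∑ j ∈ Jres ∪ J2, kc (foot n Q j (F j)) t := fun t =>
    kc_biUnion _ _ t F2
  have hk2 : kc T 2 = Q * (r + s) := by
    rw [hkT, sum_congr rfl fun j hj => (fill_kc (by omega) (F1 j hj).1).1, sum_const, hJc,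
      smul_eq_mul, Nat.mul_comm]
  have hk01 : kc T 0 + kc T 1 = 2 * (Q - 1) * (r + s) := by
    rw [hkT, hkT, ← sum_add_distrib,
      sum_congr rfl fun j hj => (fill_kc (by omega) (F1 j hj).1).2.1, sum_const, hJc,
      smul_eq_mul, Nat.mul_comm]
  have hk1 : kc T 1 = kc E 1 + uu n Q r 1 := by
    rw [hkT, ← l2]
    refine sum_congr rfl fun j hj => ?_
    rw [(fill_kc (by omega) (F1 j hj).1).2.2]
    exact sum_congr rfl fun k hk => cnt_congr ((F1 j hj).2.1 k hk)
  have hd := fun t => kc_sdiff hET t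
  refine ⟨T \ E, ?_, ?_, F, fun j hj => (F1 j hj).1, F2, ?_⟩
  · intro y hy
    obtain ⟨h1, h2⟩ := mem_sdiff.1 hy
    obtain ⟨j, hj, hyj⟩ := mem_biUnion.1 h1
    rcases (F1 j hj).2.2.2 y hyj with h | h
    · rcases hspE j y h with h' | h'
      · exact absurd h' h2
      · exact h'.1
    · exact h.1
  · have d0 := hd 0
    have d1 := hd 1
    have d2 := hd 2
    have m1 : 2 * (Q - 1) * (r + s) = 2 * ((Q - 1) * r) + 2 * ((Q - 1) * s) := by ring
    have m2 : Q * (r + s) = Q * r + Q * s := by ring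
    have u2 : uu n Q r 2 = Q * r := rfl
    have u01 : uu n Q r 0 + uu n Q r 1 = 2 * ((Q - 1) * r) := by
      by_cases hn : Even n
      · have e0 : uu n Q r 0 = (Q - 1) * r := by simp [uu, hn]
        have e1 : uu n Q r 1 = (Q - 1) * r := by simp [uu, hn]
        omega
      · have e0 : uu n Q r 0 = 2 * (Q - 1) * r := by simp [uu, hn]
        have e1 : uu n Q r 1 = 0 := by simp [uu, hn]
        have e2 : 2 * (Q - 1) * r = 2 * ((Q - 1) * r) := by ring
        omega
    have t0 : kc (T \ E) 0 = uu n Q r 0 := by omega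
    have t1 : kc (T \ E) 1 = uu n Q r 1 := by omega
    have t2 : kc (T \ E) 2 = uu n Q r 2 := by omega
    intro t
    fin_cases t
    · exact t0
    · exact t1
    · exact t2
  · rw [union_sdiff_of_subset hET]

end Pool.Agent.DNA.Cover

namespace Pool.Agent.DNA

open Finset

theorem stCover : StCover := by
  intro Q c0 hQ hc0
  have hQ0 : (0 : ℝ) < Q := by exact_mod_cast (by omega : 0 < Q)
  refine ⟨c0 / (1000 * Q), by positivity, ?_⟩
  intro c2 hc2
  refine ⟨min (c0 / (1000 * Q)) (c2 / (1000 * Q)), lt_min (by positivity) (by positivity),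
    ⌈40 * Q / c0⌉₊ + 1, ?_⟩
  intro n hn _ U Y Jres J'' E'' hfix hYA hY hJ hJc hx hJ'' hJ''c hE hp hc hpar
  have hnR : (40 * Q / c0 : ℝ) ≤ n := by
    have h1 := Nat.le_ceil (40 * Q / c0 : ℝ)
    have h2 : ((⌈40 * Q / c0⌉₊ + 1 : ℕ) : ℝ) ≤ n := by exact_mod_cast hn
    push_cast at h2
    linarith
  have hn40 : (40 * Q : ℝ) ≤ c0 * n := by
    rw [div_le_iff₀ hc0] at hnR
    linarith
  have hn0 : (0 : ℝ) ≤ n := Nat.cast_nonneg n
  have hr1 : (Q : ℝ) * Jres.card ≤ c0 * n / 1000 := by
    have h1 : (Q : ℝ) * Jres.card ≤ Q * (c0 / (1000 * Q) * n) :=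
      mul_le_mul_of_nonneg_left hJc hQ0.le
    have h2 : (Q : ℝ) * (c0 / (1000 * Q) * n) = c0 * n / 1000 := by
      field_simp
    linarith
  have hs1 : (Q : ℝ) * J''.card ≤ c0 * n / 1000 := by
    have h0 : (J''.card : ℝ) ≤ c0 / (1000 * Q) * n :=
      hJ''c.trans (mul_le_mul_of_nonneg_right (min_le_left _ _) hn0)
    have h1 : (Q : ℝ) * J''.card ≤ Q * (c0 / (1000 * Q) * n) :=
      mul_le_mul_of_nonneg_left h0 hQ0.le
    have h2 : (Q : ℝ) * (c0 / (1000 * Q) * n) = c0 * n / 1000 := by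
      field_simp
    linarith
  have hs2 : 1000 * ((Q : ℝ) * J''.card) ≤ c2 * n := by
    have h0 : (J''.card : ℝ) ≤ c2 / (1000 * Q) * n :=
      hJ''c.trans (mul_le_mul_of_nonneg_right (min_le_right _ _) hn0)
    have h1 : (Q : ℝ) * J''.card ≤ Q * (c2 / (1000 * Q) * n) :=
      mul_le_mul_of_nonneg_left h0 hQ0.le
    have h2 : (Q : ℝ) * (c2 / (1000 * Q) * n) = c2 * n / 1000 := by
      field_simp
    linarith
  have hx' : ∀ x : ZMod n, 1000 * (Q * J''.card) ≤ (Jres.filter fun j : ℕ =>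
        (Sum.inl (x - ((j * Q + 2 : ℕ) : ZMod n)) : Elt n) ∈ Y).card := by
    intro x
    have h1 := hx x
    have h3 : ((1000 * (Q * J''.card) : ℕ) : ℝ) = 1000 * ((Q : ℝ) * J''.card) := by
      rw [Nat.cast_mul, Nat.cast_mul, Nat.cast_ofNat]
    have h2 : ((1000 * (Q * J''.card) : ℕ) : ℝ) ≤ ((Jres.filter fun j : ℕ =>
        (Sum.inl (x - ((j * Q + 2 : ℕ) : ZMod n)) : Elt n) ∈ Y).card : ℝ) := by
      rw [h3]
      exact hs2.trans h1
    exact Nat.cast_le.1 h2
  refine Cover.main hQ hfix hYA hY hJ hJ'' rfl hE hp hc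
    ((hx' 0).trans (card_le_card (filter_subset _ _))) hx' ?_ hpar
  push_cast
  have hQ20 : (20 : ℝ) ≤ Q := by exact_mod_cast hQ
  nlinarith [hr1, hs1, hn40]

end Pool.Agent.DNA
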