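import Pool.Agent.Lib.MP_845d9b_co.Abs.FpmStmts

/-!
Module F1 (helper65): counting estimates from `NearHyp`.
-/

set_option autoImplicit false

namespace Pool.Agent.DNA

open Finset

namespace F1

variable {n : ℕ}

theorem cl_eq_iff (w w' : ZMod n) : cl w = cl w' ↔ w = w' ∨ w = 1 - w' := by
  unfold cl
  rw [Sym2.eq_iff]
  constructor
  · rintro (⟨a, -⟩ | ⟨a, -⟩)
    · exact Or.inl a
    · exact Or.inr a
  · rintro (a | a)
    · exact Or.inl ⟨a, by rw [a]⟩
    · exact Or.inr ⟨a, by rw [a]; ring⟩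

theorem kc_two [NeZero n] (E' : Finset (Elt n)) (hE : E' ⊆ All n) :
    (univ.filter fun w : ZMod n => Sum.inr (cl w) ∈ E').card = 2 * kc E' 2 := by
  classical
  unfold kc
  rw [Finset.card_eq_sum_card_fiberwise (f := fun w : ZMod n => (Sum.inr (cl w) : Elt n))
    (t := E'.filter fun y => kd y = 2)]
  · rw [Finset.sum_const_nat (m := 2)]
    · ring
    · intro y hy
      rw [mem_filter] at hy
      obtain ⟨h1, h2⟩ := hy
      have h3 := hE h1
      unfold All at h3
      rw [mem_union, mem_image, mem_image] at h3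
      rcases h3 with ⟨x, -, rfl⟩ | ⟨w, hw, rfl⟩
      · exfalso
        simp only [kd, Sum.elim_inl] at h2
        split_ifs at h2 <;> simp at h2
      · rw [mem_filter] at hw
        have : ((univ.filter fun w : ZMod n => Sum.inr (cl w) ∈ E').filter
            fun w' : ZMod n => (Sum.inr (cl w') : Elt n) = Sum.inr (cl w)) = {w, 1 - w} := by
          ext w'
          simp only [mem_filter, mem_univ, true_and, mem_insert, mem_singleton, Sum.inr.injEq]
          rw [cl_eq_iff]
          constructor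
          · exact fun h => h.2
          · intro h
            refine ⟨?_, h⟩
            rw [(cl_eq_iff w' w).2 h]
            exact h1
        rw [this, Finset.card_pair]
        intro h
        exact hw.2.2.2 (by linear_combination h)
  · intro w hw
    simp only [coe_filter, mem_univ, true_and, Set.mem_ofPred_eq] at hw ⊢
    exact ⟨hw, rfl⟩

theorem kc_pts [NeZero n] (E' : Finset (Elt n)) :
    (univ.filter fun x : ZMod n => Sum.inl x ∈ E').card = kc E' 0 + kc E' 1 := by
  classical
  unfold kc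
  rw [← Finset.card_union_of_disjoint]
  · rw [← Finset.card_image_of_injective (univ.filter fun x : ZMod n => Sum.inl x ∈ E')
      (Sum.inl_injective (α := ZMod n) (β := Sym2 (ZMod n)))]
    congr 1
    ext y
    simp only [mem_image, mem_filter, mem_univ, true_and, mem_union]
    constructor
    · rintro ⟨x, hx, rfl⟩
      by_cases h : par x = 0
      · left; exact ⟨hx, by simp [kd, h]⟩
      · right; exact ⟨hx, by simp [kd, h]⟩
    · intro h
      rcases y with x | c
      · exact ⟨x, by rcases h with h | h <;> exact h.1, rfl⟩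
      · rcases h with h | h <;> simp [kd] at h
  · rw [Finset.disjoint_left]
    intro y h1 h2
    rw [mem_filter] at h1 h2
    rw [h1.2] at h2
    exact absurd h2.2 (by decide)

theorem xj_eq [NeZero n] {E' : Finset (Elt n)} (hE : E' ⊆ All n) :
    (Xt E').card + 2 * kc E' 2 = n := by
  classical
  rw [← kc_two E' hE]
  unfold Xt
  have := Finset.card_filter_add_card_filter_not (s := (univ : Finset (ZMod n)))
    (fun w : ZMod n => Sum.inr (cl w) ∈ E')
  rw [Finset.card_univ, ZMod.card] at this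
  omega

theorem dj_eq [NeZero n] (E' : Finset (Elt n)) :
    (Dt E').card + (kc E' 0 + kc E' 1) = n := by
  classical
  rw [← kc_pts E']
  unfold Dt
  have := Finset.card_filter_add_card_filter_not (s := (univ : Finset (ZMod n)))
    (fun w : ZMod n => Sum.inl w ∈ E')
  rw [Finset.card_univ, ZMod.card] at this
  omega

theorem fixP_eq (n Q : ℕ) (U : ℕ → ZMod n) : FixP n Q U =
    (FixT n Q).image U ∪ (FixT n Q).image fun k => U k - (k : ZMod n) := by
  classical
  unfold FixP
  ext x
  simp only [mem_biUnion, mem_insert, mem_singleton, mem_union, mem_image]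
  constructor
  · rintro ⟨k, hk, h | h⟩
    · exact Or.inl ⟨k, hk, h.symm⟩
    · exact Or.inr ⟨k, hk, h.symm⟩
  · rintro (⟨k, hk, h⟩ | ⟨k, hk, h⟩)
    · exact ⟨k, hk, Or.inl h.symm⟩
    · exact ⟨k, hk, Or.inr h.symm⟩

theorem fixP_card {Q : ℕ} {U : ℕ → ZMod n} (h : FixOk n Q U) :
    2 * (FixT n Q).card ≤ (FixP n Q U).card + 1 := by
  classical
  rw [fixP_eq]
  have h1 : ((FixT n Q).image U).card = (FixT n Q).card :=
    Finset.card_image_of_injOn fun a ha b hb e => h.up a ha b hb e
  have h2 : ((FixT n Q).image fun k => U k - (k : ZMod n)).card = (FixT n Q).card :=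
    Finset.card_image_of_injOn fun a ha b hb e => h.lo a ha b hb e
  have h3 := Finset.card_union_add_card_inter ((FixT n Q).image U)
    ((FixT n Q).image fun k => U k - (k : ZMod n))
  have h4 : ((FixT n Q).image U ∩ (FixT n Q).image fun k => U k - (k : ZMod n)).card ≤ 1 := by
    rw [Finset.card_le_one]
    have key : ∀ a ∈ ((FixT n Q).image U ∩ (FixT n Q).image fun k => U k - (k : ZMod n)),
        a = U 0 := by
      intro a ha
      rw [mem_inter, mem_image, mem_image] at ha
      obtain ⟨⟨k, hk, e⟩, ⟨k', hk', e'⟩⟩ := ha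
      have := (h.ul k hk k' hk' (e.trans e'.symm)).1
      rw [← e, this]
    intro a ha b hb
    rw [key a ha, key b hb]
  omega

theorem fixT_card (n Q : ℕ) (hQ : 1 ≤ Q) : J1 n Q ≤ (FixT n Q).card := by
  classical
  have hJ : J1 n Q * Q ≤ T1 n := Nat.div_mul_le_self _ _
  have : ((range (J1 n Q)).image fun j => (j + 1) * Q) ⊆ FixT n Q := by
    intro k hk
    rw [mem_image] at hk
    obtain ⟨j, hj, rfl⟩ := hk
    rw [mem_range] at hj
    unfold FixT
    rw [mem_filter, mem_Icc]
    refine ⟨⟨?_, ?_⟩, Or.inr (Or.inl ⟨j + 1, by ring⟩)⟩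
    · have : T0 n ≤ 1 := by unfold T0; omega
      nlinarith
    · calc (j + 1) * Q ≤ J1 n Q * Q := Nat.mul_le_mul_right _ hj
        _ ≤ T1 n := hJ
  have h2 := Finset.card_le_card this
  rw [Finset.card_image_of_injective, card_range] at h2
  · exact h2
  · intro a b e
    have := Nat.eq_of_mul_eq_mul_right (by omega) e
    omega

theorem fixP_sub [NeZero n] {Q : ℕ} {U : ℕ → ZMod n} {E' : Finset (Elt n)}
    (h : E' ⊆ All n \ FixE n Q U) : FixP n Q U ⊆ Dt E' := by
  intro x hx
  unfold Dt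
  rw [mem_filter]
  refine ⟨mem_univ _, fun hE => ?_⟩
  have := h hE
  rw [mem_sdiff] at this
  apply this.2
  unfold FixE
  rw [mem_union]
  left
  exact mem_image_of_mem _ hx

/-- times in the blocks of `J` -/
def TT (Q : ℕ) (J : Finset ℕ) : Finset ℕ := J.biUnion fun j => Ioo (j * Q) ((j + 1) * Q)

theorem mem_block {Q j k : ℕ} (h : k ∈ Ioo (j * Q) ((j + 1) * Q)) : k / Q = j := by
  rw [mem_Ioo] at h
  apply Nat.div_eq_of_lt_le
  · exact h.1.le
  · exact h.2

theorem TT_disj (Q : ℕ) (J : Finset ℕ) :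
    (J : Set ℕ).PairwiseDisjoint fun j => Ioo (j * Q) ((j + 1) * Q) := by
  intro i _ j _ hij
  change Disjoint _ _
  rw [Finset.disjoint_left]
  intro k h1 h2
  exact hij ((mem_block h1).symm.trans (mem_block h2))

theorem TT_card (Q : ℕ) (J : Finset ℕ) : (TT Q J).card = J.card * (Q - 1) := by
  unfold TT
  rw [Finset.card_biUnion (TT_disj Q J)]
  rw [Finset.sum_const_nat]
  intro j _
  rw [Nat.card_Ioo]
  have : (j + 1) * Q = j * Q + Q := by ring
  omega

theorem TT_sub {Q : ℕ} {J : Finset ℕ} (h : J ⊆ Blocks n Q) : TT Q J ⊆ Icc 1 (T1 n) := by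
  intro k hk
  unfold TT at hk
  rw [mem_biUnion] at hk
  obtain ⟨j, hj, hk⟩ := hk
  have h1 := h hj
  unfold Blocks at h1
  rw [mem_Ico] at h1
  rw [mem_Ioo] at hk
  rw [mem_Icc]
  have hJ : J1 n Q * Q ≤ T1 n := Nat.div_mul_le_self _ _
  have : (j + 1) * Q ≤ J1 n Q * Q := Nat.mul_le_mul_right _ h1.2
  omega

theorem cover_times {Q : ℕ} (hQ : 1 ≤ Q) (J : Finset ℕ) :
    Icc 1 (T1 n) ⊆ TT Q J ∪ (FixT n Q ∪ TT Q (Blocks n Q \ J)) := by
  intro k hk
  rw [mem_Icc] at hk
  rw [mem_union, mem_union]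
  by_cases h : k < Q ∨ Q ∣ k ∨ J1 n Q * Q ≤ k
  · right; left
    unfold FixT
    rw [mem_filter, mem_Icc]
    refine ⟨⟨?_, hk.2⟩, h⟩
    unfold T0
    omega
  · push Not at h
    obtain ⟨h1, h2, h3⟩ := h
    have hb : k / Q ∈ Blocks n Q := by
      unfold Blocks
      rw [mem_Ico]
      exact ⟨(Nat.one_le_div_iff (by omega)).2 h1, (Nat.div_lt_iff_lt_mul (by omega)).2 h3⟩
    have hi : k ∈ Ioo (k / Q * Q) ((k / Q + 1) * Q) := by
      rw [mem_Ioo]
      have e := Nat.div_add_mod k Q
      have l := Nat.mod_lt k (show 0 < Q by omega)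
      have m : k % Q ≠ 0 := fun m => h2 (Nat.dvd_of_mod_eq_zero m)
      constructor
      · nlinarith [mul_comm Q (k / Q), Nat.pos_of_ne_zero m]
      · nlinarith [mul_comm Q (k / Q)]
    by_cases hJ : k / Q ∈ J
    · left
      unfold TT
      rw [mem_biUnion]
      exact ⟨_, hJ, hi⟩
    · right; right
      unfold TT
      rw [mem_biUnion]
      exact ⟨_, mem_sdiff.2 ⟨hb, hJ⟩, hi⟩

/-- number of `k ∈ K` and signs with `x ± k ∈ D` -/
def cn (D : Finset (ZMod n)) (x : ZMod n) (K : Finset ℕ) : ℕ :=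
  (K.filter fun k : ℕ => x + (k : ZMod n) ∈ D).card +
    (K.filter fun k : ℕ => x - (k : ZMod n) ∈ D).card

theorem cn_mono (D : Finset (ZMod n)) (x : ZMod n) {K K' : Finset ℕ} (h : K ⊆ K') :
    cn D x K ≤ cn D x K' := by
  unfold cn
  exact add_le_add (card_le_card (filter_subset_filter _ h)) (card_le_card (filter_subset_filter _ h))

theorem cn_union (D : Finset (ZMod n)) (x : ZMod n) (K K' : Finset ℕ) :
    cn D x (K ∪ K') ≤ cn D x K + cn D x K' := by
  classical
  unfold cn
  rw [filter_union, filter_union]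
  have h1 := card_union_le (K.filter fun k : ℕ => x + (k : ZMod n) ∈ D)
    (K'.filter fun k : ℕ => x + (k : ZMod n) ∈ D)
  have h2 := card_union_le (K.filter fun k : ℕ => x - (k : ZMod n) ∈ D)
    (K'.filter fun k : ℕ => x - (k : ZMod n) ∈ D)
  omega

theorem cn_le (D : Finset (ZMod n)) (x : ZMod n) (K : Finset ℕ) : cn D x K ≤ 2 * K.card := by
  unfold cn
  have h1 := card_filter_le K fun k : ℕ => x + (k : ZMod n) ∈ D
  have h2 := card_filter_le K fun k : ℕ => x - (k : ZMod n) ∈ D
  omega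

theorem cn_add (D D' : Finset (ZMod n)) (x : ZMod n) (K : Finset ℕ) :
    cn (D ∪ D') x K ≤ cn D x K + cn D' x K := by
  unfold cn
  have h1 : (K.filter fun k : ℕ => x + (k : ZMod n) ∈ D ∪ D').card ≤
      (K.filter fun k : ℕ => x + (k : ZMod n) ∈ D).card +
      (K.filter fun k : ℕ => x + (k : ZMod n) ∈ D').card := by
    refine (card_le_card ?_).trans (card_union_le _ _)
    intro k hk
    rw [mem_filter, mem_union] at hk
    rw [mem_union, mem_filter, mem_filter]
    tauto
  have h2 : (K.filter fun k : ℕ => x - (k : ZMod n) ∈ D ∪ D').card ≤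
      (K.filter fun k : ℕ => x - (k : ZMod n) ∈ D).card +
      (K.filter fun k : ℕ => x - (k : ZMod n) ∈ D').card := by
    refine (card_le_card ?_).trans (card_union_le _ _)
    intro k hk
    rw [mem_filter, mem_union] at hk
    rw [mem_union, mem_filter, mem_filter]
    tauto
  omega

theorem cast_inj' {a b : ℕ} (ha : a < n) (hb : b < n) (h : (a : ZMod n) = (b : ZMod n)) :
    a = b := by
  have := (ZMod.natCast_eq_natCast_iff' a b n).1 h
  rwa [Nat.mod_eq_of_lt ha, Nat.mod_eq_of_lt hb] at this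

/-- an injection bound: every `k -> x + k` is injective on `[0, T1]` -/
theorem cn_inj (D : Finset (ZMod n)) (x : ZMod n) (K : Finset ℕ) (hK : ∀ k ∈ K, k < n) :
    cn D x K ≤ 2 * D.card := by
  classical
  unfold cn
  have h1 : (K.filter fun k : ℕ => x + (k : ZMod n) ∈ D).card ≤ D.card := by
    refine card_le_card_of_injOn (fun k : ℕ => x + (k : ZMod n)) ?_ ?_
    · intro k hk
      exact (mem_filter.1 hk).2
    · intro a ha b hb e
      exact cast_inj' (hK a (mem_filter.1 ha).1) (hK b (mem_filter.1 hb).1)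
        (add_left_cancel e)
  have h2 : (K.filter fun k : ℕ => x - (k : ZMod n) ∈ D).card ≤ D.card := by
    refine card_le_card_of_injOn (fun k : ℕ => x - (k : ZMod n)) ?_ ?_
    · intro k hk
      exact (mem_filter.1 hk).2
    · intro a ha b hb e
      exact cast_inj' (hK a (mem_filter.1 ha).1) (hK b (mem_filter.1 hb).1)
        (sub_right_injective e)
  omega

theorem cn_upper [NeZero n] (D : Finset (ZMod n)) (x : ZMod n) :
    cn D x (Icc 1 (T1 n)) ≤ D.card := by
  classical
  have hn : 0 < n := Nat.pos_of_ne_zero (NeZero.ne n)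
  have hT : 2 * T1 n + 1 ≤ n := by unfold T1; omega
  unfold cn
  rw [← Finset.card_image_of_injOn (s := (Icc 1 (T1 n)).filter fun k : ℕ => x + (k : ZMod n) ∈ D)
      (f := fun k : ℕ => x + (k : ZMod n)),
    ← Finset.card_image_of_injOn (s := (Icc 1 (T1 n)).filter fun k : ℕ => x - (k : ZMod n) ∈ D)
      (f := fun k : ℕ => x - (k : ZMod n)), ← card_union_of_disjoint]
  · apply card_le_card
    intro y hy
    rw [mem_union, mem_image, mem_image] at hy
    rcases hy with ⟨k, hk, rfl⟩ | ⟨k, hk, rfl⟩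
    · exact (mem_filter.1 hk).2
    · exact (mem_filter.1 hk).2
  · rw [Finset.disjoint_left]
    intro y h1 h2
    rw [mem_image] at h1 h2
    obtain ⟨k, hk, e⟩ := h1
    obtain ⟨k', hk', e'⟩ := h2
    have a := mem_Icc.1 (mem_filter.1 hk).1
    have a' := mem_Icc.1 (mem_filter.1 hk').1
    have : ((k + k' : ℕ) : ZMod n) = 0 := by
      push_cast
      linear_combination e - e'
    rw [ZMod.natCast_eq_zero_iff] at this
    have := Nat.le_of_dvd (by omega) this
    omega
  · intro a ha b hb e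
    have a1 := mem_Icc.1 (mem_filter.1 ha).1
    have b1 := mem_Icc.1 (mem_filter.1 hb).1
    exact cast_inj' (by omega) (by omega) (sub_right_injective e)
  · intro a ha b hb e
    have a1 := mem_Icc.1 (mem_filter.1 ha).1
    have b1 := mem_Icc.1 (mem_filter.1 hb).1
    exact cast_inj' (by omega) (by omega) (add_left_cancel e)

theorem cn_lower [NeZero n] (D : Finset (ZMod n)) (x : ZMod n) :
    D.card ≤ cn D x (Icc 1 (T1 n)) + 2 := by
  classical
  have hn : 0 < n := Nat.pos_of_ne_zero (NeZero.ne n)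
  have sub : D ⊆ (((Icc 1 (T1 n)).filter fun k : ℕ => x + (k : ZMod n) ∈ D).image
      (fun k : ℕ => x + (k : ZMod n)) ∪ ((Icc 1 (T1 n)).filter fun k : ℕ =>
      x - (k : ZMod n) ∈ D).image (fun k : ℕ => x - (k : ZMod n))) ∪
      {x, x + ((n / 2 : ℕ) : ZMod n)} := by
    intro d hd
    have hlt := ZMod.val_lt (d - x)
    have hval : ((d - x).val : ZMod n) = d - x := ZMod.natCast_zmod_val (d - x)
    set r := (d - x).val with hr
    have hdx : d = x + (r : ZMod n) := by rw [hval]; ring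
    rw [mem_union, mem_union, mem_image, mem_image, mem_insert, mem_singleton]
    by_cases h0 : r = 0
    · right; left
      rw [hdx, h0]
      simp
    · by_cases h1 : r ≤ T1 n
      · left; left
        refine ⟨r, ?_, hdx.symm⟩
        rw [mem_filter, mem_Icc, ← hdx]
        exact ⟨⟨by omega, h1⟩, hd⟩
      · by_cases h2 : n - r ≤ T1 n
        · left; right
          have hd2 : d = x - ((n - r : ℕ) : ZMod n) := by
            rw [Nat.cast_sub hlt.le, ZMod.natCast_self, hdx]
            ring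
          refine ⟨n - r, ?_, hd2.symm⟩
          rw [mem_filter, mem_Icc, ← hd2]
          exact ⟨⟨by omega, h2⟩, hd⟩
        · right; right
          have : r = n / 2 := by
            unfold T1 at h1 h2
            omega
          rw [hdx, this]
  have h1 := card_le_card sub
  refine h1.trans ((card_union_le _ _).trans ?_)
  have h2 := card_union_le (((Icc 1 (T1 n)).filter fun k : ℕ => x + (k : ZMod n) ∈ D).image
      (fun k : ℕ => x + (k : ZMod n))) (((Icc 1 (T1 n)).filter fun k : ℕ =>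
      x - (k : ZMod n) ∈ D).image (fun k : ℕ => x - (k : ZMod n)))
  have h3 := card_image_le (s := (Icc 1 (T1 n)).filter fun k : ℕ => x + (k : ZMod n) ∈ D)
    (f := fun k : ℕ => x + (k : ZMod n))
  have h4 := card_image_le (s := (Icc 1 (T1 n)).filter fun k : ℕ => x - (k : ZMod n) ∈ D)
    (f := fun k : ℕ => x - (k : ZMod n))
  have h5 := card_le_two (a := x) (b := x + ((n / 2 : ℕ) : ZMod n))
  unfold cn
  omega

theorem sum_line [NeZero n] {Q : ℕ} (J : Finset ℕ) (E' : Finset (Elt n)) (x : ZMod n) :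
    (∑ j ∈ J, ∑ k ∈ Ioo (j * Q) ((j + 1) * Q),
        ((if Sum.inl (x + (k : ZMod n)) ∈ E' then 1 else 0) +
          (if Sum.inl (x - (k : ZMod n)) ∈ E' then 1 else 0))) + cn (Dt E') x (TT Q J)
      = 2 * (Q - 1) * J.card := by
  classical
  have h1 : (∑ j ∈ J, ∑ k ∈ Ioo (j * Q) ((j + 1) * Q),
        ((if Sum.inl (x + (k : ZMod n)) ∈ E' then 1 else 0) +
          (if Sum.inl (x - (k : ZMod n)) ∈ E' then 1 else 0)))
      = ∑ k ∈ TT Q J, ((if Sum.inl (x + (k : ZMod n)) ∈ E' then 1 else 0) +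
          (if Sum.inl (x - (k : ZMod n)) ∈ E' then 1 else 0)) := by
    unfold TT
    rw [Finset.sum_biUnion (TT_disj Q J)]
  have h2 : cn (Dt E') x (TT Q J) = ∑ k ∈ TT Q J,
      ((if Sum.inl (x + (k : ZMod n)) ∈ E' then 0 else 1) +
          (if Sum.inl (x - (k : ZMod n)) ∈ E' then 0 else 1)) := by
    unfold cn Dt
    rw [Finset.card_filter, Finset.card_filter, ← Finset.sum_add_distrib]
    refine Finset.sum_congr rfl fun k _ => ?_
    simp only [mem_filter, mem_univ, true_and]
    split_ifs <;> simp_all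
  rw [h1, h2, ← Finset.sum_add_distrib, Finset.sum_const_nat (m := 2)]
  · rw [TT_card]
    ring
  · intro k _
    split_ifs <;> rfl

end F1

open F1

theorem stEst : StEst := by
  classical
  intro Q hQ
  refine ⟨100 * Q ^ 6, fun n hN _ U J' E' h => ?_⟩
  obtain ⟨hfix, hreg, hsub, hmany, hsub', hpts, hcls⟩ := h
  have hn0 : 0 < n := Nat.pos_of_ne_zero (NeZero.ne n)
  have hQ1 : 1 ≤ Q := by omega
  have hEA : E' ⊆ All n := fun y hy => (mem_sdiff.1 (hsub' hy)).1
  -- counting blocks
  have hJ : J1 n Q * Q ≤ T1 n := Nat.div_mul_le_self _ _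
  have hJ' : T1 n < (J1 n Q + 1) * Q := by
    have e := Nat.div_add_mod (T1 n) Q
    have l := Nat.mod_lt (T1 n) (show 0 < Q by omega)
    unfold J1
    nlinarith [mul_comm Q (T1 n / Q)]
  have hT : 2 * T1 n + 1 ≤ n := by unfold T1; omega
  have hT' : n ≤ 2 * T1 n + 2 := by unfold T1; omega
  have hB : (Blocks n Q).card = J1 n Q - 1 := by simp [Blocks]
  have hJB : J'.card ≤ J1 n Q - 1 := by rw [← hB]; exact card_le_card hsub
  have hQ6 : Q ^ 6 = Q ^ 4 * (Q * Q) := by ring
  have hQ4 : 1 ≤ Q ^ 4 := Nat.one_le_pow _ _ (by omega)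
  have hnbig : 100 * (Q * Q) ≤ n := by
    refine le_trans ?_ hN
    rw [hQ6]
    have : 1 * (Q * Q) ≤ Q ^ 4 * (Q * Q) := Nat.mul_le_mul_right _ hQ4
    omega
  have hJpos : 1 ≤ J1 n Q := by
    by_contra hc
    have : J1 n Q = 0 := by omega
    rw [this] at hJ'
    nlinarith
  have hxj : (Xt E').card + 2 * Q * J'.card = n := by
    have := xj_eq hEA
    rw [hcls, ← mul_assoc] at this
    exact this
  have hdj : (Dt E').card + 2 * (Q - 1) * J'.card = n := by
    have := dj_eq E'
    rw [hpts] at this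
    exact this
  -- the set `X` is small
  have hsd : (Blocks n Q \ J').card + J'.card = J1 n Q - 1 := by
    rw [← hB, Finset.card_sdiff_add_card_eq_card hsub]
  have hQR : (0 : ℝ) < Q := by exact_mod_cast (show 0 < Q by omega)
  have hmany' : 10 * (Q : ℝ) ^ 5 * ((Blocks n Q \ J').card : ℝ) ≤ n := by
    have := hmany
    rw [div_mul_eq_mul_div, one_mul, le_div_iff₀ (by positivity)] at this
    linarith
  have hmanyN : 10 * Q ^ 5 * (Blocks n Q \ J').card ≤ n := by exact_mod_cast hmany'
  have hxc : Q ^ 4 * (Xt E').card ≤ n := by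
    have hq : (Q : ℤ) ^ 4 * (Xt E').card ≤ n := by
      have e1 : ((Xt E').card : ℤ) + 2 * Q * J'.card = n := by exact_mod_cast hxj
      have e2 : ((Blocks n Q \ J').card : ℤ) + J'.card = J1 n Q - 1 := by omega
      have e3 : (T1 n : ℤ) < (J1 n Q + 1) * Q := by exact_mod_cast hJ'
      have e4 : 10 * (Q : ℤ) ^ 5 * (Blocks n Q \ J').card ≤ n := by exact_mod_cast hmanyN
      have e5 : (n : ℤ) ≤ 2 * T1 n + 2 := by exact_mod_cast hT'
      have e6 : 100 * (Q : ℤ) ^ 6 ≤ n := by exact_mod_cast hN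
      have e7 : ((Xt E').card : ℤ) ≤ 4 * Q + 2 + 2 * Q * (Blocks n Q \ J').card := by
        nlinarith
      have e8 : (0 : ℤ) ≤ (Q : ℤ) ^ 4 := by positivity
      have e9 := mul_le_mul_of_nonneg_left e7 e8
      have e10 : (Q : ℤ) ^ 4 * (4 * Q + 2) ≤ (Q : ℤ) ^ 6 := by
        have : (4 * (Q : ℤ) + 2) ≤ Q ^ 2 := by nlinarith [(by exact_mod_cast hQ : (10 ^ 5 : ℤ) ≤ Q)]
        calc (Q : ℤ) ^ 4 * (4 * Q + 2) ≤ (Q : ℤ) ^ 4 * Q ^ 2 := mul_le_mul_of_nonneg_left this e8
          _ = (Q : ℤ) ^ 6 := by ring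
      nlinarith
    exact_mod_cast hq
  have hxc1 : (Xt E').card ≤ n := le_trans (Nat.le_mul_of_pos_left _ (by omega)) hxc
  have hjc : 2 * Q * J'.card ≤ n := by omega
  have hdx : (Dt E').card = (Xt E').card + 2 * J'.card := by
    have : 2 * (Q - 1) * J'.card + 2 * J'.card = 2 * Q * J'.card := by
      have : 2 * (Q - 1) + 2 = 2 * Q := by omega
      rw [← this]
      ring
    omega
  have hdc : Q * (Dt E').card ≤ 2 * n := by
    rw [hdx, mul_add]
    have h1 : Q * (Xt E').card ≤ n := by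
      refine le_trans (Nat.mul_le_mul_right _ ?_) hxc
      calc Q = Q ^ 1 := (pow_one Q).symm
        _ ≤ Q ^ 4 := Nat.pow_le_pow_right (by omega) (by norm_num)
    have h2 : Q * (2 * J'.card) = 2 * Q * J'.card := by ring
    omega
  -- the exceptional points outside `FixP`
  have hFD : FixP n Q U ⊆ Dt E' := fixP_sub hsub'
  have hS : (Dt E' \ FixP n Q U).card ≤ (Xt E').card := by
    have h1 := Finset.card_sdiff_add_card_eq_card hFD
    have h2 := fixP_card hfix
    have h3 := fixT_card n Q hQ1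
    omega
  have hQ2X : Q ^ 2 * (2 * (Xt E').card) ≤ n := by
    refine le_trans ?_ hxc
    have : Q ^ 2 * 2 ≤ Q ^ 4 := by
      have : Q ^ 4 = Q ^ 2 * Q ^ 2 := by ring
      rw [this]
      apply Nat.mul_le_mul_left
      nlinarith
    calc Q ^ 2 * (2 * (Xt E').card) = Q ^ 2 * 2 * (Xt E').card := by ring
      _ ≤ Q ^ 4 * (Xt E').card := Nat.mul_le_mul_right _ this
  refine ⟨hfix, hsub, hjc, hxj, hdj, hxc, hdc, ?_, ?_, ?_⟩
  · intro j hj
    have hj1 := hsub hj
    unfold Blocks at hj1
    rw [mem_Ico] at hj1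
    have ft : ∀ i, 1 ≤ i → i ≤ J1 n Q → i * Q ∈ FixT n Q := by
      intro i h1 h2
      unfold FixT
      rw [mem_filter, mem_Icc]
      have a1 : i * Q ≤ J1 n Q * Q := Nat.mul_le_mul_right _ h2
      have a2 : T0 n ≤ 1 := by unfold T0; omega
      refine ⟨⟨?_, by omega⟩, Or.inr (Or.inl ⟨i, by ring⟩)⟩
      nlinarith
    have key : ∀ i, 1 ≤ i → i ≤ J1 n Q → Sum.inl (U (i * Q)) ∉ E' ∧
        Sum.inl (U (i * Q) - ((i * Q : ℕ) : ZMod n)) ∉ E' := by
      intro i h1 h2
      have m1 : U (i * Q) ∈ Dt E' := by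
        apply hFD
        rw [fixP_eq, mem_union, mem_image]
        exact Or.inl ⟨_, ft i h1 h2, rfl⟩
      have m2 : U (i * Q) - ((i * Q : ℕ) : ZMod n) ∈ Dt E' := by
        apply hFD
        rw [fixP_eq, mem_union, mem_image, mem_image]
        exact Or.inr ⟨_, ft i h1 h2, rfl⟩
      unfold Dt at m1 m2
      exact ⟨(mem_filter.1 m1).2, (mem_filter.1 m2).2⟩
    have k1 := key j hj1.1 hj1.2.le
    have k2 := key (j + 1) (by omega) hj1.2
    exact ⟨k1.1, k1.2, k2.1, k2.2⟩
  · intro s hs
    have hsh := hreg.shift s hs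
    set S := Dt E' \ FixP n Q U with hSdef
    have sub : Dt E' ∩ (Dt E').image (· + s) ⊆
        (FixP n Q U ∩ (FixP n Q U).image (· + s)) ∪ (S ∪ S.image (· + s)) := by
      intro y hy
      rw [mem_inter, mem_image] at hy
      obtain ⟨h1, z, h2, rfl⟩ := hy
      rw [mem_union, mem_union, mem_inter]
      by_cases a : z + s ∈ FixP n Q U
      · by_cases b : z ∈ FixP n Q U
        · left
          exact ⟨a, mem_image_of_mem _ b⟩
        · right; right
          exact mem_image_of_mem _ (mem_sdiff.2 ⟨h2, b⟩)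
      · right; left
        exact mem_sdiff.2 ⟨h1, a⟩
    have c1 := card_le_card sub
    have c2 := card_union_le (FixP n Q U ∩ (FixP n Q U).image (· + s)) (S ∪ S.image (· + s))
    have c3 := card_union_le S (S.image (· + s))
    have c4 := card_image_le (s := S) (f := (· + s))
    have c5 : (Dt E' ∩ (Dt E').image (· + s)).card ≤
        (FixP n Q U ∩ (FixP n Q U).image (· + s)).card + 2 * (Xt E').card := by omega
    calc Q ^ 2 * (Dt E' ∩ (Dt E').image (· + s)).card
        ≤ Q ^ 2 * ((FixP n Q U ∩ (FixP n Q U).image (· + s)).card + 2 * (Xt E').card) :=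
          Nat.mul_le_mul_left _ c5
      _ = Q ^ 2 * (FixP n Q U ∩ (FixP n Q U).image (· + s)).card + Q ^ 2 * (2 * (Xt E').card) := by
          ring
      _ ≤ 21 * n := by omega
  · intro x
    have hl := sum_line (Q := Q) J' E' x
    set A := (∑ j ∈ J', ∑ k ∈ Ioo (j * Q) ((j + 1) * Q),
        ((if Sum.inl (x + (k : ZMod n)) ∈ E' then 1 else 0) +
          (if Sum.inl (x - (k : ZMod n)) ∈ E' then 1 else 0))) with hA
    set S := Dt E' \ FixP n Q U with hSdef
    have hDS : Dt E' = FixP n Q U ∪ S := by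
      rw [hSdef, Finset.union_sdiff_of_subset hFD]
    have u1 : cn (Dt E') x (TT Q J') ≤ (Dt E').card :=
      (cn_mono _ _ (TT_sub hsub)).trans (cn_upper _ _)
    have l1 := cn_lower (Dt E') x
    have l2 : cn (Dt E') x (Icc 1 (T1 n)) ≤ cn (Dt E') x (TT Q J') +
        (cn (Dt E') x (FixT n Q) + cn (Dt E') x (TT Q (Blocks n Q \ J'))) :=
      ((cn_mono _ _ (cover_times hQ1 J')).trans (cn_union _ _ _ _)).trans
        (Nat.add_le_add_left (cn_union _ _ _ _) _)
    have l3 : cn (Dt E') x (FixT n Q) ≤ cn (FixP n Q U) x (FixT n Q) + cn S x (FixT n Q) := by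
      rw [hDS]
      exact cn_add _ _ _ _
    have l4 : cn S x (FixT n Q) ≤ 2 * (Xt E').card := by
      refine (cn_inj S x _ ?_).trans (Nat.mul_le_mul_left _ hS)
      intro k hk
      unfold FixT at hk
      rw [mem_filter, mem_Icc] at hk
      omega
    have l5 : Q ^ 2 * cn (FixP n Q U) x (FixT n Q) ≤ 20 * n := hreg.line x
    have l6 : cn (Dt E') x (TT Q (Blocks n Q \ J')) ≤ 2 * ((Blocks n Q \ J').card * (Q - 1)) := by
      refine (cn_le _ _ _).trans ?_
      rw [TT_card]
    have l7 : (Dt E').card ≤ cn (Dt E') x (TT Q J') + (cn (FixP n Q U) x (FixT n Q) +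
        2 * (Xt E').card + 2 * ((Blocks n Q \ J').card * (Q - 1)) + 2) := by omega
    have l8 : Q ^ 2 * (2 * ((Blocks n Q \ J').card * (Q - 1)) + 2) ≤ n := by
      have a1 : Q ^ 2 * (2 * ((Blocks n Q \ J').card * (Q - 1))) ≤
          2 * Q ^ 5 * (Blocks n Q \ J').card := by
        have : (Q - 1) ≤ Q ^ 3 := by
          have : Q ≤ Q ^ 3 := by
            calc Q = Q ^ 1 := (pow_one Q).symm
              _ ≤ Q ^ 3 := Nat.pow_le_pow_right (by omega) (by norm_num)
          omega
        calc Q ^ 2 * (2 * ((Blocks n Q \ J').card * (Q - 1)))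
            = 2 * Q ^ 2 * (Blocks n Q \ J').card * (Q - 1) := by ring
          _ ≤ 2 * Q ^ 2 * (Blocks n Q \ J').card * Q ^ 3 := Nat.mul_le_mul_left _ this
          _ = 2 * Q ^ 5 * (Blocks n Q \ J').card := by ring
      have a2 : Q ^ 2 * 2 ≤ 2 * (Q * Q) := by ring_nf; exact le_rfl
      rw [mul_add]
      nlinarith
    have e1 : (A : ℝ) + cn (Dt E') x (TT Q J') = 2 * (Q - 1 : ℕ) * J'.card := by exact_mod_cast hl
    have e2 : ((Dt E').card : ℝ) + 2 * (Q - 1 : ℕ) * J'.card = n := by exact_mod_cast hdj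
    have e3 : (A : ℝ) - ((n : ℝ) - 2 * ((Dt E').card : ℝ)) =
        (Dt E').card - cn (Dt E') x (TT Q J') := by linarith
    rw [e3, abs_of_nonneg (by
      have : ((cn (Dt E') x (TT Q J') : ℕ) : ℝ) ≤ (Dt E').card := by exact_mod_cast u1
      linarith), le_div_iff₀ (by positivity)]
    have l9 : Q ^ 2 * (Dt E').card ≤ Q ^ 2 * cn (Dt E') x (TT Q J') + 22 * n := by
      calc Q ^ 2 * (Dt E').card ≤ Q ^ 2 * (cn (Dt E') x (TT Q J') +
            (cn (FixP n Q U) x (FixT n Q) +
            2 * (Xt E').card + 2 * ((Blocks n Q \ J').card * (Q - 1)) + 2)) :=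
            Nat.mul_le_mul_left _ l7
        _ = Q ^ 2 * cn (Dt E') x (TT Q J') + (Q ^ 2 * cn (FixP n Q U) x (FixT n Q) +
            Q ^ 2 * (2 * (Xt E').card) +
            Q ^ 2 * (2 * ((Blocks n Q \ J').card * (Q - 1)) + 2)) := by ring
        _ ≤ _ := by omega
    have l10 : (Q : ℝ) ^ 2 * (Dt E').card ≤ (Q : ℝ) ^ 2 * cn (Dt E') x (TT Q J') + 22 * n := by
      exact_mod_cast l9
    linarith

end Pool.Agent.DNA
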