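import Pool.Agent.Lib.MP_845d9b_co.Abs.FinalStmt

/-!
Module FN (helper65): from a half solution to the ordering criterion.
-/

set_option autoImplicit false

namespace Pool.Agent.DNA

open Finset

namespace FN

variable {n : ℕ}

/-- upper (`false`) or lower (`true`) point of time `t` -/
def P (U : ℕ → ZMod n) (t : ℕ) (s : Bool) : ZMod n := if s then U t - (t : ZMod n) else U t

/-- difference at `t`, or its mirror image -/
def D (U : ℕ → ZMod n) (t : ℕ) (s : Bool) : ZMod n :=
  if s then 1 - (U (t + 1) - U t) else U (t + 1) - U t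

theorem P_inj {U : ℕ → ZMod n} (h : HalfSol n U) {t t' : ℕ} (ht : T0 n ≤ t ∧ t ≤ T1 n)
    (ht' : T0 n ≤ t' ∧ t' ≤ T1 n) {s s' : Bool} (e : P U t s = P U t' s') :
    t = t' ∧ (s = s' ∨ t = 0) := by
  have m := mem_Icc.2 ht
  have m' := mem_Icc.2 ht'
  cases s <;> cases s' <;> simp only [P, if_true, if_false, Bool.false_eq_true] at e
  · exact ⟨h.up _ m _ m' e, Or.inl rfl⟩
  · obtain ⟨a, b⟩ := h.ul _ m _ m' e
    exact ⟨a.trans b.symm, Or.inr a⟩
  · obtain ⟨a, b⟩ := h.ul _ m' _ m e.symm
    exact ⟨b.trans a.symm, Or.inr b⟩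
  · exact ⟨h.lo _ m _ m' e, Or.inl rfl⟩

theorem D_ok {U : ℕ → ZMod n} (h : HalfSol n U) {t : ℕ} (ht : T0 n ≤ t ∧ t < T1 n) (s : Bool) :
    D U t s ≠ 0 ∧ D U t s ≠ 1 ∧ D U t s + D U t s ≠ 1 := by
  obtain ⟨a, b, c⟩ := h.ok t (mem_Ico.2 ht)
  cases s <;> simp only [D, if_true, if_false, Bool.false_eq_true]
  · exact ⟨a, b, c⟩
  · refine ⟨fun e => b ?_, fun e => a ?_, fun e => c ?_⟩
    · linear_combination -e
    · linear_combination -e
    · linear_combination -e

theorem D_inj {U : ℕ → ZMod n} (h : HalfSol n U) {t t' : ℕ} (ht : T0 n ≤ t ∧ t < T1 n)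
    (ht' : T0 n ≤ t' ∧ t' < T1 n) {s s' : Bool} (e : D U t s = D U t' s') :
    t = t' ∧ s = s' := by
  have m := mem_Ico.2 ht
  have m' := mem_Ico.2 ht'
  have key : t = t' := by
    apply h.cls _ m _ m'
    unfold cl
    rw [Sym2.eq_iff]
    cases s <;> cases s' <;> simp only [D, if_true, if_false, Bool.false_eq_true] at e
    · left; exact ⟨e, by rw [e]⟩
    · right; exact ⟨e, by rw [e]; ring⟩
    · right; refine ⟨?_, e⟩; rw [← e]; ring
    · left
      have : U (t + 1) - U t = U (t' + 1) - U t' := by linear_combination -e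
      exact ⟨this, by rw [this]⟩
  subst key
  refine ⟨rfl, ?_⟩
  obtain ⟨-, -, c⟩ := h.ok t m
  cases s <;> cases s' <;> simp only [D, if_true, if_false, Bool.false_eq_true] at e
  · rfl
  · exact absurd (by linear_combination e) c
  · exact absurd (by linear_combination -e) c
  · rfl

end FN

open FN

theorem stFinal_even (h : ℕ) (U : ℕ → ZMod (2 * h)) (hn : 6 ≤ 2 * h) (hU : HalfSol (2 * h) U) :
    DNeo.Good (2 * h + 1) := by
  have t0 : T0 (2 * h) = 0 := by simp [T0]
  have t1 : T1 (2 * h) = h - 1 := by simp only [T1]; omega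
  -- position `k` carries the time `tt k` on the side `ss k`
  set tt : ℕ → ℕ := fun k => if h ≤ k then k - h else h - k with htt
  set ss : ℕ → Bool := fun k => decide (k < h) with hss
  have rng : ∀ k : ℕ, 1 ≤ k → k < 2 * h → T0 (2 * h) ≤ tt k ∧ tt k ≤ T1 (2 * h) := by
    intro k h1 h2
    rw [t0, t1]
    simp only [htt]
    split_ifs <;> omega
  have inj : ∀ i j : ℕ, tt i = tt j → (ss i = ss j ∨ tt i = 0) → i = j := by
    intro i j h1 h2
    simp only [htt, hss] at h1 h2
    rcases h2 with h2 | h2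
    · by_cases a : i < h <;> by_cases b : j < h <;> simp [a, b] at h2
      · rw [if_neg (by omega), if_neg (by omega)] at h1
        omega
      · rw [if_pos (by omega), if_pos (by omega)] at h1
        omega
    · split_ifs at h1 h2 <;> omega
  have e : ∀ k : ℕ, 1 ≤ k → k < 2 * h - 1 → ∃ (t : ℕ) (s : Bool),
      (T0 (2 * h) ≤ t ∧ t < T1 (2 * h)) ∧
      P U (tt (k + 1)) (ss (k + 1)) - P U (tt k) (ss k) = D U t s ∧
      ((s = false ∧ k = t + h) ∨ (s = true ∧ k + t + 1 = h)) := by
    intro k h1 h2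
    rw [t0, t1]
    simp only [htt, hss]
    by_cases hk : k < h
    · refine ⟨h - k - 1, true, by omega, ?_, Or.inr ⟨rfl, by omega⟩⟩
      rw [if_neg (show ¬ h ≤ k by omega)]
      simp only [D, if_true]
      rw [show h - k - 1 + 1 = h - k from by omega]
      by_cases hk2 : k + 1 < h
      · rw [if_neg (show ¬ h ≤ k + 1 by omega)]
        simp only [hk, hk2, decide_true, P, if_true]
        rw [show h - (k + 1) = h - k - 1 from by omega]
        have : ((h - k : ℕ) : ZMod (2 * h)) = ((h - k - 1 : ℕ) : ZMod (2 * h)) + 1 := by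
          have : h - k = (h - k - 1) + 1 := by omega
          rw [this, Nat.cast_add, Nat.cast_one]
          rfl
        rw [this]
        ring
      · rw [if_pos (show h ≤ k + 1 by omega)]
        simp only [hk, hk2, decide_true, decide_false, P, if_true, if_false,
          Bool.false_eq_true]
        rw [show k + 1 - h = 0 from by omega, show h - k - 1 = 0 from by omega,
          show h - k = 1 from by omega]
        push_cast
        ring
    · refine ⟨k - h, false, by omega, ?_, Or.inl ⟨rfl, by omega⟩⟩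
      rw [if_pos (show h ≤ k by omega), if_pos (show h ≤ k + 1 by omega)]
      simp only [hk, show ¬ (k + 1 < h) by omega, decide_false, P, D, if_false,
        Bool.false_eq_true]
      rw [show k + 1 - h = k - h + 1 from by omega]
  refine DNeo.good_of_seq (2 * h) hn (fun k => P U (tt k) (ss k)) ?_ ?_ ?_ ?_
  · intro i j hi1 hi2 hj1 hj2 hij
    obtain ⟨a, b⟩ := P_inj hU (rng i hi1 hi2) (rng j hj1 hj2) hij
    exact inj i j a b
  · have e : ∀ k : ℕ, P U (tt k) (ss k) - (k : ZMod (2 * h))
        = P U (tt k) (!(ss k)) - (h : ZMod (2 * h)) := by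
      intro k
      simp only [htt, hss]
      by_cases hk : k < h
      · rw [if_neg (by omega)]
        simp only [hk, decide_true, Bool.not_true, P, if_true, if_false, Bool.false_eq_true]
        rw [Nat.cast_sub hk.le]
        ring
      · rw [if_pos (by omega)]
        simp only [hk, decide_false, Bool.not_false, P, if_true, if_false, Bool.false_eq_true]
        rw [Nat.cast_sub (by omega : h ≤ k)]
        ring
    intro i j hi1 hi2 hj1 hj2 hij
    simp only [e] at hij
    obtain ⟨a, b⟩ := P_inj hU (rng i hi1 hi2) (rng j hj1 hj2) (sub_left_injective hij)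
    refine inj i j a (b.imp (fun b => ?_) id)
    simpa using b
  · intro i j hi1 hi2 hj1 hj2 hij
    obtain ⟨s, ε, hs, es, cs⟩ := e i hi1 hi2
    obtain ⟨t, δ, ht, et, ct⟩ := e j hj1 hj2
    simp only [es, et] at hij
    obtain ⟨a, b⟩ := D_inj hU hs ht hij
    subst a b
    rcases cs with ⟨c1, c2⟩ | ⟨c1, c2⟩ <;> rcases ct with ⟨d1, d2⟩ | ⟨d1, d2⟩
    · omega
    · rw [c1] at d1; exact absurd d1 (by simp)
    · rw [c1] at d1; exact absurd d1 (by simp)
    · omega
  · intro i hi1 hi2
    obtain ⟨s, ε, hs, es, cs⟩ := e i hi1 hi2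
    simp only [es]
    exact ⟨(D_ok hU hs ε).1, (D_ok hU hs ε).2.1⟩

theorem stFinal_odd (h : ℕ) (U : ℕ → ZMod (2 * h + 1)) (hn : 6 ≤ 2 * h + 1)
    (hU : HalfSol (2 * h + 1) U) : DNeo.Good (2 * h + 1 + 1) := by
  have t0 : T0 (2 * h + 1) = 1 := by simp only [T0]; omega
  have t1 : T1 (2 * h + 1) = h := by simp only [T1]; omega
  have hz : (2 : ZMod (2 * h + 1)) * (h : ZMod (2 * h + 1)) + 1 = 0 := by
    have := ZMod.natCast_self (2 * h + 1)
    push_cast at this
    exact this
  set tt : ℕ → ℕ := fun k => if k ≤ h then k else 2 * h + 1 - k with htt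
  set ss : ℕ → Bool := fun k => decide (h < k) with hss
  have rng : ∀ k : ℕ, 1 ≤ k → k < 2 * h + 1 → T0 (2 * h + 1) ≤ tt k ∧ tt k ≤ T1 (2 * h + 1) := by
    intro k h1 h2
    rw [t0, t1]
    simp only [htt]
    split_ifs <;> omega
  have inj : ∀ i j : ℕ, 1 ≤ i → i < 2 * h + 1 → 1 ≤ j → j < 2 * h + 1 →
      tt i = tt j → (ss i = ss j ∨ tt i = 0) → i = j := by
    intro i j i1 i2 j1 j2 h1 h2
    simp only [htt, hss] at h1 h2
    rcases h2 with h2 | h2
    · by_cases a : h < i <;> by_cases b : h < j <;> simp [a, b] at h2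
      · rw [if_neg (by omega), if_neg (by omega)] at h1
        omega
      · rw [if_pos (by omega), if_pos (by omega)] at h1
        omega
    · split_ifs at h1 h2 <;> omega
  have e : ∀ k : ℕ, 1 ≤ k → k < 2 * h → (k = h ∧
      P U (tt (k + 1)) (ss (k + 1)) - P U (tt k) (ss k) = -(h : ZMod (2 * h + 1))) ∨
      ∃ (t : ℕ) (s : Bool), (T0 (2 * h + 1) ≤ t ∧ t < T1 (2 * h + 1)) ∧
      P U (tt (k + 1)) (ss (k + 1)) - P U (tt k) (ss k) = D U t s ∧
      ((s = false ∧ k = t) ∨ (s = true ∧ k + t = 2 * h)) := by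
    intro k h1 h2
    rw [t0, t1]
    simp only [htt, hss]
    rcases lt_trichotomy k h with hk | hk | hk
    · right
      refine ⟨k, false, by omega, ?_, Or.inl ⟨rfl, rfl⟩⟩
      rw [if_pos (show k ≤ h by omega), if_pos (show k + 1 ≤ h by omega)]
      simp only [show ¬ (h < k + 1) by omega, show ¬ (h < k) by omega, decide_false, P, D,
        if_false, Bool.false_eq_true]
    · left
      refine ⟨hk, ?_⟩
      subst hk
      rw [if_pos le_rfl, if_neg (show ¬ (k + 1 ≤ k) by omega),
        show 2 * k + 1 - (k + 1) = k from by omega]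
      simp only [lt_irrefl, lt_add_one, decide_true, decide_false, P, if_true, if_false,
        Bool.false_eq_true]
      ring
    · right
      refine ⟨2 * h - k, true, by omega, ?_, Or.inr ⟨rfl, by omega⟩⟩
      rw [if_neg (show ¬ k ≤ h by omega), if_neg (show ¬ k + 1 ≤ h by omega)]
      simp only [show h < k + 1 by omega, hk, decide_true, P, D, if_true]
      rw [show 2 * h + 1 - (k + 1) = 2 * h - k from by omega,
        show 2 * h + 1 - k = 2 * h - k + 1 from by omega, Nat.cast_add, Nat.cast_one]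
      ring
  have hh0 : -(h : ZMod (2 * h + 1)) + -(h : ZMod (2 * h + 1)) = 1 := by
    linear_combination -hz
  have h1ne : (1 : ZMod (2 * h + 1)) ≠ 0 := by
    have : Fact (1 < 2 * h + 1) := ⟨by omega⟩
    exact one_ne_zero
  refine DNeo.good_of_seq (2 * h + 1) hn (fun k => P U (tt k) (ss k)) ?_ ?_ ?_ ?_
  · intro i j hi1 hi2 hj1 hj2 hij
    obtain ⟨a, b⟩ := P_inj hU (rng i hi1 hi2) (rng j hj1 hj2) hij
    exact inj i j hi1 hi2 hj1 hj2 a b
  · have e : ∀ k : ℕ, k < 2 * h + 1 → P U (tt k) (ss k) - (k : ZMod (2 * h + 1))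
        = P U (tt k) (!(ss k)) := by
      intro k hk2
      simp only [htt, hss]
      by_cases hk : h < k
      · rw [if_neg (by omega)]
        simp only [hk, decide_true, Bool.not_true, P, if_true, if_false, Bool.false_eq_true]
        rw [Nat.cast_sub hk2.le]
        push_cast
        linear_combination -hz
      · rw [if_pos (by omega)]
        simp only [hk, decide_false, Bool.not_false, P, if_true, if_false, Bool.false_eq_true]
    intro i j hi1 hi2 hj1 hj2 hij
    simp only [e i hi2, e j hj2] at hij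
    obtain ⟨a, b⟩ := P_inj hU (rng i hi1 hi2) (rng j hj1 hj2) hij
    refine inj i j hi1 hi2 hj1 hj2 a (b.imp (fun b => ?_) id)
    simpa using b
  · intro i j hi1 hi2 hj1 hj2 hij
    rcases e i hi1 (by omega) with ⟨ci, es⟩ | ⟨s, ε, hs, es, cs⟩ <;>
      rcases e j hj1 (by omega) with ⟨cj, et⟩ | ⟨t, δ, ht, et, ct⟩
    · omega
    · exfalso
      rw [es, et] at hij
      refine (D_ok hU ht δ).2.2 ?_
      rw [← hij, hh0]
    · exfalso
      rw [es, et] at hij
      refine (D_ok hU hs ε).2.2 ?_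
      rw [hij, hh0]
    · rw [es, et] at hij
      obtain ⟨a, b⟩ := D_inj hU hs ht hij
      subst a b
      rcases cs with ⟨c1, c2⟩ | ⟨c1, c2⟩ <;> rcases ct with ⟨d1, d2⟩ | ⟨d1, d2⟩
      · omega
      · rw [c1] at d1; exact absurd d1 (by simp)
      · rw [c1] at d1; exact absurd d1 (by simp)
      · omega
  · intro i hi1 hi2
    rcases e i hi1 (by omega) with ⟨ci, es⟩ | ⟨s, ε, hs, es, cs⟩
    · rw [es]
      refine ⟨fun h0 => h1ne ?_, fun h0 => h1ne ?_⟩
      · rw [← hh0, h0, add_zero]
      · rw [h0] at hh0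
        linear_combination hh0
    · rw [es]
      exact ⟨(D_ok hU hs ε).1, (D_ok hU hs ε).2.1⟩

theorem stFinal : StFinal := by
  intro n U hn hU
  rcases Nat.even_or_odd' n with ⟨h, rfl | rfl⟩
  · exact stFinal_even h U hn hU
  · exact stFinal_odd h U hn hU

end Pool.Agent.DNA
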