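import Pool.Agent.Lib.MP_845d9b_co.Abs.FpmStmts

/-!
# Exact fractional packing: application of the contraction lemma (helper91, module F6)
-/

set_option autoImplicit false

namespace Pool.Agent.DNA

open Finset

namespace FpmAux

variable {n Q : ℕ}

lemma not_dvd {j k : ℕ} (hk : k ∈ Ioo (j * Q) ((j + 1) * Q)) : ¬ Q ∣ k := by
  rw [mem_Ioo] at hk
  rintro ⟨a, rfl⟩
  have h1 : j < a := by
    have := hk.1
    rw [mul_comm] at this
    exact lt_of_mul_lt_mul_left this (Nat.zero_le _)
  have h2 : a < j + 1 := by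
    have := hk.2
    rw [mul_comm (j + 1)] at this
    exact lt_of_mul_lt_mul_left this (Nat.zero_le _)
  omega

lemma ext_free (U : ℕ → ZMod n) {j k : ℕ} (m : Fin (Q - 1) → ZMod n)
    (hk : k ∈ Ioo (j * Q) ((j + 1) * Q)) :
    ∃ i : Fin (Q - 1), k = j * Q + 1 + (i : ℕ) ∧ ext n Q U j m k = m i := by
  rw [mem_Ioo] at hk
  have h2 : k - (j * Q + 1) < Q - 1 := by
    have := hk.2
    rw [add_mul, one_mul] at this
    omega
  refine ⟨⟨k - (j * Q + 1), h2⟩, ?_, ?_⟩
  · simp only
    omega
  · unfold ext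
    rw [dif_pos ⟨hk.1, h2⟩]

lemma free_mem {j : ℕ} (i : Fin (Q - 1)) : j * Q + 1 + (i : ℕ) ∈ Ioo (j * Q) ((j + 1) * Q) := by
  have := i.2
  rw [mem_Ioo, add_mul, one_mul]
  omega

lemma mult_sum [NeZero n] (j : ℕ) (f : ℕ → ZMod n) (g : Elt n → ℝ) :
    ∑ y : Elt n, (mult n Q j f y : ℝ) * g y =
      ∑ k ∈ Ioo (j * Q) ((j + 1) * Q), (g (Sum.inl (f k)) + g (Sum.inl (f k - (k : ZMod n)))) +
      ∑ k ∈ Ico (j * Q) ((j + 1) * Q), g (Sum.inr (cl (f (k + 1) - f k))) := by
  rw [Fintype.sum_sum_type]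
  congr 1
  · simp only [mult, Sum.elim_inl, Nat.cast_sum, Nat.cast_add, Nat.cast_ite, Nat.cast_one,
      Nat.cast_zero, Finset.sum_mul]
    rw [Finset.sum_comm]
    refine Finset.sum_congr rfl fun k _ => ?_
    simp only [add_mul, ite_mul, one_mul, zero_mul]
    rw [Finset.sum_add_distrib, Finset.sum_ite_eq, Finset.sum_ite_eq]
    simp
  · simp only [mult, Sum.elim_inr, Nat.cast_sum, Nat.cast_ite, Nat.cast_one,
      Nat.cast_zero, Finset.sum_mul]
    rw [Finset.sum_comm]
    refine Finset.sum_congr rfl fun k _ => ?_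
    simp only [ite_mul, one_mul, zero_mul]
    rw [Finset.sum_ite_eq]
    simp

lemma pa_nonneg [NeZero n] (U : ℕ → ZMod n) (E' : Finset (Elt n)) (k : ℕ) (x : ZMod n) :
    0 ≤ pa Q U E' k x := by
  unfold pa
  split_ifs <;> positivity

lemma pr_nonneg [NeZero n] (U : ℕ → ZMod n) (E' : Finset (Elt n)) (j : ℕ)
    (m : Fin (Q - 1) → ZMod n) : 0 ≤ pr Q U E' j m :=
  Finset.prod_nonneg fun _ _ => pa_nonneg _ _ _ _

lemma pr_ne [NeZero n] {U : ℕ → ZMod n} {E' : Finset (Elt n)} {j : ℕ}
    {m : Fin (Q - 1) → ZMod n} (h : pr Q U E' j m ≠ 0) {k : ℕ}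
    (hk : k ∈ Ioo (j * Q) ((j + 1) * Q)) : ext n Q U j m k ∈ Mk E' k := by
  obtain ⟨i, hi, he⟩ := ext_free U m hk
  unfold pr at h
  rw [Finset.prod_ne_zero_iff] at h
  have h1 := h i (mem_univ _)
  rw [← hi] at h1
  unfold pa at h1
  rw [if_neg (not_dvd hk)] at h1
  rw [he]
  by_contra hc
  rw [if_neg hc] at h1
  exact h1 rfl

lemma pr_le [NeZero n] {U : ℕ → ZMod n} {J' : Finset ℕ} {E' : Finset (Elt n)}
    (hF : Fp n Q U J' E') {j : ℕ} (hj : j ∈ J') (m : Fin (Q - 1) → ZMod n) :
    pr Q U E' j m ≤ (2 / (n : ℝ)) ^ (Q - 1) := by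
  have hn : (0 : ℝ) < n := by
    have := NeZero.pos n
    exact_mod_cast this
  have h : ∀ i : Fin (Q - 1), pa Q U E' (j * Q + 1 + (i : ℕ)) (m i) ≤ 2 / (n : ℝ) := by
    intro i
    have hk := free_mem (j := j) i
    unfold pa
    rw [if_neg (not_dvd hk)]
    split_ifs
    · have hb := hF.est.sub hj
      unfold Blocks J1 at hb
      rw [mem_Ico] at hb
      rw [mem_Ioo] at hk
      have h1 : (j + 1) * Q ≤ T1 n :=
        le_trans (Nat.mul_le_mul_right Q (by omega : j + 1 ≤ T1 n / Q)) (Nat.div_mul_le_self _ _)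
      have h2 := hF.mkc (j * Q + 1 + (i : ℕ)) (mem_Icc.2 ⟨by omega, by omega⟩)
      have h3 : (n : ℝ) ≤ 2 * ((Mk E' (j * Q + 1 + (i : ℕ))).card : ℝ) := by exact_mod_cast h2
      have h4 : (0 : ℝ) < ((Mk E' (j * Q + 1 + (i : ℕ))).card : ℝ) := by linarith
      rw [div_le_div_iff₀ h4 hn]
      linarith
    · positivity
  calc pr Q U E' j m ≤ ∏ _i : Fin (Q - 1), (2 / (n : ℝ)) :=
        Finset.prod_le_prod (fun _ _ => pa_nonneg _ _ _ _) fun i _ => h i
    _ = (2 / (n : ℝ)) ^ (Q - 1) := by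
        rw [Finset.prod_const, Finset.card_univ, Fintype.card_fin]

/-- sums over the elements of `E'` as sums over all elements -/
lemma sum_sub [NeZero n] (E' : Finset (Elt n)) (g : Elt n → ℝ) :
    ∑ y : {y // y ∈ E'}, g y.1 = ∑ y : Elt n, if y ∈ E' then g y else 0 := by
  rw [Finset.sum_ite_mem, Finset.univ_inter, Finset.sum_coe_sort E' g]

/-- the classes of `E'`: sum over representatives -/
lemma sum_cl [NeZero n] {E' : Finset (Elt n)} (hE : E' ⊆ All n) (g : Elt n → ℝ)
    (hg : ∀ y, y ∉ E' → g y = 0) :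
    ∑ w : ZMod n, g (Sum.inr (cl w)) = 2 * ∑ c : Sym2 (ZMod n), g (Sum.inr c) := by
  have h1 : ∑ w : ZMod n, g (Sum.inr (cl w)) =
      ∑ c : Sym2 (ZMod n), ∑ w ∈ univ.filter (fun w : ZMod n => cl w = c), g (Sum.inr (cl w)) := by
    rw [Finset.sum_fiberwise]
  rw [h1, Finset.mul_sum]
  refine Finset.sum_congr rfl fun c _ => ?_
  have h2 : ∑ w ∈ univ.filter (fun w : ZMod n => cl w = c), g (Sum.inr (cl w)) =
      ((univ.filter (fun w : ZMod n => cl w = c)).card : ℝ) * g (Sum.inr c) := by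
    rw [Finset.sum_congr rfl (g := fun _ => g (Sum.inr c)) (fun w hw => by
      rw [(mem_filter.1 hw).2]), Finset.sum_const, nsmul_eq_mul]
  rw [h2]
  by_cases hc : (Sum.inr c : Elt n) ∈ E'
  · have h3 := hE hc
    unfold All at h3
    rw [mem_union] at h3
    rcases h3 with h3 | h3
    · rw [mem_image] at h3
      obtain ⟨x, -, hx⟩ := h3
      exact absurd hx (by simp)
    · rw [mem_image] at h3
      obtain ⟨w, hw, hx⟩ := h3
      rw [mem_filter] at hw
      have hx' : cl w = c := Sum.inr_injective hx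
      have h4 : univ.filter (fun v : ZMod n => cl v = c) = {w, 1 - w} := by
        ext v
        rw [mem_filter, mem_insert, mem_singleton, ← hx']
        unfold cl
        rw [Sym2.eq_iff]
        constructor
        · rintro ⟨-, h | h⟩
          · exact Or.inl h.1
          · exact Or.inr h.1
        · rintro (h | h)
          · exact ⟨mem_univ _, Or.inl ⟨h, by rw [h]⟩⟩
          · exact ⟨mem_univ _, Or.inr ⟨h, by rw [h]; ring⟩⟩
      rw [h4, Finset.card_pair]
      · norm_num
      · intro h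
        apply hw.2.2.2
        rw [eq_sub_iff_add_eq] at h
        exact h
  · rw [hg _ hc]
    ring

lemma kc_two [NeZero n] (E' : Finset (Elt n)) :
    kc E' 2 = (E'.filter fun y => y.isRight = true).card := by
  unfold kc
  congr 1
  ext y
  rw [mem_filter, mem_filter]
  rcases y with x | c
  · simp only [kd, Sum.elim_inl, Sum.isRight_inl]
    split_ifs <;> simp
  · simp [kd]

lemma kc_pts [NeZero n] (E' : Finset (Elt n)) :
    kc E' 0 + kc E' 1 = (E'.filter fun y => y.isLeft = true).card := by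
  unfold kc
  rw [← Finset.card_union_of_disjoint]
  · congr 1
    ext y
    rw [mem_union, mem_filter, mem_filter, mem_filter]
    rcases y with x | c
    · simp only [kd, Sum.elim_inl, Sum.isLeft_inl]
      split_ifs <;> simp
    · simp [kd]
  · rw [Finset.disjoint_left]
    intro y h1 h2
    rw [mem_filter] at h1 h2
    rw [h1.2] at h2
    exact absurd h2.2 (by decide)

section main

variable (n Q : ℕ) [NeZero n] (U : ℕ → ZMod n) (J' : Finset ℕ) (E' : Finset (Elt n))

/-- vertices -/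
abbrev VV := {j // j ∈ J'} ⊕ {y // y ∈ E'}

/-- edges -/
abbrev EE := {j // j ∈ J'} × (Fin (Q - 1) → ZMod n)

/-- types of the vertices -/
def ta : VV n J' E' → Fin 3 := Sum.elim (fun _ => 0) fun y => if y.1.isLeft = true then 1 else 2

/-- multiplicities -/
def NN (e : EE n Q J') : VV n J' E' → ℝ :=
  Sum.elim (fun j => if e.1 = j then 1 else 0) fun y => (mult n Q e.1.1 (ext n Q U e.1.1 e.2) y.1 : ℝ)

/-- the approximate weighting -/
noncomputable def ww (e : EE n Q J') : ℝ :=
  if Gd Q E' e.1.1 (ext n Q U e.1.1 e.2) then pr Q U E' e.1.1 e.2 else 0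

/-- sums over edges -/
lemma sum_edges (F : {j // j ∈ J'} → (ℕ → ZMod n) → ℝ) :
    ∑ e : EE n Q J', ww n Q U J' E' e * F e.1 (ext n Q U e.1.1 e.2) =
      ∑ j : {j // j ∈ J'}, Ex Q U E' j.1 (fun f => if Gd Q E' j.1 f then F j f else 0) := by
  rw [Fintype.sum_prod_type]
  refine Finset.sum_congr rfl fun j _ => ?_
  unfold Ex ww
  refine Finset.sum_congr rfl fun m _ => ?_
  simp only
  split_ifs <;> ring

/-- sums over vertices of a given type -/
lemma sum_ty (t : Fin 3) (g : VV n J' E' → ℝ) :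
    (∑ v ∈ univ.filter (fun v => ta n J' E' v = t), g v) =
      ∑ v, if ta n J' E' v = t then g v else 0 := by
  rw [Finset.sum_filter]

lemma ta_inl (j : {j // j ∈ J'}) : ta n J' E' (Sum.inl j) = 0 := rfl

lemma ta_left {y : {y // y ∈ E'}} (h : y.1.isLeft = true) : ta n J' E' (Sum.inr y) = 1 := by
  unfold ta
  simp [h]

lemma ta_right {y : {y // y ∈ E'}} (h : y.1.isRight = true) : ta n J' E' (Sum.inr y) = 2 := by
  have h' : ¬ y.1.isLeft = true := by
    rcases hy : y.1 with x | c
    · rw [hy] at h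
      simp at h
    · simp
  unfold ta
  simp only [Sum.elim_inr]
  rw [if_neg h']

lemma left_or_right (y : Elt n) : y.isLeft = true ∨ y.isRight = true := by
  rcases y with x | c <;> simp

lemma sum_ty0 (g : VV n J' E' → ℝ) :
    (∑ v ∈ univ.filter (fun v => ta n J' E' v = 0), g v) = ∑ j : {j // j ∈ J'}, g (Sum.inl j) := by
  rw [sum_ty, Fintype.sum_sum_type]
  have h : ∑ y : {y // y ∈ E'}, (if ta n J' E' (Sum.inr y) = 0 then g (Sum.inr y) else 0) = 0 := by
    refine Finset.sum_eq_zero fun y _ => ?_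
    rcases left_or_right n y.1 with h | h
    · rw [if_neg]
      rw [ta_left n J' E' h]
      decide
    · rw [if_neg]
      rw [ta_right n J' E' h]
      decide
  rw [h, add_zero]
  refine Finset.sum_congr rfl fun j _ => ?_
  rw [if_pos (ta_inl n J' E' j)]

lemma sum_ty1 (g : VV n J' E' → ℝ) :
    (∑ v ∈ univ.filter (fun v => ta n J' E' v = 1), g v) =
      ∑ y : {y // y ∈ E'}, if y.1.isLeft = true then g (Sum.inr y) else 0 := by
  rw [sum_ty, Fintype.sum_sum_type]
  have h : ∑ j : {j // j ∈ J'}, (if ta n J' E' (Sum.inl j) = 1 then g (Sum.inl j) else 0) = 0 := by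
    refine Finset.sum_eq_zero fun j _ => ?_
    rw [if_neg]
    rw [ta_inl n J' E' j]
    decide
  rw [h, zero_add]
  refine Finset.sum_congr rfl fun y _ => ?_
  rcases left_or_right n y.1 with h | h
  · rw [if_pos (ta_left n J' E' h), if_pos h]
  · rw [if_neg, if_neg]
    · rcases hy : y.1 with x | c
      · rw [hy] at h
        simp at h
      · simp
    · rw [ta_right n J' E' h]
      decide

lemma sum_ty2 (g : VV n J' E' → ℝ) :
    (∑ v ∈ univ.filter (fun v => ta n J' E' v = 2), g v) =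
      ∑ y : {y // y ∈ E'}, if y.1.isRight = true then g (Sum.inr y) else 0 := by
  rw [sum_ty, Fintype.sum_sum_type]
  have h : ∑ j : {j // j ∈ J'}, (if ta n J' E' (Sum.inl j) = 2 then g (Sum.inl j) else 0) = 0 := by
    refine Finset.sum_eq_zero fun j _ => ?_
    rw [if_neg]
    rw [ta_inl n J' E' j]
    decide
  rw [h, zero_add]
  refine Finset.sum_congr rfl fun y _ => ?_
  rcases left_or_right n y.1 with h | h
  · rw [if_neg, if_neg]
    · rcases hy : y.1 with x | c
      · simp
      · rw [hy] at h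
        simp at h
    · rw [ta_left n J' E' h]
      decide
  · rw [if_pos (ta_right n J' E' h), if_pos h]

/-- extension by zero on blocks -/
noncomputable def bJ (β : VV n J' E' → ℝ) (j : ℕ) : ℝ := if h : j ∈ J' then β (Sum.inl ⟨j, h⟩) else 0

/-- extension by zero on elements -/
noncomputable def bE (β : VV n J' E' → ℝ) (y : Elt n) : ℝ :=
  if h : y ∈ E' then β (Sum.inr ⟨y, h⟩) else 0

variable {n Q U J' E'}

lemma sum_bE (β : VV n J' E' → ℝ) (g : Elt n → ℝ) :
    ∑ y : {y // y ∈ E'}, g y.1 * β (Sum.inr y) = ∑ y : Elt n, g y * bE n J' E' β y := by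
  have h1 : ∑ y : {y // y ∈ E'}, g y.1 * β (Sum.inr y) =
      ∑ y : {y // y ∈ E'}, (fun y => g y * bE n J' E' β y) y.1 := by
    refine Finset.sum_congr rfl fun y _ => ?_
    simp only [bE]
    rw [dif_pos y.2]
  rw [h1, sum_sub E' (fun y => g y * bE n J' E' β y)]
  refine Finset.sum_congr rfl fun y _ => ?_
  by_cases h : y ∈ E'
  · rw [if_pos h]
  · rw [if_neg h]
    unfold bE
    rw [dif_neg h, mul_zero]

lemma NN_sum (β : VV n J' E' → ℝ) (e : EE n Q J') :
    ∑ u, NN n Q U J' E' e u * β u =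
      Sb Q (bJ n J' E' β) (bE n J' E' β) e.1.1 (ext n Q U e.1.1 e.2) := by
  rw [Fintype.sum_sum_type]
  have h1 : ∑ j : {j // j ∈ J'}, NN n Q U J' E' e (Sum.inl j) * β (Sum.inl j) =
      bJ n J' E' β e.1.1 := by
    unfold NN bJ
    simp only [Sum.elim_inl, ite_mul, one_mul, zero_mul]
    rw [Finset.sum_ite_eq, if_pos (mem_univ _), dif_pos e.1.2]
  have h2 : ∑ y : {y // y ∈ E'}, NN n Q U J' E' e (Sum.inr y) * β (Sum.inr y) =
      ∑ y : Elt n, (mult n Q e.1.1 (ext n Q U e.1.1 e.2) y : ℝ) * bE n J' E' β y := by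
    unfold NN
    simp only [Sum.elim_inr]
    exact sum_bE β fun y => (mult n Q e.1.1 (ext n Q U e.1.1 e.2) y : ℝ)
  rw [h1, h2, mult_sum]
  unfold Sb hh
  ring

lemma betaOk (hE : E' ⊆ All n) (hQ : 0 < Q) (β : VV n J' E' → ℝ)
    (hb : ∀ v, |β v| ≤ (![1, 200 / (Q : ℝ), 200 / (Q : ℝ)] : Fin 3 → ℝ) (ta n J' E' v))
    (hs : ∀ t, (∑ v ∈ univ.filter (fun v => ta n J' E' v = t), β v) = 0) :
    BetaOk n Q J' E' (bJ n J' E' β) (bE n J' E' β) := by
  have hQ' : (0 : ℝ) < Q := by exact_mod_cast hQ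
  refine ⟨?_, ?_, ?_, ?_, ?_, ?_⟩
  · intro j
    unfold bJ
    split_ifs with h
    · have := hb (Sum.inl ⟨j, h⟩)
      unfold ta at this
      simpa using this
    · simp
  · intro y
    unfold bE
    split_ifs with h
    · have := hb (Sum.inr ⟨y, h⟩)
      unfold ta at this
      simp only [Sum.elim_inr] at this
      split_ifs at this
      · simpa using this
      · simpa using this
    · rw [abs_zero]
      positivity
  · intro y hy
    unfold bE
    rw [dif_neg hy]
  · have := hs 0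
    rw [sum_ty0] at this
    rw [← this, ← Finset.sum_coe_sort J' (bJ n J' E' β)]
    refine Finset.sum_congr rfl fun j _ => ?_
    unfold bJ
    rw [dif_pos j.2]
  · have := hs 1
    rw [sum_ty1] at this
    have h1 := sum_bE β (fun y => if y.isLeft = true then 1 else 0)
    simp only [ite_mul, one_mul, zero_mul] at h1
    rw [h1, Fintype.sum_sum_type] at this
    simpa using this
  · rw [sum_cl hE _ (fun y hy => by unfold bE; rw [dif_neg hy])]
    have := hs 2
    rw [sum_ty2] at this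
    have h1 := sum_bE β (fun y => if y.isRight = true then 1 else 0)
    simp only [ite_mul, one_mul, zero_mul] at h1
    rw [h1, Fintype.sum_sum_type] at this
    simp only [Sum.isRight_inl, Sum.isRight_inr] at this
    have h2 : ∑ c : Sym2 (ZMod n), bE n J' E' β (Sum.inr c) = 0 := by simpa using this
    rw [h2, mul_zero]

/-- everything covered by a tuple of positive weight is in `E'` -/
lemma mult_ne {j : ℕ} {m : Fin (Q - 1) → ZMod n} (h1 : pr Q U E' j m ≠ 0)
    (h2 : Gd Q E' j (ext n Q U j m)) {y : Elt n} (hy : mult n Q j (ext n Q U j m) y ≠ 0) :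
    y ∈ E' := by
  rcases y with x | c
  · simp only [mult, Sum.elim_inl] at hy
    obtain ⟨k, hk, hk2⟩ := Finset.exists_ne_zero_of_sum_ne_zero hy
    have h3 := pr_ne h1 hk
    unfold Mk at h3
    rw [mem_filter] at h3
    by_cases ha : ext n Q U j m k = x
    · rw [← ha]
      exact h3.2.1
    · by_cases hb : ext n Q U j m k - (k : ZMod n) = x
      · rw [← hb]
        exact h3.2.2
      · rw [if_neg ha, if_neg hb] at hk2
        exact absurd rfl hk2
  · simp only [mult, Sum.elim_inr] at hy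
    obtain ⟨k, hk, hk2⟩ := Finset.exists_ne_zero_of_sum_ne_zero hy
    by_cases ha : cl (ext n Q U j m (k + 1) - ext n Q U j m k) = c
    · rw [← ha]
      exact h2 k hk
    · rw [if_neg ha] at hk2
      exact absurd rfl hk2

/-- numbers of vertices of every type in an edge -/
lemma NN_ty (hQ : 1 ≤ Q) (e : EE n Q J') (he : ww n Q U J' E' e ≠ 0) (t : Fin 3) :
    (∑ v ∈ univ.filter (fun v => ta n J' E' v = t), NN n Q U J' E' e v) =
      (![1, 2 * ((Q : ℝ) - 1), (Q : ℝ)] : Fin 3 → ℝ) t := by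
  have hG : Gd Q E' e.1.1 (ext n Q U e.1.1 e.2) := by
    by_contra hc
    apply he
    unfold ww
    rw [if_neg hc]
  have hp : pr Q U E' e.1.1 e.2 ≠ 0 := by
    intro hc
    apply he
    unfold ww
    rw [hc]
    simp
  have key : ∀ g : Elt n → ℝ, ∑ y : {y // y ∈ E'}, g y.1 * (NN n Q U J' E' e (Sum.inr y)) =
      ∑ k ∈ Ioo (e.1.1 * Q) ((e.1.1 + 1) * Q), (g (Sum.inl (ext n Q U e.1.1 e.2 k)) +
        g (Sum.inl (ext n Q U e.1.1 e.2 k - (k : ZMod n)))) +
      ∑ k ∈ Ico (e.1.1 * Q) ((e.1.1 + 1) * Q),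
        g (Sum.inr (cl (ext n Q U e.1.1 e.2 (k + 1) - ext n Q U e.1.1 e.2 k))) := by
    intro g
    rw [← mult_sum]
    have h1 : ∑ y : {y // y ∈ E'}, g y.1 * (NN n Q U J' E' e (Sum.inr y)) =
      ∑ y : {y // y ∈ E'}, (fun y : Elt n => g y * (mult n Q e.1.1 (ext n Q U e.1.1 e.2) y : ℝ)) y.1 :=
      Finset.sum_congr rfl fun y _ => rfl
    rw [h1, sum_sub E' (fun y : Elt n => g y * (mult n Q e.1.1 (ext n Q U e.1.1 e.2) y : ℝ))]
    refine Finset.sum_congr rfl fun y _ => ?_
    by_cases h : y ∈ E'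
    · rw [if_pos h, mul_comm]
    · rw [if_neg h]
      have : mult n Q e.1.1 (ext n Q U e.1.1 e.2) y = 0 := by
        by_contra hc
        exact h (mult_ne hp hG hc)
      rw [this]
      simp
  fin_cases t
  · change (∑ v ∈ univ.filter (fun v => ta n J' E' v = 0), NN n Q U J' E' e v) = 1
    rw [sum_ty0]
    unfold NN
    simp only [Sum.elim_inl]
    rw [Finset.sum_ite_eq, if_pos (mem_univ _)]
  · change (∑ v ∈ univ.filter (fun v => ta n J' E' v = 1), NN n Q U J' E' e v) = 2 * ((Q : ℝ) - 1)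
    rw [sum_ty1]
    have h1 := key (fun y => if y.isLeft = true then 1 else 0)
    simp only [ite_mul, one_mul, zero_mul, Sum.isLeft_inl, Sum.isLeft_inr, if_true,
      Bool.false_eq_true, if_false, Finset.sum_const, Finset.sum_const_zero, add_zero,
      Nat.card_Ioo, nsmul_eq_mul] at h1
    rw [h1]
    have h2 : (e.1.1 + 1) * Q - e.1.1 * Q - 1 = Q - 1 := by
      rw [add_mul, one_mul]
      omega
    rw [h2, Nat.cast_sub hQ]
    push_cast
    ring
  · change (∑ v ∈ univ.filter (fun v => ta n J' E' v = 2), NN n Q U J' E' e v) = (Q : ℝ)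
    rw [sum_ty2]
    have h1 := key (fun y => if y.isRight = true then 1 else 0)
    simp only [ite_mul, one_mul, zero_mul, Sum.isRight_inl, Sum.isRight_inr, if_true,
      Bool.false_eq_true, if_false, Finset.sum_const, Finset.sum_const_zero, add_zero,
      Nat.card_Ico, nsmul_eq_mul, mul_one, zero_add] at h1
    rw [h1]
    have h2 : (e.1.1 + 1) * Q - e.1.1 * Q = Q := by
      rw [add_mul, one_mul]
      omega
    rw [h2]
    ring

/-- numbers of vertices of every type -/
lemma card_ty (hQ : 1 ≤ Q) (hp : kc E' 0 + kc E' 1 = 2 * (Q - 1) * J'.card)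
    (hc : kc E' 2 = Q * J'.card) (t : Fin 3) :
    ((univ.filter fun v => ta n J' E' v = t).card : ℝ) =
      (![1, 2 * ((Q : ℝ) - 1), (Q : ℝ)] : Fin 3 → ℝ) t * (J'.card : ℝ) := by
  have h0 : ((univ.filter fun v => ta n J' E' v = t).card : ℝ) =
      ∑ v ∈ univ.filter (fun v => ta n J' E' v = t), (1 : ℝ) := by simp
  rw [h0]
  fin_cases t
  · change (∑ v ∈ univ.filter (fun v => ta n J' E' v = 0), (1 : ℝ)) = 1 * (J'.card : ℝ)
    rw [sum_ty0]
    simp
  · change (∑ v ∈ univ.filter (fun v => ta n J' E' v = 1), (1 : ℝ)) =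
      2 * ((Q : ℝ) - 1) * (J'.card : ℝ)
    rw [sum_ty1]
    have h1 := sum_sub E' (fun y => if y.isLeft = true then (1 : ℝ) else 0)
    rw [h1]
    rw [Finset.sum_ite_mem, Finset.univ_inter, ← Finset.sum_filter]
    rw [kc_pts] at hp
    simp only [Finset.sum_const, nsmul_eq_mul, mul_one]
    rw [hp]
    push_cast [Nat.cast_sub hQ]
    ring
  · change (∑ v ∈ univ.filter (fun v => ta n J' E' v = 2), (1 : ℝ)) = (Q : ℝ) * (J'.card : ℝ)
    rw [sum_ty2]
    have h1 := sum_sub E' (fun y => if y.isRight = true then (1 : ℝ) else 0)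
    rw [h1]
    rw [Finset.sum_ite_mem, Finset.univ_inter, ← Finset.sum_filter]
    rw [kc_two] at hc
    simp only [Finset.sum_const, nsmul_eq_mul, mul_one]
    rw [hc]
    push_cast
    ring

/-- sums over the edges of a block -/
lemma sum_inl (j : {j // j ∈ J'}) (G : ℕ → (ℕ → ZMod n) → ℝ) :
    ∑ e : EE n Q J', ww n Q U J' E' e * NN n Q U J' E' e (Sum.inl j) *
      G e.1.1 (ext n Q U e.1.1 e.2) =
      Ex Q U E' j.1 (fun f => if Gd Q E' j.1 f then G j.1 f else 0) := by
  have h1 := sum_edges n Q U J' E' (fun i f => (if i = j then 1 else 0) * G i.1 f)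
  have h2 : ∑ e : EE n Q J', ww n Q U J' E' e * NN n Q U J' E' e (Sum.inl j) *
      G e.1.1 (ext n Q U e.1.1 e.2) =
      ∑ e : EE n Q J', ww n Q U J' E' e *
        ((fun i f => (if i = j then 1 else 0) * G i.1 f) e.1 (ext n Q U e.1.1 e.2)) := by
    refine Finset.sum_congr rfl fun e _ => ?_
    rw [mul_assoc]
    rfl
  rw [h2, h1, Finset.sum_eq_single j]
  · unfold Ex
    refine Finset.sum_congr rfl fun m _ => ?_
    simp
  · intro i _ hi
    unfold Ex
    refine Finset.sum_eq_zero fun m _ => ?_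
    simp [hi]
  · intro hc
    exact absurd (mem_univ _) hc

/-- sums over the edges through an element -/
lemma sum_inr (y : {y // y ∈ E'}) (G : ℕ → (ℕ → ZMod n) → ℝ) :
    ∑ e : EE n Q J', ww n Q U J' E' e * NN n Q U J' E' e (Sum.inr y) *
      G e.1.1 (ext n Q U e.1.1 e.2) =
      ∑ j ∈ J', Ex Q U E' j (fun f => if Gd Q E' j f then (mult n Q j f y.1 : ℝ) * G j f else 0) := by
  have h1 := sum_edges n Q U J' E' (fun i f => (mult n Q i.1 f y.1 : ℝ) * G i.1 f)
  have h2 : ∑ e : EE n Q J', ww n Q U J' E' e * NN n Q U J' E' e (Sum.inr y) *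
      G e.1.1 (ext n Q U e.1.1 e.2) =
      ∑ e : EE n Q J', ww n Q U J' E' e *
        ((fun i f => (mult n Q i.1 f y.1 : ℝ) * G i.1 f) e.1 (ext n Q U e.1.1 e.2)) := by
    refine Finset.sum_congr rfl fun e _ => ?_
    rw [mul_assoc]
    rfl
  rw [h2, h1]
  exact Finset.sum_coe_sort J' (fun j =>
    Ex Q U E' j (fun f => if Gd Q E' j f then (mult n Q j f y.1 : ℝ) * G j f else 0))

lemma s_inr (y : {y // y ∈ E'}) (a b : ℝ) :
    (![a, b, b] : Fin 3 → ℝ) (ta n J' E' (Sum.inr y)) = b := by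
  rcases left_or_right n y.1 with h | h
  · rw [ta_left n J' E' h]
    rfl
  · rw [ta_right n J' E' h]
    rfl

end main

end FpmAux

open FpmAux in
/-- exact fractional packing, for one instance -/
theorem fpm_main {n Q : ℕ} [NeZero n] {U : ℕ → ZMod n} {J' : Finset ℕ} {E' : Finset (Elt n)}
    (hQ : 10 ^ 5 ≤ Q) (h1 : StH1) (h2 : StH2P) (h3 : StH2C) (hC : Pool.Agent.Nibble.StContract)
    (hF : Fp n Q U J' E') (hE : E' ⊆ All n) (hJ : J'.Nonempty)
    (hp : kc E' 0 + kc E' 1 = 2 * (Q - 1) * J'.card) (hc : kc E' 2 = Q * J'.card) :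
    ∃ w : EE n Q J' → ℝ, (∀ e, 0 ≤ w e ∧ w e ≤ 2 * ww n Q U J' E' e) ∧
      ∀ v, (∑ e, w e * NN n Q U J' E' e v) = 1 := by
  classical
  have hQ1 : 1 ≤ Q := le_trans (by norm_num) hQ
  have hQr : (10 ^ 5 : ℝ) ≤ Q := by exact_mod_cast hQ
  have hQp : (0 : ℝ) < Q := by linarith
  obtain ⟨h1a, h1b, h1c⟩ := h1 n Q U J' E' hQ hE hF
  have hw0 : ∀ e, 0 ≤ ww n Q U J' E' e := by
    intro e
    unfold ww
    split_ifs
    · exact pr_nonneg _ _ _ _
    · exact le_rfl
  have hN0 : ∀ e v, 0 ≤ NN n Q U J' E' e v := by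
    intro e v
    unfold NN
    rcases v with j | y
    · simp only [Sum.elim_inl]
      split_ifs <;> norm_num
    · simp only [Sum.elim_inr]
      positivity
  refine hC (VV n J' E') (EE n Q J') (ta n J' E') (NN n Q U J' E') (ww n Q U J' E')
    ![1, 2 * ((Q : ℝ) - 1), (Q : ℝ)] (J'.card : ℝ) ![1, 200 / (Q : ℝ), 200 / (Q : ℝ)] (1 / 20000)
    ?_ ?_ ?_ ?_ hN0 hw0 ?_ ?_ ?_ ?_ ?_
  · exact_mod_cast hJ.card_pos
  · intro t
    fin_cases t
    · exact le_rfl
    · change (1 : ℝ) ≤ 2 * ((Q : ℝ) - 1)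
      linarith
    · change (1 : ℝ) ≤ (Q : ℝ)
      linarith
  · intro t
    fin_cases t
    · exact one_pos
    · change (0 : ℝ) < 200 / (Q : ℝ)
      positivity
    · change (0 : ℝ) < 200 / (Q : ℝ)
      positivity
  · norm_num
  · intro e he t
    exact NN_ty hQ1 e he t
  · intro t
    exact card_ty hQ1 hp hc t
  · intro v
    rcases v with j | y
    · rw [ta_inl]
      change |(∑ e, ww n Q U J' E' e * NN n Q U J' E' e (Sum.inl j)) - 1| ≤ 1 / 20000 * 1
      have h4 := sum_inl (n := n) (Q := Q) (U := U) (J' := J') (E' := E') j (fun _ _ => 1)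
      simp only [mul_one] at h4
      rw [h4, mul_one]
      exact h1a j.1 j.2
    · have h4 := sum_inr (n := n) (Q := Q) (U := U) (J' := J') (E' := E') y (fun _ _ => 1)
      simp only [mul_one] at h4
      rw [h4]
      have h5 := h1b y.1 y.2
      have h6 : (1 / 20000 : ℝ) * (![1, 200 / (Q : ℝ), 200 / (Q : ℝ)] : Fin 3 → ℝ)
          (ta n J' E' (Sum.inr y)) = 1 / (100 * Q) := by
        rw [s_inr]
        field_simp
        norm_num
      rw [h6]
      exact h5
  · intro β hβ hs v
    have hB := betaOk hE (by omega) β hβ hs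
    simp only [NN_sum]
    rcases v with j | y
    · rw [ta_inl]
      change _ ≤ (1 : ℝ) / 4
      have h4 := sum_inl (n := n) (Q := Q) (U := U) (J' := J') (E' := E') j
        (fun j f => Sb Q (bJ n J' E' β) (bE n J' E' β) j f)
      rw [h4]
      have h5 := h1c _ _ hB j.1 j.2
      have h6 : bJ n J' E' β j.1 = β (Sum.inl j) := by
        unfold bJ
        rw [dif_pos j.2]
      rw [h6] at h5
      exact h5
    · rw [s_inr]
      have h4 := sum_inr (n := n) (Q := Q) (U := U) (J' := J') (E' := E') y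
        (fun j f => Sb Q (bJ n J' E' β) (bE n J' E' β) j f)
      rw [h4]
      have h6 : bE n J' E' β y.1 = β (Sum.inr y) := by
        unfold bE
        rw [dif_pos y.2]
      rw [← h6]
      have h7 : (200 / (Q : ℝ)) / 4 = 50 / Q := by ring
      rw [h7]
      obtain ⟨y, hy⟩ := y
      rcases y with x | c
      · exact h2 n Q U J' E' hQ hE hF _ _ hB x hy
      · have h8 := hE hy
        unfold All at h8
        rw [mem_union, mem_image, mem_image] at h8
        rcases h8 with ⟨x, -, hx⟩ | ⟨w, hw, hx⟩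
        · exact absurd hx (by simp)
        · rw [mem_filter] at hw
          have hx' : cl w = c := Sum.inr_injective hx
          subst hx'
          exact h3 n Q U J' E' hQ hE hF _ _ hB w hw.2 hy
  · rw [Fin.sum_univ_three]
    change 32 * (1 / 20000 : ℝ) * (1 * 1 + 2 * ((Q : ℝ) - 1) * (200 / (Q : ℝ)) +
      (Q : ℝ) * (200 / (Q : ℝ))) ≤ 1
    have : (1 * 1 + 2 * ((Q : ℝ) - 1) * (200 / (Q : ℝ)) + (Q : ℝ) * (200 / (Q : ℝ))) =
        601 - 400 / (Q : ℝ) := by
      field_simp
      ring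
    rw [this]
    have h4 : 0 < 400 / (Q : ℝ) := by positivity
    linarith

open FpmAux in
theorem stFPMFinal : StFPMFinal := by
  intro hEst hFp h1 h2 h3 hC
  refine ⟨10 ^ 5, by norm_num, ?_⟩
  intro Q hQ
  obtain ⟨N1, hN1⟩ := hEst Q hQ
  obtain ⟨N2, hN2⟩ := hFp Q hQ
  have hQr : (10 ^ 5 : ℝ) ≤ Q := by exact_mod_cast hQ
  have hQp : (0 : ℝ) < Q := by linarith
  refine ⟨1 / (10 * (Q : ℝ) ^ 5), 2 ^ Q, by positivity, by positivity, max N1 N2, ?_⟩
  intro n hn _ U J' E' hH
  have hest := hN1 n (le_trans (le_max_left _ _) hn) U J' E' hH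
  have hE : E' ⊆ All n := hH.sub'.trans sdiff_subset
  have hF := hN2 n (le_trans (le_max_right _ _) hn) U J' E' hest hE
  have hnp : (0 : ℝ) < n := by
    have := NeZero.pos n
    exact_mod_cast this
  rcases J'.eq_empty_or_nonempty with hJ | hJ
  · have hEe : E' = ∅ := by
      have ha := hH.pts
      have hb := hH.cls
      rw [hJ, card_empty, mul_zero] at ha hb
      rw [kc_pts, card_eq_zero] at ha
      rw [kc_two, card_eq_zero] at hb
      rw [eq_empty_iff_forall_notMem]
      intro y hy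
      rcases left_or_right n y with h | h
      · exact (eq_empty_iff_forall_notMem.1 ha y) (mem_filter.2 ⟨hy, h⟩)
      · exact (eq_empty_iff_forall_notMem.1 hb y) (mem_filter.2 ⟨hy, h⟩)
    refine ⟨fun _ _ => 0, fun _ _ => le_rfl, ?_, ?_, ?_, ?_⟩
    · intro j m
      positivity
    · intro j m h
      exact absurd rfl h
    · intro j hj
      rw [hJ] at hj
      exact absurd hj (notMem_empty _)
    · intro y hy
      rw [hEe] at hy
      exact absurd hy (notMem_empty _)
  · obtain ⟨w, hw, hw1⟩ := fpm_main hQ h1 h2 h3 hC hF hE hJ hH.pts hH.cls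
    refine ⟨fun j m => if h : j ∈ J' then w (⟨j, h⟩, m) else 0, ?_, ?_, ?_, ?_, ?_⟩
    · intro j m
      dsimp only
      split_ifs
      · exact (hw _).1
      · exact le_rfl
    · intro j m
      dsimp only
      split_ifs with h
      · refine (hw _).2.trans ?_
        have h4 : ww n Q U J' E' (⟨j, h⟩, m) ≤ (2 / (n : ℝ)) ^ (Q - 1) := by
          unfold ww
          split_ifs
          · exact pr_le hF h m
          · positivity
        have h5 : (2 : ℝ) ^ Q / (n : ℝ) ^ (Q - 1) = 2 * (2 / (n : ℝ)) ^ (Q - 1) := by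
          rw [div_pow, ← mul_div_assoc]
          congr 1
          rw [← pow_succ']
          congr 1
          omega
        rw [h5]
        linarith
      · positivity
    · intro j m h
      dsimp only at h
      split_ifs at h with hj
      · refine ⟨hj, ?_⟩
        have h4 : ww n Q U J' E' (⟨j, hj⟩, m) ≠ 0 := by
          intro hc
          have := hw (⟨j, hj⟩, m)
          rw [hc, mul_zero] at this
          exact h (le_antisymm this.2 this.1)
        have hG : Gd Q E' j (ext n Q U j m) := by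
          by_contra hc
          apply h4
          unfold ww
          rw [if_neg hc]
        have hp : pr Q U E' j m ≠ 0 := by
          intro hc
          apply h4
          unfold ww
          dsimp only
          rw [hc]
          simp
        intro y hy
        exact mult_ne hp hG hy
      · exact absurd rfl h
    · intro j hj
      have h4 := hw1 (Sum.inl ⟨j, hj⟩)
      rw [Fintype.sum_prod_type, Finset.sum_eq_single ⟨j, hj⟩] at h4
      · rw [← h4]
        refine Finset.sum_congr rfl fun m _ => ?_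
        dsimp only
        rw [dif_pos hj]
        unfold NN
        simp
      · intro i _ hi
        refine Finset.sum_eq_zero fun m _ => ?_
        unfold NN
        simp [hi]
      · intro hc
        exact absurd (mem_univ _) hc
    · intro y hy
      have h4 := hw1 (Sum.inr ⟨y, hy⟩)
      rw [Fintype.sum_prod_type] at h4
      rw [← h4, ← Finset.sum_coe_sort J']
      refine Finset.sum_congr rfl fun j _ => ?_
      refine Finset.sum_congr rfl fun m _ => ?_
      dsimp only
      rw [dif_pos j.2]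
      rfl

end Pool.Agent.DNA
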