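import Pool.Agent.Lib.MP_845d9b_co.Abs.PS1

/-!
# Module FR (helper31): greedy filling of a block around prescribed neighbours
-/

set_option autoImplicit false

namespace Pool.Agent.DNA

open Finset

namespace FR

variable {n : ℕ}

/-- elements covered by the inner times of the interval from `p` to `q` -/
def sf (p q : ℕ) (f : ℕ → ZMod n) : Finset (Elt n) :=
  ((Ioo p q).biUnion fun k =>
      ({Sum.inl (f k), Sum.inl (f k - (k : ZMod n))} : Finset (Elt n))) ∪
    (Ico p q).image fun k => Sum.inr (cl (f (k + 1) - f k))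

theorem foot_eq (Q j : ℕ) (f : ℕ → ZMod n) : foot n Q j f = sf (j * Q) ((j + 1) * Q) f := rfl

theorem mem_sf {p q : ℕ} {f : ℕ → ZMod n} {e : Elt n} : e ∈ sf p q f ↔
    (∃ k, (p < k ∧ k < q) ∧ (e = Sum.inl (f k) ∨ e = Sum.inl (f k - (k : ZMod n)))) ∨
      ∃ k, (p ≤ k ∧ k < q) ∧ e = Sum.inr (cl (f (k + 1) - f k)) := by
  unfold sf
  simp only [mem_union, mem_biUnion, mem_Ioo, mem_insert, mem_singleton, mem_image, mem_Ico]
  constructor
  · rintro (h | ⟨k, hk, h⟩)
    · exact Or.inl h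
    · exact Or.inr ⟨k, hk, h.symm⟩
  · rintro (h | ⟨k, hk, h⟩)
    · exact Or.inl h
    · exact Or.inr ⟨k, hk, h.symm⟩

theorem sf_congr {p q : ℕ} {f g : ℕ → ZMod n} (h : ∀ k, p ≤ k → k ≤ q → f k = g k) :
    sf p q f = sf p q g := by
  ext e
  rw [mem_sf, mem_sf]
  constructor
  · rintro (⟨k, hk, h1⟩ | ⟨k, hk, h1⟩)
    · left; refine ⟨k, hk, ?_⟩; rw [← h k (by omega) (by omega)]; exact h1
    · right; refine ⟨k, hk, ?_⟩
      rw [← h k (by omega) (by omega), ← h (k + 1) (by omega) (by omega)]; exact h1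
  · rintro (⟨k, hk, h1⟩ | ⟨k, hk, h1⟩)
    · left; refine ⟨k, hk, ?_⟩; rw [h k (by omega) (by omega)]; exact h1
    · right; refine ⟨k, hk, ?_⟩
      rw [h k (by omega) (by omega), h (k + 1) (by omega) (by omega)]; exact h1

theorem sf_one (p : ℕ) (f : ℕ → ZMod n) :
    sf p (p + 1) f = {Sum.inr (cl (f (p + 1) - f p))} := by
  ext e
  rw [mem_sf, mem_singleton]
  constructor
  · rintro (⟨k, hk, h1⟩ | ⟨k, hk, h1⟩)
    · omega
    · have : k = p := by omega
      rw [h1, this]
  · intro h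
    exact Or.inr ⟨p, ⟨le_rfl, by omega⟩, h⟩

theorem sf_split {p q r : ℕ} (hpq : p < q) (hqr : q < r) (f : ℕ → ZMod n) :
    sf p r f = sf p q f ∪ {Sum.inl (f q), Sum.inl (f q - (q : ZMod n))} ∪ sf q r f := by
  ext e
  simp only [mem_union, mem_sf, mem_insert, mem_singleton]
  constructor
  · rintro (⟨k, hk, h1⟩ | ⟨k, hk, h1⟩)
    · rcases lt_trichotomy k q with h | h | h
      · exact Or.inl (Or.inl (Or.inl ⟨k, ⟨hk.1, h⟩, h1⟩))
      · subst h; exact Or.inl (Or.inr h1)
      · exact Or.inr (Or.inl ⟨k, ⟨h, hk.2⟩, h1⟩)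
    · rcases lt_or_ge k q with h | h
      · exact Or.inl (Or.inl (Or.inr ⟨k, ⟨hk.1, h⟩, h1⟩))
      · exact Or.inr (Or.inr ⟨k, ⟨h, hk.2⟩, h1⟩)
  · rintro (((⟨k, hk, h1⟩ | ⟨k, hk, h1⟩) | h) | (⟨k, hk, h1⟩ | ⟨k, hk, h1⟩))
    · exact Or.inl ⟨k, ⟨hk.1, by omega⟩, h1⟩
    · exact Or.inr ⟨k, ⟨hk.1, by omega⟩, h1⟩
    · exact Or.inl ⟨q, ⟨hpq, hqr⟩, h⟩
    · exact Or.inl ⟨k, ⟨by omega, hk.2⟩, h1⟩
    · exact Or.inr ⟨k, ⟨by omega, hk.2⟩, h1⟩

theorem sf_sub [NeZero n] {p q : ℕ} {f : ℕ → ZMod n}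
    (h : ∀ t, p ≤ t → t < q → ClOk (f (t + 1) - f t)) : sf p q f ⊆ All n := by
  intro e he
  unfold All
  rw [mem_union, mem_image, mem_image]
  rcases mem_sf.mp he with ⟨k, hk, h1 | h1⟩ | ⟨k, hk, h1⟩
  · exact Or.inl ⟨_, mem_univ _, h1.symm⟩
  · exact Or.inl ⟨_, mem_univ _, h1.symm⟩
  · exact Or.inr ⟨_, mem_filter.mpr ⟨mem_univ _, h k hk.1 hk.2⟩, h1.symm⟩

/-- `f` fills the interval from `p` to `q` admissibly, avoiding `B` -/
structure Good (p q : ℕ) (α β : ZMod n) (B : Finset (Elt n)) (f : ℕ → ZMod n) : Prop where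
  left : f p = α
  right : f q = β
  ok : ∀ t, p ≤ t → t < q → ClOk (f (t + 1) - f t)
  card : (sf p q f).card + 2 = 3 * (q - p)
  disj : Disjoint (sf p q f) B

theorem good_one {p : ℕ} {α β : ZMod n} {B : Finset (Elt n)} (h : ClOk (β - α))
    (hB : Sum.inr (cl (β - α)) ∉ B) :
    Good p (p + 1) α β B (Function.update (fun _ => β) p α) := by
  have hl : (Function.update (fun _ => β) p α : ℕ → ZMod n) p = α := Function.update_self ..
  have hr : (Function.update (fun _ => β) p α : ℕ → ZMod n) (p + 1) = β :=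
    Function.update_of_ne (by omega) ..
  refine ⟨hl, hr, ?_, ?_, ?_⟩
  · intro t h1 h2
    have : t = p := by omega
    subst this
    rw [hl, hr]; exact h
  · rw [sf_one, card_singleton]; omega
  · rw [sf_one, hl, hr, disjoint_singleton_left]; exact hB

theorem good_step {p q : ℕ} {α β v : ZMod n} {B : Finset (Elt n)} {g : ℕ → ZMod n}
    (hq : p + 1 < q)
    (h : Good (p + 1) q v β (B ∪ {Sum.inl v, Sum.inl (v - ((p + 1 : ℕ) : ZMod n)),
      Sum.inr (cl (v - α))}) g) (h0 : ((p + 1 : ℕ) : ZMod n) ≠ 0)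
    (h1 : Sum.inl v ∉ B) (h2 : Sum.inl (v - ((p + 1 : ℕ) : ZMod n)) ∉ B)
    (h3 : Sum.inr (cl (v - α)) ∉ B) (h4 : ClOk (v - α)) :
    Good p q α β B (Function.update g p α) := by
  set f := Function.update g p α with hf
  have hfp : f p = α := Function.update_self ..
  have hfo : ∀ k, p < k → f k = g k := fun k hk => Function.update_of_ne (by omega) ..
  have hfv : f (p + 1) = v := by rw [hfo _ (by omega)]; exact h.left
  have hs : sf p q f = {Sum.inl v, Sum.inl (v - ((p + 1 : ℕ) : ZMod n)),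
      Sum.inr (cl (v - α))} ∪ sf (p + 1) q g := by
    rw [sf_split (p := p) (q := p + 1) (r := q) (by omega) hq f, sf_one, hfp, hfv,
      sf_congr (p := p + 1) (q := q) (f := f) (g := g) (fun k h1 _ => hfo k (by omega))]
    congr 1
    ext e
    simp only [mem_union, mem_insert, mem_singleton]
    tauto
  have hd : Disjoint ({Sum.inl v, Sum.inl (v - ((p + 1 : ℕ) : ZMod n)),
      Sum.inr (cl (v - α))} : Finset (Elt n)) (sf (p + 1) q g) :=
    (h.disj.mono_right subset_union_right).symm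
  refine ⟨hfp, by rw [hfo q (by omega)]; exact h.right, ?_, ?_, ?_⟩
  · intro t ht1 ht2
    rcases Nat.eq_or_lt_of_le ht1 with he | he
    · rw [← he, hfp, hfv]; exact h4
    · rw [hfo t he, hfo (t + 1) (by omega)]
      exact h.ok t he ht2
  · rw [hs, card_union_of_disjoint hd]
    have hc := h.card
    have h3 : ({Sum.inl v, Sum.inl (v - ((p + 1 : ℕ) : ZMod n)),
      Sum.inr (cl (v - α))} : Finset (Elt n)).card = 3 := by
      apply card_eq_three.mpr
      refine ⟨_, _, _, ?_, ?_, ?_, rfl⟩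
      · intro he
        have := Sum.inl_injective he
        exact h0 (by linear_combination this)
      · exact Sum.inl_ne_inr
      · exact Sum.inl_ne_inr
    omega
  · rw [hs, disjoint_union_left]
    refine ⟨?_, h.disj.mono_right subset_union_left⟩
    rw [disjoint_left]
    intro e he
    simp only [mem_insert, mem_singleton] at he
    rcases he with he | he | he
    · rw [he]; exact h1
    · rw [he]; exact h2
    · rw [he]; exact h3

/-- greedy choice of one value -/
theorem choose1 [NeZero n] (S : Finset (Elt n)) (α β t : ZMod n) (hn : 6 * S.card + 20 < n) :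
    ∃ v : ZMod n, Sum.inl v ∉ S ∧ Sum.inl (v - t) ∉ S ∧ Sum.inr (cl (v - α)) ∉ S ∧
      Sum.inr (cl (β - v)) ∉ S ∧ ClOk (v - α) ∧ ClOk (β - v) ∧ v + v ≠ α + β := by
  classical
  by_contra hcon
  push Not at hcon
  set D : ZMod n → Finset (ZMod n) := fun c => univ.filter fun a : ZMod n => a + a = c with hD
  have hDc : ∀ c, (D c).card ≤ 2 := PS1.card_double
  set P : (ZMod n → ZMod n) → Finset (ZMod n) := fun g =>
    univ.filter fun a : ZMod n => (Sum.inl (g a) : Elt n) ∈ S with hP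
  set C : ZMod n → Finset (ZMod n) := fun v =>
    univ.filter fun a : ZMod n => (Sum.inr (cl (v - a)) : Elt n) ∈ S with hC
  have hsym : ∀ v, cl (v - α) = cl ((α + 1) - v) := by
    intro v; rw [PS1.cl_eq]; right; ring
  set F : Finset (ZMod n) := (D (α + β) ∪ (D (α + α + 1) ∪ D (β + β - 1))) ∪
    ({α, α + 1, β, β - 1} ∪ ((P (fun a => a) ∪ P (fun a => a - t)) ∪ (C (α + 1) ∪ C β))) with hF
  have hcov : (univ : Finset (ZMod n)) ⊆ F := by
    intro a _
    have h := hcon a
    by_contra hna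
    rw [hF] at hna
    simp only [mem_union, mem_insert, mem_singleton, not_or] at hna
    obtain ⟨⟨h1, h2, h3⟩, ⟨h8, h9, h10, h11⟩, ⟨h12, h13⟩, h16, h17⟩ := hna
    simp only [hD, hP, hC, mem_filter, mem_univ, true_and] at h1 h2 h3 h12 h13 h16 h17
    refine h1 (h h12 h13 (by rw [hsym]; exact h16) h17 ⟨?_, ?_, ?_⟩ ⟨?_, ?_, ?_⟩)
    · intro h; exact h8 (by linear_combination h)
    · intro h; exact h9 (by linear_combination h)
    · intro h; exact h2 (by linear_combination h)
    · intro h; exact h10 (by linear_combination -h)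
    · intro h; exact h11 (by linear_combination -h)
    · intro h; exact h3 (by linear_combination -h)
  have hcard := Finset.card_le_card hcov
  rw [Finset.card_univ, ZMod.card] at hcard
  have p1 := PS1.card_pt S (fun a => a) (fun a b h => h)
  have p2 := PS1.card_pt S (fun a => a - t) sub_left_injective
  have c1 := PS1.card_cl S (α + 1)
  have c2 := PS1.card_cl S β
  have d1 := hDc (α + β)
  have d2 := hDc (α + α + 1)
  have d3 := hDc (β + β - 1)
  have q4 : ({α, α + 1, β, β - 1} : Finset (ZMod n)).card ≤ 4 := Finset.card_le_four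
  have hb : F.card ≤ 6 * S.card + 10 := by
    have u : ∀ s t : Finset (ZMod n), (s ∪ t).card ≤ s.card + t.card := Finset.card_union_le
    have e1 := u (D (α + β)) (D (α + α + 1) ∪ D (β + β - 1))
    have e2 := u (D (α + α + 1)) (D (β + β - 1))
    have e3 := u {α, α + 1, β, β - 1}
      ((P (fun a => a) ∪ P (fun a => a - t)) ∪ (C (α + 1) ∪ C β))
    have e4 := u (P (fun a => a) ∪ P (fun a => a - t)) (C (α + 1) ∪ C β)
    have e5 := u (P (fun a => a)) (P (fun a => a - t))
    have e6 := u (C (α + 1)) (C β)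
    have e7 := u (D (α + β) ∪ (D (α + α + 1) ∪ D (β + β - 1)))
      ({α, α + 1, β, β - 1} ∪ ((P (fun a => a) ∪ P (fun a => a - t)) ∪ (C (α + 1) ∪ C β)))
    rw [← hF] at e7
    change (P (fun a => a)).card ≤ _ at p1
    change (P (fun a => a - t)).card ≤ _ at p2
    change (C (α + 1)).card ≤ _ at c1
    change (C β).card ≤ _ at c2
    omega
  omega

theorem card_three (x y z : Elt n) : ({x, y, z} : Finset (Elt n)).card ≤ 3 := Finset.card_le_three

/-- filling of an interval with `m + 1` inner times -/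
theorem seg [NeZero n] (m : ℕ) : ∀ (p : ℕ) (α β : ZMod n) (B : Finset (Elt n)),
    6 * B.card + 18 * m + 20 < n → p + m + 2 < n → (m = 0 → β - α ≠ 1) →
      ∃ f : ℕ → ZMod n, Good p (p + m + 2) α β B f := by
  induction m with
  | zero =>
    intro p α β B h1 h2 h3
    have h3 := h3 rfl
    obtain ⟨v, a1, a2, a3, a4, a5, a6, a7⟩ :=
      choose1 B α β ((p + 1 : ℕ) : ZMod n) (by omega)
    have h0 : ((p + 1 : ℕ) : ZMod n) ≠ 0 := by
      intro h
      rw [ZMod.natCast_eq_zero_iff] at h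
      exact absurd (Nat.le_of_dvd (by omega) h) (by omega)
    refine ⟨_, good_step (p := p) (q := p + 0 + 2) (v := v)
      (g := Function.update (fun _ => β) (p + 1) v) (by omega) ?_ h0 a1 a2 a3 a5⟩
    refine good_one (p := p + 1) a6 ?_
    rw [mem_union, not_or]
    refine ⟨a4, ?_⟩
    simp only [mem_insert, mem_singleton, not_or, reduceCtorEq, not_false_eq_true, true_and,
      Sum.inr.injEq]
    intro h
    rcases (PS1.cl_eq _ _).mp h with h | h
    · exact a7 (by linear_combination -h)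
    · exact h3 (by linear_combination h)
  | succ m ih =>
    intro p α β B h1 h2 _
    obtain ⟨v, a1, a2, a3, a4, a5, a6, a7⟩ :=
      choose1 B α β ((p + 1 : ℕ) : ZMod n) (by omega)
    have h0 : ((p + 1 : ℕ) : ZMod n) ≠ 0 := by
      intro h
      rw [ZMod.natCast_eq_zero_iff] at h
      exact absurd (Nat.le_of_dvd (by omega) h) (by omega)
    obtain ⟨g, hg⟩ := ih (p + 1) v β (B ∪ {Sum.inl v, Sum.inl (v - ((p + 1 : ℕ) : ZMod n)),
      Sum.inr (cl (v - α))}) (by
        have e1 := card_union_le B {Sum.inl v, Sum.inl (v - ((p + 1 : ℕ) : ZMod n)),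
          Sum.inr (cl (v - α))}
        have e2 := card_three (Sum.inl v) (Sum.inl (v - ((p + 1 : ℕ) : ZMod n)))
          (Sum.inr (cl (v - α)))
        omega) (by omega) (fun _ => a6.2.1)
    have he : p + (m + 1) + 2 = p + 1 + m + 2 := by omega
    rw [he]
    exact ⟨_, good_step (by omega) hg h0 a1 a2 a3 a5⟩

theorem frame (Q : ℕ) (hQ : 12 ≤ Q) (n : ℕ) (hn : 100 * Q ≤ n) [NeZero n] (U : ℕ → ZMod n)
    (j k : ℕ) (hj : j ∈ Blocks n Q) (hk1 : j * Q + 4 ≤ k) (hk2 : k + 4 ≤ (j + 1) * Q)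
    (a b : ZMod n) (Bad : Finset (Elt n)) (hBad : 20 * Bad.card ≤ n)
    (htri : (tri n k a b).card = 4) :
      ∃ (f0 : ℕ → ZMod n) (R : Finset (Elt n)), R ⊆ All n ∧ Disjoint R Bad ∧
        Disjoint R (tri n k a b) ∧
        ∀ v : ZMod n, (sta n k a b v).card = 4 → ClOk (v - a) → ClOk (b - v) →
          Disjoint (sta n k a b v) (tri n k a b ∪ R) →
          IsFill n Q U j (Function.update f0 k v) ∧
            foot n Q j (Function.update f0 k v) = tri n k a b ∪ R ∪ sta n k a b v := by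
  have hjn : (j + 1) * Q < n := by
    unfold Blocks J1 T1 at hj
    rw [mem_Ico] at hj
    have h1 : (j + 1) * Q ≤ (n - 1) / 2 / Q * Q := Nat.mul_le_mul_right _ hj.2
    have h2 := Nat.div_mul_le_self ((n - 1) / 2) Q
    have : 0 < n := by omega
    omega
  have hsum : (j + 1) * Q = j * Q + Q := by ring
  set p := j * Q with hp
  set q := (j + 1) * Q with hq
  -- left part
  obtain ⟨m1, hm1⟩ : ∃ m1, k - 1 = p + m1 + 2 := ⟨k - 1 - p - 2, by omega⟩
  obtain ⟨m2, hm2⟩ : ∃ m2, q = k + 1 + m2 + 2 := ⟨q - (k + 1) - 2, by omega⟩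
  obtain ⟨f1, g1⟩ := seg (n := n) m1 p (U p) a (Bad ∪ tri n k a b) (by
    have := card_union_le Bad (tri n k a b); omega) (by omega) (by omega)
  rw [← hm1] at g1
  obtain ⟨f2, g2⟩ := seg (n := n) m2 (k + 1) b (U q) (Bad ∪ tri n k a b ∪ sf p (k - 1) f1) (by
    have e1 := card_union_le Bad (tri n k a b)
    have e2 := card_union_le (Bad ∪ tri n k a b) (sf p (k - 1) f1)
    have e3 := g1.card
    omega) (by omega) (by omega)
  rw [← hm2] at g2
  set f0 : ℕ → ZMod n := fun t => if t < k then f1 t else f2 t with hf0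
  have hcR : Disjoint (sf p (k - 1) f1) (sf (k + 1) q f2) :=
    (g2.disj.mono_right subset_union_right).symm
  have hsub1 : sf p (k - 1) f1 ⊆ All n := sf_sub g1.ok
  have hsub2 : sf (k + 1) q f2 ⊆ All n := sf_sub g2.ok
  have hd1 : Disjoint (sf p (k - 1) f1) Bad := g1.disj.mono_right subset_union_left
  have hd2 : Disjoint (sf (k + 1) q f2) Bad :=
    g2.disj.mono_right (subset_union_left.trans subset_union_left)
  have hd3 : Disjoint (sf p (k - 1) f1) (tri n k a b) := g1.disj.mono_right subset_union_right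
  have hd4 : Disjoint (sf (k + 1) q f2) (tri n k a b) :=
    g2.disj.mono_right (subset_union_right.trans subset_union_left)
  have hRt : Disjoint (sf p (k - 1) f1 ∪ sf (k + 1) q f2) (tri n k a b) :=
    disjoint_union_left.mpr ⟨hd3, hd4⟩
  refine ⟨f0, sf p (k - 1) f1 ∪ sf (k + 1) q f2, union_subset hsub1 hsub2,
    disjoint_union_left.mpr ⟨hd1, hd2⟩, hRt, ?_⟩
  intro v hc hva hbv hdis
  set f : ℕ → ZMod n := Function.update f0 k v with hf
  have hfk : f k = v := Function.update_self ..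
  have hf1 : ∀ t, t < k → f t = f1 t := by
    intro t ht
    rw [hf, Function.update_of_ne (by omega), hf0]
    simp [ht]
  have hf2 : ∀ t, k < t → f t = f2 t := by
    intro t ht
    rw [hf, Function.update_of_ne (by omega), hf0]
    simp [not_lt.mpr ht.le]
  have hfa : f (k - 1) = a := by rw [hf1 _ (by omega)]; exact g1.right
  have hfb : f (k + 1) = b := by rw [hf2 _ (by omega)]; exact g2.left
  have hkc : ((k - 1 : ℕ) : ZMod n) = (k : ZMod n) - 1 := by
    rw [Nat.cast_sub (by omega)]; simp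
  have hkc' : ((k + 1 : ℕ) : ZMod n) = (k : ZMod n) + 1 := by push_cast; ring
  have hk11 : k - 1 + 1 = k := by omega
  have hfoot : foot n Q j f = tri n k a b ∪ (sf p (k - 1) f1 ∪ sf (k + 1) q f2) ∪
      sta n k a b v := by
    rw [foot_eq, ← hp, ← hq, sf_split (p := p) (q := k - 1) (r := q) (by omega) (by omega) f,
      sf_split (p := k - 1) (q := k) (r := q) (by omega) (by omega) f,
      sf_split (p := k) (q := k + 1) (r := q) (by omega) (by omega) f,
      sf_one k f]
    have e1 : sf (k - 1) k f = {Sum.inr (cl (v - a))} := by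
      have := sf_one (k - 1) f
      rw [hk11] at this
      rw [this, hfk, hfa]
    rw [e1, hfk, hfa, hfb, hkc, hkc',
      sf_congr (p := p) (q := k - 1) (f := f) (g := f1) (fun t _ h => hf1 t (by omega)),
      sf_congr (p := k + 1) (q := q) (f := f) (g := f2) (fun t h _ => hf2 t (by omega))]
    unfold tri sta
    ext e
    simp only [mem_union, mem_insert, mem_singleton]
    tauto
  refine ⟨⟨?_, ?_, ?_, ?_⟩, hfoot⟩
  · rw [← hp, hf1 _ (by omega)]; exact g1.left
  · rw [← hq, hf2 _ (by omega)]; exact g2.right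
  · intro t ht
    rw [mem_Ico, ← hp, ← hq] at ht
    rcases lt_trichotomy t k with h | h | h
    · rcases Nat.lt_or_ge t (k - 1) with h' | h'
      · rw [hf1 t h, hf1 (t + 1) (by omega)]
        exact g1.ok t ht.1 h'
      · have : t = k - 1 := by omega
        rw [this, hk11, hfk, hfa]; exact hva
    · rw [h, hfk, hfb]; exact hbv
    · rw [hf2 t h, hf2 (t + 1) (by omega)]
      exact g2.ok t h ht.2
  · rw [hfoot, card_union_of_disjoint hdis.symm, card_union_of_disjoint hRt.symm,
      card_union_of_disjoint hcR, htri, hc]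
    have e1 := g1.card
    have e2 := g2.card
    omega

end FR

theorem stFrame : StFrame := by
  intro Q hQ
  refine ⟨100 * Q, ?_⟩
  intro n hn _ U j k hj hk1 hk2 a b Bad hBad htri
  exact FR.frame Q hQ n hn U j k hj hk1 hk2 a b Bad hBad htri

end Pool.Agent.DNA
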