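import Pool.Agent.Lib.MP_845d9b_co.Abs.FpmStmts

/-!
# First hypothesis of the contraction lemma (module F5b, helper58)

`stH1 : StK1 → StBad → StMean → StH1`. The namespace `H1` has a small calculus for `Ex`:
linearity, `Ex_one`, `Ex_ind`, `Ex_diff`, `Ex_mult_inl`, `Ex_mult_inr`, `Ex_mono`, `abs_Ex_le`.
-/

set_option autoImplicit false

namespace Pool.Agent.DNA

open Finset

namespace H1

variable {n Q : ℕ} [NeZero n] {U : ℕ → ZMod n} {E' : Finset (Elt n)} {j : ℕ}

theorem Ex_congr {F G : (ℕ → ZMod n) → ℝ} (h : ∀ m, F (ext n Q U j m) = G (ext n Q U j m)) :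
    Ex Q U E' j F = Ex Q U E' j G := by
  simp only [Ex]
  exact Finset.sum_congr rfl fun m _ => by rw [h m]

theorem Ex_add (F G : (ℕ → ZMod n) → ℝ) :
    Ex Q U E' j (fun f => F f + G f) = Ex Q U E' j F + Ex Q U E' j G := by
  simp only [Ex, mul_add, Finset.sum_add_distrib]

theorem Ex_sub (F G : (ℕ → ZMod n) → ℝ) :
    Ex Q U E' j (fun f => F f - G f) = Ex Q U E' j F - Ex Q U E' j G := by
  simp only [Ex, mul_sub, Finset.sum_sub_distrib]

theorem Ex_mul_left (c : ℝ) (F : (ℕ → ZMod n) → ℝ) :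
    Ex Q U E' j (fun f => c * F f) = c * Ex Q U E' j F := by
  simp only [Ex, Finset.mul_sum]
  exact Finset.sum_congr rfl fun m _ => by ring

theorem Ex_sum {ι : Type*} (s : Finset ι) (F : ι → (ℕ → ZMod n) → ℝ) :
    Ex Q U E' j (fun f => ∑ i ∈ s, F i f) = ∑ i ∈ s, Ex Q U E' j (F i) := by
  simp only [Ex, Finset.mul_sum]
  exact Finset.sum_comm

theorem mem_Ioo_fin (j : ℕ) {Q : ℕ} (i : Fin (Q - 1)) :
    j * Q + 1 + (i : ℕ) ∈ Ioo (j * Q) ((j + 1) * Q) := by
  have h := i.2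
  have e : (j + 1) * Q = j * Q + Q := Nat.succ_mul j Q
  rw [mem_Ioo, e]
  constructor <;> omega

theorem pr_nonneg (h : ∀ k ∈ Ioo (j * Q) ((j + 1) * Q), ∀ x, 0 ≤ pa Q U E' k x)
    (m : Fin (Q - 1) → ZMod n) : 0 ≤ pr Q U E' j m :=
  Finset.prod_nonneg fun i _ => h _ (mem_Ioo_fin j i) _

theorem Ex_mono (h : ∀ k ∈ Ioo (j * Q) ((j + 1) * Q), ∀ x, 0 ≤ pa Q U E' k x)
    {F G : (ℕ → ZMod n) → ℝ} (hFG : ∀ f, F f ≤ G f) : Ex Q U E' j F ≤ Ex Q U E' j G :=
  Finset.sum_le_sum fun m _ => mul_le_mul_of_nonneg_left (hFG _) (pr_nonneg h m)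

theorem Ex_nonneg (h : ∀ k ∈ Ioo (j * Q) ((j + 1) * Q), ∀ x, 0 ≤ pa Q U E' k x)
    {F : (ℕ → ZMod n) → ℝ} (hF : ∀ f, 0 ≤ F f) : 0 ≤ Ex Q U E' j F :=
  Finset.sum_nonneg fun m _ => mul_nonneg (pr_nonneg h m) (hF _)

theorem abs_Ex_le (h : ∀ k ∈ Ioo (j * Q) ((j + 1) * Q), ∀ x, 0 ≤ pa Q U E' k x)
    {F G : (ℕ → ZMod n) → ℝ} (hFG : ∀ f, |F f| ≤ G f) :
    |Ex Q U E' j F| ≤ Ex Q U E' j G := by
  refine (Finset.abs_sum_le_sum_abs _ _).trans (Finset.sum_le_sum fun m _ => ?_)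
  rw [abs_mul, abs_of_nonneg (pr_nonneg h m)]
  exact mul_le_mul_of_nonneg_left (hFG _) (pr_nonneg h m)

theorem Ex_one (h : ∀ k ∈ Ioo (j * Q) ((j + 1) * Q), (∑ x, pa Q U E' k x) = 1) :
    Ex Q U E' j (fun _ => 1) = 1 := by
  have h1 : (∏ i : Fin (Q - 1), ∑ x ∈ (univ : Finset (ZMod n)),
      pa Q U E' (j * Q + 1 + (i : ℕ)) x) = 1 :=
    Finset.prod_eq_one fun i _ => h _ (mem_Ioo_fin j i)
  rw [Finset.prod_univ_sum, Fintype.piFinset_univ] at h1
  simp only [Ex, pr, mul_one]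
  exact h1

theorem Ex_ind (hK : StK1) (h : ∀ k ∈ Ioo (j * Q) ((j + 1) * Q), (∑ x, pa Q U E' k x) = 1)
    {k : ℕ} (hk : k ∈ Ioo (j * Q) ((j + 1) * Q)) (x : ZMod n) :
    Ex Q U E' j (fun f => if f k = x then (1 : ℝ) else 0) = pa Q U E' k x := by
  rw [hK n Q U E' j k hk (h k hk) (fun _ => 1) x, Ex_one h, mul_one]

omit [NeZero n] in
theorem ext_left (m : Fin (Q - 1) → ZMod n) : ext n Q U j m (j * Q) = U (j * Q) := by
  unfold ext
  rw [dif_neg]
  rintro ⟨h, -⟩
  exact lt_irrefl _ h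

omit [NeZero n] in
theorem ext_right (m : Fin (Q - 1) → ZMod n) :
    ext n Q U j m ((j + 1) * Q) = U ((j + 1) * Q) := by
  unfold ext
  rw [dif_neg]
  rintro ⟨-, h⟩
  have e : (j + 1) * Q = j * Q + Q := Nat.succ_mul j Q
  rw [e] at h
  omega

theorem Ex_diff (hK : StK1) (hQ : 2 ≤ Q)
    (h : ∀ k ∈ Ioo (j * Q) ((j + 1) * Q), (∑ x, pa Q U E' k x) = 1)
    {k : ℕ} (hk : k ∈ Ico (j * Q) ((j + 1) * Q)) (v : ZMod n) :
    Ex Q U E' j (fun f => if f (k + 1) - f k = v then (1 : ℝ) else 0) = pe Q U E' k v := by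
  have e : (j + 1) * Q = j * Q + Q := Nat.succ_mul j Q
  rw [mem_Ico, e] at hk
  by_cases h1 : k = j * Q
  · subst h1
    have h2 : j * Q + 1 ∈ Ioo (j * Q) ((j + 1) * Q) := by
      rw [mem_Ioo, e]
      omega
    rw [Ex_congr (G := fun f => if f (j * Q + 1) = U (j * Q) + v then (1 : ℝ) else 0),
      Ex_ind hK h h2]
    · unfold pe
      rw [Finset.sum_eq_single (U (j * Q))]
      · have h3 : pa Q U E' (j * Q) (U (j * Q)) = 1 := by
          unfold pa
          rw [if_pos (Dvd.intro_left j rfl), if_pos rfl]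
        rw [h3, one_mul]
      · intro x _ hx
        have h3 : pa Q U E' (j * Q) x = 0 := by
          unfold pa
          rw [if_pos (Dvd.intro_left j rfl), if_neg hx]
        rw [h3, zero_mul]
      · intro hx
        exact absurd (mem_univ _) hx
    · intro m
      simp only [ext_left]
      refine if_congr ?_ rfl rfl
      rw [sub_eq_iff_eq_add, add_comm v]
  · have h2 : k ∈ Ioo (j * Q) ((j + 1) * Q) := by
      rw [mem_Ioo, e]
      omega
    by_cases h3 : k + 1 = j * Q + Q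
    · rw [Ex_congr (G := fun f => if f k = U (k + 1) - v then (1 : ℝ) else 0), Ex_ind hK h h2]
      · unfold pe
        rw [Finset.sum_eq_single (U (k + 1) - v)]
        · have h4 : pa Q U E' (k + 1) (U (k + 1) - v + v) = 1 := by
            unfold pa
            rw [if_pos (by rw [h3, ← e]; exact Dvd.intro_left (j + 1) rfl), if_pos (by ring)]
          rw [h4, mul_one]
        · intro x _ hx
          have h4 : pa Q U E' (k + 1) (x + v) = 0 := by
            unfold pa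
            rw [if_pos (by rw [h3, ← e]; exact Dvd.intro_left (j + 1) rfl), if_neg]
            intro h5
            exact hx (by rw [← h5]; ring)
          rw [h4, mul_zero]
        · intro hx
          exact absurd (mem_univ _) hx
      · intro m
        have h4 : ext n Q U j m (k + 1) = U (k + 1) := by
          rw [h3, ← e]
          exact ext_right m
        simp only [h4]
        refine if_congr ?_ rfl rfl
        constructor
        · intro h5
          rw [← h5]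
          ring
        · intro h5
          rw [h5]
          ring
    · have h4 : k + 1 ∈ Ioo (j * Q) ((j + 1) * Q) := by
        rw [mem_Ioo, e]
        omega
      rw [Ex_congr (G := fun f => ∑ x : ZMod n,
        if f k = x then (if f (k + 1) = x + v then (1 : ℝ) else 0) else 0), Ex_sum]
      · unfold pe
        refine Finset.sum_congr rfl fun x _ => ?_
        rw [hK n Q U E' j k h2 (h k h2) (fun f => if f (k + 1) = x + v then (1 : ℝ) else 0) x]
        congr 1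
        rw [← Ex_ind hK h h4 (x + v)]
        refine Ex_congr fun m => ?_
        rw [Function.update_of_ne (by omega)]
      · intro m
        rw [Finset.sum_ite_eq, if_pos (mem_univ _)]
        refine if_congr ?_ rfl rfl
        rw [sub_eq_iff_eq_add, add_comm v]

omit [NeZero n] in
theorem cl_eq_cl (d w : ZMod n) : cl d = cl w ↔ d = w ∨ d = 1 - w := by
  unfold cl
  rw [Sym2.eq_iff]
  constructor
  · rintro (⟨h, -⟩ | ⟨h, -⟩)
    · exact Or.inl h
    · exact Or.inr h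
  · rintro (h | h)
    · exact Or.inl ⟨h, by rw [h]⟩
    · exact Or.inr ⟨h, by rw [h]; ring⟩

theorem Ex_mult_inl (hK : StK1)
    (h : ∀ k ∈ Ioo (j * Q) ((j + 1) * Q), (∑ x, pa Q U E' k x) = 1) (x : ZMod n) :
    Ex Q U E' j (fun f => (mult n Q j f (Sum.inl x) : ℝ)) = Nx Q U E' j x := by
  rw [Ex_congr (G := fun f => ∑ k ∈ Ioo (j * Q) ((j + 1) * Q),
    ((if f k = x then (1 : ℝ) else 0) + if f k = x + (k : ZMod n) then (1 : ℝ) else 0)), Ex_sum]
  · unfold Nx
    refine Finset.sum_congr rfl fun k hk => ?_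
    rw [Ex_add, Ex_ind hK h hk, Ex_ind hK h hk]
  · intro m
    simp only [mult, Sum.elim_inl]
    push_cast
    refine Finset.sum_congr rfl fun k _ => ?_
    congr 1
    refine if_congr ?_ rfl rfl
    rw [sub_eq_iff_eq_add]

theorem Ex_mult_inr (hK : StK1) (hQ : 2 ≤ Q)
    (h : ∀ k ∈ Ioo (j * Q) ((j + 1) * Q), (∑ x, pa Q U E' k x) = 1) {w : ZMod n} (hw : ClOk w) :
    Ex Q U E' j (fun f => (mult n Q j f (Sum.inr (cl w)) : ℝ)) = Nc Q U E' j w := by
  rw [Ex_congr (G := fun f => ∑ k ∈ Ico (j * Q) ((j + 1) * Q),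
    ((if f (k + 1) - f k = w then (1 : ℝ) else 0) +
      if f (k + 1) - f k = 1 - w then (1 : ℝ) else 0)), Ex_sum]
  · unfold Nc
    refine Finset.sum_congr rfl fun k hk => ?_
    rw [Ex_add, Ex_diff hK hQ h hk, Ex_diff hK hQ h hk]
  · intro m
    simp only [mult, Sum.elim_inr]
    push_cast
    refine Finset.sum_congr rfl fun k _ => ?_
    have hne : w ≠ 1 - w := fun e => hw.2.2 (by rw [eq_sub_iff_add_eq] at e; exact e)
    by_cases h1 : ext n Q U j m (k + 1) - ext n Q U j m k = w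
    · rw [if_pos ((cl_eq_cl _ _).2 (Or.inl h1)), if_pos h1, if_neg (fun e => hne (h1.symm.trans e)),
        add_zero]
    · by_cases h2 : ext n Q U j m (k + 1) - ext n Q U j m k = 1 - w
      · rw [if_pos ((cl_eq_cl _ _).2 (Or.inr h2)), if_neg h1, if_pos h2, zero_add]
      · rw [if_neg (fun e => ((cl_eq_cl _ _).1 e).elim h1 h2), if_neg h1, if_neg h2, zero_add]

theorem Ex_Gd_split (F : (ℕ → ZMod n) → ℝ) :
    Ex Q U E' j (fun f => if Gd Q E' j f then F f else 0) =
      Ex Q U E' j F - Ex Q U E' j (fun f => if Gd Q E' j f then 0 else F f) := by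
  rw [← Ex_sub]
  refine Ex_congr fun m => ?_
  split_ifs <;> ring

theorem Ex_Sb (h : ∀ k ∈ Ioo (j * Q) ((j + 1) * Q), (∑ x, pa Q U E' k x) = 1) (βJ : ℕ → ℝ)
    (β : Elt n → ℝ) :
    Ex Q U E' j (Sb Q βJ β j) = βJ j + Ex Q U E' j (Sb Q (fun _ => 0) β j) := by
  rw [Ex_congr (F := Sb Q βJ β j) (G := fun f => βJ j * 1 + Sb Q (fun _ => 0) β j f), Ex_add,
    Ex_mul_left, Ex_one h, mul_one]
  intro m
  simp only [Sb]
  ring

omit [NeZero n] in
theorem abs_Sb_le (hQ : 1 ≤ Q) {βJ : ℕ → ℝ} {β : Elt n → ℝ} (hJ : |βJ j| ≤ 1)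
    (hβ : ∀ y, |β y| ≤ 200 / Q) (f : ℕ → ZMod n) : |Sb Q βJ β j f| ≤ 601 := by
  have e : (j + 1) * Q = j * Q + Q := Nat.succ_mul j Q
  have hQ0 : (0 : ℝ) < Q := by exact_mod_cast hQ
  have h1 : |∑ k ∈ Ioo (j * Q) ((j + 1) * Q), hh β k (f k)| ≤ 400 := by
    refine (Finset.abs_sum_le_sum_abs _ _).trans ?_
    refine (Finset.sum_le_card_nsmul _ _ (400 / (Q : ℝ)) fun k _ => ?_).trans ?_
    · unfold hh
      refine (abs_add_le _ _).trans ?_
      have a1 := hβ (Sum.inl (f k))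
      have a2 := hβ (Sum.inl (f k - (k : ZMod n)))
      have a3 : 400 / (Q : ℝ) = 200 / Q + 200 / Q := by ring
      rw [a3]
      exact add_le_add a1 a2
    · rw [Nat.card_Ioo, nsmul_eq_mul]
      have a1 : (((j + 1) * Q - j * Q - 1 : ℕ) : ℝ) ≤ Q := by
        have : (j + 1) * Q - j * Q - 1 ≤ Q := by omega
        exact_mod_cast this
      calc (((j + 1) * Q - j * Q - 1 : ℕ) : ℝ) * (400 / Q) ≤ Q * (400 / Q) :=
            mul_le_mul_of_nonneg_right a1 (by positivity)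
        _ = 400 := by field_simp
  have h2 : |∑ k ∈ Ico (j * Q) ((j + 1) * Q), β (Sum.inr (cl (f (k + 1) - f k)))| ≤ 200 := by
    refine (Finset.abs_sum_le_sum_abs _ _).trans ?_
    refine (Finset.sum_le_card_nsmul _ _ (200 / (Q : ℝ)) fun k _ => hβ _).trans ?_
    rw [Nat.card_Ico, nsmul_eq_mul]
    have a1 : (((j + 1) * Q - j * Q : ℕ) : ℝ) ≤ Q := by
      have : (j + 1) * Q - j * Q ≤ Q := by omega
      exact_mod_cast this
    calc (((j + 1) * Q - j * Q : ℕ) : ℝ) * (200 / Q) ≤ Q * (200 / Q) :=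
          mul_le_mul_of_nonneg_right a1 (by positivity)
      _ = 200 := by field_simp
  unfold Sb
  refine (abs_add_le _ _).trans ?_
  have h3 := abs_add_le (βJ j) (∑ k ∈ Ioo (j * Q) ((j + 1) * Q), hh β k (f k))
  linarith

end H1

open H1 in
/-- Module F5b. -/
theorem stH1 (hK : StK1) (hB : StBad) (hM : StMean) : StH1 := by
  intro n Q _ U J' E' hQ hE hF
  have hQ2 : 2 ≤ Q := by omega
  have hQr : (10 : ℝ) ^ 5 ≤ Q := by exact_mod_cast hQ
  have hQ0 : (0 : ℝ) < Q := by linarith [show (0 : ℝ) < 10 ^ 5 by norm_num]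
  obtain ⟨hB1, hB2⟩ := hB n Q U J' E' hQ hE hF
  have hz : BetaOk n Q J' E' (fun _ => 0) (fun _ => 0) :=
    ⟨fun j => by simp, fun y => by simp only [abs_zero]; positivity, fun _ _ => rfl, by simp,
      by simp, by simp⟩
  obtain ⟨hM1, -, -, -⟩ := hM n Q U J' E' hQ hE hF _ _ hz
  have hsum : ∀ j ∈ J', ∀ k ∈ Ioo (j * Q) ((j + 1) * Q), (∑ x, pa Q U E' k x) = 1 :=
    fun j hj k hk => (hM1 j hj k hk).1
  have hpos : ∀ j ∈ J', ∀ k ∈ Ioo (j * Q) ((j + 1) * Q), ∀ x, 0 ≤ pa Q U E' k x :=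
    fun j hj k hk x => ((hM1 j hj k hk).2.1 x).1
  have hQ3 : 2 / (Q : ℝ) ^ 3 ≤ 2 / 10 ^ 15 := by
    apply div_le_div_of_nonneg_left (by norm_num) (by norm_num)
    calc (10 : ℝ) ^ 15 = (10 ^ 5) ^ 3 := by norm_num
      _ ≤ (Q : ℝ) ^ 3 := by gcongr
  have hbad0 : ∀ j ∈ J', 0 ≤ Ex Q U E' j (fun f => if Gd Q E' j f then (0 : ℝ) else 1) :=
    fun j hj => Ex_nonneg (hpos j hj) fun f => by split_ifs <;> norm_num
  refine ⟨fun j hj => ?_, fun y hy => ?_, fun βJ β hβ j hj => ?_⟩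
  · rw [Ex_Gd_split (fun _ => (1 : ℝ)), Ex_one (hsum j hj)]
    have h1 := hB1 j hj
    have h0 := hbad0 j hj
    rw [abs_le]
    constructor <;> linarith
  · have key : ∀ d : ℝ, |(∑ j ∈ J', Ex Q U E' j (fun f => (mult n Q j f y : ℝ))) - 1| ≤ d →
        d ≤ 400 / (Q : ℝ) ^ 2 →
        |(∑ j ∈ J', Ex Q U E' j (fun f => if Gd Q E' j f then (mult n Q j f y : ℝ) else 0)) - 1|
          ≤ 1 / (100 * Q) := by
      intro d hd hd'
      have e1 : ∑ j ∈ J', Ex Q U E' j (fun f => if Gd Q E' j f then (mult n Q j f y : ℝ) else 0)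
          = (∑ j ∈ J', Ex Q U E' j (fun f => (mult n Q j f y : ℝ))) -
            ∑ j ∈ J', Ex Q U E' j (fun f => if Gd Q E' j f then 0 else (mult n Q j f y : ℝ)) := by
        rw [← Finset.sum_sub_distrib]
        exact Finset.sum_congr rfl fun j _ => Ex_Gd_split _
      have e2 := hB2 y hy
      have e3 : 0 ≤ ∑ j ∈ J',
          Ex Q U E' j (fun f => if Gd Q E' j f then 0 else (mult n Q j f y : ℝ)) :=
        Finset.sum_nonneg fun j hj => Ex_nonneg (hpos j hj) fun f => by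
          split_ifs
          · exact le_refl _
          · exact Nat.cast_nonneg _
      have e4 : 400 / (Q : ℝ) ^ 2 ≤ 1 / (250 * Q) := by
        rw [div_le_div_iff₀ (by positivity) (by positivity)]
        nlinarith
      have e5 : 10 / (Q : ℝ) ^ 3 ≤ 1 / (1000 * Q) := by
        rw [div_le_div_iff₀ (by positivity) (by positivity)]
        nlinarith [mul_pos hQ0 hQ0, mul_le_mul hQr hQr (by norm_num) hQ0.le]
      have e6 : 1 / (100 * (Q : ℝ)) = 1 / (250 * Q) + 1 / (1000 * Q) + 1 / (200 * Q) := by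
        field_simp
        norm_num
      have e7 : 0 < 1 / (200 * (Q : ℝ)) := by positivity
      rw [e1, e6]
      rw [abs_le] at hd ⊢
      constructor <;> linarith [hd.1, hd.2]
    rcases y with x | c
    · refine key _ ?_ (le_refl _)
      rw [Finset.sum_congr rfl fun j hj => Ex_mult_inl hK (hsum j hj) x]
      refine (hF.degx x hy).trans ?_
      gcongr
      norm_num
    · have h1 := hE hy
      unfold All at h1
      rw [mem_union, mem_image, mem_image] at h1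
      rcases h1 with ⟨x, -, h1⟩ | ⟨w, hw, h1⟩
      · exact absurd h1 (by simp)
      · rw [mem_filter] at hw
        rw [Sum.inr.injEq] at h1
        subst h1
        refine key _ ?_ (le_refl _)
        rw [Finset.sum_congr rfl fun j hj => Ex_mult_inr hK hQ2 (hsum j hj) hw.2]
        exact hF.degc w hy hw.2
  · obtain ⟨-, -, hT, -⟩ := hM n Q U J' E' hQ hE hF _ _ hβ
    have h1 := hT j hj
    rw [Ex_Gd_split (Sb Q βJ β j), Ex_Sb (hsum j hj)]
    have h2 : |Ex Q U E' j (fun f => if Gd Q E' j f then 0 else Sb Q βJ β j f)| ≤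
        601 * Ex Q U E' j (fun f => if Gd Q E' j f then (0 : ℝ) else 1) := by
      rw [← Ex_mul_left]
      refine abs_Ex_le (hpos j hj) fun f => ?_
      split_ifs
      · simp
      · rw [mul_one]
        exact abs_Sb_le (by omega) (hβ.bj j) hβ.be f
    have h3 := hB1 j hj
    rw [abs_le] at h1 h2 ⊢
    constructor <;> linarith [h1.1, h1.2, h2.1, h2.2]

end Pool.Agent.DNA
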