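import Pool.Agent.Lib.MP_845d9b_co.Abs.FpmStmts

/-!
# F5d: second hypothesis of the contraction lemma, classes (helper4)
-/

set_option autoImplicit false

namespace Pool.Agent.DNA
namespace H2C

open Finset

variable {n : ℕ}

section Basic

variable [NeZero n] {Q : ℕ} {U : ℕ → ZMod n} {E' : Finset (Elt n)} {j : ℕ}

lemma pa_nonneg (k : ℕ) (x : ZMod n) : 0 ≤ pa Q U E' k x := by
  unfold pa
  split_ifs <;> positivity

lemma pe_nonneg (k : ℕ) (w : ZMod n) : 0 ≤ pe Q U E' k w :=
  sum_nonneg fun _ _ => mul_nonneg (pa_nonneg _ _) (pa_nonneg _ _)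

lemma pr_nonneg (m : Fin (Q - 1) → ZMod n) : 0 ≤ pr Q U E' j m :=
  prod_nonneg fun _ _ => pa_nonneg _ _

lemma Ex_congr {F G : (ℕ → ZMod n) → ℝ} (h : ∀ m, F (ext n Q U j m) = G (ext n Q U j m)) :
    Ex Q U E' j F = Ex Q U E' j G := by
  unfold Ex
  exact sum_congr rfl fun m _ => by rw [h m]

lemma Ex_add (F G : (ℕ → ZMod n) → ℝ) :
    Ex Q U E' j (fun f => F f + G f) = Ex Q U E' j F + Ex Q U E' j G := by
  unfold Ex
  rw [← sum_add_distrib]
  exact sum_congr rfl fun m _ => by ring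

lemma Ex_sum {ι : Type*} (s : Finset ι) (F : ι → (ℕ → ZMod n) → ℝ) :
    Ex Q U E' j (fun f => ∑ i ∈ s, F i f) = ∑ i ∈ s, Ex Q U E' j (F i) := by
  unfold Ex
  rw [sum_comm]
  exact sum_congr rfl fun m _ => by rw [mul_sum]

lemma Ex_mul (c : ℝ) (F : (ℕ → ZMod n) → ℝ) :
    Ex Q U E' j (fun f => c * F f) = c * Ex Q U E' j F := by
  unfold Ex
  rw [mul_sum]
  exact sum_congr rfl fun m _ => by ring

lemma abs_Ex_le {F G : (ℕ → ZMod n) → ℝ}
    (h : ∀ m, |F (ext n Q U j m)| ≤ G (ext n Q U j m)) :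
    |Ex Q U E' j F| ≤ Ex Q U E' j G := by
  unfold Ex
  refine (abs_sum_le_sum_abs _ _).trans (sum_le_sum fun m _ => ?_)
  rw [abs_mul, abs_of_nonneg (pr_nonneg m)]
  exact mul_le_mul_of_nonneg_left (h m) (pr_nonneg m)

lemma ext_left (m : Fin (Q - 1) → ZMod n) : ext n Q U j m (j * Q) = U (j * Q) := by
  unfold ext
  rw [dif_neg]
  omega

lemma ext_right (hQ : 1 ≤ Q) (m : Fin (Q - 1) → ZMod n) :
    ext n Q U j m ((j + 1) * Q) = U ((j + 1) * Q) := by
  unfold ext
  rw [dif_neg]
  have : (j + 1) * Q = j * Q + Q := by ring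
  omega

lemma pe_left (v : ZMod n) :
    pe Q U E' (j * Q) v = pa Q U E' (j * Q + 1) (U (j * Q) + v) := by
  unfold pe
  rw [Finset.sum_eq_single (U (j * Q))]
  · have : pa Q U E' (j * Q) (U (j * Q)) = 1 := by
      unfold pa
      rw [if_pos (Dvd.intro_left j rfl), if_pos rfl]
    rw [this, one_mul]
  · intro x _ hx
    have : pa Q U E' (j * Q) x = 0 := by
      unfold pa
      rw [if_pos (Dvd.intro_left j rfl), if_neg hx]
    rw [this, zero_mul]
  · intro h
    exact absurd (mem_univ _) h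

lemma pe_right {k : ℕ} (hk : k + 1 = (j + 1) * Q) (v : ZMod n) :
    pe Q U E' k v = pa Q U E' k (U ((j + 1) * Q) - v) := by
  unfold pe
  have hd : Q ∣ k + 1 := by rw [hk]; exact Dvd.intro_left (j + 1) rfl
  rw [Finset.sum_eq_single (U ((j + 1) * Q) - v)]
  · have : pa Q U E' (k + 1) (U ((j + 1) * Q) - v + v) = 1 := by
      unfold pa
      rw [if_pos hd, if_pos (by rw [hk]; ring)]
    rw [this, mul_one]
  · intro x _ hx
    have : pa Q U E' (k + 1) (x + v) = 0 := by
      unfold pa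
      rw [if_pos hd, if_neg]
      intro h
      apply hx
      rw [hk] at h
      rw [← h]; ring
    rw [this, mul_zero]
  · intro h
    exact absurd (mem_univ _) h

lemma pe_le {k : ℕ} {c : ℝ} (h1 : (∑ x, pa Q U E' k x) = 1)
    (h2 : ∀ x, pa Q U E' (k + 1) x ≤ c) (v : ZMod n) : pe Q U E' k v ≤ c := by
  unfold pe
  calc ∑ x : ZMod n, pa Q U E' k x * pa Q U E' (k + 1) (x + v)
      ≤ ∑ x : ZMod n, pa Q U E' k x * c :=
        sum_le_sum fun x _ => mul_le_mul_of_nonneg_left (h2 _) (pa_nonneg _ _)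
    _ = c := by rw [← sum_mul, h1, one_mul]

end Basic

lemma cl_eq_iff (d w : ZMod n) : cl d = cl w ↔ d = w ∨ d = 1 - w := by
  unfold cl
  rw [Sym2.eq_iff]
  constructor
  · rintro (⟨h, _⟩ | ⟨h, _⟩)
    · exact Or.inl h
    · exact Or.inr h
  · rintro (h | h)
    · exact Or.inl ⟨h, by rw [h]⟩
    · exact Or.inr ⟨h, by rw [h]; ring⟩

lemma cl_one_sub (w : ZMod n) : cl (1 - w) = cl w := (cl_eq_iff _ _).2 (Or.inr rfl)

lemma mult_mul (Q j : ℕ) {w : ZMod n} (hw : ClOk w) (f : ℕ → ZMod n) (S : ℝ) :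
    (mult n Q j f (Sum.inr (cl w)) : ℝ) * S =
      ∑ k ∈ Ico (j * Q) ((j + 1) * Q),
        ((if f (k + 1) - f k = w then S else 0) + (if f (k + 1) - f k = 1 - w then S else 0)) := by
  have hne : w ≠ 1 - w := by
    intro h
    apply hw.2.2
    nth_rewrite 1 [h]
    ring
  unfold mult
  simp only [Sum.elim_inr]
  push_cast
  rw [sum_mul]
  refine sum_congr rfl fun k _ => ?_
  by_cases h1 : f (k + 1) - f k = w
  · rw [if_pos ((cl_eq_iff _ _).2 (Or.inl h1)), if_pos h1, if_neg (by rw [h1]; exact hne)]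
    ring
  · by_cases h2 : f (k + 1) - f k = 1 - w
    · rw [if_pos ((cl_eq_iff _ _).2 (Or.inr h2)), if_neg h1, if_pos h2]
      ring
    · rw [if_neg (fun h => ((cl_eq_iff _ _).1 h).elim h1 h2), if_neg h1, if_neg h2]
      ring

lemma Sb_le {Q : ℕ} (hQ : 1 ≤ Q) {βJ : ℕ → ℝ} {β : Elt n → ℝ} (j : ℕ) (h1 : |βJ j| ≤ 1)
    (h2 : ∀ y, |β y| ≤ 200 / Q) (f : ℕ → ZMod n) : |Sb Q βJ β j f| ≤ 601 := by
  have hQ0 : (0 : ℝ) < Q := by exact_mod_cast hQ
  have hb : (0 : ℝ) ≤ 200 / Q := by positivity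
  unfold Sb
  have e1 : |∑ k ∈ Ioo (j * Q) ((j + 1) * Q), hh β k (f k)| ≤ 400 := by
    refine (abs_sum_le_sum_abs _ _).trans ?_
    calc ∑ k ∈ Ioo (j * Q) ((j + 1) * Q), |hh β k (f k)|
        ≤ ∑ k ∈ Ioo (j * Q) ((j + 1) * Q), (400 / (Q : ℝ)) := by
          refine sum_le_sum fun k _ => ?_
          unfold hh
          refine (abs_add_le _ _).trans ?_
          calc |β (Sum.inl (f k))| + |β (Sum.inl (f k - (k : ZMod n)))| ≤ 200 / Q + 200 / Q :=
                add_le_add (h2 _) (h2 _)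
            _ = 400 / Q := by ring
      _ = ((Q - 1 : ℕ) : ℝ) * (400 / Q) := by
          rw [sum_const, Nat.card_Ioo, nsmul_eq_mul]
          congr 3
          have : (j + 1) * Q = j * Q + Q := by ring
          omega
      _ ≤ (Q : ℝ) * (400 / Q) := by
          apply mul_le_mul_of_nonneg_right _ (by positivity)
          exact_mod_cast Nat.sub_le Q 1
      _ = 400 := by field_simp
  have e2 : |∑ k ∈ Ico (j * Q) ((j + 1) * Q), β (Sum.inr (cl (f (k + 1) - f k)))| ≤ 200 := by
    refine (abs_sum_le_sum_abs _ _).trans ?_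
    calc ∑ k ∈ Ico (j * Q) ((j + 1) * Q), |β (Sum.inr (cl (f (k + 1) - f k)))|
        ≤ ∑ k ∈ Ico (j * Q) ((j + 1) * Q), (200 / (Q : ℝ)) := sum_le_sum fun k _ => h2 _
      _ = (Q : ℝ) * (200 / Q) := by
          rw [sum_const, Nat.card_Ico, nsmul_eq_mul]
          congr 2
          have : (j + 1) * Q = j * Q + Q := by ring
          omega
      _ = 200 := by field_simp
  calc |βJ j + ∑ k ∈ Ioo (j * Q) ((j + 1) * Q), hh β k (f k) +
        ∑ k ∈ Ico (j * Q) ((j + 1) * Q), β (Sum.inr (cl (f (k + 1) - f k)))|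
      ≤ |βJ j| + |∑ k ∈ Ioo (j * Q) ((j + 1) * Q), hh β k (f k)| +
        |∑ k ∈ Ico (j * Q) ((j + 1) * Q), β (Sum.inr (cl (f (k + 1) - f k)))| :=
        (abs_add_le _ _).trans (add_le_add (abs_add_le _ _) le_rfl)
    _ ≤ 1 + 400 + 200 := by gcongr
    _ = 601 := by norm_num

/-- the exceptional edges of block `j` -/
def Exc (Q j : ℕ) : Finset ℕ := {j * Q, j * Q + 1, (j + 1) * Q - 2, (j + 1) * Q - 1}

lemma card_Exc (Q j : ℕ) : (Exc Q j).card ≤ 4 := by
  unfold Exc
  exact (card_insert_le _ _).trans (Nat.succ_le_succ ((card_insert_le _ _).trans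
    (Nat.succ_le_succ (card_insert_le _ _))))

lemma sum_Exc (Q j : ℕ) {B : ℝ} (hB : 0 ≤ B) :
    ∑ k ∈ Ico (j * Q) ((j + 1) * Q), (if k ∈ Exc Q j then B else 0) ≤ 4 * B := by
  rw [← sum_filter, sum_const, nsmul_eq_mul]
  apply mul_le_mul_of_nonneg_right _ hB
  have : ((Ico (j * Q) ((j + 1) * Q)).filter (· ∈ Exc Q j)).card ≤ (Exc Q j).card :=
    card_le_card fun k hk => (mem_filter.1 hk).2
  exact_mod_cast this.trans (card_Exc Q j)

end H2C

open Finset H2C in
theorem stH2C : StK1 → StCond → StBad → StMean → StH2C := by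
  intro _ hcond hbad hmean n Q _ U J' E' hQ hE hF βJ β hβ w hw hwE
  obtain ⟨hm1, hm2, hm3, hm4⟩ := hmean n Q U J' E' hQ hE hF βJ β hβ
  obtain ⟨_, hb2⟩ := hbad n Q U J' E' hQ hE hF
  have hQ5 : (10 : ℝ) ^ 5 ≤ Q := by exact_mod_cast hQ
  have hQ0 : (0 : ℝ) < Q := lt_of_lt_of_le (by norm_num) hQ5
  have hn0 : (0 : ℝ) < n := by exact_mod_cast Nat.pos_of_ne_zero (NeZero.ne n)
  set T : ℕ → ℝ := fun j => Ex Q U E' j (Sb Q (fun _ => 0) β j) with hT
  set ε : ℝ := 1600 / (Q : ℝ) ^ 2 with hε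
  set b : ℝ := 200 / (Q : ℝ) with hb
  set ε' : ℝ := 20000 / (n * (Q : ℝ) ^ 2) with hε'
  have hε0 : 0 ≤ ε := by positivity
  have hb0 : 0 ≤ b := by positivity
  have hε'0 : 0 ≤ ε' := by positivity
  have hB0 : 0 ≤ 8 * b / n := by positivity
  -- one edge
  have key : ∀ j ∈ J', ∀ k ∈ Ico (j * Q) ((j + 1) * Q), ∀ v : ZMod n,
      |Ex Q U E' j (fun f => if f (k + 1) - f k = v then Sb Q βJ β j f else 0) -
        pe Q U E' k v * (βJ j + T j + β (Sum.inr (cl v)))| ≤
      pe Q U E' k v * (7 * ε) + (if k ∈ Exc Q j then 8 * b / n else 0) + ε' := by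
    intro j hj k hk v
    rw [mem_Ico] at hk
    have hjQ : (j + 1) * Q = j * Q + Q := by ring
    obtain ⟨hc1, hc2⟩ := hcond n Q U E' j βJ β ε b (by omega) (fun k hk => (hm1 j hj k hk).1)
      (fun k hk => (hm1 j hj k hk).2.2.1) (fun k hk => (hm1 j hj k hk).2.2.2) hβ.be
    have hend : ∀ k' ∈ Ioo (j * Q) ((j + 1) * Q), ∀ x : ZMod n, k ∈ Exc Q j →
        pe Q U E' k v = pa Q U E' k' x →
        Ex Q U E' j (fun f => if f (k + 1) - f k = v then Sb Q βJ β j f else 0) =
          Ex Q U E' j (fun f => if f k' = x then Sb Q βJ β j f else 0) →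
        |Ex Q U E' j (fun f => if f (k + 1) - f k = v then Sb Q βJ β j f else 0) -
          pe Q U E' k v * (βJ j + T j + β (Sum.inr (cl v)))| ≤
        pe Q U E' k v * (7 * ε) + (if k ∈ Exc Q j then 8 * b / n else 0) + ε' := by
      intro k' hk' x hkE h1 h2
      rw [if_pos hkE, h1, h2]
      have h3 := hc1 k' hk' x
      have h4 := (hm1 j hj k' hk').2.1 x
      set p := pa Q U E' k' x with hp
      have h5 : (if k' = j * Q + 1 ∨ k' + 1 = (j + 1) * Q then b else 0) ≤ b := by
        split_ifs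
        · exact le_rfl
        · exact hb0
      have h6 : |hh β k' x - β (Sum.inr (cl v))| ≤ 3 * b := by
        unfold hh
        have a1 := hβ.be (Sum.inl x)
        have a2 := hβ.be (Sum.inl (x - (k' : ZMod n)))
        have a3 := hβ.be (Sum.inr (cl v))
        rw [abs_le] at a1 a2 a3 ⊢
        constructor <;> linarith [a1.1, a1.2, a2.1, a2.2, a3.1, a3.2]
      calc |Ex Q U E' j (fun f => if f k' = x then Sb Q βJ β j f else 0) -
            p * (βJ j + T j + β (Sum.inr (cl v)))|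
          = |(Ex Q U E' j (fun f => if f k' = x then Sb Q βJ β j f else 0) -
              p * (βJ j + T j + hh β k' x)) + p * (hh β k' x - β (Sum.inr (cl v)))| := by
            congr 1; ring
        _ ≤ p * (5 * ε + (if k' = j * Q + 1 ∨ k' + 1 = (j + 1) * Q then b else 0)) +
            p * (3 * b) := by
            refine (abs_add_le _ _).trans (add_le_add h3 ?_)
            rw [abs_mul, abs_of_nonneg h4.1]
            exact mul_le_mul_of_nonneg_left h6 h4.1
        _ ≤ p * (5 * ε + b) + p * (3 * b) := by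
            have := mul_le_mul_of_nonneg_left (add_le_add_right h5 (5 * ε)) h4.1
            linarith
        _ = p * (5 * ε) + p * (4 * b) := by ring
        _ ≤ p * (7 * ε) + 2 / n * (4 * b) := by
            have a1 := mul_nonneg h4.1 hε0
            have a2 := mul_le_mul_of_nonneg_right h4.2 (show 0 ≤ 4 * b by positivity)
            linarith
        _ = p * (7 * ε) + 8 * b / n := by ring
        _ ≤ _ := by linarith
    by_cases h1 : k = j * Q
    · subst h1
      refine hend (j * Q + 1) (by rw [mem_Ioo]; omega) (U (j * Q) + v) (by simp [Exc])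
        (pe_left v) (Ex_congr fun m => ?_)
      rw [ext_left]
      by_cases h2 : ext n Q U j m (j * Q + 1) = U (j * Q) + v
      · rw [if_pos h2, if_pos (by rw [h2]; ring)]
      · rw [if_neg h2, if_neg (fun h => h2 (by rw [← h]; ring))]
    · by_cases h2 : k + 1 = (j + 1) * Q
      · refine hend k (by rw [mem_Ioo]; omega) (U ((j + 1) * Q) - v)
          (by simp only [Exc, mem_insert, mem_singleton]; omega)
          (pe_right h2 v) (Ex_congr fun m => ?_)
        rw [h2, ext_right (by omega)]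
        by_cases h3 : ext n Q U j m k = U ((j + 1) * Q) - v
        · rw [if_pos h3, if_pos (by rw [h3]; ring)]
        · rw [if_neg h3, if_neg (fun h => h3 (by rw [← h]; ring))]
      · have h3 : j * Q < k := by omega
        have h4 : k + 1 < (j + 1) * Q := by omega
        have h5 := hc2 k h3 h4 v ε' (hm2 j hj k h3 h4 v)
        refine h5.trans ?_
        have hp0 : 0 ≤ pe Q U E' k v := pe_nonneg _ _
        have hp1 : pe Q U E' k v ≤ 2 / n :=
          pe_le (hm1 j hj k (by rw [mem_Ioo]; omega)).1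
            (fun x => ((hm1 j hj (k + 1) (by rw [mem_Ioo]; omega)).2.1 x).2) v
        have h6 : pe Q U E' k v * (if k = j * Q + 1 ∨ k + 2 = (j + 1) * Q then b else 0) ≤
            (if k ∈ Exc Q j then 8 * b / n else 0) := by
          by_cases h7 : k = j * Q + 1 ∨ k + 2 = (j + 1) * Q
          · rw [if_pos h7, if_pos (by simp only [Exc, mem_insert, mem_singleton]; omega)]
            calc pe Q U E' k v * b ≤ 2 / n * b := mul_le_mul_of_nonneg_right hp1 hb0
              _ = 2 * b / n := by ring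
              _ ≤ 8 * b / n := by gcongr; norm_num
          · rw [if_neg h7, mul_zero]
            split_ifs
            · exact hB0
            · exact le_rfl
        rw [mul_add]
        linarith
  -- one block
  have hblock : ∀ j ∈ J',
      |Ex Q U E' j (fun f => (mult n Q j f (Sum.inr (cl w)) : ℝ) * Sb Q βJ β j f) -
        Nc Q U E' j w * (βJ j + T j + β (Sum.inr (cl w)))| ≤
      Nc Q U E' j w * (7 * ε) + (64 * b / n + 2 * Q * ε') := by
    intro j hj
    have e1 : Ex Q U E' j (fun f => (mult n Q j f (Sum.inr (cl w)) : ℝ) * Sb Q βJ β j f) =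
        ∑ k ∈ Ico (j * Q) ((j + 1) * Q),
          (Ex Q U E' j (fun f => if f (k + 1) - f k = w then Sb Q βJ β j f else 0) +
            Ex Q U E' j (fun f => if f (k + 1) - f k = 1 - w then Sb Q βJ β j f else 0)) := by
      simp_rw [← Ex_add]
      rw [← Ex_sum]
      exact Ex_congr fun m => mult_mul Q j hw _ _
    have e2 : Nc Q U E' j w * (βJ j + T j + β (Sum.inr (cl w))) =
        ∑ k ∈ Ico (j * Q) ((j + 1) * Q), (pe Q U E' k w * (βJ j + T j + β (Sum.inr (cl w))) +
          pe Q U E' k (1 - w) * (βJ j + T j + β (Sum.inr (cl (1 - w))))) := by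
      unfold Nc
      rw [sum_mul]
      refine sum_congr rfl fun k _ => ?_
      rw [cl_one_sub]
      ring
    rw [e1, e2, ← sum_sub_distrib]
    refine (abs_sum_le_sum_abs _ _).trans ?_
    calc _ ≤ ∑ k ∈ Ico (j * Q) ((j + 1) * Q),
          ((pe Q U E' k w + pe Q U E' k (1 - w)) * (7 * ε) +
            2 * (if k ∈ Exc Q j then 8 * b / n else 0) + 2 * ε') := by
          refine sum_le_sum fun k hk => ?_
          have a1 := key j hj k hk w
          have a2 := key j hj k hk (1 - w)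
          have a3 : ∀ A B C D : ℝ, |A + B - (C + D)| ≤ |A - C| + |B - D| := by
            intro A B C D
            calc |A + B - (C + D)| = |(A - C) + (B - D)| := by congr 1; ring
              _ ≤ _ := abs_add_le _ _
          refine (a3 _ _ _ _).trans ?_
          linarith
      _ = Nc Q U E' j w * (7 * ε) +
          2 * ∑ k ∈ Ico (j * Q) ((j + 1) * Q), (if k ∈ Exc Q j then 8 * b / n else 0) +
            (Q : ℝ) * (2 * ε') := by
          rw [sum_add_distrib, sum_add_distrib, ← sum_mul, ← mul_sum, sum_const, Nat.card_Ico,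
            nsmul_eq_mul]
          have : (j + 1) * Q - j * Q = Q := by
            have : (j + 1) * Q = j * Q + Q := by ring
            omega
          rw [this]
          rfl
      _ ≤ Nc Q U E' j w * (7 * ε) + 2 * (4 * (8 * b / n)) + (Q : ℝ) * (2 * ε') := by
          have := sum_Exc Q j hB0
          linarith
      _ = _ := by ring
  -- the bad part
  have hbadj : ∀ j ∈ J',
      |Ex Q U E' j (fun f => if Gd Q E' j f then
        (mult n Q j f (Sum.inr (cl w)) : ℝ) * Sb Q βJ β j f else 0) -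
        Ex Q U E' j (fun f => (mult n Q j f (Sum.inr (cl w)) : ℝ) * Sb Q βJ β j f)| ≤
      601 * Ex Q U E' j (fun f => if Gd Q E' j f then 0 else
        (mult n Q j f (Sum.inr (cl w)) : ℝ)) := by
    intro j _
    have e1 : Ex Q U E' j (fun f => if Gd Q E' j f then
        (mult n Q j f (Sum.inr (cl w)) : ℝ) * Sb Q βJ β j f else 0) -
        Ex Q U E' j (fun f => (mult n Q j f (Sum.inr (cl w)) : ℝ) * Sb Q βJ β j f) =
        Ex Q U E' j (fun f => if Gd Q E' j f then 0 else
          -((mult n Q j f (Sum.inr (cl w)) : ℝ) * Sb Q βJ β j f)) := by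
      rw [sub_eq_iff_eq_add, ← Ex_add]
      refine Ex_congr fun m => ?_
      by_cases h : Gd Q E' j (ext n Q U j m)
      · simp only [if_pos h]; ring
      · simp only [if_neg h]; ring
    rw [e1, ← Ex_mul]
    refine abs_Ex_le fun m => ?_
    by_cases h : Gd Q E' j (ext n Q U j m)
    · simp only [if_pos h]; simp
    · simp only [if_neg h]
      rw [abs_neg, abs_mul, abs_of_nonneg (Nat.cast_nonneg _), mul_comm]
      exact mul_le_mul_of_nonneg_right (Sb_le (by omega) j (hβ.bj j) hβ.be _)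
        (Nat.cast_nonneg _)
  -- summation
  have hNc0 : ∀ j, 0 ≤ Nc Q U E' j w := fun j =>
    sum_nonneg fun k _ => add_nonneg (pe_nonneg _ _) (pe_nonneg _ _)
  have hdeg := hF.degc w hwE hw
  obtain ⟨κ, hκ0, hκ1, hκ2⟩ := hF.devc w hwE hw
  have hbw := hβ.be (Sum.inr (cl w))
  have hbad2 := hb2 (Sum.inr (cl w)) hwE
  have hJ : (J'.card : ℝ) * (2 * Q) ≤ n := by
    have := hF.est.jc
    have h2 : ((2 * Q * J'.card : ℕ) : ℝ) ≤ (n : ℝ) := by exact_mod_cast this
    push_cast at h2
    linarith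
  set A : ℕ → ℝ := fun j => Ex Q U E' j (fun f => if Gd Q E' j f then
        (mult n Q j f (Sum.inr (cl w)) : ℝ) * Sb Q βJ β j f else 0) with hA
  set N : ℕ → ℝ := fun j => Nc Q U E' j w with hN
  set bw : ℝ := β (Sum.inr (cl w)) with hbwdef
  have h1 : |∑ j ∈ J', A j - ∑ j ∈ J', N j * (βJ j + T j + bw)| ≤
      601 * (10 / (Q : ℝ) ^ 3) + ((∑ j ∈ J', N j) * (7 * ε) +
        (J'.card : ℝ) * (64 * b / n + 2 * Q * ε')) := by
    rw [← sum_sub_distrib]
    refine (abs_sum_le_sum_abs _ _).trans ?_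
    calc ∑ j ∈ J', |A j - N j * (βJ j + T j + bw)|
        ≤ ∑ j ∈ J', (601 * Ex Q U E' j (fun f => if Gd Q E' j f then 0 else
            (mult n Q j f (Sum.inr (cl w)) : ℝ)) +
            (N j * (7 * ε) + (64 * b / n + 2 * Q * ε'))) := by
          refine sum_le_sum fun j hj => ?_
          refine (abs_sub_le _ (Ex Q U E' j (fun f =>
            (mult n Q j f (Sum.inr (cl w)) : ℝ) * Sb Q βJ β j f)) _).trans ?_
          exact add_le_add (hbadj j hj) (hblock j hj)
      _ = 601 * ∑ j ∈ J', Ex Q U E' j (fun f => if Gd Q E' j f then 0 else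
            (mult n Q j f (Sum.inr (cl w)) : ℝ)) +
            ((∑ j ∈ J', N j) * (7 * ε) + (J'.card : ℝ) * (64 * b / n + 2 * Q * ε')) := by
          rw [sum_add_distrib, sum_add_distrib, ← mul_sum, ← sum_mul, sum_const, nsmul_eq_mul]
      _ ≤ _ := by
          have := mul_le_mul_of_nonneg_left hbad2 (show (0 : ℝ) ≤ 601 by norm_num)
          linarith
  have h2 : |∑ j ∈ J', N j * (βJ j + T j + bw) - bw| ≤
      |bw| * (400 / (Q : ℝ) ^ 2) + (3 * Q / n * (50000 * n / (Q : ℝ) ^ 3) + 3 / Q * (9 / 8)) := by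
    have e1 : ∑ j ∈ J', N j * (βJ j + T j + bw) - bw =
        bw * (∑ j ∈ J', N j - 1) +
          (κ * ∑ j ∈ J', T j + ∑ j ∈ J', (N j - κ) * (βJ j + T j)) := by
      have e2 : ∑ j ∈ J', (N j - κ) * (βJ j + T j) =
          ∑ j ∈ J', N j * (βJ j + T j) - κ * ∑ j ∈ J', T j := by
        have : ∀ j, (N j - κ) * (βJ j + T j) = N j * (βJ j + T j) - κ * T j - κ * βJ j := by
          intro j; ring
        simp_rw [this]
        rw [sum_sub_distrib, sum_sub_distrib, ← mul_sum, ← mul_sum, hβ.sj]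
        ring
      have e3 : ∑ j ∈ J', N j * (βJ j + T j + bw) =
          ∑ j ∈ J', N j * (βJ j + T j) + bw * ∑ j ∈ J', N j := by
        rw [mul_sum, ← sum_add_distrib]
        exact sum_congr rfl fun j _ => by ring
      rw [e2, e3]
      ring
    rw [e1]
    refine (abs_add_le _ _).trans (add_le_add ?_ ((abs_add_le _ _).trans (add_le_add ?_ ?_)))
    · rw [abs_mul]
      exact mul_le_mul_of_nonneg_left hdeg (abs_nonneg _)
    · rw [abs_mul, abs_of_nonneg hκ0]
      exact mul_le_mul hκ1 hm4 (abs_nonneg _) (by positivity)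
    · refine (abs_sum_le_sum_abs _ _).trans ?_
      calc ∑ j ∈ J', |(N j - κ) * (βJ j + T j)|
          ≤ ∑ j ∈ J', |N j - κ| * (9 / 8) := by
            refine sum_le_sum fun j hj => ?_
            rw [abs_mul]
            refine mul_le_mul_of_nonneg_left ?_ (abs_nonneg _)
            have a1 := hβ.bj j
            have a2 := hm3 j hj
            refine (abs_add_le _ _).trans ?_
            linarith
        _ = (∑ j ∈ J', |N j - κ|) * (9 / 8) := by rw [sum_mul]
        _ ≤ 3 / Q * (9 / 8) := mul_le_mul_of_nonneg_right hκ2 (by norm_num)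
  have h3 : |∑ j ∈ J', A j - bw| ≤ _ := (abs_sub_le _ _ _).trans (add_le_add h1 h2)
  refine h3.trans ?_
  -- numerics
  have hS : ∑ j ∈ J', N j ≤ 2 := by
    have := (abs_le.1 hdeg).2
    have h4 : 400 / (Q : ℝ) ^ 2 ≤ 1 := by
      rw [div_le_one (by positivity)]
      nlinarith only [hQ5]
    linarith
  have hQinv : 1 / (Q : ℝ) ≤ 1 / 10 ^ 5 := one_div_le_one_div_of_le (by norm_num) hQ5
  set q : ℝ := 1 / (Q : ℝ) with hq
  have hq0 : 0 < q := by positivity
  have t1 : 601 * (10 / (Q : ℝ) ^ 3) ≤ q := by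
    have : 601 * (10 / (Q : ℝ) ^ 3) = 6010 * q * q * q := by rw [hq]; field_simp; norm_num
    rw [this]
    have h5 : q * q ≤ 1 / 10 ^ 5 * (1 / 10 ^ 5) := mul_le_mul hQinv hQinv hq0.le (by norm_num)
    have h6 : 6010 * (q * q) ≤ 1 := by
      refine (mul_le_mul_of_nonneg_left h5 (by norm_num)).trans (by norm_num)
    calc 6010 * q * q * q = 6010 * (q * q) * q := by ring
      _ ≤ 1 * q := mul_le_mul_of_nonneg_right h6 hq0.le
      _ = q := one_mul q
  have t2 : (∑ j ∈ J', N j) * (7 * ε) ≤ q := by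
    calc (∑ j ∈ J', N j) * (7 * ε) ≤ 2 * (7 * ε) :=
          mul_le_mul_of_nonneg_right hS (by positivity)
      _ = 22400 * q * q := by rw [hε, hq]; field_simp; norm_num
      _ ≤ 1 * q := mul_le_mul_of_nonneg_right (by
            refine (mul_le_mul_of_nonneg_left hQinv (by norm_num)).trans (by norm_num)) hq0.le
      _ = q := one_mul q
  have t3 : (J'.card : ℝ) * (64 * b / n + 2 * Q * ε') ≤ q := by
    calc (J'.card : ℝ) * (64 * b / n + 2 * Q * ε')
        = (J'.card : ℝ) * (2 * Q) * ((26400 * q * q) / n) := by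
          rw [hb, hε', hq]; field_simp; ring
      _ ≤ n * ((26400 * q * q) / n) := mul_le_mul_of_nonneg_right hJ (by positivity)
      _ = 26400 * q * q := by field_simp
      _ ≤ 1 * q := mul_le_mul_of_nonneg_right (by
            refine (mul_le_mul_of_nonneg_left hQinv (by norm_num)).trans (by norm_num)) hq0.le
      _ = q := one_mul q
  have t4 : |bw| * (400 / (Q : ℝ) ^ 2) ≤ q := by
    calc |bw| * (400 / (Q : ℝ) ^ 2) ≤ 200 / Q * (400 / (Q : ℝ) ^ 2) :=
          mul_le_mul_of_nonneg_right hbw (by positivity)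
      _ = 80000 * q * q * q := by rw [hq]; field_simp; norm_num
      _ ≤ 1 * q * q := by
          refine mul_le_mul_of_nonneg_right (mul_le_mul_of_nonneg_right ?_ hq0.le) hq0.le
          refine (mul_le_mul_of_nonneg_left hQinv (by norm_num)).trans (by norm_num)
      _ ≤ 1 * 1 * q := by
          refine mul_le_mul_of_nonneg_right (mul_le_mul_of_nonneg_left ?_ (by norm_num)) hq0.le
          exact hQinv.trans (by norm_num)
      _ = q := by ring
  have t5 : 3 * Q / n * (50000 * n / (Q : ℝ) ^ 3) ≤ 2 * q := by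
    calc 3 * Q / n * (50000 * n / (Q : ℝ) ^ 3) = 150000 * q * q := by
          rw [hq]; field_simp; norm_num
      _ ≤ 2 * q := mul_le_mul_of_nonneg_right (by
            refine (mul_le_mul_of_nonneg_left hQinv (by norm_num)).trans (by norm_num)) hq0.le
  have t6 : 3 / (Q : ℝ) * (9 / 8) ≤ 4 * q := by
    rw [hq, div_mul_eq_mul_div, div_le_iff₀ hQ0]
    have : 4 * (1 / (Q : ℝ)) * Q = 4 := by field_simp
    rw [this]; norm_num
  have t7 : 50 / (Q : ℝ) = 50 * q := by rw [hq]; ring
  rw [t7]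
  linarith

end Pool.Agent.DNA
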