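import Pool.Agent.Lib.MP_845d9b_co.Abs.FpmStmts

/-!
# F5c: second hypothesis of the contraction lemma, points (helper88)
-/

set_option autoImplicit false

namespace Pool.Agent.DNA.H2P

open Finset Pool.Agent.DNA

variable {n : ℕ}

lemma pa_nonneg [NeZero n] (Q : ℕ) (U : ℕ → ZMod n) (E' : Finset (Elt n)) (k : ℕ) (x : ZMod n) :
    0 ≤ pa Q U E' k x := by
  unfold pa
  split_ifs <;> positivity

lemma pr_nonneg [NeZero n] (Q : ℕ) (U : ℕ → ZMod n) (E' : Finset (Elt n)) (j : ℕ)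
    (m : Fin (Q - 1) → ZMod n) : 0 ≤ pr Q U E' j m :=
  prod_nonneg fun _ _ => pa_nonneg _ _ _ _ _

lemma Ex_mono [NeZero n] (Q : ℕ) (U : ℕ → ZMod n) (E' : Finset (Elt n)) (j : ℕ)
    {F G : (ℕ → ZMod n) → ℝ} (h : ∀ f, F f ≤ G f) : Ex Q U E' j F ≤ Ex Q U E' j G := by
  unfold Ex
  exact sum_le_sum fun m _ => mul_le_mul_of_nonneg_left (h _) (pr_nonneg _ _ _ _ _)

lemma abs_Ex_le [NeZero n] (Q : ℕ) (U : ℕ → ZMod n) (E' : Finset (Elt n)) (j : ℕ)
    {F G : (ℕ → ZMod n) → ℝ} (h : ∀ f, |F f| ≤ G f) : |Ex Q U E' j F| ≤ Ex Q U E' j G := by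
  unfold Ex
  refine (abs_sum_le_sum_abs _ _).trans (sum_le_sum fun m _ => ?_)
  rw [abs_mul, abs_of_nonneg (pr_nonneg _ _ _ _ _)]
  exact mul_le_mul_of_nonneg_left (h _) (pr_nonneg _ _ _ _ _)

lemma Ex_add [NeZero n] (Q : ℕ) (U : ℕ → ZMod n) (E' : Finset (Elt n)) (j : ℕ)
    (F G : (ℕ → ZMod n) → ℝ) :
    Ex Q U E' j (fun f => F f + G f) = Ex Q U E' j F + Ex Q U E' j G := by
  unfold Ex
  rw [← sum_add_distrib]
  exact sum_congr rfl fun m _ => by ring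

lemma Ex_sub [NeZero n] (Q : ℕ) (U : ℕ → ZMod n) (E' : Finset (Elt n)) (j : ℕ)
    (F G : (ℕ → ZMod n) → ℝ) :
    Ex Q U E' j (fun f => F f - G f) = Ex Q U E' j F - Ex Q U E' j G := by
  unfold Ex
  rw [← sum_sub_distrib]
  exact sum_congr rfl fun m _ => by ring

lemma Ex_const_mul [NeZero n] (Q : ℕ) (U : ℕ → ZMod n) (E' : Finset (Elt n)) (j : ℕ) (c : ℝ)
    (F : (ℕ → ZMod n) → ℝ) :
    Ex Q U E' j (fun f => c * F f) = c * Ex Q U E' j F := by
  unfold Ex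
  rw [mul_sum]
  exact sum_congr rfl fun m _ => by ring

lemma Ex_sum [NeZero n] (Q : ℕ) (U : ℕ → ZMod n) (E' : Finset (Elt n)) (j : ℕ)
    (s : Finset ℕ) (F : ℕ → (ℕ → ZMod n) → ℝ) :
    Ex Q U E' j (fun f => ∑ k ∈ s, F k f) = ∑ k ∈ s, Ex Q U E' j (F k) := by
  unfold Ex
  rw [sum_comm]
  exact sum_congr rfl fun m _ => by rw [mul_sum]

/-- bound on `Sb` -/
lemma abs_Sb_le {Q : ℕ} (hQ : 10 ^ 5 ≤ Q) (βJ : ℕ → ℝ) (β : Elt n → ℝ)
    (hJ : ∀ j, |βJ j| ≤ 1) (hb : ∀ y, |β y| ≤ 200 / (Q : ℝ)) (j : ℕ) (f : ℕ → ZMod n) :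
    |Sb Q βJ β j f| ≤ 601 := by
  have hQ' : (10 : ℝ) ^ 5 ≤ (Q : ℝ) := by exact_mod_cast hQ
  have hQ0 : (0 : ℝ) < (Q : ℝ) := by linarith
  unfold Sb
  have hsub : (j + 1) * Q - j * Q = Q := by
    rw [add_mul, one_mul, Nat.add_sub_cancel_left]
  have h1 : |∑ k ∈ Ioo (j * Q) ((j + 1) * Q), hh β k (f k)| ≤ 400 := by
    refine (abs_sum_le_sum_abs _ _).trans ?_
    have h2 : ∀ k ∈ Ioo (j * Q) ((j + 1) * Q), |hh β k (f k)| ≤ 400 / (Q : ℝ) := by
      intro k _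
      unfold hh
      refine (abs_add_le _ _).trans ?_
      have e : 400 / (Q : ℝ) = 200 / (Q : ℝ) + 200 / (Q : ℝ) := by ring
      rw [e]
      exact add_le_add (hb _) (hb _)
    refine (sum_le_card_nsmul _ _ _ h2).trans ?_
    rw [Nat.card_Ioo, hsub, nsmul_eq_mul]
    have h3 : ((Q - 1 : ℕ) : ℝ) ≤ (Q : ℝ) := by exact_mod_cast Nat.sub_le _ _
    calc ((Q - 1 : ℕ) : ℝ) * (400 / (Q : ℝ)) ≤ (Q : ℝ) * (400 / (Q : ℝ)) := by gcongr
      _ = 400 := by field_simp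
  have h2 : |∑ k ∈ Ico (j * Q) ((j + 1) * Q), β (Sum.inr (cl (f (k + 1) - f k)))| ≤ 200 := by
    refine (abs_sum_le_sum_abs _ _).trans ?_
    refine (sum_le_card_nsmul _ _ _ (fun k _ => hb _)).trans ?_
    rw [Nat.card_Ico, hsub, nsmul_eq_mul]
    apply le_of_eq
    field_simp
  have h3 := hJ j
  have h4 := abs_add_le (βJ j + ∑ k ∈ Ioo (j * Q) ((j + 1) * Q), hh β k (f k))
    (∑ k ∈ Ico (j * Q) ((j + 1) * Q), β (Sum.inr (cl (f (k + 1) - f k))))
  have h5 := abs_add_le (βJ j) (∑ k ∈ Ioo (j * Q) ((j + 1) * Q), hh β k (f k))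
  linarith

/-- the multiplicity of a point -/
lemma mult_mul (Q j : ℕ) (f : ℕ → ZMod n) (x : ZMod n) (S : ℝ) :
    (mult n Q j f (Sum.inl x) : ℝ) * S =
      ∑ k ∈ Ioo (j * Q) ((j + 1) * Q),
        ((if f k = x then S else 0) + (if f k = x + (k : ZMod n) then S else 0)) := by
  have h : (mult n Q j f (Sum.inl x) : ℝ) = ∑ k ∈ Ioo (j * Q) ((j + 1) * Q),
      (((if f k = x then 1 else 0) + (if f k = x + (k : ZMod n) then 1 else 0) : ℝ)) := by
    simp only [mult, Sum.elim_inl]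
    push_cast
    refine sum_congr rfl fun k _ => ?_
    simp only [sub_eq_iff_eq_add]
  rw [h, sum_mul]
  refine sum_congr rfl fun k _ => ?_
  rw [add_mul, ite_mul, ite_mul, one_mul, zero_mul]

/-- estimate for one block -/
lemma block [NeZero n] (hCond : StCond) {Q : ℕ} (hQ : 10 ^ 5 ≤ Q) (U : ℕ → ZMod n)
    (E' : Finset (Elt n)) (βJ : ℕ → ℝ) (β : Elt n → ℝ) (hb : ∀ y, |β y| ≤ 200 / (Q : ℝ)) (j : ℕ)
    (hm : ∀ k ∈ Ioo (j * Q) ((j + 1) * Q), (∑ x, pa Q U E' k x) = 1 ∧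
      (∀ x, 0 ≤ pa Q U E' k x ∧ pa Q U E' k x ≤ 2 / n) ∧
      |∑ x, pa Q U E' k x * hh β k x| ≤ 1600 / (Q : ℝ) ^ 2 ∧
      ∀ z : ZMod n, |∑ x, pa Q U E' k x * β (Sum.inr (cl (x - z)))| ≤ 1600 / (Q : ℝ) ^ 2)
    (x : ZMod n) :
    |Ex Q U E' j (fun f => (mult n Q j f (Sum.inl x) : ℝ) * Sb Q βJ β j f) -
      (Nx Q U E' j x * (βJ j + Ex Q U E' j (Sb Q (fun _ => 0) β j)) +
        Nx Q U E' j x * β (Sum.inl x) +
        ∑ k ∈ Ioo (j * Q) ((j + 1) * Q),
          (pa Q U E' k x * β (Sum.inl (x - (k : ZMod n))) +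
            pa Q U E' k (x + (k : ZMod n)) * β (Sum.inl (x + (k : ZMod n)))))| ≤
      5 * (1600 / (Q : ℝ) ^ 2) * Nx Q U E' j x + 8 / n * (200 / (Q : ℝ)) := by
  have hQ' : (10 : ℝ) ^ 5 ≤ (Q : ℝ) := by exact_mod_cast hQ
  have hQ0 : (0 : ℝ) < (Q : ℝ) := by linarith
  have hn0 : (0 : ℝ) < (n : ℝ) := by exact_mod_cast Nat.pos_of_ne_zero (NeZero.ne n)
  set T : ℝ := Ex Q U E' j (Sb Q (fun _ => 0) β j) with hT
  have hC := (hCond n Q U E' j βJ β (1600 / (Q : ℝ) ^ 2) (200 / (Q : ℝ)) (by omega)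
    (fun k hk => (hm k hk).1) (fun k hk => (hm k hk).2.2.1) (fun k hk => (hm k hk).2.2.2) hb).1
  have e1 : Ex Q U E' j (fun f => (mult n Q j f (Sum.inl x) : ℝ) * Sb Q βJ β j f) =
      ∑ k ∈ Ioo (j * Q) ((j + 1) * Q),
        (Ex Q U E' j (fun f => if f k = x then Sb Q βJ β j f else 0) +
          Ex Q U E' j (fun f => if f k = x + (k : ZMod n) then Sb Q βJ β j f else 0)) := by
    simp only [mult_mul]
    rw [Ex_sum]
    exact sum_congr rfl fun k _ => Ex_add _ _ _ _ _ _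
  have e2 : Nx Q U E' j x * (βJ j + T) + Nx Q U E' j x * β (Sum.inl x) +
        ∑ k ∈ Ioo (j * Q) ((j + 1) * Q),
          (pa Q U E' k x * β (Sum.inl (x - (k : ZMod n))) +
            pa Q U E' k (x + (k : ZMod n)) * β (Sum.inl (x + (k : ZMod n)))) =
      ∑ k ∈ Ioo (j * Q) ((j + 1) * Q),
        (pa Q U E' k x * (βJ j + T + hh β k x) +
          pa Q U E' k (x + (k : ZMod n)) * (βJ j + T + hh β k (x + (k : ZMod n)))) := by
    unfold Nx hh
    rw [sum_mul, sum_mul, ← sum_add_distrib, ← sum_add_distrib]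
    refine sum_congr rfl fun k _ => ?_
    rw [add_sub_cancel_right]
    ring
  rw [e1, e2, ← sum_sub_distrib]
  refine (abs_sum_le_sum_abs _ _).trans ?_
  have e3 : ∀ k ∈ Ioo (j * Q) ((j + 1) * Q),
      |Ex Q U E' j (fun f => if f k = x then Sb Q βJ β j f else 0) +
          Ex Q U E' j (fun f => if f k = x + (k : ZMod n) then Sb Q βJ β j f else 0) -
        (pa Q U E' k x * (βJ j + T + hh β k x) +
          pa Q U E' k (x + (k : ZMod n)) * (βJ j + T + hh β k (x + (k : ZMod n))))| ≤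
      5 * (1600 / (Q : ℝ) ^ 2) * (pa Q U E' k x + pa Q U E' k (x + (k : ZMod n))) +
        ((if k = j * Q + 1 then 4 / n * (200 / (Q : ℝ)) else 0) +
          (if k = (j + 1) * Q - 1 then 4 / n * (200 / (Q : ℝ)) else 0)) := by
    intro k hk
    have a1 := hC k hk x
    have a2 := hC k hk (x + (k : ZMod n))
    rw [← hT] at a1 a2
    have p1 := (hm k hk).2.1 x
    have p2 := (hm k hk).2.1 (x + (k : ZMod n))
    set P : ℝ := if k = j * Q + 1 ∨ k + 1 = (j + 1) * Q then 200 / (Q : ℝ) else 0 with hP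
    have hb0 : (0 : ℝ) ≤ 200 / (Q : ℝ) := by positivity
    have hc0 : (0 : ℝ) ≤ 4 / n * (200 / (Q : ℝ)) := by positivity
    have hPle : 4 / n * P ≤ (if k = j * Q + 1 then 4 / n * (200 / (Q : ℝ)) else 0) +
          (if k = (j + 1) * Q - 1 then 4 / n * (200 / (Q : ℝ)) else 0) := by
      rw [hP]
      by_cases c1 : k = j * Q + 1
      · have h0 : (0 : ℝ) ≤ (if k = (j + 1) * Q - 1 then 4 / n * (200 / (Q : ℝ)) else 0) := by
          by_cases c3 : k = (j + 1) * Q - 1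
          · rw [if_pos c3]; exact hc0
          · rw [if_neg c3]
        rw [if_pos (Or.inl c1), if_pos c1]
        linarith
      · by_cases c2 : k + 1 = (j + 1) * Q
        · rw [if_pos (Or.inr c2), if_neg c1, if_pos (by omega)]
          linarith
        · rw [if_neg (by tauto), mul_zero]
          have h1 : (0 : ℝ) ≤ (if k = j * Q + 1 then 4 / n * (200 / (Q : ℝ)) else 0) := by
            rw [if_neg c1]
          have h2 : (0 : ℝ) ≤ (if k = (j + 1) * Q - 1 then 4 / n * (200 / (Q : ℝ)) else 0) := by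
            by_cases c3 : k = (j + 1) * Q - 1
            · rw [if_pos c3]; exact hc0
            · rw [if_neg c3]
          linarith
    have hP0 : 0 ≤ P := by
      rw [hP]; split_ifs
      · exact hb0
      · exact le_refl _
    have h3 : (pa Q U E' k x + pa Q U E' k (x + (k : ZMod n))) * P ≤ 4 / n * P := by
      apply mul_le_mul_of_nonneg_right _ hP0
      have : (4 : ℝ) / n = 2 / n + 2 / n := by ring
      rw [this]
      exact add_le_add p1.2 p2.2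
    have h4 : |Ex Q U E' j (fun f => if f k = x then Sb Q βJ β j f else 0) +
          Ex Q U E' j (fun f => if f k = x + (k : ZMod n) then Sb Q βJ β j f else 0) -
        (pa Q U E' k x * (βJ j + T + hh β k x) +
          pa Q U E' k (x + (k : ZMod n)) * (βJ j + T + hh β k (x + (k : ZMod n))))| ≤
        pa Q U E' k x * (5 * (1600 / (Q : ℝ) ^ 2) + P) +
          pa Q U E' k (x + (k : ZMod n)) * (5 * (1600 / (Q : ℝ) ^ 2) + P) := by
      have h5 := abs_add_le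
        (Ex Q U E' j (fun f => if f k = x then Sb Q βJ β j f else 0) -
          pa Q U E' k x * (βJ j + T + hh β k x))
        (Ex Q U E' j (fun f => if f k = x + (k : ZMod n) then Sb Q βJ β j f else 0) -
          pa Q U E' k (x + (k : ZMod n)) * (βJ j + T + hh β k (x + (k : ZMod n))))
      refine le_trans (le_of_eq ?_) (h5.trans (add_le_add a1 a2))
      congr 1
      ring
    nlinarith [h4, h3, hPle]
  refine (sum_le_sum e3).trans ?_
  rw [sum_add_distrib, sum_add_distrib, ← mul_sum]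
  have s1 : ∑ k ∈ Ioo (j * Q) ((j + 1) * Q),
      (if k = j * Q + 1 then 4 / n * (200 / (Q : ℝ)) else 0) ≤ 4 / n * (200 / (Q : ℝ)) := by
    rw [sum_ite_eq']
    split_ifs
    · exact le_refl _
    · positivity
  have s2 : ∑ k ∈ Ioo (j * Q) ((j + 1) * Q),
      (if k = (j + 1) * Q - 1 then 4 / n * (200 / (Q : ℝ)) else 0) ≤ 4 / n * (200 / (Q : ℝ)) := by
    rw [sum_ite_eq']
    split_ifs
    · exact le_refl _
    · positivity
  have s3 : (8 : ℝ) / n * (200 / (Q : ℝ)) = 4 / n * (200 / (Q : ℝ)) + 4 / n * (200 / (Q : ℝ)) := by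
    ring
  rw [s3]
  unfold Nx
  exact add_le_add (le_refl _) (add_le_add s1 s2)

end Pool.Agent.DNA.H2P

namespace Pool.Agent.DNA

open Finset H2P

theorem stH2P : StK1 → StCond → StBad → StMean → StH2P := by
  intro _ hCond hBad hMean n Q _ U J' E' hQ hsub hF βJ β hβ x hx
  have hQ' : (10 : ℝ) ^ 5 ≤ (Q : ℝ) := by exact_mod_cast hQ
  have hQ0 : (0 : ℝ) < (Q : ℝ) := by linarith
  have hn0 : (0 : ℝ) < (n : ℝ) := by exact_mod_cast Nat.pos_of_ne_zero (NeZero.ne n)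
  obtain ⟨m1, _, m3, m4⟩ := hMean n Q U J' E' hQ hsub hF βJ β hβ
  have hB := (hBad n Q U J' E' hQ hsub hF).2 _ hx
  set T : ℕ → ℝ := fun j => Ex Q U E' j (Sb Q (fun _ => 0) β j) with hT
  set cr : ℕ → ℝ := fun j => ∑ k ∈ Ioo (j * Q) ((j + 1) * Q),
          (pa Q U E' k x * β (Sum.inl (x - (k : ZMod n))) +
            pa Q U E' k (x + (k : ZMod n)) * β (Sum.inl (x + (k : ZMod n)))) with hcr
  set N : ℕ → ℝ := fun j => Nx Q U E' j x with hN
  set b : ℝ := β (Sum.inl x) with hb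
  -- one block
  have hblock : ∀ j ∈ J', |Ex Q U E' j (fun f => if Gd Q E' j f then
          (mult n Q j f (Sum.inl x) : ℝ) * Sb Q βJ β j f else 0) -
        (N j * (βJ j + T j) + N j * b + cr j)| ≤
      (5 * (1600 / (Q : ℝ) ^ 2) * N j + 8 / n * (200 / (Q : ℝ))) +
        601 * Ex Q U E' j (fun f => if Gd Q E' j f then 0 else (mult n Q j f (Sum.inl x) : ℝ)) := by
    intro j hj
    have h1 := block hCond hQ U E' βJ β hβ.be j (fun k hk => m1 j hj k hk) x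
    have h2 : |Ex Q U E' j (fun f => if Gd Q E' j f then 0 else
        (mult n Q j f (Sum.inl x) : ℝ) * Sb Q βJ β j f)| ≤
        601 * Ex Q U E' j (fun f => if Gd Q E' j f then 0 else (mult n Q j f (Sum.inl x) : ℝ)) := by
      rw [← Ex_const_mul]
      apply abs_Ex_le
      intro f
      by_cases hg : Gd Q E' j f
      · rw [if_pos hg, if_pos hg]; simp
      · rw [if_neg hg, if_neg hg, abs_mul, Nat.abs_cast, mul_comm]
        exact mul_le_mul_of_nonneg_right (abs_Sb_le hQ βJ β hβ.bj hβ.be j f) (Nat.cast_nonneg _)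
    have h3 : Ex Q U E' j (fun f => if Gd Q E' j f then
          (mult n Q j f (Sum.inl x) : ℝ) * Sb Q βJ β j f else 0) =
        Ex Q U E' j (fun f => (mult n Q j f (Sum.inl x) : ℝ) * Sb Q βJ β j f) -
        Ex Q U E' j (fun f => if Gd Q E' j f then 0 else
          (mult n Q j f (Sum.inl x) : ℝ) * Sb Q βJ β j f) := by
      rw [← Ex_sub]
      congr 1
      funext f
      by_cases hg : Gd Q E' j f
      · rw [if_pos hg, if_pos hg]; simp
      · rw [if_neg hg, if_neg hg]; simp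
    rw [h3]
    have h4 := abs_sub (Ex Q U E' j (fun f => (mult n Q j f (Sum.inl x) : ℝ) * Sb Q βJ β j f) -
        (N j * (βJ j + T j) + N j * b + cr j)) (Ex Q U E' j (fun f => if Gd Q E' j f then 0 else
          (mult n Q j f (Sum.inl x) : ℝ) * Sb Q βJ β j f))
    refine le_trans (le_of_eq ?_) (h4.trans (add_le_add h1 h2))
    congr 1
    ring
  -- degree
  have hdeg := hF.degx x hx
  have hNs : ∑ j ∈ J', N j ≤ 2 := by
    have h := (abs_le.1 hdeg).2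
    have h2 : (50 : ℝ) / (Q : ℝ) ^ 2 ≤ 1 := by
      rw [div_le_one (by positivity)]
      nlinarith
    change (∑ j ∈ J', N j) - 1 ≤ _ at h
    linarith
  obtain ⟨κ, hκ0, hκ1, hκ2⟩ := hF.devx x hx
  have hcross := hF.cross β (200 / (Q : ℝ)) hβ.be hβ.supp hβ.sx x hx
  have hJc : 2 * (Q : ℝ) * (J'.card : ℝ) ≤ n := by exact_mod_cast hF.est.jc
  -- sum of the block estimates
  have hsum : |(∑ j ∈ J', Ex Q U E' j (fun f => if Gd Q E' j f then
          (mult n Q j f (Sum.inl x) : ℝ) * Sb Q βJ β j f else 0)) -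
        ∑ j ∈ J', (N j * (βJ j + T j) + N j * b + cr j)| ≤
      16000 / (Q : ℝ) ^ 2 + 800 / (Q : ℝ) ^ 2 + 601 * (10 / (Q : ℝ) ^ 3) := by
    rw [← sum_sub_distrib]
    refine (abs_sum_le_sum_abs _ _).trans ((sum_le_sum hblock).trans ?_)
    rw [sum_add_distrib, sum_add_distrib, ← mul_sum (s := J') (f := N),
      ← mul_sum (s := J') (a := (601 : ℝ)), sum_const, nsmul_eq_mul]
    have t1 : 5 * (1600 / (Q : ℝ) ^ 2) * ∑ j ∈ J', N j ≤ 16000 / (Q : ℝ) ^ 2 := by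
      calc 5 * (1600 / (Q : ℝ) ^ 2) * ∑ j ∈ J', N j ≤ 5 * (1600 / (Q : ℝ) ^ 2) * 2 := by gcongr
        _ = 16000 / (Q : ℝ) ^ 2 := by ring
    have t2 : (J'.card : ℝ) * (8 / n * (200 / (Q : ℝ))) ≤ 800 / (Q : ℝ) ^ 2 := by
      have h5 : (J'.card : ℝ) / n ≤ 1 / (2 * Q) := by
        rw [div_le_div_iff₀ hn0 (by positivity)]
        linarith
      calc (J'.card : ℝ) * (8 / n * (200 / (Q : ℝ))) = (J'.card : ℝ) / n * (1600 / Q) := by ring
        _ ≤ 1 / (2 * Q) * (1600 / Q) := by gcongr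
        _ = 800 / (Q : ℝ) ^ 2 := by field_simp; norm_num
    have t3 : 601 * ∑ j ∈ J', Ex Q U E' j
        (fun f => if Gd Q E' j f then 0 else (mult n Q j f (Sum.inl x) : ℝ)) ≤
        601 * (10 / (Q : ℝ) ^ 3) := by gcongr
    linarith
  -- the main term
  have hmain : |(∑ j ∈ J', (N j * (βJ j + T j) + N j * b + cr j)) - b| ≤
      150000 / (Q : ℝ) ^ 2 + 27 / (8 * (Q : ℝ)) + 200 / (Q : ℝ) * (50 / (Q : ℝ) ^ 2) +
        3 * (200 / (Q : ℝ)) / Q := by
    have e1 : (∑ j ∈ J', (N j * (βJ j + T j) + N j * b + cr j)) - b =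
        κ * (∑ j ∈ J', T j) + (∑ j ∈ J', (N j - κ) * (βJ j + T j)) +
          b * ((∑ j ∈ J', N j) - 1) + ∑ j ∈ J', cr j := by
      have e2 : κ * (∑ j ∈ J', T j) = κ * ∑ j ∈ J', (βJ j + T j) := by
        rw [sum_add_distrib, hβ.sj, zero_add]
      rw [e2, sum_add_distrib, sum_add_distrib, mul_sum, mul_sub, mul_sum, mul_one]
      have e3 : ∑ j ∈ J', N j * (βJ j + T j) =
          ∑ j ∈ J', κ * (βJ j + T j) + ∑ j ∈ J', (N j - κ) * (βJ j + T j) := by
        rw [← sum_add_distrib]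
        exact sum_congr rfl fun j _ => by ring
      have e4 : ∑ j ∈ J', N j * b = ∑ j ∈ J', b * N j := sum_congr rfl fun j _ => by ring
      rw [e3, e4]
      ring
    rw [e1]
    have u1 : |κ * (∑ j ∈ J', T j)| ≤ 150000 / (Q : ℝ) ^ 2 := by
      rw [abs_mul, abs_of_nonneg hκ0]
      calc κ * |∑ j ∈ J', T j| ≤ (3 * Q / n) * (50000 * n / (Q : ℝ) ^ 3) := by
            apply mul_le_mul hκ1 m4 (abs_nonneg _) (by positivity)
        _ = 150000 / (Q : ℝ) ^ 2 := by field_simp; norm_num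
    have u2 : |∑ j ∈ J', (N j - κ) * (βJ j + T j)| ≤ 27 / (8 * (Q : ℝ)) := by
      refine (abs_sum_le_sum_abs _ _).trans ?_
      have h6 : ∀ j ∈ J', |(N j - κ) * (βJ j + T j)| ≤ |N j - κ| * (9 / 8) := by
        intro j hj
        rw [abs_mul]
        apply mul_le_mul_of_nonneg_left _ (abs_nonneg _)
        have h7 := abs_add_le (βJ j) (T j)
        have h8 := hβ.bj j
        have h9 := m3 j hj
        change |T j| ≤ _ at h9
        linarith
      refine (sum_le_sum h6).trans ?_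
      rw [← sum_mul]
      calc (∑ j ∈ J', |N j - κ|) * (9 / 8) ≤ 3 / Q * (9 / 8) := by gcongr
        _ = 27 / (8 * (Q : ℝ)) := by field_simp; norm_num
    have u3 : |b * ((∑ j ∈ J', N j) - 1)| ≤ 200 / (Q : ℝ) * (50 / (Q : ℝ) ^ 2) := by
      rw [abs_mul]
      exact mul_le_mul (hβ.be _) hdeg (abs_nonneg _) (by positivity)
    have u4 : |∑ j ∈ J', cr j| ≤ 3 * (200 / (Q : ℝ)) / Q := hcross
    have v1 := abs_add_le (κ * (∑ j ∈ J', T j) + (∑ j ∈ J', (N j - κ) * (βJ j + T j)) +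
          b * ((∑ j ∈ J', N j) - 1)) (∑ j ∈ J', cr j)
    have v2 := abs_add_le (κ * (∑ j ∈ J', T j) + (∑ j ∈ J', (N j - κ) * (βJ j + T j)))
          (b * ((∑ j ∈ J', N j) - 1))
    have v3 := abs_add_le (κ * (∑ j ∈ J', T j)) (∑ j ∈ J', (N j - κ) * (βJ j + T j))
    linarith
  have hfin : 16000 / (Q : ℝ) ^ 2 + 800 / (Q : ℝ) ^ 2 + 601 * (10 / (Q : ℝ) ^ 3) +
      (150000 / (Q : ℝ) ^ 2 + 27 / (8 * (Q : ℝ)) + 200 / (Q : ℝ) * (50 / (Q : ℝ) ^ 2) +
        3 * (200 / (Q : ℝ)) / Q) ≤ 50 / Q := by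
    have e : 16000 / (Q : ℝ) ^ 2 + 800 / (Q : ℝ) ^ 2 + 601 * (10 / (Q : ℝ) ^ 3) +
      (150000 / (Q : ℝ) ^ 2 + 27 / (8 * (Q : ℝ)) + 200 / (Q : ℝ) * (50 / (Q : ℝ) ^ 2) +
        3 * (200 / (Q : ℝ)) / Q) = (167400 * Q + 27 / 8 * Q ^ 2 + 16010) / (Q : ℝ) ^ 3 := by
      field_simp
      ring
    rw [e, div_le_div_iff₀ (by positivity) hQ0]
    have h1 : (10 : ℝ) ^ 5 * Q ≤ Q * Q := by nlinarith
    nlinarith [mul_pos hQ0 hQ0, mul_pos (mul_pos hQ0 hQ0) hQ0,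
      mul_le_mul_of_nonneg_left h1 hQ0.le]
  have hfinal := abs_add_le ((∑ j ∈ J', Ex Q U E' j (fun f => if Gd Q E' j f then
          (mult n Q j f (Sum.inl x) : ℝ) * Sb Q βJ β j f else 0)) -
        ∑ j ∈ J', (N j * (βJ j + T j) + N j * b + cr j))
      ((∑ j ∈ J', (N j * (βJ j + T j) + N j * b + cr j)) - b)
  have e5 : ((∑ j ∈ J', Ex Q U E' j (fun f => if Gd Q E' j f then
          (mult n Q j f (Sum.inl x) : ℝ) * Sb Q βJ β j f else 0)) -
        ∑ j ∈ J', (N j * (βJ j + T j) + N j * b + cr j)) +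
      ((∑ j ∈ J', (N j * (βJ j + T j) + N j * b + cr j)) - b) =
      (∑ j ∈ J', Ex Q U E' j (fun f => if Gd Q E' j f then
          (mult n Q j f (Sum.inl x) : ℝ) * Sb Q βJ β j f else 0)) - b := by ring
  rw [e5] at hfinal
  linarith

end Pool.Agent.DNA
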