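import Pool.Agent.Lib.MP_845d9b_co.Abs.FpmStmts

/-!
# Module F3a (helper93): the update formula for the product weight
-/

set_option autoImplicit false

namespace Pool.Agent.DNA

open Finset

theorem ext_at {n Q : ℕ} (U : ℕ → ZMod n) (j : ℕ) (m : Fin (Q - 1) → ZMod n) (i : Fin (Q - 1)) :
    ext n Q U j m (j * Q + 1 + (i : ℕ)) = m i := by
  unfold ext
  have h : j * Q < j * Q + 1 + (i : ℕ) ∧ j * Q + 1 + (i : ℕ) - (j * Q + 1) < Q - 1 := by
    have := i.2
    omega
  rw [dif_pos h]
  congr 1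
  apply Fin.ext
  simp

theorem ext_update {n Q : ℕ} (U : ℕ → ZMod n) (j : ℕ) (m : Fin (Q - 1) → ZMod n)
    (i : Fin (Q - 1)) (x : ZMod n) :
    ext n Q U j (Function.update m i x) =
      Function.update (ext n Q U j m) (j * Q + 1 + (i : ℕ)) x := by
  funext k
  by_cases hk : k = j * Q + 1 + (i : ℕ)
  · subst hk
    rw [Function.update_self, ext_at, Function.update_self]
  · rw [Function.update_of_ne hk]
    unfold ext
    by_cases h : j * Q < k ∧ k - (j * Q + 1) < Q - 1
    · rw [dif_pos h, dif_pos h, Function.update_of_ne]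
      intro h0
      apply hk
      have h1 := congrArg Fin.val h0
      simp only at h1
      omega
    · rw [dif_neg h, dif_neg h]

/-- module F3a -/
theorem stK1 : StK1 := by
  intro n Q _ U E' j k hk hsum F x
  rw [Finset.mem_Ioo, Nat.add_one_mul] at hk
  obtain ⟨i, rfl⟩ : ∃ i : Fin (Q - 1), k = j * Q + 1 + (i : ℕ) :=
    ⟨⟨k - (j * Q + 1), by omega⟩, by simp only; omega⟩
  set W : ({i' : Fin (Q - 1) // i' ≠ i} → ZMod n) → ℝ := fun g =>
    ∏ i' : {i' : Fin (Q - 1) // i' ≠ i}, pa Q U E' (j * Q + 1 + ((i' : Fin (Q - 1)) : ℕ)) (g i')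
    with hW
  set e := (Equiv.funSplitAt i (ZMod n)).symm with he
  have e1 : ∀ y g, e (y, g) i = y := by
    intro y g
    rw [he]
    simp [Equiv.funSplitAt, Equiv.piSplitAt]
  have e2 : ∀ y g (i' : {i' : Fin (Q - 1) // i' ≠ i}), e (y, g) i' = g i' := by
    intro y g i'
    rw [he]
    simp [Equiv.funSplitAt, Equiv.piSplitAt, i'.2]
  have e3 : ∀ y g, Function.update (e (y, g)) i x = e (x, g) := by
    intro y g
    funext i'
    by_cases h : i' = i
    · subst h
      rw [Function.update_self, e1]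
    · rw [Function.update_of_ne h]
      exact (e2 y g ⟨i', h⟩).trans (e2 x g ⟨i', h⟩).symm
  have hpr : ∀ y g, pr Q U E' j (e (y, g)) = pa Q U E' (j * Q + 1 + (i : ℕ)) y * W g := by
    intro y g
    unfold pr
    rw [Fintype.prod_eq_mul_prod_subtype_ne _ i, e1, hW]
    congr 1
    exact Finset.prod_congr rfl fun i' _ => by rw [e2]
  have hsplit : ∀ G : (Fin (Q - 1) → ZMod n) → ℝ,
      ∑ m, G m = ∑ y, ∑ g, G (e (y, g)) := by
    intro G
    rw [← Fintype.sum_prod_type']
    exact (Equiv.sum_comp e G).symm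
  have hL : Ex Q U E' j (fun f => if f (j * Q + 1 + (i : ℕ)) = x then F f else 0) =
      pa Q U E' (j * Q + 1 + (i : ℕ)) x * ∑ g, W g * F (ext n Q U j (e (x, g))) := by
    unfold Ex
    rw [hsplit, Finset.sum_eq_single x]
    · rw [Finset.mul_sum]
      refine Finset.sum_congr rfl fun g _ => ?_
      beta_reduce
      rw [ext_at, e1, if_pos rfl, hpr, mul_assoc]
    · intro y _ hy
      refine Finset.sum_eq_zero fun g _ => ?_
      beta_reduce
      rw [ext_at, e1, if_neg hy, mul_zero]
    · intro h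
      exact absurd (Finset.mem_univ x) h
  have hR : Ex Q U E' j (fun f => F (Function.update f (j * Q + 1 + (i : ℕ)) x)) =
      ∑ g, W g * F (ext n Q U j (e (x, g))) := by
    unfold Ex
    rw [hsplit]
    have : ∀ y : ZMod n, ∑ g, pr Q U E' j (e (y, g)) *
        F (Function.update (ext n Q U j (e (y, g))) (j * Q + 1 + (i : ℕ)) x) =
        pa Q U E' (j * Q + 1 + (i : ℕ)) y * ∑ g, W g * F (ext n Q U j (e (x, g))) := by
      intro y
      rw [Finset.mul_sum]
      refine Finset.sum_congr rfl fun g _ => ?_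
      rw [← ext_update, e3, hpr, mul_assoc]
    rw [Finset.sum_congr rfl fun y _ => this y, ← Finset.sum_mul, hsum, one_mul]
  rw [hL, hR]

end Pool.Agent.DNA
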