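import Pool.Agent.Lib.MP_845d9b_co.Abs.ExCalc

/-!
# Mean zero estimates, module F5a (helper3)
-/

set_option autoImplicit false

namespace Pool.Agent.DNA

open Finset ExCalc

namespace Mean

variable {n : ℕ}

theorem sub_sum [NeZero n] (g : ZMod n → ℝ) (S T : Finset (ZMod n)) (b : ℝ)
    (hb : ∀ x, |g x| ≤ b) (h0 : ∑ x, g x = 0) (hT : ∀ x, x ∉ S → x ∉ T → g x = 0) :
    |∑ x ∈ S, g x| ≤ T.card * b := by
  have hb0 : 0 ≤ b := (abs_nonneg _).trans (hb 0)
  have h1 : ∑ x ∈ S, g x = - ∑ x ∈ Sᶜ, g x := by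
    have := Finset.sum_add_sum_compl S g
    linarith
  have h2 : ∑ x ∈ Sᶜ, g x = ∑ x ∈ Sᶜ ∩ T, g x := by
    symm
    apply Finset.sum_subset inter_subset_left
    intro x hx hx'
    rw [mem_compl] at hx
    exact hT x hx fun h => hx' (mem_inter.2 ⟨mem_compl.2 hx, h⟩)
  rw [h1, abs_neg, h2]
  calc |∑ x ∈ Sᶜ ∩ T, g x| ≤ ∑ x ∈ Sᶜ ∩ T, |g x| := Finset.abs_sum_le_sum_abs _ _
    _ ≤ ∑ x ∈ Sᶜ ∩ T, b := Finset.sum_le_sum fun x _ => hb x
    _ = ((Sᶜ ∩ T).card : ℝ) * b := by simp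
    _ ≤ T.card * b := by
      gcongr
      exact inter_subset_right

theorem card_shift (D : Finset (ZMod n)) (s : ZMod n) : (D.image (· + s)).card = D.card :=
  Finset.card_image_of_injective _ (add_left_injective s)

theorem shift_sum [NeZero n] {m : ℕ} (sh : Fin m → ZMod n) (D : Finset (ZMod n))
    (β : ZMod n → ℝ) (b : ℝ) (hb : ∀ x, |β x| ≤ b) (h0 : ∑ x, β x = 0)
    (hD : ∀ x ∈ D, β x = 0) (i : Fin m) :
    |∑ x ∈ univ.filter (fun x => ∀ i, x + sh i ∉ D), β (x + sh i)| ≤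
      ((m - 1 : ℕ) : ℝ) * D.card * b := by
  have hb0 : 0 ≤ b := (abs_nonneg _).trans (hb 0)
  refine (sub_sum (fun x => β (x + sh i)) _
    ((univ.erase i).biUnion fun i' => D.image (· + -sh i')) b (fun x => hb _) ?_ ?_).trans ?_
  · rw [← h0]
    exact Equiv.sum_comp (Equiv.addRight (sh i)) β
  · intro x hx hx'
    rw [mem_filter] at hx
    push Not at hx
    obtain ⟨i', hi'⟩ := hx (mem_univ _)
    by_cases he : i' = i
    · subst he
      exact hD _ hi'
    · exfalso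
      apply hx'
      rw [mem_biUnion]
      exact ⟨i', mem_erase.2 ⟨he, mem_univ _⟩, mem_image.2 ⟨_, hi', by ring⟩⟩
  · gcongr
    have h1 : ((univ.erase i).biUnion fun i' => D.image (· + -sh i')).card ≤
        (m - 1) * D.card := by
      refine Finset.card_biUnion_le.trans ?_
      rw [Finset.sum_congr rfl fun i' _ => card_shift D (-sh i')]
      simp
    exact_mod_cast h1

variable {Q : ℕ} {U : ℕ → ZMod n} {J' : Finset ℕ} {E' : Finset (Elt n)}

theorem free_time {j k : ℕ} (hJ : J' ⊆ Blocks n Q) (hj : j ∈ J')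
    (hk : k ∈ Ioo (j * Q) ((j + 1) * Q)) : k ∈ Icc 1 (T1 n) ∧ ¬ Q ∣ k := by
  have hb := hJ hj
  unfold Blocks at hb
  rw [mem_Ico] at hb
  rw [mem_Ioo] at hk
  refine ⟨mem_Icc.2 ⟨by omega, ?_⟩, ?_⟩
  · have h1 : (j + 1) * Q ≤ J1 n Q * Q := Nat.mul_le_mul_right _ hb.2
    have h2 : J1 n Q * Q ≤ T1 n := Nat.div_mul_le_self _ _
    omega
  · rintro ⟨c, rfl⟩
    rw [mul_comm Q c] at hk
    have h1 := lt_of_mul_lt_mul_right hk.1 (Nat.zero_le _)
    have h2 := lt_of_mul_lt_mul_right hk.2 (Nat.zero_le _)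
    omega

theorem pa_free [NeZero n] {k : ℕ} (hk : ¬ Q ∣ k) (x : ZMod n) :
    pa Q U E' k x = if x ∈ Mk E' k then 1 / ((Mk E' k).card : ℝ) else 0 := by
  unfold pa
  rw [if_neg hk]

theorem sum_pa_free [NeZero n] {k : ℕ} (hk : ¬ Q ∣ k) (g : ZMod n → ℝ) :
    ∑ x, pa Q U E' k x * g x = 1 / ((Mk E' k).card : ℝ) * ∑ x ∈ Mk E' k, g x := by
  simp only [pa_free hk, ite_mul, zero_mul, Finset.mul_sum]
  rw [← Finset.sum_filter]
  simp

theorem mem_Dt [NeZero n] (x : ZMod n) : x ∈ Dt E' ↔ Sum.inl x ∉ E' := by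
  unfold Dt
  simp

theorem not_mem_Dt [NeZero n] (x : ZMod n) : x ∉ Dt E' ↔ Sum.inl x ∈ E' := by
  rw [mem_Dt, not_not]

theorem Mk_eq [NeZero n] (k : ℕ) : Mk E' k =
    univ.filter (fun x => ∀ i, x + (![0, -(k : ZMod n)] : Fin 2 → ZMod n) i ∉ Dt E') := by
  unfold Mk
  ext x
  simp [Fin.forall_fin_two, mem_Dt, sub_eq_add_neg]

theorem clOk_symm {w : ZMod n} (h : ClOk w) : ClOk (1 - w) := by
  obtain ⟨h1, h2, h3⟩ := h
  refine ⟨fun h => h2 ?_, fun h => h1 ?_, fun h => h3 ?_⟩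
  · linear_combination -h
  · linear_combination -h
  · linear_combination -h

theorem cl_eq (w v : ZMod n) : cl w = cl v ↔ w = v ∨ w = 1 - v := by
  unfold cl
  rw [Sym2.eq_iff]
  constructor
  · rintro (⟨h, -⟩ | ⟨h, -⟩)
    · exact Or.inl h
    · exact Or.inr h
  · rintro (h | h)
    · exact Or.inl ⟨h, by rw [h]⟩
    · exact Or.inr ⟨h, by rw [h]; ring⟩

theorem cl_symm (w : ZMod n) : cl (1 - w) = cl w := (cl_eq _ _).2 (Or.inr rfl)

theorem clOk_of_mem [NeZero n] (hE : E' ⊆ All n) {w : ZMod n} (h : Sum.inr (cl w) ∈ E') :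
    ClOk w := by
  have := hE h
  unfold All at this
  rw [mem_union, mem_image, mem_image] at this
  rcases this with ⟨x, -, hx⟩ | ⟨v, hv, hx⟩
  · cases hx
  · rw [mem_filter] at hv
    have h1 : cl w = cl v := (Sum.inr_injective hx).symm
    rcases (cl_eq _ _).1 h1 with h2 | h2
    · rw [h2]; exact hv.2
    · rw [h2]; exact clOk_symm hv.2

theorem sum_pe [NeZero n] (k : ℕ) (G : ZMod n → ℝ) :
    ∑ w, pe Q U E' k w * G w =
      ∑ x, pa Q U E' k x * ∑ y, pa Q U E' (k + 1) y * G (y - x) := by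
  unfold pe
  simp only [Finset.sum_mul]
  rw [Finset.sum_comm (f := fun w x => pa Q U E' k x * pa Q U E' (k + 1) (x + w) * G w)]
  refine Finset.sum_congr rfl fun x _ => ?_
  rw [Finset.mul_sum]
  refine Eq.trans ?_ (Equiv.sum_comp (Equiv.addLeft x)
    (fun y => pa Q U E' k x * (pa Q U E' (k + 1) y * G (y - x))))
  refine Finset.sum_congr rfl fun w _ => ?_
  simp [mul_assoc]

/-- total weight of the points in block `j` -/
theorem sum_hh [NeZero n] (β : Elt n → ℝ) (j : ℕ) :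
    ∑ k ∈ Ioo (j * Q) ((j + 1) * Q), ∑ x, pa Q U E' k x * hh β k x =
      ∑ x : ZMod n, β (Sum.inl x) * Nx Q U E' j x := by
  unfold Nx hh
  simp only [Finset.mul_sum]
  rw [Finset.sum_comm (s := (univ : Finset (ZMod n)))]
  refine Finset.sum_congr rfl fun k _ => ?_
  simp only [mul_add, Finset.sum_add_distrib]
  congr 1
  · exact Finset.sum_congr rfl fun x _ => mul_comm _ _
  · refine (Equiv.sum_comp (Equiv.addRight (k : ZMod n))
      (fun x => pa Q U E' k x * β (Sum.inl (x - (k : ZMod n))))).symm.trans ?_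
    refine Finset.sum_congr rfl fun x _ => ?_
    simp [mul_comm]

/-- total weight of the classes in block `j` -/
theorem sum_cl [NeZero n] (β : Elt n → ℝ) (j : ℕ) :
    ∑ k ∈ Ico (j * Q) ((j + 1) * Q), ∑ w, pe Q U E' k w * β (Sum.inr (cl w)) =
      1 / 2 * ∑ w : ZMod n, β (Sum.inr (cl w)) * Nc Q U E' j w := by
  unfold Nc
  have h1 : ∀ k, ∑ w : ZMod n, pe Q U E' k (1 - w) * β (Sum.inr (cl w)) =
      ∑ w, pe Q U E' k w * β (Sum.inr (cl w)) := fun k => by
    refine Eq.trans ?_ (Equiv.sum_comp (Equiv.subLeft (1 : ZMod n))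
      (fun w => pe Q U E' k w * β (Sum.inr (cl w))))
    refine Finset.sum_congr rfl fun w _ => ?_
    simp [cl_symm]
  have h2 : ∑ w : ZMod n, β (Sum.inr (cl w)) *
      ∑ k ∈ Ico (j * Q) ((j + 1) * Q), (pe Q U E' k w + pe Q U E' k (1 - w)) =
      ∑ k ∈ Ico (j * Q) ((j + 1) * Q), 2 * ∑ w, pe Q U E' k w * β (Sum.inr (cl w)) := by
    simp only [Finset.mul_sum]
    rw [Finset.sum_comm]
    refine Finset.sum_congr rfl fun k _ => ?_
    rw [← Finset.mul_sum, two_mul]
    refine Eq.trans ?_ (congrArg (fun t => ∑ w, pe Q U E' k w * β (Sum.inr (cl w)) + t) (h1 k))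
    rw [← Finset.sum_add_distrib]
    exact Finset.sum_congr rfl fun w _ => by ring
  rw [h2, ← Finset.mul_sum]
  ring

theorem Ex_Sb [NeZero n] (hK : StK1) {j : ℕ}
    (h : ∀ k ∈ Ioo (j * Q) ((j + 1) * Q), (∑ x, pa Q U E' k x) = 1) (β : Elt n → ℝ) :
    Ex Q U E' j (Sb Q (fun _ => 0) β j) =
      ∑ k ∈ Ioo (j * Q) ((j + 1) * Q), ∑ x, pa Q U E' k x * hh β k x +
      ∑ k ∈ Ico (j * Q) ((j + 1) * Q), ∑ w, pe Q U E' k w * β (Sum.inr (cl w)) := by
  have h1 : Ex Q U E' j (Sb Q (fun _ => 0) β j) =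
      Ex Q U E' j (fun f => (∑ k ∈ Ioo (j * Q) ((j + 1) * Q), hh β k (f k)) +
        ∑ k ∈ Ico (j * Q) ((j + 1) * Q), β (Sum.inr (cl (f (k + 1) - f k)))) :=
    Ex_congr _ _ _ _ fun m => by simp [Sb]
  rw [h1, Ex_add, Ex_sum, Ex_sum]
  congr 1
  · refine Finset.sum_congr rfl fun k hk => ?_
    exact Ex_pt hK h (Ioo_subset_Icc_self hk) (hh β k)
  · refine Finset.sum_congr rfl fun k hk => ?_
    exact Ex_diff hK h hk (fun w => β (Sum.inr (cl w)))

end Mean

open Mean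

theorem stMean (hK : StK1) : StMean := by
  intro n Q _ U J' E' hQ hE hF βJ β hB
  have hn : (0 : ℝ) < n := by
    have := NeZero.pos n
    exact_mod_cast this
  have hQ5 : (10 : ℝ) ^ 5 ≤ Q := by exact_mod_cast hQ
  have hQ0 : (0 : ℝ) < Q := by linarith [show (0 : ℝ) < 10 ^ 5 by norm_num]
  have hQn : 0 < Q := by omega
  have hD : ((Dt E').card : ℝ) ≤ 2 * n / Q := by
    rw [le_div_iff₀ hQ0]
    have := hF.est.dc
    have h : ((Q * (Dt E').card : ℕ) : ℝ) ≤ ((2 * n : ℕ) : ℝ) := by exact_mod_cast this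
    push_cast at h
    linarith
  have hD0 : (0 : ℝ) ≤ ((Dt E').card : ℝ) := Nat.cast_nonneg _
  -- basic facts on the times
  have hM : ∀ k ∈ Icc 1 (T1 n), (n : ℝ) / 2 ≤ ((Mk E' k).card : ℝ) := fun k hk => by
    have := hF.mkc k hk
    have h : (n : ℝ) ≤ ((2 * (Mk E' k).card : ℕ) : ℝ) := by exact_mod_cast this
    push_cast at h
    linarith
  have hMi : ∀ k ∈ Icc 1 (T1 n), 1 / ((Mk E' k).card : ℝ) ≤ 2 / n := fun k hk => by
    have h1 := hM k hk
    rw [div_le_div_iff₀ (by linarith) hn]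
    linarith
  have hMi0 : ∀ k, 0 ≤ 1 / ((Mk E' k).card : ℝ) := fun k => by positivity
  have hbD : ∀ x ∈ Dt E', β (Sum.inl x) = 0 := fun x hx => hB.supp _ ((mem_Dt x).1 hx)
  have hb0 : (0 : ℝ) ≤ 200 / Q := by positivity
  have hsum1 : ∀ k ∈ Icc 1 (T1 n), ¬ Q ∣ k → (∑ x, pa Q U E' k x) = 1 := fun k hk hd => by
    have h1 := sum_pa_free (U := U) (E' := E') hd (fun _ => 1)
    simp only [mul_one, sum_const, nsmul_eq_mul] at h1
    rw [h1]
    have h2 := hM k hk
    have h3 : ((Mk E' k).card : ℝ) ≠ 0 := by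
      have : (0 : ℝ) < ((Mk E' k).card : ℝ) := by linarith
      exact this.ne'
    field_simp
  have hpa2 : ∀ k ∈ Icc 1 (T1 n), ¬ Q ∣ k → ∀ x, pa Q U E' k x ≤ 2 / n := fun k hk hd x => by
    rw [pa_free hd]
    split_ifs
    · exact hMi k hk
    · positivity
  have hscz : ∀ z : ZMod n, (∑ x : ZMod n, β (Sum.inr (cl (x - z)))) = 0 := fun z => by
    rw [← hB.sc]
    exact Equiv.sum_comp (Equiv.subRight z) (fun w => β (Sum.inr (cl w)))
  -- the two first estimates
  have hc : ∀ k ∈ Icc 1 (T1 n), ¬ Q ∣ k →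
      |∑ x, pa Q U E' k x * hh β k x| ≤ 1600 / (Q : ℝ) ^ 2 := fun k hk hd => by
    rw [sum_pa_free hd, abs_mul, abs_of_nonneg (hMi0 k)]
    have h1 := shift_sum (![0, -(k : ZMod n)] : Fin 2 → ZMod n) (Dt E')
      (fun x => β (Sum.inl x)) (200 / Q) (fun x => hB.be _) hB.sx hbD 0
    have h2 := shift_sum (![0, -(k : ZMod n)] : Fin 2 → ZMod n) (Dt E')
      (fun x => β (Sum.inl x)) (200 / Q) (fun x => hB.be _) hB.sx hbD 1
    rw [← Mk_eq] at h1 h2
    simp only [Matrix.cons_val_zero, Matrix.cons_val_one, add_zero, ← sub_eq_add_neg,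
      Nat.add_one_sub_one, Nat.cast_one, one_mul] at h1 h2
    have h3 : ∑ x ∈ Mk E' k, hh β k x = ∑ x ∈ Mk E' k, β (Sum.inl x) +
        ∑ x ∈ Mk E' k, β (Sum.inl (x - (k : ZMod n))) := by
      rw [← Finset.sum_add_distrib]
      rfl
    have h4 : |∑ x ∈ Mk E' k, hh β k x| ≤ 2 * (2 * n / Q * (200 / Q)) := by
      rw [h3]
      refine (abs_add_le _ _).trans ?_
      have h5 : ((Dt E').card : ℝ) * (200 / Q) ≤ 2 * n / Q * (200 / Q) := by gcongr
      linarith
    calc 1 / ((Mk E' k).card : ℝ) * |∑ x ∈ Mk E' k, hh β k x|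
        ≤ 2 / n * (2 * (2 * n / Q * (200 / Q))) :=
          mul_le_mul (hMi k hk) h4 (abs_nonneg _) (by positivity)
      _ = 1600 / (Q : ℝ) ^ 2 := by
          field_simp
          norm_num
  have hd' : ∀ k ∈ Icc 1 (T1 n), ¬ Q ∣ k → ∀ z : ZMod n,
      |∑ x, pa Q U E' k x * β (Sum.inr (cl (x - z)))| ≤ 1600 / (Q : ℝ) ^ 2 := fun k hk hd z => by
    rw [sum_pa_free hd, abs_mul, abs_of_nonneg (hMi0 k)]
    have h1 := sub_sum (fun x => β (Sum.inr (cl (x - z)))) (Mk E' k)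
      (Dt E' ∪ (Dt E').image (· + (k : ZMod n))) (200 / Q) (fun x => hB.be _) (hscz z) (by
        intro x hx hx'
        exfalso
        apply hx
        rw [mem_union, not_or] at hx'
        unfold Mk
        rw [mem_filter]
        refine ⟨mem_univ _, (not_mem_Dt _).1 hx'.1, (not_mem_Dt _).1 fun h => hx'.2 ?_⟩
        exact mem_image.2 ⟨_, h, by ring⟩)
    have h2 : ((Dt E' ∪ (Dt E').image (· + (k : ZMod n))).card : ℝ) ≤ 2 * (2 * n / Q) := by
      have h3 : (Dt E' ∪ (Dt E').image (· + (k : ZMod n))).card ≤ (Dt E').card + (Dt E').card := by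
        refine (Finset.card_union_le _ _).trans ?_
        rw [card_shift]
      have h4 : ((Dt E' ∪ (Dt E').image (· + (k : ZMod n))).card : ℝ) ≤
        (((Dt E').card + (Dt E').card : ℕ) : ℝ) := by exact_mod_cast h3
      push_cast at h4
      linarith
    calc 1 / ((Mk E' k).card : ℝ) * |∑ x ∈ Mk E' k, β (Sum.inr (cl (x - z)))|
        ≤ 2 / n * (2 * (2 * n / Q) * (200 / Q)) :=
          mul_le_mul (hMi k hk) (h1.trans (mul_le_mul_of_nonneg_right h2 hb0)) (abs_nonneg _)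
            (by positivity)
      _ = 1600 / (Q : ℝ) ^ 2 := by
          field_simp
          norm_num
  have hfree : ∀ j ∈ J', ∀ k ∈ Ioo (j * Q) ((j + 1) * Q), k ∈ Icc 1 (T1 n) ∧ ¬ Q ∣ k :=
    fun j hj k hk => free_time hF.est.sub hj hk
  have hone : ∀ j ∈ J', ∀ k ∈ Ioo (j * Q) ((j + 1) * Q), (∑ x, pa Q U E' k x) = 1 :=
    fun j hj k hk => hsum1 k (hfree j hj k hk).1 (hfree j hj k hk).2
  refine ⟨?_, ?_, ?_, ?_⟩
  · intro j hj k hk
    obtain ⟨h1, h2⟩ := hfree j hj k hk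
    exact ⟨hsum1 k h1 h2, fun x => ⟨pa_nonneg _ _ _ _ _, hpa2 k h1 h2 x⟩, hc k h1 h2,
      hd' k h1 h2⟩
  · intro j hj k hk1 hk2 w
    obtain ⟨h1, h2⟩ := hfree j hj k (mem_Ioo.2 ⟨hk1, by omega⟩)
    obtain ⟨h3, h4⟩ := hfree j hj (k + 1) (mem_Ioo.2 ⟨by omega, hk2⟩)
    set sh : Fin 4 → ZMod n := ![0, -(k : ZMod n), w, w - ((k : ZMod n) + 1)] with hsh
    have key : ∀ x, pa Q U E' k x * pa Q U E' (k + 1) (x + w) *
        (hh β k x + hh β (k + 1) (x + w)) =
        if (∀ i, x + sh i ∉ Dt E') then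
          1 / ((Mk E' k).card : ℝ) * (1 / ((Mk E' (k + 1)).card : ℝ)) *
            (β (Sum.inl (x + sh 0)) + β (Sum.inl (x + sh 1)) + β (Sum.inl (x + sh 2)) +
              β (Sum.inl (x + sh 3))) else 0 := by
      intro x
      have e1 : (∀ i, x + sh i ∉ Dt E') ↔ x ∈ Mk E' k ∧ x + w ∈ Mk E' (k + 1) := by
        rw [Fin.forall_fin_succ, Fin.forall_fin_succ, Fin.forall_fin_succ, Fin.forall_fin_succ]
        simp only [hsh, not_mem_Dt, Mk, mem_filter, mem_univ, true_and]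
        simp [sub_eq_add_neg, add_assoc, and_assoc]
      have e2 : hh β k x + hh β (k + 1) (x + w) =
          β (Sum.inl (x + sh 0)) + β (Sum.inl (x + sh 1)) + β (Sum.inl (x + sh 2)) +
              β (Sum.inl (x + sh 3)) := by
        have e3 : x + w - ((k : ZMod n) + 1) = x + (w - ((k : ZMod n) + 1)) := by ring
        simp [hh, hsh, sub_eq_add_neg, add_assoc]
      rw [e2, pa_free h2, pa_free h4]
      by_cases hx : x ∈ Mk E' k
      · by_cases hy : x + w ∈ Mk E' (k + 1)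
        · rw [if_pos hx, if_pos hy, if_pos (e1.2 ⟨hx, hy⟩)]
        · rw [if_neg hy, if_neg fun h => hy (e1.1 h).2]
          ring
      · rw [if_neg hx, if_neg fun h => hx (e1.1 h).1]
        ring
    simp only [key]
    rw [← Finset.sum_filter, ← Finset.mul_sum]
    simp only [Finset.sum_add_distrib]
    have hs := shift_sum sh (Dt E') (fun x => β (Sum.inl x)) (200 / Q) (fun x => hB.be _) hB.sx hbD
    have hs' : ∀ i, |∑ x ∈ univ.filter (fun x => ∀ i, x + sh i ∉ Dt E'),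
        β (Sum.inl (x + sh i))| ≤ 3 * (2 * n / Q) * (200 / Q) := fun i => by
      refine (hs i).trans ?_
      norm_num
      gcongr
    have hs4 : |∑ x ∈ univ.filter (fun x => ∀ i, x + sh i ∉ Dt E'), β (Sum.inl (x + sh 0)) +
        ∑ x ∈ univ.filter (fun x => ∀ i, x + sh i ∉ Dt E'), β (Sum.inl (x + sh 1)) +
        ∑ x ∈ univ.filter (fun x => ∀ i, x + sh i ∉ Dt E'), β (Sum.inl (x + sh 2)) +
        ∑ x ∈ univ.filter (fun x => ∀ i, x + sh i ∉ Dt E'), β (Sum.inl (x + sh 3))| ≤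
        4 * (3 * (2 * n / Q) * (200 / Q)) := by
      have a0 := hs' 0
      have a1 := hs' 1
      have a2 := hs' 2
      have a3 := hs' 3
      rw [abs_le] at a0 a1 a2 a3 ⊢
      constructor <;> linarith [a0.1, a0.2, a1.1, a1.2, a2.1, a2.2, a3.1, a3.2]
    rw [abs_mul, abs_of_nonneg (mul_nonneg (hMi0 _) (hMi0 _))]
    calc _ ≤ (2 : ℝ) / n * (2 / n) * (4 * (3 * (2 * n / Q) * (200 / Q))) :=
          mul_le_mul (mul_le_mul (hMi k h1) (hMi (k + 1) h3) (hMi0 _) (by positivity)) hs4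
            (abs_nonneg _) (by positivity)
      _ = 19200 / (n * (Q : ℝ) ^ 2) := by
          field_simp
          norm_num
      _ ≤ 20000 / (n * (Q : ℝ) ^ 2) := by
          gcongr
          norm_num
  · intro j hj
    rw [Ex_Sb hK (hone j hj)]
    have hA : |∑ k ∈ Ioo (j * Q) ((j + 1) * Q), ∑ x, pa Q U E' k x * hh β k x| ≤
        Q * (1600 / (Q : ℝ) ^ 2) := by
      refine (Finset.abs_sum_le_sum_abs _ _).trans ?_
      refine (Finset.sum_le_card_nsmul _ _ _ fun k hk =>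
        hc k (hfree j hj k hk).1 (hfree j hj k hk).2).trans ?_
      rw [nsmul_eq_mul]
      refine mul_le_mul_of_nonneg_right ?_ (by positivity)
      rw [Nat.card_Ioo]
      have : (j + 1) * Q - j * Q - 1 ≤ Q := by
        have e : (j + 1) * Q = j * Q + Q := by ring
        omega
      exact_mod_cast this
    have hB' : |∑ k ∈ Ico (j * Q) ((j + 1) * Q), ∑ w, pe Q U E' k w * β (Sum.inr (cl w))| ≤
        Q * (1600 / (Q : ℝ) ^ 2) := by
      refine (Finset.abs_sum_le_sum_abs _ _).trans ?_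
      refine (Finset.sum_le_card_nsmul _ _ (1600 / (Q : ℝ) ^ 2) fun k hk => ?_).trans ?_
      · rw [sum_pe]
        rw [mem_Ico] at hk
        have e : (j + 1) * Q = j * Q + Q := by ring
        have hpk : (∑ x, pa Q U E' k x) = 1 := by
          rcases eq_or_lt_of_le hk.1 with h1 | h1
          · rw [← h1]
            exact sum_pa_anchor_one U E' (dvd_mul_left Q j)
          · exact hone j hj k (mem_Ioo.2 ⟨h1, hk.2⟩)
        rcases eq_or_lt_of_le (show k + 1 ≤ (j + 1) * Q by omega) with h1 | h1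
        · -- `k + 1` is an anchor, `k` is free
          obtain ⟨h2, h3⟩ := hfree j hj k (mem_Ioo.2 ⟨by omega, hk.2⟩)
          have h4 : Q ∣ k + 1 := by
            rw [h1]
            exact dvd_mul_left Q (j + 1)
          have h5 : ∀ x : ZMod n, ∑ y, pa Q U E' (k + 1) y * β (Sum.inr (cl (y - x))) =
              β (Sum.inr (cl (x - (U (k + 1) - 1)))) := fun x => by
            rw [sum_pa_anchor U E' h4, ← cl_symm]
            congr 3
            ring
          simp only [h5]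
          exact hd' k h2 h3 _
        · obtain ⟨h2, h3⟩ := hfree j hj (k + 1) (mem_Ioo.2 ⟨by omega, h1⟩)
          refine (Finset.abs_sum_le_sum_abs _ _).trans ?_
          calc ∑ x, |pa Q U E' k x * ∑ y, pa Q U E' (k + 1) y * β (Sum.inr (cl (y - x)))|
              ≤ ∑ x, pa Q U E' k x * (1600 / (Q : ℝ) ^ 2) := by
                refine Finset.sum_le_sum fun x _ => ?_
                rw [abs_mul, abs_of_nonneg (pa_nonneg _ _ _ _ _)]
                exact mul_le_mul_of_nonneg_left (hd' (k + 1) h2 h3 x) (pa_nonneg _ _ _ _ _)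
            _ = 1600 / (Q : ℝ) ^ 2 := by
                rw [← Finset.sum_mul, hpk, one_mul]
      · rw [nsmul_eq_mul]
        refine mul_le_mul_of_nonneg_right ?_ (by positivity)
        rw [Nat.card_Ico]
        have : (j + 1) * Q - j * Q ≤ Q := by
          have e : (j + 1) * Q = j * Q + Q := by ring
          omega
        exact_mod_cast this
    refine (abs_add_le _ _).trans ((add_le_add hA hB').trans ?_)
    have h3 : (Q : ℝ) * (1600 / (Q : ℝ) ^ 2) + Q * (1600 / (Q : ℝ) ^ 2) = 3200 / Q := by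
      field_simp
      norm_num
    rw [h3, div_le_iff₀ hQ0]
    linarith [show (10 : ℝ) ^ 5 = 100000 by norm_num]
  · have hA : ∑ j ∈ J', Ex Q U E' j (Sb Q (fun _ => 0) β j) =
        ∑ x : ZMod n, β (Sum.inl x) * ((∑ j ∈ J', Nx Q U E' j x) - 1) +
        1 / 2 * ∑ w : ZMod n, β (Sum.inr (cl w)) * ((∑ j ∈ J', Nc Q U E' j w) - 1) := by
      simp only [mul_sub, mul_one, Finset.sum_sub_distrib, hB.sx, hB.sc, sub_zero]
      rw [Finset.sum_congr rfl fun j hj => Ex_Sb hK (hone j hj) β]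
      simp only [sum_hh, sum_cl, Finset.sum_add_distrib]
      congr 1
      · rw [Finset.sum_comm]
        exact Finset.sum_congr rfl fun x _ => by rw [Finset.mul_sum]
      · rw [← Finset.mul_sum, Finset.sum_comm]
        congr 1
        exact Finset.sum_congr rfl fun x _ => by rw [Finset.mul_sum]
    rw [hA]
    have h1 : |∑ x : ZMod n, β (Sum.inl x) * ((∑ j ∈ J', Nx Q U E' j x) - 1)| ≤
        n * (200 / Q * (50 / (Q : ℝ) ^ 2)) := by
      refine (Finset.abs_sum_le_sum_abs _ _).trans ?_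
      refine (Finset.sum_le_card_nsmul _ _ (200 / Q * (50 / (Q : ℝ) ^ 2)) fun x _ => ?_).trans ?_
      · by_cases hx : Sum.inl x ∈ E'
        · rw [abs_mul]
          exact mul_le_mul (hB.be _) (hF.degx x hx) (abs_nonneg _) hb0
        · rw [hB.supp _ hx, zero_mul, abs_zero]
          positivity
      · simp
    have h2 : |∑ w : ZMod n, β (Sum.inr (cl w)) * ((∑ j ∈ J', Nc Q U E' j w) - 1)| ≤
        n * (200 / Q * (400 / (Q : ℝ) ^ 2)) := by
      refine (Finset.abs_sum_le_sum_abs _ _).trans ?_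
      refine (Finset.sum_le_card_nsmul _ _ (200 / Q * (400 / (Q : ℝ) ^ 2)) fun w _ => ?_).trans ?_
      · by_cases hx : Sum.inr (cl w) ∈ E'
        · rw [abs_mul]
          exact mul_le_mul (hB.be _) (hF.degc w hx (clOk_of_mem hE hx)) (abs_nonneg _) hb0
        · rw [hB.supp _ hx, zero_mul, abs_zero]
          positivity
      · simp
    refine (abs_add_le _ _).trans ?_
    rw [abs_mul, abs_of_pos (show (0 : ℝ) < 1 / 2 by norm_num)]
    have h3 : (n : ℝ) * (200 / Q * (50 / (Q : ℝ) ^ 2)) +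
        1 / 2 * (n * (200 / Q * (400 / (Q : ℝ) ^ 2))) = 50000 * n / (Q : ℝ) ^ 3 := by
      field_simp
      norm_num
    linarith

end Pool.Agent.DNA
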