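import Pool.Agent.Lib.MP_845d9b_co.Abs.Stmts

/-!
# Module NE: nearly perfect packing of the blocks

`stNear : StFPM → StCount → Nibble.StNibble → StNear`.
-/

set_option autoImplicit false

namespace Pool.Agent.DNA

open Finset

namespace NearAux

variable {n : ℕ}

lemma mem_foot {Q j : ℕ} {f : ℕ → ZMod n} {y : Elt n} :
    y ∈ foot n Q j f ↔ mult n Q j f y ≠ 0 := by
  rcases y with x | c
  · simp only [foot, mult, Sum.elim_inl, mem_union, mem_biUnion, mem_image, mem_insert,
      mem_singleton, Sum.inl.injEq, reduceCtorEq, and_false, exists_false, or_false, ne_eq,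
      Finset.sum_eq_zero_iff, not_forall]
    constructor
    · rintro ⟨k, hk, h | h⟩
      · exact ⟨k, hk, by rw [if_pos h.symm]; omega⟩
      · exact ⟨k, hk, by rw [if_pos h.symm]; omega⟩
    · rintro ⟨k, hk, h⟩
      refine ⟨k, hk, ?_⟩
      by_contra hcon
      push Not at hcon
      apply h
      rw [if_neg (fun h' => hcon.1 h'.symm), if_neg (fun h' => hcon.2 h'.symm)]
      rfl
  · simp only [foot, mult, Sum.elim_inr, mem_union, mem_biUnion, mem_image, mem_insert,
      mem_singleton, Sum.inr.injEq, reduceCtorEq, or_false, and_false, exists_false, false_or,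
      ne_eq, Finset.sum_eq_zero_iff, not_forall]
    constructor
    · rintro ⟨k, hk, h⟩
      exact ⟨k, hk, by rw [if_pos h]; omega⟩
    · rintro ⟨k, hk, h⟩
      refine ⟨k, hk, ?_⟩
      by_contra hcon
      exact h (if_neg hcon)

lemma card_io (Q j : ℕ) : (Ioo (j * Q) ((j + 1) * Q)).card = Q - 1 := by
  rw [Nat.card_Ioo, Nat.add_mul, Nat.one_mul]
  omega

lemma card_ic (Q j : ℕ) : (Ico (j * Q) ((j + 1) * Q)).card = Q := by
  rw [Nat.card_Ico, Nat.add_mul, Nat.one_mul]
  omega

lemma sum_mult [NeZero n] {Q : ℕ} (hQ : 1 ≤ Q) (j : ℕ) (f : ℕ → ZMod n) :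
    ∑ y : Elt n, mult n Q j f y = 3 * Q - 2 := by
  rw [Fintype.sum_sum_type]
  simp only [mult, Sum.elim_inl, Sum.elim_inr]
  rw [Finset.sum_comm, Finset.sum_comm (s := (univ : Finset (Sym2 (ZMod n))))]
  simp only [Finset.sum_add_distrib, Finset.sum_ite_eq, mem_univ, if_true, Finset.sum_const,
    smul_eq_mul, mul_one, card_io, card_ic]
  omega

lemma mult_le {Q : ℕ} (j : ℕ) (f : ℕ → ZMod n) (y : Elt n) : mult n Q j f y ≤ 2 * Q := by
  rcases y with x | c
  · simp only [mult, Sum.elim_inl]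
    calc _ ≤ ∑ _k ∈ Ioo (j * Q) ((j + 1) * Q), 2 := by
            refine Finset.sum_le_sum fun k _ => ?_
            split_ifs <;> omega
      _ = (Q - 1) * 2 := by rw [Finset.sum_const, card_io, smul_eq_mul]
      _ ≤ 2 * Q := by omega
  · simp only [mult, Sum.elim_inr]
    calc _ ≤ ∑ _k ∈ Ico (j * Q) ((j + 1) * Q), 1 := by
            refine Finset.sum_le_sum fun k _ => ?_
            split_ifs <;> omega
      _ = Q := by rw [Finset.sum_const, card_ic, smul_eq_mul, mul_one]
      _ ≤ 2 * Q := by omega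

lemma ext_left {Q j : ℕ} (U : ℕ → ZMod n) (m : Fin (Q - 1) → ZMod n) :
    ext n Q U j m (j * Q) = U (j * Q) := by
  unfold ext
  rw [dif_neg]
  rintro ⟨h, _⟩
  omega

lemma ext_right {Q j : ℕ} (U : ℕ → ZMod n) (m : Fin (Q - 1) → ZMod n) :
    ext n Q U j m ((j + 1) * Q) = U ((j + 1) * Q) := by
  unfold ext
  rw [dif_neg]
  rintro ⟨h, h2⟩
  rw [Nat.add_mul, Nat.one_mul] at h h2
  omega

/-- classes of `All` are admissible -/
lemma clOk_of_mem [NeZero n] {x : ZMod n} (h : (Sum.inr (cl x) : Elt n) ∈ All n) : ClOk x := by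
  unfold All at h
  rw [mem_union] at h
  rcases h with h | h
  · rw [mem_image] at h
    obtain ⟨a, _, ha⟩ := h
    exact absurd ha (by simp)
  · rw [mem_image] at h
    obtain ⟨v, hv, hv2⟩ := h
    rw [mem_filter] at hv
    have hok := hv.2
    have h3 : cl v = cl x := Sum.inr.inj hv2
    unfold cl at h3
    rw [Sym2.eq_iff] at h3
    rcases h3 with ⟨h4, _⟩ | ⟨h4, h5⟩
    · rw [← h4]; exact hok
    · obtain ⟨o1, o2, o3⟩ := hok
      refine ⟨?_, ?_, ?_⟩
      · intro hx
        apply o2
        rw [h4, hx, sub_zero]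
      · intro hx
        apply o1
        rw [h4, hx, sub_self]
      · intro hx
        apply o3
        rw [h4]
        linear_combination -hx

/-- a tuple without repetitions is an admissible filling -/
lemma isFill_ext [NeZero n] {Q j : ℕ} (hQ : 1 ≤ Q) {U : ℕ → ZMod n} {m : Fin (Q - 1) → ZMod n}
    {E' : Finset (Elt n)} (hE : E' ⊆ All n)
    (hs : ∀ y, mult n Q j (ext n Q U j m) y ≠ 0 → y ∈ E')
    (h1 : ∀ y, mult n Q j (ext n Q U j m) y ≤ 1) : IsFill n Q U j (ext n Q U j m) := by
  refine ⟨ext_left U m, ext_right U m, ?_, ?_⟩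
  · intro k hk
    apply clOk_of_mem
    apply hE
    apply hs
    rw [← mem_foot]
    unfold foot
    rw [mem_union]
    right
    exact mem_image_of_mem _ hk
  · have h2 : foot n Q j (ext n Q U j m)
        = univ.filter fun y => mult n Q j (ext n Q U j m) y ≠ 0 := by
      ext y
      simp [mem_foot]
    rw [h2, Finset.card_filter, ← sum_mult hQ j (ext n Q U j m)]
    refine Finset.sum_congr rfl fun y _ => ?_
    have := h1 y
    split_ifs with h3 <;> omega

lemma card_blocks (n Q : ℕ) : (Blocks n Q).card * Q ≤ n := by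
  unfold Blocks J1
  rw [Nat.card_Ico]
  have h1 : T1 n / Q * Q ≤ T1 n := Nat.div_mul_le_self _ _
  have h2 : T1 n ≤ n := by unfold T1; omega
  calc (T1 n / Q - 1) * Q ≤ T1 n / Q * Q := Nat.mul_le_mul_right _ (Nat.sub_le _ _)
    _ ≤ n := h1.trans h2

lemma kc_sum (E : Finset (Elt n)) : E.card = kc E 0 + kc E 1 + kc E 2 := by
  have h := Finset.card_eq_sum_card_fiberwise (f := kd) (s := E) (t := univ)
    (fun y _ => Finset.mem_coe.2 (mem_univ _))
  rw [h, Fin.sum_univ_three]
  rfl

end NearAux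

open NearAux in
open Classical in
theorem stNear (h1 : StFPM) (h2 : StCount) (h3 : Nibble.StNibble) : StNear := by
  obtain ⟨Q0, hQ0, hF⟩ := h1
  refine ⟨Q0, hQ0, ?_⟩
  intro Q hQ
  obtain ⟨μ0, W, hμ0, hW, N1, hF⟩ := hF Q hQ
  refine ⟨μ0, hμ0, ?_⟩
  intro γ hγ
  obtain ⟨δ, hδ, hN⟩ := h3 (3 * Q - 1) (by omega) (γ / 3) (by positivity)
  obtain ⟨C, hC⟩ := h2 Q (by omega)
  refine ⟨max N1 (max (4 * Q) (⌈2 * Q * (C * W) / δ⌉₊ + 1)), ?_⟩
  intro n hn _ U J' E' hyp
  have hn1 : N1 ≤ n := le_trans (le_max_left _ _) hn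
  have hn2 : 4 * Q ≤ n := le_trans (le_trans (le_max_left _ _) (le_max_right _ _)) hn
  have hn3 : ⌈2 * Q * (C * W) / δ⌉₊ + 1 ≤ n :=
    le_trans (le_trans (le_max_right _ _) (le_max_right _ _)) hn
  have hnpos : 0 < n := by omega
  have hnR : (0 : ℝ) < n := by exact_mod_cast hnpos
  obtain ⟨w, w0, wW, ws, wJ, wE⟩ := hF n hn1 U J' E' hyp
  obtain ⟨c1, c2, c3, c4⟩ := hC n hn2 U hyp.fix
  have hJB : J' ⊆ Blocks n Q := hyp.sub
  have hEA : E' ⊆ All n := fun y hy => (mem_sdiff.1 (hyp.sub' hy)).1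
  -- the small quantity
  set κ : ℝ := C * W / n with hκ
  have hκ0 : 0 ≤ κ := by rw [hκ]; positivity
  have hpow : (n : ℝ) ^ (Q - 1) = (n : ℝ) ^ (Q - 2) * n := by
    rw [← pow_succ]
    congr 1
    omega
  have hκ' : (C : ℝ) * (n : ℝ) ^ (Q - 2) * (W / (n : ℝ) ^ (Q - 1)) = κ := by
    rw [hpow, hκ]
    field_simp
  have hWn : 0 ≤ W / (n : ℝ) ^ (Q - 1) := by positivity
  have hκδ : 2 * Q * κ ≤ δ := by
    have h4 : 2 * Q * (C * W) / δ ≤ n := by
      have := Nat.le_ceil (2 * Q * (C * W) / δ)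
      have h6 : ⌈2 * Q * (C * W) / δ⌉₊ ≤ n := by omega
      have h5 : ((⌈2 * Q * (C * W) / δ⌉₊ : ℕ) : ℝ) ≤ (n : ℝ) := Nat.cast_le.2 h6
      linarith
    rw [div_le_iff₀ hδ] at h4
    rw [hκ]
    have : 2 * (Q : ℝ) * (C * W / n) = 2 * Q * (C * W) / n := by ring
    rw [this, div_le_iff₀ hnR]
    linarith
  have hQR : (1 : ℝ) ≤ Q := by exact_mod_cast (by omega)
  have hκδ' : κ ≤ δ := by nlinarith
  -- the index type
  let Mt := Fin (Q - 1) → ZMod n
  let mu : ℕ → Mt → Elt n → ℕ := fun j m y => mult n Q j (ext n Q U j m) y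
  let G : ℕ → Mt → Prop := fun j m => w j m ≠ 0 ∧ ∀ y, mu j m y ≤ 1
  let ι := {p : J' × Mt // G p.1 p.2}
  let V := J' ⊕ E'
  let e : ι → Finset V := fun p =>
    univ.filter fun v => Sum.elim (fun j : J' => j = p.1.1)
      (fun y : E' => mu p.1.1 p.1.2 y ≠ 0) v
  let ww : ι → ℝ := fun p => w p.1.1 p.1.2
  have hsumι : ∀ h : J' → Mt → ℝ, ∑ p : ι, h p.1.1 p.1.2
      = ∑ j : J', ∑ m, if G j m then h j m else 0 := by
    intro h
    have : ∑ p : ι, h p.1.1 p.1.2 = ∑ p ∈ univ.filter (fun p : J' × Mt => G p.1 p.2),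
        h p.1 p.2 := by
      rw [Finset.sum_subtype (p := fun p : J' × Mt => G p.1 p.2) (univ.filter
        (fun p : J' × Mt => G p.1 p.2)) (by simp) (fun p => h p.1 p.2)]
    rw [this, Finset.sum_filter, Fintype.sum_prod_type]
  have hmem1 : ∀ (j : J') (p : ι), (Sum.inl j : V) ∈ e p ↔ j = p.1.1 := by
    intro j p
    simp [e]
  have hmem2 : ∀ (y : E') (p : ι), (Sum.inr y : V) ∈ e p ↔ mu p.1.1 p.1.2 y ≠ 0 := by
    intro y p
    simp [e]
  -- cardinalities of the edges
  have hsup : ∀ (p : ι) (y : Elt n), mu p.1.1 p.1.2 y ≠ 0 → y ∈ E' := by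
    intro p y hy
    exact (ws _ _ p.2.1).2 y hy
  have hcard : ∀ p, (e p).card = 3 * Q - 1 := by
    intro p
    have hL : (e p).toLeft = {p.1.1} := by
      ext j
      rw [Finset.mem_toLeft, hmem1, mem_singleton]
    have hfoot : (foot n Q p.1.1 (ext n Q U p.1.1 p.1.2)).card = 3 * Q - 2 :=
      (isFill_ext (by omega) hEA (fun y hy => hsup p y hy) p.2.2).card
    have hR : (e p).toRight.card = 3 * Q - 2 := by
      rw [← hfoot]
      refine Finset.card_bij (fun y _ => (y : Elt n)) ?_ ?_ ?_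
      · intro y hy
        rw [Finset.mem_toRight, hmem2] at hy
        exact mem_foot.2 hy
      · intro y _ y' _ h4
        exact Subtype.ext h4
      · intro y hy
        rw [mem_foot] at hy
        refine ⟨⟨y, hsup p y hy⟩, ?_, rfl⟩
        rw [Finset.mem_toRight, hmem2]
        exact hy
    rw [← Finset.card_toLeft_add_card_toRight (u := e p), hL, hR, card_singleton]
    omega
  -- sums over few tuples
  have hfew : ∀ (j : ℕ) (A : Mt → Prop) [DecidablePred A], ((univ.filter fun m => A m).card : ℝ)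
        ≤ (C : ℝ) * (n : ℝ) ^ (Q - 2) →
      (∑ m, if A m then w j m else 0) ≤ κ := by
    intro j A _ hA
    rw [← Finset.sum_filter]
    calc ∑ m ∈ univ.filter (fun m => A m), w j m
        ≤ ∑ _m ∈ univ.filter (fun m => A m), W / (n : ℝ) ^ (Q - 1) :=
          Finset.sum_le_sum fun m _ => wW j m
      _ = ((univ.filter fun m => A m).card : ℝ) * (W / (n : ℝ) ^ (Q - 1)) := by
          rw [Finset.sum_const, nsmul_eq_mul]
      _ ≤ (C : ℝ) * (n : ℝ) ^ (Q - 2) * (W / (n : ℝ) ^ (Q - 1)) :=
          mul_le_mul_of_nonneg_right hA hWn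
      _ = κ := hκ'
  have hfew2 : ∀ (A : ℕ → Mt → Prop) [∀ j, DecidablePred (A j)], ((∑ j ∈ Blocks n Q, (univ.filter fun m => A j m).card : ℕ) : ℝ)
        ≤ (C : ℝ) * (n : ℝ) ^ (Q - 2) →
      (∑ j : J', ∑ m, if A j m then w j m else 0) ≤ κ := by
    intro A _ hA
    rw [Finset.sum_coe_sort J' (fun j => ∑ m, if A j m then w j m else 0)]
    calc (∑ j ∈ J', ∑ m, if A j m then w j m else 0)
        ≤ ∑ j ∈ J', ((univ.filter fun m => A j m).card : ℝ) * (W / (n : ℝ) ^ (Q - 1)) := by
          refine Finset.sum_le_sum fun j _ => ?_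
          rw [← Finset.sum_filter]
          calc ∑ m ∈ univ.filter (fun m => A j m), w j m
              ≤ ∑ _m ∈ univ.filter (fun m => A j m), W / (n : ℝ) ^ (Q - 1) :=
                Finset.sum_le_sum fun m _ => wW j m
            _ = ((univ.filter fun m => A j m).card : ℝ) * (W / (n : ℝ) ^ (Q - 1)) := by
                rw [Finset.sum_const, nsmul_eq_mul]
      _ ≤ ∑ j ∈ Blocks n Q, ((univ.filter fun m => A j m).card : ℝ) * (W / (n : ℝ) ^ (Q - 1)) :=
          Finset.sum_le_sum_of_subset_of_nonneg hJB (fun _ _ _ => by positivity)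
      _ = ((∑ j ∈ Blocks n Q, (univ.filter fun m => A j m).card : ℕ) : ℝ)
            * (W / (n : ℝ) ^ (Q - 1)) := by
          push_cast
          rw [Finset.sum_mul]
      _ ≤ (C : ℝ) * (n : ℝ) ^ (Q - 2) * (W / (n : ℝ) ^ (Q - 1)) :=
          mul_le_mul_of_nonneg_right hA hWn
      _ = κ := hκ'
  have hcastle : ∀ a : ℕ, a ≤ C * n ^ (Q - 2) → (a : ℝ) ≤ (C : ℝ) * (n : ℝ) ^ (Q - 2) := by
    intro a ha
    exact_mod_cast ha
  -- degrees
  have hdeg : ∀ v : V, |(∑ i, if v ∈ e i then ww i else 0) - 1| ≤ δ := by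
    intro v
    rcases v with j | y
    · have e1 : (∑ i, if (Sum.inl j : V) ∈ e i then ww i else 0)
          = ∑ m, if G j m then w j m else 0 := by
        have e2 : (∑ i, if (Sum.inl j : V) ∈ e i then ww i else 0)
            = ∑ p : ι, (fun (j' : J') (m : Mt) => if j = j' then w j' m else 0) p.1.1 p.1.2 := by
          refine Finset.sum_congr rfl fun p _ => ?_
          by_cases h4 : j = p.1.1
          · rw [if_pos ((hmem1 j p).2 h4)]
            simp only [ww, if_pos h4]
          · rw [if_neg (fun h5 => h4 ((hmem1 j p).1 h5))]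
            simp only [if_neg h4]
        refine e2.trans ((hsumι (fun (j' : J') (m : Mt) => if j = j' then w j' m else 0)).trans ?_)
        rw [Finset.sum_eq_single j]
        · refine Finset.sum_congr rfl fun m _ => ?_
          simp
        · intro j' _ hj'
          refine Finset.sum_eq_zero fun m _ => ?_
          simp [Ne.symm hj']
        · intro h4
          exact absurd (mem_univ _) h4
      rw [e1]
      have e3 : (∑ m, if G j m then w j m else 0)
          + (∑ m, if ∃ y, 2 ≤ mu j m y then w j m else 0) = 1 := by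
        rw [← wJ j j.2, ← Finset.sum_add_distrib]
        refine Finset.sum_congr rfl fun m _ => ?_
        by_cases hw : w j m = 0
        · simp [hw, G]
        · by_cases hb : ∃ y, 2 ≤ mu j m y
          · rw [if_pos hb, if_neg, zero_add]
            rintro ⟨_, h5⟩
            obtain ⟨y, hy⟩ := hb
            have := h5 y
            omega
          · rw [if_neg hb, if_pos, add_zero]
            refine ⟨hw, fun y => ?_⟩
            by_contra h5
            exact hb ⟨y, by omega⟩
      have e4 : (∑ m, if ∃ y, 2 ≤ mu j m y then w j m else 0) ≤ κ := by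
        refine hfew j _ (hcastle _ ?_)
        exact c2 j (hJB j.2)
      have e5 : 0 ≤ (∑ m, if ∃ y, 2 ≤ mu j m y then w j m else 0) := by
        refine Finset.sum_nonneg fun m _ => ?_
        split_ifs
        · exact w0 j m
        · exact le_refl _
      rw [abs_le]
      constructor <;> linarith
    · have e1 : (∑ i, if (Sum.inr y : V) ∈ e i then ww i else 0)
          = ∑ j : J', ∑ m, if G j m then (if mu j m y ≠ 0 then w j m else 0) else 0 := by
        rw [← hsumι]
        refine Finset.sum_congr rfl fun p _ => ?_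
        simp only [hmem2, ww]
      have e3 : ∑ j : J', ∑ m, w j m * (mu j m y : ℝ) = 1 := by
        rw [Finset.sum_coe_sort J' (fun j => ∑ m, w j m * (mu j m y : ℝ))]
        exact wE y y.2
      have e4 : ∀ (j : J') (m : Mt),
          (if G j m then (if mu j m y ≠ 0 then w j m else 0) else 0) ≤ w j m * (mu j m y : ℝ)
          ∧ w j m * (mu j m y : ℝ) ≤ (if G j m then (if mu j m y ≠ 0 then w j m else 0) else 0)
            + 2 * Q * (if mu j m y ≠ 0 ∧ ∃ y', 2 ≤ mu j m y' then w j m else 0) := by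
        intro j m
        have hwn := w0 j m
        have hmn : (0 : ℝ) ≤ (mu j m y : ℝ) := Nat.cast_nonneg _
        by_cases hG : G j m
        · rw [if_pos hG]
          have hb : ¬ (mu j m y ≠ 0 ∧ ∃ y', 2 ≤ mu j m y') := by
            rintro ⟨_, y', hy'⟩
            have := hG.2 y'
            omega
          rw [if_neg hb]
          by_cases h0 : mu j m y = 0
          · simp [h0]
          · have h1' : mu j m y = 1 := by
              have := hG.2 y
              omega
            rw [if_pos h0, h1']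
            simp
        · rw [if_neg hG]
          refine ⟨mul_nonneg hwn hmn, ?_⟩
          by_cases hw : w j m = 0
          · simp [hw]
          · have hb : ∃ y', 2 ≤ mu j m y' := by
              by_contra hb
              apply hG
              refine ⟨hw, fun y' => ?_⟩
              by_contra h5
              exact hb ⟨y', by omega⟩
            by_cases h0 : mu j m y = 0
            · simp [h0]
            · rw [if_pos ⟨h0, hb⟩]
              have hle : (mu j m y : ℝ) ≤ 2 * Q := by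
                have : mu j m y ≤ 2 * Q := mult_le _ _ _
                exact_mod_cast this
              nlinarith
      have e5 : (∑ j : J', ∑ m, if mu j m y ≠ 0 ∧ ∃ y', 2 ≤ mu j m y' then w j m else 0) ≤ κ := by
        refine hfew2 (fun j m => mu j m y ≠ 0 ∧ ∃ y', 2 ≤ mu j m y') (hcastle _ ?_)
        exact c4 y (hEA y.2)
      have e6 : (∑ j : J', ∑ m, if G j m then (if mu j m y ≠ 0 then w j m else 0) else 0)
          ≤ ∑ j : J', ∑ m, w j m * (mu j m y : ℝ) :=
        Finset.sum_le_sum fun j _ => Finset.sum_le_sum fun m _ => (e4 j m).1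
      have e7 : (∑ j : J', ∑ m, w j m * (mu j m y : ℝ))
          ≤ (∑ j : J', ∑ m, if G j m then (if mu j m y ≠ 0 then w j m else 0) else 0)
            + 2 * Q * ∑ j : J', ∑ m,
              (if mu j m y ≠ 0 ∧ ∃ y', 2 ≤ mu j m y' then w j m else 0) := by
        rw [Finset.mul_sum, ← Finset.sum_add_distrib]
        refine Finset.sum_le_sum fun j _ => ?_
        rw [Finset.mul_sum, ← Finset.sum_add_distrib]
        exact Finset.sum_le_sum fun m _ => (e4 j m).2
      rw [e1, abs_le]
      have e8 : 2 * (Q : ℝ) * (∑ j : J', ∑ m,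
              (if mu j m y ≠ 0 ∧ ∃ y', 2 ≤ mu j m y' then w j m else 0)) ≤ 2 * Q * κ :=
        mul_le_mul_of_nonneg_left e5 (by positivity)
      constructor <;> linarith
  -- codegrees
  have hcodjy : ∀ (j : J') (y : E'),
      (∑ i, if (Sum.inl j : V) ∈ e i ∧ (Sum.inr y : V) ∈ e i then ww i else 0) ≤ δ := by
    intro j y
    have e2 : (∑ i, if (Sum.inl j : V) ∈ e i ∧ (Sum.inr y : V) ∈ e i then ww i else 0)
        = ∑ p : ι, (fun (j' : J') (m : Mt) =>
            if j = j' ∧ mu j' m y ≠ 0 then w j' m else 0) p.1.1 p.1.2 := by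
      refine Finset.sum_congr rfl fun p _ => ?_
      by_cases h4 : j = p.1.1 ∧ mu p.1.1 p.1.2 y ≠ 0
      · rw [if_pos ⟨(hmem1 j p).2 h4.1, (hmem2 y p).2 h4.2⟩]
        simp only [ww, if_pos h4]
      · rw [if_neg (fun h5 => h4 ⟨(hmem1 j p).1 h5.1, (hmem2 y p).1 h5.2⟩)]
        simp only [if_neg h4]
    refine (le_of_eq (e2.trans (hsumι (fun (j' : J') (m : Mt) =>
            if j = j' ∧ mu j' m y ≠ 0 then w j' m else 0)))).trans ?_
    rw [Finset.sum_eq_single j]
    · calc (∑ m, if G j m then (if j = j ∧ mu j m y ≠ 0 then w j m else 0) else 0)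
          ≤ ∑ m, if mu j m y ≠ 0 then w j m else 0 := by
            refine Finset.sum_le_sum fun m _ => ?_
            have hwn := w0 j m
            by_cases h4 : G j m <;> by_cases h5 : mu j m y ≠ 0 <;> simp [h4, h5, hwn]
        _ ≤ κ := hfew j _ (hcastle _ (c1 j (hJB j.2) y (hEA y.2)))
        _ ≤ δ := hκδ'
    · intro j' _ hj'
      refine Finset.sum_eq_zero fun m _ => ?_
      simp [Ne.symm hj']
    · intro h4
      exact absurd (mem_univ _) h4
  have hcod : ∀ u v : V, u ≠ v → (∑ i, if u ∈ e i ∧ v ∈ e i then ww i else 0) ≤ δ := by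
    intro u v huv
    rcases u with j | y <;> rcases v with j' | y'
    · refine le_trans (le_of_eq ?_) hδ.le
      refine Finset.sum_eq_zero fun p _ => ?_
      rw [if_neg]
      rw [hmem1, hmem1]
      rintro ⟨h4, h5⟩
      exact huv (by rw [h4, h5])
    · exact hcodjy j y'
    · have := hcodjy j' y
      refine le_trans (le_of_eq ?_) this
      refine Finset.sum_congr rfl fun p _ => ?_
      by_cases h4 : (Sum.inr y : V) ∈ e p <;> by_cases h5 : (Sum.inl j' : V) ∈ e p <;>
        simp [h4, h5]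
    · have e2 : (∑ i, if (Sum.inr y : V) ∈ e i ∧ (Sum.inr y' : V) ∈ e i then ww i else 0)
          = ∑ p : ι, (fun (j' : J') (m : Mt) =>
              if mu j' m y ≠ 0 ∧ mu j' m y' ≠ 0 then w j' m else 0) p.1.1 p.1.2 := by
        refine Finset.sum_congr rfl fun p _ => ?_
        by_cases h4 : mu p.1.1 p.1.2 y ≠ 0 ∧ mu p.1.1 p.1.2 y' ≠ 0
        · rw [if_pos ⟨(hmem2 y p).2 h4.1, (hmem2 y' p).2 h4.2⟩]
          simp only [ww, if_pos h4]
        · rw [if_neg (fun h5 => h4 ⟨(hmem2 y p).1 h5.1, (hmem2 y' p).1 h5.2⟩)]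
          simp only [if_neg h4]
      refine (le_of_eq (e2.trans (hsumι (fun (j' : J') (m : Mt) =>
              if mu j' m y ≠ 0 ∧ mu j' m y' ≠ 0 then w j' m else 0)))).trans ?_
      have hyy : (y : Elt n) ≠ y' := fun h4 => huv (by rw [Subtype.ext h4])
      calc (∑ j : J', ∑ m, if G j m then
              (if mu j m y ≠ 0 ∧ mu j m y' ≠ 0 then w j m else 0) else 0)
          ≤ ∑ j : J', ∑ m, if mu j m y ≠ 0 ∧ mu j m y' ≠ 0 then w j m else 0 := by
            refine Finset.sum_le_sum fun j _ => Finset.sum_le_sum fun m _ => ?_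
            have hwn := w0 j m
            by_cases h4 : G j m <;> by_cases h5 : mu j m y ≠ 0 ∧ mu j m y' ≠ 0 <;>
              simp [h4, h5, hwn]
        _ ≤ κ := hfew2 (fun j m => mu j m y ≠ 0 ∧ mu j m y' ≠ 0)
            (hcastle _ (c3 y (hEA y.2) y' (hEA y'.2) hyy))
        _ ≤ δ := hκδ'
  -- the matching
  obtain ⟨M, hM, hunc⟩ := hN V ι e ww (fun p => w0 _ _) hcard hdeg hcod
  let cov : ℕ → Prop := fun j => ∃ p ∈ M, (p.1.1 : ℕ) = j
  let F : ℕ → ℕ → ZMod n := fun j =>
    if h : cov j then ext n Q U j (h.choose.1.2) else fun _ => 0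
  have hFj : ∀ j, cov j → ∃ p ∈ M, (p.1.1 : ℕ) = j ∧ F j = ext n Q U j p.1.2 := by
    intro j h
    refine ⟨h.choose, h.choose_spec.1, h.choose_spec.2, ?_⟩
    simp only [F]
    rw [dif_pos h]
  refine ⟨J'.filter fun j => ¬ cov j, filter_subset _ _, ?_, ?_⟩
  · -- few blocks are not covered
    have hsub : (J'.filter fun j => ¬ cov j)
        ⊆ (univ.filter fun v : V => ∀ i ∈ M, v ∉ e i).image
          (Sum.elim (fun j : J' => (j : ℕ)) fun _ => 0) := by
      intro j hj
      rw [mem_filter] at hj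
      rw [mem_image]
      refine ⟨Sum.inl ⟨j, hj.1⟩, ?_, rfl⟩
      rw [mem_filter]
      refine ⟨mem_univ _, ?_⟩
      intro p hp hin
      rw [hmem1] at hin
      exact hj.2 ⟨p, hp, by rw [← hin]⟩
    have hc1 : (J'.filter fun j => ¬ cov j).card
        ≤ (univ.filter fun v : V => ∀ i ∈ M, v ∉ e i).card :=
      (card_le_card hsub).trans card_image_le
    have hc2 : Fintype.card V = (3 * Q - 1) * J'.card := by
      have h4 : Fintype.card V = J'.card + E'.card := by
        simp only [V, Fintype.card_sum, Fintype.card_coe]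
      rw [h4, kc_sum E', hyp.pts, hyp.cls]
      obtain ⟨q, rfl⟩ : ∃ q, Q = q + 1 := ⟨Q - 1, by omega⟩
      have h5 : 3 * (q + 1) - 1 = 3 * q + 2 := by omega
      rw [h5, Nat.add_sub_cancel]
      ring
    have hc3 : Fintype.card V ≤ 3 * n := by
      rw [hc2]
      have h4 : J'.card ≤ (Blocks n Q).card := card_le_card hJB
      have h5 := card_blocks n Q
      calc (3 * Q - 1) * J'.card ≤ (3 * Q) * (Blocks n Q).card :=
            Nat.mul_le_mul (by omega) h4
        _ = 3 * ((Blocks n Q).card * Q) := by ring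
        _ ≤ 3 * n := by omega
    have hc4 : (Fintype.card V : ℝ) ≤ 3 * n := by exact_mod_cast hc3
    calc ((J'.filter fun j => ¬ cov j).card : ℝ)
        ≤ ((univ.filter fun v : V => ∀ i ∈ M, v ∉ e i).card : ℝ) := by exact_mod_cast hc1
      _ ≤ γ / 3 * (Fintype.card V : ℝ) := by convert hunc
      _ ≤ γ / 3 * (3 * n) := mul_le_mul_of_nonneg_left hc4 (by positivity)
      _ = γ * n := by ring
  · -- the filled blocks
    have hcov : ∀ j ∈ J' \ (J'.filter fun j => ¬ cov j), cov j := by
      intro j hj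
      rw [mem_sdiff, mem_filter] at hj
      by_contra h4
      exact hj.2 ⟨hj.1, h4⟩
    have hsubE : ∀ j, cov j → foot n Q j (F j) ⊆ E' := by
      intro j hj y hy
      obtain ⟨p, hp, hpj, hF1⟩ := hFj j hj
      rw [hF1, mem_foot] at hy
      subst hpj
      exact hsup p y hy
    refine ⟨(J' \ (J'.filter fun j => ¬ cov j)).biUnion fun j => foot n Q j (F j), ?_,
      F, ?_, ?_, rfl⟩
    · intro y hy
      rw [mem_biUnion] at hy
      obtain ⟨j, hj, hy⟩ := hy
      exact hsubE j (hcov j hj) hy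
    · intro j hj
      obtain ⟨p, hp, hpj, hF1⟩ := hFj j (hcov j hj)
      rw [hF1]
      subst hpj
      exact isFill_ext (by omega) hEA (fun y hy => hsup p y hy) p.2.2
    · intro i hi j hj hij
      rw [Finset.disjoint_left]
      intro y hy1 hy2
      have hyE : y ∈ E' := hsubE i (hcov i hi) hy1
      obtain ⟨p, hp, hpi, hF1⟩ := hFj i (hcov i hi)
      obtain ⟨q, hq, hqj, hF2⟩ := hFj j (hcov j hj)
      have hpq : p ≠ q := by
        intro h4
        apply hij
        rw [← hpi, ← hqj, h4]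
      have hd := hM p hp q hq hpq
      rw [hF1, mem_foot] at hy1
      rw [hF2, mem_foot] at hy2
      subst hpi
      subst hqj
      rw [Finset.disjoint_left] at hd
      exact hd ((hmem2 ⟨y, hyE⟩ p).2 hy1) ((hmem2 ⟨y, hyE⟩ q).2 hy2)

end Pool.Agent.DNA
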