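import Pool.Agent.Lib.MP_845d9b_co.Abs.Stmts

/-!
# Point swap (module PS)
-/

set_option autoImplicit false

namespace Pool.Agent.DNA

open Finset

namespace PSAux

variable {n : ℕ} [NeZero n]

/-- the elements `± k`, `k ∈ K` -/
def pm (n : ℕ) (K : Finset ℕ) : Finset (ZMod n) :=
  K.image (fun k : ℕ => (k : ZMod n)) ∪ K.image (fun k : ℕ => -(k : ZMod n))

omit [NeZero n] in
theorem pm_card (K : Finset ℕ) : (pm n K).card ≤ 2 * K.card := by
  unfold pm
  refine (card_union_le _ _).trans ?_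
  have h1 := card_image_le (s := K) (f := fun k : ℕ => (k : ZMod n))
  have h2 := card_image_le (s := K) (f := fun k : ℕ => -(k : ZMod n))
  omega

omit [NeZero n] in
theorem mem_pm {K : Finset ℕ} {z : ZMod n} {k : ℕ} (hk : k ∈ K)
    (h : z = (k : ZMod n) ∨ z = -(k : ZMod n)) : z ∈ pm n K := by
  unfold pm
  rw [mem_union]
  rcases h with h | h
  · exact Or.inl (mem_image.2 ⟨k, hk, h.symm⟩)
  · exact Or.inr (mem_image.2 ⟨k, hk, h.symm⟩)

omit [NeZero n] in
theorem sub_mem_pm {a b m : ℕ} (h1 : a < b + m) (h2 : b < a + m) :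
    (a : ZMod n) - (b : ZMod n) ∈ pm n (range m) := by
  rcases le_total b a with h | h
  · refine mem_pm (k := a - b) (mem_range.2 (by omega)) (Or.inl ?_)
    rw [Nat.cast_sub h]
  · refine mem_pm (k := b - a) (mem_range.2 (by omega)) (Or.inr ?_)
    rw [Nat.cast_sub h]
    ring

theorem card_inj (f : ZMod n → ZMod n) (hf : Function.Injective f) (S : Finset (ZMod n)) :
    (univ.filter fun κ => f κ ∈ S).card ≤ S.card :=
  card_le_card_of_injOn f (fun κ hκ => by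
    simpa using hκ) hf.injOn

theorem two_sol (d : ZMod n) (h : d + d = 0) : d = 0 ∨ d = ((n / 2 : ℕ) : ZMod n) := by
  have h1 : ((d.val + d.val : ℕ) : ZMod n) = 0 := by
    rw [Nat.cast_add, ZMod.natCast_zmod_val]
    exact h
  rw [ZMod.natCast_eq_zero_iff] at h1
  obtain ⟨c, hc⟩ := h1
  have h2 : d.val < n := ZMod.val_lt d
  have hc2 : c < 2 := by
    by_contra hcon
    have : n * 2 ≤ n * c := Nat.mul_le_mul_left n (by omega)
    omega
  interval_cases c
  · left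
    rw [← ZMod.val_eq_zero]
    omega
  · right
    have h3 : d.val = n / 2 := by omega
    rw [← h3, ZMod.natCast_zmod_val]

theorem card_two (c : ZMod n) (S : Finset (ZMod n)) :
    (univ.filter fun κ : ZMod n => c + κ + κ ∈ S).card ≤ 2 * S.card := by
  have h1 : (univ.filter fun κ : ZMod n => c + κ + κ ∈ S) =
      S.biUnion fun s => univ.filter fun κ : ZMod n => c + κ + κ = s := by
    ext κ
    simp
  rw [h1]
  refine (card_biUnion_le_card_mul S _ 2 ?_).trans (by rw [Nat.mul_comm])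
  intro s _
  rcases (univ.filter fun κ : ZMod n => c + κ + κ = s).eq_empty_or_nonempty with h | ⟨κ₀, h0⟩
  · rw [h]
    simp
  · have h2 : (univ.filter fun κ : ZMod n => c + κ + κ = s) ⊆
        {κ₀, κ₀ + ((n / 2 : ℕ) : ZMod n)} := by
      intro κ hκ
      rw [mem_filter] at h0 hκ
      have h3 : (κ - κ₀) + (κ - κ₀) = 0 := by
        have h4 : c + κ + κ = c + κ₀ + κ₀ := by rw [hκ.2, h0.2]
        linear_combination h4
      rw [mem_insert, mem_singleton]
      rcases two_sol _ h3 with h4 | h4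
      · left
        linear_combination h4
      · right
        linear_combination h4
    exact (card_le_card h2).trans card_le_two

/-- good values: `± k` for a time `k` well inside an unused block -/
def Good (n Q : ℕ) (BadJ : Finset ℕ) (κ : ZMod n) : Prop :=
  ∃ j ∈ Blocks n Q \ BadJ, ∃ k : ℕ, j * Q + 4 ≤ k ∧ k + 4 ≤ (j + 1) * Q ∧
    (κ = (k : ZMod n) ∨ κ = -(k : ZMod n))

theorem good_k_lt {Q j k : ℕ} (hQ : 1 ≤ Q) (hj : j ∈ Blocks n Q) (hk : k + 4 ≤ (j + 1) * Q) :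
    k + 4 ≤ T1 n := by
  unfold Blocks J1 at hj
  rw [mem_Ico] at hj
  have h1 : (j + 1) * Q ≤ (T1 n / Q) * Q := Nat.mul_le_mul_right Q (by omega)
  have h2 : (T1 n / Q) * Q ≤ T1 n := Nat.div_mul_le_self _ _
  omega

theorem good_ne_zero {Q : ℕ} (hQ : 1 ≤ Q) {BadJ : Finset ℕ} {κ : ZMod n} (h : Good n Q BadJ κ) :
    κ ≠ 0 := by
  obtain ⟨j, hj, k, h1, h2, h3⟩ := h
  have h4 := good_k_lt hQ (mem_sdiff.1 hj).1 h2
  unfold T1 at h4
  have h5 : (k : ZMod n) ≠ 0 := by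
    intro h6
    rw [ZMod.natCast_eq_zero_iff] at h6
    have := Nat.le_of_dvd (by omega) h6
    omega
  rcases h3 with h3 | h3
  · rw [h3]
    exact h5
  · rw [h3, neg_ne_zero]
    exact h5

open Classical in
theorem nongood_card {Q : ℕ} (hQ : 100 ≤ Q) (hn : 1000 * Q + 4000 ≤ n) (BadJ : Finset ℕ)
    (hB : 40 * Q * BadJ.card ≤ n) :
    8 * (univ.filter fun κ : ZMod n => ¬ Good n Q BadJ κ).card ≤ n := by
  set K : Finset ℕ := (range Q ∪ Icc (J1 n Q * Q) (n / 2)) ∪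
    ((BadJ.biUnion fun j => Ico (j * Q) ((j + 1) * Q)) ∪
    ((range (n / 2 / Q + 1)) ×ˢ ({0, 1, 2, 3, Q - 3, Q - 2, Q - 1} : Finset ℕ)).image
      fun p => p.1 * Q + p.2) with hK
  have hsub : (univ.filter fun κ : ZMod n => ¬ Good n Q BadJ κ) ⊆ pm n K := by
    intro κ hκ
    rw [mem_filter] at hκ
    have hng := hκ.2
    -- the representative
    obtain ⟨k, hk, hκk⟩ : ∃ k : ℕ, k ≤ n / 2 ∧ (κ = (k : ZMod n) ∨ κ = -(k : ZMod n)) := by
      have h1 : κ.val < n := ZMod.val_lt κ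
      by_cases h2 : κ.val ≤ n / 2
      · exact ⟨κ.val, h2, Or.inl (ZMod.natCast_zmod_val κ).symm⟩
      · refine ⟨n - κ.val, by omega, Or.inr ?_⟩
        rw [Nat.cast_sub h1.le, ZMod.natCast_self, ZMod.natCast_zmod_val]
        ring
    refine mem_pm (k := k) ?_ hκk
    by_contra hkK
    simp only [hK, mem_union, not_or, mem_range, mem_Icc, mem_biUnion, mem_Ico, mem_image,
      mem_product, mem_insert, mem_singleton, Prod.exists, not_exists, not_and] at hkK
    obtain ⟨⟨h1, h2⟩, h3, h4⟩ := hkK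
    apply hng
    have hQ0 : 0 < Q := by omega
    have hdm : k / Q * Q + k % Q = k := by
      rw [Nat.mul_comm]
      exact Nat.div_add_mod k Q
    have hm : k % Q < Q := Nat.mod_lt _ hQ0
    have hkJ : k < J1 n Q * Q := by
      by_contra hcon
      exact h2 (by omega) hk
    have hj1 : k / Q < J1 n Q := by
      rw [Nat.div_lt_iff_lt_mul hQ0]
      exact hkJ
    have hj2 : 1 ≤ k / Q := by
      rw [Nat.le_div_iff_mul_le hQ0]
      omega
    have hjQ : (k / Q + 1) * Q = k / Q * Q + Q := by ring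
    have hres := h4 (k / Q) (k % Q)
    have hrange : k / Q < n / 2 / Q + 1 := by
      have := Nat.div_le_div_right (c := Q) hk
      omega
    refine ⟨k / Q, ?_, k, ?_, ?_, hκk⟩
    · rw [mem_sdiff]
      refine ⟨?_, ?_⟩
      · unfold Blocks
        rw [mem_Ico]
        exact ⟨hj2, hj1⟩
      · intro hbad
        refine h3 (k / Q) hbad ?_ ?_
        · omega
        · omega
    · by_contra hcon
      have h5 : k % Q = 0 ∨ k % Q = 1 ∨ k % Q = 2 ∨ k % Q = 3 := by omega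
      exact hres ⟨hrange, by omega⟩ hdm
    · by_contra hcon
      have h5 : k % Q = Q - 3 ∨ k % Q = Q - 2 ∨ k % Q = Q - 1 := by omega
      exact hres ⟨hrange, by omega⟩ hdm
  have hc1 := (card_le_card hsub).trans (pm_card K)
  have hc2 : K.card ≤ (Q + (Q + 2)) + (Q * BadJ.card + (n / 2 / Q + 1) * 7) := by
    rw [hK]
    refine (card_union_le _ _).trans (add_le_add ((card_union_le _ _).trans (add_le_add ?_ ?_))
      ((card_union_le _ _).trans (add_le_add ?_ ?_)))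
    · rw [card_range]
    · rw [Nat.card_Icc]
      unfold J1
      have h1 := Nat.div_add_mod (T1 n) Q
      have h2 := Nat.mod_lt (T1 n) (show 0 < Q by omega)
      have h3 : Q * (T1 n / Q) = T1 n / Q * Q := Nat.mul_comm _ _
      have h4 : T1 n = (n - 1) / 2 := rfl
      omega
    · rw [Nat.mul_comm]
      refine card_biUnion_le_card_mul _ _ _ fun j _ => ?_
      rw [Nat.card_Ico]
      have : (j + 1) * Q = j * Q + Q := by ring
      omega
    · refine card_image_le.trans ?_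
      rw [card_product, card_range]
      refine Nat.mul_le_mul_left _ ?_
      exact (card_insert_le _ _).trans (Nat.succ_le_succ ((card_insert_le _ _).trans
        (Nat.succ_le_succ ((card_insert_le _ _).trans (Nat.succ_le_succ ((card_insert_le _ _).trans
        (Nat.succ_le_succ ((card_insert_le _ _).trans (Nat.succ_le_succ
        ((card_insert_le _ _).trans (Nat.succ_le_succ (card_singleton _).le)))))))))))
  have hc3 : n / 2 / Q ≤ n / 200 := by
    refine (Nat.div_le_div_left hQ (by norm_num)).trans ?_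
    rw [Nat.div_div_eq_div_mul]
  have hB' : 40 * (Q * BadJ.card) ≤ n := by
    rw [← Nat.mul_assoc]
    exact hB
  omega

theorem exists_half {x x' : ZMod n} (h : par x = par x') : ∃ D : ZMod n, x' - x = D + D := by
  by_cases hn : Even n
  · unfold par at h
    rw [if_pos hn, if_pos hn] at h
    have h1 : x.val % 2 = x'.val % 2 := by
      have := (ZMod.natCast_eq_natCast_iff' x.val x'.val 2).1 h
      exact this
    rcases le_total x.val x'.val with h2 | h2
    · refine ⟨(((x'.val - x.val) / 2 : ℕ) : ZMod n), ?_⟩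
      have h3 : (x'.val - x.val) / 2 + (x'.val - x.val) / 2 = x'.val - x.val := by omega
      rw [← Nat.cast_add, h3, Nat.cast_sub h2, ZMod.natCast_zmod_val, ZMod.natCast_zmod_val]
    · refine ⟨-(((x.val - x'.val) / 2 : ℕ) : ZMod n), ?_⟩
      have h3 : (x.val - x'.val) / 2 + (x.val - x'.val) / 2 = x.val - x'.val := by omega
      rw [← neg_add, ← Nat.cast_add, h3, Nat.cast_sub h2, ZMod.natCast_zmod_val,
        ZMod.natCast_zmod_val]
      ring
  · rw [Nat.not_even_iff_odd] at hn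
    obtain ⟨m, hm⟩ := hn
    refine ⟨(x' - x) * ((m + 1 : ℕ) : ZMod n), ?_⟩
    have h1 : ((m + 1 : ℕ) : ZMod n) + ((m + 1 : ℕ) : ZMod n) = 1 := by
      rw [← Nat.cast_add, show m + 1 + (m + 1) = n + 1 by omega, Nat.cast_add, ZMod.natCast_self,
        Nat.cast_one, zero_add]
    rw [← mul_add, h1, mul_one]

omit [NeZero n] in
theorem pack_card {Q : ℕ} {U : ℕ → ZMod n} {j : ℕ} {S : Finset (Elt n)}
    (h : Packable n Q U {j} S) : S.card = 3 * Q - 2 := by
  obtain ⟨F, hF⟩ := h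
  have h1 := hF.cover
  rw [singleton_biUnion] at h1
  rw [← h1]
  exact (hF.fill j (mem_singleton_self j)).card

theorem mem_All (x : ZMod n) : (Sum.inl x : Elt n) ∈ All n := by
  unfold All
  rw [mem_union]
  exact Or.inl (mem_image.2 ⟨x, mem_univ x, rfl⟩)

/-- points of a set of elements -/
def pts (B : Finset (Elt n)) : Finset (ZMod n) := univ.filter fun y => (Sum.inl y : Elt n) ∈ B

theorem pts_card (B : Finset (Elt n)) : (pts B).card ≤ B.card :=
  card_le_card_of_injOn (fun y => (Sum.inl y : Elt n)) (fun y hy => by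
    simpa [pts] using hy) (fun _ _ _ _ h => Sum.inl.inj h)

theorem exists_of_card {P : ZMod n → Prop} [DecidablePred P]
    (h : (univ.filter fun κ : ZMod n => ¬ P κ).card < n) : ∃ κ : ZMod n, P κ := by
  by_contra hcon
  push Not at hcon
  have h1 : (univ.filter fun κ : ZMod n => ¬ P κ) = univ := by
    ext κ
    simp [hcon κ]
  rw [h1, card_univ, ZMod.card] at h
  exact lt_irrefl _ h

theorem choose1 {Q : ℕ} (hQ : 100 ≤ Q) (hn : 1000 * Q + 4000 ≤ n) (BadJ : Finset ℕ)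
    (hB : 40 * Q * BadJ.card ≤ n) (S : Finset (ZMod n)) (hS : 40 * S.card ≤ n + 200)
    (x D : ZMod n) : ∃ κ : ZMod n, Good n Q BadJ κ ∧ x + κ + κ ∉ S ∧ x + κ ∉ S ∧
      D - κ ∉ pm n (range (2 * Q + 1)) := by
  classical
  refine exists_of_card ?_
  have hsub : (univ.filter fun κ : ZMod n => ¬ (Good n Q BadJ κ ∧ x + κ + κ ∉ S ∧ x + κ ∉ S ∧
      D - κ ∉ pm n (range (2 * Q + 1)))) ⊆
      ((univ.filter fun κ : ZMod n => ¬ Good n Q BadJ κ) ∪
        (univ.filter fun κ : ZMod n => x + κ + κ ∈ S)) ∪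
      ((univ.filter fun κ : ZMod n => x + κ ∈ S) ∪
        (univ.filter fun κ : ZMod n => D - κ ∈ pm n (range (2 * Q + 1)))) := by
    intro κ hκ
    simp only [mem_filter, mem_univ, true_and, mem_union] at hκ ⊢
    tauto
  have h1 := nongood_card hQ hn BadJ hB
  have h2 := card_two x S
  have h3 := card_inj (fun κ => x + κ) (add_right_injective x) S
  have h4 := card_inj (fun κ => D - κ) sub_right_injective (pm n (range (2 * Q + 1)))
  have h5 := pm_card (n := n) (range (2 * Q + 1))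
  rw [card_range] at h5
  have h6 := (card_le_card hsub).trans ((card_union_le _ _).trans
    (add_le_add (card_union_le _ _) (card_union_le _ _)))
  omega

theorem choose2 {Q : ℕ} (hQ : 100 ≤ Q) (hn : 1000 * Q + 4000 ≤ n) (BadJ : Finset ℕ)
    (hB : 40 * Q * BadJ.card ≤ n) (S : Finset (ZMod n)) (hS : 40 * S.card ≤ n + 200)
    (z D : ZMod n) (j : ℕ) : ∃ κ : ZMod n, (Good n Q BadJ κ ∧ Good n Q BadJ (D - κ)) ∧
      (κ ∉ pm n (Icc (j * Q) ((j + 1) * Q)) ∧ D - κ ∉ pm n (Icc (j * Q) ((j + 1) * Q))) ∧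
      -D + κ + κ ∉ pm n (range Q) ∧ (z + κ ∉ S ∧ z + κ + κ ∉ S ∧ z + D + κ ∉ S) := by
  classical
  refine exists_of_card ?_
  have hsub : (univ.filter fun κ : ZMod n => ¬ ((Good n Q BadJ κ ∧ Good n Q BadJ (D - κ)) ∧
      (κ ∉ pm n (Icc (j * Q) ((j + 1) * Q)) ∧ D - κ ∉ pm n (Icc (j * Q) ((j + 1) * Q))) ∧
      -D + κ + κ ∉ pm n (range Q) ∧ (z + κ ∉ S ∧ z + κ + κ ∉ S ∧ z + D + κ ∉ S))) ⊆
      (((univ.filter fun κ : ZMod n => ¬ Good n Q BadJ κ) ∪
        (univ.filter fun κ : ZMod n => D - κ ∈ univ.filter fun κ : ZMod n =>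
          ¬ Good n Q BadJ κ)) ∪
      ((univ.filter fun κ : ZMod n => κ ∈ pm n (Icc (j * Q) ((j + 1) * Q))) ∪
        (univ.filter fun κ : ZMod n => D - κ ∈ pm n (Icc (j * Q) ((j + 1) * Q))))) ∪
      (((univ.filter fun κ : ZMod n => -D + κ + κ ∈ pm n (range Q)) ∪
        (univ.filter fun κ : ZMod n => z + κ ∈ S)) ∪
      ((univ.filter fun κ : ZMod n => z + κ + κ ∈ S) ∪
        (univ.filter fun κ : ZMod n => z + D + κ ∈ S))) := by
    intro κ hκ
    simp only [mem_filter, mem_univ, true_and, mem_union] at hκ ⊢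
    tauto
  have h1 := nongood_card hQ hn BadJ hB
  have h2 := card_inj (fun κ => D - κ) sub_right_injective
    (univ.filter fun κ : ZMod n => ¬ Good n Q BadJ κ)
  have h3 := card_inj (fun κ => κ) (fun _ _ h => h) (pm n (Icc (j * Q) ((j + 1) * Q)))
  have h4 := card_inj (fun κ => D - κ) sub_right_injective (pm n (Icc (j * Q) ((j + 1) * Q)))
  have h5 := pm_card (n := n) (Icc (j * Q) ((j + 1) * Q))
  rw [Nat.card_Icc] at h5
  have h6 := card_two (-D) (pm n (range Q))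
  have h7 := pm_card (n := n) (range Q)
  rw [card_range] at h7
  have h8 := card_inj (fun κ => z + κ) (add_right_injective z) S
  have h9 := card_two z S
  have h10 := card_inj (fun κ => z + D + κ) (add_right_injective (z + D)) S
  have h11 : (j + 1) * Q = j * Q + Q := by ring
  have h12 := (card_le_card hsub).trans ((card_union_le _ _).trans
    (add_le_add ((card_union_le _ _).trans (add_le_add (card_union_le _ _) (card_union_le _ _)))
      ((card_union_le _ _).trans (add_le_add (card_union_le _ _) (card_union_le _ _)))))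
  omega

theorem setEq1 {α : Type} [DecidableEq α] (a z w : α) (A B C : Finset α) :
    insert a A ∪ insert z B ∪ insert w C = insert a (insert z (insert w (A ∪ B ∪ C))) := by
  ext e
  simp only [mem_insert, mem_union]
  tauto

theorem setEq2 {α : Type} [DecidableEq α] (a z w : α) (A B C : Finset α) :
    insert z A ∪ insert w B ∪ insert a C = insert a (insert z (insert w (A ∪ B ∪ C))) := by
  ext e
  simp only [mem_insert, mem_union]
  tauto

/-- three elementary swaps in different blocks -/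
theorem assemble {Q : ℕ} (h1 : StPackUnion) {U : ℕ → ZMod n} {BadE B0 : Finset (Elt n)}
    {BadJ : Finset ℕ} {x x' z w : ZMod n} {j₁ j₂ j₃ : ℕ} {Z₁ Z₂ Z₃ : Finset (Elt n)}
    (hj1 : j₁ ∈ Blocks n Q \ BadJ) (hj2 : j₂ ∈ Blocks n Q \ BadJ) (hj3 : j₃ ∈ Blocks n Q \ BadJ)
    (hj21 : j₂ ≠ j₁) (hj31 : j₃ ≠ j₁) (hj32 : j₃ ≠ j₂)
    (hB0 : B0 = BadE ∪ {Sum.inl x, Sum.inl x', Sum.inl z, Sum.inl w})
    (hzx : z ≠ x) (hzx' : z ≠ x') (hwx : w ≠ x) (hwx' : w ≠ x') (hzw : z ≠ w)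
    (hzB : (Sum.inl z : Elt n) ∉ BadE) (hwB : (Sum.inl w : Elt n) ∉ BadE)
    (hA1 : Z₁ ⊆ All n) (hA2 : Z₂ ⊆ All n) (hA3 : Z₃ ⊆ All n)
    (hno1 : ∀ e ∈ Z₁, e ∉ B0) (hno2 : ∀ e ∈ Z₂, e ∉ B0) (hno3 : ∀ e ∈ Z₃, e ∉ B0)
    (hd12 : Disjoint Z₁ Z₂) (hd13 : Disjoint Z₁ Z₃) (hd23 : Disjoint Z₂ Z₃)
    (hP1 : Packable n Q U {j₁} (insert (Sum.inl x) Z₁))
    (hP1' : Packable n Q U {j₁} (insert (Sum.inl z) Z₁))
    (hP2 : Packable n Q U {j₂} (insert (Sum.inl z) Z₂))
    (hP2' : Packable n Q U {j₂} (insert (Sum.inl w) Z₂))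
    (hP3 : Packable n Q U {j₃} (insert (Sum.inl w) Z₃))
    (hP3' : Packable n Q U {j₃} (insert (Sum.inl x') Z₃)) :
    ∃ Js ⊆ Blocks n Q \ BadJ, Js.card ≤ 3 ∧
      ∃ Z ⊆ All n \ (BadE ∪ {Sum.inl x, Sum.inl x'}),
        Packable n Q U Js (insert (Sum.inl x) Z) ∧
          Packable n Q U Js (insert (Sum.inl x') Z) := by
  have hxB : (Sum.inl x : Elt n) ∈ B0 := by simp [hB0]
  have hx'B : (Sum.inl x' : Elt n) ∈ B0 := by simp [hB0]
  have hz1B0 : (Sum.inl z : Elt n) ∈ B0 := by simp [hB0]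
  have hz2B0 : (Sum.inl w : Elt n) ∈ B0 := by simp [hB0]
  have hBE0 : BadE ⊆ B0 := by rw [hB0]; exact subset_union_left
  have key : ∀ a b c : ZMod n, (Sum.inl a : Elt n) ∈ B0 → (Sum.inl b : Elt n) ∈ B0 →
      (Sum.inl c : Elt n) ∈ B0 → a ≠ b → a ≠ c → b ≠ c →
      Packable n Q U {j₁} (insert (Sum.inl a) Z₁) → Packable n Q U {j₂} (insert (Sum.inl b) Z₂) →
      Packable n Q U {j₃} (insert (Sum.inl c) Z₃) →
      Packable n Q U ({j₁} ∪ {j₂} ∪ {j₃})
        (insert (Sum.inl a) Z₁ ∪ insert (Sum.inl b) Z₂ ∪ insert (Sum.inl c) Z₃) := by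
    intro a b c ha hb hc hab hac hbc hPa hPb hPc
    have hne : ∀ u v : ZMod n, u ≠ v → (Sum.inl u : Elt n) ≠ Sum.inl v :=
      fun u v h h' => h (Sum.inl.inj h')
    refine h1 n Q U _ _ _ _ ?_ ?_ (h1 n Q U _ _ _ _ ?_ ?_ hPa hPb) hPc
    · rw [disjoint_singleton_right, mem_union, mem_singleton, mem_singleton, not_or]
      exact ⟨hj31, hj32⟩
    · rw [disjoint_union_left, disjoint_insert_left, disjoint_insert_left,
        disjoint_insert_right, disjoint_insert_right, mem_insert, mem_insert, not_or, not_or]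
      exact ⟨⟨⟨hne _ _ hac, fun h => hno3 _ h ha⟩, fun h => hno1 _ h hc, hd13⟩,
        ⟨hne _ _ hbc, fun h => hno3 _ h hb⟩, fun h => hno2 _ h hc, hd23⟩
    · rw [disjoint_singleton]
      exact hj21.symm
    · rw [disjoint_insert_left, disjoint_insert_right, mem_insert, not_or]
      exact ⟨⟨hne _ _ hab, fun h => hno2 _ h ha⟩, fun h => hno1 _ h hb, hd12⟩
  refine ⟨{j₁} ∪ {j₂} ∪ {j₃}, ?_, ?_, insert (Sum.inl z) (insert (Sum.inl w) (Z₁ ∪ Z₂ ∪ Z₃)),
    ?_, ?_, ?_⟩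
  · intro j hj
    simp only [mem_union, mem_singleton] at hj
    rcases hj with (rfl | rfl) | rfl
    · exact hj1
    · exact hj2
    · exact hj3
  · refine (card_union_le _ _).trans ?_
    have := card_union_le ({j₁} : Finset ℕ) {j₂}
    rw [card_singleton, card_singleton] at this
    rw [card_singleton]
    omega
  · intro e he
    rw [mem_sdiff, mem_union, not_or]
    simp only [mem_insert, mem_union] at he
    have hsx : ∀ e : Elt n, e ∉ B0 → e ∉ BadE ∧ e ∉ ({Sum.inl x, Sum.inl x'} : Finset (Elt n)) := by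
      intro e h
      refine ⟨fun h' => h (hBE0 h'), fun h' => h ?_⟩
      rw [mem_insert, mem_singleton] at h'
      rcases h' with rfl | rfl
      · exact hxB
      · exact hx'B
    rcases he with rfl | rfl | (he | he) | he
    · refine ⟨mem_All _, hzB, ?_⟩
      simp only [mem_insert, mem_singleton, Sum.inl.injEq, not_or]
      exact ⟨hzx, hzx'⟩
    · refine ⟨mem_All _, hwB, ?_⟩
      simp only [mem_insert, mem_singleton, Sum.inl.injEq, not_or]
      exact ⟨hwx, hwx'⟩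
    · exact ⟨hA1 he, hsx e (hno1 e he)⟩
    · exact ⟨hA2 he, hsx e (hno2 e he)⟩
    · exact ⟨hA3 he, hsx e (hno3 e he)⟩
  · have h := key x z w hxB hz1B0 hz2B0 hzx.symm hwx.symm hzw hP1 hP2 hP3
    rw [setEq1] at h
    exact h
  · have h := key z w x' hz1B0 hz2B0 hx'B hzw hzx' hwx' hP1' hP2' hP3'
    rw [setEq2] at h
    exact h

end PSAux

open PSAux

theorem stPS (h1 : StPackUnion) (h2 : StPS1) : StPS := by
  intro Q hQ
  obtain ⟨N, hN⟩ := h2 Q (by omega)
  refine ⟨max N (1000 * Q + 4000), ?_⟩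
  intro n hn _ U BadE BadJ hBE hBJ x x' hxx hpar
  have hn1 : N ≤ n := le_trans (le_max_left _ _) hn
  have hn2 : 1000 * Q + 4000 ≤ n := le_trans (le_max_right _ _) hn
  have hPS1 := hN n hn1 U
  obtain ⟨D, hD⟩ := exists_half hpar
  -- first choice
  obtain ⟨S1, hS1⟩ : ∃ S1 : Finset (ZMod n), S1 = insert x (insert x' (pts BadE)) := ⟨_, rfl⟩
  have hS1c : S1.card ≤ BadE.card + 2 := by
    have e3 := pts_card BadE
    rw [hS1]
    exact (card_insert_le _ _).trans (Nat.succ_le_succ ((card_insert_le _ _).trans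
      (Nat.succ_le_succ e3)))
  obtain ⟨κ₁, hg1, hz1, hp1, hD1⟩ := choose1 hQ hn2 BadJ hBJ S1 (by omega) x D
  have hκ1 := good_ne_zero (by omega) hg1
  obtain ⟨j₁, hj1, k₁, hk1a, hk1b, hκk1⟩ := hg1
  obtain ⟨z₁, hz1def⟩ : ∃ z₁ : ZMod n, z₁ = x + κ₁ + κ₁ := ⟨_, rfl⟩
  obtain ⟨p₁, hp1def⟩ : ∃ p₁ : ZMod n, p₁ = x + κ₁ := ⟨_, rfl⟩
  rw [← hz1def] at hz1
  rw [← hp1def] at hp1
  -- second choice
  obtain ⟨S2, hS2⟩ : ∃ S2 : Finset (ZMod n), S2 = insert z₁ (insert p₁ S1) := ⟨_, rfl⟩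
  have hS2c : S2.card ≤ BadE.card + 4 := by
    rw [hS2]
    exact (card_insert_le _ _).trans (Nat.succ_le_succ ((card_insert_le _ _).trans
      (Nat.succ_le_succ hS1c)))
  obtain ⟨κ₂, ⟨hg2, hg3⟩, ⟨hb2, hb3⟩, ht, hp2, hz2, hp3⟩ :=
    choose2 hQ hn2 BadJ hBJ S2 (by omega) z₁ (D - κ₁) j₁
  obtain ⟨κ₃, hκ3def⟩ : ∃ κ₃ : ZMod n, κ₃ = D - κ₁ - κ₂ := ⟨_, rfl⟩
  rw [← hκ3def] at hg3 hb3
  have hκ2 := good_ne_zero (by omega) hg2
  have hκ3 := good_ne_zero (by omega) hg3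
  obtain ⟨j₂, hj2, k₂, hk2a, hk2b, hκk2⟩ := hg2
  obtain ⟨j₃, hj3, k₃, hk3a, hk3b, hκk3⟩ := hg3
  obtain ⟨z₂, hz2def⟩ : ∃ z₂ : ZMod n, z₂ = z₁ + κ₂ + κ₂ := ⟨_, rfl⟩
  obtain ⟨p₂, hp2def⟩ : ∃ p₂ : ZMod n, p₂ = z₁ + κ₂ := ⟨_, rfl⟩
  obtain ⟨p₃, hp3def⟩ : ∃ p₃ : ZMod n, p₃ = z₂ + κ₃ := ⟨_, rfl⟩
  rw [← hz2def] at hz2
  rw [← hp2def] at hp2
  rw [show z₁ + (D - κ₁) + κ₂ = p₃ by rw [hp3def, hz2def, hκ3def]; ring] at hp3
  have hend : z₂ + κ₃ + κ₃ = x' := by
    rw [hz2def, hκ3def, hz1def]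
    linear_combination -hD
  -- the blocks are different
  have hj21 : j₂ ≠ j₁ := by
    rintro rfl
    exact hb2 (mem_pm (mem_Icc.2 ⟨by omega, by omega⟩) hκk2)
  have hj31 : j₃ ≠ j₁ := by
    rintro rfl
    exact hb3 (mem_pm (mem_Icc.2 ⟨by omega, by omega⟩) hκk3)
  have hj32 : j₃ ≠ j₂ := by
    rintro rfl
    have hdiff : -(D - κ₁) + κ₂ + κ₂ = κ₂ - κ₃ := by rw [hκ3def]; ring
    have hsum : D - κ₁ = κ₂ + κ₃ := by rw [hκ3def]; ring
    have e1 : (j₃ + 1) * Q = j₃ * Q + Q := by ring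
    rw [hdiff] at ht
    rw [hsum] at hD1
    rcases hκk2 with e2 | e2 <;> rcases hκk3 with e3 | e3
    · apply ht
      rw [e2, e3]
      exact sub_mem_pm (by omega) (by omega)
    · apply hD1
      rw [e2, e3, ← sub_eq_add_neg]
      exact sub_mem_pm (by omega) (by omega)
    · apply hD1
      rw [e2, e3, neg_add_eq_sub]
      exact sub_mem_pm (by omega) (by omega)
    · apply ht
      rw [e2, e3, neg_sub_neg]
      exact sub_mem_pm (by omega) (by omega)
  -- distinctness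
  have hD1ne : D - κ₁ ≠ 0 := by
    intro h
    apply hD1
    rw [h]
    exact mem_pm (k := 0) (by simp) (Or.inl (by simp))
  simp only [hS1, hS2, mem_insert, not_or, pts, mem_filter, mem_univ, true_and] at hz1 hp1 hp2 hz2 hp3
  obtain ⟨hz1x, hz1x', hz1B⟩ := hz1
  obtain ⟨hp1x, hp1x', hp1B⟩ := hp1
  obtain ⟨hp2z1, hp2p1, hp2x, hp2x', hp2B⟩ := hp2
  obtain ⟨hz2z1, hz2p1, hz2x, hz2x', hz2B⟩ := hz2
  obtain ⟨hp3z1, hp3p1, hp3x, hp3x', hp3B⟩ := hp3
  have hp1z1 : p₁ ≠ z₁ := by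
    intro h
    apply hκ1
    rw [hp1def, hz1def] at h
    exact left_eq_add.1 h
  have hp2z2 : p₂ ≠ z₂ := by
    intro h
    apply hκ2
    rw [hp2def, hz2def] at h
    exact left_eq_add.1 h
  have hz2p3 : z₂ ≠ p₃ := by
    intro h
    apply hκ3
    rw [hp3def] at h
    exact left_eq_add.1 h
  have hp2p3 : p₂ ≠ p₃ := by
    intro h
    apply hD1ne
    have h5 : p₃ = p₂ + (D - κ₁) := by rw [hp3def, hz2def, hκ3def, hp2def]; ring
    rw [h5] at h
    exact left_eq_add.1 h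
  clear hS1 hS2 hS1c hS2c
  -- three elementary swaps
  obtain ⟨B0, hB0⟩ : ∃ B0 : Finset (Elt n),
    B0 = BadE ∪ {Sum.inl x, Sum.inl x', Sum.inl z₁, Sum.inl z₂} := ⟨_, rfl⟩
  have hB0c : B0.card ≤ BadE.card + 4 := by
    rw [hB0]
    exact (card_union_le _ _).trans (Nat.add_le_add_left card_le_four _)
  have hins : ∀ (a b : Elt n), (insert a (insert b B0)).card ≤ BadE.card + 6 := fun a b =>
    (card_insert_le _ _).trans (Nat.succ_le_succ ((card_insert_le _ _).trans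
      (Nat.succ_le_succ hB0c)))
  obtain ⟨B1, hB1⟩ : ∃ B1 : Finset (Elt n),
    B1 = insert (Sum.inl p₂) (insert (Sum.inl p₃) B0) := ⟨_, rfl⟩
  have hB1c : B1.card ≤ BadE.card + 6 := by
    rw [hB1]
    exact hins _ _
  obtain ⟨Z₁, hZ1, hP1, hP1'⟩ := hPS1 j₁ k₁ (mem_sdiff.1 hj1).1 hk1a hk1b B1 (by omega) x κ₁ hκk1
    (by
      rw [← hp1def]
      simp only [hB1, hB0, mem_insert, mem_union, mem_singleton, Sum.inl.injEq, not_or]
      exact ⟨fun h => hp2p1 h.symm, fun h => hp3p1 h.symm, hp1B, hp1x, hp1x', hp1z1,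
        fun h => hz2p1 h.symm⟩)
  rw [← hz1def] at hP1' hZ1
  obtain ⟨B2, hB2⟩ : ∃ B2 : Finset (Elt n),
    B2 = insert (Sum.inl p₁) (insert (Sum.inl p₃) B0) ∪ Z₁ := ⟨_, rfl⟩
  have hc1 := pack_card hP1
  have hx1 : (Sum.inl x : Elt n) ∉ Z₁ := fun h => by
    have := (mem_sdiff.1 (hZ1 h)).2
    simp at this
  have hc1' : Z₁.card ≤ 3 * Q := by
    rw [card_insert_of_notMem hx1] at hc1
    omega
  have hB2c : B2.card ≤ BadE.card + 6 + 3 * Q := by
    rw [hB2]
    exact (card_union_le _ _).trans (add_le_add (hins _ _) hc1')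
  have hZ1B : ∀ e ∈ Z₁, e ∉ B1 := fun e he h =>
    (mem_sdiff.1 (hZ1 he)).2 (mem_union_left _ h)
  obtain ⟨Z₂, hZ2, hP2, hP2'⟩ := hPS1 j₂ k₂ (mem_sdiff.1 hj2).1 hk2a hk2b B2 (by omega) z₁ κ₂ hκk2
    (by
      rw [← hp2def]
      simp only [hB2, hB0, mem_insert, mem_union, mem_singleton, Sum.inl.injEq, not_or]
      refine ⟨⟨hp2p1, hp2p3, hp2B, hp2x, hp2x', hp2z1, hp2z2⟩, fun h => hZ1B _ h ?_⟩
      rw [hB1]
      exact mem_insert_self _ _)
  rw [← hz2def] at hP2' hZ2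
  have hZ2B : ∀ e ∈ Z₂, e ∉ B2 := fun e he h =>
    (mem_sdiff.1 (hZ2 he)).2 (mem_union_left _ h)
  have hc2 := pack_card hP2
  have hz1Z2 : (Sum.inl z₁ : Elt n) ∉ Z₂ := fun h => by
    have := (mem_sdiff.1 (hZ2 h)).2
    simp at this
  have hc2' : Z₂.card ≤ 3 * Q := by
    rw [card_insert_of_notMem hz1Z2] at hc2
    omega
  obtain ⟨B3, hB3⟩ : ∃ B3 : Finset (Elt n),
    B3 = insert (Sum.inl p₁) (insert (Sum.inl p₂) B0) ∪ Z₁ ∪ Z₂ := ⟨_, rfl⟩
  have hB3c : B3.card ≤ BadE.card + 6 + 3 * Q + 3 * Q := by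
    rw [hB3]
    exact (card_union_le _ _).trans (add_le_add ((card_union_le _ _).trans
      (add_le_add (hins _ _) hc1')) hc2')
  obtain ⟨Z₃, hZ3, hP3, hP3'⟩ := hPS1 j₃ k₃ (mem_sdiff.1 hj3).1 hk3a hk3b B3 (by omega) z₂ κ₃ hκk3
    (by
      rw [← hp3def]
      simp only [hB3, hB0, mem_insert, mem_union, mem_singleton, Sum.inl.injEq, not_or]
      refine ⟨⟨⟨hp3p1, fun h => hp2p3 h.symm, hp3B, hp3x, hp3x', hp3z1, fun h => hz2p3 h.symm⟩,
        fun h => hZ1B _ h ?_⟩, fun h => hZ2B _ h ?_⟩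
      · rw [hB1]
        exact mem_insert_of_mem (mem_insert_self _ _)
      · rw [hB2]
        exact mem_union_left _ (mem_insert_of_mem (mem_insert_self _ _)))
  rw [hend] at hP3' hZ3
  have hZ3B : ∀ e ∈ Z₃, e ∉ B3 := fun e he h =>
    (mem_sdiff.1 (hZ3 he)).2 (mem_union_left _ h)
  have hB0s1 : B0 ⊆ B1 := by
    rw [hB1]
    exact (subset_insert _ _).trans (subset_insert _ _)
  have hB0s2 : B0 ⊆ B2 := by
    rw [hB2]
    exact ((subset_insert _ _).trans (subset_insert _ _)).trans subset_union_left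
  have hB0s3 : B0 ⊆ B3 := by
    rw [hB3]
    exact (((subset_insert _ _).trans (subset_insert _ _)).trans
      subset_union_left).trans subset_union_left
  have hd12 : Disjoint Z₁ Z₂ := disjoint_left.2 fun e h1 h2 => hZ2B e h2 (by
    rw [hB2]
    exact mem_union_right _ h1)
  have hd13 : Disjoint Z₁ Z₃ := disjoint_left.2 fun e h1 h2 => hZ3B e h2 (by
    rw [hB3]
    exact mem_union_left _ (mem_union_right _ h1))
  have hd23 : Disjoint Z₂ Z₃ := disjoint_left.2 fun e h1 h2 => hZ3B e h2 (by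
    rw [hB3]
    exact mem_union_right _ h1)
  exact assemble h1 hj1 hj2 hj3 hj21 hj31 hj32 hB0 hz1x hz1x' hz2x hz2x' (fun h => hz2z1 h.symm)
    hz1B hz2B (fun e he => (mem_sdiff.1 (hZ1 he)).1) (fun e he => (mem_sdiff.1 (hZ2 he)).1)
    (fun e he => (mem_sdiff.1 (hZ3 he)).1) (fun e he h => hZ1B e he (hB0s1 h))
    (fun e he h => hZ2B e he (hB0s2 h)) (fun e he h => hZ3B e he (hB0s3 h)) hd12 hd13 hd23
    hP1 hP1' hP2 hP2' hP3 hP3'

end Pool.Agent.DNA
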