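import Pool.Agent.Lib.MP_845d9b_co.Abs.Stmts

/-!
# Module P1 (helper93): one reflection, from the frame statement
-/

set_option autoImplicit false

namespace Pool.Agent.DNA

open Finset

namespace PS1

variable {n : ℕ}

theorem cl_eq (w w' : ZMod n) : cl w = cl w' ↔ w = w' ∨ w = 1 - w' := by
  unfold cl
  rw [Sym2.eq_iff]
  constructor
  · rintro (⟨h, _⟩ | ⟨h, _⟩)
    · exact Or.inl h
    · exact Or.inr h
  · rintro (h | h)
    · left; exact ⟨h, by rw [h]⟩
    · right; exact ⟨h, by rw [h]; ring⟩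

theorem card_double [NeZero n] (c : ZMod n) :
    (univ.filter fun a : ZMod n => a + a = c).card ≤ 2 := by
  by_cases hne : (univ.filter fun a : ZMod n => a + a = c).Nonempty
  · obtain ⟨a0, ha0⟩ := hne
    have h0 : a0 + a0 = c := by simpa using ha0
    calc (univ.filter fun a : ZMod n => a + a = c).card
        ≤ (univ.filter fun a : ZMod n => 2 • a = 0).card := by
          apply Finset.card_le_card_of_injOn (fun a => a - a0)
          · intro a ha
            have ha' : a + a = c := by simpa using ha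
            have : 2 • (a - a0) = 0 := by
              rw [two_nsmul]
              have : a - a0 + (a - a0) = (a + a) - (a0 + a0) := by ring
              rw [this, ha', h0, sub_self]
            simpa using this
          · intro a _ b _ hab
            exact sub_left_injective hab
      _ ≤ 2 := IsAddCyclic.card_nsmul_eq_zero_le (by norm_num)
  · rw [Finset.not_nonempty_iff_eq_empty] at hne
    rw [hne]; simp

theorem card_cl [NeZero n] (S : Finset (Elt n)) (v : ZMod n) :
    (univ.filter fun a : ZMod n => (Sum.inr (cl (v - a)) : Elt n) ∈ S).card ≤ 2 * S.card := by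
  apply Finset.card_le_mul_card_image_of_maps_to
    (f := fun a : ZMod n => (Sum.inr (cl (v - a)) : Elt n))
  · intro a ha
    simpa using ha
  · intro y _
    by_cases hne : ((univ.filter fun a : ZMod n => (Sum.inr (cl (v - a)) : Elt n) ∈ S).filter
        fun a => (Sum.inr (cl (v - a)) : Elt n) = y).Nonempty
    · obtain ⟨a0, ha0⟩ := hne
      have h0 : (Sum.inr (cl (v - a0)) : Elt n) = y := (mem_filter.mp ha0).2
      refine (Finset.card_le_card (t := {a0, v + v - 1 - a0}) ?_).trans Finset.card_le_two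
      intro a ha
      have h1 : (Sum.inr (cl (v - a)) : Elt n) = y := (mem_filter.mp ha).2
      rw [← h0] at h1
      have h2 := (cl_eq _ _).mp (Sum.inr_injective h1)
      rw [mem_insert, mem_singleton]
      rcases h2 with h2 | h2
      · left
        linear_combination -h2
      · right
        linear_combination -h2
    · rw [Finset.not_nonempty_iff_eq_empty] at hne
      rw [hne]; simp

theorem card_pt [NeZero n] (S : Finset (Elt n)) (g : ZMod n → ZMod n)
    (hg : Function.Injective g) :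
    (univ.filter fun a : ZMod n => (Sum.inl (g a) : Elt n) ∈ S).card ≤ S.card := by
  apply Finset.card_le_card_of_injOn (fun a : ZMod n => (Sum.inl (g a) : Elt n))
  · intro a ha
    simpa using ha
  · intro a _ b _ hab
    exact hg (Sum.inl_injective hab)

theorem exists_a [NeZero n] (S : Finset (Elt n)) (v0 v1 k : ZMod n)
    (hn : 8 * S.card + 40 < n) :
    ∃ a : ZMod n, (a + a ≠ v0 + v1 ∧ a + a ≠ v0 + v1 - (k + 1) ∧ a + a ≠ v0 + v1 + (k - 1) ∧
      a + a ≠ v0 + v1 - (k + 1) + (k - 1) ∧ a + a ≠ v0 + v0 - 1 ∧ a + a ≠ v1 + v1 - 1 ∧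
      a + a ≠ v0 + v1 - 1) ∧ (a ≠ v0 ∧ a ≠ v0 - 1 ∧ a ≠ v1 ∧ a ≠ v1 - 1) ∧
      (Sum.inl a ∉ S ∧ Sum.inl (a - (k - 1)) ∉ S ∧ Sum.inl (v0 + v1 - a) ∉ S ∧
      Sum.inl (v0 + v1 - a - (k + 1)) ∉ S) ∧ Sum.inr (cl (v0 - a)) ∉ S ∧
      Sum.inr (cl (v1 - a)) ∉ S := by
  classical
  by_contra hcon
  push Not at hcon
  set D : ZMod n → Finset (ZMod n) := fun c => univ.filter fun a : ZMod n => a + a = c with hD
  have hDc : ∀ c, (D c).card ≤ 2 := card_double
  set P : (ZMod n → ZMod n) → Finset (ZMod n) := fun g =>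
    univ.filter fun a : ZMod n => (Sum.inl (g a) : Elt n) ∈ S with hP
  set C : ZMod n → Finset (ZMod n) := fun v =>
    univ.filter fun a : ZMod n => (Sum.inr (cl (v - a)) : Elt n) ∈ S with hC
  set F : Finset (ZMod n) := (D (v0 + v1) ∪ (D (v0 + v1 - (k + 1)) ∪ (D (v0 + v1 + (k - 1)) ∪
    (D (v0 + v1 - (k + 1) + (k - 1)) ∪ (D (v0 + v0 - 1) ∪ (D (v1 + v1 - 1) ∪
    D (v0 + v1 - 1))))))) ∪ ({v0, v0 - 1, v1, v1 - 1} ∪ ((P (fun a => a) ∪
    (P (fun a => a - (k - 1)) ∪ (P (fun a => v0 + v1 - a) ∪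
    P (fun a => v0 + v1 - a - (k + 1))))) ∪ (C v0 ∪ C v1))) with hF
  have hcov : (univ : Finset (ZMod n)) ⊆ F := by
    intro a _
    have h := hcon a
    by_contra hna
    rw [hF] at hna
    simp only [mem_union, mem_insert, mem_singleton, not_or] at hna
    obtain ⟨⟨h1, h2, h3, h4, h5, h6, h7⟩, ⟨h8, h9, h10, h11⟩, ⟨h12, h13, h14, h15⟩, h16, h17⟩ := hna
    simp only [hD, hP, hC, mem_filter, mem_univ, true_and] at h1 h2 h3 h4 h5 h6 h7 h12 h13 h14 h15 h16 h17
    exact h17 (h ⟨h1, h2, h3, h4, h5, h6, h7⟩ ⟨h8, h9, h10, h11⟩ ⟨h12, h13, h14, h15⟩ h16)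
  have hcard := Finset.card_le_card hcov
  rw [Finset.card_univ, ZMod.card] at hcard
  have i1 : Function.Injective fun a : ZMod n => a := fun a b h => h
  have i2 : Function.Injective fun a : ZMod n => a - (k - 1) := sub_left_injective
  have i3 : Function.Injective fun a : ZMod n => v0 + v1 - a := sub_right_injective
  have i4 : Function.Injective fun a : ZMod n => v0 + v1 - a - (k + 1) :=
    fun a b h => i3 (sub_left_injective h)
  have p1 := card_pt S _ i1
  have p2 := card_pt S _ i2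
  have p3 := card_pt S _ i3
  have p4 := card_pt S _ i4
  have c1 := card_cl S v0
  have c2 := card_cl S v1
  have d1 := hDc (v0 + v1)
  have d2 := hDc (v0 + v1 - (k + 1))
  have d3 := hDc (v0 + v1 + (k - 1))
  have d4 := hDc (v0 + v1 - (k + 1) + (k - 1))
  have d5 := hDc (v0 + v0 - 1)
  have d6 := hDc (v1 + v1 - 1)
  have d7 := hDc (v0 + v1 - 1)
  have q4 : ({v0, v0 - 1, v1, v1 - 1} : Finset (ZMod n)).card ≤ 4 := Finset.card_le_four
  have hb : F.card ≤ 8 * S.card + 18 := by
    have u : ∀ s t : Finset (ZMod n), (s ∪ t).card ≤ s.card + t.card := Finset.card_union_le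
    have e1 := u (D (v0 + v1)) (D (v0 + v1 - (k + 1)) ∪ (D (v0 + v1 + (k - 1)) ∪
      (D (v0 + v1 - (k + 1) + (k - 1)) ∪ (D (v0 + v0 - 1) ∪ (D (v1 + v1 - 1) ∪
      D (v0 + v1 - 1))))))
    have e2 := u (D (v0 + v1 - (k + 1))) (D (v0 + v1 + (k - 1)) ∪
      (D (v0 + v1 - (k + 1) + (k - 1)) ∪ (D (v0 + v0 - 1) ∪ (D (v1 + v1 - 1) ∪
      D (v0 + v1 - 1)))))
    have e3 := u (D (v0 + v1 + (k - 1)))
      (D (v0 + v1 - (k + 1) + (k - 1)) ∪ (D (v0 + v0 - 1) ∪ (D (v1 + v1 - 1) ∪
      D (v0 + v1 - 1))))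
    have e4 := u (D (v0 + v1 - (k + 1) + (k - 1))) (D (v0 + v0 - 1) ∪ (D (v1 + v1 - 1) ∪
      D (v0 + v1 - 1)))
    have e5 := u (D (v0 + v0 - 1)) (D (v1 + v1 - 1) ∪ D (v0 + v1 - 1))
    have e6 := u (D (v1 + v1 - 1)) (D (v0 + v1 - 1))
    have e7 := u (P (fun a => a)) (P (fun a => a - (k - 1)) ∪ (P (fun a => v0 + v1 - a) ∪
      P (fun a => v0 + v1 - a - (k + 1))))
    have e8 := u (P (fun a => a - (k - 1))) (P (fun a => v0 + v1 - a) ∪
      P (fun a => v0 + v1 - a - (k + 1)))
    have e9 := u (P (fun a => v0 + v1 - a)) (P (fun a => v0 + v1 - a - (k + 1)))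
    have e10 := u (C v0) (C v1)
    have e11 := u (P (fun a => a) ∪ (P (fun a => a - (k - 1)) ∪ (P (fun a => v0 + v1 - a) ∪
      P (fun a => v0 + v1 - a - (k + 1))))) (C v0 ∪ C v1)
    have e12 := u {v0, v0 - 1, v1, v1 - 1} ((P (fun a => a) ∪ (P (fun a => a - (k - 1)) ∪
      (P (fun a => v0 + v1 - a) ∪ P (fun a => v0 + v1 - a - (k + 1))))) ∪ (C v0 ∪ C v1))
    have e13 := u (D (v0 + v1) ∪ (D (v0 + v1 - (k + 1)) ∪ (D (v0 + v1 + (k - 1)) ∪
      (D (v0 + v1 - (k + 1) + (k - 1)) ∪ (D (v0 + v0 - 1) ∪ (D (v1 + v1 - 1) ∪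
      D (v0 + v1 - 1))))))) ({v0, v0 - 1, v1, v1 - 1} ∪ ((P (fun a => a) ∪
      (P (fun a => a - (k - 1)) ∪ (P (fun a => v0 + v1 - a) ∪
      P (fun a => v0 + v1 - a - (k + 1))))) ∪ (C v0 ∪ C v1)))
    rw [← hF] at e13
    change (P (fun a => a)).card ≤ _ at p1
    change (P (fun a => a - (k - 1))).card ≤ _ at p2
    change (P (fun a => v0 + v1 - a)).card ≤ _ at p3
    change (P (fun a => v0 + v1 - a - (k + 1))).card ≤ _ at p4
    change (C v0).card ≤ _ at c1
    change (C v1).card ≤ _ at c2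
    omega
  omega

theorem set_a (p q r s : Elt n) : ({p, q, r, s} : Finset (Elt n)) = {p, q} ∪ {r, s} := by
  ext y; simp only [mem_insert, mem_singleton, mem_union]; tauto

theorem set_b (p q r s : Elt n) : ({p, q, r, s} : Finset (Elt n)) = {p, q} ∪ {s, r} := by
  ext y; simp only [mem_insert, mem_singleton, mem_union]; tauto

theorem set_c (p c r s : Elt n) :
    ({p, c} ∪ {r, s} : Finset (Elt n)) = insert p {c, r, s} := by
  ext y; simp only [mem_insert, mem_singleton, mem_union]; tauto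

theorem set_d (T : Finset (Elt n)) (p c r s : Elt n) :
    T ∪ insert p {c, r, s} = insert p (T ∪ {c, r, s}) := by
  ext y; simp only [mem_insert, mem_singleton, mem_union]; tauto

theorem mem_a (B : Finset (Elt n)) (p q c y : Elt n) (h : y ∈ B ∪ {p, q}) :
    y ∈ B ∪ {p, q, c} := by
  simp only [mem_insert, mem_singleton, mem_union] at h ⊢; tauto

/-- the common core of the two signs -/
theorem core (h : StFrame) (Q : ℕ) (hQ : 12 ≤ Q) : ∃ N : ℕ, ∀ n : ℕ, N ≤ n → ∀ [NeZero n],
    ∀ (U : ℕ → ZMod n) (j k : ℕ),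
    j ∈ Blocks n Q → j * Q + 4 ≤ k → k + 4 ≤ (j + 1) * Q →
    ∀ (BadE : Finset (Elt n)), 30 * BadE.card ≤ n →
    ∀ (p0 p1 c v0 v1 : ZMod n), v0 ≠ v1 → p0 ≠ p1 → p0 ≠ c → p1 ≠ c →
      ({Sum.inl v0, Sum.inl (v0 - (k : ZMod n))} : Finset (Elt n)) = {Sum.inl p0, Sum.inl c} →
      ({Sum.inl v1, Sum.inl (v1 - (k : ZMod n))} : Finset (Elt n)) = {Sum.inl p1, Sum.inl c} →
      Sum.inl c ∉ BadE →
      ∃ Z ⊆ All n \ (BadE ∪ {Sum.inl p0, Sum.inl p1}),
        Packable n Q U {j} (insert (Sum.inl p0) Z) ∧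
        Packable n Q U {j} (insert (Sum.inl p1) Z) := by
  obtain ⟨N, hN⟩ := h Q hQ
  refine ⟨max N 1000, fun n hn _ U j k hj hk1 hk2 BadE hBad p0 p1 c v0 v1 hv hp01 hp0 hp1 e0 e1 hc => ?_⟩
  have hnN : N ≤ n := (le_max_left _ _).trans hn
  have hn1 : 1000 ≤ n := (le_max_right _ _).trans hn
  classical
  -- size of `k`
  have hj1 : j + 1 ≤ T1 n / Q := by
    have := (Finset.mem_Ico.mp hj).2
    unfold J1 at this
    omega
  have hT : (j + 1) * Q ≤ T1 n := (Nat.mul_le_mul_right Q hj1).trans (Nat.div_mul_le_self _ _)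
  have hT1 : T1 n = (n - 1) / 2 := rfl
  have hkn : 2 * k + 9 ≤ n := by omega
  have hk4 : 4 ≤ k := by omega
  have hk_m1 : (k : ZMod n) - 1 ≠ 0 := by
    intro h0
    have : ((k - 1 : ℕ) : ZMod n) = 0 := by
      rw [Nat.cast_sub (by omega)]
      simpa using h0
    rw [ZMod.natCast_eq_zero_iff] at this
    have := Nat.le_of_dvd (by omega) this
    omega
  have hk_p1 : (k : ZMod n) + 1 ≠ 0 := by
    intro h0
    have : ((k + 1 : ℕ) : ZMod n) = 0 := by
      push_cast
      exact h0
    rw [ZMod.natCast_eq_zero_iff] at this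
    have := Nat.le_of_dvd (by omega) this
    omega
  -- choose `a`
  set S : Finset (Elt n) := BadE ∪ {Sum.inl p0, Sum.inl p1, Sum.inl c} with hS
  have hScard : S.card ≤ BadE.card + 3 :=
    (Finset.card_union_le _ _).trans (Nat.add_le_add_left Finset.card_le_three _)
  obtain ⟨a, ⟨a1, a2, a3, a4, a5, a6, a7⟩, ⟨b1, b2, b3, b4⟩, ⟨q1, q2, q3, q4⟩, r1, r2⟩ :=
    exists_a S v0 v1 (k : ZMod n) (by omega)
  set b : ZMod n := v0 + v1 - a with hb
  have hb0 : b - v0 = v1 - a := by rw [hb]; ring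
  have hb1 : b - v1 = v0 - a := by rw [hb]; ring
  have hab : a ≠ b := by
    intro h0
    apply a1
    linear_combination h0
  have hab2 : a ≠ b - ((k : ZMod n) + 1) := by
    intro h0
    apply a2
    linear_combination h0
  have hab3 : a - ((k : ZMod n) - 1) ≠ b := by
    intro h0
    apply a3
    linear_combination h0
  have hab4 : a - ((k : ZMod n) - 1) ≠ b - ((k : ZMod n) + 1) := by
    intro h0
    apply a4
    linear_combination h0
  have haa : a ≠ a - ((k : ZMod n) - 1) := by
    intro h0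
    apply hk_m1
    linear_combination h0
  have hbb : b ≠ b - ((k : ZMod n) + 1) := by
    intro h0
    apply hk_p1
    linear_combination h0
  have htri : (tri n k a b).card = 4 := by
    unfold tri
    rw [Finset.card_insert_of_notMem, Finset.card_insert_of_notMem, Finset.card_insert_of_notMem,
      Finset.card_singleton]
    · simpa using hbb
    · simp only [mem_insert, mem_singleton, Sum.inl.injEq, not_or]
      exact ⟨hab3, hab4⟩
    · simp only [mem_insert, mem_singleton, Sum.inl.injEq, not_or]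
      exact ⟨haa, hab, hab2⟩
  have hok0 : ClOk (v0 - a) := by
    refine ⟨?_, ?_, ?_⟩
    · intro h0; exact b1 (by linear_combination -h0)
    · intro h0; exact b2 (by linear_combination -h0)
    · intro h0; exact a5 (by linear_combination -h0)
  have hok1 : ClOk (v1 - a) := by
    refine ⟨?_, ?_, ?_⟩
    · intro h0; exact b3 (by linear_combination -h0)
    · intro h0; exact b4 (by linear_combination -h0)
    · intro h0; exact a6 (by linear_combination -h0)
  have hcl : cl (v0 - a) ≠ cl (v1 - a) := by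
    intro h0
    rcases (cl_eq _ _).mp h0 with h0 | h0
    · exact hv (by linear_combination h0)
    · exact a7 (by linear_combination -h0)
  -- the frame
  set Bad : Finset (Elt n) := S ∪ {Sum.inr (cl (v0 - a)), Sum.inr (cl (v1 - a))} with hBadd
  have hBcard : Bad.card ≤ BadE.card + 5 :=
    (Finset.card_union_le _ _).trans (by
      have : ({Sum.inr (cl (v0 - a)), Sum.inr (cl (v1 - a))} : Finset (Elt n)).card ≤ 2 :=
        Finset.card_le_two
      omega)
  obtain ⟨f0, R, hRA, hRB, hRT, hfill⟩ := hN n hnN U j k hj hk1 hk2 a b Bad (by omega) htri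
  have sta0 : sta n k a b v0 =
      insert (Sum.inl p0) {Sum.inl c, Sum.inr (cl (v0 - a)), Sum.inr (cl (v1 - a))} := by
    have : sta n k a b v0 = ({Sum.inl v0, Sum.inl (v0 - (k : ZMod n))} : Finset (Elt n)) ∪
        {Sum.inr (cl (v0 - a)), Sum.inr (cl (v1 - a))} := by
      unfold sta
      rw [hb0]
      exact set_a _ _ _ _
    rw [this, e0]
    exact set_c _ _ _ _
  have sta1 : sta n k a b v1 =
      insert (Sum.inl p1) {Sum.inl c, Sum.inr (cl (v0 - a)), Sum.inr (cl (v1 - a))} := by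
    have : sta n k a b v1 = ({Sum.inl v1, Sum.inl (v1 - (k : ZMod n))} : Finset (Elt n)) ∪
        {Sum.inr (cl (v0 - a)), Sum.inr (cl (v1 - a))} := by
      unfold sta
      rw [hb1]
      exact set_b _ _ _ _
    rw [this, e1]
    exact set_c _ _ _ _
  have hcard4 : ∀ p : ZMod n, p ≠ c → (insert (Sum.inl p)
      {Sum.inl c, Sum.inr (cl (v0 - a)), Sum.inr (cl (v1 - a))} : Finset (Elt n)).card = 4 := by
    intro p hp
    rw [Finset.card_insert_of_notMem, Finset.card_insert_of_notMem, Finset.card_insert_of_notMem,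
      Finset.card_singleton]
    · simpa using hcl
    · simp
    · simp [hp]
  have hS0 : Sum.inl p0 ∈ S := by rw [hS]; simp
  have hS1 : Sum.inl p1 ∈ S := by rw [hS]; simp
  have hSc : Sum.inl c ∈ S := by rw [hS]; simp
  have htS : ∀ y ∈ tri n k a b, y ∉ S := by
    intro y hy
    unfold tri at hy
    simp only [mem_insert, mem_singleton] at hy
    rcases hy with rfl | rfl | rfl | rfl
    · exact q1
    · exact q2
    · exact q3
    · exact q4
  have htl : ∀ y ∈ tri n k a b, ∃ z, y = Sum.inl z := by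
    intro y hy
    unfold tri at hy
    simp only [mem_insert, mem_singleton] at hy
    rcases hy with rfl | rfl | rfl | rfl
    · exact ⟨_, rfl⟩
    · exact ⟨_, rfl⟩
    · exact ⟨_, rfl⟩
    · exact ⟨_, rfl⟩
  have hRb : ∀ y ∈ R, y ∉ Bad := fun y hy hy' => Finset.disjoint_left.mp hRB hy hy'
  have hdisj : ∀ p : ZMod n, Sum.inl p ∈ S → Disjoint (insert (Sum.inl p)
      {Sum.inl c, Sum.inr (cl (v0 - a)), Sum.inr (cl (v1 - a))} : Finset (Elt n))
      (tri n k a b ∪ R) := by
    intro p hp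
    rw [Finset.disjoint_left]
    intro y hy hy'
    have hyB : y ∈ Bad := by
      simp only [mem_insert, mem_singleton] at hy
      rcases hy with rfl | rfl | rfl | rfl
      · exact Finset.mem_union_left _ hp
      · exact Finset.mem_union_left _ hSc
      · rw [hBadd]; simp
      · rw [hBadd]; simp
    rcases Finset.mem_union.mp hy' with ht | hR
    · simp only [mem_insert, mem_singleton] at hy
      rcases hy with rfl | rfl | rfl | rfl
      · exact htS _ ht hp
      · exact htS _ ht hSc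
      · obtain ⟨z, hz⟩ := htl _ ht
        cases hz
      · obtain ⟨z, hz⟩ := htl _ ht
        cases hz
    · exact hRb _ hR hyB
  obtain ⟨fill0, foot0⟩ := hfill v0 (by rw [sta0]; exact hcard4 p0 hp0) hok0
    (by rw [hb0]; exact hok1) (by rw [sta0]; exact hdisj p0 hS0)
  obtain ⟨fill1, foot1⟩ := hfill v1 (by rw [sta1]; exact hcard4 p1 hp1) hok1
    (by rw [hb1]; exact hok0) (by rw [sta1]; exact hdisj p1 hS1)
  refine ⟨tri n k a b ∪ R ∪ {Sum.inl c, Sum.inr (cl (v0 - a)), Sum.inr (cl (v1 - a))}, ?_, ?_, ?_⟩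
  · intro y hy
    rw [Finset.mem_sdiff]
    rcases Finset.mem_union.mp hy with hy1 | hy1
    · rcases Finset.mem_union.mp hy1 with ht | hR
      · obtain ⟨z, rfl⟩ := htl _ ht
        refine ⟨Finset.mem_union_left _ (Finset.mem_image_of_mem _ (mem_univ _)), ?_⟩
        intro hb'
        exact htS _ ht (mem_a _ _ _ _ _ hb')
      · refine ⟨hRA hR, ?_⟩
        intro hb'
        exact hRb _ hR (Finset.mem_union_left _ (mem_a _ _ _ _ _ hb'))
    · simp only [mem_insert, mem_singleton] at hy1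
      rcases hy1 with rfl | rfl | rfl
      · refine ⟨Finset.mem_union_left _ (Finset.mem_image_of_mem _ (mem_univ _)), ?_⟩
        simp only [mem_union, mem_insert, mem_singleton, Sum.inl.injEq, not_or]
        exact ⟨hc, fun h => hp0 h.symm, fun h => hp1 h.symm⟩
      · refine ⟨Finset.mem_union_right _ (Finset.mem_image.mpr
          ⟨v0 - a, Finset.mem_filter.mpr ⟨mem_univ _, hok0⟩, rfl⟩), ?_⟩
        intro hb'
        exact r1 (mem_a _ _ _ _ _ hb')
      · refine ⟨Finset.mem_union_right _ (Finset.mem_image.mpr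
          ⟨v1 - a, Finset.mem_filter.mpr ⟨mem_univ _, hok1⟩, rfl⟩), ?_⟩
        intro hb'
        exact r2 (mem_a _ _ _ _ _ hb')
  · refine ⟨fun _ => Function.update f0 k v0, ⟨?_, ?_, ?_⟩⟩
    · intro i hi
      rw [Finset.mem_singleton] at hi
      subst hi
      exact fill0
    · intro i hi i' hi' hii
      rw [Finset.mem_singleton] at hi hi'
      exact absurd (hi.trans hi'.symm) hii
    · rw [Finset.singleton_biUnion, foot0, sta0]
      exact set_d _ _ _ _ _
  · refine ⟨fun _ => Function.update f0 k v1, ⟨?_, ?_, ?_⟩⟩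
    · intro i hi
      rw [Finset.mem_singleton] at hi
      subst hi
      exact fill1
    · intro i hi i' hi' hii
      rw [Finset.mem_singleton] at hi hi'
      exact absurd (hi.trans hi'.symm) hii
    · rw [Finset.singleton_biUnion, foot1, sta1]
      exact set_d _ _ _ _ _

end PS1

open PS1 in
/-- module P1 -/
theorem stPS1 (h : StFrame) : StPS1 := by
  intro Q hQ
  obtain ⟨N, hN⟩ := core h Q hQ
  refine ⟨max N 1000, fun n hn _ U j k hj hk1 hk2 BadE hBad x κ hκ hc => ?_⟩
  have hnN : N ≤ n := (le_max_left _ _).trans hn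
  have hn1 : 1000 ≤ n := (le_max_right _ _).trans hn
  have hj1 : j + 1 ≤ T1 n / Q := by
    have := (Finset.mem_Ico.mp hj).2
    unfold J1 at this
    omega
  have hT : (j + 1) * Q ≤ T1 n := (Nat.mul_le_mul_right Q hj1).trans (Nat.div_mul_le_self _ _)
  have hT1 : T1 n = (n - 1) / 2 := rfl
  have hkn : 2 * k + 9 ≤ n := by omega
  have hk0 : (k : ZMod n) ≠ 0 := by
    intro h0
    rw [ZMod.natCast_eq_zero_iff] at h0
    have := Nat.le_of_dvd (by omega) h0
    omega
  have hkk : (k : ZMod n) + k ≠ 0 := by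
    intro h0
    have : ((k + k : ℕ) : ZMod n) = 0 := by
      push_cast
      exact h0
    rw [ZMod.natCast_eq_zero_iff] at this
    have := Nat.le_of_dvd (by omega) this
    omega
  rcases hκ with rfl | rfl
  · refine hN n hnN U j k hj hk1 hk2 BadE hBad x (x + k + k) (x + k) (x + k) (x + k + k)
      ?_ ?_ ?_ ?_ ?_ ?_ hc
    · intro h0; exact hk0 (by linear_combination -h0)
    · intro h0; exact hkk (by linear_combination -h0)
    · intro h0; exact hk0 (by linear_combination -h0)
    · intro h0; exact hk0 (by linear_combination h0)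
    · rw [add_sub_cancel_right, Finset.pair_comm]
    · rw [add_sub_cancel_right]
  · refine hN n hnN U j k hj hk1 hk2 BadE hBad x (x + -k + -k) (x + -k) x (x + -k)
      ?_ ?_ ?_ ?_ ?_ ?_ hc
    · intro h0; exact hk0 (by linear_combination h0)
    · intro h0; exact hkk (by linear_combination h0)
    · intro h0; exact hk0 (by linear_combination h0)
    · intro h0; exact hk0 (by linear_combination -h0)
    · rw [sub_eq_add_neg]
    · rw [sub_eq_add_neg, Finset.pair_comm]

end Pool.Agent.DNA
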