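import Pool.Agent.Lib.MP_845d9b_co.Abs.Stmts

/-!
# Unions of packings (module PU, helper58)

`stPackUnion`, its finite union version `packable_biUnion` and a few simple facts on `Packs`.
-/

set_option autoImplicit false

namespace Pool.Agent.DNA

open Finset

variable {n Q : ℕ} {U : ℕ → ZMod n}

/-- The packing depends only on the values of `F` at the blocks used. -/
theorem Packs.congr {A : Finset ℕ} {S : Finset (Elt n)} {F G : ℕ → ℕ → ZMod n}
    (h : Packs n Q U A F S) (hFG : ∀ j ∈ A, F j = G j) : Packs n Q U A G S := by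
  refine ⟨fun j hj => ?_, fun i hi j hj hij => ?_, ?_⟩
  · rw [← hFG j hj]
    exact h.fill j hj
  · rw [← hFG i hi, ← hFG j hj]
    exact h.disj i hi j hj hij
  · rw [← h.cover]
    refine Finset.biUnion_congr rfl fun j hj => ?_
    rw [hFG j hj]

theorem packable_empty : Packable n Q U ∅ ∅ :=
  ⟨fun _ _ => 0, fun j hj => absurd hj (Finset.notMem_empty j),
    fun i hi => absurd hi (Finset.notMem_empty i), by simp⟩

/-- A single block. -/
theorem packable_singleton {j : ℕ} {f : ℕ → ZMod n} (h : IsFill n Q U j f) :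
    Packable n Q U {j} (foot n Q j f) := by
  refine ⟨fun _ => f, fun i hi => ?_, fun i hi i' hi' hne => ?_, by simp⟩
  · rw [Finset.mem_singleton] at hi
    rw [hi]
    exact h
  · rw [Finset.mem_singleton] at hi hi'
    exact absurd (hi.trans hi'.symm) hne

/-- Conversely, a packing of a single block is a filling. -/
theorem Packable.exists_fill {j : ℕ} {S : Finset (Elt n)} (h : Packable n Q U {j} S) :
    ∃ f : ℕ → ZMod n, IsFill n Q U j f ∧ foot n Q j f = S := by
  obtain ⟨F, hF⟩ := h
  refine ⟨F j, hF.fill j (Finset.mem_singleton_self j), ?_⟩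
  rw [← hF.cover, Finset.singleton_biUnion]

/-- The number of elements covered by a packing. -/
theorem Packs.card {A : Finset ℕ} {S : Finset (Elt n)} {F : ℕ → ℕ → ZMod n}
    (h : Packs n Q U A F S) : S.card = (3 * Q - 2) * A.card := by
  rw [← h.cover, Finset.card_biUnion fun i hi j hj hij => h.disj i hi j hj hij,
    Finset.sum_congr rfl fun j hj => (h.fill j hj).card, Finset.sum_const, smul_eq_mul,
    Nat.mul_comm]

theorem Packable.card {A : Finset ℕ} {S : Finset (Elt n)} (h : Packable n Q U A S) :
    S.card = (3 * Q - 2) * A.card := by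
  obtain ⟨F, hF⟩ := h
  exact hF.card

theorem Packs.foot_subset {A : Finset ℕ} {S : Finset (Elt n)} {F : ℕ → ℕ → ZMod n}
    (h : Packs n Q U A F S) {j : ℕ} (hj : j ∈ A) : foot n Q j (F j) ⊆ S := by
  rw [← h.cover]
  exact Finset.subset_biUnion_of_mem (fun j => foot n Q j (F j)) hj

/-- Union of two packings. -/
theorem Packable.union {A B : Finset ℕ} {S T : Finset (Elt n)} (hAB : Disjoint A B)
    (hST : Disjoint S T) (hA : Packable n Q U A S) (hB : Packable n Q U B T) :
    Packable n Q U (A ∪ B) (S ∪ T) := by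
  obtain ⟨F1, h1⟩ := hA
  obtain ⟨F2, h2⟩ := hB
  obtain ⟨F, hF⟩ : ∃ F : ℕ → ℕ → ZMod n, F = fun j => if j ∈ A then F1 j else F2 j := ⟨_, rfl⟩
  have hFA : ∀ j ∈ A, F1 j = F j := fun j hj => by rw [hF]; simp only [if_pos hj]
  have hFB : ∀ j ∈ B, F2 j = F j := fun j hj => by
    rw [hF]
    simp only [if_neg (Finset.disjoint_right.1 hAB hj)]
  have k1 := h1.congr hFA
  have k2 := h2.congr hFB
  refine ⟨F, fun j hj => ?_, fun i hi j hj hij => ?_, ?_⟩
  · rcases Finset.mem_union.1 hj with hj | hj
    · exact k1.fill j hj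
    · exact k2.fill j hj
  · rcases Finset.mem_union.1 hi with hi | hi <;> rcases Finset.mem_union.1 hj with hj | hj
    · exact k1.disj i hi j hj hij
    · exact Disjoint.mono (k1.foot_subset hi) (k2.foot_subset hj) hST
    · exact Disjoint.mono (k2.foot_subset hi) (k1.foot_subset hj) hST.symm
    · exact k2.disj i hi j hj hij
  · rw [Finset.union_biUnion, k1.cover, k2.cover]

/-- Module PU. -/
theorem stPackUnion : StPackUnion :=
  fun _ _ _ _ _ _ _ hAB hST hA hB => Packable.union hAB hST hA hB

/-- Finite union of packings. -/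
theorem packable_biUnion {ι : Type*} [DecidableEq ι] (I : Finset ι) (A : ι → Finset ℕ)
    (S : ι → Finset (Elt n)) (hA : ∀ i ∈ I, ∀ j ∈ I, i ≠ j → Disjoint (A i) (A j))
    (hS : ∀ i ∈ I, ∀ j ∈ I, i ≠ j → Disjoint (S i) (S j))
    (h : ∀ i ∈ I, Packable n Q U (A i) (S i)) : Packable n Q U (I.biUnion A) (I.biUnion S) := by
  induction I using Finset.induction_on with
  | empty =>
    simp only [Finset.biUnion_empty]
    exact packable_empty
  | insert a I ha ih =>
    rw [Finset.biUnion_insert, Finset.biUnion_insert]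
    refine Packable.union ?_ ?_ (h a (Finset.mem_insert_self a I)) (ih ?_ ?_ ?_)
    · rw [Finset.disjoint_biUnion_right]
      intro i hi
      exact hA a (Finset.mem_insert_self a I) i (Finset.mem_insert_of_mem hi)
        (fun e => ha (e ▸ hi))
    · rw [Finset.disjoint_biUnion_right]
      intro i hi
      exact hS a (Finset.mem_insert_self a I) i (Finset.mem_insert_of_mem hi)
        (fun e => ha (e ▸ hi))
    · exact fun i hi j hj => hA i (Finset.mem_insert_of_mem hi) j (Finset.mem_insert_of_mem hj)
    · exact fun i hi j hj => hS i (Finset.mem_insert_of_mem hi) j (Finset.mem_insert_of_mem hj)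
    · exact fun i hi => h i (Finset.mem_insert_of_mem hi)

/-- Union of three packings. -/
theorem Packable.union3 {A B C : Finset ℕ} {S T R : Finset (Elt n)} (hAB : Disjoint A B)
    (hAC : Disjoint A C) (hBC : Disjoint B C) (hST : Disjoint S T) (hSR : Disjoint S R)
    (hTR : Disjoint T R) (hA : Packable n Q U A S) (hB : Packable n Q U B T)
    (hC : Packable n Q U C R) : Packable n Q U (A ∪ B ∪ C) (S ∪ T ∪ R) :=
  Packable.union (Finset.disjoint_union_left.2 ⟨hAC, hBC⟩)
    (Finset.disjoint_union_left.2 ⟨hSR, hTR⟩) (Packable.union hAB hST hA hB) hC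

end Pool.Agent.DNA
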