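import Pool.Agent.Lib.MP_845d9b_co.Abs.Stmts

/-!
# Reserved blocks (section RS), helper96
-/

set_option autoImplicit false

namespace Pool.Agent.DNA

open Finset

namespace Res

/-- the selected elements of `X` -/
def sel (n s : ℕ) [NeZero s] (X : Finset ℕ) (g : Fin n → Fin s) : Finset ℕ :=
  X.filter fun k => ∃ h : k < n, g ⟨k, h⟩ = 0

lemma card_eq_zero_at (n s : ℕ) [NeZero s] (i : Fin n) :
    s * (univ.filter fun g : Fin n → Fin s => g i = 0).card = s ^ n := by
  classical
  have h1 : ∀ c : Fin s, (univ.filter fun g : Fin n → Fin s => g i = c).card =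
      (univ.filter fun g : Fin n → Fin s => g i = 0).card := by
    intro c
    refine Finset.card_bij' (fun g _ => Function.update g i 0)
      (fun g _ => Function.update g i c) ?_ ?_ ?_ ?_
    · intro g _
      simp
    · intro g _
      simp
    · intro g hg
      simp only [mem_filter, mem_univ, true_and] at hg
      ext j
      by_cases hj : j = i
      · subst hj; simp [hg]
      · simp [hj]
    · intro g hg
      simp only [mem_filter, mem_univ, true_and] at hg
      ext j
      by_cases hj : j = i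
      · subst hj; simp [hg]
      · simp [hj]
  have h2 : (univ : Finset (Fin n → Fin s)).card =
      ∑ c : Fin s, (univ.filter fun g : Fin n → Fin s => g i = c).card :=
    Finset.card_eq_sum_card_fiberwise (fun g _ => Finset.mem_coe.2 (mem_univ (g i)))
  rw [Finset.sum_congr rfl fun c _ => h1 c] at h2
  simp only [Finset.card_univ, Fintype.card_fun, Fintype.card_fin, sum_const, smul_eq_mul] at h2
  exact h2.symm

lemma sum_card_sel (n s : ℕ) [NeZero s] (X : Finset ℕ) (hX : X ⊆ range n) :
    s * ∑ g : Fin n → Fin s, (sel n s X g).card ≤ n * s ^ n := by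
  classical
  have h1 : ∑ g : Fin n → Fin s, (sel n s X g).card =
      ∑ k ∈ X, (univ.filter fun g : Fin n → Fin s => ∃ h : k < n, g ⟨k, h⟩ = 0).card := by
    simp only [sel, Finset.card_filter]
    exact Finset.sum_comm
  rw [h1, Finset.mul_sum]
  have h2 : ∀ k ∈ X, s * (univ.filter fun g : Fin n → Fin s =>
      ∃ h : k < n, g ⟨k, h⟩ = 0).card = s ^ n := by
    intro k hk
    have hkn : k < n := mem_range.1 (hX hk)
    rw [← card_eq_zero_at n s ⟨k, hkn⟩]
    congr 2
    ext g
    simp [hkn]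
  rw [Finset.sum_congr rfl h2, sum_const, smul_eq_mul]
  refine Nat.mul_le_mul_right _ ?_
  simpa using Finset.card_le_card hX

end Res

open Res in
theorem stRes (h : Nibble.StLower) : StRes := by
  classical
  intro c0 c1 hc0 hc1
  obtain ⟨s, hs, hsc⟩ : ∃ s : ℕ, 0 < s ∧ 4 ≤ (s : ℝ) * c1 := by
    refine ⟨⌈4 / c1⌉₊ + 1, Nat.succ_pos _, ?_⟩
    have h1 : 4 / c1 ≤ (⌈4 / c1⌉₊ : ℝ) := Nat.le_ceil _
    have h2 : 4 = 4 / c1 * c1 := by field_simp
    push_cast
    nlinarith
  have : NeZero s := ⟨hs.ne'⟩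
  have hs' : (0 : ℝ) < s := by exact_mod_cast hs
  have hs1 : (1 : ℝ) ≤ s := by exact_mod_cast hs
  obtain ⟨a, ha⟩ : ∃ a : ℝ, a = c0 / (4 * s) := ⟨_, rfl⟩
  have ha0 : 0 < a := by rw [ha]; positivity
  refine ⟨a, ha0, ⌈16 / a ^ 2⌉₊ + 1, ?_⟩
  intro n hn X H hX hHX hH
  have hn1 : 1 ≤ n := le_trans (Nat.le_add_left 1 _) hn
  have hn0 : (0 : ℝ) < n := by exact_mod_cast hn1
  have hna : 16 ≤ a ^ 2 * n := by
    have h1 : 16 / a ^ 2 ≤ (⌈16 / a ^ 2⌉₊ : ℝ) := Nat.le_ceil _
    have h2 : ((⌈16 / a ^ 2⌉₊ + 1 : ℕ) : ℝ) ≤ n := by exact_mod_cast hn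
    push_cast at h2
    have h3 : 16 / a ^ 2 ≤ n := by linarith
    rwa [div_le_iff₀ (by positivity), mul_comm] at h3
  -- bad functions
  let B0 : Finset (Fin n → Fin s) := univ.filter fun g => c1 * n < ((sel n s X g).card : ℝ)
  let B : Fin n → Finset (Fin n → Fin s) := fun x => univ.filter fun g =>
    ((H x ∩ sel n s X g).card : ℝ) < a * n
  have hB0 : (B0.card : ℝ) ≤ (s : ℝ) ^ n / 4 := by
    have h1 : (B0.card : ℝ) * (c1 * n) ≤ ∑ g : Fin n → Fin s, ((sel n s X g).card : ℝ) := by
      rw [← nsmul_eq_mul, ← Finset.sum_const]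
      calc ∑ _g ∈ B0, c1 * n ≤ ∑ g ∈ B0, ((sel n s X g).card : ℝ) :=
            Finset.sum_le_sum fun g hg => (mem_filter.1 hg).2.le
        _ ≤ _ := Finset.sum_le_sum_of_subset_of_nonneg (filter_subset _ _)
            fun _ _ _ => by positivity
    have h2 : (s : ℝ) * ∑ g : Fin n → Fin s, ((sel n s X g).card : ℝ) ≤ n * (s : ℝ) ^ n := by
      exact_mod_cast sum_card_sel n s X hX
    have h3 : (B0.card : ℝ) * 4 ≤ (s : ℝ) ^ n := by
      have h4 : (B0.card : ℝ) * (4 * n) ≤ n * (s : ℝ) ^ n := by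
        calc (B0.card : ℝ) * (4 * n) ≤ (B0.card : ℝ) * ((s * c1) * n) := by gcongr
          _ = s * ((B0.card : ℝ) * (c1 * n)) := by ring
          _ ≤ s * ∑ g : Fin n → Fin s, ((sel n s X g).card : ℝ) := by gcongr
          _ ≤ _ := h2
      have h5 : n * ((B0.card : ℝ) * 4) ≤ n * (s : ℝ) ^ n := by
        calc n * ((B0.card : ℝ) * 4) = (B0.card : ℝ) * (4 * n) := by ring
          _ ≤ _ := h4
      exact le_of_mul_le_mul_left h5 hn0
    linarith
  have hB : ∀ x, ((B x).card : ℝ) ≤ 2 * Real.exp (-(a * n)) * (s : ℝ) ^ n := by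
    intro x
    set t : ℕ := ⌈a * n⌉₊ with ht
    set I : Finset (Fin n) := univ.filter fun i : Fin n => (i : ℕ) ∈ H x with hI
    have hIcard : I.card = (H x).card := by
      rw [hI]
      refine Finset.card_bij (fun i _ => (i : ℕ)) ?_ ?_ ?_
      · intro i hi
        exact (mem_filter.1 hi).2
      · intro i _ j _ hij
        exact Fin.ext hij
      · intro k hk
        have hkn : k < n := mem_range.1 (hX (hHX x hk))
        exact ⟨⟨k, hkn⟩, by simpa using hk, rfl⟩
    have h1 := h (Fin n) (Fin n) s 1 t I (fun i => {i}) (fun i _ => by simp)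
      (fun i _ j _ hij => by simpa using hij)
    have h4 : ((B x).card : ℝ) ≤ 2 ^ t * (1 - (1 / (s : ℝ)) ^ 1 / 2) ^ I.card *
        (s : ℝ) ^ (Fintype.card (Fin n)) := by
      refine le_trans (Nat.cast_le.2 (Finset.card_le_card ?_)) h1
      intro g hg
      have hg' : ((H x ∩ sel n s X g).card : ℝ) < a * n := (mem_filter.1 hg).2
      simp only [mem_filter, mem_univ, true_and, mem_singleton, forall_eq]
      have h3 : (I.filter fun i => g i = 0).card = (H x ∩ sel n s X g).card := by
        refine Finset.card_bij (fun i _ => (i : ℕ)) ?_ ?_ ?_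
        · intro i hi
          rw [hI, filter_filter, mem_filter] at hi
          simp only [mem_inter, sel, mem_filter]
          exact ⟨hi.2.1, hHX x hi.2.1, i.2, hi.2.2⟩
        · intro i _ j _ hij
          exact Fin.ext hij
        · intro k hk
          simp only [mem_inter, sel, mem_filter] at hk
          obtain ⟨hk1, hk2, hkn, hk3⟩ := hk
          exact ⟨⟨k, hkn⟩, by simp [hI, hk1, hk3], rfl⟩
      have h5 : (I.filter fun i => g i = 0).card < t := by
        rw [h3, ht]
        exact Nat.lt_ceil.2 hg'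
      convert h5
    rw [Fintype.card_fin, hIcard, pow_one] at h4
    refine h4.trans ?_
    have hpos : 0 ≤ 1 - 1 / (s : ℝ) / 2 := by
      have : 1 / (s : ℝ) ≤ 1 := by rw [div_le_one hs']; exact hs1
      linarith
    have h5 : (1 - 1 / (s : ℝ) / 2) ^ (H x).card ≤ Real.exp (-(2 * (a * n))) := by
      calc (1 - 1 / (s : ℝ) / 2) ^ (H x).card
          ≤ (Real.exp (-(1 / (s : ℝ) / 2))) ^ (H x).card := by
            gcongr
            have := Real.add_one_le_exp (-(1 / (s : ℝ) / 2))
            linarith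
        _ = Real.exp (((H x).card : ℝ) * (-(1 / (s : ℝ) / 2))) := by
            rw [Real.exp_nat_mul]
        _ ≤ Real.exp (-(2 * (a * n))) := by
            apply Real.exp_le_exp.2
            have h6 := hH x
            have h7 : 2 * (a * n) = c0 * n * (1 / (s : ℝ) / 2) := by
              rw [ha]; field_simp; ring
            rw [h7]
            have h8 : 0 ≤ 1 / (s : ℝ) / 2 := by positivity
            nlinarith
    have h6 : (2 : ℝ) ^ t ≤ 2 * Real.exp (a * n) := by
      have h7 : (t : ℝ) < a * n + 1 := Nat.ceil_lt_add_one (by positivity)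
      have h8 : (2 : ℝ) ^ (t : ℝ) ≤ (2 : ℝ) ^ (a * n + 1) :=
        Real.rpow_le_rpow_of_exponent_le (by norm_num) h7.le
      rw [Real.rpow_natCast] at h8
      refine h8.trans ?_
      rw [Real.rpow_add (by norm_num), Real.rpow_one, mul_comm]
      gcongr
      rw [Real.rpow_def_of_pos (by norm_num)]
      apply Real.exp_le_exp.2
      have h9 : Real.log 2 ≤ 1 := by
        have := Real.log_two_lt_d9
        linarith
      have h10 : 0 ≤ a * n := by positivity
      nlinarith
    calc 2 ^ t * (1 - 1 / (s : ℝ) / 2) ^ (H x).card * (s : ℝ) ^ n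
        ≤ (2 * Real.exp (a * n)) * Real.exp (-(2 * (a * n))) * (s : ℝ) ^ n := by
          gcongr
      _ = 2 * Real.exp (-(a * n)) * (s : ℝ) ^ n := by
          rw [mul_assoc 2, ← Real.exp_add]
          congr 3
          ring
  have hsum : ((B0 ∪ univ.biUnion B).card : ℝ) < (s : ℝ) ^ n := by
    have h1 : ((B0 ∪ univ.biUnion B).card : ℝ) ≤ (B0.card : ℝ) + ∑ x, ((B x).card : ℝ) := by
      have h2 : (B0 ∪ univ.biUnion B).card ≤ B0.card + ∑ x, (B x).card :=
        (Finset.card_union_le _ _).trans (by gcongr; exact Finset.card_biUnion_le)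
      exact_mod_cast h2
    have h3 : ∑ x, ((B x).card : ℝ) ≤ (s : ℝ) ^ n / 4 := by
      calc ∑ x, ((B x).card : ℝ) ≤ ∑ _x : Fin n, 2 * Real.exp (-(a * n)) * (s : ℝ) ^ n :=
            Finset.sum_le_sum fun x _ => hB x
        _ = n * (2 * Real.exp (-(a * n))) * (s : ℝ) ^ n := by
            rw [sum_const, card_univ, Fintype.card_fin, nsmul_eq_mul]; ring
        _ ≤ (1 / 4) * (s : ℝ) ^ n := by
            gcongr
            have h4 : 0 ≤ a * n := by positivity
            have h5 := Real.quadratic_le_exp_of_nonneg h4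
            have h6 : 8 * n ≤ Real.exp (a * n) := by nlinarith
            rw [Real.exp_neg]
            have h7 : 0 < Real.exp (a * n) := Real.exp_pos _
            rw [← div_eq_mul_inv, ← mul_div_assoc, div_le_iff₀ h7]
            linarith
        _ = (s : ℝ) ^ n / 4 := by ring
    have h4 : 0 < (s : ℝ) ^ n := by positivity
    linarith
  obtain ⟨g, hg⟩ : ∃ g : Fin n → Fin s, g ∉ B0 ∪ univ.biUnion B := by
    by_contra hcon
    push Not at hcon
    have h1 : (B0 ∪ univ.biUnion B) = univ := Finset.eq_univ_iff_forall.2 hcon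
    rw [h1, card_univ, Fintype.card_fun, Fintype.card_fin, Fintype.card_fin] at hsum
    push_cast at hsum
    exact lt_irrefl _ hsum
  refine ⟨sel n s X g, filter_subset _ _, ?_, ?_⟩
  · by_contra hc
    exact hg (mem_union_left _ (mem_filter.2 ⟨mem_univ _, not_le.1 hc⟩))
  · intro x
    by_contra hc
    exact hg (mem_union_right _ (mem_biUnion.2 ⟨x, mem_univ _,
      mem_filter.2 ⟨mem_univ _, not_le.1 hc⟩⟩))

end Pool.Agent.DNA
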