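import Pool.Agent.Lib.MP_845d9b_co.Abs.Stmts

/-!
# StLower → StY: choice of the flexible elements by random labels
-/

set_option autoImplicit false

namespace Pool.Agent.DNA.YY

open Finset

/-- greedy independent set in a conflict graph -/
theorem exists_indep {ι : Type*} [DecidableEq ι] (D : ℕ) (r : ι → ι → Prop)
    (hsymm : ∀ i j, r i j → r j i) (C : ι → Finset ι) (I0 : Finset ι)
    (hC : ∀ i ∈ I0, (C i).card ≤ D)
    (hr : ∀ i ∈ I0, ∀ j ∈ I0, i ≠ j → r i j → j ∈ C i) :
    ∃ I ⊆ I0, (∀ i ∈ I, ∀ j ∈ I, i ≠ j → ¬ r i j) ∧ I0.card ≤ (D + 1) * I.card := by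
  induction I0 using Finset.strongInduction with
  | H I0 ih =>
    rcases I0.eq_empty_or_nonempty with rfl | ⟨i, hi⟩
    · exact ⟨∅, by simp, by simp, by simp⟩
    · have hss : I0 \ insert i (C i) ⊂ I0 := by
        refine ⟨sdiff_subset, fun h => ?_⟩
        have := h hi
        simp at this
      obtain ⟨I, hI, h1, h2⟩ := ih _ hss (fun j hj => hC j (mem_sdiff.mp hj).1)
        (fun j hj j' hj' => hr j (mem_sdiff.mp hj).1 j' (mem_sdiff.mp hj').1)
      have hiI : i ∉ I := fun h => by
        have := hI h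
        simp at this
      have hIC : ∀ j ∈ I, ¬ r i j := by
        intro j hj hij
        have h3 := mem_sdiff.mp (hI hj)
        have hne : i ≠ j := fun h => hiI (h ▸ hj)
        exact h3.2 (mem_insert_of_mem (hr i hi j h3.1 hne hij))
      refine ⟨insert i I, insert_subset hi (hI.trans sdiff_subset), ?_, ?_⟩
      · intro a ha b hb hab
        rcases mem_insert.mp ha with ha' | ha'
        · rcases mem_insert.mp hb with hb' | hb'
          · exact absurd (ha'.trans hb'.symm) hab
          · rw [ha']; exact hIC b hb'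
        · rcases mem_insert.mp hb with hb' | hb'
          · rw [hb']; exact fun h => hIC a ha' (hsymm _ _ h)
          · exact h1 a ha' b hb' hab
      · rw [card_insert_of_notMem hiI]
        have h4 : I0.card ≤ (I0 \ insert i (C i)).card + (insert i (C i)).card := by
          have := card_le_card (show I0 ⊆ (I0 \ insert i (C i)) ∪ insert i (C i) from fun x hx => by
            by_cases h : x ∈ insert i (C i)
            · exact mem_union_right _ h
            · exact mem_union_left _ (mem_sdiff.mpr ⟨hx, h⟩))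
          exact this.trans (card_union_le _ _)
        have h5 : (insert i (C i)).card ≤ D + 1 :=
          (card_insert_le _ _).trans (Nat.add_le_add_right (hC i hi) 1)
        have h6 : (D + 1) * (I.card + 1) = (D + 1) * I.card + (D + 1) := by ring
        omega

/-- one test -/
theorem test_bound (h : Nibble.StLower) {Ω ι : Type} [Fintype Ω] [DecidableEq Ω] [DecidableEq ι]
    (s t D L : ℕ) [NeZero s] (hs : 1 ≤ s) (I0 : Finset ι) (S : ι → Finset Ω) (C : ι → Finset ι)
    (hq : ∀ i ∈ I0, (S i).card ≤ 5) (hC : ∀ i ∈ I0, (C i).card ≤ D)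
    (hr : ∀ i ∈ I0, ∀ j ∈ I0, i ≠ j → ¬ Disjoint (S i) (S j) → j ∈ C i)
    (hL : (D + 1) * L ≤ I0.card) :
    (((univ.filter fun g : Ω → Fin s =>
        (I0.filter fun i => ∀ x ∈ S i, g x = 0).card < t).card : ℝ)
      ≤ 2 ^ t * (1 - (1 / (s : ℝ)) ^ 5 / 2) ^ L * (s : ℝ) ^ (Fintype.card Ω)) := by
  obtain ⟨I, hI, h1, h2⟩ := exists_indep D (fun i j => ¬ Disjoint (S i) (S j))
    (fun i j hij hji => hij hji.symm) C I0 hC hr
  have hLI : L ≤ I.card := by
    have := hL.trans h2
    exact Nat.le_of_mul_le_mul_left this (by omega)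
  have h3 := h Ω I s 5 t univ (fun i => S i) (fun i _ => hq i (hI i.2))
    (fun i _ j _ hij => by
      have := h1 i i.2 j j.2 (fun hh => hij (Subtype.ext hh))
      exact not_not.mp this)
  have h4 : (univ.filter fun g : Ω → Fin s =>
        (I0.filter fun i => ∀ x ∈ S i, g x = 0).card < t) ⊆
      univ.filter fun g : Ω → Fin s =>
        ((univ : Finset I).filter fun i : I => ∀ x ∈ S (i : ι), g x = 0).card < t := by
    intro g hg
    simp only [mem_filter, mem_univ, true_and] at hg ⊢
    refine lt_of_le_of_lt ?_ hg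
    refine card_le_card_of_injOn (fun i : I => (i : ι)) ?_ ?_
    · intro i hi
      simp only [coe_filter, mem_univ, true_and, Set.mem_ofPred_eq] at hi ⊢
      exact ⟨hI i.2, hi⟩
    · intro i _ j _ hij
      exact Subtype.ext hij
  have h5 : ((univ : Finset I)).card = I.card := by simp
  rw [h5] at h3
  have h6 : (0 : ℝ) < s := by exact_mod_cast hs
  have h7 : (1 / (s : ℝ)) ≤ 1 := by
    rw [div_le_one h6]
    exact_mod_cast hs
  have h8 : (1 / (s : ℝ)) ^ 5 ≤ 1 := pow_le_one₀ (by positivity) h7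
  have h9 : (0 : ℝ) ≤ (1 / (s : ℝ)) ^ 5 := by positivity
  calc (((univ.filter fun g : Ω → Fin s =>
        (I0.filter fun i => ∀ x ∈ S i, g x = 0).card < t).card : ℝ))
      ≤ _ := by exact_mod_cast card_le_card h4
    _ ≤ _ := h3
    _ ≤ _ := by
      apply mul_le_mul_of_nonneg_right _ (by positivity)
      apply mul_le_mul_of_nonneg_left _ (by positivity)
      exact pow_le_pow_of_le_one (by linarith) (by linarith) hLI

/-- the numerical part -/
theorem numeric (ρ : ℝ) (h0 : 0 < ρ) (h1 : ρ < 1) (P : ℕ) (hP : 0 < P) :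
    ∃ c0 : ℝ, 0 < c0 ∧ ∃ N : ℕ, ∀ n : ℕ, N ≤ n →
      3 * (n : ℝ) ^ 4 * (2 ^ ⌈c0 * n⌉₊ * ρ ^ (n / P)) < 3 / 4 := by
  have hlr : Real.log ρ < 0 := Real.log_neg h0 h1
  have hl2 : 0 < Real.log 2 := Real.log_pos (by norm_num)
  have hPr : (0 : ℝ) < P := by exact_mod_cast hP
  set κ : ℝ := -Real.log ρ / (2 * P) with hκ
  have hκ0 : 0 < κ := by
    rw [hκ]; exact div_pos (by linarith) (by positivity)
  refine ⟨κ / Real.log 2, by positivity, ?_⟩
  set A : ℝ := Real.exp (Real.log 2 - Real.log ρ) with hA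
  have hA0 : 0 < A := Real.exp_pos _
  have ht : Filter.Tendsto (fun n : ℕ => (κ * (n : ℝ)) ^ 4 * Real.exp (-(κ * (n : ℝ))))
      Filter.atTop (nhds 0) :=
    (Real.tendsto_pow_mul_exp_neg_atTop_nhds_zero 4).comp
      (tendsto_natCast_atTop_atTop.const_mul_atTop hκ0)
  have ht2 : Filter.Tendsto (fun n : ℕ => (3 * A / κ ^ 4) *
      ((κ * (n : ℝ)) ^ 4 * Real.exp (-(κ * (n : ℝ))))) Filter.atTop (nhds 0) := by
    have := ht.const_mul (3 * A / κ ^ 4)
    rwa [mul_zero] at this
  obtain ⟨N, hN⟩ := Filter.eventually_atTop.mp (ht2.eventually_lt_const (show (0 : ℝ) < 3 / 4 by norm_num))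
  refine ⟨N, fun n hn => lt_of_le_of_lt ?_ (hN n hn)⟩
  have e1 : (2 : ℝ) ^ ⌈κ / Real.log 2 * n⌉₊ ≤ Real.exp (κ * n + Real.log 2) := by
    rw [← Real.exp_log (show (0 : ℝ) < 2 by norm_num), ← Real.exp_nat_mul, Real.exp_log (by norm_num)]
    apply Real.exp_le_exp.mpr
    have hc := (Nat.ceil_lt_add_one (show 0 ≤ κ / Real.log 2 * (n : ℝ) by positivity)).le
    calc (⌈κ / Real.log 2 * (n : ℝ)⌉₊ : ℝ) * Real.log 2
        ≤ (κ / Real.log 2 * n + 1) * Real.log 2 := mul_le_mul_of_nonneg_right hc hl2.le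
      _ = κ * n + Real.log 2 := by field_simp
  have e2 : ρ ^ (n / P) ≤ Real.exp (-(2 * κ * n) - Real.log ρ) := by
    conv_lhs => rw [← Real.exp_log h0]
    rw [← Real.exp_nat_mul]
    apply Real.exp_le_exp.mpr
    have hdiv : (n : ℝ) / P - 1 ≤ ((n / P : ℕ) : ℝ) := by
      have h3 := Nat.lt_floor_add_one ((n : ℝ) / P)
      rw [Nat.floor_div_natCast, Nat.floor_natCast] at h3
      linarith
    have h4 : ((n / P : ℕ) : ℝ) * Real.log ρ ≤ ((n : ℝ) / P - 1) * Real.log ρ :=
      mul_le_mul_of_nonpos_right hdiv hlr.le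
    have h5 : ((n : ℝ) / P - 1) * Real.log ρ = -(2 * κ * n) - Real.log ρ := by
      rw [hκ]; field_simp
    linarith
  have e3 : (2 : ℝ) ^ ⌈κ / Real.log 2 * n⌉₊ * ρ ^ (n / P) ≤ A * Real.exp (-(κ * n)) := by
    calc (2 : ℝ) ^ ⌈κ / Real.log 2 * n⌉₊ * ρ ^ (n / P)
        ≤ Real.exp (κ * n + Real.log 2) * Real.exp (-(2 * κ * n) - Real.log ρ) :=
          mul_le_mul e1 e2 (by positivity) (Real.exp_pos _).le
      _ = A * Real.exp (-(κ * n)) := by
          rw [hA, ← Real.exp_add, ← Real.exp_add]; congr 1; ring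
  calc 3 * (n : ℝ) ^ 4 * (2 ^ ⌈κ / Real.log 2 * n⌉₊ * ρ ^ (n / P))
      ≤ 3 * (n : ℝ) ^ 4 * (A * Real.exp (-(κ * n))) := by
        apply mul_le_mul_of_nonneg_left e3 (by positivity)
    _ = (3 * A / κ ^ 4) * ((κ * (n : ℝ)) ^ 4 * Real.exp (-(κ * (n : ℝ)))) := by
        field_simp

section zmod

variable {n : ℕ} [NeZero n]

theorem card_double (c : ZMod n) : (univ.filter fun w : ZMod n => w + w = c).card ≤ 2 := by
  have key : ∀ d : ZMod n, d + d = 0 → d = 0 ∨ d = ((n / 2 : ℕ) : ZMod n) := by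
    intro d hd
    have h1 : ((d.val + d.val : ℕ) : ZMod n) = 0 := by
      push_cast; rw [ZMod.natCast_zmod_val]; exact hd
    rw [ZMod.natCast_eq_zero_iff] at h1
    have h2 := ZMod.val_lt d
    obtain ⟨c, hc⟩ := h1
    have hc2 : c < 2 := by
      by_contra hcon
      push Not at hcon
      have := Nat.mul_le_mul_left n hcon
      omega
    interval_cases c
    · left
      have : d.val = 0 := by omega
      rwa [ZMod.val_eq_zero] at this
    · right
      have : d.val = n / 2 := by omega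
      rw [← this, ZMod.natCast_zmod_val]
  rcases (univ.filter fun w : ZMod n => w + w = c).eq_empty_or_nonempty with he | ⟨w0, hw0⟩
  · rw [he]; simp
  · have h0 := (mem_filter.mp hw0).2
    have hsub : (univ.filter fun w : ZMod n => w + w = c) ⊆ {w0, w0 + ((n / 2 : ℕ) : ZMod n)} := by
      intro w hw
      have h1 := (mem_filter.mp hw).2
      have h2 : (w - w0) + (w - w0) = 0 := by
        have : (w - w0) + (w - w0) = (w + w) - (w0 + w0) := by ring
        rw [this, h1, h0, sub_self]
      rcases key _ h2 with h3 | h3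
      · rw [mem_insert]; left; exact sub_eq_zero.mp h3
      · rw [mem_insert, mem_singleton]; right; rw [← h3]; ring
    exact (card_le_card hsub).trans card_le_two

omit [NeZero n] in
theorem cl_eq {w w' : ZMod n} : cl w = cl w' ↔ w = w' ∨ w = 1 - w' := by
  unfold cl
  rw [Sym2.eq_iff]
  constructor
  · rintro (⟨h, _⟩ | ⟨h, _⟩)
    · exact Or.inl h
    · exact Or.inr h
  · rintro (h | h)
    · subst h; exact Or.inl ⟨rfl, rfl⟩
    · subst h; exact Or.inr ⟨rfl, by ring⟩

theorem card_cl (c : Sym2 (ZMod n)) : (univ.filter fun w : ZMod n => cl w = c).card ≤ 2 := by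
  rcases (univ.filter fun w : ZMod n => cl w = c).eq_empty_or_nonempty with he | ⟨w0, hw0⟩
  · rw [he]; simp
  · have h0 := (mem_filter.mp hw0).2
    have hsub : (univ.filter fun w : ZMod n => cl w = c) ⊆ {w0, 1 - w0} := by
      intro w hw
      have h1 := (mem_filter.mp hw).2
      rw [← h0, cl_eq] at h1
      rw [mem_insert, mem_singleton]
      exact h1
    exact (card_le_card hsub).trans card_le_two

/-- pull-back of a count along an injective map -/
theorem card_comp_le {p : ZMod n → Prop} [DecidablePred p] (φ : ZMod n → ZMod n)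
    (hφ : Function.Injective φ) (D : ℕ) (h : (univ.filter p).card ≤ D) :
    (univ.filter fun m => p (φ m)).card ≤ D := by
  refine le_trans ?_ h
  refine card_le_card_of_injOn φ ?_ (fun a _ b _ hab => hφ hab)
  intro m hm
  simp only [coe_filter, mem_univ, true_and, Set.mem_ofPred_eq] at hm ⊢
  exact hm

theorem card_not_clOk : (univ.filter fun w : ZMod n => ¬ ClOk w).card ≤ 4 := by
  have hsub : (univ.filter fun w : ZMod n => ¬ ClOk w) ⊆
      {0, 1} ∪ univ.filter fun w : ZMod n => w + w = 1 := by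
    intro w hw
    have h1 := (mem_filter.mp hw).2
    rw [mem_union, mem_insert, mem_singleton, mem_filter]
    unfold ClOk at h1
    by_contra hcon
    apply h1
    push Not at hcon
    exact ⟨hcon.1.1, hcon.1.2, fun h => hcon.2 (mem_univ _) h⟩
  have h2 := card_double (n := n) 1
  have h3 : ({0, 1} : Finset (ZMod n)).card ≤ 2 := card_le_two
  have h4 := (card_le_card hsub).trans (card_union_le _ _)
  omega

omit [NeZero n] in
theorem sub_inj (a : ZMod n) : Function.Injective fun m : ZMod n => m - a := by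
  intro x y h
  exact sub_left_inj.mp h

omit [NeZero n] in
theorem sub_inj' (b : ZMod n) : Function.Injective fun m : ZMod n => b - m := by
  intro x y h
  exact sub_right_inj.mp h

theorem par_card (z : ZMod n) : n ≤ 2 * (univ.filter fun m : ZMod n => par m = par z).card := by
  by_cases hn : Even n
  · have h2 : 2 ∣ n := hn.two_dvd
    have hpar : ∀ x : ZMod n, par x = ZMod.castHom h2 (ZMod 2) x := by
      intro x
      unfold par
      rw [if_pos hn, ZMod.castHom_apply, ZMod.cast_eq_val]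
    simp only [hpar]
    set φ := ZMod.castHom h2 (ZMod 2) with hφ
    set c := φ z
    have hle : ∀ c : ZMod 2, (univ.filter fun m : ZMod n => φ m = c + 1).card ≤
        (univ.filter fun m : ZMod n => φ m = c).card := by
      intro c
      refine card_le_card_of_injOn (fun m => m + 1) ?_ (fun a _ b _ hab => add_right_cancel hab)
      intro m hm
      simp only [coe_filter, mem_univ, true_and, Set.mem_ofPred_eq] at hm ⊢
      rw [map_add, map_one, hm]
      have : (1 : ZMod 2) + 1 = 0 := by decide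
      rw [add_assoc, this, add_zero]
    have hcov : (univ : Finset (ZMod n)) ⊆ (univ.filter fun m : ZMod n => φ m = c) ∪
        (univ.filter fun m : ZMod n => φ m = c + 1) := by
      intro m _
      rw [mem_union, mem_filter, mem_filter]
      have : ∀ x y : ZMod 2, x = y ∨ x = y + 1 := by decide
      rcases this (φ m) c with h | h
      · exact Or.inl ⟨mem_univ _, h⟩
      · exact Or.inr ⟨mem_univ _, h⟩
    have h3 := (card_le_card hcov).trans (card_union_le _ _)
    rw [card_univ, ZMod.card] at h3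
    have h4 := hle c
    omega
  · have : (univ.filter fun m : ZMod n => par m = par z) = univ := by
      apply filter_true_of_mem
      intro m _
      unfold par
      rw [if_neg hn, if_neg hn]
    rw [this, card_univ, ZMod.card]
    omega

theorem lower_count (z : ZMod n) (Bad : Finset (Elt n)) (S : ZMod n → Finset (Elt n))
    (p : ZMod n → Prop) [DecidablePred p] (hp : (univ.filter fun m => ¬ p m).card ≤ 8)
    (hS : ∀ y, (univ.filter fun m => y ∈ S m).card ≤ 4) :
    n ≤ 2 * (univ.filter fun m => par m = par z ∧ p m ∧ Disjoint (S m) Bad).card + 16 +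
      8 * Bad.card := by
  have h1 := par_card z
  have hsub : (univ.filter fun m : ZMod n => par m = par z) ⊆
      ((univ.filter fun m => par m = par z ∧ p m ∧ Disjoint (S m) Bad) ∪
        (univ.filter fun m => ¬ p m)) ∪ Bad.biUnion fun y => univ.filter fun m => y ∈ S m := by
    intro m hm
    have hm2 := (mem_filter.mp hm).2
    by_cases h2 : p m
    · by_cases h3 : Disjoint (S m) Bad
      · exact mem_union_left _ (mem_union_left _ (mem_filter.mpr ⟨mem_univ _, hm2, h2, h3⟩))
      · rw [Finset.not_disjoint_iff] at h3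
        obtain ⟨y, hy1, hy2⟩ := h3
        exact mem_union_right _ (mem_biUnion.mpr ⟨y, hy2, mem_filter.mpr ⟨mem_univ _, hy1⟩⟩)
    · exact mem_union_left _ (mem_union_right _ (mem_filter.mpr ⟨mem_univ _, h2⟩))
  have h2 := (card_le_card hsub).trans ((card_union_le _ _).trans
    (Nat.add_le_add_right (card_union_le _ _) _))
  have h3 : (Bad.biUnion fun y => univ.filter fun m => y ∈ S m).card ≤ Bad.card * 4 :=
    card_biUnion_le_card_mul _ _ _ fun y _ => hS y
  omega

end zmod

section markov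

theorem card_zero {Ω : Type} [Fintype Ω] [DecidableEq Ω] (s : ℕ) [NeZero s] (y : Ω) :
    s * (univ.filter fun g : Ω → Fin s => g y = 0).card = s ^ Fintype.card Ω := by
  have h1 : (univ.filter fun g : Ω → Fin s => g y = 0) =
      Fintype.piFinset (fun x => if x = y then ({0} : Finset (Fin s)) else univ) := by
    ext g
    simp only [mem_filter, mem_univ, true_and, Fintype.mem_piFinset]
    constructor
    · intro h x
      by_cases hx : x = y
      · subst hx; simp [h]
      · simp [hx]
    · intro h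
      have := h y
      simpa using this
  rw [h1, Fintype.card_piFinset]
  have h2 : ∀ x : Ω, (if x = y then ({0} : Finset (Fin s)) else univ).card =
      if x = y then 1 else s := by
    intro x
    by_cases hx : x = y <;> simp [hx]
  simp only [h2]
  have h3 : (∏ x : Ω, if x = y then s else 1) = s := by
    rw [Finset.prod_ite_eq']; simp
  calc s * ∏ x : Ω, (if x = y then 1 else s)
      = (∏ x : Ω, if x = y then s else 1) * ∏ x : Ω, (if x = y then 1 else s) := by rw [h3]
    _ = ∏ x : Ω, ((if x = y then s else 1) * (if x = y then 1 else s)) := by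
        rw [Finset.prod_mul_distrib]
    _ = ∏ _x : Ω, s := by
        apply Finset.prod_congr rfl
        intro x _
        by_cases hx : x = y <;> simp [hx]
    _ = s ^ Fintype.card Ω := by simp

theorem markov {Ω : Type} [Fintype Ω] [DecidableEq Ω] (s : ℕ) [NeZero s] (A : Finset Ω) (M : ℝ)
    (hM : 0 < M) (hA : 8 * (A.card : ℝ) ≤ 2 * M * s) :
    ((univ.filter fun g : Ω → Fin s => M < ((A.filter fun y => g y = 0).card : ℝ)).card : ℝ) ≤
      (s : ℝ) ^ Fintype.card Ω / 4 := by
  have h1 : ∑ g : Ω → Fin s, (A.filter fun y => g y = 0).card =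
      ∑ y ∈ A, (univ.filter fun g : Ω → Fin s => g y = 0).card := by
    simp only [card_filter]
    rw [Finset.sum_comm]
  have h2 : s * ∑ g : Ω → Fin s, (A.filter fun y => g y = 0).card =
      A.card * s ^ Fintype.card Ω := by
    rw [h1, Finset.mul_sum]
    rw [Finset.sum_congr rfl fun y _ => card_zero s y]
    simp
  have h3 : (s : ℝ) * ∑ g : Ω → Fin s, ((A.filter fun y => g y = 0).card : ℝ) =
      A.card * (s : ℝ) ^ Fintype.card Ω := by exact_mod_cast h2
  set B := univ.filter fun g : Ω → Fin s => M < ((A.filter fun y => g y = 0).card : ℝ) with hB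
  have h4 : (B.card : ℝ) * M ≤ ∑ g : Ω → Fin s, ((A.filter fun y => g y = 0).card : ℝ) := by
    calc (B.card : ℝ) * M = ∑ _g ∈ B, M := by rw [Finset.sum_const, nsmul_eq_mul]
      _ ≤ ∑ g ∈ B, ((A.filter fun y => g y = 0).card : ℝ) :=
          Finset.sum_le_sum fun g hg => (mem_filter.mp hg).2.le
      _ ≤ _ := Finset.sum_le_sum_of_subset_of_nonneg (subset_univ _)
          (fun g _ _ => Nat.cast_nonneg _)
  have hs : (0 : ℝ) < s := by exact_mod_cast Nat.pos_of_neZero s
  have hT : (0 : ℝ) < (s : ℝ) ^ Fintype.card Ω := by positivity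
  have h5 : (s : ℝ) * ((B.card : ℝ) * M) ≤ A.card * (s : ℝ) ^ Fintype.card Ω := by
    rw [← h3]; exact mul_le_mul_of_nonneg_left h4 hs.le
  have h6 : 8 * ((s : ℝ) * ((B.card : ℝ) * M)) ≤ 2 * M * s * (s : ℝ) ^ Fintype.card Ω := by
    calc 8 * ((s : ℝ) * ((B.card : ℝ) * M)) ≤ 8 * (A.card * (s : ℝ) ^ Fintype.card Ω) := by
          linarith
      _ = 8 * (A.card : ℝ) * (s : ℝ) ^ Fintype.card Ω := by ring
      _ ≤ _ := mul_le_mul_of_nonneg_right hA hT.le
  have hMs : 0 < M * s := by positivity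
  have h7 : (M * s) * (8 * (B.card : ℝ)) ≤ (M * s) * (2 * (s : ℝ) ^ Fintype.card Ω) := by
    calc (M * s) * (8 * (B.card : ℝ)) = 8 * ((s : ℝ) * ((B.card : ℝ) * M)) := by ring
      _ ≤ _ := h6
      _ = _ := by ring
  have h8 := le_of_mul_le_mul_left h7 hMs
  linarith

end markov

section tests

variable {n : ℕ} [NeZero n]

/-- the elements of the fifth test -/
def s5 (k : ℕ) (w a m : ZMod n) : Finset (Elt n) :=
  {Sum.inl m, Sum.inl (m - (k : ZMod n)), Sum.inl (m + w), Sum.inl (m + w - ((k : ZMod n) + 1)),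
    Sum.inr (cl (m - a))}

/-- the candidates of the fourth test -/
def i4 (Bad : Finset (Elt n)) (k : ℕ) (a b z : ZMod n) : Finset (ZMod n) :=
  univ.filter fun m => par m = par z ∧ (ClOk (m - a) ∧ ClOk (b - m)) ∧
    Disjoint (sta n k a b m) Bad

/-- the candidates of the fifth test -/
def i5 (Bad : Finset (Elt n)) (k : ℕ) (w a : ZMod n) : Finset (ZMod n) :=
  univ.filter fun m => par m = par (0 : ZMod n) ∧ ClOk (m - a) ∧ Disjoint (s5 k w a m) Bad

omit [NeZero n] in
theorem mem_sta {k : ℕ} {a b v : ZMod n} {y : Elt n} : y ∈ sta n k a b v ↔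
    y = Sum.inl v ∨ y = Sum.inl (v - (k : ZMod n)) ∨ y = Sum.inr (cl (v - a)) ∨
      y = Sum.inr (cl (b - v)) := by
  simp [sta]

omit [NeZero n] in
theorem mem_s5 {k : ℕ} {w a m : ZMod n} {y : Elt n} : y ∈ s5 k w a m ↔
    y = Sum.inl m ∨ y = Sum.inl (m - (k : ZMod n)) ∨ y = Sum.inl (m + w) ∨
      y = Sum.inl (m + w - ((k : ZMod n) + 1)) ∨ y = Sum.inr (cl (m - a)) := by
  simp [s5]

omit [NeZero n] in
theorem card_sta (k : ℕ) (a b v : ZMod n) : (sta n k a b v).card ≤ 5 :=
  (card_le_four).trans (by norm_num)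

omit [NeZero n] in
theorem card_s5 (k : ℕ) (w a m : ZMod n) : (s5 k w a m).card ≤ 5 := card_le_five

theorem i4_card (Bad : Finset (Elt n)) (k : ℕ) (a b z : ZMod n) :
    n ≤ 2 * (i4 Bad k a b z).card + 16 + 8 * Bad.card := by
  refine lower_count z Bad (fun m => sta n k a b m) (fun m => ClOk (m - a) ∧ ClOk (b - m)) ?_ ?_
  · have hsub : (univ.filter fun m : ZMod n => ¬ (ClOk (m - a) ∧ ClOk (b - m))) ⊆
        (univ.filter fun m : ZMod n => ¬ ClOk (m - a)) ∪
          (univ.filter fun m : ZMod n => ¬ ClOk (b - m)) := by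
      intro m hm
      have := (mem_filter.mp hm).2
      rw [mem_union, mem_filter, mem_filter]
      rw [not_and_or] at this
      exact this.imp (fun h => ⟨mem_univ _, h⟩) (fun h => ⟨mem_univ _, h⟩)
    have h1 := card_comp_le (fun m : ZMod n => m - a) (sub_inj a) 4 (card_not_clOk (n := n))
    have h2 := card_comp_le (fun m : ZMod n => b - m) (sub_inj' b) 4 (card_not_clOk (n := n))
    have h3 := (card_le_card hsub).trans (card_union_le _ _)
    omega
  · rintro (x | c)
    · have hsub : (univ.filter fun m : ZMod n => (Sum.inl x : Elt n) ∈ sta n k a b m) ⊆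
          {x, x + (k : ZMod n)} := by
        intro m hm
        have := (mem_filter.mp hm).2
        rw [mem_sta] at this
        rw [mem_insert, mem_singleton]
        rcases this with h | h | h | h
        · left; exact (Sum.inl.inj h).symm
        · right; rw [Sum.inl.inj h]; ring
        · cases h
        · cases h
      exact ((card_le_card hsub).trans card_le_two).trans (by norm_num)
    · have hsub : (univ.filter fun m : ZMod n => (Sum.inr c : Elt n) ∈ sta n k a b m) ⊆
          (univ.filter fun m : ZMod n => cl (m - a) = c) ∪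
            (univ.filter fun m : ZMod n => cl (b - m) = c) := by
        intro m hm
        have := (mem_filter.mp hm).2
        rw [mem_sta] at this
        rw [mem_union, mem_filter, mem_filter]
        rcases this with h | h | h | h
        · cases h
        · cases h
        · left; exact ⟨mem_univ _, (Sum.inr.inj h).symm⟩
        · right; exact ⟨mem_univ _, (Sum.inr.inj h).symm⟩
      have h1 := card_comp_le (fun m : ZMod n => m - a) (sub_inj a) 2 (card_cl c)
      have h2 := card_comp_le (fun m : ZMod n => b - m) (sub_inj' b) 2 (card_cl c)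
      have h3 := (card_le_card hsub).trans (card_union_le _ _)
      omega

theorem i5_card (Bad : Finset (Elt n)) (k : ℕ) (w a : ZMod n) :
    n ≤ 2 * (i5 Bad k w a).card + 16 + 8 * Bad.card := by
  refine lower_count 0 Bad (fun m => s5 k w a m) (fun m => ClOk (m - a)) ?_ ?_
  · have h1 := card_comp_le (fun m : ZMod n => m - a) (sub_inj a) 4 (card_not_clOk (n := n))
    omega
  · rintro (x | c)
    · have hsub : (univ.filter fun m : ZMod n => (Sum.inl x : Elt n) ∈ s5 k w a m) ⊆
          {x, x + (k : ZMod n), x - w, x - w + ((k : ZMod n) + 1)} := by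
        intro m hm
        have := (mem_filter.mp hm).2
        rw [mem_s5] at this
        rw [mem_insert, mem_insert, mem_insert, mem_singleton]
        rcases this with h | h | h | h | h
        · left; exact (Sum.inl.inj h).symm
        · right; left; rw [Sum.inl.inj h]; ring
        · right; right; left; rw [Sum.inl.inj h]; ring
        · right; right; right; rw [Sum.inl.inj h]; ring
        · cases h
      exact (card_le_card hsub).trans card_le_four
    · have hsub : (univ.filter fun m : ZMod n => (Sum.inr c : Elt n) ∈ s5 k w a m) ⊆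
          (univ.filter fun m : ZMod n => cl (m - a) = c) := by
        intro m hm
        have := (mem_filter.mp hm).2
        rw [mem_s5] at this
        rw [mem_filter]
        rcases this with h | h | h | h | h
        · cases h
        · cases h
        · cases h
        · cases h
        · exact ⟨mem_univ _, (Sum.inr.inj h).symm⟩
      have h1 := card_comp_le (fun m : ZMod n => m - a) (sub_inj a) 2 (card_cl c)
      have h3 := card_le_card hsub
      omega

/-- conflicts of the fourth test -/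
def c4 (k : ℕ) (a b m : ZMod n) : Finset (ZMod n) :=
  {m + (k : ZMod n), m - (k : ZMod n), 1 + a + a - m, b + b - 1 - m, a + b - m} ∪
    {m + (b - a - 1), m - (b - a - 1)}

/-- conflicts of the fifth test -/
def c5 (k : ℕ) (w a m : ZMod n) : Finset (ZMod n) :=
  insert (1 + a + a - m) ((univ : Finset (Fin 4 × Fin 4)).image fun p =>
    m + (![0, -(k : ZMod n), w, w - ((k : ZMod n) + 1)] : Fin 4 → ZMod n) p.1 -
      (![0, -(k : ZMod n), w, w - ((k : ZMod n) + 1)] : Fin 4 → ZMod n) p.2)

omit [NeZero n] in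
theorem card_c4 (k : ℕ) (a b m : ZMod n) : (c4 k a b m).card ≤ 17 := by
  unfold c4
  refine (card_union_le _ _).trans ?_
  have h1 : ({m + (k : ZMod n), m - (k : ZMod n), 1 + a + a - m, b + b - 1 - m, a + b - m} :
    Finset (ZMod n)).card ≤ 5 := card_le_five
  have h2 : ({m + (b - a - 1), m - (b - a - 1)} : Finset (ZMod n)).card ≤ 2 := card_le_two
  omega

omit [NeZero n] in
theorem card_c5 (k : ℕ) (w a m : ZMod n) : (c5 k w a m).card ≤ 17 := by
  unfold c5
  refine (card_insert_le _ _).trans ?_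
  have := (card_image_le (s := (univ : Finset (Fin 4 × Fin 4))) (f := fun p =>
    m + (![0, -(k : ZMod n), w, w - ((k : ZMod n) + 1)] : Fin 4 → ZMod n) p.1 -
      (![0, -(k : ZMod n), w, w - ((k : ZMod n) + 1)] : Fin 4 → ZMod n) p.2))
  simp only [card_univ, Fintype.card_prod, Fintype.card_fin] at this
  omega

omit [NeZero n] in
theorem conf4 (k : ℕ) (a b m m' : ZMod n) (hne : m ≠ m')
    (h : ¬ Disjoint (sta n k a b m) (sta n k a b m')) : m' ∈ c4 k a b m := by
  rw [Finset.not_disjoint_iff] at h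
  obtain ⟨y, h1, h2⟩ := h
  rw [mem_sta] at h1 h2
  unfold c4
  simp only [mem_union, mem_insert, mem_singleton]
  rcases h1 with h1 | h1 | h1 | h1 <;> rcases h2 with h2 | h2 | h2 | h2 <;> rw [h1] at h2
  · exact absurd (Sum.inl.inj h2) hne
  · left; left; linear_combination -(Sum.inl.inj h2)
  · cases h2
  · cases h2
  · left; right; left; linear_combination -(Sum.inl.inj h2)
  · exact absurd (sub_left_inj.mp (Sum.inl.inj h2)) hne
  · cases h2
  · cases h2
  · cases h2
  · cases h2
  · rcases cl_eq.mp (Sum.inr.inj h2) with h3 | h3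
    · exact absurd (sub_left_inj.mp h3) hne
    · left; right; right; left; linear_combination h3
  · rcases cl_eq.mp (Sum.inr.inj h2) with h3 | h3
    · left; right; right; right; right; linear_combination h3
    · right; left; linear_combination -h3
  · cases h2
  · cases h2
  · rcases cl_eq.mp (Sum.inr.inj h2) with h3 | h3
    · left; right; right; right; right; linear_combination -h3
    · right; right; linear_combination h3
  · rcases cl_eq.mp (Sum.inr.inj h2) with h3 | h3
    · exact absurd (sub_right_inj.mp h3) hne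
    · left; right; right; right; left; linear_combination -h3

omit [NeZero n] in
theorem conf5 (k : ℕ) (w a m m' : ZMod n) (hne : m ≠ m')
    (h : ¬ Disjoint (s5 k w a m) (s5 k w a m')) : m' ∈ c5 k w a m := by
  rw [Finset.not_disjoint_iff] at h
  obtain ⟨y, h1, h2⟩ := h
  have key : ∀ i j : Fin 4, m + (![0, -(k : ZMod n), w, w - ((k : ZMod n) + 1)] : Fin 4 → ZMod n) i =
      m' + (![0, -(k : ZMod n), w, w - ((k : ZMod n) + 1)] : Fin 4 → ZMod n) j → m' ∈ c5 k w a m := by
    intro i j hij
    unfold c5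
    apply mem_insert_of_mem
    rw [mem_image]
    exact ⟨(i, j), mem_univ _, by
      show m + _ - _ = m'
      rw [hij]; ring⟩
  have hof : ∀ (v : ZMod n) (x : ZMod n), (Sum.inl x : Elt n) ∈ s5 k w a v →
      ∃ i : Fin 4, x = v + (![0, -(k : ZMod n), w, w - ((k : ZMod n) + 1)] : Fin 4 → ZMod n) i := by
    intro v x hx
    rw [mem_s5] at hx
    rcases hx with h | h | h | h | h
    · exact ⟨0, by rw [Sum.inl.inj h]; simp⟩
    · exact ⟨1, by rw [Sum.inl.inj h]; simp; ring⟩
    · exact ⟨2, by rw [Sum.inl.inj h]; simp⟩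
    · exact ⟨3, by rw [Sum.inl.inj h]; simp; ring⟩
    · cases h
  rcases y with x | c
  · obtain ⟨i, hi⟩ := hof m x h1
    obtain ⟨j, hj⟩ := hof m' x h2
    exact key i j (hi.symm.trans hj)
  · rw [mem_s5] at h1 h2
    rcases h1 with h1 | h1 | h1 | h1 | h1
    · cases h1
    · cases h1
    · cases h1
    · cases h1
    rcases h2 with h2 | h2 | h2 | h2 | h2
    · cases h2
    · cases h2
    · cases h2
    · cases h2
    rw [h1] at h2
    rcases cl_eq.mp (Sum.inr.inj h2) with h3 | h3
    · exact absurd (sub_left_inj.mp h3) hne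
    · unfold c5
      apply mem_insert.mpr
      left
      linear_combination h3

theorem inl_mem_All (x : ZMod n) : (Sum.inl x : Elt n) ∈ All n := by
  unfold All
  exact mem_union_left _ (mem_image_of_mem _ (mem_univ _))

theorem inr_mem_All {w : ZMod n} (h : ClOk w) : (Sum.inr (cl w) : Elt n) ∈ All n := by
  unfold All
  exact mem_union_right _ (mem_image.mpr ⟨w, mem_filter.mpr ⟨mem_univ _, h⟩, rfl⟩)

theorem card_All : (All n).card ≤ 2 * n := by
  unfold All
  refine (card_union_le _ _).trans ?_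
  have h1 : ((univ : Finset (ZMod n)).image (Sum.inl : ZMod n → Elt n)).card ≤ n := by
    refine card_image_le.trans ?_
    rw [card_univ, ZMod.card]
  have h2 : ((univ.filter fun w : ZMod n => ClOk w).image
      fun w => (Sum.inr (cl w) : Elt n)).card ≤ n := by
    refine card_image_le.trans ((card_filter_le _ _).trans ?_)
    rw [card_univ, ZMod.card]
  omega

end tests


theorem biU {T G : Type*} [DecidableEq G] (I : Finset T) (B : T → Finset G) (β : ℝ)
    (h : ∀ τ, ((B τ).card : ℝ) ≤ β) : ((I.biUnion B).card : ℝ) ≤ I.card * β := by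
  calc ((I.biUnion B).card : ℝ) ≤ ((∑ τ ∈ I, (B τ).card : ℕ) : ℝ) := by
        exact_mod_cast card_biUnion_le
    _ = ∑ τ ∈ I, ((B τ).card : ℝ) := by push_cast; rfl
    _ ≤ ∑ _τ ∈ I, β := Finset.sum_le_sum fun τ _ => h τ
    _ = I.card * β := by rw [Finset.sum_const, nsmul_eq_mul]

end Pool.Agent.DNA.YY

namespace Pool.Agent.DNA

open Finset YY

theorem stY (h : Nibble.StLower) : StY := by
  intro ε Q hε hQ
  obtain ⟨s, hs⟩ := exists_nat_ge (8 / ε)
  have hs0 : 0 < s := by
    have h1 : (0 : ℝ) < 8 / ε := by positivity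
    have h2 : (0 : ℝ) < s := lt_of_lt_of_le h1 hs
    exact_mod_cast h2
  have : NeZero s := ⟨hs0.ne'⟩
  have hsR : (0 : ℝ) < s := by exact_mod_cast hs0
  have hε8 : 8 ≤ ε * s := by
    rw [div_le_iff₀ hε] at hs
    linarith
  have hs1 : (1 / (s : ℝ)) ≤ 1 := by
    rw [div_le_one hsR]
    exact_mod_cast hs0
  have hp1 : (1 / (s : ℝ)) ^ 5 ≤ 1 := pow_le_one₀ (by positivity) hs1
  have hp0 : (0 : ℝ) < (1 / (s : ℝ)) ^ 5 := by positivity
  obtain ⟨c0, hc0, N, hN⟩ := numeric (1 - (1 / (s : ℝ)) ^ 5 / 2) (by linarith) (by linarith)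
    (54 * Q) (by omega)
  refine ⟨c0, hc0, N + 200 + 100 * Q, ?_⟩
  intro n hn _ Bad hBad hline
  have hnN := hN n (by omega)
  have hct : c0 * n ≤ (⌈c0 * (n : ℝ)⌉₊ : ℝ) := Nat.le_ceil _
  set t := ⌈c0 * (n : ℝ)⌉₊ with ht
  set L := n / (54 * Q) with hLdef
  have hLQ : 54 * (L * Q) ≤ n := by
    have := Nat.div_mul_le_self n (54 * Q)
    rw [← hLdef] at this
    calc 54 * (L * Q) = L * (54 * Q) := by ring
      _ ≤ n := this
  have hLL : L ≤ L * Q := Nat.le_mul_of_pos_right L (by omega)
  set A := All n \ Bad with hA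
  set W : ℝ := (s : ℝ) ^ Fintype.card (Elt n) with hW
  have hW0 : 0 < W := by positivity
  set β : ℝ := 2 ^ t * (1 - (1 / (s : ℝ)) ^ 5 / 2) ^ L * W with hβ
  have hβ0 : 0 ≤ β := by
    have : (0 : ℝ) ≤ 1 - (1 / (s : ℝ)) ^ 5 / 2 := by linarith
    positivity
  have hnR : (1 : ℝ) ≤ n := by exact_mod_cast (by omega : 1 ≤ n)
  -- Markov
  set B0 : Finset (Elt n → Fin s) :=
    univ.filter fun g => ε * n < ((A.filter fun y => g y = 0).card : ℝ) with hB0def
  have hB0 : (B0.card : ℝ) ≤ W / 4 := by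
    refine markov s A (ε * n) (by positivity) ?_
    have h1 : (A.card : ℝ) ≤ 2 * n := by
      have := (card_le_card (sdiff_subset (s := All n) (t := Bad))).trans card_All
      exact_mod_cast this
    have h2 : 8 * (n : ℝ) ≤ ε * s * n := mul_le_mul_of_nonneg_right hε8 (by positivity)
    calc 8 * (A.card : ℝ) ≤ 2 * (8 * n) := by linarith
      _ ≤ 2 * (ε * s * n) := by linarith
      _ = 2 * (ε * n) * s := by ring
  -- fourth test
  set B4 : (ℕ × ZMod n × ZMod n × ZMod n) → Finset (Elt n → Fin s) := fun τ =>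
    univ.filter fun g => ((i4 Bad τ.1 τ.2.1 τ.2.2.1 τ.2.2.2).filter fun m =>
      ∀ x ∈ sta n τ.1 τ.2.1 τ.2.2.1 m, g x = 0).card < t with hB4def
  have hB4 : ∀ τ, ((B4 τ).card : ℝ) ≤ β := by
    intro τ
    refine test_bound h s t 17 L hs0 _ (fun m => sta n τ.1 τ.2.1 τ.2.2.1 m)
      (fun m => c4 τ.1 τ.2.1 τ.2.2.1 m) (fun m _ => card_sta _ _ _ _)
      (fun m _ => card_c4 _ _ _ _) (fun m _ m' _ hne hd => conf4 _ _ _ _ _ hne hd) ?_
    have := i4_card Bad τ.1 τ.2.1 τ.2.2.1 τ.2.2.2
    omega
  -- fifth test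
  set B5 : (ℕ × ZMod n × ZMod n) → Finset (Elt n → Fin s) := fun τ =>
    univ.filter fun g => ((i5 Bad τ.1 τ.2.1 τ.2.2).filter fun m =>
      ∀ x ∈ s5 τ.1 τ.2.1 τ.2.2 m, g x = 0).card < t with hB5def
  have hB5 : ∀ τ, ((B5 τ).card : ℝ) ≤ β := by
    intro τ
    refine test_bound h s t 17 L hs0 _ (fun m => s5 τ.1 τ.2.1 τ.2.2 m)
      (fun m => c5 τ.1 τ.2.1 τ.2.2 m) (fun m _ => card_s5 _ _ _ _)
      (fun m _ => card_c5 _ _ _ _) (fun m _ m' _ hne hd => conf5 _ _ _ _ _ hne hd) ?_
    have := i5_card Bad τ.1 τ.2.1 τ.2.2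
    omega
  -- sixth test
  have hBl : ∀ j ∈ Blocks n Q, j * Q + 2 < n := by
    intro j hj
    have h1 := (mem_Ico.mp hj).2
    have h2 : j + 1 ≤ T1 n / Q := h1
    rw [Nat.le_div_iff_mul_le (by omega)] at h2
    have h3 : (j + 1) * Q = j * Q + Q := by ring
    have h4 : T1 n = (n - 1) / 2 := rfl
    omega
  set B6 : ZMod n → Finset (Elt n → Fin s) := fun x =>
    univ.filter fun g => (((Blocks n Q).filter fun j =>
      (Sum.inl (x - ((j * Q + 2 : ℕ) : ZMod n)) : Elt n) ∉ Bad).filter fun j =>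
      ∀ y ∈ ({Sum.inl (x - ((j * Q + 2 : ℕ) : ZMod n))} : Finset (Elt n)), g y = 0).card < t
    with hB6def
  have hB6 : ∀ x, ((B6 x).card : ℝ) ≤ β := by
    intro x
    refine test_bound h s t 0 L hs0 _
      (fun j => ({Sum.inl (x - ((j * Q + 2 : ℕ) : ZMod n))} : Finset (Elt n)))
      (fun _ => ∅) (fun m _ => by rw [card_singleton]; norm_num) (fun m _ => by simp) ?_ ?_
    · intro i hi j hj hij hd
      exfalso
      apply hd
      rw [disjoint_singleton]
      intro he
      have h1 := sub_right_inj.mp (Sum.inl.inj he)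
      have h2 := hBl i (mem_filter.mp hi).1
      have h3 := hBl j (mem_filter.mp hj).1
      rw [ZMod.natCast_eq_natCast_iff', Nat.mod_eq_of_lt h2, Nat.mod_eq_of_lt h3] at h1
      have h4 : i * Q = j * Q := by omega
      exact hij (Nat.eq_of_mul_eq_mul_right (by omega) h4)
    · have h1 := Finset.card_filter_add_card_filter_not (s := Blocks n Q)
        (fun j => (Sum.inl (x - ((j * Q + 2 : ℕ) : ZMod n)) : Elt n) ∈ Bad)
      have h2 := hline x
      have h3 : (Blocks n Q).card = T1 n / Q - 1 := by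
        unfold Blocks J1
        rw [Nat.card_Ico]
      have h4 : 2 * L + 1 ≤ T1 n / Q := by
        rw [Nat.le_div_iff_mul_le (by omega)]
        have h5 : (2 * L + 1) * Q = 2 * (L * Q) + Q := by ring
        have h6 : T1 n = (n - 1) / 2 := rfl
        omega
      omega
  -- the union of the bad events
  set BB : Finset (Elt n → Fin s) := ((B0 ∪
    ((Icc 1 (T1 n)) ×ˢ (univ : Finset (ZMod n × ZMod n × ZMod n))).biUnion B4) ∪
    ((Icc 1 (T1 n)) ×ˢ (univ : Finset (ZMod n × ZMod n))).biUnion B5) ∪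
    (univ : Finset (ZMod n)).biUnion B6 with hBB
  have hT1 : T1 n ≤ n := by
    have : T1 n = (n - 1) / 2 := rfl
    omega
  have hT1R : ((T1 n : ℕ) : ℝ) ≤ n := by exact_mod_cast hT1
  have hBBc : (BB.card : ℝ) < W := by
    have h4 := biU ((Icc 1 (T1 n)) ×ˢ (univ : Finset (ZMod n × ZMod n × ZMod n))) B4 β hB4
    have h5 := biU ((Icc 1 (T1 n)) ×ˢ (univ : Finset (ZMod n × ZMod n))) B5 β hB5
    have h6 := biU (univ : Finset (ZMod n)) B6 β hB6
    rw [card_product, Nat.card_Icc, card_univ, Fintype.card_prod, Fintype.card_prod,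
      ZMod.card] at h4
    rw [card_product, Nat.card_Icc, card_univ, Fintype.card_prod, ZMod.card] at h5
    rw [card_univ, ZMod.card] at h6
    have h7 : (BB.card : ℝ) ≤ B0.card +
        (((Icc 1 (T1 n)) ×ˢ (univ : Finset (ZMod n × ZMod n × ZMod n))).biUnion B4).card +
        (((Icc 1 (T1 n)) ×ˢ (univ : Finset (ZMod n × ZMod n))).biUnion B5).card +
        ((univ : Finset (ZMod n)).biUnion B6).card := by
      have := (card_union_le ((B0 ∪
        ((Icc 1 (T1 n)) ×ˢ (univ : Finset (ZMod n × ZMod n × ZMod n))).biUnion B4) ∪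
        ((Icc 1 (T1 n)) ×ˢ (univ : Finset (ZMod n × ZMod n))).biUnion B5)
        ((univ : Finset (ZMod n)).biUnion B6)).trans (Nat.add_le_add_right
        ((card_union_le _ _).trans (Nat.add_le_add_right (card_union_le _ _) _)) _)
      exact_mod_cast this
    have hm4 : ((((T1 n + 1 - 1) * (n * (n * n)) : ℕ)) : ℝ) * β ≤ (n : ℝ) ^ 4 * β := by
      apply mul_le_mul_of_nonneg_right _ hβ0
      rw [Nat.add_sub_cancel]
      push_cast
      calc (T1 n : ℝ) * (n * (n * n)) ≤ n * (n * (n * n)) :=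
            mul_le_mul_of_nonneg_right hT1R (by positivity)
        _ = (n : ℝ) ^ 4 := by ring
    have hm5 : ((((T1 n + 1 - 1) * (n * n) : ℕ)) : ℝ) * β ≤ (n : ℝ) ^ 4 * β := by
      apply mul_le_mul_of_nonneg_right _ hβ0
      rw [Nat.add_sub_cancel]
      push_cast
      calc (T1 n : ℝ) * (n * n) ≤ n * (n * n) :=
            mul_le_mul_of_nonneg_right hT1R (by positivity)
        _ = (n : ℝ) ^ 3 := by ring
        _ ≤ (n : ℝ) ^ 4 := pow_le_pow_right₀ hnR (by norm_num)
    have hm6 : (n : ℝ) * β ≤ (n : ℝ) ^ 4 * β := by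
      apply mul_le_mul_of_nonneg_right _ hβ0
      calc (n : ℝ) = (n : ℝ) ^ 1 := by ring
        _ ≤ (n : ℝ) ^ 4 := pow_le_pow_right₀ hnR (by norm_num)
    have h8 : 3 * (n : ℝ) ^ 4 * β < 3 / 4 * W := by
      have : 3 * (n : ℝ) ^ 4 * β = (3 * (n : ℝ) ^ 4 *
        (2 ^ t * (1 - (1 / (s : ℝ)) ^ 5 / 2) ^ L)) * W := by rw [hβ]; ring
      rw [this]
      exact mul_lt_mul_of_pos_right hnN hW0
    linarith
  obtain ⟨g, hg⟩ : ∃ g : Elt n → Fin s, g ∉ BB := by
    by_contra hcon
    push Not at hcon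
    have h1 : (univ : Finset (Elt n → Fin s)) ⊆ BB := fun g _ => hcon g
    have h2 := card_le_card h1
    rw [card_univ, Fintype.card_fun, Fintype.card_fin] at h2
    have h3 : W ≤ BB.card := by
      rw [hW]
      exact_mod_cast h2
    linarith
  rw [hBB, mem_union, mem_union, mem_union] at hg
  push Not at hg
  obtain ⟨⟨⟨hg0, hg4⟩, hg5⟩, hg6⟩ := hg
  have hYmem : ∀ y : Elt n, y ∈ All n → y ∉ Bad → g y = 0 → y ∈ A.filter fun y => g y = 0 :=
    fun y h1 h2 h3 => mem_filter.mpr ⟨mem_sdiff.mpr ⟨h1, h2⟩, h3⟩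
  refine ⟨A.filter fun y => g y = 0, filter_subset _ _, ?_, ?_, ?_, ?_⟩
  · rw [hB0def, mem_filter] at hg0
    push Not at hg0
    exact hg0 (mem_univ _)
  · intro k hk a b _ z
    rw [mem_biUnion] at hg4
    push Not at hg4
    have h1 := hg4 (k, a, b, z) (mem_product.mpr ⟨hk, mem_univ _⟩)
    rw [hB4def] at h1
    simp only [mem_filter, mem_univ, true_and, not_lt] at h1
    have h2 : (t : ℝ) ≤ _ := Nat.cast_le.mpr h1
    refine hct.trans (h2.trans ?_)
    apply Nat.cast_le.mpr
    apply card_le_card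
    intro m hm
    obtain ⟨hm1, hm2⟩ := mem_filter.mp hm
    obtain ⟨_, hm3, ⟨hm4, hm5⟩, hm6⟩ := mem_filter.mp hm1
    have hnb : ∀ y ∈ sta n k a b m, y ∉ Bad := fun y hy => Finset.disjoint_left.mp hm6 hy
    have e1 : (Sum.inl m : Elt n) ∈ sta n k a b m := mem_sta.mpr (Or.inl rfl)
    have e2 : (Sum.inl (m - (k : ZMod n)) : Elt n) ∈ sta n k a b m :=
      mem_sta.mpr (Or.inr (Or.inl rfl))
    have e3 : (Sum.inr (cl (m - a)) : Elt n) ∈ sta n k a b m :=
      mem_sta.mpr (Or.inr (Or.inr (Or.inl rfl)))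
    have e4 : (Sum.inr (cl (b - m)) : Elt n) ∈ sta n k a b m :=
      mem_sta.mpr (Or.inr (Or.inr (Or.inr rfl)))
    refine mem_filter.mpr ⟨mem_univ _, hm3, hYmem _ (inl_mem_All _) (hnb _ e1) (hm2 _ e1),
      hYmem _ (inl_mem_All _) (hnb _ e2) (hm2 _ e2),
      hYmem _ (inr_mem_All hm4) (hnb _ e3) (hm2 _ e3),
      hYmem _ (inr_mem_All hm5) (hnb _ e4) (hm2 _ e4)⟩
  · intro k hk w _ _ _ a
    rw [mem_biUnion] at hg5
    push Not at hg5
    have hk' : k ∈ Icc 1 (T1 n) := by
      rw [mem_Ico] at hk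
      rw [mem_Icc]
      omega
    have h1 := hg5 (k, w, a) (mem_product.mpr ⟨hk', mem_univ _⟩)
    rw [hB5def] at h1
    simp only [mem_filter, mem_univ, true_and, not_lt] at h1
    have h2 : (t : ℝ) ≤ _ := Nat.cast_le.mpr h1
    refine hct.trans (h2.trans ?_)
    apply Nat.cast_le.mpr
    apply card_le_card
    intro m hm
    obtain ⟨hm1, hm2⟩ := mem_filter.mp hm
    obtain ⟨_, hm3, hm4, hm6⟩ := mem_filter.mp hm1
    have hnb : ∀ y ∈ s5 k w a m, y ∉ Bad := fun y hy => Finset.disjoint_left.mp hm6 hy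
    have e1 : (Sum.inl m : Elt n) ∈ s5 k w a m := mem_s5.mpr (Or.inl rfl)
    have e2 : (Sum.inl (m - (k : ZMod n)) : Elt n) ∈ s5 k w a m :=
      mem_s5.mpr (Or.inr (Or.inl rfl))
    have e3 : (Sum.inl (m + w) : Elt n) ∈ s5 k w a m :=
      mem_s5.mpr (Or.inr (Or.inr (Or.inl rfl)))
    have e4 : (Sum.inl (m + w - ((k : ZMod n) + 1)) : Elt n) ∈ s5 k w a m :=
      mem_s5.mpr (Or.inr (Or.inr (Or.inr (Or.inl rfl))))
    have e5 : (Sum.inr (cl (m - a)) : Elt n) ∈ s5 k w a m :=
      mem_s5.mpr (Or.inr (Or.inr (Or.inr (Or.inr rfl))))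
    have hp : par (0 : ZMod n) = 0 := by
      unfold par
      rw [ZMod.val_zero]
      simp
    refine mem_filter.mpr ⟨mem_univ _, by rw [hm3, hp],
      hYmem _ (inl_mem_All _) (hnb _ e1) (hm2 _ e1),
      hYmem _ (inl_mem_All _) (hnb _ e2) (hm2 _ e2),
      hYmem _ (inl_mem_All _) (hnb _ e3) (hm2 _ e3),
      hYmem _ (inl_mem_All _) (hnb _ e4) (hm2 _ e4),
      hYmem _ (inr_mem_All hm4) (hnb _ e5) (hm2 _ e5)⟩
  · intro x
    rw [mem_biUnion] at hg6
    push Not at hg6
    have h1 := hg6 x (mem_univ _)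
    rw [hB6def] at h1
    simp only [mem_filter, mem_univ, true_and, not_lt] at h1
    have h2 : (t : ℝ) ≤ _ := Nat.cast_le.mpr h1
    refine hct.trans (h2.trans ?_)
    apply Nat.cast_le.mpr
    apply card_le_card
    intro j hj
    obtain ⟨hj1, hj2⟩ := mem_filter.mp hj
    obtain ⟨hj3, hj4⟩ := mem_filter.mp hj1
    exact mem_filter.mpr ⟨hj3, hYmem _ (inl_mem_All _) hj4 (hj2 _ (mem_singleton_self _))⟩

end Pool.Agent.DNA
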