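import Pool.Agent.Lib.Nibble.Nibble
import Pool.Agent.Lib.Nibble.Bite
import Pool.Agent.Lib.Nibble.Template
import Pool.Agent.Lib.Nibble.Expander
import Pool.Agent.Lib.Nibble.Contract
import Pool.Agent.Lib.Nibble.Lower
import Pool.Agent.Lib.MP_845d9b_co.Abs.PackUnion
import Pool.Agent.Lib.MP_845d9b_co.Abs.Frame
import Pool.Agent.Lib.MP_845d9b_co.Abs.PS1
import Pool.Agent.Lib.MP_845d9b_co.Abs.PS
import Pool.Agent.Lib.MP_845d9b_co.Abs.CS
import Pool.Agent.Lib.MP_845d9b_co.Abs.Slot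
import Pool.Agent.Lib.MP_845d9b_co.Abs.Absorb
import Pool.Agent.Lib.MP_845d9b_co.Abs.Count
import Pool.Agent.Lib.MP_845d9b_co.Abs.Near
import Pool.Agent.Lib.MP_845d9b_co.Abs.Res
import Pool.Agent.Lib.MP_845d9b_co.Abs.Y
import Pool.Agent.Lib.MP_845d9b_co.Abs.Anchors
import Pool.Agent.Lib.MP_845d9b_co.Abs.Cover
import Pool.Agent.Lib.MP_845d9b_co.Abs.Assemble
import Pool.Agent.Lib.MP_845d9b_co.Abs.Final
import Pool.Agent.Lib.MP_845d9b_co.Abs.Est
import Pool.Agent.Lib.MP_845d9b_co.Abs.Fp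
import Pool.Agent.Lib.MP_845d9b_co.Abs.K1
import Pool.Agent.Lib.MP_845d9b_co.Abs.Cond
import Pool.Agent.Lib.MP_845d9b_co.Abs.Bad
import Pool.Agent.Lib.MP_845d9b_co.Abs.Mean
import Pool.Agent.Lib.MP_845d9b_co.Abs.H1
import Pool.Agent.Lib.MP_845d9b_co.Abs.H2P
import Pool.Agent.Lib.MP_845d9b_co.Abs.H2C
import Pool.Agent.Lib.MP_845d9b_co.Abs.Fpm

/-!
# D-neofields of all large orders: final assembly
-/

set_option autoImplicit false

namespace Pool.Agent.DNA

theorem half_solutions : ∃ N : ℕ, ∀ n : ℕ, N ≤ n → ∃ U : ℕ → ZMod n, HalfSol n U := by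
  have hFR := stFrame
  have hPU := stPackUnion
  have hPS := stPS hPU (stPS1 hFR)
  have hCS := stCS hPU hFR hPS
  have hSL := stSlot hPU hFR hPS hCS
  have hAB := stAbsorb hPU (Nibble.stTemplate Nibble.stExpander) hSL
  have hM := stMean stK1
  have hB := stBad stK1
  have hC := stCond stK1
  have hFPM := stFPMFinal stEst stFp (stH1 stK1 hB hM) (stH2P stK1 hC hB hM)
    (stH2C stK1 hC hB hM) Nibble.stContract
  have hNE := stNear hFPM stCount (Nibble.stNibble Nibble.stBite)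
  exact stAssemble stAnchors (stY Nibble.stLower) (stRes Nibble.stLower) hAB hNE stCover

theorem good_large : ∃ r0 : ℕ, ∀ r : ℕ, r0 ≤ r → DNeo.Good r := by
  obtain ⟨N, hN⟩ := half_solutions
  refine ⟨N + 7, fun r hr => ?_⟩
  obtain ⟨U, hU⟩ := hN (r - 1) (by omega)
  have := stFinal (r - 1) U (by omega) hU
  rwa [show r - 1 + 1 = r by omega] at this

end Pool.Agent.DNA
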