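import Pool.Agent.Lib.MP_845d9b_co.Abs.Stmts

/-!
# Basic facts for the assembly (helper85): counts of elements, footprints, packings
-/

set_option autoImplicit false

namespace Pool.Agent.DNA
namespace Asm

open Finset

variable {n : ℕ}

theorem cl_eq_iff (w w' : ZMod n) : cl w = cl w' ↔ w' = w ∨ w' = 1 - w := by
  unfold cl
  rw [Sym2.eq_iff]
  constructor
  · rintro (⟨h1, _⟩ | ⟨_, h2⟩)
    · left; exact h1.symm
    · right; exact h2.symm
  · rintro (h | h)
    · left; rw [h]; exact ⟨rfl, rfl⟩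
    · right; rw [h]; exact ⟨by ring, rfl⟩

theorem clOk_cl {w w' : ZMod n} (h : cl w = cl w') (hw : ClOk w) : ClOk w' := by
  rcases (cl_eq_iff w w').mp h with h | h
  · rw [h]; exact hw
  · obtain ⟨h0, h1, h2⟩ := hw
    rw [h]
    refine ⟨fun h3 => h1 ?_, fun h3 => h0 ?_, fun h3 => h2 ?_⟩
    · linear_combination -h3
    · linear_combination -h3
    · linear_combination -h3

theorem par_eq [NeZero n] (h : Even n) (x : ZMod n) :
    par x = ZMod.castHom (even_iff_two_dvd.mp h) (ZMod 2) x := by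
  unfold par
  rw [if_pos h, ZMod.natCast_val]
  rfl

theorem par_odd (h : ¬ Even n) (x : ZMod n) : par x = 0 := by
  unfold par; rw [if_neg h]

theorem par_add [NeZero n] (x y : ZMod n) : par (x + y) = par x + par y := by
  by_cases h : Even n
  · rw [par_eq h, par_eq h, par_eq h, map_add]
  · rw [par_odd h, par_odd h, par_odd h, add_zero]

theorem par_sub [NeZero n] (x y : ZMod n) : par (x - y) = par x - par y := by
  by_cases h : Even n
  · rw [par_eq h, par_eq h, par_eq h, map_sub]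
  · rw [par_odd h, par_odd h, par_odd h, sub_zero]

theorem par_zero [NeZero n] : par (0 : ZMod n) = 0 := by
  by_cases h : Even n
  · rw [par_eq h, map_zero]
  · rw [par_odd h]

theorem par_natCast [NeZero n] (k : ℕ) : par (k : ZMod n) = parT n k := by
  unfold parT
  by_cases h : Even n
  · rw [par_eq h, map_natCast, if_pos h]
  · rw [par_odd h, if_neg h]

theorem zmod2_cases (x : ZMod 2) : x = 0 ∨ x = 1 := by
  revert x; decide

theorem zmod2_two (x : ZMod 2) : x + x = 0 := by
  revert x; decide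

theorem zmod2_sub (x y : ZMod 2) : x - y = x + y := by
  revert x y; decide

/-- the weight of an element: point, class, parity -/
def wt : Elt n → ℤ × ℤ × ZMod 2 := Sum.elim (fun x => (1, 0, par x)) fun _ => (0, 1, 0)

/-- total weight -/
def acc (S : Finset (Elt n)) : ℤ × ℤ × ZMod 2 := ∑ y ∈ S, wt y

theorem acc_union {S T : Finset (Elt n)} (h : Disjoint S T) : acc (S ∪ T) = acc S + acc T :=
  sum_union h

theorem acc_sdiff {S T : Finset (Elt n)} (h : T ⊆ S) : acc (S \ T) = acc S - acc T := by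
  unfold acc
  rw [eq_sub_iff_add_eq]
  exact sum_sdiff h

theorem kc_eq_sum (S : Finset (Elt n)) (t : Fin 3) :
    (kc S t) = ∑ y ∈ S, if kd y = t then 1 else 0 := by
  unfold kc
  rw [card_filter]

theorem acc_eq (S : Finset (Elt n)) :
    acc S = (((kc S 0 : ℕ) : ℤ) + ((kc S 1 : ℕ) : ℤ), ((kc S 2 : ℕ) : ℤ), ((kc S 1 : ℕ) : ZMod 2)) := by
  have h : ∀ y : Elt n, wt y = ((if kd y = 0 then 1 else 0) + (if kd y = 1 then 1 else 0),
      (if kd y = 2 then 1 else 0), (if kd y = 1 then 1 else 0)) := by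
    rintro (x | c)
    · simp only [wt, kd, Sum.elim_inl]
      rcases zmod2_cases (par x) with hx | hx
      · simp [hx]
      · simp [hx]
    · simp [wt, kd, Sum.elim_inr]
  unfold acc
  rw [sum_congr rfl fun y _ => h y, kc_eq_sum, kc_eq_sum, kc_eq_sum]
  refine Prod.ext ?_ (Prod.ext ?_ ?_)
  · simp only [Prod.fst_sum]
    push_cast
    rw [sum_add_distrib]
  · simp only [Prod.snd_sum, Prod.fst_sum]
    push_cast
    rfl
  · simp only [Prod.snd_sum]
    push_cast
    rfl

theorem kc_mono {S T : Finset (Elt n)} (h : S ⊆ T) (t : Fin 3) : kc S t ≤ kc T t :=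
  card_le_card (filter_subset_filter _ h)

theorem kc_union {S T : Finset (Elt n)} (h : Disjoint S T) (t : Fin 3) :
    kc (S ∪ T) t = kc S t + kc T t := by
  unfold kc
  rw [filter_union, card_union_of_disjoint]
  exact h.mono (filter_subset _ _) (filter_subset _ _)

theorem kc_sdiff {S T : Finset (Elt n)} (h : T ⊆ S) (t : Fin 3) :
    kc (S \ T) t + kc T t = kc S t := by
  rw [← kc_union sdiff_disjoint, sdiff_union_of_subset h]

/-! ### footprints -/

/-- index set of the elements of a filled block -/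
def idx (Q j : ℕ) : Finset (ℕ × Fin 3) :=
  ((Ioo (j * Q) ((j + 1) * Q)) ×ˢ {0, 1}) ∪ ((Ico (j * Q) ((j + 1) * Q)) ×ˢ {2})

/-- the element belonging to an index -/
def elt (n : ℕ) (f : ℕ → ZMod n) (i : ℕ × Fin 3) : Elt n :=
  if i.2 = 0 then Sum.inl (f i.1) else if i.2 = 1 then Sum.inl (f i.1 - (i.1 : ZMod n)) else
    Sum.inr (cl (f (i.1 + 1) - f i.1))

theorem foot_eq_image (Q j : ℕ) (f : ℕ → ZMod n) : foot n Q j f = (idx Q j).image (elt n f) := by
  ext y
  simp only [foot, idx, mem_union, mem_biUnion, mem_image, mem_insert, mem_singleton, mem_product,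
    Prod.exists]
  constructor
  · rintro (⟨k, hk, rfl | rfl⟩ | ⟨k, hk, rfl⟩)
    · exact ⟨k, 0, Or.inl ⟨hk, Or.inl rfl⟩, by simp [elt]⟩
    · exact ⟨k, 1, Or.inl ⟨hk, Or.inr rfl⟩, by simp [elt]⟩
    · exact ⟨k, 2, Or.inr ⟨hk, rfl⟩, by simp [elt]⟩
  · rintro ⟨k, i, (⟨hk, rfl | rfl⟩ | ⟨hk, rfl⟩), rfl⟩
    · exact Or.inl ⟨k, hk, Or.inl (by simp [elt])⟩
    · exact Or.inl ⟨k, hk, Or.inr (by simp [elt])⟩
    · exact Or.inr ⟨k, hk, by simp [elt]⟩

theorem card_idx {Q : ℕ} (hQ : 1 ≤ Q) (j : ℕ) : (idx Q j).card = 3 * Q - 2 := by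
  unfold idx
  rw [card_union_of_disjoint, card_product, card_product, Nat.card_Ioo, Nat.card_Ico]
  · have h : (j + 1) * Q - j * Q = Q := by
      rw [add_mul, one_mul]; omega
    rw [h]
    have h1 : (({0, 1} : Finset (Fin 3))).card = 2 := by decide
    have h2 : (({2} : Finset (Fin 3))).card = 1 := by decide
    rw [h1, h2]
    omega
  · rw [disjoint_left]
    rintro ⟨a, b⟩ h1 h2
    rw [mem_product] at h1 h2
    simp only [mem_insert, mem_singleton] at h1 h2
    rcases h1.2 with h | h <;> rw [h] at h2 <;> exact absurd h2.2 (by decide)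

theorem IsFill.injOn {Q j : ℕ} {U f : ℕ → ZMod n} (hQ : 1 ≤ Q) (h : IsFill n Q U j f) :
    Set.InjOn (elt n f) (idx Q j) := by
  rw [← card_image_iff, ← foot_eq_image, h.card, card_idx hQ]

/-- the weight of a block -/
def bl (n Q j : ℕ) : ℤ × ℤ × ZMod 2 :=
  (2 * ((Q : ℤ) - 1), (Q : ℤ), ∑ k ∈ Ioo (j * Q) ((j + 1) * Q), parT n k)

theorem acc_foot [NeZero n] {Q j : ℕ} {U f : ℕ → ZMod n} (hQ : 1 ≤ Q) (h : IsFill n Q U j f) :
    acc (foot n Q j f) = bl n Q j := by
  unfold acc
  rw [foot_eq_image, sum_image (IsFill.injOn hQ h)]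
  unfold idx
  rw [sum_union, sum_product, sum_product]
  · have h1 : ∀ k : ℕ, ∑ i ∈ ({0, 1} : Finset (Fin 3)), wt (elt n f (k, i)) =
        ((2 : ℤ), (0 : ℤ), parT n k) := by
      intro k
      rw [sum_pair (by decide)]
      simp only [elt, wt]
      simp only [if_true, one_ne_zero, if_false, Sum.elim_inl]
      rw [par_sub, par_natCast]
      refine Prod.ext (by simp) (Prod.ext (by simp) ?_)
      simp only [Prod.snd_add]
      rw [zmod2_sub, ← add_assoc, zmod2_two, zero_add]
    have h2 : ∀ k : ℕ, ∑ i ∈ ({2} : Finset (Fin 3)), wt (elt n f (k, i)) =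
        ((0 : ℤ), (1 : ℤ), (0 : ZMod 2)) := by
      intro k
      rw [sum_singleton]
      simp [elt, wt]
    rw [sum_congr rfl fun k _ => h1 k, sum_congr rfl fun k _ => h2 k]
    have hc1 : (Ioo (j * Q) ((j + 1) * Q)).card = Q - 1 := by
      rw [Nat.card_Ioo, add_mul, one_mul]; omega
    have hc2 : (Ico (j * Q) ((j + 1) * Q)).card = Q := by
      rw [Nat.card_Ico, add_mul, one_mul]; omega
    refine Prod.ext ?_ (Prod.ext ?_ ?_)
    · simp only [Prod.fst_add, Prod.fst_sum, sum_const, hc1, hc2, bl, Prod.smul_fst]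
      simp only [nsmul_eq_mul]
      rw [Nat.cast_sub hQ]
      push_cast
      ring
    · simp only [Prod.snd_add, Prod.fst_add, Prod.snd_sum, Prod.fst_sum, sum_const, hc1, hc2, bl,
        Prod.smul_snd, Prod.smul_fst]
      simp only [nsmul_eq_mul]
      ring
    · simp only [Prod.snd_add, Prod.snd_sum, sum_const, bl]
      simp
  · rw [disjoint_left]
    rintro ⟨a, b⟩ h1 h2
    rw [mem_product] at h1 h2
    simp only [mem_insert, mem_singleton] at h1 h2
    rcases h1.2 with h | h <;> rw [h] at h2 <;> exact absurd h2.2 (by decide)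

theorem acc_packs [NeZero n] {Q : ℕ} {U : ℕ → ZMod n} {Js : Finset ℕ} {F : ℕ → ℕ → ZMod n}
    {S : Finset (Elt n)} (hQ : 1 ≤ Q) (h : Packs n Q U Js F S) :
    acc S = ∑ j ∈ Js, bl n Q j := by
  rw [← h.cover]
  unfold acc
  rw [sum_biUnion]
  · exact sum_congr rfl fun j hj => acc_foot hQ (h.fill j hj)
  · intro i hi j hj hij
    exact h.disj i hi j hj hij

theorem acc_packable [NeZero n] {Q : ℕ} {U : ℕ → ZMod n} {Js : Finset ℕ}
    {S : Finset (Elt n)} (hQ : 1 ≤ Q) (h : Packable n Q U Js S) :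
    acc S = ∑ j ∈ Js, bl n Q j := by
  obtain ⟨F, hF⟩ := h
  exact acc_packs hQ hF

end Asm
end Pool.Agent.DNA
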