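import Pool.Agent.Lib.MP_845d9b_co.Abs.AsmBasic

/-!
# Counts of all elements and of the fixed elements (helper85)
-/

set_option autoImplicit false

namespace Pool.Agent.DNA
namespace Asm

open Finset

variable {n : ℕ}

/-! ### decomposition of the times -/

theorem mem_blocks {Q j : ℕ} : j ∈ Blocks n Q ↔ 1 ≤ j ∧ j < J1 n Q := by
  unfold Blocks; rw [mem_Ico]

theorem J1_mul_le (n Q : ℕ) : J1 n Q * Q ≤ T1 n := Nat.div_mul_le_self _ _

theorem T1_lt {Q : ℕ} (hQ : 1 ≤ Q) : T1 n < (J1 n Q + 1) * Q := by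
  unfold J1
  rw [add_mul, one_mul]
  exact Nat.lt_div_mul_add (by omega)

theorem T0_le_one (n : ℕ) : T0 n ≤ 1 := by
  unfold T0; omega

theorem block_le {Q j : ℕ} (hj : j ∈ Blocks n Q) : (j + 1) * Q ≤ J1 n Q * Q :=
  Nat.mul_le_mul_right _ (mem_blocks.mp hj).2

theorem block_ge {Q j : ℕ} (hj : j ∈ Blocks n Q) : Q ≤ j * Q :=
  Nat.le_mul_of_pos_left _ (mem_blocks.mp hj).1

theorem mem_fixT {Q k : ℕ} : k ∈ FixT n Q ↔ (T0 n ≤ k ∧ k ≤ T1 n) ∧ (k < Q ∨ Q ∣ k ∨ J1 n Q * Q ≤ k) := by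
  unfold FixT; rw [mem_filter, mem_Icc]

theorem not_dvd_of_mem {Q j k : ℕ} (h : k ∈ Ioo (j * Q) ((j + 1) * Q)) : ¬ Q ∣ k := by
  rw [mem_Ioo] at h
  rintro ⟨c, rfl⟩
  rw [mul_comm Q c] at h
  have h1 := Nat.lt_of_mul_lt_mul_right h.1
  have h2 := Nat.lt_of_mul_lt_mul_right h.2
  omega

theorem block_unique {Q i j k : ℕ} (hi : i * Q ≤ k ∧ k < (i + 1) * Q)
    (hj : j * Q ≤ k ∧ k < (j + 1) * Q) : i = j := by
  have h1 := Nat.lt_of_mul_lt_mul_right (lt_of_le_of_lt hi.1 hj.2)
  have h2 := Nat.lt_of_mul_lt_mul_right (lt_of_le_of_lt hj.1 hi.2)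
  omega

theorem time_cases {Q : ℕ} (hQ : 1 ≤ Q) {k : ℕ} (hk : k ∈ Icc (T0 n) (T1 n)) :
    k ∈ FixT n Q ∨ ∃ j ∈ Blocks n Q, k ∈ Ioo (j * Q) ((j + 1) * Q) := by
  rw [mem_Icc] at hk
  by_cases h : k < Q ∨ Q ∣ k ∨ J1 n Q * Q ≤ k
  · left; rw [mem_fixT]; exact ⟨hk, h⟩
  · right
    push Not at h
    obtain ⟨h1, h2, h3⟩ := h
    refine ⟨k / Q, ?_, ?_⟩
    · rw [mem_blocks]
      refine ⟨(Nat.one_le_div_iff (by omega)).mpr h1, ?_⟩
      exact (Nat.div_lt_iff_lt_mul (by omega)).mpr h3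
    · rw [mem_Ioo]
      refine ⟨lt_of_le_of_ne (Nat.div_mul_le_self k Q) fun h4 => h2 ⟨k / Q, ?_⟩, ?_⟩
      · rw [mul_comm]; exact h4.symm
      · rw [add_mul, one_mul]; exact Nat.lt_div_mul_add (by omega)

theorem pair_cases {Q : ℕ} (hQ : 1 ≤ Q) {k : ℕ} (hk : k ∈ Ico (T0 n) (T1 n)) :
    k ∈ FixL n Q ∨ ∃ j ∈ Blocks n Q, k ∈ Ico (j * Q) ((j + 1) * Q) := by
  rw [mem_Ico] at hk
  by_cases h : k < Q ∨ J1 n Q * Q ≤ k
  · left
    unfold FixL
    rw [mem_union, mem_Ico, mem_Ico]
    rcases h with h | h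
    · left; exact ⟨hk.1, h⟩
    · right; exact ⟨h, hk.2⟩
  · right
    push Not at h
    obtain ⟨h1, h3⟩ := h
    refine ⟨k / Q, ?_, ?_⟩
    · rw [mem_blocks]
      refine ⟨(Nat.one_le_div_iff (by omega)).mpr h1, ?_⟩
      exact (Nat.div_lt_iff_lt_mul (by omega)).mpr h3
    · rw [mem_Ico]
      refine ⟨Nat.div_mul_le_self k Q, ?_⟩
      rw [add_mul, one_mul]; exact Nat.lt_div_mul_add (by omega)

theorem block_mem_Icc {Q j k : ℕ} (hQ : 1 ≤ Q) (hj : j ∈ Blocks n Q) (h : j * Q ≤ k)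
    (h' : k ≤ (j + 1) * Q) : k ∈ Icc (T0 n) (T1 n) := by
  rw [mem_Icc]
  have h1 := block_ge hj
  have h2 := block_le hj
  have h3 := J1_mul_le n Q
  have h4 := T0_le_one n
  constructor <;> omega

theorem sum_times {Q : ℕ} (hQ : 1 ≤ Q) {M : Type} [AddCommMonoid M] (g : ℕ → M) :
    ∑ k ∈ Icc (T0 n) (T1 n), g k = ∑ k ∈ FixT n Q, g k +
      ∑ j ∈ Blocks n Q, ∑ k ∈ Ioo (j * Q) ((j + 1) * Q), g k := by
  have h : Icc (T0 n) (T1 n) = FixT n Q ∪ (Blocks n Q).biUnion fun j => Ioo (j * Q) ((j + 1) * Q) := by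
    ext k
    rw [mem_union, mem_biUnion]
    constructor
    · exact time_cases hQ
    · rintro (h | ⟨j, hj, hk⟩)
      · exact (mem_filter.mp h).1
      · rw [mem_Ioo] at hk
        exact block_mem_Icc hQ hj hk.1.le hk.2.le
  rw [h, sum_union, sum_biUnion]
  · intro i _ j _ hij
    show Disjoint _ _
    rw [disjoint_left]
    intro k h1 h2
    rw [mem_Ioo] at h1 h2
    exact hij (block_unique ⟨h1.1.le, h1.2⟩ ⟨h2.1.le, h2.2⟩)
  · rw [disjoint_left]
    intro k h1 h2
    rw [mem_fixT] at h1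
    rw [mem_biUnion] at h2
    obtain ⟨j, hj, hk⟩ := h2
    have h3 := not_dvd_of_mem hk
    rw [mem_Ioo] at hk
    have h4 := block_ge hj
    have h5 := block_le hj
    rcases h1.2 with h | h | h
    · omega
    · exact h3 h
    · omega

theorem sum_pairs {Q : ℕ} (hQ : 1 ≤ Q) (hJ : Q ≤ T1 n) {M : Type} [AddCommMonoid M] (g : ℕ → M) :
    ∑ k ∈ Ico (T0 n) (T1 n), g k = ∑ k ∈ FixL n Q, g k +
      ∑ j ∈ Blocks n Q, ∑ k ∈ Ico (j * Q) ((j + 1) * Q), g k := by
  have h : Ico (T0 n) (T1 n) = FixL n Q ∪ (Blocks n Q).biUnion fun j => Ico (j * Q) ((j + 1) * Q) := by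
    ext k
    rw [mem_union, mem_biUnion]
    constructor
    · exact pair_cases hQ
    · rintro (h | ⟨j, hj, hk⟩)
      · unfold FixL at h
        rw [mem_union, mem_Ico, mem_Ico] at h
        rw [mem_Ico]
        have h1 := T0_le_one n
        have h2 : Q ≤ J1 n Q * Q := by
          apply Nat.le_mul_of_pos_left
          unfold J1
          exact Nat.div_pos hJ (by omega)
        have h3 := J1_mul_le n Q
        rcases h with h | h
        · omega
        · omega
      · rw [mem_Ico] at hk ⊢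
        have h1 := block_ge hj
        have h2 := block_le hj
        have h3 := J1_mul_le n Q
        have h4 := T0_le_one n
        omega
  rw [h, sum_union, sum_biUnion]
  · intro i _ j _ hij
    show Disjoint _ _
    rw [disjoint_left]
    intro k h1 h2
    rw [mem_Ico] at h1 h2
    exact hij (block_unique h1 h2)
  · rw [disjoint_left]
    intro k h1 h2
    rw [mem_biUnion] at h2
    obtain ⟨j, hj, hk⟩ := h2
    rw [mem_Ico] at hk
    have h4 := block_ge hj
    have h5 := block_le hj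
    unfold FixL at h1
    rw [mem_union, mem_Ico, mem_Ico] at h1
    omega

/-! ### all elements -/

theorem half_unique (h : ¬ Even n) (w : ZMod n) :
    w + w = 1 ↔ w = (((n + 1) / 2 : ℕ) : ZMod n) := by
  have hn : ((n + 1) / 2 : ℕ) + (n + 1) / 2 = n + 1 := by
    rcases Nat.even_or_odd n with h1 | h1
    · exact absurd h1 h
    · obtain ⟨m, hm⟩ := h1
      omega
  have h2 : (((n + 1) / 2 : ℕ) : ZMod n) + (((n + 1) / 2 : ℕ) : ZMod n) = 1 := by
    rw [← Nat.cast_add, hn]
    push_cast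
    rw [ZMod.natCast_self, zero_add]
  constructor
  · intro h3
    linear_combination (-1) * w * h2 + (((n + 1) / 2 : ℕ) : ZMod n) * h3
  · intro h3
    rw [h3, h2]

theorem half_even [NeZero n] (h : Even n) (w : ZMod n) : w + w ≠ 1 := by
  intro h1
  have h2 := congrArg par h1
  rw [par_add, zmod2_two] at h2
  have h3 := par_natCast (n := n) 1
  rw [Nat.cast_one] at h3
  rw [h3] at h2
  unfold parT at h2
  rw [if_pos h, Nat.cast_one] at h2
  exact absurd h2 (by decide)

theorem card_clOk [NeZero n] (hn : 3 ≤ n) :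
    (univ.filter fun w : ZMod n => ClOk w).card = 2 * (T1 n - T0 n) := by
  have : Fact (1 < n) := ⟨by omega⟩
  have h01 : (0 : ZMod n) ≠ 1 := zero_ne_one
  have hc : Fintype.card (ZMod n) = n := ZMod.card n
  by_cases h : Even n
  · have hs : (univ.filter fun w : ZMod n => ClOk w) = univ \ {0, 1} := by
      ext w
      rw [mem_filter, mem_sdiff, mem_insert, mem_singleton]
      constructor
      · rintro ⟨_, h1, h2, _⟩
        exact ⟨mem_univ _, fun h3 => h3.elim h1 h2⟩
      · rintro ⟨_, h1⟩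
        exact ⟨mem_univ _, fun h2 => h1 (Or.inl h2), fun h2 => h1 (Or.inr h2), half_even h w⟩
    rw [hs, card_sdiff_of_subset (subset_univ _), card_univ, hc, card_pair h01]
    obtain ⟨m, hm⟩ := h
    unfold T1 T0
    omega
  · have h3 : (1 : ZMod n) + 1 ≠ 1 := by
      intro h4
      exact h01 (by linear_combination -h4)
    have h4 : (0 : ZMod n) + 0 ≠ 1 := by
      rw [add_zero]; exact h01
    have hs : (univ.filter fun w : ZMod n => ClOk w) =
        univ \ {0, 1, (((n + 1) / 2 : ℕ) : ZMod n)} := by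
      ext w
      rw [mem_filter, mem_sdiff, mem_insert, mem_insert, mem_singleton, ← half_unique h w]
      constructor
      · rintro ⟨_, h1, h2, h5⟩
        exact ⟨mem_univ _, fun h3 => h3.elim h1 fun h6 => h6.elim h2 h5⟩
      · rintro ⟨_, h1⟩
        exact ⟨mem_univ _, fun h2 => h1 (Or.inl h2), fun h2 => h1 (Or.inr (Or.inl h2)),
          fun h2 => h1 (Or.inr (Or.inr h2))⟩
    rw [hs, card_sdiff_of_subset (subset_univ _), card_univ, hc]
    have hcard : ({0, 1, (((n + 1) / 2 : ℕ) : ZMod n)} : Finset (ZMod n)).card = 3 := by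
      rw [card_eq_three]
      refine ⟨0, 1, _, h01, fun h5 => ?_, fun h5 => ?_, rfl⟩
      · exact h4 ((half_unique h 0).mpr h5)
      · exact h3 ((half_unique h 1).mpr h5)
    rw [hcard]
    rcases Nat.even_or_odd n with h1 | h1
    · exact absurd h1 h
    · obtain ⟨m, hm⟩ := h1
      unfold T1 T0
      omega

theorem card_classes [NeZero n] (hn : 3 ≤ n) :
    ((univ.filter fun w : ZMod n => ClOk w).image cl).card = T1 n - T0 n := by
  have h := card_eq_sum_card_image (cl (n := n)) (univ.filter fun w : ZMod n => ClOk w)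
  rw [card_clOk hn] at h
  have h2 : ∀ c ∈ (univ.filter fun w : ZMod n => ClOk w).image cl,
      ((univ.filter fun w : ZMod n => ClOk w).filter fun w => cl w = c).card = 2 := by
    intro c hc
    rw [mem_image] at hc
    obtain ⟨w, hw, rfl⟩ := hc
    rw [mem_filter] at hw
    have h3 : ((univ.filter fun w : ZMod n => ClOk w).filter fun v => cl v = cl w) = {w, 1 - w} := by
      ext v
      rw [mem_filter, mem_filter, mem_insert, mem_singleton]
      constructor
      · rintro ⟨_, h4⟩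
        exact (cl_eq_iff w v).mp h4.symm
      · intro h4
        have h5 := (cl_eq_iff w v).mpr h4
        exact ⟨⟨mem_univ _, clOk_cl h5 hw.2⟩, h5.symm⟩
    rw [h3, card_pair]
    intro h4
    exact hw.2.2.2 (by linear_combination h4)
  rw [sum_congr rfl h2, sum_const, smul_eq_mul] at h
  omega

theorem acc_image_inl (A : Finset (ZMod n)) :
    acc (A.image (Sum.inl : ZMod n → Elt n)) = ((A.card : ℤ), 0, ∑ x ∈ A, par x) := by
  unfold acc
  rw [sum_image (fun a _ b _ h => Sum.inl_injective h)]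
  simp only [wt, Sum.elim_inl]
  refine Prod.ext ?_ (Prod.ext ?_ ?_)
  · simp [Prod.fst_sum]
  · simp [Prod.snd_sum, Prod.fst_sum]
  · simp [Prod.snd_sum]

theorem acc_image_inr (A : Finset (Sym2 (ZMod n))) :
    acc (A.image (Sum.inr : Sym2 (ZMod n) → Elt n)) = (0, (A.card : ℤ), 0) := by
  unfold acc
  rw [sum_image (fun a _ b _ h => Sum.inr_injective h)]
  simp only [wt, Sum.elim_inr]
  refine Prod.ext ?_ (Prod.ext ?_ ?_)
  · simp [Prod.fst_sum]
  · simp [Prod.snd_sum, Prod.fst_sum]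
  · simp [Prod.snd_sum]

theorem disjoint_inl_inr (A : Finset (ZMod n)) (B : Finset (Sym2 (ZMod n))) :
    Disjoint (A.image (Sum.inl : ZMod n → Elt n)) (B.image (Sum.inr : Sym2 (ZMod n) → Elt n)) := by
  rw [disjoint_left]
  intro y h1 h2
  rw [mem_image] at h1 h2
  obtain ⟨a, _, rfl⟩ := h1
  obtain ⟨b, _, h⟩ := h2
  exact absurd h (by simp)

theorem all_eq [NeZero n] : All n = univ.image Sum.inl ∪
    ((univ.filter fun w : ZMod n => ClOk w).image cl).image Sum.inr := by
  unfold All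
  rw [image_image]
  rfl

theorem acc_all [NeZero n] (hn : 3 ≤ n) :
    acc (All n) = ((n : ℤ), (T1 n : ℤ) - (T0 n : ℤ), ∑ x : ZMod n, par x) := by
  rw [all_eq, acc_union (disjoint_inl_inr _ _), acc_image_inl, acc_image_inr, card_classes hn,
    card_univ, ZMod.card]
  have h : T0 n ≤ T1 n := by
    unfold T0 T1; omega
  refine Prod.ext (by simp) (Prod.ext ?_ (by simp))
  simp only [Prod.snd_add, Prod.fst_add, zero_add]
  push_cast [Nat.cast_sub h]
  ring

/-! ### fixed elements -/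

theorem cast_ne_zero_of_le {k : ℕ} (h1 : 1 ≤ k) (h2 : k ≤ T1 n) : (k : ZMod n) ≠ 0 := by
  intro h
  rw [ZMod.natCast_eq_zero_iff] at h
  have := Nat.le_of_dvd (by omega) h
  unfold T1 at h2
  omega

theorem acc_fixP [NeZero n] {Q : ℕ} {U : ℕ → ZMod n} (h : FixOk n Q U) :
    acc ((FixP n Q U).image (Sum.inl : ZMod n → Elt n)) =
      ∑ k ∈ FixT n Q, (if k = 0 then ((1 : ℤ), (0 : ℤ), par (U 0)) else
        ((2 : ℤ), (0 : ℤ), parT n k)) := by
  unfold acc
  rw [sum_image (fun a _ b _ h => Sum.inl_injective h)]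
  unfold FixP
  rw [sum_biUnion]
  · refine sum_congr rfl fun k hk => ?_
    by_cases h0 : k = 0
    · rw [if_pos h0, h0]
      simp [wt]
    · rw [if_neg h0, sum_pair]
      · simp only [wt, Sum.elim_inl]
        refine Prod.ext (by simp) (Prod.ext (by simp) ?_)
        simp only [Prod.snd_add]
        rw [par_sub, par_natCast, zmod2_sub, ← add_assoc, zmod2_two, zero_add]
      · intro h1
        exact h0 (h.ul k hk k hk h1).1
  · intro i hi j hj hij
    show Disjoint _ _
    rw [disjoint_left]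
    intro x h1 h2
    rw [mem_insert, mem_singleton] at h1 h2
    rcases h1 with h1 | h1 <;> rcases h2 with h2 | h2
    · exact hij (h.up i hi j hj (h1.symm.trans h2))
    · have := h.ul i hi j hj (h1.symm.trans h2)
      omega
    · have := h.ul j hj i hi (h2.symm.trans h1)
      omega
    · exact hij (h.lo i hi j hj (h1.symm.trans h2))

theorem card_fixC {Q : ℕ} {U : ℕ → ZMod n} (h : FixOk n Q U) :
    (FixC n Q U).card = (FixL n Q).card := by
  unfold FixC
  apply card_image_of_injOn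
  intro k hk k' hk' h1
  exact h.cls k hk k' hk' h1

theorem acc_fixE [NeZero n] {Q : ℕ} {U : ℕ → ZMod n} (h : FixOk n Q U) :
    acc (FixE n Q U) =
      ∑ k ∈ FixT n Q, (if k = 0 then ((1 : ℤ), (0 : ℤ), par (U 0)) else
        ((2 : ℤ), (0 : ℤ), parT n k)) + (0, ((FixL n Q).card : ℤ), 0) := by
  unfold FixE
  rw [acc_union (disjoint_inl_inr _ _), acc_fixP h, acc_image_inr, card_fixC h]

/-- the parity needed for the omitted point -/
def starPar (n : ℕ) [NeZero n] (U : ℕ → ZMod n) : ZMod 2 :=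
  ∑ x : ZMod n, par x + ∑ k ∈ Icc (T0 n) (T1 n), parT n k + if Even n then par (U 0) else 0

theorem starPar_odd [NeZero n] (U : ℕ → ZMod n) (h : ¬ Even n) : starPar n U = 0 := by
  unfold starPar
  rw [if_neg h, sum_eq_zero fun x _ => par_odd h x, sum_eq_zero fun k _ => ?_]
  · rfl
  · unfold parT; rw [if_neg h]

/-- the exact count for the elements to be covered by the blocks -/
theorem acc_rest [NeZero n] (hn : 3 ≤ n) {Q : ℕ} (hQ : 1 ≤ Q) (hQ2 : Q ≤ T1 n) {U : ℕ → ZMod n}
    (h : FixOk n Q U) (hsub : FixE n Q U ⊆ All n) {xs : ZMod n} (hxs : xs ∉ FixP n Q U)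
    (hpar : par xs = starPar n U) :
    acc (All n \ insert (Sum.inl xs) (FixE n Q U)) = ∑ j ∈ Blocks n Q, bl n Q j := by
  have hx : Sum.inl xs ∉ FixE n Q U := by
    unfold FixE
    rw [mem_union, mem_image, mem_image]
    rintro (⟨a, ha, h1⟩ | ⟨a, _, h1⟩)
    · rw [Sum.inl_injective h1] at ha
      exact hxs ha
    · exact absurd h1 (by simp)
  have hs2 : insert (Sum.inl xs) (FixE n Q U) ⊆ All n := by
    rw [insert_subset_iff]
    refine ⟨?_, hsub⟩
    unfold All
    rw [mem_union]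
    left
    exact mem_image_of_mem _ (mem_univ _)
  have hbad : acc (insert (Sum.inl xs) (FixE n Q U)) = (1, 0, par xs) + acc (FixE n Q U) := by
    unfold acc
    rw [sum_insert hx]
    rfl
  rw [acc_sdiff hs2, hbad, acc_all hn, acc_fixE h]
  -- times
  have e1 := sum_times (n := n) hQ (fun k => ((2 : ℤ), (0 : ℤ), parT n k))
  have e2 := sum_pairs (n := n) hQ hQ2 (fun _ => ((0 : ℤ), (1 : ℤ), (0 : ZMod 2)))
  have e3 : ∑ j ∈ Blocks n Q, bl n Q j =
      ∑ j ∈ Blocks n Q, ∑ k ∈ Ioo (j * Q) ((j + 1) * Q), ((2 : ℤ), (0 : ℤ), parT n k) +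
      ∑ j ∈ Blocks n Q, ∑ _k ∈ Ico (j * Q) ((j + 1) * Q), ((0 : ℤ), (1 : ℤ), (0 : ZMod 2)) := by
    rw [← sum_add_distrib]
    refine sum_congr rfl fun j _ => ?_
    have hc1 : (Ioo (j * Q) ((j + 1) * Q)).card = Q - 1 := by
      rw [Nat.card_Ioo, add_mul, one_mul]; omega
    have hc2 : (Ico (j * Q) ((j + 1) * Q)).card = Q := by
      rw [Nat.card_Ico, add_mul, one_mul]; omega
    unfold bl
    refine Prod.ext ?_ (Prod.ext ?_ ?_)
    · simp only [Prod.fst_add, Prod.fst_sum, sum_const, hc1, hc2, Prod.smul_fst]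
      simp only [nsmul_eq_mul]
      rw [Nat.cast_sub hQ]
      push_cast
      ring
    · simp only [Prod.snd_add, Prod.fst_add, Prod.snd_sum, Prod.fst_sum, sum_const, hc1, hc2,
        Prod.smul_snd, Prod.smul_fst]
      simp only [nsmul_eq_mul]
      ring
    · simp only [Prod.snd_add, Prod.snd_sum, sum_const, Prod.smul_snd, smul_zero, add_zero]
  have e4 : ∑ k ∈ FixT n Q, (if k = 0 then ((1 : ℤ), (0 : ℤ), par (U 0)) else
        ((2 : ℤ), (0 : ℤ), parT n k)) = ∑ k ∈ FixT n Q, ((2 : ℤ), (0 : ℤ), parT n k) +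
        (if Even n then ((-1 : ℤ), (0 : ℤ), par (U 0)) else 0) := by
    by_cases he : Even n
    · rw [if_pos he]
      have h0 : 0 ∈ FixT n Q := by
        rw [mem_fixT]
        obtain ⟨m, hm⟩ := he
        refine ⟨⟨?_, Nat.zero_le _⟩, Or.inl (by omega)⟩
        unfold T0; omega
      have e5 : ∀ k ∈ FixT n Q, (if k = 0 then ((1 : ℤ), (0 : ℤ), par (U 0)) else
        ((2 : ℤ), (0 : ℤ), parT n k)) = ((2 : ℤ), (0 : ℤ), parT n k) +
          if k = 0 then ((-1 : ℤ), (0 : ℤ), par (U 0)) else 0 := by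
        intro k _
        by_cases hk : k = 0
        · rw [if_pos hk, if_pos hk, hk]
          unfold parT
          rw [if_pos he]
          refine Prod.ext (by simp) (Prod.ext (by simp) (by simp))
        · rw [if_neg hk, if_neg hk, add_zero]
      rw [sum_congr rfl e5, sum_add_distrib, sum_ite_eq' , if_pos h0]
    · rw [if_neg he, add_zero]
      refine sum_congr rfl fun k hk => ?_
      rw [if_neg]
      rw [mem_fixT] at hk
      have : T0 n = 1 := by
        rcases Nat.even_or_odd n with h1 | h1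
        · exact absurd h1 he
        · obtain ⟨m, hm⟩ := h1
          unfold T0; omega
      omega
  have e6 : ∑ k ∈ FixL n Q, ((0 : ℤ), (1 : ℤ), (0 : ZMod 2)) = (0, ((FixL n Q).card : ℤ), 0) := by
    rw [sum_const]
    refine Prod.ext (by simp) (Prod.ext (by simp) (by simp))
  have e7 : ∑ k ∈ Icc (T0 n) (T1 n), ((2 : ℤ), (0 : ℤ), parT n k) =
      (2 * ((T1 n : ℤ) + 1 - (T0 n : ℤ)), 0, ∑ k ∈ Icc (T0 n) (T1 n), parT n k) := by
    have hle : T0 n ≤ T1 n + 1 := by unfold T0 T1; omega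
    refine Prod.ext ?_ (Prod.ext ?_ ?_)
    · simp only [Prod.fst_sum, sum_const, Nat.card_Icc]
      simp only [nsmul_eq_mul]
      push_cast [Nat.cast_sub hle]
      ring
    · simp [Prod.snd_sum, Prod.fst_sum]
    · simp [Prod.snd_sum]
  have e8 : ∑ k ∈ Ico (T0 n) (T1 n), ((0 : ℤ), (1 : ℤ), (0 : ZMod 2)) =
      (0, (T1 n : ℤ) - (T0 n : ℤ), 0) := by
    have hle : T0 n ≤ T1 n := by unfold T0 T1; omega
    rw [sum_const, Nat.card_Ico]
    refine Prod.ext (by simp) (Prod.ext ?_ (by simp))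
    simp only [Prod.smul_snd, Prod.smul_fst]
    simp only [nsmul_eq_mul]
    push_cast [Nat.cast_sub hle]
    ring
  rw [e7] at e1
  rw [e8, e6] at e2
  rw [e3, e4, hpar]
  have e9 : ((n : ℤ), (T1 n : ℤ) - (T0 n : ℤ), ∑ x : ZMod n, par x) - (1, 0, starPar n U) -
      (if Even n then ((-1 : ℤ), (0 : ℤ), par (U 0)) else 0) =
      (2 * ((T1 n : ℤ) + 1 - (T0 n : ℤ)), 0, ∑ k ∈ Icc (T0 n) (T1 n), parT n k) +
      (0, (T1 n : ℤ) - (T0 n : ℤ), 0) := by
    by_cases he : Even n
    · rw [if_pos he]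
      unfold starPar
      rw [if_pos he]
      obtain ⟨m, hm⟩ := he
      refine Prod.ext ?_ (Prod.ext (by simp) ?_)
      · simp only [Prod.fst_sub, Prod.fst_add]
        unfold T1 T0
        omega
      · simp only [Prod.snd_sub, Prod.snd_add, add_zero]
        generalize (∑ x : ZMod n, par x) = a
        generalize (∑ k ∈ Icc (T0 n) (T1 n), parT n k) = b
        generalize par (U 0) = c
        revert a b c
        decide
    · rw [if_neg he]
      unfold starPar
      rw [if_neg he]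
      have hm : n % 2 = 1 := by
        rcases Nat.even_or_odd n with h1 | h1
        · exact absurd h1 he
        · obtain ⟨m, hm⟩ := h1
          omega
      refine Prod.ext ?_ (Prod.ext (by simp) ?_)
      · simp only [Prod.fst_sub, Prod.fst_add, Prod.fst_zero]
        unfold T1 T0
        omega
      · simp only [Prod.snd_sub, Prod.snd_add, add_zero, Prod.snd_zero]
        generalize (∑ x : ZMod n, par x) = a
        generalize (∑ k ∈ Icc (T0 n) (T1 n), parT n k) = b
        revert a b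
        decide
  linear_combination e9 + e1 + e2

end Asm
end Pool.Agent.DNA
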