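import Pool.Agent.Lib.MP_845d9b_co.Abs.AsmSize

/-!
# From a packing of all blocks to a solution of the half problem (helper85)
-/

set_option autoImplicit false

namespace Pool.Agent.DNA
namespace Asm

open Finset

variable {n : ℕ}

/-- the glued assignment -/
def glue (n Q : ℕ) (U : ℕ → ZMod n) (F : ℕ → ℕ → ZMod n) (k : ℕ) : ZMod n :=
  if k ∈ FixT n Q then U k else F (k / Q) k

theorem glue_fix {Q : ℕ} {U : ℕ → ZMod n} {F : ℕ → ℕ → ZMod n} {k : ℕ} (h : k ∈ FixT n Q) :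
    glue n Q U F k = U k := by
  unfold glue; rw [if_pos h]

theorem glue_block {Q : ℕ} (hQ : 1 ≤ Q) {U : ℕ → ZMod n} {F : ℕ → ℕ → ZMod n} {j k : ℕ}
    (hj : j ∈ Blocks n Q) (hF : IsFill n Q U j (F j)) (h1 : j * Q ≤ k) (h2 : k ≤ (j + 1) * Q) :
    glue n Q U F k = F j k := by
  have h3 := block_mem_Icc hQ hj h1 h2
  rcases Nat.eq_or_lt_of_le h1 with h4 | h4
  · rw [glue_fix, ← h4, hF.left]
    rw [mem_fixT]
    exact ⟨mem_Icc.mp h3, Or.inr (Or.inl ⟨j, by rw [← h4]; exact mul_comm _ _⟩)⟩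
  · rcases Nat.eq_or_lt_of_le h2 with h5 | h5
    · rw [glue_fix, h5, hF.right]
      rw [mem_fixT]
      exact ⟨mem_Icc.mp h3, Or.inr (Or.inl ⟨j + 1, by rw [h5]; exact mul_comm _ _⟩)⟩
    · have h6 : k ∉ FixT n Q := by
        rw [mem_fixT]
        rintro ⟨_, h7 | h7 | h7⟩
        · have := block_ge hj; omega
        · exact not_dvd_of_mem (mem_Ioo.mpr ⟨h4, h5⟩) h7
        · have := block_le hj; omega
      unfold glue
      rw [if_neg h6]
      have h7 : k / Q = j := by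
        have h8 : (k / Q) * Q ≤ k := Nat.div_mul_le_self k Q
        have h9 : k < (k / Q + 1) * Q := by
          rw [add_mul, one_mul]; exact Nat.lt_div_mul_add (by omega)
        exact block_unique ⟨h8, h9⟩ ⟨h1, h5⟩
      rw [h7]

/-- fixed indices -/
def Fx (n Q : ℕ) (i : ℕ × Fin 3) : Prop :=
  (i.2 ≠ 2 ∧ i.1 ∈ FixT n Q) ∨ (i.2 = 2 ∧ i.1 ∈ FixL n Q)

/-- all indices -/
def Vl (n : ℕ) (i : ℕ × Fin 3) : Prop :=
  (i.2 ≠ 2 ∧ i.1 ∈ Icc (T0 n) (T1 n)) ∨ (i.2 = 2 ∧ i.1 ∈ Ico (T0 n) (T1 n))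

theorem fin3_cases (t : Fin 3) (h : t ≠ 2) : t = 0 ∨ t = 1 := by
  revert t; decide

theorem vl_cases {Q : ℕ} (hQ : 1 ≤ Q) {i : ℕ × Fin 3} (h : Vl n i) :
    Fx n Q i ∨ ∃ j ∈ Blocks n Q, i ∈ idx Q j := by
  rcases h with ⟨h1, h2⟩ | ⟨h1, h2⟩
  · rcases time_cases hQ h2 with h3 | ⟨j, hj, h3⟩
    · left; left; exact ⟨h1, h3⟩
    · right
      refine ⟨j, hj, ?_⟩
      unfold idx
      rw [mem_union, mem_product]
      left
      refine ⟨h3, ?_⟩
      rw [mem_insert, mem_singleton]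
      exact fin3_cases _ h1
  · rcases pair_cases hQ h2 with h3 | ⟨j, hj, h3⟩
    · left; right; exact ⟨h1, h3⟩
    · right
      refine ⟨j, hj, ?_⟩
      unfold idx
      rw [mem_union, mem_product, mem_product]
      right
      exact ⟨h3, mem_singleton.mpr h1⟩

theorem fixL_sub {Q : ℕ} (hQ : 1 ≤ Q) (hQ2 : Q ≤ T1 n) {k : ℕ} (h : k ∈ FixL n Q) :
    k ∈ FixT n Q ∧ k + 1 ∈ FixT n Q := by
  rw [mem_fixT, mem_fixT]
  have h1 := T0_le_one n
  have h2 : Q ≤ J1 n Q * Q := by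
    apply Nat.le_mul_of_pos_left
    unfold J1
    exact Nat.div_pos hQ2 (by omega)
  have h3 := J1_mul_le n Q
  unfold FixL at h
  rw [mem_union, mem_Ico, mem_Ico] at h
  rcases h with h | h
  · refine ⟨⟨by omega, Or.inl h.2⟩, by omega, ?_⟩
    rcases Nat.eq_or_lt_of_le (show k + 1 ≤ Q from h.2) with h4 | h4
    · right; left; rw [h4]
    · left; exact h4
  · exact ⟨⟨by omega, Or.inr (Or.inr h.1)⟩, by omega, Or.inr (Or.inr (by omega))⟩

theorem elt_fix {Q : ℕ} (hQ : 1 ≤ Q) (hQ2 : Q ≤ T1 n) {U : ℕ → ZMod n} {F : ℕ → ℕ → ZMod n}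
    {i : ℕ × Fin 3} (h : Fx n Q i) :
    elt n (glue n Q U F) i = elt n U i ∧ elt n U i ∈ FixE n Q U := by
  obtain ⟨k, t⟩ := i
  rcases h with ⟨h1, h2⟩ | ⟨h1, h2⟩
  · simp only at h1 h2
    rcases fin3_cases t h1 with h3 | h3
    · subst h3
      simp only [elt, if_true]
      rw [glue_fix h2]
      refine ⟨rfl, ?_⟩
      unfold FixE
      rw [mem_union]; left
      apply mem_image_of_mem
      unfold FixP
      rw [mem_biUnion]
      exact ⟨k, h2, mem_insert_self _ _⟩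
    · subst h3
      simp only [elt, one_ne_zero, if_false, if_true]
      rw [glue_fix h2]
      refine ⟨rfl, ?_⟩
      unfold FixE
      rw [mem_union]; left
      apply mem_image_of_mem
      unfold FixP
      rw [mem_biUnion]
      exact ⟨k, h2, mem_insert_of_mem (mem_singleton_self _)⟩
  · simp only at h1 h2
    subst h1
    obtain ⟨h3, h4⟩ := fixL_sub hQ hQ2 h2
    simp only [elt]
    rw [if_neg (by decide), if_neg (by decide), if_neg (by decide), if_neg (by decide),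
      glue_fix h3, glue_fix h4]
    refine ⟨rfl, ?_⟩
    unfold FixE
    rw [mem_union]; right
    apply mem_image_of_mem
    unfold FixC
    rw [mem_image]
    exact ⟨k, h2, rfl⟩

theorem elt_block {Q : ℕ} (hQ : 1 ≤ Q) {U : ℕ → ZMod n} {F : ℕ → ℕ → ZMod n} {j : ℕ}
    (hj : j ∈ Blocks n Q) (hF : IsFill n Q U j (F j)) {i : ℕ × Fin 3} (h : i ∈ idx Q j) :
    elt n (glue n Q U F) i = elt n (F j) i ∧ elt n (F j) i ∈ foot n Q j (F j) := by
  refine ⟨?_, by rw [foot_eq_image]; exact mem_image_of_mem _ h⟩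
  obtain ⟨k, t⟩ := i
  unfold idx at h
  rw [mem_union, mem_product, mem_product, mem_Ioo, mem_Ico, mem_insert, mem_singleton,
    mem_singleton] at h
  rcases h with ⟨h1, h2⟩ | ⟨h1, h2⟩
  · simp only at h1
    simp only [elt]
    rw [glue_block hQ hj hF h1.1.le h1.2.le]
    rcases h2 with h2 | h2
    · simp only at h2
      rw [h2]
      simp
    · simp only at h2
      rw [h2]
      simp
  · simp only at h1 h2
    simp only [elt]
    rw [glue_block hQ hj hF h1.1 h1.2.le, glue_block hQ hj hF (by omega) (by omega), h2]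

theorem key {Q : ℕ} (hQ : 1 ≤ Q) (hQ2 : Q ≤ T1 n) {U : ℕ → ZMod n} {F : ℕ → ℕ → ZMod n}
    {S : Finset (Elt n)} (hF : Packs n Q U (Blocks n Q) F S) (hS : Disjoint S (FixE n Q U))
    {i i' : ℕ × Fin 3} (hi : Vl n i) (hi' : Vl n i')
    (h : elt n (glue n Q U F) i = elt n (glue n Q U F) i') :
    i = i' ∨ (Fx n Q i ∧ Fx n Q i' ∧ elt n U i = elt n U i') := by
  rcases vl_cases hQ hi with h1 | ⟨j, hj, h1⟩ <;> rcases vl_cases hQ hi' with h2 | ⟨j', hj', h2⟩
  · right
    refine ⟨h1, h2, ?_⟩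
    rw [← (elt_fix hQ hQ2 h1).1, ← (elt_fix hQ hQ2 h2).1, h]
  · exfalso
    obtain ⟨e1, m1⟩ := elt_fix (U := U) (F := F) hQ hQ2 h1
    obtain ⟨e2, m2⟩ := elt_block hQ hj' (hF.fill j' hj') h2
    rw [e1, e2] at h
    rw [h] at m1
    have m3 : elt n (F j') i' ∈ S := by
      rw [← hF.cover, mem_biUnion]
      exact ⟨j', hj', m2⟩
    exact disjoint_left.mp hS m3 m1
  · exfalso
    obtain ⟨e1, m1⟩ := elt_fix (U := U) (F := F) hQ hQ2 h2
    obtain ⟨e2, m2⟩ := elt_block hQ hj (hF.fill j hj) h1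
    rw [e1, e2] at h
    rw [← h] at m1
    have m3 : elt n (F j) i ∈ S := by
      rw [← hF.cover, mem_biUnion]
      exact ⟨j, hj, m2⟩
    exact disjoint_left.mp hS m3 m1
  · left
    obtain ⟨e1, m1⟩ := elt_block hQ hj (hF.fill j hj) h1
    obtain ⟨e2, m2⟩ := elt_block hQ hj' (hF.fill j' hj') h2
    rw [e1, e2] at h
    by_cases hjj : j = j'
    · subst hjj
      exact IsFill.injOn hQ (hF.fill j hj) h1 h2 h
    · exfalso
      rw [h] at m1
      exact disjoint_left.mp (hF.disj j hj j' hj' hjj) m1 m2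

theorem d02 : (0 : Fin 3) ≠ 2 := by decide
theorem d12 : (1 : Fin 3) ≠ 2 := by decide
theorem d01 : (0 : Fin 3) ≠ 1 := by decide

theorem halfSol_of_packs {Q : ℕ} (hQ : 1 ≤ Q) (hQ2 : Q ≤ T1 n) {U : ℕ → ZMod n}
    {F : ℕ → ℕ → ZMod n} {S : Finset (Elt n)} (hU : FixOk n Q U)
    (hF : Packs n Q U (Blocks n Q) F S) (hS : Disjoint S (FixE n Q U)) :
    HalfSol n (glue n Q U F) where
  up := by
    intro k hk k' hk' h
    have h1 := key (i := (k, 0)) (i' := (k', 0)) hQ hQ2 hF hS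
      (Or.inl ⟨d02, hk⟩) (Or.inl ⟨d02, hk'⟩) (by simp [elt, h])
    rcases h1 with h1 | ⟨h2, h3, h4⟩
    · exact congrArg Prod.fst h1
    · rcases h2 with h2 | h2
      · rcases h3 with h3 | h3
        · simp only [elt, if_true] at h4
          exact hU.up k h2.2 k' h3.2 (Sum.inl_injective h4)
        · exact absurd h3.1 d02
      · exact absurd h2.1 d02
  lo := by
    intro k hk k' hk' h
    have h1 := key (i := (k, 1)) (i' := (k', 1)) hQ hQ2 hF hS
      (Or.inl ⟨d12, hk⟩) (Or.inl ⟨d12, hk'⟩) (by simp [elt, h])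
    rcases h1 with h1 | ⟨h2, h3, h4⟩
    · exact congrArg Prod.fst h1
    · rcases h2 with h2 | h2
      · rcases h3 with h3 | h3
        · simp only [elt, if_true, one_ne_zero, if_false] at h4
          exact hU.lo k h2.2 k' h3.2 (Sum.inl_injective h4)
        · exact absurd h3.1 d12
      · exact absurd h2.1 d12
  ul := by
    intro k hk k' hk' h
    have h1 := key (i := (k, 0)) (i' := (k', 1)) hQ hQ2 hF hS
      (Or.inl ⟨d02, hk⟩) (Or.inl ⟨d12, hk'⟩) (by simp [elt, h])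
    rcases h1 with h1 | ⟨h2, h3, h4⟩
    · exact absurd (congrArg Prod.snd h1) d01
    · rcases h2 with h2 | h2
      · rcases h3 with h3 | h3
        · simp only [elt, if_true, one_ne_zero, if_false] at h4
          exact hU.ul k h2.2 k' h3.2 (Sum.inl_injective h4)
        · exact absurd h3.1 d12
      · exact absurd h2.1 d02
  ok := by
    intro k hk
    rcases pair_cases hQ hk with h | ⟨j, hj, h⟩
    · obtain ⟨h3, h4⟩ := fixL_sub hQ hQ2 h
      rw [glue_fix h3, glue_fix h4]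
      exact hU.ok k h
    · have h1 := mem_Ico.mp h
      rw [glue_block hQ hj (hF.fill j hj) h1.1 h1.2.le,
        glue_block hQ hj (hF.fill j hj) (by omega) (by omega)]
      exact (hF.fill j hj).ok k h
  cls := by
    intro k hk k' hk' h
    have hdec0 : ¬ ((2 : Fin 3) = 0) := by decide
    have hdec1 : ¬ ((2 : Fin 3) = 1) := by decide
    have h1 := key (i := (k, 2)) (i' := (k', 2)) hQ hQ2 hF hS
      (Or.inr ⟨rfl, hk⟩) (Or.inr ⟨rfl, hk'⟩) (by simp [elt, h])
    rcases h1 with h1 | ⟨h2, h3, h4⟩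
    · exact congrArg Prod.fst h1
    · rcases h2 with h2 | h2
      · exact absurd rfl h2.1
      · rcases h3 with h3 | h3
        · exact absurd rfl h3.1
        · simp only [elt] at h4
          rw [if_neg hdec0, if_neg hdec1, if_neg hdec0, if_neg hdec1] at h4
          exact hU.cls k h2.2 k' h3.2 (Sum.inr_injective h4)

end Asm
end Pool.Agent.DNA
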