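import Pool.Agent.Lib.MP_845d9b_co.Abs.AsmCount

/-!
# Size estimates for the assembly (helper85)
-/

set_option autoImplicit false

namespace Pool.Agent.DNA
namespace Asm

open Finset

variable {n : ℕ}

theorem fixE_subset [NeZero n] {Q : ℕ} {U : ℕ → ZMod n} (h : FixOk n Q U) :
    FixE n Q U ⊆ All n := by
  intro y hy
  unfold FixE at hy
  unfold All
  rw [mem_union] at hy ⊢
  rcases hy with hy | hy
  · rw [mem_image] at hy
    obtain ⟨x, _, rfl⟩ := hy
    left
    exact mem_image_of_mem _ (mem_univ _)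
  · right
    unfold FixC at hy
    rw [mem_image] at hy
    obtain ⟨c, hc, rfl⟩ := hy
    rw [mem_image] at hc
    obtain ⟨k, hk, rfl⟩ := hc
    rw [mem_image]
    exact ⟨U (k + 1) - U k, mem_filter.mpr ⟨mem_univ _, h.ok k hk⟩, rfl⟩

theorem card_fixT {Q : ℕ} (hQ : 1 ≤ Q) : (FixT n Q).card ≤ J1 n Q + 1 + 2 * Q := by
  have h : FixT n Q ⊆ (range Q ∪ (range (J1 n Q + 1)).image (· * Q)) ∪
      Icc (J1 n Q * Q) (T1 n) := by
    intro k hk
    rw [mem_fixT] at hk
    rw [mem_union, mem_union, mem_range, mem_image, mem_Icc]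
    rcases hk.2 with h | h | h
    · left; left; exact h
    · left; right
      obtain ⟨c, rfl⟩ := h
      refine ⟨c, ?_, mul_comm _ _⟩
      rw [mem_range]
      have h1 := T1_lt (n := n) hQ
      have h2 : c * Q < (J1 n Q + 1) * Q := by
        rw [mul_comm c Q]; omega
      exact Nat.lt_of_mul_lt_mul_right h2
    · right; exact ⟨h, hk.1.2⟩
  have h2 := card_le_card h
  have h3 := card_union_le (range Q ∪ (range (J1 n Q + 1)).image (· * Q)) (Icc (J1 n Q * Q) (T1 n))
  have h4 := card_union_le (range Q) ((range (J1 n Q + 1)).image (· * Q))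
  have h5 : ((range (J1 n Q + 1)).image (· * Q)).card ≤ (range (J1 n Q + 1)).card := card_image_le
  rw [card_range] at h4 h5
  rw [Nat.card_Icc] at h3
  have h6 := T1_lt (n := n) hQ
  rw [add_mul, one_mul] at h6
  omega

theorem card_fixP {Q : ℕ} (hQ : 1 ≤ Q) (U : ℕ → ZMod n) :
    (FixP n Q U).card ≤ 2 * (J1 n Q + 1 + 2 * Q) := by
  unfold FixP
  refine card_biUnion_le.trans ?_
  refine (sum_le_sum fun k _ => card_le_two).trans ?_
  rw [sum_const, smul_eq_mul]
  have := card_fixT (n := n) hQ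
  omega

theorem card_fixL {Q : ℕ} (hQ : 1 ≤ Q) : (FixL n Q).card ≤ 2 * Q := by
  unfold FixL
  have h := card_union_le (Ico (T0 n) Q) (Ico (J1 n Q * Q) (T1 n))
  rw [Nat.card_Ico, Nat.card_Ico] at h
  have h6 := T1_lt (n := n) hQ
  rw [add_mul, one_mul] at h6
  omega

theorem card_fixE {Q : ℕ} (hQ : 1 ≤ Q) (U : ℕ → ZMod n) :
    (FixE n Q U).card ≤ 2 * (J1 n Q + 1 + 2 * Q) + 2 * Q := by
  unfold FixE
  have h := card_union_le ((FixP n Q U).image (Sum.inl : ZMod n → Elt n))
    ((FixC n Q U).image Sum.inr)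
  have h1 : ((FixP n Q U).image (Sum.inl : ZMod n → Elt n)).card ≤ (FixP n Q U).card := card_image_le
  have h2 : ((FixC n Q U).image (Sum.inr : Sym2 (ZMod n) → Elt n)).card ≤ (FixC n Q U).card :=
    card_image_le
  have h3 : (FixC n Q U).card ≤ (FixL n Q).card := card_image_le
  have h4 := card_fixP (n := n) hQ U
  have h5 := card_fixL (n := n) hQ
  omega

/-- there is a point of prescribed parity outside a small set -/
theorem exists_point [NeZero n] (A : Finset (ZMod n)) (hA : 2 * A.card + 2 ≤ n) (π : ZMod 2)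
    (hπ : ¬ Even n → π = 0) : ∃ x : ZMod n, x ∉ A ∧ par x = π := by
  by_cases he : Even n
  · by_contra hcon
    push Not at hcon
    -- injection from `range (n / 2)`
    obtain ⟨c, hc, hc1⟩ : ∃ c : ℕ, ((c : ℕ) : ZMod 2) = π ∧ c ≤ 1 := by
      rcases zmod2_cases π with h | h
      · exact ⟨0, by rw [h]; rfl, by norm_num⟩
      · exact ⟨1, by rw [h]; rfl, le_rfl⟩
    have hsub : (range (n / 2)).image (fun i : ℕ => ((2 * i + c : ℕ) : ZMod n)) ⊆ A := by
      intro x hx
      rw [mem_image] at hx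
      obtain ⟨i, _, rfl⟩ := hx
      by_contra hx
      apply hcon _ hx
      rw [par_natCast]
      unfold parT
      rw [if_pos he]
      push_cast
      rw [hc]
      have : (2 : ZMod 2) = 0 := rfl
      rw [this, zero_mul, zero_add]
    have hinj : Set.InjOn (fun i : ℕ => ((2 * i + c : ℕ) : ZMod n)) (range (n / 2)) := by
      intro i hi j hj hij
      rw [mem_coe, mem_range] at hi hj
      simp only at hij
      rw [ZMod.natCast_eq_natCast_iff] at hij
      have := Nat.ModEq.eq_of_lt_of_lt hij (by omega) (by omega)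
      omega
    have h1 := card_le_card hsub
    rw [card_image_of_injOn hinj, card_range] at h1
    obtain ⟨m, hm⟩ := he
    omega
  · have h1 : A.card < Fintype.card (ZMod n) := by
      rw [ZMod.card]; omega
    have h2 : A ≠ univ := by
      intro h
      rw [h, card_univ] at h1
      exact lt_irrefl _ h1
    obtain ⟨x, hx⟩ : ∃ x, x ∉ A := by
      by_contra hcon
      push Not at hcon
      exact h2 (eq_univ_iff_forall.mpr hcon)
    exact ⟨x, hx, by rw [par_odd he, hπ he]⟩

/-- the anchors used at `x - (jQ + 2)` are rarely bad -/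
theorem bad_blocks [NeZero n] {Q : ℕ} (hQ : 1 ≤ Q) {U : ℕ → ZMod n} (hreg : Reg n Q U)
    (xs x : ZMod n) :
    Q ^ 2 * ((Blocks n Q).filter fun j =>
        Sum.inl (x - ((j * Q + 2 : ℕ) : ZMod n)) ∈ insert (Sum.inl xs) (FixE n Q U)).card ≤
      20 * n + Q ^ 2 := by
  have hsub : ((Blocks n Q).filter fun j =>
        Sum.inl (x - ((j * Q + 2 : ℕ) : ZMod n)) ∈ insert (Sum.inl xs) (FixE n Q U)) ⊆
      ((Blocks n Q).filter fun j => x - ((j * Q + 2 : ℕ) : ZMod n) = xs) ∪
      ((Blocks n Q).filter fun j => x - ((j * Q + 2 : ℕ) : ZMod n) ∈ FixP n Q U) := by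
    intro j hj
    rw [mem_filter] at hj
    rw [mem_union, mem_filter, mem_filter]
    obtain ⟨h1, h2⟩ := hj
    rw [mem_insert] at h2
    rcases h2 with h2 | h2
    · left; exact ⟨h1, Sum.inl_injective h2⟩
    · right
      refine ⟨h1, ?_⟩
      unfold FixE at h2
      rw [mem_union, mem_image, mem_image] at h2
      rcases h2 with ⟨a, ha, h3⟩ | ⟨a, _, h3⟩
      · rw [← Sum.inl_injective h3]; exact ha
      · exact absurd h3 (by simp)
  have h1 : ((Blocks n Q).filter fun j => x - ((j * Q + 2 : ℕ) : ZMod n) = xs).card ≤ 1 := by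
    rw [card_le_one]
    intro i hi j hj
    rw [mem_filter] at hi hj
    have h2 : ((i * Q + 2 : ℕ) : ZMod n) = ((j * Q + 2 : ℕ) : ZMod n) := by
      linear_combination hj.2 - hi.2
    have h3 : ((i * Q : ℕ) : ZMod n) = ((j * Q : ℕ) : ZMod n) := by
      push_cast at h2 ⊢
      linear_combination h2
    rw [ZMod.natCast_eq_natCast_iff] at h3
    have h4 := block_le hi.1
    have h5 := block_le hj.1
    have h6 := J1_mul_le n Q
    have h7 : T1 n < n := by
      have := NeZero.pos n
      unfold T1; omega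
    rw [add_mul, one_mul] at h4 h5
    have h8 := Nat.ModEq.eq_of_lt_of_lt h3 (by omega) (by omega)
    exact Nat.eq_of_mul_eq_mul_right (by omega) h8
  have h2 : ((Blocks n Q).filter fun j => x - ((j * Q + 2 : ℕ) : ZMod n) ∈ FixP n Q U).card ≤
      ((FixT n Q).filter fun k : ℕ => (x - 2) - (k : ZMod n) ∈ FixP n Q U).card := by
    apply card_le_card_of_injOn (fun j => j * Q)
    · intro j hj
      rw [mem_coe, mem_filter] at hj
      rw [mem_coe, mem_filter]
      show j * Q ∈ FixT n Q ∧ _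
      refine ⟨?_, ?_⟩
      · rw [mem_fixT]
        have h4 := block_le hj.1
        have h5 := block_ge hj.1
        have h6 := J1_mul_le n Q
        have h7 := T0_le_one n
        rw [add_mul, one_mul] at h4
        exact ⟨⟨by omega, by omega⟩, Or.inr (Or.inl ⟨j, mul_comm _ _⟩)⟩
      · have h3 : x - 2 - ((j * Q : ℕ) : ZMod n) = x - ((j * Q + 2 : ℕ) : ZMod n) := by
          push_cast; ring
        simp only
        rw [h3]
        exact hj.2
    · intro i _ j _ hij
      exact Nat.eq_of_mul_eq_mul_right (by omega) hij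
  have h3 := hreg.line (x - 2)
  have h4 := (card_le_card hsub).trans (card_union_le _ _)
  have h5 : ((FixT n Q).filter fun k : ℕ => (x - 2) - (k : ZMod n) ∈ FixP n Q U).card * Q ^ 2 ≤
      20 * n := by
    refine le_trans ?_ h3
    rw [mul_comm]
    exact Nat.mul_le_mul_left _ (Nat.le_add_left _ _)
  calc Q ^ 2 * ((Blocks n Q).filter fun j =>
        Sum.inl (x - ((j * Q + 2 : ℕ) : ZMod n)) ∈ insert (Sum.inl xs) (FixE n Q U)).card
      ≤ Q ^ 2 * (1 + ((FixT n Q).filter fun k : ℕ => (x - 2) - (k : ZMod n) ∈ FixP n Q U).card) := by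
        apply Nat.mul_le_mul_left
        omega
    _ = Q ^ 2 + ((FixT n Q).filter fun k : ℕ => (x - 2) - (k : ZMod n) ∈ FixP n Q U).card * Q ^ 2 := by
        ring
    _ ≤ 20 * n + Q ^ 2 := by omega

/-- the flexible elements are numerous -/
theorem kc_lower [NeZero n] (hn : 3 ≤ n) {Q : ℕ} {c0 : ℝ} {Y : Finset (Elt n)}
    (hY : YOk n Q c0 Y) (t : Fin 3) (ht : t = 1 → Even n) : c0 * n ≤ 2 * (kc Y t : ℝ) := by
  have : Fact (1 < n) := ⟨by omega⟩
  have h1T : 1 ∈ Icc 1 (T1 n) := by
    rw [mem_Icc]; unfold T1; omega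
  have h01 : (0 : ZMod n) - 0 ≠ 1 := by rw [sub_zero]; exact zero_ne_one
  by_cases h2 : t = 2
  · -- classes
    have h3 := hY.n4 1 h1T 0 0 h01 0
    have h4 : (univ.filter fun m : ZMod n => par m = par (0 : ZMod n) ∧ Sum.inl m ∈ Y ∧
        Sum.inl (m - ((1 : ℕ) : ZMod n)) ∈ Y ∧ Sum.inr (cl (m - 0)) ∈ Y ∧
        Sum.inr (cl (0 - m)) ∈ Y).card ≤ 2 * kc Y t := by
      rw [h2]
      refine le_trans (card_le_mul_card_image (f := fun m : ZMod n => (Sum.inr (cl m) : Elt n))
        _ 2 ?_) ?_
      · intro b hb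
        rw [mem_image] at hb
        obtain ⟨w, _, rfl⟩ := hb
        refine le_trans (card_le_card (t := {w, 1 - w}) ?_) card_le_two
        intro v hv
        rw [mem_filter] at hv
        rw [mem_insert, mem_singleton]
        exact (cl_eq_iff w v).mp (Sum.inr_injective hv.2).symm
      · apply Nat.mul_le_mul_left
        unfold kc
        apply card_le_card
        intro y hy
        rw [mem_image] at hy
        obtain ⟨m, hm, rfl⟩ := hy
        rw [mem_filter] at hm ⊢
        obtain ⟨_, _, _, _, h5, _⟩ := hm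
        rw [sub_zero] at h5
        exact ⟨h5, by simp [kd]⟩
    have h5 : ((2 * kc Y t : ℕ) : ℝ) = 2 * (kc Y t : ℝ) := by push_cast; ring
    rw [← h5]
    exact h3.trans (by exact_mod_cast h4)
  · -- points
    obtain ⟨z, hz⟩ : ∃ z : ZMod n, ∀ m : ZMod n, par m = par z → kd (Sum.inl m : Elt n) = t := by
      by_cases h0 : t = 0
      · refine ⟨0, fun m hm => ?_⟩
        rw [par_zero] at hm
        simp only [kd, Sum.elim_inl]
        rw [if_pos hm, h0]
      · have h1 : t = 1 := by
          clear ht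
          revert h0 h2; revert t; decide
        have he := ht h1
        refine ⟨1, fun m hm => ?_⟩
        have h3 : par (1 : ZMod n) = 1 := by
          have h3 := par_natCast (n := n) 1
          rw [Nat.cast_one] at h3
          rw [h3]
          unfold parT
          rw [if_pos he, Nat.cast_one]
        rw [h3] at hm
        simp only [kd, Sum.elim_inl]
        rw [if_neg (by rw [hm]; decide), h1]
    have h3 := hY.n4 1 h1T 0 0 h01 z
    have h4 : (univ.filter fun m : ZMod n => par m = par z ∧ Sum.inl m ∈ Y ∧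
        Sum.inl (m - ((1 : ℕ) : ZMod n)) ∈ Y ∧ Sum.inr (cl (m - 0)) ∈ Y ∧
        Sum.inr (cl (0 - m)) ∈ Y).card ≤ kc Y t := by
      unfold kc
      apply card_le_card_of_injOn (fun m : ZMod n => (Sum.inl m : Elt n))
      · intro m hm
        rw [mem_coe, mem_filter] at hm ⊢
        exact ⟨hm.2.2.1, hz m hm.2.1⟩
      · intro a _ b _ h
        exact Sum.inl_injective h
    have h5 : (0 : ℝ) ≤ (kc Y t : ℝ) := Nat.cast_nonneg _
    have h6 : (((univ.filter fun m : ZMod n => par m = par z ∧ Sum.inl m ∈ Y ∧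
        Sum.inl (m - ((1 : ℕ) : ZMod n)) ∈ Y ∧ Sum.inr (cl (m - 0)) ∈ Y ∧
        Sum.inr (cl (0 - m)) ∈ Y).card : ℕ) : ℝ) ≤ (kc Y t : ℝ) := by exact_mod_cast h4
    linarith

end Asm
end Pool.Agent.DNA
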