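import Pool.Agent.Lib.MP_845d9b_co.Abs.Stmts
import Pool.Agent.Lib.MP_845d9b_co.Abs.Absorb

/-!
# CT: counting tuples, auxiliary lemmas
-/

set_option autoImplicit false

namespace Pool.Agent.DNA

open Finset

namespace CountAux

open AbsorbAux (two_sol cl_eq)

lemma countT {n N : ℕ} [NeZero n] (T : Finset (Fin N)) (S : Finset (Fin N → ZMod n))
    (h : ∀ m ∈ S, ∀ m' ∈ S, (∀ i, i ∉ T → m i = m' i) → ∀ i ∈ T, m i + m i = m' i + m' i) :
    S.card ≤ 2 ^ T.card * n ^ (N - T.card) := by
  classical
  set r : (Fin N → ZMod n) → ({i : Fin N // i ∉ T} → ZMod n) := fun m i => m i.1 with hr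
  have h1 : S.card ≤ 2 ^ T.card * (S.image r).card := by
    refine card_le_mul_card_image S _ fun g hg => ?_
    obtain ⟨m0, hm0, rfl⟩ := mem_image.1 hg
    have hsub : (S.filter fun m => r m = r m0) ⊆ Fintype.piFinset (fun i =>
        if i ∈ T then (univ.filter fun w : ZMod n => w + w = m0 i + m0 i) else {m0 i}) := by
      intro m hm
      obtain ⟨hmS, hmr⟩ := mem_filter.1 hm
      have hout : ∀ i, i ∉ T → m i = m0 i := fun i hi => congrFun hmr ⟨i, hi⟩
      rw [Fintype.mem_piFinset]
      intro i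
      by_cases hi : i ∈ T
      · rw [if_pos hi, mem_filter]
        exact ⟨mem_univ _, h m hmS m0 hm0 hout i hi⟩
      · rw [if_neg hi, mem_singleton]
        exact hout i hi
    refine (card_le_card hsub).trans ?_
    rw [Fintype.card_piFinset]
    calc ∏ i, (if i ∈ T then (univ.filter fun w : ZMod n => w + w = m0 i + m0 i)
            else {m0 i}).card ≤ ∏ i : Fin N, (if i ∈ T then 2 else 1) := by
          refine prod_le_prod' fun i _ => ?_
          split_ifs
          · exact two_sol _
          · simp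
      _ = 2 ^ T.card := by
          rw [Finset.prod_ite_mem, univ_inter, prod_const]
  have h2 : (S.image r).card ≤ n ^ (N - T.card) := by
    refine (card_le_univ _).trans ?_
    rw [Fintype.card_fun, ZMod.card, Fintype.card_of_subtype (Tᶜ) (fun x => mem_compl),
      card_compl, Fintype.card_fin]
  exact h1.trans (Nat.mul_le_mul_left _ h2)

variable {n Q j : ℕ}

lemma ext_in (U : ℕ → ZMod n) (m : Fin (Q - 1) → ZMod n) (i : Fin (Q - 1)) :
    ext n Q U j m (i.val + (j * Q + 1)) = m i := by
  unfold ext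
  rw [dif_pos ⟨by omega, by have := i.2; omega⟩]
  congr 1
  ext
  simp

lemma ext_out (U : ℕ → ZMod n) (m : Fin (Q - 1) → ZMod n) {k : ℕ}
    (hk : ¬ (j * Q < k ∧ k < (j + 1) * Q)) : ext n Q U j m k = U k := by
  unfold ext
  have hb : (j + 1) * Q = j * Q + Q := Nat.succ_mul j Q
  rw [dif_neg]
  intro h
  apply hk
  omega

lemma countK [NeZero n] (U : ℕ → ZMod n) (K : Finset ℕ)
    (hK : ∀ k ∈ K, j * Q < k ∧ k < (j + 1) * Q) (E : (ℕ → ZMod n) → Prop)
    (h : ∀ F F', E F → E F' → (∀ k, k ∉ K → F k = F' k) → ∀ k ∈ K, F k + F k = F' k + F' k)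
    (S : Finset (Fin (Q - 1) → ZMod n)) (hS : ∀ m ∈ S, E (ext n Q U j m)) :
    S.card ≤ 2 ^ K.card * n ^ (Q - 1 - K.card) := by
  classical
  have hb : (j + 1) * Q = j * Q + Q := Nat.succ_mul j Q
  set T : Finset (Fin (Q - 1)) := univ.filter fun i => i.val + (j * Q + 1) ∈ K with hT
  have hTK : T.card = K.card := by
    have : K = T.image (fun i => i.val + (j * Q + 1)) := by
      ext k
      rw [mem_image]
      constructor
      · intro hk
        have hk' := hK k hk
        refine ⟨⟨k - (j * Q + 1), by omega⟩, ?_, ?_⟩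
        · rw [hT, mem_filter]
          refine ⟨mem_univ _, ?_⟩
          have : k - (j * Q + 1) + (j * Q + 1) = k := by omega
          simp only [this]
          exact hk
        · simp only
          omega
      · rintro ⟨i, hi, rfl⟩
        exact (mem_filter.1 hi).2
    rw [this, card_image_of_injective]
    intro i i' hii
    simp only at hii
    exact Fin.ext (by omega)
  rw [← hTK]
  apply countT
  intro m hm m' hm' hagree i hi
  have h1 := h (ext n Q U j m) (ext n Q U j m') (hS m hm) (hS m' hm') (by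
    intro k hk
    by_cases hin : j * Q < k ∧ k < (j + 1) * Q
    · have e : k = (⟨k - (j * Q + 1), by omega⟩ : Fin (Q - 1)).val + (j * Q + 1) := by
        simp only
        omega
      rw [e, ext_in, ext_in]
      apply hagree
      rw [hT, mem_filter]
      intro h'
      apply hk
      rw [e]
      exact h'.2
    · rw [ext_out U m hin, ext_out U m' hin]) (i.val + (j * Q + 1)) (mem_filter.1 hi).2
  rw [ext_in, ext_in] at h1
  exact h1

/-- one equation -/
lemma one [NeZero n] (U : ℕ → ZMod n) (q : ℕ) (hq : j * Q < q) (hq' : q < (j + 1) * Q)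
    (E : (ℕ → ZMod n) → Prop)
    (h : ∀ F F', E F → E F' → (∀ k, k ≠ q → F k = F' k) → F q + F q = F' q + F' q)
    (S : Finset (Fin (Q - 1) → ZMod n)) (hS : ∀ m ∈ S, E (ext n Q U j m)) :
    S.card ≤ 2 * n ^ (Q - 2) := by
  have := countK U {q} (by simpa using ⟨hq, hq'⟩) E (by
    intro F F' hF hF' hag k hk
    rw [mem_singleton] at hk
    subst hk
    exact h F F' hF hF' fun t ht => hag t (by simpa using ht)) S hS
  rw [card_singleton, pow_one] at this
  exact this

/-- two equations, triangular -/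
lemma tri [NeZero n] (U : ℕ → ZMod n) (p q : ℕ) (hp : j * Q < p ∧ p < (j + 1) * Q)
    (hq : j * Q < q ∧ q < (j + 1) * Q) (hpq : p ≠ q) (E : (ℕ → ZMod n) → Prop)
    (h1 : ∀ F F', E F → E F' → (∀ k, k ≠ p → k ≠ q → F k = F' k) → F p = F' p)
    (h2 : ∀ F F', E F → E F' → (∀ k, k ≠ q → F k = F' k) → F q + F q = F' q + F' q)
    (S : Finset (Fin (Q - 1) → ZMod n)) (hS : ∀ m ∈ S, E (ext n Q U j m)) :
    S.card ≤ 4 * n ^ (Q - 3) := by
  have := countK U {p, q} (by
    intro k hk
    rw [mem_insert, mem_singleton] at hk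
    rcases hk with rfl | rfl
    · exact hp
    · exact hq) E (by
    intro F F' hF hF' hag k hk
    have hag' : ∀ k, k ≠ p → k ≠ q → F k = F' k := fun k a b => hag k (by simp [a, b])
    have e1 := h1 F F' hF hF' hag'
    have e2 := h2 F F' hF hF' (fun k hk => by
      by_cases hkp : k = p
      · rw [hkp, e1]
      · exact hag' k hkp hk)
    rw [mem_insert, mem_singleton] at hk
    rcases hk with rfl | rfl
    · rw [e1]
    · exact e2) S hS
  rw [card_pair hpq] at this
  exact this

/-! ### events -/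

/-- point event -/
def PEv (x : ZMod n) (k : ℕ) (b : Bool) (F : ℕ → ZMod n) : Prop :=
  F k = x + (if b then (k : ZMod n) else 0)

/-- class event -/
def CEv (w : ZMod n) (l : ℕ) (F : ℕ → ZMod n) : Prop := F (l + 1) - F l = w

/-- coincidence of two points -/
def DEv (a b : ℕ) (s t : Bool) (F : ℕ → ZMod n) : Prop :=
  F a - F b = (if s then (a : ZMod n) else 0) - (if t then (b : ZMod n) else 0)

/-- coincidence of two classes -/
def GEv (l l' : ℕ) (s : Bool) (F : ℕ → ZMod n) : Prop :=
  if s then (F (l + 1) - F l) + (F (l' + 1) - F l') = 1 else F (l + 1) - F l = F (l' + 1) - F l'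

variable [NeZero n] (U : ℕ → ZMod n) (S : Finset (Fin (Q - 1) → ZMod n))

omit [NeZero n] in
lemma empty_of {E : (ℕ → ZMod n) → Prop} (hS : ∀ m ∈ S, E (ext n Q U j m))
    (h : ∀ F, (∀ k, ¬ (j * Q < k ∧ k < (j + 1) * Q) → F k = U k) → ¬ E F) (B : ℕ) :
    S.card ≤ B := by
  have : S = ∅ := by
    rw [eq_empty_iff_forall_notMem]
    intro m hm
    exact h _ (fun k hk => ext_out U m hk) (hS m hm)
  rw [this]
  simp

lemma one_p {x : ZMod n} {k : ℕ} {b : Bool} (hk : j * Q < k) (hk' : k < (j + 1) * Q)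
    (hS : ∀ m ∈ S, PEv x k b (ext n Q U j m)) : S.card ≤ 2 * n ^ (Q - 2) := by
  refine one U k hk hk' (PEv x k b) ?_ S hS
  intro F F' h h' _
  unfold PEv at h h'
  rw [h, h']

lemma one_c (hQ : 4 ≤ Q) {w : ZMod n} {l : ℕ} (hl : j * Q ≤ l) (hl' : l < (j + 1) * Q)
    (hS : ∀ m ∈ S, CEv w l (ext n Q U j m)) : S.card ≤ 2 * n ^ (Q - 2) := by
  have hb : (j + 1) * Q = j * Q + Q := Nat.succ_mul j Q
  by_cases hll : j * Q < l
  · refine one U l hll hl' (CEv w l) ?_ S hS
    intro F F' h h' hag
    unfold CEv at h h'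
    have e := hag (l + 1) (by omega)
    have : F l = F' l := by linear_combination e - h + h'
    rw [this]
  · refine one U (l + 1) (by omega) (by omega) (CEv w l) ?_ S hS
    intro F F' h h' hag
    unfold CEv at h h'
    have e := hag l (by omega)
    have : F (l + 1) = F' (l + 1) := by linear_combination e + h - h'
    rw [this]

lemma one_d {a b : ℕ} {s t : Bool} (ha : j * Q < a) (ha' : a < (j + 1) * Q) (hab : a ≠ b)
    (hS : ∀ m ∈ S, DEv a b s t (ext n Q U j m)) : S.card ≤ 2 * n ^ (Q - 2) := by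
  refine one U a ha ha' (DEv a b s t) ?_ S hS
  intro F F' h h' hag
  unfold DEv at h h'
  have e := hag b hab.symm
  have : F a = F' a := by linear_combination e + h - h'
  rw [this]

lemma one_g (hQ : 4 ≤ Q) {l l' : ℕ} {s : Bool} (hl : j * Q ≤ l) (hll : l < l')
    (hl' : l' < (j + 1) * Q) (hS : ∀ m ∈ S, GEv l l' s (ext n Q U j m)) :
    S.card ≤ 2 * n ^ (Q - 2) := by
  have hb : (j + 1) * Q = j * Q + Q := Nat.succ_mul j Q
  by_cases h2 : l + 2 ≤ l'
  · refine one U (l + 1) (by omega) (by omega) (GEv l l' s) ?_ S hS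
    intro F F' h h' hag
    unfold GEv at h h'
    have e1 := hag l (by omega)
    have e2 := hag l' (by omega)
    have e3 := hag (l' + 1) (by omega)
    have : F (l + 1) = F' (l + 1) := by
      split_ifs at h h' with hs
      · linear_combination e1 + e2 - e3 + h - h'
      · linear_combination e1 - e2 + e3 + h - h'
    rw [this]
  · have hl1 : l' = l + 1 := by omega
    subst hl1
    by_cases h3 : j * Q < l
    · refine one U l (by omega) (by omega) (GEv l (l + 1) s) ?_ S hS
      intro F F' h h' hag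
      unfold GEv at h h'
      have e1 := hag (l + 1) (by omega)
      have e2 := hag (l + 1 + 1) (by omega)
      have : F l = F' l := by
        split_ifs at h h' with hs
        · linear_combination e2 - h + h'
        · linear_combination 2 * e1 - e2 - h + h'
      rw [this]
    · refine one U (l + 1 + 1) (by omega) (by omega) (GEv l (l + 1) s) ?_ S hS
      intro F F' h h' hag
      unfold GEv at h h'
      have e1 := hag (l + 1) (by omega)
      have e2 := hag l (by omega)
      have : F (l + 1 + 1) = F' (l + 1 + 1) := by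
        split_ifs at h h' with hs
        · linear_combination e2 + h - h'
        · linear_combination 2 * e1 - e2 - h + h'
      rw [this]

lemma two_pp {x x' : ZMod n} {k k' : ℕ} {b b' : Bool} (hk : j * Q < k) (hk1 : k < (j + 1) * Q)
    (hk' : j * Q < k') (hk1' : k' < (j + 1) * Q)
    (hne : k = k' → x + (if b then (k : ZMod n) else 0) ≠ x' + (if b' then (k' : ZMod n) else 0))
    (hS : ∀ m ∈ S, PEv x k b (ext n Q U j m) ∧ PEv x' k' b' (ext n Q U j m)) :
    S.card ≤ 4 * n ^ (Q - 3) := by
  by_cases hkk : k = k'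
  · refine empty_of U S (E := fun F => PEv x k b F ∧ PEv x' k' b' F) hS ?_ _
    rintro F - ⟨h1, h2⟩
    unfold PEv at h1 h2
    apply hne hkk
    rw [← h1, ← h2, hkk]
  · refine tri U k k' ⟨hk, hk1⟩ ⟨hk', hk1'⟩ hkk (fun F => PEv x k b F ∧ PEv x' k' b' F) ?_ ?_ S hS
    · rintro F F' ⟨h, -⟩ ⟨h', -⟩ _
      unfold PEv at h h'
      rw [h, h']
    · rintro F F' ⟨-, h⟩ ⟨-, h'⟩ _
      unfold PEv at h h'
      rw [h, h']

lemma two_pc (hQ : 4 ≤ Q) {x w : ZMod n} {k l : ℕ} {b : Bool} (hk : j * Q < k)
    (hk' : k < (j + 1) * Q) (hl : j * Q ≤ l) (hl' : l < (j + 1) * Q)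
    (hL : l = j * Q → k = l + 1 → U (j * Q) + w ≠ x + (if b then (k : ZMod n) else 0))
    (hR : l + 1 = (j + 1) * Q → k = l →
      U ((j + 1) * Q) - w ≠ x + (if b then (k : ZMod n) else 0))
    (hS : ∀ m ∈ S, PEv x k b (ext n Q U j m) ∧ CEv w l (ext n Q U j m)) :
    S.card ≤ 4 * n ^ (Q - 3) := by
  have hb : (j + 1) * Q = j * Q + Q := Nat.succ_mul j Q
  by_cases hA : l = j * Q ∧ k = l + 1
  · refine empty_of U S (E := fun F => PEv x k b F ∧ CEv w l F) hS ?_ _
    rintro F hF ⟨h1, h2⟩
    unfold PEv at h1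
    unfold CEv at h2
    apply hL hA.1 hA.2
    rw [← h1, hA.2, ← hA.1, ← hF l (by omega)]
    linear_combination -h2
  · by_cases hB : l + 1 = (j + 1) * Q ∧ k = l
    · refine empty_of U S (E := fun F => PEv x k b F ∧ CEv w l F) hS ?_ _
      rintro F hF ⟨h1, h2⟩
      unfold PEv at h1
      unfold CEv at h2
      apply hR hB.1 hB.2
      rw [← h1, hB.2, ← hB.1, ← hF (l + 1) (by omega)]
      linear_combination h2
    · by_cases hC : l ≠ k ∧ j * Q < l
      · refine tri U k l ⟨hk, hk'⟩ ⟨hC.2, hl'⟩ hC.1.symm (fun F => PEv x k b F ∧ CEv w l F)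
          ?_ ?_ S hS
        · rintro F F' ⟨h, -⟩ ⟨h', -⟩ _
          unfold PEv at h h'
          rw [h, h']
        · rintro F F' ⟨-, h⟩ ⟨-, h'⟩ hag
          unfold CEv at h h'
          have e := hag (l + 1) (by omega)
          have : F l = F' l := by linear_combination e - h + h'
          rw [this]
      · refine tri U k (l + 1) ⟨hk, hk'⟩ ⟨by omega, by omega⟩ (by omega)
          (fun F => PEv x k b F ∧ CEv w l F) ?_ ?_ S hS
        · rintro F F' ⟨h, -⟩ ⟨h', -⟩ _
          unfold PEv at h h'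
          rw [h, h']
        · rintro F F' ⟨-, h⟩ ⟨-, h'⟩ hag
          unfold CEv at h h'
          have e := hag l (by omega)
          have : F (l + 1) = F' (l + 1) := by linear_combination e + h - h'
          rw [this]

lemma two_cc (hQ : 4 ≤ Q) {w w' : ZMod n} {l l' : ℕ} (hl : j * Q ≤ l) (hll : l < l')
    (hl' : l' < (j + 1) * Q)
    (hS : ∀ m ∈ S, CEv w l (ext n Q U j m) ∧ CEv w' l' (ext n Q U j m)) :
    S.card ≤ 4 * n ^ (Q - 3) := by
  have hb : (j + 1) * Q = j * Q + Q := Nat.succ_mul j Q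
  by_cases h1 : j * Q < l
  · by_cases h2 : l' + 1 < (j + 1) * Q
    · refine tri U l (l' + 1) ⟨h1, by omega⟩ ⟨by omega, h2⟩ (by omega)
        (fun F => CEv w l F ∧ CEv w' l' F) ?_ ?_ S hS
      · rintro F F' ⟨h, -⟩ ⟨h', -⟩ hag
        unfold CEv at h h'
        have e := hag (l + 1) (by omega) (by omega)
        linear_combination e - h + h'
      · rintro F F' ⟨-, h⟩ ⟨-, h'⟩ hag
        unfold CEv at h h'
        have e := hag l' (by omega)
        have : F (l' + 1) = F' (l' + 1) := by linear_combination e + h - h'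
        rw [this]
    · refine tri U l' l ⟨by omega, by omega⟩ ⟨h1, by omega⟩ (by omega)
        (fun F => CEv w l F ∧ CEv w' l' F) ?_ ?_ S hS
      · rintro F F' ⟨-, h⟩ ⟨-, h'⟩ hag
        unfold CEv at h h'
        have e := hag (l' + 1) (by omega) (by omega)
        linear_combination e - h + h'
      · rintro F F' ⟨h, -⟩ ⟨h', -⟩ hag
        unfold CEv at h h'
        have e := hag (l + 1) (by omega)
        have : F l = F' l := by linear_combination e - h + h'
        rw [this]
  · by_cases h2 : l' + 1 < (j + 1) * Q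
    · refine tri U (l + 1) (l' + 1) ⟨by omega, by omega⟩ ⟨by omega, h2⟩ (by omega)
        (fun F => CEv w l F ∧ CEv w' l' F) ?_ ?_ S hS
      · rintro F F' ⟨h, -⟩ ⟨h', -⟩ hag
        unfold CEv at h h'
        have e := hag l (by omega) (by omega)
        linear_combination e + h - h'
      · rintro F F' ⟨-, h⟩ ⟨-, h'⟩ hag
        unfold CEv at h h'
        have e := hag l' (by omega)
        have : F (l' + 1) = F' (l' + 1) := by linear_combination e + h - h'
        rw [this]
    · refine tri U (l + 1) l' ⟨by omega, by omega⟩ ⟨by omega, by omega⟩ (by omega)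
        (fun F => CEv w l F ∧ CEv w' l' F) ?_ ?_ S hS
      · rintro F F' ⟨h, -⟩ ⟨h', -⟩ hag
        unfold CEv at h h'
        have e := hag l (by omega) (by omega)
        linear_combination e + h - h'
      · rintro F F' ⟨-, h⟩ ⟨-, h'⟩ hag
        unfold CEv at h h'
        have e := hag (l' + 1) (by omega)
        have : F l' = F' l' := by linear_combination e - h + h'
        rw [this]

lemma two_pd {x : ZMod n} {k : ℕ} {b0 : Bool} {a b : ℕ} {s t : Bool} (hk : j * Q < k)
    (hk' : k < (j + 1) * Q) (ha : j * Q < a) (ha' : a < (j + 1) * Q) (hb : j * Q < b)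
    (hb' : b < (j + 1) * Q) (hab : a ≠ b)
    (hS : ∀ m ∈ S, PEv x k b0 (ext n Q U j m) ∧ DEv a b s t (ext n Q U j m)) :
    S.card ≤ 4 * n ^ (Q - 3) := by
  by_cases hka : a = k
  · refine tri U k b ⟨hk, hk'⟩ ⟨hb, hb'⟩ (by omega) (fun F => PEv x k b0 F ∧ DEv a b s t F)
      ?_ ?_ S hS
    · rintro F F' ⟨h, -⟩ ⟨h', -⟩ _
      unfold PEv at h h'
      rw [h, h']
    · rintro F F' ⟨-, h⟩ ⟨-, h'⟩ hag
      unfold DEv at h h'
      have e := hag a hab
      have : F b = F' b := by linear_combination e - h + h'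
      rw [this]
  · refine tri U k a ⟨hk, hk'⟩ ⟨ha, ha'⟩ (Ne.symm hka) (fun F => PEv x k b0 F ∧ DEv a b s t F)
      ?_ ?_ S hS
    · rintro F F' ⟨h, -⟩ ⟨h', -⟩ _
      unfold PEv at h h'
      rw [h, h']
    · rintro F F' ⟨-, h⟩ ⟨-, h'⟩ hag
      unfold DEv at h h'
      have e := hag b hab.symm
      have : F a = F' a := by linear_combination e + h - h'
      rw [this]

/-- a class coincidence determines (the double of) the value at `q` -/
def GDet (l l' : ℕ) (s : Bool) (q : ℕ) : Prop :=
  ∀ F F' : ℕ → ZMod n, GEv l l' s F → GEv l l' s F' → (∀ k, k ≠ q → F k = F' k) →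
    F q + F q = F' q + F' q

omit [NeZero n] in
lemma gdet_far1 {l l' : ℕ} (s : Bool) (h2 : l + 2 ≤ l') : GDet (n := n) l l' s (l + 1) := by
  intro F F' h h' hag
  unfold GEv at h h'
  have e1 := hag l (by omega)
  have e2 := hag l' (by omega)
  have e3 := hag (l' + 1) (by omega)
  have : F (l + 1) = F' (l + 1) := by
    split_ifs at h h' with hs
    · linear_combination e1 + e2 - e3 + h - h'
    · linear_combination e1 - e2 + e3 + h - h'
  rw [this]

omit [NeZero n] in
lemma gdet_far2 {l l' : ℕ} (s : Bool) (h2 : l + 2 ≤ l') : GDet (n := n) l l' s l' := by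
  intro F F' h h' hag
  unfold GEv at h h'
  have e1 := hag l (by omega)
  have e2 := hag (l + 1) (by omega)
  have e3 := hag (l' + 1) (by omega)
  have : F l' = F' l' := by
    split_ifs at h h' with hs
    · linear_combination -e1 + e2 + e3 - h + h'
    · linear_combination e1 - e2 + e3 + h - h'
  rw [this]

omit [NeZero n] in
lemma gdet_far0 {l l' : ℕ} (s : Bool) (h2 : l + 2 ≤ l') : GDet (n := n) l l' s l := by
  intro F F' h h' hag
  unfold GEv at h h'
  have e1 := hag l' (by omega)
  have e2 := hag (l + 1) (by omega)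
  have e3 := hag (l' + 1) (by omega)
  have : F l = F' l := by
    split_ifs at h h' with hs
    · linear_combination -e1 + e2 + e3 - h + h'
    · linear_combination e1 + e2 - e3 - h + h'
  rw [this]

omit [NeZero n] in
lemma gdet_far3 {l l' : ℕ} (s : Bool) (h2 : l + 2 ≤ l') : GDet (n := n) l l' s (l' + 1) := by
  intro F F' h h' hag
  unfold GEv at h h'
  have e1 := hag l' (by omega)
  have e2 := hag (l + 1) (by omega)
  have e3 := hag l (by omega)
  have : F (l' + 1) = F' (l' + 1) := by
    split_ifs at h h' with hs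
    · linear_combination e1 - e2 + e3 + h - h'
    · linear_combination e1 + e2 - e3 - h + h'
  rw [this]

omit [NeZero n] in
lemma gdet_near0 (l : ℕ) (s : Bool) : GDet (n := n) l (l + 1) s l := by
  intro F F' h h' hag
  unfold GEv at h h'
  have e1 := hag (l + 1) (by omega)
  have e2 := hag (l + 1 + 1) (by omega)
  have : F l = F' l := by
    split_ifs at h h' with hs
    · linear_combination e2 - h + h'
    · linear_combination 2 * e1 - e2 - h + h'
  rw [this]

omit [NeZero n] in
lemma gdet_near2 (l : ℕ) (s : Bool) : GDet (n := n) l (l + 1) s (l + 1 + 1) := by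
  intro F F' h h' hag
  unfold GEv at h h'
  have e1 := hag (l + 1) (by omega)
  have e2 := hag l (by omega)
  have : F (l + 1 + 1) = F' (l + 1 + 1) := by
    split_ifs at h h' with hs
    · linear_combination e2 + h - h'
    · linear_combination 2 * e1 - e2 - h + h'
  rw [this]

omit [NeZero n] in
lemma gdet_near1 (l : ℕ) : GDet (n := n) l (l + 1) false (l + 1) := by
  intro F F' h h' hag
  unfold GEv at h h'
  simp only [Bool.false_eq_true, if_false] at h h'
  have e1 := hag (l + 1 + 1) (by omega)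
  have e2 := hag l (by omega)
  linear_combination e1 + e2 + h - h'

lemma pg_of {x : ZMod n} {k : ℕ} {b : Bool} {l l' : ℕ} {s : Bool} (hk : j * Q < k)
    (hk' : k < (j + 1) * Q) (q : ℕ) (hq : j * Q < q) (hq' : q < (j + 1) * Q) (hqk : k ≠ q)
    (hd : GDet (n := n) l l' s q)
    (hS : ∀ m ∈ S, PEv x k b (ext n Q U j m) ∧ GEv l l' s (ext n Q U j m)) :
    S.card ≤ 4 * n ^ (Q - 3) := by
  refine tri U k q ⟨hk, hk'⟩ ⟨hq, hq'⟩ hqk (fun F => PEv x k b F ∧ GEv l l' s F) ?_ ?_ S hS
  · rintro F F' ⟨h, -⟩ ⟨h', -⟩ _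
    unfold PEv at h h'
    rw [h, h']
  · rintro F F' ⟨-, h⟩ ⟨-, h'⟩ hag
    exact hd F F' h h' hag

lemma two_pg (hQ : 4 ≤ Q) {x : ZMod n} {k : ℕ} {b : Bool} {l l' : ℕ} {s : Bool}
    (hk : j * Q < k) (hk' : k < (j + 1) * Q) (hl : j * Q ≤ l) (hll : l < l')
    (hl' : l' < (j + 1) * Q)
    (hL : l = j * Q → k = l + 2 → U (j * Q) + 1 ≠ x + (if b then (k : ZMod n) else 0))
    (hR : k + 2 = (j + 1) * Q → k = l →
      U ((j + 1) * Q) - 1 ≠ x + (if b then (k : ZMod n) else 0))
    (hS : ∀ m ∈ S, PEv x k b (ext n Q U j m) ∧ GEv l l' s (ext n Q U j m)) :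
    S.card ≤ 4 * n ^ (Q - 3) := by
  have hb : (j + 1) * Q = j * Q + Q := Nat.succ_mul j Q
  by_cases h2 : l + 2 ≤ l'
  · by_cases h3 : k = l + 1
    · exact pg_of U S hk hk' l' (by omega) (by omega) (by omega) (gdet_far2 s h2) hS
    · exact pg_of U S hk hk' (l + 1) (by omega) (by omega) (by omega) (gdet_far1 s h2) hS
  · have hl1 : l' = l + 1 := by omega
    subst hl1
    by_cases h3 : j * Q < l ∧ k ≠ l
    · exact pg_of U S hk hk' l h3.1 (by omega) h3.2 (gdet_near0 l s) hS
    · by_cases h4 : l + 1 + 1 < (j + 1) * Q ∧ k ≠ l + 1 + 1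
      · exact pg_of U S hk hk' (l + 1 + 1) (by omega) h4.1 h4.2 (gdet_near2 l s) hS
      · cases s with
        | false =>
          exact pg_of U S hk hk' (l + 1) (by omega) (by omega) (by omega) (gdet_near1 l) hS
        | true =>
          refine empty_of U S (E := fun F => PEv x k b F ∧ GEv l (l + 1) true F) hS ?_ _
          rintro F hF ⟨h1, h5⟩
          unfold PEv at h1
          unfold GEv at h5
          simp only [if_true] at h5
          by_cases h6 : l = j * Q
          · have h7 : k = l + 2 := by omega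
            apply hL h6 h7
            rw [← h1, h7, ← h6, ← hF l (by omega)]
            linear_combination -h5
          · have h7 : k = l := by omega
            have h8 : k + 2 = (j + 1) * Q := by omega
            apply hR h8 h7
            have e : (j + 1) * Q = l + 1 + 1 := by omega
            rw [← h1, h7, ← hF ((j + 1) * Q) (by omega), e]
            linear_combination h5

lemma two_cd (hQ : 4 ≤ Q) {w : ZMod n} {l0 a b : ℕ} {s t : Bool} (hl : j * Q ≤ l0)
    (hl' : l0 < (j + 1) * Q) (ha : j * Q < a) (hab : a < b) (hb' : b < (j + 1) * Q)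
    (hE : a = l0 → b = l0 + 1 →
      w ≠ (if t then (b : ZMod n) else 0) - (if s then (a : ZMod n) else 0))
    (hS : ∀ m ∈ S, CEv w l0 (ext n Q U j m) ∧ DEv a b s t (ext n Q U j m)) :
    S.card ≤ 4 * n ^ (Q - 3) := by
  have hb : (j + 1) * Q = j * Q + Q := Nat.succ_mul j Q
  by_cases hA : a = l0 ∧ b = l0 + 1
  · refine empty_of U S (E := fun F => CEv w l0 F ∧ DEv a b s t F) hS ?_ _
    rintro F hF ⟨h1, h2⟩
    unfold CEv at h1
    unfold DEv at h2
    apply hE hA.1 hA.2
    have e1 : F a = F l0 := by rw [hA.1]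
    have e2 : F b = F (l0 + 1) := by rw [hA.2]
    linear_combination -h1 - h2 + e1 - e2
  · -- choose `q`
    have hq : ∃ q r, (q = a ∧ r = b ∨ q = b ∧ r = a) ∧ q ≠ l0 ∧ q ≠ l0 + 1 := by
      by_cases h1 : a ≠ l0 ∧ a ≠ l0 + 1
      · exact ⟨a, b, Or.inl ⟨rfl, rfl⟩, h1.1, h1.2⟩
      · exact ⟨b, a, Or.inr ⟨rfl, rfl⟩, by omega, by omega⟩
    obtain ⟨q, r, hqr, hq0, hq1⟩ := hq
    have hdet : ∀ F F' : ℕ → ZMod n, DEv a b s t F → DEv a b s t F' →
        (∀ k, k ≠ q → F k = F' k) → F q + F q = F' q + F' q := by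
      intro F F' h h' hag
      unfold DEv at h h'
      have e := hag r (by omega)
      have : F q = F' q := by
        rcases hqr with ⟨rfl, rfl⟩ | ⟨rfl, rfl⟩
        · linear_combination e + h - h'
        · linear_combination e - h + h'
      rw [this]
    by_cases h3 : j * Q < l0
    · refine tri U l0 q ⟨h3, hl'⟩ (by omega) (by omega) (fun F => CEv w l0 F ∧ DEv a b s t F)
        ?_ ?_ S hS
      · rintro F F' ⟨h, -⟩ ⟨h', -⟩ hag
        unfold CEv at h h'
        have e := hag (l0 + 1) (by omega) (by omega)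
        linear_combination e - h + h'
      · rintro F F' ⟨-, h⟩ ⟨-, h'⟩ hag
        exact hdet F F' h h' hag
    · refine tri U (l0 + 1) q ⟨by omega, by omega⟩ (by omega) (by omega)
        (fun F => CEv w l0 F ∧ DEv a b s t F) ?_ ?_ S hS
      · rintro F F' ⟨h, -⟩ ⟨h', -⟩ hag
        unfold CEv at h h'
        have e := hag l0 (by omega) (by omega)
        linear_combination e + h - h'
      · rintro F F' ⟨-, h⟩ ⟨-, h'⟩ hag
        exact hdet F F' h h' hag

/-- principle A -/
lemma cg_of (hQ : 4 ≤ Q) {w : ZMod n} {l0 l l' : ℕ} {s : Bool} (hl : j * Q ≤ l0)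
    (hl' : l0 < (j + 1) * Q) (q : ℕ) (hq : j * Q < q) (hq' : q < (j + 1) * Q)
    (hq0 : q ≠ l0) (hq1 : q ≠ l0 + 1) (hd : GDet (n := n) l l' s q)
    (hS : ∀ m ∈ S, CEv w l0 (ext n Q U j m) ∧ GEv l l' s (ext n Q U j m)) :
    S.card ≤ 4 * n ^ (Q - 3) := by
  have hb : (j + 1) * Q = j * Q + Q := Nat.succ_mul j Q
  by_cases h3 : j * Q < l0
  · refine tri U l0 q ⟨h3, hl'⟩ ⟨hq, hq'⟩ (by omega) (fun F => CEv w l0 F ∧ GEv l l' s F)
      ?_ ?_ S hS
    · rintro F F' ⟨h, -⟩ ⟨h', -⟩ hag
      unfold CEv at h h'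
      have e := hag (l0 + 1) (by omega) (by omega)
      linear_combination e - h + h'
    · rintro F F' ⟨-, h⟩ ⟨-, h'⟩ hag
      exact hd F F' h h' hag
  · refine tri U (l0 + 1) q ⟨by omega, by omega⟩ ⟨hq, hq'⟩ (by omega)
      (fun F => CEv w l0 F ∧ GEv l l' s F) ?_ ?_ S hS
    · rintro F F' ⟨h, -⟩ ⟨h', -⟩ hag
      unfold CEv at h h'
      have e := hag l0 (by omega) (by omega)
      linear_combination e + h - h'
    · rintro F F' ⟨-, h⟩ ⟨-, h'⟩ hag
      exact hd F F' h h' hag

lemma two_cg (hQ : 4 ≤ Q) {w : ZMod n} {l0 l l' : ℕ} {s : Bool} (h0 : j * Q ≤ l0)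
    (h0' : l0 < (j + 1) * Q) (hl : j * Q ≤ l) (hll : l < l') (hl' : l' < (j + 1) * Q)
    (hS : ∀ m ∈ S, CEv w l0 (ext n Q U j m) ∧ GEv l l' s (ext n Q U j m)) :
    S.card ≤ 4 * n ^ (Q - 3) := by
  have hb : (j + 1) * Q = j * Q + Q := Nat.succ_mul j Q
  by_cases hA : l0 = l
  · subst hA
    refine two_cc U S hQ (w := w) (w' := if s then 1 - w else w) hl hll hl' fun m hm => ?_
    obtain ⟨h1, h2⟩ := hS m hm
    refine ⟨h1, ?_⟩
    unfold CEv at h1 ⊢
    unfold GEv at h2
    rw [h1] at h2
    split_ifs at h2 ⊢ with hs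
    · linear_combination h2
    · exact h2.symm
  by_cases hB : l0 = l'
  · subst hB
    refine two_cc U S hQ (w := if s then 1 - w else w) (w' := w) hl hll hl' fun m hm => ?_
    obtain ⟨h1, h2⟩ := hS m hm
    refine ⟨?_, h1⟩
    unfold CEv at h1 ⊢
    unfold GEv at h2
    rw [h1] at h2
    split_ifs at h2 ⊢ with hs
    · linear_combination h2
    · exact h2
  by_cases h2 : l + 2 ≤ l'
  · by_cases h3 : l0 = l + 1
    · by_cases h4 : l' = l + 2
      · by_cases h5 : j * Q < l
        · exact cg_of U S hQ h0 h0' l h5 (by omega) (by omega) (by omega) (gdet_far0 s h2) hS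
        · exact cg_of U S hQ h0 h0' (l' + 1) (by omega) (by omega) (by omega) (by omega)
            (gdet_far3 s h2) hS
      · exact cg_of U S hQ h0 h0' l' (by omega) (by omega) (by omega) (by omega)
          (gdet_far2 s h2) hS
    · exact cg_of U S hQ h0 h0' (l + 1) (by omega) (by omega) (by omega) (by omega)
        (gdet_far1 s h2) hS
  · have hl1 : l' = l + 1 := by omega
    subst hl1
    by_cases h3 : l + 2 ≤ l0
    · by_cases h4 : j * Q < l
      · exact cg_of U S hQ h0 h0' l h4 (by omega) (by omega) (by omega) (gdet_near0 l s) hS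
      · by_cases h5 : l0 = l + 2
        · -- principle B
          refine tri U (l + 1 + 1) (l0 + 1) ⟨by omega, by omega⟩ ⟨by omega, by omega⟩ (by omega)
            (fun F => CEv w l0 F ∧ GEv l (l + 1) s F) ?_ ?_ S hS
          · rintro F F' ⟨-, h⟩ ⟨-, h'⟩ hag
            unfold GEv at h h'
            have e1 := hag (l + 1) (by omega) (by omega)
            have e2 := hag l (by omega) (by omega)
            split_ifs at h h' with hs
            · linear_combination e2 + h - h'
            · linear_combination 2 * e1 - e2 - h + h'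
          · rintro F F' ⟨h, -⟩ ⟨h', -⟩ hag
            unfold CEv at h h'
            have e := hag l0 (by omega)
            have : F (l0 + 1) = F' (l0 + 1) := by linear_combination e + h - h'
            rw [this]
        · exact cg_of U S hQ h0 h0' (l + 1 + 1) (by omega) (by omega) (by omega) (by omega)
            (gdet_near2 l s) hS
    · have h4 : l0 < l := by omega
      by_cases h5 : l + 1 + 1 < (j + 1) * Q
      · exact cg_of U S hQ h0 h0' (l + 1 + 1) (by omega) h5 (by omega) (by omega)
          (gdet_near2 l s) hS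
      · by_cases h6 : l0 + 1 = l
        · refine tri U l l0 ⟨by omega, by omega⟩ ⟨by omega, by omega⟩ (by omega)
            (fun F => CEv w l0 F ∧ GEv l (l + 1) s F) ?_ ?_ S hS
          · rintro F F' ⟨-, h⟩ ⟨-, h'⟩ hag
            unfold GEv at h h'
            have e1 := hag (l + 1) (by omega) (by omega)
            have e2 := hag (l + 1 + 1) (by omega) (by omega)
            split_ifs at h h' with hs
            · linear_combination e2 - h + h'
            · linear_combination 2 * e1 - e2 - h + h'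
          · rintro F F' ⟨h, -⟩ ⟨h', -⟩ hag
            unfold CEv at h h'
            have e := hag (l0 + 1) (by omega)
            have : F l0 = F' l0 := by linear_combination e - h + h'
            rw [this]
        · exact cg_of U S hQ h0 h0' l (by omega) (by omega) (by omega) (by omega)
            (gdet_near0 l s) hS

end CountAux

end Pool.Agent.DNA
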