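import Mathlib

/-!
# Symmetric half problem for D-neofields: definitions (helper41)

`n = r - 1`. Times `T0 n ≤ k ≤ T1 n` (`T0 = 1` for odd `n`, `0` for even `n`, `T1 = (n-1)/2`).
A half solution is `U : ℕ → ZMod n` such that the points `U k`, `U k - k` are all distinct and the
classes `{w, 1-w}` of `w = U (k+1) - U k` are all distinct (and `w ≠ 0, 1`, `2w ≠ 1`).
`Q` = period: anchors are the multiples of `Q`, block `j` consists of the times `jQ < k < (j+1)Q`.
-/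

set_option autoImplicit false

namespace Pool.Agent.DNA

open Finset

variable {n : ℕ}

/-- the class `{w, 1 - w}` -/
def cl (w : ZMod n) : Sym2 (ZMod n) := s(w, 1 - w)

/-- admissible differences -/
def ClOk (w : ZMod n) : Prop := w ≠ 0 ∧ w ≠ 1 ∧ w + w ≠ 1

instance : DecidablePred (ClOk (n := n)) := fun w => by unfold ClOk; infer_instance

/-- elements to be covered: points and classes -/
abbrev Elt (n : ℕ) := ZMod n ⊕ Sym2 (ZMod n)

/-- first time -/
def T0 (n : ℕ) : ℕ := n % 2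
/-- last time -/
def T1 (n : ℕ) : ℕ := (n - 1) / 2
/-- number of anchors -/
def J1 (n Q : ℕ) : ℕ := T1 n / Q
/-- the blocks: block `j` = times strictly between `j * Q` and `(j+1) * Q` -/
def Blocks (n Q : ℕ) : Finset ℕ := Ico 1 (J1 n Q)
/-- fixed times: initial segment, anchors, final segment -/
def FixT (n Q : ℕ) : Finset ℕ :=
  (Icc (T0 n) (T1 n)).filter fun k => k < Q ∨ Q ∣ k ∨ J1 n Q * Q ≤ k
/-- left ends of the pairs of consecutive fixed times -/
def FixL (n Q : ℕ) : Finset ℕ := Ico (T0 n) Q ∪ Ico (J1 n Q * Q) (T1 n)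
/-- points of the fixed times -/
def FixP (n Q : ℕ) (U : ℕ → ZMod n) : Finset (ZMod n) :=
  (FixT n Q).biUnion fun k => {U k, U k - (k : ZMod n)}
/-- classes of the fixed pairs -/
def FixC (n Q : ℕ) (U : ℕ → ZMod n) : Finset (Sym2 (ZMod n)) :=
  (FixL n Q).image fun k => cl (U (k + 1) - U k)
/-- elements used by the fixed times -/
def FixE (n Q : ℕ) (U : ℕ → ZMod n) : Finset (Elt n) :=
  (FixP n Q U).image Sum.inl ∪ (FixC n Q U).image Sum.inr

/-- the fixed assignment is admissible -/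
structure FixOk (n Q : ℕ) (U : ℕ → ZMod n) : Prop where
  up : ∀ k ∈ FixT n Q, ∀ k' ∈ FixT n Q, U k = U k' → k = k'
  lo : ∀ k ∈ FixT n Q, ∀ k' ∈ FixT n Q, U k - (k : ZMod n) = U k' - (k' : ZMod n) → k = k'
  ul : ∀ k ∈ FixT n Q, ∀ k' ∈ FixT n Q, U k = U k' - (k' : ZMod n) → k = 0 ∧ k' = 0
  ok : ∀ k ∈ FixL n Q, ClOk (U (k + 1) - U k)
  cls : ∀ k ∈ FixL n Q, ∀ k' ∈ FixL n Q,
    cl (U (k + 1) - U k) = cl (U (k' + 1) - U k') → k = k'

/-- elements covered by the filling `f` of block `j` (`f` must agree with the anchors) -/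
def foot (n Q j : ℕ) (f : ℕ → ZMod n) : Finset (Elt n) :=
  ((Ioo (j * Q) ((j + 1) * Q)).biUnion fun k =>
      ({Sum.inl (f k), Sum.inl (f k - (k : ZMod n))} : Finset (Elt n))) ∪
    (Ico (j * Q) ((j + 1) * Q)).image fun k => Sum.inr (cl (f (k + 1) - f k))

/-- `f` is an admissible filling of block `j` -/
structure IsFill (n Q : ℕ) (U : ℕ → ZMod n) (j : ℕ) (f : ℕ → ZMod n) : Prop where
  left : f (j * Q) = U (j * Q)
  right : f ((j + 1) * Q) = U ((j + 1) * Q)
  ok : ∀ k ∈ Ico (j * Q) ((j + 1) * Q), ClOk (f (k + 1) - f k)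
  card : (foot n Q j f).card = 3 * Q - 2

/-- the fillings `F j` of the blocks `j ∈ Js` are disjoint and cover exactly `S` -/
structure Packs (n Q : ℕ) (U : ℕ → ZMod n) (Js : Finset ℕ) (F : ℕ → ℕ → ZMod n)
    (S : Finset (Elt n)) : Prop where
  fill : ∀ j ∈ Js, IsFill n Q U j (F j)
  disj : ∀ i ∈ Js, ∀ j ∈ Js, i ≠ j → Disjoint (foot n Q i (F i)) (foot n Q j (F j))
  cover : Js.biUnion (fun j => foot n Q j (F j)) = S

/-- the blocks `Js` can be filled so that exactly `S` is covered -/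
def Packable (n Q : ℕ) (U : ℕ → ZMod n) (Js : Finset ℕ) (S : Finset (Elt n)) : Prop :=
  ∃ F : ℕ → ℕ → ZMod n, Packs n Q U Js F S

/-- all points and all admissible classes -/
def All (n : ℕ) [NeZero n] : Finset (Elt n) :=
  univ.image Sum.inl ∪ (univ.filter fun w : ZMod n => ClOk w).image fun w => Sum.inr (cl w)

/-- parity (trivial for odd `n`) -/
def par (x : ZMod n) : ZMod 2 := if Even n then (x.val : ZMod 2) else 0
/-- parity of a time (trivial for odd `n`) -/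
def parT (n k : ℕ) : ZMod 2 := if Even n then (k : ZMod 2) else 0

/-- kind of an element: `0` even point, `1` odd point (only for even `n`), `2` class -/
def kd : Elt n → Fin 3 := Sum.elim (fun x => if par x = 0 then 0 else 1) fun _ => 2
/-- number of elements of kind `t` -/
def kc (Y : Finset (Elt n)) (t : Fin 3) : ℕ := (Y.filter fun y => kd y = t).card

/-- numbers of flexible elements of every kind consumed by `r` reserved blocks -/
def uu (n Q r : ℕ) : Fin 3 → ℕ :=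
  ![if Even n then (Q - 1) * r else 2 * (Q - 1) * r, if Even n then (Q - 1) * r else 0, Q * r]

/-- a solution of the half problem -/
structure HalfSol (n : ℕ) (U : ℕ → ZMod n) : Prop where
  up : ∀ k ∈ Icc (T0 n) (T1 n), ∀ k' ∈ Icc (T0 n) (T1 n), U k = U k' → k = k'
  lo : ∀ k ∈ Icc (T0 n) (T1 n), ∀ k' ∈ Icc (T0 n) (T1 n),
    U k - (k : ZMod n) = U k' - (k' : ZMod n) → k = k'
  ul : ∀ k ∈ Icc (T0 n) (T1 n), ∀ k' ∈ Icc (T0 n) (T1 n),
    U k = U k' - (k' : ZMod n) → k = 0 ∧ k' = 0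
  ok : ∀ k ∈ Ico (T0 n) (T1 n), ClOk (U (k + 1) - U k)
  cls : ∀ k ∈ Ico (T0 n) (T1 n), ∀ k' ∈ Ico (T0 n) (T1 n),
    cl (U (k + 1) - U k) = cl (U (k' + 1) - U k') → k = k'

/-- the flexible elements `Y` are well distributed -/
structure YOk (n Q : ℕ) [NeZero n] (c0 : ℝ) (Y : Finset (Elt n)) : Prop where
  n4 : ∀ k ∈ Icc 1 (T1 n), ∀ a b : ZMod n, b - a ≠ 1 → ∀ z : ZMod n,
    c0 * n ≤ ((univ.filter fun m : ZMod n => par m = par z ∧ Sum.inl m ∈ Y ∧
      Sum.inl (m - (k : ZMod n)) ∈ Y ∧ Sum.inr (cl (m - a)) ∈ Y ∧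
      Sum.inr (cl (b - m)) ∈ Y).card : ℝ)
  n5 : ∀ k ∈ Ico 1 (T1 n), ∀ w : ZMod n, ClOk w → w ≠ (k : ZMod n) + 1 → w ≠ -(k : ZMod n) →
    ∀ a : ZMod n, c0 * n ≤ ((univ.filter fun m : ZMod n => par m = 0 ∧ Sum.inl m ∈ Y ∧
      Sum.inl (m - (k : ZMod n)) ∈ Y ∧ Sum.inl (m + w) ∈ Y ∧
      Sum.inl (m + w - ((k : ZMod n) + 1)) ∈ Y ∧ Sum.inr (cl (m - a)) ∈ Y).card : ℝ)
  n6 : ∀ x : ZMod n, c0 * n ≤ (((Blocks n Q).filter fun j =>
      Sum.inl (x - ((j * Q + 2 : ℕ) : ZMod n)) ∈ Y).card : ℝ)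

end Pool.Agent.DNA
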