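import Pool.Agent.Lib.MP_845d9b_co.Abs.FpmStmts

/-!
# Elementary calculus of `Ex` (helper3)
-/

set_option autoImplicit false

namespace Pool.Agent.DNA

open Finset

namespace ExCalc

variable {n : ℕ}

theorem ext_left (n Q : ℕ) (U : ℕ → ZMod n) (j : ℕ) (m : Fin (Q - 1) → ZMod n) :
    ext n Q U j m (j * Q) = U (j * Q) := by
  unfold ext
  rw [dif_neg]
  rintro ⟨h, -⟩
  exact lt_irrefl _ h

theorem ext_right (n Q : ℕ) (U : ℕ → ZMod n) (j : ℕ) (m : Fin (Q - 1) → ZMod n) :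
    ext n Q U j m ((j + 1) * Q) = U ((j + 1) * Q) := by
  unfold ext
  rw [dif_neg]
  rintro ⟨h, h'⟩
  have : (j + 1) * Q = j * Q + Q := by ring
  omega

theorem pa_nonneg [NeZero n] (Q : ℕ) (U : ℕ → ZMod n) (E' : Finset (Elt n)) (k : ℕ)
    (x : ZMod n) : 0 ≤ pa Q U E' k x := by
  unfold pa
  split_ifs <;> positivity

theorem pa_anchor [NeZero n] {Q : ℕ} (U : ℕ → ZMod n) (E' : Finset (Elt n)) {k : ℕ}
    (hk : Q ∣ k) (x : ZMod n) : pa Q U E' k x = if x = U k then 1 else 0 := by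
  unfold pa
  rw [if_pos hk]

theorem sum_pa_anchor [NeZero n] {Q : ℕ} (U : ℕ → ZMod n) (E' : Finset (Elt n)) {k : ℕ}
    (hk : Q ∣ k) (G : ZMod n → ℝ) : ∑ x, pa Q U E' k x * G x = G (U k) := by
  simp [pa_anchor U E' hk]

theorem sum_pa_anchor_one [NeZero n] {Q : ℕ} (U : ℕ → ZMod n) (E' : Finset (Elt n)) {k : ℕ}
    (hk : Q ∣ k) : ∑ x, pa Q U E' k x = 1 := by
  simp [pa_anchor U E' hk]

theorem pe_nonneg [NeZero n] (Q : ℕ) (U : ℕ → ZMod n) (E' : Finset (Elt n)) (k : ℕ)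
    (w : ZMod n) : 0 ≤ pe Q U E' k w := by
  unfold pe
  exact Finset.sum_nonneg fun x _ => mul_nonneg (pa_nonneg _ _ _ _ _) (pa_nonneg _ _ _ _ _)

theorem pr_nonneg [NeZero n] (Q : ℕ) (U : ℕ → ZMod n) (E' : Finset (Elt n)) (j : ℕ)
    (m : Fin (Q - 1) → ZMod n) : 0 ≤ pr Q U E' j m := by
  unfold pr
  exact Finset.prod_nonneg fun i _ => pa_nonneg _ _ _ _ _

theorem Ex_one [NeZero n] {Q : ℕ} {U : ℕ → ZMod n} {E' : Finset (Elt n)} {j : ℕ}
    (h : ∀ k ∈ Ioo (j * Q) ((j + 1) * Q), (∑ x, pa Q U E' k x) = 1) :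
    Ex Q U E' j (fun _ => 1) = 1 := by
  unfold Ex pr
  simp only [mul_one]
  rw [← Fintype.piFinset_univ, ← Finset.prod_univ_sum]
  apply Finset.prod_eq_one
  intro i _
  apply h
  rw [mem_Ioo]
  have := i.2
  have e : (j + 1) * Q = j * Q + Q := by ring
  omega

theorem Ex_add [NeZero n] (Q : ℕ) (U : ℕ → ZMod n) (E' : Finset (Elt n)) (j : ℕ)
    (F G : (ℕ → ZMod n) → ℝ) :
    Ex Q U E' j (fun f => F f + G f) = Ex Q U E' j F + Ex Q U E' j G := by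
  unfold Ex
  rw [← Finset.sum_add_distrib]
  exact Finset.sum_congr rfl fun m _ => by ring

theorem Ex_sub [NeZero n] (Q : ℕ) (U : ℕ → ZMod n) (E' : Finset (Elt n)) (j : ℕ)
    (F G : (ℕ → ZMod n) → ℝ) :
    Ex Q U E' j (fun f => F f - G f) = Ex Q U E' j F - Ex Q U E' j G := by
  unfold Ex
  rw [← Finset.sum_sub_distrib]
  exact Finset.sum_congr rfl fun m _ => by ring

theorem Ex_smul [NeZero n] (Q : ℕ) (U : ℕ → ZMod n) (E' : Finset (Elt n)) (j : ℕ)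
    (c : ℝ) (F : (ℕ → ZMod n) → ℝ) :
    Ex Q U E' j (fun f => c * F f) = c * Ex Q U E' j F := by
  unfold Ex
  rw [Finset.mul_sum]
  exact Finset.sum_congr rfl fun m _ => by ring

theorem Ex_sum [NeZero n] (Q : ℕ) (U : ℕ → ZMod n) (E' : Finset (Elt n)) (j : ℕ)
    {ι : Type*} (s : Finset ι) (F : ι → (ℕ → ZMod n) → ℝ) :
    Ex Q U E' j (fun f => ∑ i ∈ s, F i f) = ∑ i ∈ s, Ex Q U E' j (F i) := by
  unfold Ex
  rw [Finset.sum_comm]
  exact Finset.sum_congr rfl fun m _ => by rw [Finset.mul_sum]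

theorem Ex_const [NeZero n] {Q : ℕ} {U : ℕ → ZMod n} {E' : Finset (Elt n)} {j : ℕ}
    (h : ∀ k ∈ Ioo (j * Q) ((j + 1) * Q), (∑ x, pa Q U E' k x) = 1) (c : ℝ) :
    Ex Q U E' j (fun _ => c) = c := by
  have := Ex_smul Q U E' j c (fun _ => 1)
  simp only [mul_one] at this
  rw [this, Ex_one h, mul_one]

theorem Ex_mono [NeZero n] (Q : ℕ) (U : ℕ → ZMod n) (E' : Finset (Elt n)) (j : ℕ)
    {F G : (ℕ → ZMod n) → ℝ} (h : ∀ f, F f ≤ G f) : Ex Q U E' j F ≤ Ex Q U E' j G := by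
  unfold Ex
  exact Finset.sum_le_sum fun m _ => mul_le_mul_of_nonneg_left (h _) (pr_nonneg _ _ _ _ _)

theorem Ex_nonneg [NeZero n] (Q : ℕ) (U : ℕ → ZMod n) (E' : Finset (Elt n)) (j : ℕ)
    {F : (ℕ → ZMod n) → ℝ} (h : ∀ f, 0 ≤ F f) : 0 ≤ Ex Q U E' j F := by
  unfold Ex
  exact Finset.sum_nonneg fun m _ => mul_nonneg (pr_nonneg _ _ _ _ _) (h _)

theorem abs_Ex_le [NeZero n] (Q : ℕ) (U : ℕ → ZMod n) (E' : Finset (Elt n)) (j : ℕ)
    (F : (ℕ → ZMod n) → ℝ) : |Ex Q U E' j F| ≤ Ex Q U E' j (fun f => |F f|) := by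
  unfold Ex
  refine (Finset.abs_sum_le_sum_abs _ _).trans (Finset.sum_le_sum fun m _ => ?_)
  rw [abs_mul, abs_of_nonneg (pr_nonneg _ _ _ _ _)]

theorem Ex_congr [NeZero n] (Q : ℕ) (U : ℕ → ZMod n) (E' : Finset (Elt n)) (j : ℕ)
    {F G : (ℕ → ZMod n) → ℝ} (h : ∀ m : Fin (Q - 1) → ZMod n,
      F (ext n Q U j m) = G (ext n Q U j m)) : Ex Q U E' j F = Ex Q U E' j G := by
  unfold Ex
  exact Finset.sum_congr rfl fun m _ => by rw [h m]

/-- `F` splits according to the value at time `k` -/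
theorem Ex_split [NeZero n] (Q : ℕ) (U : ℕ → ZMod n) (E' : Finset (Elt n)) (j : ℕ)
    (k : ℕ) (F : (ℕ → ZMod n) → ℝ) :
    Ex Q U E' j F = ∑ x, Ex Q U E' j (fun f => if f k = x then F f else 0) := by
  rw [← Ex_sum]
  exact Ex_congr _ _ _ _ fun m => by simp

variable (hK : StK1)
include hK

/-- conditioning on the value at time `k` (free) -/
theorem Ex_free [NeZero n] {Q : ℕ} {U : ℕ → ZMod n} {E' : Finset (Elt n)} {j : ℕ}
    (h : ∀ k ∈ Ioo (j * Q) ((j + 1) * Q), (∑ x, pa Q U E' k x) = 1) {k : ℕ}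
    (hk : k ∈ Ioo (j * Q) ((j + 1) * Q)) (F : (ℕ → ZMod n) → ℝ) :
    Ex Q U E' j F = ∑ x, pa Q U E' k x * Ex Q U E' j (fun f => F (Function.update f k x)) := by
  rw [Ex_split Q U E' j k]
  exact Finset.sum_congr rfl fun x _ => hK n Q U E' j k hk (h k hk) F x

/-- law of the value at time `k`, anchors included -/
theorem Ex_pt [NeZero n] {Q : ℕ} {U : ℕ → ZMod n} {E' : Finset (Elt n)} {j : ℕ}
    (h : ∀ k ∈ Ioo (j * Q) ((j + 1) * Q), (∑ x, pa Q U E' k x) = 1) {k : ℕ}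
    (hk : k ∈ Icc (j * Q) ((j + 1) * Q)) (G : ZMod n → ℝ) :
    Ex Q U E' j (fun f => G (f k)) = ∑ x, pa Q U E' k x * G x := by
  rw [mem_Icc] at hk
  rcases eq_or_lt_of_le hk.1 with h1 | h1
  · subst h1
    rw [sum_pa_anchor U E' (dvd_mul_left Q j)]
    rw [Ex_congr (G := fun _ => G (U (j * Q))) Q U E' j (fun m => by rw [ext_left])]
    exact Ex_const h _
  rcases eq_or_lt_of_le hk.2 with h2 | h2
  · subst h2
    rw [sum_pa_anchor U E' (dvd_mul_left Q (j + 1))]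
    rw [Ex_congr (G := fun _ => G (U ((j + 1) * Q))) Q U E' j (fun m => by rw [ext_right])]
    exact Ex_const h _
  rw [Ex_free hK h (mem_Ioo.2 ⟨h1, h2⟩)]
  refine Finset.sum_congr rfl fun x _ => ?_
  congr 1
  simp only [Function.update_self]
  exact Ex_const h _

/-- joint law at times `k`, `k + 1`, anchors included -/
theorem Ex_pair [NeZero n] {Q : ℕ} {U : ℕ → ZMod n} {E' : Finset (Elt n)} {j : ℕ}
    (h : ∀ k ∈ Ioo (j * Q) ((j + 1) * Q), (∑ x, pa Q U E' k x) = 1) {k : ℕ}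
    (hk : k ∈ Ico (j * Q) ((j + 1) * Q)) (G : ZMod n → ZMod n → ℝ) :
    Ex Q U E' j (fun f => G (f k) (f (k + 1))) =
      ∑ x, ∑ y, pa Q U E' k x * pa Q U E' (k + 1) y * G x y := by
  rw [mem_Ico] at hk
  have hk1 : k + 1 ∈ Icc (j * Q) ((j + 1) * Q) := mem_Icc.2 ⟨by omega, by omega⟩
  have e : ∀ x, ∑ y, pa Q U E' k x * pa Q U E' (k + 1) y * G x y =
      pa Q U E' k x * ∑ y, pa Q U E' (k + 1) y * G x y := fun x => by
    rw [Finset.mul_sum]
    exact Finset.sum_congr rfl fun y _ => by ring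
  simp only [e]
  rcases eq_or_lt_of_le hk.1 with h1 | h1
  · subst h1
    rw [sum_pa_anchor U E' (dvd_mul_left Q j)]
    rw [Ex_congr (G := fun f => G (U (j * Q)) (f (j * Q + 1))) Q U E' j
      (fun m => by rw [ext_left])]
    exact Ex_pt hK h hk1 (fun y => G (U (j * Q)) y)
  rw [Ex_free hK h (mem_Ioo.2 ⟨h1, hk.2⟩)]
  refine Finset.sum_congr rfl fun x _ => ?_
  congr 1
  simp only [Function.update_self]
  have : ∀ f : ℕ → ZMod n, Function.update f k x (k + 1) = f (k + 1) := fun f =>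
    Function.update_of_ne (by omega) _ _
  simp only [this]
  exact Ex_pt hK h hk1 (fun y => G x y)

/-- law of the difference -/
theorem Ex_diff [NeZero n] {Q : ℕ} {U : ℕ → ZMod n} {E' : Finset (Elt n)} {j : ℕ}
    (h : ∀ k ∈ Ioo (j * Q) ((j + 1) * Q), (∑ x, pa Q U E' k x) = 1) {k : ℕ}
    (hk : k ∈ Ico (j * Q) ((j + 1) * Q)) (G : ZMod n → ℝ) :
    Ex Q U E' j (fun f => G (f (k + 1) - f k)) = ∑ w, pe Q U E' k w * G w := by
  rw [Ex_pair hK h hk (fun x y => G (y - x))]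
  unfold pe
  simp only [Finset.sum_mul]
  rw [Finset.sum_comm (f := fun w x => pa Q U E' k x * pa Q U E' (k + 1) (x + w) * G w)]
  refine Finset.sum_congr rfl fun x _ => ?_
  refine (Equiv.sum_comp (Equiv.addLeft x)
    (fun y => pa Q U E' k x * pa Q U E' (k + 1) y * G (y - x))).symm.trans ?_
  refine Finset.sum_congr rfl fun w _ => ?_
  simp

end ExCalc

end Pool.Agent.DNA
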