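import Pool.Agent.Lib.MP_845d9b_co.Abs.Defs
import Pool.Agent.Lib.MP_162c7e_co.Basic

/-!
Statement of the module `FN` (Final.lean): from a half solution to the ordering criterion
(`DNeo.good_of_seq` in `Lib/MP_162c7e_co/Basic.lean` does the last step).
-/

set_option autoImplicit false

namespace Pool.Agent.DNA

def StFinal : Prop :=
  ∀ (n : ℕ) (U : ℕ → ZMod n), 6 ≤ n → HalfSol n U → DNeo.Good (n + 1)

end Pool.Agent.DNA
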