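import Pool.Agent.Lib.MP_845d9b_co.Abs.FpmStmts

/-!
# Degrees and deviations (module F2)
-/

set_option autoImplicit false

namespace Pool.Agent.DNA

open Finset

namespace FpAux

variable {n Q : ℕ} [NeZero n] {U : ℕ → ZMod n} {J' : Finset ℕ} {E' : Finset (Elt n)}

/-! ### real inequalities -/

/-- the basic real data -/
structure RD (q N d : ℝ) : Prop where
  hq : 10 ^ 5 ≤ q
  hN : 100 * q ^ 2 ≤ N
  d0 : 0 ≤ d
  hd : q * d ≤ 2 * N

theorem RD.qpos {q N d : ℝ} (h : RD q N d) : 0 < q := by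
  have := h.hq
  linarith

theorem RD.Npos {q N d : ℝ} (h : RD q N d) : 0 < N := by
  have h1 := h.hN
  have h2 := h.qpos
  have : 0 < q ^ 2 := by positivity
  linarith

theorem RD.dle {q N d : ℝ} (h : RD q N d) : d ≤ 2 * N / q := by
  rw [le_div_iff₀ h.qpos]
  linarith [h.hd]

theorem RD.dle' {q N d : ℝ} (h : RD q N d) : 50000 * d ≤ N := by
  have h1 := h.hd
  have h2 := h.hq
  have h3 := h.d0
  nlinarith

theorem RD.m0 {q N d : ℝ} (h : RD q N d) : 9999 / 10000 * N ≤ N - 2 * d := by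
  have := h.dle'
  have := h.Npos
  linarith

theorem RD.m0pos {q N d : ℝ} (h : RD q N d) : 0 < N - 2 * d := by
  have := h.m0
  have := h.Npos
  linarith

/-- the difference of the inverses -/
theorem RD.inv {q N d m : ℝ} (h : RD q N d) (h1 : N - 2 * d ≤ m)
    (h2 : m ≤ N - 2 * d + 21 * (N / q ^ 2)) :
    0 ≤ 1 / (N - 2 * d) - 1 / m ∧ 1 / (N - 2 * d) - 1 / m ≤ 22 / (q ^ 2 * N) := by
  have hm0 := h.m0pos
  have hq := h.qpos
  have hN := h.Npos
  have hm : 0 < m := by linarith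
  have e1 : 1 / (N - 2 * d) - 1 / m = (m - (N - 2 * d)) / ((N - 2 * d) * m) := by
    field_simp
  rw [e1]
  constructor
  · exact div_nonneg (by linarith) (by positivity)
  · rw [div_le_div_iff₀ (by positivity) (by positivity)]
    have h3 : (m - (N - 2 * d)) * q ^ 2 ≤ 21 * N := by
      have : 21 * (N / q ^ 2) * q ^ 2 = 21 * N := by
        field_simp
      nlinarith [sq_nonneg q, (show (0 : ℝ) < q ^ 2 by positivity)]
    have h4 : (m - (N - 2 * d)) * (q ^ 2 * N) ≤ 21 * N * N := by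
      nlinarith
    have h5 := h.m0
    have h6 : 21 * N * N ≤ 22 * ((N - 2 * d) * (N - 2 * d)) := by
      nlinarith
    have h7 : (N - 2 * d) * (N - 2 * d) ≤ (N - 2 * d) * m :=
      mul_le_mul_of_nonneg_left h1 hm0.le
    linarith

/-- the probability of a difference -/
theorem RD.prob {q N d m m' L : ℝ} (h : RD q N d) (h1 : N - 2 * d ≤ m)
    (h2 : m ≤ N - 2 * d + 21 * (N / q ^ 2)) (h1' : N - 2 * d ≤ m')
    (h2' : m' ≤ N - 2 * d + 21 * (N / q ^ 2)) (hL1 : N - 4 * d ≤ L)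
    (hL2 : L ≤ N - 4 * d + 126 * (N / q ^ 2)) :
    |L * (1 / m * (1 / m')) - 1 / N| ≤ 150 / (q ^ 2 * N) := by
  have hm0 := h.m0pos
  have hq := h.qpos
  have hN := h.Npos
  have hm : 0 < m := by linarith
  have hm' : 0 < m' := by linarith
  have h5 := h.m0
  have hd0 := h.d0
  have hd := h.dle'
  set ε : ℝ := N / q ^ 2 with hε
  have hε0 : 0 < ε := by positivity
  have hεq : ε * q ^ 2 = N := by rw [hε]; field_simp
  have hq2 : (10 : ℝ) ^ 10 ≤ q ^ 2 := by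
    have := h.hq
    nlinarith
  have hεN : 10 ^ 10 * ε ≤ N := by nlinarith
  -- 4 d ^ 2 ≤ 16 N ε
  have hdd : d ^ 2 ≤ 4 * N * ε := by
    have h6 : (q * d) ^ 2 ≤ (2 * N) ^ 2 :=
      pow_le_pow_left₀ (by positivity) h.hd 2
    have h7 : q ^ 2 * d ^ 2 ≤ q ^ 2 * (4 * N * ε) := by
      have : q ^ 2 * (4 * N * ε) = 4 * N * N := by
        rw [← hεq]
        ring
      rw [this]
      nlinarith
    exact le_of_mul_le_mul_left h7 (by positivity)
  have e1 : L * (1 / m * (1 / m')) - 1 / N = (N * L - m * m') / (m * m' * N) := by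
    field_simp
  rw [e1, abs_div, abs_of_pos (show (0 : ℝ) < m * m' * N by positivity),
    div_le_div_iff₀ (by positivity) (by positivity)]
  have hmm1 : (N - 2 * d) * (N - 2 * d) ≤ m * m' := mul_le_mul h1 h1' hm0.le hm.le
  have hmm2 : m * m' ≤ (N - 2 * d + 21 * ε) * (N - 2 * d + 21 * ε) :=
    mul_le_mul h2 h2' hm'.le (by linarith)
  have key : |N * L - m * m'| ≤ 130 * (N * ε) := by
    rw [abs_le]
    constructor
    · have h8 : N * (N - 4 * d) ≤ N * L := mul_le_mul_of_nonneg_left hL1 hN.le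
      nlinarith
    · have h8 : N * L ≤ N * (N - 4 * d + 126 * ε) := mul_le_mul_of_nonneg_left hL2 hN.le
      nlinarith
  have h9 : 130 * (N * ε) * (q ^ 2 * N) = 130 * N * N * N := by
    rw [← hεq]
    ring
  have h10 : |N * L - m * m'| * (q ^ 2 * N) ≤ 130 * N * N * N := by
    rw [← h9]
    exact mul_le_mul_of_nonneg_right key (by positivity)
  have h11 : 130 * N * N * N ≤ 150 * (m * m' * N) := by
    have h12 : 130 * N * N ≤ 150 * (m * m') := by nlinarith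
    nlinarith
  linarith

/-! ### shifts of the complement -/

/-- the shift of `D` by `s` -/
def sh (E' : Finset (Elt n)) (s : ZMod n) : Finset (ZMod n) := (Dt E').image (· + s)

theorem mem_sh {s x : ZMod n} : x ∈ sh E' s ↔ Sum.inl (x - s) ∉ E' := by
  unfold sh Dt
  simp only [mem_image, mem_filter, mem_univ, true_and]
  constructor
  · rintro ⟨y, hy, rfl⟩
    rwa [add_sub_cancel_right]
  · intro h
    exact ⟨x - s, h, sub_add_cancel x s⟩

theorem sh_card (s : ZMod n) : (sh E' s).card = (Dt E').card :=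
  card_image_of_injective _ (add_left_injective s)

theorem sh_inter (hE : Est n Q U J' E') {s t : ZMod n} (h : s ≠ t) :
    Q ^ 2 * (sh E' s ∩ sh E' t).card ≤ 21 * n := by
  refine le_trans (Nat.mul_le_mul_left _ ?_) (hE.cor (t - s) (sub_ne_zero.2 h.symm))
  refine card_le_card_of_injOn (fun y => y - s) ?_ (sub_left_injective.injOn)
  intro y hy
  rw [mem_coe, mem_inter, mem_sh, mem_sh] at hy
  rw [mem_coe, mem_inter, mem_image]
  unfold Dt
  refine ⟨?_, y - t, ?_, ?_⟩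
  · rw [mem_filter]
    exact ⟨mem_univ _, hy.1⟩
  · rw [mem_filter]
    exact ⟨mem_univ _, hy.2⟩
  · ring

theorem Mk_compl (k : ℕ) : Mk E' k = (sh E' 0 ∪ sh E' (k : ZMod n))ᶜ := by
  ext x
  unfold Mk
  rw [mem_filter, mem_compl, mem_union, mem_sh, mem_sh, sub_zero]
  simp

theorem Mk_card (hE : Est n Q U J' E') {k : ℕ} (hk : (k : ZMod n) ≠ 0) :
    n ≤ (Mk E' k).card + 2 * (Dt E').card ∧
      Q ^ 2 * ((Mk E' k).card + 2 * (Dt E').card) ≤ Q ^ 2 * n + 21 * n := by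
  have h1 : (Mk E' k).card + (sh E' 0 ∪ sh E' (k : ZMod n)).card = n := by
    rw [Mk_compl, card_compl, ZMod.card]
    have := card_le_univ (sh E' 0 ∪ sh E' (k : ZMod n))
    rw [ZMod.card] at this
    omega
  have h2 := card_union_add_card_inter (sh E' 0) (sh E' (k : ZMod n))
  rw [sh_card, sh_card] at h2
  have h3 := sh_inter hE (Ne.symm hk)
  constructor
  · omega
  · have h4 : (Mk E' k).card + 2 * (Dt E').card = n + (sh E' 0 ∩ sh E' (k : ZMod n)).card := by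
      omega
    rw [h4, Nat.mul_add]
    omega

/-- inclusion-exclusion for four sets -/
theorem four_union {α : Type} [DecidableEq α] (A B C D : Finset α) :
    (A ∪ B ∪ C ∪ D).card ≤ A.card + B.card + C.card + D.card ∧
      A.card + B.card + C.card + D.card ≤ (A ∪ B ∪ C ∪ D).card +
        ((A ∩ B).card + (A ∩ C).card + (B ∩ C).card + (A ∩ D).card + (B ∩ D).card +
          (C ∩ D).card) := by
  have h1 := card_union_add_card_inter A B
  have h2 := card_union_add_card_inter (A ∪ B) C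
  have h3 := card_union_add_card_inter (A ∪ B ∪ C) D
  have h4 : ((A ∪ B) ∩ C).card ≤ (A ∩ C).card + (B ∩ C).card := by
    rw [union_inter_distrib_right]
    exact card_union_le _ _
  have h5 : ((A ∪ B ∪ C) ∩ D).card ≤ (A ∩ D).card + (B ∩ D).card + (C ∩ D).card := by
    rw [union_inter_distrib_right, union_inter_distrib_right]
    exact (card_union_le _ _).trans (Nat.add_le_add_right (card_union_le _ _) _)
  constructor <;> omega

/-- the set of values `x` at time `k` compatible with the difference `w` -/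
def Lw (E' : Finset (Elt n)) (k : ℕ) (w : ZMod n) : Finset (ZMod n) :=
  univ.filter fun x => x ∈ Mk E' k ∧ x + w ∈ Mk E' (k + 1)

theorem Lw_compl (k : ℕ) (w : ZMod n) : Lw E' k w =
    (sh E' 0 ∪ sh E' (k : ZMod n) ∪ sh E' (-w) ∪ sh E' ((k : ZMod n) + 1 - w))ᶜ := by
  ext x
  unfold Lw Mk
  simp only [mem_filter, mem_univ, true_and, mem_compl, mem_union, mem_sh, sub_zero, not_or,
    not_not, sub_neg_eq_add]
  have : x + w - ((k + 1 : ℕ) : ZMod n) = x - ((k : ZMod n) + 1 - w) := by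
    push_cast
    ring
  rw [this]
  tauto

theorem Lw_card (hE : Est n Q U J' E') {k : ℕ} {w : ZMod n} (hk : (k : ZMod n) ≠ 0)
    (hk1 : (k : ZMod n) + 1 ≠ 0) (hw0 : w ≠ 0) (hw1 : w ≠ 1) (hw2 : w ≠ (k : ZMod n) + 1)
    (hw3 : w ≠ -(k : ZMod n)) :
    n ≤ (Lw E' k w).card + 4 * (Dt E').card ∧
      Q ^ 2 * ((Lw E' k w).card + 4 * (Dt E').card) ≤ Q ^ 2 * n + 126 * n := by
  have h1 : (Lw E' k w).card + (sh E' 0 ∪ sh E' (k : ZMod n) ∪ sh E' (-w) ∪
      sh E' ((k : ZMod n) + 1 - w)).card = n := by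
    rw [Lw_compl, card_compl, ZMod.card]
    have := card_le_univ (sh E' 0 ∪ sh E' (k : ZMod n) ∪ sh E' (-w) ∪
      sh E' ((k : ZMod n) + 1 - w))
    rw [ZMod.card] at this
    omega
  obtain ⟨h2, h3⟩ := four_union (sh E' 0) (sh E' (k : ZMod n)) (sh E' (-w))
    (sh E' ((k : ZMod n) + 1 - w))
  rw [sh_card, sh_card, sh_card, sh_card] at h2 h3
  have i1 := sh_inter hE (Ne.symm hk)
  have i2 := sh_inter hE (s := 0) (t := -w) (fun h => hw0 (by linear_combination h))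
  have i3 := sh_inter hE (s := (k : ZMod n)) (t := -w) (fun h => hw3 (by linear_combination h))
  have i4 := sh_inter hE (s := 0) (t := (k : ZMod n) + 1 - w)
    (fun h => hw2 (by linear_combination h))
  have i5 := sh_inter hE (s := (k : ZMod n)) (t := (k : ZMod n) + 1 - w)
    (fun h => hw1 (by linear_combination h))
  have i6 := sh_inter hE (s := -w) (t := (k : ZMod n) + 1 - w)
    (fun h => hk1 (by linear_combination -h))
  constructor
  · omega
  · have h4 : (Lw E' k w).card + 4 * (Dt E').card ≤ n + ((sh E' 0 ∩ sh E' (k : ZMod n)).card +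
        (sh E' 0 ∩ sh E' (-w)).card + (sh E' (k : ZMod n) ∩ sh E' (-w)).card +
        (sh E' 0 ∩ sh E' ((k : ZMod n) + 1 - w)).card +
        (sh E' (k : ZMod n) ∩ sh E' ((k : ZMod n) + 1 - w)).card +
        (sh E' (-w) ∩ sh E' ((k : ZMod n) + 1 - w)).card) := by omega
    refine (Nat.mul_le_mul_left (Q ^ 2) h4).trans ?_
    simp only [Nat.mul_add]
    omega

/-! ### times -/

theorem blk (hJ : J' ⊆ Blocks n Q) {j k : ℕ} (hj : j ∈ J')
    (h1 : j * Q < k) (h2 : k < (j + 1) * Q) : 1 ≤ k ∧ k + 1 ≤ T1 n ∧ ¬ Q ∣ k := by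
  have hj' := hJ hj
  unfold Blocks J1 at hj'
  rw [mem_Ico] at hj'
  have h3 : (j + 1) * Q ≤ (T1 n / Q) * Q := Nat.mul_le_mul_right Q (by omega)
  have h4 : (T1 n / Q) * Q ≤ T1 n := Nat.div_mul_le_self _ _
  refine ⟨by omega, by omega, ?_⟩
  rintro ⟨c, rfl⟩
  rw [Nat.mul_comm Q c] at h1 h2
  have h5 : j < c := lt_of_mul_lt_mul_right h1 (Nat.zero_le _)
  have h6 : c < j + 1 := lt_of_mul_lt_mul_right h2 (Nat.zero_le _)
  omega

theorem cast_ne {k : ℕ} (h1 : 1 ≤ k) (h2 : k ≤ T1 n + 1) (h3 : 4 ≤ n) : (k : ZMod n) ≠ 0 := by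
  intro h
  rw [ZMod.natCast_eq_zero_iff] at h
  have := Nat.le_of_dvd (by omega) h
  unfold T1 at h2
  omega

theorem sum_blocks (g : ℕ → ℝ) (J : Finset ℕ) : ∑ j ∈ J, ∑ k ∈ Ioo (j * Q) ((j + 1) * Q), g k =
    ∑ k ∈ J.biUnion (fun j => Ioo (j * Q) ((j + 1) * Q)), g k := by
  rw [sum_biUnion]
  intro i _ j _ hij
  rw [Function.onFun, disjoint_left]
  intro k h1 h2
  rw [mem_Ioo] at h1 h2
  apply hij
  have h5 : i < j + 1 := lt_of_mul_lt_mul_right (h1.1.trans h2.2) (Nat.zero_le _)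
  have h6 : j < i + 1 := lt_of_mul_lt_mul_right (h2.1.trans h1.2) (Nat.zero_le _)
  omega

theorem blocks_lt (hJ : J' ⊆ Blocks n Q) {k : ℕ}
    (hk : k ∈ J'.biUnion (fun j => Ioo (j * Q) ((j + 1) * Q))) : 1 ≤ k ∧ k + 1 ≤ T1 n := by
  rw [mem_biUnion] at hk
  obtain ⟨j, hj, hk⟩ := hk
  rw [mem_Ioo] at hk
  have := blk hJ hj hk.1 hk.2
  exact ⟨this.1, this.2.1⟩

theorem blocks_card (hQ : 1 ≤ Q) (J : Finset ℕ) :
    (J.biUnion (fun j => Ioo (j * Q) ((j + 1) * Q))).card = (Q - 1) * J.card := by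
  have h := sum_blocks (Q := Q) (fun _ => (1 : ℝ)) J
  have h1 : ∀ j : ℕ, (Ioo (j * Q) ((j + 1) * Q)).card = Q - 1 := by
    intro j
    rw [Nat.card_Ioo]
    have : (j + 1) * Q = j * Q + Q := by ring
    omega
  simp only [sum_const, h1, nsmul_eq_mul, mul_one] at h
  have h2 : ((J.biUnion (fun j => Ioo (j * Q) ((j + 1) * Q))).card : ℝ) =
      (((Q - 1) * J.card : ℕ) : ℝ) := by
    rw [← h]
    push_cast
    ring
  exact_mod_cast h2

/-! ### real data from `Est` -/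

theorem rd (hQ : 10 ^ 5 ≤ Q) (hn : 100 * Q ^ 2 ≤ n) (hE : Est n Q U J' E') :
    RD (Q : ℝ) (n : ℝ) ((Dt E').card : ℝ) := by
  refine ⟨by exact_mod_cast hQ, by exact_mod_cast hn, by positivity, by exact_mod_cast hE.dc⟩

theorem MkR (hQ : 10 ^ 5 ≤ Q) (hE : Est n Q U J' E') {k : ℕ} (hk : (k : ZMod n) ≠ 0) :
    (n : ℝ) - 2 * ((Dt E').card : ℝ) ≤ ((Mk E' k).card : ℝ) ∧
      ((Mk E' k).card : ℝ) ≤ (n : ℝ) - 2 * ((Dt E').card : ℝ) + 21 * ((n : ℝ) / (Q : ℝ) ^ 2) := by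
  obtain ⟨h1, h2⟩ := Mk_card hE hk
  have hq : (0 : ℝ) < (Q : ℝ) ^ 2 := by
    have : 0 < Q := by omega
    positivity
  have h1' : (n : ℝ) ≤ ((Mk E' k).card : ℝ) + 2 * ((Dt E').card : ℝ) := by exact_mod_cast h1
  have h2' : (Q : ℝ) ^ 2 * (((Mk E' k).card : ℝ) + 2 * ((Dt E').card : ℝ)) ≤
      (Q : ℝ) ^ 2 * (n : ℝ) + 21 * (n : ℝ) := by exact_mod_cast h2
  constructor
  · linarith
  · have h3 : ((Mk E' k).card : ℝ) + 2 * ((Dt E').card : ℝ) ≤
        (n : ℝ) + 21 * ((n : ℝ) / (Q : ℝ) ^ 2) := by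
      rw [← mul_le_mul_iff_right₀ hq]
      refine h2'.trans (le_of_eq ?_)
      field_simp
    linarith

theorem LwR (hQ : 10 ^ 5 ≤ Q) (hE : Est n Q U J' E') {k : ℕ} {w : ZMod n}
    (hk : (k : ZMod n) ≠ 0)
    (hk1 : (k : ZMod n) + 1 ≠ 0) (hw0 : w ≠ 0) (hw1 : w ≠ 1) (hw2 : w ≠ (k : ZMod n) + 1)
    (hw3 : w ≠ -(k : ZMod n)) :
    (n : ℝ) - 4 * ((Dt E').card : ℝ) ≤ ((Lw E' k w).card : ℝ) ∧
      ((Lw E' k w).card : ℝ) ≤ (n : ℝ) - 4 * ((Dt E').card : ℝ) +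
        126 * ((n : ℝ) / (Q : ℝ) ^ 2) := by
  obtain ⟨h1, h2⟩ := Lw_card hE hk hk1 hw0 hw1 hw2 hw3
  have hq : (0 : ℝ) < (Q : ℝ) ^ 2 := by
    have : 0 < Q := by omega
    positivity
  have h1' : (n : ℝ) ≤ ((Lw E' k w).card : ℝ) + 4 * ((Dt E').card : ℝ) := by exact_mod_cast h1
  have h2' : (Q : ℝ) ^ 2 * (((Lw E' k w).card : ℝ) + 4 * ((Dt E').card : ℝ)) ≤
      (Q : ℝ) ^ 2 * (n : ℝ) + 126 * (n : ℝ) := by exact_mod_cast h2
  constructor
  · linarith
  · have h3 : ((Lw E' k w).card : ℝ) + 4 * ((Dt E').card : ℝ) ≤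
        (n : ℝ) + 126 * ((n : ℝ) / (Q : ℝ) ^ 2) := by
      rw [← mul_le_mul_iff_right₀ hq]
      refine h2'.trans (le_of_eq ?_)
      field_simp
    linarith

/-! ### the law of the values -/

theorem pa_free {k : ℕ} (hk : ¬ Q ∣ k) (x : ZMod n) :
    pa Q U E' k x = (if x ∈ Mk E' k then 1 else 0) * (1 / ((Mk E' k).card : ℝ)) := by
  unfold pa
  rw [if_neg hk]
  split_ifs <;> simp

theorem pa_x {k : ℕ} (hk : ¬ Q ∣ k) {x : ZMod n} (hx : Sum.inl x ∈ E') :
    pa Q U E' k x = (if Sum.inl (x - (k : ZMod n)) ∈ E' then 1 else 0) *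
      (1 / ((Mk E' k).card : ℝ)) := by
  rw [pa_free hk]
  have : x ∈ Mk E' k ↔ Sum.inl (x - (k : ZMod n)) ∈ E' := by
    unfold Mk
    rw [mem_filter]
    exact ⟨fun h => h.2.2, fun h => ⟨mem_univ _, hx, h⟩⟩
  simp only [this]

theorem pa_xk {k : ℕ} (hk : ¬ Q ∣ k) {x : ZMod n} (hx : Sum.inl x ∈ E') :
    pa Q U E' k (x + (k : ZMod n)) = (if Sum.inl (x + (k : ZMod n)) ∈ E' then 1 else 0) *
      (1 / ((Mk E' k).card : ℝ)) := by
  rw [pa_free hk]
  have : x + (k : ZMod n) ∈ Mk E' k ↔ Sum.inl (x + (k : ZMod n)) ∈ E' := by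
    unfold Mk
    rw [mem_filter, add_sub_cancel_right]
    exact ⟨fun h => h.2.1, fun h => ⟨mem_univ _, h, hx⟩⟩
  simp only [this]

theorem pa_nonneg (k : ℕ) (x : ZMod n) : 0 ≤ pa Q U E' k x := by
  unfold pa
  split_ifs <;> positivity

theorem pe_nonneg (k : ℕ) (w : ZMod n) : 0 ≤ pe Q U E' k w :=
  sum_nonneg fun _ _ => mul_nonneg (pa_nonneg _ _) (pa_nonneg _ _)

theorem pe_int {k : ℕ} (hk : ¬ Q ∣ k) (hk1 : ¬ Q ∣ (k + 1)) (w : ZMod n) :
    pe Q U E' k w = ((Lw E' k w).card : ℝ) *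
      (1 / ((Mk E' k).card : ℝ) * (1 / ((Mk E' (k + 1)).card : ℝ))) := by
  unfold pe
  have h1 : ∀ x : ZMod n, pa Q U E' k x * pa Q U E' (k + 1) (x + w) =
      if x ∈ Lw E' k w then (1 / ((Mk E' k).card : ℝ) * (1 / ((Mk E' (k + 1)).card : ℝ)))
      else 0 := by
    intro x
    rw [pa_free hk, pa_free hk1]
    unfold Lw
    simp only [mem_filter, mem_univ, true_and]
    by_cases h1 : x ∈ Mk E' k <;> by_cases h2 : x + w ∈ Mk E' (k + 1) <;> simp [h1, h2]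
  rw [sum_congr rfl fun x _ => h1 x, sum_ite_mem, univ_inter, sum_const, nsmul_eq_mul]

theorem Lw_le (k : ℕ) (w : ZMod n) : (Lw E' k w).card ≤ (Mk E' k).card :=
  card_le_card fun x hx => by
    unfold Lw at hx
    rw [mem_filter] at hx
    exact hx.2.1

/-- the number of neighbours of `x` in the blocks -/
noncomputable def nb (E' : Finset (Elt n)) (k : ℕ) (x : ZMod n) : ℝ :=
  (if Sum.inl (x + (k : ZMod n)) ∈ E' then 1 else 0) +
    (if Sum.inl (x - (k : ZMod n)) ∈ E' then 1 else 0)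

theorem nb_nonneg (k : ℕ) (x : ZMod n) : 0 ≤ nb E' k x := by
  unfold nb
  split_ifs <;> norm_num

theorem nb_le (k : ℕ) (x : ZMod n) : nb E' k x ≤ 2 := by
  unfold nb
  split_ifs <;> norm_num

theorem Nx_eq (hJ : J' ⊆ Blocks n Q) {j : ℕ} (hj : j ∈ J') {x : ZMod n} (hx : Sum.inl x ∈ E') :
    Nx Q U E' j x = ∑ k ∈ Ioo (j * Q) ((j + 1) * Q), nb E' k x * (1 / ((Mk E' k).card : ℝ)) := by
  unfold Nx
  refine sum_congr rfl fun k hk => ?_
  rw [mem_Ioo] at hk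
  have hb := (blk hJ hj hk.1 hk.2).2.2
  rw [pa_x hb hx, pa_xk hb hx]
  unfold nb
  ring

/-- the common setting -/
structure Set0 (n Q : ℕ) [NeZero n] (U : ℕ → ZMod n) (J' : Finset ℕ) (E' : Finset (Elt n)) :
    Prop where
  hQ : 10 ^ 5 ≤ Q
  hn : 100 * Q ^ 2 ≤ n
  hE : Est n Q U J' E'

theorem Set0.rd (h : Set0 n Q U J' E') : RD (Q : ℝ) (n : ℝ) ((Dt E').card : ℝ) :=
  FpAux.rd h.hQ h.hn h.hE

theorem Set0.n4 (h : Set0 n Q U J' E') : 4 ≤ n := by
  have h1 := h.hn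
  have h2 := h.hQ
  nlinarith

theorem Set0.kne (h : Set0 n Q U J' E') {j k : ℕ} (hj : j ∈ J') (h1 : j * Q < k)
    (h2 : k < (j + 1) * Q) : (k : ZMod n) ≠ 0 := by
  have := blk h.hE.sub hj h1 h2
  exact cast_ne this.1 (by omega) h.n4

theorem Set0.inv (h : Set0 n Q U J' E') {k : ℕ} (hk : (k : ZMod n) ≠ 0) :
    0 ≤ 1 / ((n : ℝ) - 2 * ((Dt E').card : ℝ)) - 1 / ((Mk E' k).card : ℝ) ∧
      1 / ((n : ℝ) - 2 * ((Dt E').card : ℝ)) - 1 / ((Mk E' k).card : ℝ) ≤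
        22 / ((Q : ℝ) ^ 2 * n) := by
  obtain ⟨h1, h2⟩ := MkR h.hQ h.hE hk
  exact h.rd.inv h1 h2

/-- total number of pairs (time, sign) -/
theorem Set0.pairs (h : Set0 n Q U J' E') :
    2 * (((J'.biUnion (fun j => Ioo (j * Q) ((j + 1) * Q))).card : ℕ) : ℝ) =
      (n : ℝ) - ((Dt E').card : ℝ) := by
  have h1 := blocks_card (Q := Q) (by have := h.hQ; omega) J'
  have h2 := h.hE.dj
  have h3 : 2 * (J'.biUnion (fun j => Ioo (j * Q) ((j + 1) * Q))).card + (Dt E').card = n := by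
    rw [h1, ← Nat.mul_assoc]
    omega
  have h4 : (2 : ℝ) * ((J'.biUnion (fun j => Ioo (j * Q) ((j + 1) * Q))).card : ℝ) +
      ((Dt E').card : ℝ) = n := by exact_mod_cast h3
  linarith

/-- the line estimate in terms of `nb` -/
theorem Set0.line (h : Set0 n Q U J' E') (x : ZMod n) :
    |(∑ j ∈ J', ∑ k ∈ Ioo (j * Q) ((j + 1) * Q), nb E' k x) -
      ((n : ℝ) - 2 * ((Dt E').card : ℝ))| ≤ 22 * n / (Q : ℝ) ^ 2 := by
  have h1 := h.hE.line x
  have h2 : (((∑ j ∈ J', ∑ k ∈ Ioo (j * Q) ((j + 1) * Q),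
        ((if Sum.inl (x + (k : ZMod n)) ∈ E' then 1 else 0) +
          (if Sum.inl (x - (k : ZMod n)) ∈ E' then 1 else 0)) : ℕ)) : ℝ) =
      ∑ j ∈ J', ∑ k ∈ Ioo (j * Q) ((j + 1) * Q), nb E' k x := by
    rw [Nat.cast_sum]
    refine sum_congr rfl fun j _ => ?_
    rw [Nat.cast_sum]
    refine sum_congr rfl fun k _ => ?_
    unfold nb
    push_cast
    rfl
  rw [h2] at h1
  exact h1

theorem degx (h : Set0 n Q U J' E') {x : ZMod n} (hx : Sum.inl x ∈ E') :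
    |(∑ j ∈ J', Nx Q U E' j x) - 1| ≤ 50 / (Q : ℝ) ^ 2 := by
  have hR := h.rd
  have hm0 := hR.m0pos
  have hm1 := hR.m0
  have hN := hR.Npos
  have hq := hR.qpos
  have hd0 := hR.d0
  set m0 : ℝ := (n : ℝ) - 2 * ((Dt E').card : ℝ) with hm0def
  have hline := h.line x
  rw [← hm0def] at hline
  set S : ℝ := ∑ j ∈ J', ∑ k ∈ Ioo (j * Q) ((j + 1) * Q), nb E' k x with hS
  have hS0 : 0 ≤ S := sum_nonneg fun _ _ => sum_nonneg fun _ _ => nb_nonneg _ _
  have hSN : S ≤ n := by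
    have h1 : S ≤ 2 * (((J'.biUnion (fun j => Ioo (j * Q) ((j + 1) * Q))).card : ℕ) : ℝ) := by
      rw [hS, sum_blocks, card_eq_sum_ones, Nat.cast_sum, mul_sum]
      refine sum_le_sum fun k _ => ?_
      have := nb_le (E' := E') k x
      simpa using this
    rw [h.pairs] at h1
    linarith
  have h1 : ∑ j ∈ J', Nx Q U E' j x ≤ S * (1 / m0) := by
    rw [hS, sum_mul]
    refine sum_le_sum fun j hj => ?_
    rw [Nx_eq h.hE.sub hj hx, sum_mul]
    refine sum_le_sum fun k hk => ?_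
    rw [mem_Ioo] at hk
    have := (h.inv (h.kne hj hk.1 hk.2)).1
    exact mul_le_mul_of_nonneg_left (by linarith) (nb_nonneg _ _)
  have h2 : S * (1 / m0 - 22 / ((Q : ℝ) ^ 2 * n)) ≤ ∑ j ∈ J', Nx Q U E' j x := by
    rw [hS, sum_mul]
    refine sum_le_sum fun j hj => ?_
    rw [Nx_eq h.hE.sub hj hx, sum_mul]
    refine sum_le_sum fun k hk => ?_
    rw [mem_Ioo] at hk
    have := (h.inv (h.kne hj hk.1 hk.2)).2
    exact mul_le_mul_of_nonneg_left (by linarith) (nb_nonneg _ _)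
  have h3 : S * (22 / ((Q : ℝ) ^ 2 * n)) ≤ 22 / (Q : ℝ) ^ 2 := by
    rw [mul_div_assoc', div_le_div_iff₀ (by positivity) (by positivity)]
    nlinarith [show (0 : ℝ) < (Q : ℝ) ^ 2 by positivity]
  have h4 : |S * (1 / m0) - 1| ≤ 23 / (Q : ℝ) ^ 2 := by
    have e1 : S * (1 / m0) - 1 = (S - m0) / m0 := by field_simp
    rw [e1, abs_div, abs_of_pos hm0, div_le_div_iff₀ hm0 (by positivity)]
    have h5 : |S - m0| * (Q : ℝ) ^ 2 ≤ 22 * n := by
      rw [le_div_iff₀ (by positivity)] at hline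
      exact hline
    linarith
  rw [abs_le] at h4 ⊢
  have h6 : 23 / (Q : ℝ) ^ 2 + 22 / (Q : ℝ) ^ 2 ≤ 50 / (Q : ℝ) ^ 2 := by
    rw [← add_div]
    exact div_le_div_of_nonneg_right (by norm_num) (by positivity)
  constructor
  · linarith [h4.1]
  · have : (0 : ℝ) ≤ 22 / (Q : ℝ) ^ 2 := by positivity
    linarith [h4.2]

theorem devx (h : Set0 n Q U J' E') {x : ZMod n} (hx : Sum.inl x ∈ E') :
    ∃ κ : ℝ, 0 ≤ κ ∧ κ ≤ 3 * Q / n ∧ ∑ j ∈ J', |Nx Q U E' j x - κ| ≤ 3 / Q := by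
  have hR := h.rd
  have hm0 := hR.m0pos
  have hm1 := hR.m0
  have hN := hR.Npos
  have hq := hR.qpos
  have hd0 := hR.d0
  have hdle := hR.hd
  have hQ1 : 1 ≤ Q := by have := h.hQ; omega
  set m0 : ℝ := (n : ℝ) - 2 * ((Dt E').card : ℝ) with hm0def
  have hline := h.line x
  rw [← hm0def] at hline
  set S : ℝ := ∑ j ∈ J', ∑ k ∈ Ioo (j * Q) ((j + 1) * Q), nb E' k x with hS
  have hcard : ∀ j : ℕ, ((Ioo (j * Q) ((j + 1) * Q)).card : ℝ) = (Q : ℝ) - 1 := by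
    intro j
    rw [Nat.card_Ioo]
    have : (j + 1) * Q = j * Q + Q := by ring
    rw [this, show j * Q + Q - j * Q - 1 = Q - 1 by omega, Nat.cast_sub hQ1, Nat.cast_one]
  refine ⟨2 * ((Q : ℝ) - 1) * (1 / m0), ?_, ?_, ?_⟩
  · have : (1 : ℝ) ≤ Q := by exact_mod_cast hQ1
    have : 0 ≤ (Q : ℝ) - 1 := by linarith
    positivity
  · rw [mul_one_div, div_le_div_iff₀ hm0 hN]
    nlinarith
  · have h1 : ∀ j ∈ J', |Nx Q U E' j x - 2 * ((Q : ℝ) - 1) * (1 / m0)| ≤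
        ∑ k ∈ Ioo (j * Q) ((j + 1) * Q), ((2 - nb E' k x) * (1 / m0) +
          2 * (22 / ((Q : ℝ) ^ 2 * n))) := by
      intro j hj
      rw [Nx_eq h.hE.sub hj hx]
      have e1 : 2 * ((Q : ℝ) - 1) * (1 / m0) =
          ∑ k ∈ Ioo (j * Q) ((j + 1) * Q), 2 * (1 / m0) := by
        rw [sum_const, nsmul_eq_mul, hcard]
        ring
      rw [e1, ← sum_sub_distrib]
      refine (abs_sum_le_sum_abs _ _).trans (sum_le_sum fun k hk => ?_)
      rw [mem_Ioo] at hk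
      obtain ⟨i1, i2⟩ := h.inv (h.kne hj hk.1 hk.2)
      rw [← hm0def] at i1 i2
      have i3 := nb_nonneg (E' := E') k x
      have i4 := nb_le (E' := E') k x
      have i5 : (0 : ℝ) ≤ 1 / m0 := by positivity
      have e2 : nb E' k x * (1 / ((Mk E' k).card : ℝ)) - 2 * (1 / m0) =
          -((2 - nb E' k x) * (1 / m0) + nb E' k x * (1 / m0 - 1 / ((Mk E' k).card : ℝ))) := by
        ring
      rw [e2, abs_neg, abs_of_nonneg (add_nonneg (mul_nonneg (by linarith) i5)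
        (mul_nonneg i3 i1))]
      refine add_le_add le_rfl ?_
      exact mul_le_mul i4 i2 i1 (by norm_num)
    refine (sum_le_sum h1).trans ?_
    have e3 : ∑ j ∈ J', ∑ k ∈ Ioo (j * Q) ((j + 1) * Q), ((2 - nb E' k x) * (1 / m0) +
          2 * (22 / ((Q : ℝ) ^ 2 * n))) =
        (((n : ℝ) - ((Dt E').card : ℝ)) - S) * (1 / m0) +
          ((n : ℝ) - ((Dt E').card : ℝ)) * (22 / ((Q : ℝ) ^ 2 * n)) := by
      rw [← h.pairs, hS, sum_blocks, sum_blocks, sum_add_distrib, ← sum_mul, sum_sub_distrib,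
        sum_const, sum_const, nsmul_eq_mul, nsmul_eq_mul]
      ring
    rw [e3]
    have h4 : ((n : ℝ) - ((Dt E').card : ℝ)) * (22 / ((Q : ℝ) ^ 2 * n)) ≤ 22 / (Q : ℝ) ^ 2 := by
      rw [mul_div_assoc', div_le_div_iff₀ (by positivity) (by positivity)]
      nlinarith [show (0 : ℝ) < (Q : ℝ) ^ 2 by positivity]
    have h5 : (((n : ℝ) - ((Dt E').card : ℝ)) - S) ≤
        2 * n / Q + 22 * n / (Q : ℝ) ^ 2 := by
      have h6 := (abs_le.1 hline).1
      have h7 := hR.dle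
      linarith
    have h8 : (2 * (n : ℝ) / Q + 22 * n / (Q : ℝ) ^ 2) * (1 / m0) ≤ 2.5 / Q := by
      have h9 : 22 * (n : ℝ) / (Q : ℝ) ^ 2 ≤ 0.1 * n / Q := by
        rw [div_le_div_iff₀ (by positivity) hq]
        have := hR.hq
        nlinarith [mul_pos hN hq]
      have h10 : 2 * (n : ℝ) / Q + 22 * n / (Q : ℝ) ^ 2 ≤ 2.1 * n / Q := by
        have : 2 * (n : ℝ) / Q + 0.1 * n / Q = 2.1 * n / Q := by ring
        linarith
      refine (mul_le_mul_of_nonneg_right h10 (by positivity)).trans ?_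
      rw [mul_one_div, div_div, div_le_div_iff₀ (by positivity) hq]
      nlinarith
    have h11 : 22 / (Q : ℝ) ^ 2 ≤ 0.1 / Q := by
      rw [div_le_div_iff₀ (by positivity) hq]
      have := hR.hq
      nlinarith
    have h12 := mul_le_mul_of_nonneg_right h5 (show (0 : ℝ) ≤ 1 / m0 by positivity)
    have h13 : 2.5 / (Q : ℝ) + 0.1 / Q ≤ 3 / Q := by
      rw [← add_div]
      exact div_le_div_of_nonneg_right (by norm_num) hq.le
    linarith

/-! ### cross terms -/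

theorem addk_inj (hJ : J' ⊆ Blocks n Q) {k k' : ℕ}
    (hk : k ∈ J'.biUnion (fun j => Ioo (j * Q) ((j + 1) * Q)))
    (hk' : k' ∈ J'.biUnion (fun j => Ioo (j * Q) ((j + 1) * Q)))
    (h : (k : ZMod n) = (k' : ZMod n)) : k = k' := by
  have h1 := blocks_lt hJ hk
  have h2 := blocks_lt hJ hk'
  rw [ZMod.natCast_eq_natCast_iff'] at h
  unfold T1 at h1 h2
  rwa [Nat.mod_eq_of_lt (by omega), Nat.mod_eq_of_lt (by omega)] at h

theorem addk_ne (hJ : J' ⊆ Blocks n Q) {k k' : ℕ}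
    (hk : k ∈ J'.biUnion (fun j => Ioo (j * Q) ((j + 1) * Q)))
    (hk' : k' ∈ J'.biUnion (fun j => Ioo (j * Q) ((j + 1) * Q))) :
    (k : ZMod n) + (k' : ZMod n) ≠ 0 := by
  have h1 := blocks_lt hJ hk
  have h2 := blocks_lt hJ hk'
  intro h
  have h3 : ((k + k' : ℕ) : ZMod n) = 0 := by
    push_cast
    exact h
  rw [ZMod.natCast_eq_zero_iff] at h3
  have := Nat.le_of_dvd (by omega) h3
  unfold T1 at h1 h2
  omega

theorem cross (h : Set0 n Q U J' E') (β : Elt n → ℝ) (b : ℝ) (hb : ∀ y, |β y| ≤ b)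
    (h0 : ∀ y, y ∉ E' → β y = 0) (hs : (∑ x : ZMod n, β (Sum.inl x)) = 0)
    {x : ZMod n} (hx : Sum.inl x ∈ E') :
    |∑ j ∈ J', ∑ k ∈ Ioo (j * Q) ((j + 1) * Q),
      (pa Q U E' k x * β (Sum.inl (x - (k : ZMod n))) +
        pa Q U E' k (x + (k : ZMod n)) * β (Sum.inl (x + (k : ZMod n))))| ≤ 3 * b / Q := by
  have hR := h.rd
  have hm0 := hR.m0pos
  have hm1 := hR.m0
  have hN := hR.Npos
  have hq := hR.qpos
  have hd0 := hR.d0
  have hdle := hR.hd
  have hb0 : 0 ≤ b := (abs_nonneg _).trans (hb (Sum.inl x))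
  have hJ := h.hE.sub
  have hpairs := h.pairs
  set m0 : ℝ := (n : ℝ) - 2 * ((Dt E').card : ℝ) with hm0def
  set T : Finset ℕ := J'.biUnion (fun j => Ioo (j * Q) ((j + 1) * Q)) with hT
  set g : ℕ → ℝ := fun k => β (Sum.inl (x - (k : ZMod n))) + β (Sum.inl (x + (k : ZMod n)))
    with hg
  -- rewrite the sum
  have e1 : (∑ j ∈ J', ∑ k ∈ Ioo (j * Q) ((j + 1) * Q),
      (pa Q U E' k x * β (Sum.inl (x - (k : ZMod n))) +
        pa Q U E' k (x + (k : ZMod n)) * β (Sum.inl (x + (k : ZMod n))))) =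
      ∑ j ∈ J', ∑ k ∈ Ioo (j * Q) ((j + 1) * Q), (1 / ((Mk E' k).card : ℝ)) * g k := by
    refine sum_congr rfl fun j hj => sum_congr rfl fun k hk => ?_
    rw [mem_Ioo] at hk
    have hk' := (blk hJ hj hk.1 hk.2).2.2
    rw [pa_x hk' hx, pa_xk hk' hx]
    have hβ : ∀ y : Elt n, (if y ∈ E' then (1 : ℝ) else 0) * (1 / ((Mk E' k).card : ℝ)) * β y =
        (1 / ((Mk E' k).card : ℝ)) * β y := by
      intro y
      by_cases hy : y ∈ E'
      · rw [if_pos hy, one_mul]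
      · rw [h0 y hy, mul_zero, mul_zero]
    rw [hβ, hβ, hg]
    ring
  rw [e1, sum_blocks, ← hT]
  have e2 : ∑ k ∈ T, (1 / ((Mk E' k).card : ℝ)) * g k = (1 / m0) * ∑ k ∈ T, g k -
      ∑ k ∈ T, (1 / m0 - 1 / ((Mk E' k).card : ℝ)) * g k := by
    rw [mul_sum, ← sum_sub_distrib]
    refine sum_congr rfl fun k _ => ?_
    ring
  rw [e2]
  have hgb : ∀ k, |g k| ≤ 2 * b := fun k => by
    have := abs_add_le (β (Sum.inl (x - (k : ZMod n)))) (β (Sum.inl (x + (k : ZMod n))))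
    have h1 := hb (Sum.inl (x - (k : ZMod n)))
    have h2 := hb (Sum.inl (x + (k : ZMod n)))
    simp only [hg]
    linarith
  have b1 : |∑ k ∈ T, (1 / m0 - 1 / ((Mk E' k).card : ℝ)) * g k| ≤ 22 * b / (Q : ℝ) ^ 2 := by
    have h1 : |∑ k ∈ T, (1 / m0 - 1 / ((Mk E' k).card : ℝ)) * g k| ≤
        ∑ k ∈ T, (22 / ((Q : ℝ) ^ 2 * n)) * (2 * b) := by
      refine (abs_sum_le_sum_abs _ _).trans (sum_le_sum fun k hk => ?_)
      have hk1 := blocks_lt hJ hk
      obtain ⟨i1, i2⟩ := h.inv (cast_ne hk1.1 (by omega) h.n4)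
      rw [abs_mul, abs_of_nonneg i1]
      exact mul_le_mul i2 (hgb k) (abs_nonneg _) (by positivity)
    refine h1.trans ?_
    rw [sum_const, nsmul_eq_mul]
    have h2 : ((T.card : ℕ) : ℝ) * (22 / ((Q : ℝ) ^ 2 * n) * (2 * b)) =
        (2 * ((T.card : ℕ) : ℝ)) * (22 * b / ((Q : ℝ) ^ 2 * n)) := by ring
    rw [h2, hpairs]
    have h3 : (n : ℝ) * (22 * b / ((Q : ℝ) ^ 2 * n)) = 22 * b / (Q : ℝ) ^ 2 := by
      field_simp
    rw [← h3]
    refine mul_le_mul_of_nonneg_right (by linarith) (by positivity)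
  -- the main sum
  have b2 : |∑ k ∈ T, g k| ≤ ((Dt E').card : ℝ) * b := by
    set A : Finset (ZMod n) := T.image fun k : ℕ => x - (k : ZMod n) with hA
    set B : Finset (ZMod n) := T.image fun k : ℕ => x + (k : ZMod n) with hB
    have hAinj : Set.InjOn (fun k : ℕ => x - (k : ZMod n)) (T : Set ℕ) := by
      intro k hk k' hk' hkk
      refine addk_inj hJ hk hk' ?_
      have : x - (k : ZMod n) = x - (k' : ZMod n) := hkk
      linear_combination -this
    have hBinj : Set.InjOn (fun k : ℕ => x + (k : ZMod n)) (T : Set ℕ) := by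
      intro k hk k' hk' hkk
      refine addk_inj hJ hk hk' ?_
      have : x + (k : ZMod n) = x + (k' : ZMod n) := hkk
      linear_combination this
    have hAB : Disjoint A B := by
      rw [disjoint_left]
      intro y hy1 hy2
      rw [hA, mem_image] at hy1
      rw [hB, mem_image] at hy2
      obtain ⟨k, hk, rfl⟩ := hy1
      obtain ⟨k', hk', hkk⟩ := hy2
      refine addk_ne hJ hk hk' ?_
      linear_combination hkk
    have hcA : A.card = T.card := card_image_of_injOn hAinj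
    have hcB : B.card = T.card := card_image_of_injOn hBinj
    have s1 : ∑ k ∈ T, g k = ∑ y ∈ A ∪ B, β (Sum.inl y) := by
      rw [sum_union hAB, hA, hB, sum_image hAinj, sum_image hBinj, ← sum_add_distrib]
    have s2 : ∑ y ∈ A ∪ B, β (Sum.inl y) = -∑ y ∈ (A ∪ B)ᶜ, β (Sum.inl y) := by
      have := sum_add_sum_compl (A ∪ B) fun y => β (Sum.inl y)
      rw [hs] at this
      linarith
    have s3 : ((((A ∪ B)ᶜ).card : ℕ) : ℝ) = ((Dt E').card : ℝ) := by
      have h1 : ((A ∪ B)ᶜ).card + (A ∪ B).card = n := by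
        rw [card_compl, ZMod.card]
        have := card_le_univ (A ∪ B)
        rw [ZMod.card] at this
        omega
      rw [card_union_of_disjoint hAB, hcA, hcB] at h1
      have h2 : ((((A ∪ B)ᶜ).card : ℕ) : ℝ) + (((T.card : ℕ) : ℝ) + ((T.card : ℕ) : ℝ)) =
          (n : ℝ) := by exact_mod_cast h1
      linarith
    rw [s1, s2, abs_neg, ← s3, ← nsmul_eq_mul, ← sum_const]
    exact (abs_sum_le_sum_abs _ _).trans (sum_le_sum fun y _ => hb _)
  have b3 : |1 / m0 * ∑ k ∈ T, g k| ≤ 2.1 * b / Q := by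
    rw [abs_mul, abs_of_pos (show 0 < 1 / m0 by positivity)]
    refine (mul_le_mul_of_nonneg_left b2 (show 0 ≤ 1 / m0 by positivity)).trans ?_
    rw [one_div_mul_eq_div, div_le_div_iff₀ hm0 hq]
    have h1 : (Q : ℝ) * ((Dt E').card : ℝ) ≤ 2.1 * m0 := by linarith
    nlinarith
  have b4 : 22 * b / (Q : ℝ) ^ 2 ≤ 0.1 * b / Q := by
    rw [div_le_div_iff₀ (by positivity) hq]
    have h1 := hR.hq
    have h2 : 22 * (Q : ℝ) ≤ 0.1 * (Q : ℝ) ^ 2 := by nlinarith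
    nlinarith
  refine (abs_sub _ _).trans ?_
  have b5 : 2.1 * b / (Q : ℝ) + 0.1 * b / Q ≤ 3 * b / Q := by
    rw [← add_div]
    exact div_le_div_of_nonneg_right (by linarith) hq.le
  linarith

/-! ### interior edges -/

theorem RD.m0n {q N d : ℝ} (h : RD q N d) : 1 / (N - 2 * d) ≤ 2 / N := by
  have h1 := h.m0pos
  have h2 := h.m0
  have h3 := h.Npos
  rw [div_le_div_iff₀ h1 h3]
  linarith

theorem Set0.le_m0 (h : Set0 n Q U J' E') {k : ℕ} (hk : (k : ZMod n) ≠ 0) :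
    1 / ((Mk E' k).card : ℝ) ≤ 1 / ((n : ℝ) - 2 * ((Dt E').card : ℝ)) := by
  have := (h.inv hk).1
  linarith

theorem inner_one (h : Set0 n Q U J' E') {j k : ℕ} (hj : j ∈ J') (h1 : j * Q < k)
    (h2 : k + 1 < (j + 1) * Q) {w : ZMod n} (hw : ClOk w) :
    |pe Q U E' k w - 1 / n| ≤ 150 / ((Q : ℝ) ^ 2 * n) +
      (if (k : ZMod n) = w - 1 then 2 / (n : ℝ) else 0) +
      (if (k : ZMod n) = -w then 2 / (n : ℝ) else 0) := by
  have hR := h.rd
  have hN := hR.Npos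
  have hq := hR.qpos
  have hk := h.kne hj h1 (by omega)
  have hk1 := h.kne (k := k + 1) hj (by omega) (by omega)
  have hk1' : (k : ZMod n) + 1 ≠ 0 := by
    intro h0
    apply hk1
    push_cast
    exact h0
  have hf := (blk h.hE.sub hj h1 (by omega)).2.2
  have hf1 := (blk (k := k + 1) h.hE.sub hj (by omega) (by omega)).2.2
  have hpos : (0 : ℝ) ≤ 150 / ((Q : ℝ) ^ 2 * n) := by positivity
  have h2n : (0 : ℝ) ≤ 2 / (n : ℝ) := by positivity
  by_cases hA : (k : ZMod n) = w - 1 ∨ (k : ZMod n) = -w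
  · have h3 : |pe Q U E' k w - 1 / n| ≤ 2 / (n : ℝ) := by
      have h4 : pe Q U E' k w ≤ 2 / (n : ℝ) := by
        rw [pe_int hf hf1]
        have h5 : ((Lw E' k w).card : ℝ) * (1 / ((Mk E' k).card : ℝ)) ≤ 1 := by
          rw [mul_one_div]
          refine div_le_one_of_le₀ ?_ (by positivity)
          exact_mod_cast Lw_le k w
        calc ((Lw E' k w).card : ℝ) *
              (1 / ((Mk E' k).card : ℝ) * (1 / ((Mk E' (k + 1)).card : ℝ)))
            = ((Lw E' k w).card : ℝ) * (1 / ((Mk E' k).card : ℝ)) *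
                (1 / ((Mk E' (k + 1)).card : ℝ)) := by ring
          _ ≤ 1 * (1 / ((Mk E' (k + 1)).card : ℝ)) :=
              mul_le_mul_of_nonneg_right h5 (by positivity)
          _ = 1 / ((Mk E' (k + 1)).card : ℝ) := one_mul _
          _ ≤ 1 / ((n : ℝ) - 2 * ((Dt E').card : ℝ)) := h.le_m0 hk1
          _ ≤ 2 / (n : ℝ) := hR.m0n
      have h5 := pe_nonneg (Q := Q) (U := U) (E' := E') k w
      have h6 : (0 : ℝ) ≤ 1 / (n : ℝ) := by positivity
      have h7 : 1 / (n : ℝ) ≤ 2 / (n : ℝ) := div_le_div_of_nonneg_right (by norm_num) hN.le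
      rw [abs_le]
      constructor <;> linarith
    rcases hA with hA | hA
    · rw [if_pos hA]
      have : (0 : ℝ) ≤ (if (k : ZMod n) = -w then 2 / (n : ℝ) else 0) := by
        split_ifs
        · exact h2n
        · exact le_rfl
      linarith
    · rw [if_pos hA]
      have : (0 : ℝ) ≤ (if (k : ZMod n) = w - 1 then 2 / (n : ℝ) else 0) := by
        split_ifs
        · exact h2n
        · exact le_rfl
      linarith
  · rw [not_or] at hA
    rw [if_neg hA.1, if_neg hA.2, add_zero, add_zero, pe_int hf hf1]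
    obtain ⟨m1, m2⟩ := MkR h.hQ h.hE hk
    obtain ⟨m1', m2'⟩ := MkR h.hQ h.hE hk1
    obtain ⟨l1, l2⟩ := LwR h.hQ h.hE hk hk1' hw.1 hw.2.1
      (fun h0 => hA.1 (by rw [h0]; ring)) (fun h0 => hA.2 (by rw [h0]; ring))
    exact hR.prob m1 m2 m1' m2' l1 l2

theorem one_le (hJ : J' ⊆ Blocks n Q) (v : ZMod n) {c : ℝ} (hc : 0 ≤ c) :
    ∑ k ∈ J'.biUnion (fun j => Ioo (j * Q) ((j + 1) * Q)),
      (if (k : ZMod n) = v then c else 0) ≤ c := by
  rw [← sum_filter, sum_const, nsmul_eq_mul]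
  have h1 : ((J'.biUnion (fun j => Ioo (j * Q) ((j + 1) * Q))).filter fun k : ℕ =>
      (k : ZMod n) = v).card ≤ 1 := by
    rw [card_le_one]
    intro a ha b hb
    rw [mem_filter] at ha hb
    exact addk_inj hJ ha.1 hb.1 (ha.2.trans hb.2.symm)
  have h2 : ((((J'.biUnion (fun j => Ioo (j * Q) ((j + 1) * Q))).filter fun k : ℕ =>
      (k : ZMod n) = v).card : ℕ) : ℝ) ≤ 1 := by exact_mod_cast h1
  nlinarith

theorem inner (h : Set0 n Q U J' E') {w : ZMod n} (hw : ClOk w) :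
    ∑ j ∈ J', ∑ k ∈ Ioo (j * Q) ((j + 1) * Q - 1), |pe Q U E' k w - 1 / n| ≤
      76 / (Q : ℝ) ^ 2 := by
  have hR := h.rd
  have hN := hR.Npos
  have hq := hR.qpos
  have hd0 := hR.d0
  have h2n : (0 : ℝ) ≤ 2 / (n : ℝ) := by positivity
  have hterm : ∀ k : ℕ, (0 : ℝ) ≤ 150 / ((Q : ℝ) ^ 2 * n) +
      (if (k : ZMod n) = w - 1 then 2 / (n : ℝ) else 0) +
      (if (k : ZMod n) = -w then 2 / (n : ℝ) else 0) := by
    intro k
    have hpos : (0 : ℝ) ≤ 150 / ((Q : ℝ) ^ 2 * n) := by positivity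
    split_ifs <;> linarith
  have h1 : ∑ j ∈ J', ∑ k ∈ Ioo (j * Q) ((j + 1) * Q - 1), |pe Q U E' k w - 1 / n| ≤
      ∑ j ∈ J', ∑ k ∈ Ioo (j * Q) ((j + 1) * Q), (150 / ((Q : ℝ) ^ 2 * n) +
        (if (k : ZMod n) = w - 1 then 2 / (n : ℝ) else 0) +
        (if (k : ZMod n) = -w then 2 / (n : ℝ) else 0)) := by
    refine sum_le_sum fun j hj => ?_
    refine (sum_le_sum fun k hk => ?_).trans
      (sum_le_sum_of_subset_of_nonneg (fun k hk => ?_) fun k _ _ => hterm k)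
    · rw [mem_Ioo] at hk
      exact inner_one h hj hk.1 (by omega) hw
    · rw [mem_Ioo] at hk ⊢
      omega
  refine h1.trans ?_
  rw [sum_blocks, sum_add_distrib, sum_add_distrib, sum_const, nsmul_eq_mul]
  have h3 := one_le h.hE.sub (w - 1) h2n
  have h4 := one_le h.hE.sub (-w) h2n
  have h5 := h.pairs
  have h6 : (((J'.biUnion (fun j => Ioo (j * Q) ((j + 1) * Q))).card : ℕ) : ℝ) *
      (150 / ((Q : ℝ) ^ 2 * n)) ≤ 75 / (Q : ℝ) ^ 2 := by
    rw [mul_div_assoc', div_le_div_iff₀ (by positivity) (by positivity)]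
    have : (0 : ℝ) < (Q : ℝ) ^ 2 := by positivity
    nlinarith
  have h7 : 2 / (n : ℝ) ≤ 0.5 / (Q : ℝ) ^ 2 := by
    rw [div_le_div_iff₀ hN (by positivity)]
    have := hR.hN
    linarith
  have h8 : 75 / (Q : ℝ) ^ 2 + 0.5 / (Q : ℝ) ^ 2 + 0.5 / (Q : ℝ) ^ 2 = 76 / (Q : ℝ) ^ 2 := by
    ring
  linarith

/-! ### end edges -/

theorem end_count (hE : Est n Q U J' E') (V : ℕ → ZMod n) (hV : ∀ j ∈ J', Sum.inl (V j) ∉ E')
    (hinj : ∀ i ∈ J', ∀ j ∈ J', V i = V j → i = j) {s : ZMod n} (hs : s ≠ 0) :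
    Q ^ 2 * (J'.filter fun j => Sum.inl (V j + s) ∉ E').card ≤ 21 * n := by
  refine le_trans (Nat.mul_le_mul_left _ ?_) (sh_inter hE (Ne.symm hs))
  refine card_le_card_of_injOn (fun j => V j + s) ?_ ?_
  · intro j hj
    rw [mem_coe, mem_filter] at hj
    rw [mem_coe, mem_inter, mem_sh, mem_sh, sub_zero, add_sub_cancel_right]
    exact ⟨hj.2, hV j hj.1⟩
  · intro i hi j hj hij
    rw [mem_coe, mem_filter] at hi hj
    exact hinj i hi.1 j hj.1 (add_right_cancel hij)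

/-- the sum over the end edges -/
theorem end_sum (h : Set0 n Q U J' E') (V W : ℕ → ZMod n) (kk : ℕ → ℕ) {s t : ZMod n}
    (hs : s ≠ 0) (ht : t ≠ 0) (hV : ∀ j ∈ J', Sum.inl (V j) ∉ E')
    (hW : ∀ j ∈ J', Sum.inl (W j) ∉ E') (hVi : ∀ i ∈ J', ∀ j ∈ J', V i = V j → i = j)
    (hWi : ∀ i ∈ J', ∀ j ∈ J', W i = W j → i = j) (hk : ∀ j ∈ J', ((kk j : ℕ) : ZMod n) ≠ 0)
    (hc : ∀ j ∈ J', V j + s - (kk j : ZMod n) = W j + t) :
    |(∑ j ∈ J', (if V j + s ∈ Mk E' (kk j) then (1 : ℝ) else 0) *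
        (1 / ((Mk E' (kk j)).card : ℝ))) - (J'.card : ℝ) / n| ≤ 43 / (Q : ℝ) ^ 2 ∧
      (∑ j ∈ J', (if V j + s ∈ Mk E' (kk j) then (1 : ℝ) else 0) *
        (1 / ((Mk E' (kk j)).card : ℝ))) ≤ 0.51 / Q := by
  have hR := h.rd
  have hm0 := hR.m0pos
  have hm1 := hR.m0
  have hN := hR.Npos
  have hq := hR.qpos
  have hq5 := hR.hq
  have hd0 := hR.d0
  have hdle := hR.hd
  set d : ℝ := ((Dt E').card : ℝ) with hd
  set m0 : ℝ := (n : ℝ) - 2 * d with hm0def
  set c : ℝ := (J'.card : ℝ) with hcdef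
  set S : ℝ := ∑ j ∈ J', (if V j + s ∈ Mk E' (kk j) then (1 : ℝ) else 0) *
        (1 / ((Mk E' (kk j)).card : ℝ)) with hS
  have hjc : 2 * (Q : ℝ) * c ≤ n := by
    have := h.hE.jc
    rw [hcdef]
    exact_mod_cast this
  have hc0 : 0 ≤ c := by positivity
  -- counting
  have hbad : (Q : ℝ) ^ 2 * (c - ∑ j ∈ J', (if V j + s ∈ Mk E' (kk j) then (1 : ℝ) else 0)) ≤
      42 * n := by
    have b1 := end_count h.hE V hV hVi hs
    have b2 := end_count h.hE W hW hWi ht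
    have b3 : (J'.filter fun j => ¬ (V j + s ∈ Mk E' (kk j))).card ≤
        (J'.filter fun j => Sum.inl (V j + s) ∉ E').card +
          (J'.filter fun j => Sum.inl (W j + t) ∉ E').card := by
      refine (card_le_card ?_).trans (card_union_le _ _)
      intro j hj
      rw [mem_filter] at hj
      rw [mem_union, mem_filter, mem_filter]
      by_contra hcon
      rw [not_or, not_and_not_right, not_and_not_right] at hcon
      apply hj.2
      unfold Mk
      rw [mem_filter, hc j hj.1]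
      exact ⟨mem_univ _, hcon.1 hj.1, hcon.2 hj.1⟩
    have b4 : c - ∑ j ∈ J', (if V j + s ∈ Mk E' (kk j) then (1 : ℝ) else 0) =
        (((J'.filter fun j => ¬ (V j + s ∈ Mk E' (kk j))).card : ℕ) : ℝ) := by
      rw [sum_boole, hcdef]
      have := card_filter_add_card_filter_not (s := J') (fun j => V j + s ∈ Mk E' (kk j))
      have h2 : (((J'.filter fun j => V j + s ∈ Mk E' (kk j)).card : ℕ) : ℝ) +
        (((J'.filter fun j => ¬ (V j + s ∈ Mk E' (kk j))).card : ℕ) : ℝ) =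
          ((J'.card : ℕ) : ℝ) := by exact_mod_cast this
      linarith
    rw [b4]
    have b5 : Q ^ 2 * (J'.filter fun j => ¬ (V j + s ∈ Mk E' (kk j))).card ≤ 42 * n := by
      refine (Nat.mul_le_mul_left (Q ^ 2) b3).trans ?_
      rw [Nat.mul_add]
      omega
    exact_mod_cast b5
  set g : ℝ := ∑ j ∈ J', (if V j + s ∈ Mk E' (kk j) then (1 : ℝ) else 0) with hg
  have hgc : g ≤ c := by
    rw [hg, sum_boole, hcdef]
    exact_mod_cast card_filter_le _ _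
  -- upper bound
  have hup : S ≤ c * (1 / m0) := by
    have h1 : S ≤ g * (1 / m0) := by
      rw [hS, hg, sum_mul]
      refine sum_le_sum fun j hj => ?_
      refine mul_le_mul_of_nonneg_left (h.le_m0 (hk j hj)) ?_
      split_ifs <;> norm_num
    exact h1.trans (mul_le_mul_of_nonneg_right hgc (by positivity))
  have hlo : g * (1 / m0 - 22 / ((Q : ℝ) ^ 2 * n)) ≤ S := by
    rw [hS, hg, sum_mul]
    refine sum_le_sum fun j hj => ?_
    have := (h.inv (hk j hj)).2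
    refine mul_le_mul_of_nonneg_left (by linarith) ?_
    split_ifs <;> norm_num
  have hq2 : (0 : ℝ) < (Q : ℝ) ^ 2 := by positivity
  have hq22 : (22 : ℝ) ≤ (Q : ℝ) ^ 2 := by nlinarith
  have hc22 : 44 * c ≤ n := by nlinarith
  have hδ : 0 ≤ 1 / m0 - 22 / ((Q : ℝ) ^ 2 * n) := by
    rw [sub_nonneg, div_le_div_iff₀ (by positivity) hm0]
    have : 22 * (n : ℝ) ≤ (Q : ℝ) ^ 2 * n := mul_le_mul_of_nonneg_right hq22 hN.le
    linarith
  have hglo : c - 42 * n / (Q : ℝ) ^ 2 ≤ g := by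
    have : c - g ≤ 42 * n / (Q : ℝ) ^ 2 := by
      rw [le_div_iff₀ hq2]
      linarith
    linarith
  have hlo2 : c * (1 / m0) - 43 / (Q : ℝ) ^ 2 ≤ S := by
    refine le_trans ?_ hlo
    refine le_trans ?_ (mul_le_mul_of_nonneg_right hglo hδ)
    have e1 : (c - 42 * n / (Q : ℝ) ^ 2) * (1 / m0 - 22 / ((Q : ℝ) ^ 2 * n)) =
        c * (1 / m0) - c * (22 / ((Q : ℝ) ^ 2 * n)) - 42 * n / (Q : ℝ) ^ 2 * (1 / m0) +
          42 * n / (Q : ℝ) ^ 2 * (22 / ((Q : ℝ) ^ 2 * n)) := by ring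
    rw [e1]
    have e2 : c * (22 / ((Q : ℝ) ^ 2 * n)) ≤ 0.5 / (Q : ℝ) ^ 2 := by
      rw [mul_div_assoc', div_le_div_iff₀ (by positivity) hq2]
      have : (44 * c) * (Q : ℝ) ^ 2 ≤ n * (Q : ℝ) ^ 2 := mul_le_mul_of_nonneg_right hc22 hq2.le
      linarith
    have e3 : 42 * n / (Q : ℝ) ^ 2 * (1 / m0) ≤ 42.5 / (Q : ℝ) ^ 2 := by
      rw [mul_one_div, div_div, div_le_div_iff₀ (by positivity) hq2]
      nlinarith
    have e4 : (0 : ℝ) ≤ 42 * n / (Q : ℝ) ^ 2 * (22 / ((Q : ℝ) ^ 2 * n)) := by positivity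
    have e5 : 0.5 / (Q : ℝ) ^ 2 + 42.5 / (Q : ℝ) ^ 2 = 43 / (Q : ℝ) ^ 2 := by ring
    linarith
  have hcn : c / n ≤ c * (1 / m0) := by
    rw [mul_one_div]
    refine div_le_div_of_nonneg_left hc0 hm0 (by linarith)
  constructor
  · rw [abs_le]
    constructor
    · linarith
    · have h1 : c * (1 / m0) - c / n ≤ 43 / (Q : ℝ) ^ 2 := by
        have e1 : c * (1 / m0) - c / n = (c * (2 * d)) / (m0 * n) := by
          have e0 : 2 * d = n - m0 := by
            rw [hm0def]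
            ring
          rw [e0]
          field_simp
        rw [e1, div_le_div_iff₀ (by positivity) hq2]
        have e2 : c * (2 * d) * (Q : ℝ) ^ 2 = (2 * (Q : ℝ) * c) * (Q * d) := by ring
        have e3 : (2 * (Q : ℝ) * c) * (Q * d) ≤ n * (2 * n) :=
          mul_le_mul hjc hdle (by positivity) hN.le
        rw [e2]
        nlinarith
      linarith
  · refine hup.trans ?_
    rw [mul_one_div, div_le_div_iff₀ hm0 hq]
    linarith

theorem split_Ico {a b : ℕ} (h : a + 2 ≤ b) (g : ℕ → ℝ) :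
    ∑ k ∈ Ico a b, g k = g a + ∑ k ∈ Ioo a (b - 1), g k + g (b - 1) := by
  obtain ⟨c, rfl⟩ : ∃ c, b = c + 1 := ⟨b - 1, by omega⟩
  rw [sum_Ico_succ_top (by omega), sum_eq_sum_Ico_succ_bot (by omega)]
  have : Ioo a (c + 1 - 1) = Ico (a + 1) c := by
    ext x
    rw [mem_Ioo, mem_Ico]
    omega
  rw [this, Nat.add_sub_cancel]

theorem pe_left {k : ℕ} (hk : Q ∣ k) (w : ZMod n) :
    pe Q U E' k w = pa Q U E' (k + 1) (U k + w) := by
  unfold pe
  rw [sum_eq_single (U k)]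
  · have : pa Q U E' k (U k) = 1 := by
      unfold pa
      rw [if_pos hk, if_pos rfl]
    rw [this, one_mul]
  · intro x _ hx
    have : pa Q U E' k x = 0 := by
      unfold pa
      rw [if_pos hk, if_neg hx]
    rw [this, zero_mul]
  · intro h
    exact absurd (mem_univ _) h

theorem pe_right {k : ℕ} (hk : Q ∣ k + 1) (w : ZMod n) :
    pe Q U E' k w = pa Q U E' k (U (k + 1) - w) := by
  unfold pe
  rw [sum_eq_single (U (k + 1) - w)]
  · have : pa Q U E' (k + 1) (U (k + 1) - w + w) = 1 := by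
      unfold pa
      rw [if_pos hk, if_pos (sub_add_cancel _ _)]
    rw [this, mul_one]
  · intro x _ hx
    have : pa Q U E' (k + 1) (x + w) = 0 := by
      unfold pa
      rw [if_pos hk, if_neg (fun h0 => hx (eq_sub_of_add_eq h0))]
    rw [this, mul_zero]
  · intro h
    exact absurd (mem_univ _) h

theorem fixT_left (hJ : J' ⊆ Blocks n Q) (hQ : 1 ≤ Q) {j : ℕ} (hj : j ∈ J') :
    j * Q ∈ FixT n Q ∧ (j + 1) * Q ∈ FixT n Q := by
  have hj' := hJ hj
  unfold Blocks at hj'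
  rw [mem_Ico] at hj'
  have h3 : (j + 1) * Q ≤ J1 n Q * Q := Nat.mul_le_mul_right Q (by omega)
  have h4 : J1 n Q * Q ≤ T1 n := Nat.div_mul_le_self _ _
  have h5 : 1 * 1 ≤ j * Q := Nat.mul_le_mul hj'.1 hQ
  have h6 : (j + 1) * Q = j * Q + Q := by ring
  have h7 : T0 n ≤ 1 := by
    unfold T0
    omega
  unfold FixT
  rw [mem_filter, mem_filter, mem_Icc, mem_Icc]
  exact ⟨⟨⟨by omega, by omega⟩, Or.inr (Or.inl (Dvd.intro_left _ rfl))⟩,
    ⟨⟨by omega, by omega⟩, Or.inr (Or.inl (Dvd.intro_left _ rfl))⟩⟩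

theorem left_end (h : Set0 n Q U J' E') {w : ZMod n} (hw : ClOk w) :
    |(∑ j ∈ J', pe Q U E' (j * Q) w) - (J'.card : ℝ) / n| ≤ 43 / (Q : ℝ) ^ 2 ∧
      (∑ j ∈ J', pe Q U E' (j * Q) w) ≤ 0.51 / Q := by
  have hQ := h.hQ
  have hQ2 : 2 ≤ Q := by omega
  have hbk : ∀ j ∈ J', ¬ Q ∣ (j * Q + 1) := fun j hj =>
    (blk h.hE.sub hj (by omega) (by rw [show (j + 1) * Q = j * Q + Q by ring]; omega)).2.2
  have e1 : ∑ j ∈ J', pe Q U E' (j * Q) w = ∑ j ∈ J',
      (if U (j * Q) + w ∈ Mk E' (j * Q + 1) then (1 : ℝ) else 0) *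
        (1 / ((Mk E' (j * Q + 1)).card : ℝ)) := by
    refine sum_congr rfl fun j hj => ?_
    rw [pe_left (Dvd.intro_left _ rfl), pa_free (hbk j hj)]
  rw [e1]
  refine end_sum h (fun j => U (j * Q)) (fun j => U (j * Q) - ((j * Q : ℕ) : ZMod n))
    (fun j => j * Q + 1) (s := w) (t := w - 1) hw.1 (sub_ne_zero.2 hw.2.1)
    (fun j hj => (h.hE.anch j hj).1) (fun j hj => (h.hE.anch j hj).2.1) ?_ ?_ ?_ ?_
  · intro i hi j hj hij
    have := h.hE.fix.up _ (fixT_left h.hE.sub (by omega) hi).1 _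
      (fixT_left h.hE.sub (by omega) hj).1 hij
    exact Nat.eq_of_mul_eq_mul_right (by omega) this
  · intro i hi j hj hij
    have := h.hE.fix.lo _ (fixT_left h.hE.sub (by omega) hi).1 _
      (fixT_left h.hE.sub (by omega) hj).1 hij
    exact Nat.eq_of_mul_eq_mul_right (by omega) this
  · intro j hj
    exact h.kne (k := j * Q + 1) hj (by omega)
      (by rw [show (j + 1) * Q = j * Q + Q by ring]; omega)
  · intro j _
    push_cast
    ring

theorem right_end (h : Set0 n Q U J' E') {w : ZMod n} (hw : ClOk w) :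
    |(∑ j ∈ J', pe Q U E' ((j + 1) * Q - 1) w) - (J'.card : ℝ) / n| ≤ 43 / (Q : ℝ) ^ 2 ∧
      (∑ j ∈ J', pe Q U E' ((j + 1) * Q - 1) w) ≤ 0.51 / Q := by
  have hQ := h.hQ
  have hQ2 : 2 ≤ Q := by omega
  have hsub : ∀ j : ℕ, (j + 1) * Q - 1 + 1 = (j + 1) * Q := fun j => by
    rw [show (j + 1) * Q = j * Q + Q by ring]
    omega
  have hbk : ∀ j ∈ J', ¬ Q ∣ ((j + 1) * Q - 1) := fun j hj =>
    (blk h.hE.sub hj (by rw [show (j + 1) * Q = j * Q + Q by ring]; omega)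
      (by rw [show (j + 1) * Q = j * Q + Q by ring]; omega)).2.2
  have e1 : ∑ j ∈ J', pe Q U E' ((j + 1) * Q - 1) w = ∑ j ∈ J',
      (if U ((j + 1) * Q) + -w ∈ Mk E' ((j + 1) * Q - 1) then (1 : ℝ) else 0) *
        (1 / ((Mk E' ((j + 1) * Q - 1)).card : ℝ)) := by
    refine sum_congr rfl fun j hj => ?_
    rw [pe_right (by rw [hsub]; exact Dvd.intro_left _ rfl), pa_free (hbk j hj), hsub,
      sub_eq_add_neg]
  rw [e1]
  refine end_sum h (fun j => U ((j + 1) * Q))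
    (fun j => U ((j + 1) * Q) - (((j + 1) * Q : ℕ) : ZMod n))
    (fun j => (j + 1) * Q - 1) (s := -w) (t := 1 - w) (neg_ne_zero.2 hw.1)
    (sub_ne_zero.2 (Ne.symm hw.2.1))
    (fun j hj => (h.hE.anch j hj).2.2.1) (fun j hj => (h.hE.anch j hj).2.2.2) ?_ ?_ ?_ ?_
  · intro i hi j hj hij
    have := h.hE.fix.up _ (fixT_left h.hE.sub (by omega) hi).2 _
      (fixT_left h.hE.sub (by omega) hj).2 hij
    have := Nat.eq_of_mul_eq_mul_right (by omega) this
    omega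
  · intro i hi j hj hij
    have := h.hE.fix.lo _ (fixT_left h.hE.sub (by omega) hi).2 _
      (fixT_left h.hE.sub (by omega) hj).2 hij
    have := Nat.eq_of_mul_eq_mul_right (by omega) this
    omega
  · intro j hj
    exact h.kne (k := (j + 1) * Q - 1) hj
      (by rw [show (j + 1) * Q = j * Q + Q by ring]; omega)
      (by rw [show (j + 1) * Q = j * Q + Q by ring]; omega)
  · intro j _
    have h1 : (((j + 1) * Q - 1 : ℕ) : ZMod n) + 1 = (((j + 1) * Q : ℕ) : ZMod n) := by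
      have := congrArg (fun m : ℕ => (m : ZMod n)) (hsub j)
      simpa using this
    linear_combination -h1

/-- half of the multiplicity of a class -/
theorem half (h : Set0 n Q U J' E') {w : ZMod n} (hw : ClOk w) :
    |(∑ j ∈ J', ∑ k ∈ Ico (j * Q) ((j + 1) * Q), pe Q U E' k w) - Q * (J'.card : ℝ) / n| ≤
        162 / (Q : ℝ) ^ 2 ∧
      ∑ j ∈ J', |(∑ k ∈ Ico (j * Q) ((j + 1) * Q), pe Q U E' k w) - ((Q : ℝ) - 2) / n| ≤
        76 / (Q : ℝ) ^ 2 + 1.02 / Q := by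
  have hQ := h.hQ
  have hR := h.rd
  have hN := hR.Npos
  have hq := hR.qpos
  obtain ⟨l1, l2⟩ := left_end h hw
  obtain ⟨r1, r2⟩ := right_end h hw
  have i1 := inner h hw
  have hcard : ∀ j : ℕ, ((Ioo (j * Q) ((j + 1) * Q - 1)).card : ℝ) = (Q : ℝ) - 2 := by
    intro j
    rw [Nat.card_Ioo]
    have : (j + 1) * Q = j * Q + Q := by ring
    rw [this, show j * Q + Q - 1 - j * Q - 1 = Q - 2 by omega, Nat.cast_sub (by omega)]
    norm_num
  have e1 : ∀ j : ℕ, (∑ k ∈ Ico (j * Q) ((j + 1) * Q), pe Q U E' k w) - ((Q : ℝ) - 2) / n =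
      pe Q U E' (j * Q) w + (∑ k ∈ Ioo (j * Q) ((j + 1) * Q - 1), (pe Q U E' k w - 1 / n)) +
        pe Q U E' ((j + 1) * Q - 1) w := by
    intro j
    rw [split_Ico (by rw [show (j + 1) * Q = j * Q + Q by ring]; omega), sum_sub_distrib,
      sum_const, nsmul_eq_mul, hcard]
    ring
  have i2 : |∑ j ∈ J', ∑ k ∈ Ioo (j * Q) ((j + 1) * Q - 1), (pe Q U E' k w - 1 / n)| ≤
      76 / (Q : ℝ) ^ 2 :=
    (abs_sum_le_sum_abs _ _).trans ((sum_le_sum fun j _ => abs_sum_le_sum_abs _ _).trans i1)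
  constructor
  · have e2 : (∑ j ∈ J', ∑ k ∈ Ico (j * Q) ((j + 1) * Q), pe Q U E' k w) -
        Q * (J'.card : ℝ) / n =
        ((∑ j ∈ J', pe Q U E' (j * Q) w) - (J'.card : ℝ) / n) +
        (∑ j ∈ J', ∑ k ∈ Ioo (j * Q) ((j + 1) * Q - 1), (pe Q U E' k w - 1 / n)) +
        ((∑ j ∈ J', pe Q U E' ((j + 1) * Q - 1) w) - (J'.card : ℝ) / n) := by
      have h3 : ∑ j ∈ J', ((∑ k ∈ Ico (j * Q) ((j + 1) * Q), pe Q U E' k w) -
          ((Q : ℝ) - 2) / n) = _ := sum_congr rfl fun j _ => e1 j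
      rw [sum_add_distrib, sum_add_distrib, sum_sub_distrib, sum_const, nsmul_eq_mul] at h3
      have h4 : (Q : ℝ) * (J'.card : ℝ) / n = (J'.card : ℝ) * (((Q : ℝ) - 2) / n) +
          2 * ((J'.card : ℝ) / n) := by
        ring
      rw [h4]
      linarith
    rw [e2]
    have e3 : 162 / (Q : ℝ) ^ 2 = 43 / (Q : ℝ) ^ 2 + 76 / (Q : ℝ) ^ 2 + 43 / (Q : ℝ) ^ 2 := by
      ring
    rw [e3]
    exact (abs_add_le _ _).trans (add_le_add ((abs_add_le _ _).trans (add_le_add l1 i2)) r1)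
  · have h3 : ∀ j ∈ J', |(∑ k ∈ Ico (j * Q) ((j + 1) * Q), pe Q U E' k w) -
        ((Q : ℝ) - 2) / n| ≤ pe Q U E' (j * Q) w +
        (∑ k ∈ Ioo (j * Q) ((j + 1) * Q - 1), |pe Q U E' k w - 1 / n|) +
          pe Q U E' ((j + 1) * Q - 1) w := by
      intro j _
      rw [e1]
      refine (abs_add_le _ _).trans (add_le_add ((abs_add_le _ _).trans
        (add_le_add ?_ (abs_sum_le_sum_abs _ _))) ?_)
      · rw [abs_of_nonneg (pe_nonneg _ _)]
      · rw [abs_of_nonneg (pe_nonneg _ _)]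
    refine (sum_le_sum h3).trans ?_
    rw [sum_add_distrib, sum_add_distrib]
    have e3 : 76 / (Q : ℝ) ^ 2 + 1.02 / (Q : ℝ) = 0.51 / Q + 76 / (Q : ℝ) ^ 2 + 0.51 / Q := by
      ring
    rw [e3]
    exact add_le_add (add_le_add l2 i1) r2

theorem clOk_symm {w : ZMod n} (hw : ClOk w) : ClOk (1 - w) := by
  refine ⟨sub_ne_zero.2 (Ne.symm hw.2.1), fun h => hw.1 ?_, fun h => hw.2.2 ?_⟩
  · linear_combination -h
  · linear_combination -h

theorem degc (h : Set0 n Q U J' E') {w : ZMod n} (hw : ClOk w) :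
    |(∑ j ∈ J', Nc Q U E' j w) - 1| ≤ 400 / (Q : ℝ) ^ 2 := by
  have hR := h.rd
  have hN := hR.Npos
  have hq := hR.qpos
  have hq5 := hR.hq
  have h1 := (half h hw).1
  have h2 := (half h (clOk_symm hw)).1
  have hq2 : (0 : ℝ) < (Q : ℝ) ^ 2 := by positivity
  have hX : |2 * (Q * (J'.card : ℝ) / n) - 1| ≤ 1 / (Q : ℝ) ^ 2 := by
    have h3 := h.hE.xj
    have h4 := h.hE.xc
    have h3' : ((Xt E').card : ℝ) + 2 * (Q : ℝ) * (J'.card : ℝ) = n := by exact_mod_cast h3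
    have h4' : (Q : ℝ) ^ 4 * ((Xt E').card : ℝ) ≤ n := by exact_mod_cast h4
    have e1 : 2 * (Q * (J'.card : ℝ) / n) - 1 = -(((Xt E').card : ℝ) / n) := by
      rw [eq_neg_iff_add_eq_zero]
      field_simp
      linarith
    rw [e1, abs_neg, abs_of_nonneg (by positivity), div_le_div_iff₀ hN hq2]
    have h5 : (Q : ℝ) ^ 2 ≤ (Q : ℝ) ^ 4 := pow_le_pow_right₀ (by linarith) (by norm_num)
    have h6 : (0 : ℝ) ≤ ((Xt E').card : ℝ) := by positivity
    nlinarith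
  have e2 : (∑ j ∈ J', Nc Q U E' j w) - 1 =
      ((∑ j ∈ J', ∑ k ∈ Ico (j * Q) ((j + 1) * Q), pe Q U E' k w) - Q * (J'.card : ℝ) / n) +
      ((∑ j ∈ J', ∑ k ∈ Ico (j * Q) ((j + 1) * Q), pe Q U E' k (1 - w)) -
        Q * (J'.card : ℝ) / n) + (2 * (Q * (J'.card : ℝ) / n) - 1) := by
    unfold Nc
    simp only [sum_add_distrib]
    ring
  rw [e2]
  refine (abs_add_le _ _).trans ((add_le_add ((abs_add_le _ _).trans (add_le_add h1 h2))
    hX).trans ?_)
  rw [← add_div, ← add_div]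
  exact div_le_div_of_nonneg_right (by norm_num) hq2.le

theorem devc (h : Set0 n Q U J' E') {w : ZMod n} (hw : ClOk w) :
    ∃ κ : ℝ, 0 ≤ κ ∧ κ ≤ 3 * Q / n ∧ ∑ j ∈ J', |Nc Q U E' j w - κ| ≤ 3 / Q := by
  have hR := h.rd
  have hN := hR.Npos
  have hq := hR.qpos
  have hq5 := hR.hq
  have h1 := (half h hw).2
  have h2 := (half h (clOk_symm hw)).2
  refine ⟨((Q : ℝ) - 2) / n + ((Q : ℝ) - 2) / n, ?_, ?_, ?_⟩
  · have : (0 : ℝ) ≤ (Q : ℝ) - 2 := by linarith
    positivity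
  · rw [← add_div]
    exact div_le_div_of_nonneg_right (by linarith) hN.le
  · have h3 : ∀ j ∈ J', |Nc Q U E' j w - (((Q : ℝ) - 2) / n + ((Q : ℝ) - 2) / n)| ≤
        |(∑ k ∈ Ico (j * Q) ((j + 1) * Q), pe Q U E' k w) - ((Q : ℝ) - 2) / n| +
        |(∑ k ∈ Ico (j * Q) ((j + 1) * Q), pe Q U E' k (1 - w)) - ((Q : ℝ) - 2) / n| := by
      intro j _
      refine le_trans (le_of_eq ?_) (abs_add_le _ _)
      congr 1
      unfold Nc
      rw [sum_add_distrib]
      ring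
    refine (sum_le_sum h3).trans ?_
    rw [sum_add_distrib]
    refine (add_le_add h1 h2).trans ?_
    have h4 : 152 / (Q : ℝ) ^ 2 ≤ 0.1 / Q := by
      rw [div_le_div_iff₀ (by positivity) hq]
      nlinarith
    have e1 : 76 / (Q : ℝ) ^ 2 + 1.02 / Q + (76 / (Q : ℝ) ^ 2 + 1.02 / Q) =
        152 / (Q : ℝ) ^ 2 + 2.04 / Q := by ring
    rw [e1]
    have e2 : 0.1 / (Q : ℝ) + 2.04 / Q ≤ 3 / Q := by
      rw [← add_div]
      exact div_le_div_of_nonneg_right (by norm_num) hq.le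
    linarith

end FpAux

theorem stFp : StFp := by
  intro Q hQ
  refine ⟨100 * Q ^ 2, fun n hn _ U J' E' hE _ => ?_⟩
  have h : FpAux.Set0 n Q U J' E' := ⟨hQ, hn, hE⟩
  refine ⟨hE, ?_, fun x hx => FpAux.degx h hx, fun w _ hw => FpAux.degc h hw,
    fun x hx => FpAux.devx h hx, fun w _ hw => FpAux.devc h hw,
    fun β b hb h0 hs x hx => FpAux.cross h β b hb h0 hs hx⟩
  intro k hk
  rw [mem_Icc] at hk
  have h1 := (FpAux.Mk_card hE (FpAux.cast_ne hk.1 (by omega) h.n4)).1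
  have h2 := hE.dc
  have h3 : 10 ^ 5 * (Dt E').card ≤ Q * (Dt E').card := Nat.mul_le_mul_right _ hQ
  omega

end Pool.Agent.DNA
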