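import Pool.Agent.Lib.MP_845d9b_co.Abs.Stmts

/-!
# Exact fractional packing (`StFPM`): definitions and statements of the modules (helper41)
Blueprint: team-store dna_fpm_blueprint.md
-/

set_option autoImplicit false

namespace Pool.Agent.DNA

open Finset

variable {n : ℕ}

/-- points outside `E'` -/
def Dt [NeZero n] (E' : Finset (Elt n)) : Finset (ZMod n) := univ.filter fun x => Sum.inl x ∉ E'

/-- differences whose class is outside `E'` -/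
def Xt [NeZero n] (E' : Finset (Elt n)) : Finset (ZMod n) :=
  univ.filter fun w => Sum.inr (cl w) ∉ E'

/-- possible values at time `k` -/
def Mk [NeZero n] (E' : Finset (Elt n)) (k : ℕ) : Finset (ZMod n) :=
  univ.filter fun m => Sum.inl m ∈ E' ∧ Sum.inl (m - (k : ZMod n)) ∈ E'

/-- law of the value at time `k`: point mass at the anchors, uniform on `Mk` otherwise -/
noncomputable def pa [NeZero n] (Q : ℕ) (U : ℕ → ZMod n) (E' : Finset (Elt n)) (k : ℕ)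
    (x : ZMod n) : ℝ :=
  if Q ∣ k then (if x = U k then 1 else 0)
  else if x ∈ Mk E' k then 1 / ((Mk E' k).card : ℝ) else 0

/-- law of the difference `f (k+1) - f k` -/
noncomputable def pe [NeZero n] (Q : ℕ) (U : ℕ → ZMod n) (E' : Finset (Elt n)) (k : ℕ)
    (w : ZMod n) : ℝ :=
  ∑ x : ZMod n, pa Q U E' k x * pa Q U E' (k + 1) (x + w)

/-- product weight of a tuple -/
noncomputable def pr [NeZero n] (Q : ℕ) (U : ℕ → ZMod n) (E' : Finset (Elt n)) (j : ℕ)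
    (m : Fin (Q - 1) → ZMod n) : ℝ :=
  ∏ i : Fin (Q - 1), pa Q U E' (j * Q + 1 + (i : ℕ)) (m i)

/-- expectation with respect to the product weight; `F` is a function of `f = ext n Q U j m` -/
noncomputable def Ex [NeZero n] (Q : ℕ) (U : ℕ → ZMod n) (E' : Finset (Elt n)) (j : ℕ)
    (F : (ℕ → ZMod n) → ℝ) : ℝ :=
  ∑ m : Fin (Q - 1) → ZMod n, pr Q U E' j m * F (ext n Q U j m)

/-- all classes of the filling `f` of block `j` are in `E'` -/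
def Gd (Q : ℕ) (E' : Finset (Elt n)) (j : ℕ) (f : ℕ → ZMod n) : Prop :=
  ∀ k ∈ Ico (j * Q) ((j + 1) * Q), Sum.inr (cl (f (k + 1) - f k)) ∈ E'

instance (Q : ℕ) (E' : Finset (Elt n)) (j : ℕ) (f : ℕ → ZMod n) : Decidable (Gd Q E' j f) := by
  unfold Gd; infer_instance

/-- weight of the two points covered by the value `x` at time `k` -/
noncomputable def hh (β : Elt n → ℝ) (k : ℕ) (x : ZMod n) : ℝ :=
  β (Sum.inl x) + β (Sum.inl (x - (k : ZMod n)))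

/-- `∑_u N(e,u) β(u)` for the edge `e = (j, f)` -/
noncomputable def Sb (Q : ℕ) (βJ : ℕ → ℝ) (β : Elt n → ℝ) (j : ℕ) (f : ℕ → ZMod n) : ℝ :=
  βJ j + ∑ k ∈ Ioo (j * Q) ((j + 1) * Q), hh β k (f k)
    + ∑ k ∈ Ico (j * Q) ((j + 1) * Q), β (Sum.inr (cl (f (k + 1) - f k)))

/-- expected multiplicity of the point `x` in block `j` -/
noncomputable def Nx [NeZero n] (Q : ℕ) (U : ℕ → ZMod n) (E' : Finset (Elt n)) (j : ℕ)
    (x : ZMod n) : ℝ :=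
  ∑ k ∈ Ioo (j * Q) ((j + 1) * Q), (pa Q U E' k x + pa Q U E' k (x + (k : ZMod n)))

/-- expected multiplicity of the class `cl w` in block `j` -/
noncomputable def Nc [NeZero n] (Q : ℕ) (U : ℕ → ZMod n) (E' : Finset (Elt n)) (j : ℕ)
    (w : ZMod n) : ℝ :=
  ∑ k ∈ Ico (j * Q) ((j + 1) * Q), (pe Q U E' k w + pe Q U E' k (1 - w))

/-! ## F1: counting -/

structure Est (n Q : ℕ) [NeZero n] (U : ℕ → ZMod n) (J' : Finset ℕ) (E' : Finset (Elt n)) :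
    Prop where
  fix : FixOk n Q U
  sub : J' ⊆ Blocks n Q
  jc : 2 * Q * J'.card ≤ n
  xj : (Xt E').card + 2 * Q * J'.card = n
  dj : (Dt E').card + 2 * (Q - 1) * J'.card = n
  xc : Q ^ 4 * (Xt E').card ≤ n
  dc : Q * (Dt E').card ≤ 2 * n
  anch : ∀ j ∈ J', Sum.inl (U (j * Q)) ∉ E' ∧ Sum.inl (U (j * Q) - ((j * Q : ℕ) : ZMod n)) ∉ E' ∧
    Sum.inl (U ((j + 1) * Q)) ∉ E' ∧
    Sum.inl (U ((j + 1) * Q) - (((j + 1) * Q : ℕ) : ZMod n)) ∉ E'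
  cor : ∀ s : ZMod n, s ≠ 0 → Q ^ 2 * (Dt E' ∩ (Dt E').image (· + s)).card ≤ 21 * n
  line : ∀ x : ZMod n,
    |(((∑ j ∈ J', ∑ k ∈ Ioo (j * Q) ((j + 1) * Q),
        ((if Sum.inl (x + (k : ZMod n)) ∈ E' then 1 else 0) +
          (if Sum.inl (x - (k : ZMod n)) ∈ E' then 1 else 0)) : ℕ)) : ℝ)
      - ((n : ℝ) - 2 * ((Dt E').card : ℝ))| ≤ 22 * n / (Q : ℝ) ^ 2

def StEst : Prop :=
  ∀ Q : ℕ, 10 ^ 5 ≤ Q → ∃ N : ℕ, ∀ n : ℕ, N ≤ n → ∀ [NeZero n], ∀ (U : ℕ → ZMod n)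
    (J' : Finset ℕ) (E' : Finset (Elt n)), NearHyp n Q U (1 / (10 * (Q : ℝ) ^ 5)) J' E' →
      Est n Q U J' E'

/-! ## F2: degrees -/

structure Fp (n Q : ℕ) [NeZero n] (U : ℕ → ZMod n) (J' : Finset ℕ) (E' : Finset (Elt n)) :
    Prop where
  est : Est n Q U J' E'
  mkc : ∀ k ∈ Icc 1 (T1 n), n ≤ 2 * (Mk E' k).card
  degx : ∀ x : ZMod n, Sum.inl x ∈ E' → |(∑ j ∈ J', Nx Q U E' j x) - 1| ≤ 50 / (Q : ℝ) ^ 2
  degc : ∀ w : ZMod n, Sum.inr (cl w) ∈ E' → ClOk w →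
    |(∑ j ∈ J', Nc Q U E' j w) - 1| ≤ 400 / (Q : ℝ) ^ 2
  devx : ∀ x : ZMod n, Sum.inl x ∈ E' → ∃ κ : ℝ, 0 ≤ κ ∧ κ ≤ 3 * Q / n ∧
    ∑ j ∈ J', |Nx Q U E' j x - κ| ≤ 3 / Q
  devc : ∀ w : ZMod n, Sum.inr (cl w) ∈ E' → ClOk w → ∃ κ : ℝ, 0 ≤ κ ∧ κ ≤ 3 * Q / n ∧
    ∑ j ∈ J', |Nc Q U E' j w - κ| ≤ 3 / Q
  cross : ∀ (β : Elt n → ℝ) (b : ℝ), (∀ y, |β y| ≤ b) → (∀ y, y ∉ E' → β y = 0) →
    (∑ x : ZMod n, β (Sum.inl x)) = 0 → ∀ x : ZMod n, Sum.inl x ∈ E' →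
    |∑ j ∈ J', ∑ k ∈ Ioo (j * Q) ((j + 1) * Q),
      (pa Q U E' k x * β (Sum.inl (x - (k : ZMod n))) +
        pa Q U E' k (x + (k : ZMod n)) * β (Sum.inl (x + (k : ZMod n))))| ≤ 3 * b / Q

def StFp : Prop :=
  ∀ Q : ℕ, 10 ^ 5 ≤ Q → ∃ N : ℕ, ∀ n : ℕ, N ≤ n → ∀ [NeZero n], ∀ (U : ℕ → ZMod n)
    (J' : Finset ℕ) (E' : Finset (Elt n)), Est n Q U J' E' → E' ⊆ All n → Fp n Q U J' E'

/-! ## F3: calculus of the product weight -/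

/-- the update formula -/
def StK1 : Prop :=
  ∀ (n Q : ℕ) [NeZero n] (U : ℕ → ZMod n) (E' : Finset (Elt n)) (j k : ℕ),
    k ∈ Ioo (j * Q) ((j + 1) * Q) → (∑ x, pa Q U E' k x) = 1 →
    ∀ (F : (ℕ → ZMod n) → ℝ) (x : ZMod n),
      Ex Q U E' j (fun f => if f k = x then F f else 0) =
        pa Q U E' k x * Ex Q U E' j (fun f => F (Function.update f k x))

/-- expectations of `Sb` on events -/
def StCond : Prop :=
  ∀ (n Q : ℕ) [NeZero n] (U : ℕ → ZMod n) (E' : Finset (Elt n)) (j : ℕ) (βJ : ℕ → ℝ)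
    (β : Elt n → ℝ) (ε b : ℝ), 4 ≤ Q →
    (∀ k ∈ Ioo (j * Q) ((j + 1) * Q), (∑ x, pa Q U E' k x) = 1) →
    (∀ k ∈ Ioo (j * Q) ((j + 1) * Q), |∑ x, pa Q U E' k x * hh β k x| ≤ ε) →
    (∀ k ∈ Ioo (j * Q) ((j + 1) * Q), ∀ z : ZMod n,
      |∑ x, pa Q U E' k x * β (Sum.inr (cl (x - z)))| ≤ ε) →
    (∀ y, |β y| ≤ b) →
    (∀ k ∈ Ioo (j * Q) ((j + 1) * Q), ∀ x : ZMod n,
      |Ex Q U E' j (fun f => if f k = x then Sb Q βJ β j f else 0) -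
          pa Q U E' k x * (βJ j + Ex Q U E' j (Sb Q (fun _ => 0) β j) + hh β k x)| ≤
        pa Q U E' k x * (5 * ε + if k = j * Q + 1 ∨ k + 1 = (j + 1) * Q then b else 0)) ∧
    (∀ k : ℕ, j * Q < k → k + 1 < (j + 1) * Q → ∀ (w : ZMod n) (ε' : ℝ),
      |∑ x, pa Q U E' k x * pa Q U E' (k + 1) (x + w) * (hh β k x + hh β (k + 1) (x + w))| ≤ ε' →
      |Ex Q U E' j (fun f => if f (k + 1) - f k = w then Sb Q βJ β j f else 0) -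
          pe Q U E' k w * (βJ j + Ex Q U E' j (Sb Q (fun _ => 0) β j) + β (Sum.inr (cl w)))| ≤
        pe Q U E' k w * (7 * ε + if k = j * Q + 1 ∨ k + 2 = (j + 1) * Q then b else 0) + ε')

/-! ## F4: the bad event -/

def StBad : Prop :=
  ∀ (n Q : ℕ) [NeZero n] (U : ℕ → ZMod n) (J' : Finset ℕ) (E' : Finset (Elt n)), 10 ^ 5 ≤ Q →
    E' ⊆ All n → Fp n Q U J' E' →
    (∀ j ∈ J', Ex Q U E' j (fun f => if Gd Q E' j f then 0 else 1) ≤ 2 / (Q : ℝ) ^ 3) ∧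
    (∀ y ∈ E', ∑ j ∈ J', Ex Q U E' j (fun f => if Gd Q E' j f then 0 else (mult n Q j f y : ℝ))
      ≤ 10 / (Q : ℝ) ^ 3)

/-! ## F5: the hypotheses of the contraction lemma -/

/-- hypotheses on the test function -/
structure BetaOk (n Q : ℕ) [NeZero n] (J' : Finset ℕ) (E' : Finset (Elt n)) (βJ : ℕ → ℝ)
    (β : Elt n → ℝ) : Prop where
  bj : ∀ j, |βJ j| ≤ 1
  be : ∀ y, |β y| ≤ 200 / Q
  supp : ∀ y, y ∉ E' → β y = 0
  sj : (∑ j ∈ J', βJ j) = 0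
  sx : (∑ x : ZMod n, β (Sum.inl x)) = 0
  sc : (∑ w : ZMod n, β (Sum.inr (cl w))) = 0

/-- mean zero estimates -/
def StMean : Prop :=
  ∀ (n Q : ℕ) [NeZero n] (U : ℕ → ZMod n) (J' : Finset ℕ) (E' : Finset (Elt n)), 10 ^ 5 ≤ Q →
    E' ⊆ All n → Fp n Q U J' E' → ∀ (βJ : ℕ → ℝ) (β : Elt n → ℝ), BetaOk n Q J' E' βJ β →
    (∀ j ∈ J', ∀ k ∈ Ioo (j * Q) ((j + 1) * Q), (∑ x, pa Q U E' k x) = 1 ∧
      (∀ x, 0 ≤ pa Q U E' k x ∧ pa Q U E' k x ≤ 2 / n) ∧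
      |∑ x, pa Q U E' k x * hh β k x| ≤ 1600 / (Q : ℝ) ^ 2 ∧
      ∀ z : ZMod n, |∑ x, pa Q U E' k x * β (Sum.inr (cl (x - z)))| ≤ 1600 / (Q : ℝ) ^ 2) ∧
    (∀ j ∈ J', ∀ k : ℕ, j * Q < k → k + 1 < (j + 1) * Q → ∀ w : ZMod n,
      |∑ x, pa Q U E' k x * pa Q U E' (k + 1) (x + w) * (hh β k x + hh β (k + 1) (x + w))| ≤
        20000 / (n * (Q : ℝ) ^ 2)) ∧
    (∀ j ∈ J', |Ex Q U E' j (Sb Q (fun _ => 0) β j)| ≤ 1 / 8) ∧
    |∑ j ∈ J', Ex Q U E' j (Sb Q (fun _ => 0) β j)| ≤ 50000 * n / (Q : ℝ) ^ 3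

/-- first hypothesis and blocks -/
def StH1 : Prop :=
  ∀ (n Q : ℕ) [NeZero n] (U : ℕ → ZMod n) (J' : Finset ℕ) (E' : Finset (Elt n)), 10 ^ 5 ≤ Q →
    E' ⊆ All n → Fp n Q U J' E' →
    (∀ j ∈ J', |Ex Q U E' j (fun f => if Gd Q E' j f then 1 else 0) - 1| ≤ 1 / 20000) ∧
    (∀ y ∈ E', |(∑ j ∈ J', Ex Q U E' j (fun f => if Gd Q E' j f then (mult n Q j f y : ℝ) else 0))
      - 1| ≤ 1 / (100 * Q)) ∧
    (∀ (βJ : ℕ → ℝ) (β : Elt n → ℝ), BetaOk n Q J' E' βJ β → ∀ j ∈ J',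
      |Ex Q U E' j (fun f => if Gd Q E' j f then Sb Q βJ β j f else 0) - βJ j| ≤ 1 / 4)

/-- second hypothesis, points -/
def StH2P : Prop :=
  ∀ (n Q : ℕ) [NeZero n] (U : ℕ → ZMod n) (J' : Finset ℕ) (E' : Finset (Elt n)), 10 ^ 5 ≤ Q →
    E' ⊆ All n → Fp n Q U J' E' → ∀ (βJ : ℕ → ℝ) (β : Elt n → ℝ), BetaOk n Q J' E' βJ β →
    ∀ x : ZMod n, Sum.inl x ∈ E' →
      |(∑ j ∈ J', Ex Q U E' j (fun f => if Gd Q E' j f then
          (mult n Q j f (Sum.inl x) : ℝ) * Sb Q βJ β j f else 0)) - β (Sum.inl x)| ≤ 50 / Q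

/-- second hypothesis, classes -/
def StH2C : Prop :=
  ∀ (n Q : ℕ) [NeZero n] (U : ℕ → ZMod n) (J' : Finset ℕ) (E' : Finset (Elt n)), 10 ^ 5 ≤ Q →
    E' ⊆ All n → Fp n Q U J' E' → ∀ (βJ : ℕ → ℝ) (β : Elt n → ℝ), BetaOk n Q J' E' βJ β →
    ∀ w : ZMod n, ClOk w → Sum.inr (cl w) ∈ E' →
      |(∑ j ∈ J', Ex Q U E' j (fun f => if Gd Q E' j f then
          (mult n Q j f (Sum.inr (cl w)) : ℝ) * Sb Q βJ β j f else 0)) - β (Sum.inr (cl w))|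
        ≤ 50 / Q

/-! ## F6: application of the contraction lemma -/

def StFPMFinal : Prop :=
  StEst → StFp → StH1 → StH2P → StH2C → Pool.Agent.Nibble.StContract → StFPM

end Pool.Agent.DNA
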