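import Pool.Agent.Lib.MP_845d9b_co.Abs.Stmts

/-!
# Module SL: a slot of the absorber (helper17)
-/

set_option autoImplicit false

namespace Pool.Agent.DNA

namespace SlotAux

open Finset

variable {n : ℕ}

/-! ### basic facts -/

lemma cl_eq {w w' : ZMod n} : cl w = cl w' ↔ w = w' ∨ w = 1 - w' := by
  unfold cl
  rw [Sym2.eq_iff]
  constructor
  · rintro (⟨h, -⟩ | ⟨h, -⟩)
    · exact Or.inl h
    · exact Or.inr h
  · rintro (h | h)
    · subst h; exact Or.inl ⟨rfl, rfl⟩
    · subst h; exact Or.inr ⟨rfl, by ring⟩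

lemma par_sub [NeZero n] (x y : ZMod n) : par (x - y) = par x - par y := by
  unfold par
  split_ifs with h
  · have h2 : 2 ∣ n := even_iff_two_dvd.mp h
    have key : ∀ z : ZMod n, ((z.val : ℕ) : ZMod 2) = ZMod.castHom h2 (ZMod 2) z := by
      intro z
      rw [ZMod.natCast_val, ZMod.castHom_apply]
    rw [key, key, key, map_sub]
  · simp

lemma two_fib [NeZero n] (c : ZMod n) : (univ.filter fun w : ZMod n => w + w = c).card ≤ 2 := by
  by_cases h : ∃ w0 : ZMod n, w0 + w0 = c
  · obtain ⟨w0, hw0⟩ := h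
    have hsub : (univ.filter fun w : ZMod n => w + w = c) ⊆ {w0, w0 + ((n / 2 : ℕ) : ZMod n)} := by
      intro w hw
      simp only [mem_filter, mem_univ, true_and] at hw
      simp only [mem_insert, mem_singleton]
      have hz : (((w - w0).val * 2 : ℕ) : ZMod n) = 0 := by
        push_cast
        rw [ZMod.natCast_zmod_val]
        have : (w - w0) * 2 = (w + w) - (w0 + w0) := by ring
        rw [this, hw, hw0, sub_self]
      rw [ZMod.natCast_eq_zero_iff] at hz
      have hlt : (w - w0).val < n := ZMod.val_lt _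
      obtain ⟨q, hq⟩ := hz
      have hn : 0 < n := Nat.pos_of_ne_zero (NeZero.ne n)
      have hq2 : q < 2 := by
        by_contra hcon
        have : n * 2 ≤ n * q := Nat.mul_le_mul_left n (by omega)
        omega
      interval_cases q
      · left
        have h0 : (w - w0).val = 0 := by omega
        rw [ZMod.val_eq_zero] at h0
        exact sub_eq_zero.mp h0
      · right
        have h0 : (w - w0).val = n / 2 := by omega
        have : w - w0 = ((n / 2 : ℕ) : ZMod n) := by
          rw [← h0, ZMod.natCast_zmod_val]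
        rw [← this]; ring
    exact le_trans (card_le_card hsub) card_le_two
  · push Not at h
    rw [filter_false_of_mem]
    · simp
    · intro x _
      exact h x

lemma card_pre_le [NeZero n] (f : ZMod n → Elt n) (hf : ∀ y, (univ.filter fun v => f v = y).card ≤ 2)
    (B : Finset (Elt n)) : (univ.filter fun v => f v ∈ B).card ≤ 2 * B.card := by
  have h1 := card_le_mul_card_image (f := f) (univ.filter fun v => f v ∈ B) 2 (by
    intro a _
    refine le_trans (card_le_card ?_) (hf a)
    intro v hv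
    simp only [mem_filter, mem_univ, true_and] at hv ⊢
    exact hv.2)
  refine le_trans h1 (Nat.mul_le_mul_left 2 (card_le_card ?_))
  intro z hz
  simp only [mem_image, mem_filter, mem_univ, true_and] at hz
  obtain ⟨v, hv, rfl⟩ := hz
  exact hv

lemma fib_of_two [NeZero n] (f : ZMod n → Elt n) (y : Elt n) (a b : ZMod n)
    (h : ∀ v, f v = y → v = a ∨ v = b) : (univ.filter fun v => f v = y).card ≤ 2 := by
  refine le_trans (card_le_card (t := {a, b}) ?_) card_le_two
  intro v hv
  simp only [mem_filter, mem_univ, true_and] at hv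
  simpa using h v hv

lemma fib_pt [NeZero n] (c : ZMod n) (y : Elt n) :
    (univ.filter fun v : ZMod n => (Sum.inl (v - c) : Elt n) = y).card ≤ 2 := by
  rcases y with y | y
  · apply fib_of_two _ _ (y + c) (y + c)
    intro v hv
    left
    have := Sum.inl.inj hv
    rw [← this]; ring
  · apply fib_of_two _ _ 0 0
    intro v hv
    exact absurd hv (by simp)

lemma fib_cl [NeZero n] (a : ZMod n) (y : Elt n) :
    (univ.filter fun v : ZMod n => (Sum.inr (cl (v - a)) : Elt n) = y).card ≤ 2 := by
  rcases y with y | y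
  · apply fib_of_two _ _ 0 0
    intro v hv
    exact absurd hv (by simp)
  · by_cases h : ∃ v0 : ZMod n, cl (v0 - a) = y
    · obtain ⟨v0, rfl⟩ := h
      apply fib_of_two _ _ v0 (a + 1 - (v0 - a))
      intro v hv
      rcases cl_eq.mp (Sum.inr.inj hv) with h | h
      · left
        exact sub_left_inj.mp h
      · right
        linear_combination h
    · apply fib_of_two _ _ 0 0
      intro v hv
      exact absurd ⟨v, Sum.inr.inj hv⟩ h

lemma fib_cl' [NeZero n] (b : ZMod n) (y : Elt n) :
    (univ.filter fun v : ZMod n => (Sum.inr (cl (b - v)) : Elt n) = y).card ≤ 2 := by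
  have : ∀ v, cl (b - v) = cl (v - (b - 1)) := by
    intro v
    rw [cl_eq]; right; ring
  simp only [this]
  exact fib_cl _ _

/-- choice of a value of given parity outside a small set -/
lemma exists_par [NeZero n] (p : ZMod 2) (hp : ¬ Even n → p = 0) (F : Finset (ZMod n))
    (hF : 2 * F.card + 2 ≤ n) : ∃ v, v ∉ F ∧ par v = p := by
  by_contra hcon
  push Not at hcon
  have hsub : (univ.filter fun v : ZMod n => par v = p) ⊆ F := by
    intro v hv
    simp only [mem_filter, mem_univ, true_and] at hv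
    by_contra hvF
    exact hcon v hvF hv
  have hle := card_le_card hsub
  have hn : 0 < n := Nat.pos_of_ne_zero (NeZero.ne n)
  have hge : n / 2 ≤ (univ.filter fun v : ZMod n => par v = p).card := by
    by_cases he : Even n
    · obtain ⟨m, hm⟩ := he
      have hinj : Set.InjOn (fun i : ℕ => ((2 * i + p.val : ℕ) : ZMod n)) (range (n / 2) : Finset ℕ) := by
        intro i hi j hj hij
        simp only [coe_range, Set.mem_Iio] at hi hj
        have hp2 : p.val < 2 := ZMod.val_lt p
        simp only at hij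
        have := congrArg ZMod.val hij
        rw [ZMod.val_natCast, ZMod.val_natCast, Nat.mod_eq_of_lt (by omega),
          Nat.mod_eq_of_lt (by omega)] at this
        omega
      have := card_image_of_injOn hinj
      rw [card_range] at this
      rw [← this]
      apply card_le_card
      intro v hv
      simp only [mem_image, mem_range, mem_filter, mem_univ, true_and] at hv ⊢
      obtain ⟨i, hi, rfl⟩ := hv
      have hp2 : p.val < 2 := ZMod.val_lt p
      unfold par
      rw [if_pos ⟨m, hm⟩, ZMod.val_natCast, Nat.mod_eq_of_lt (by omega)]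
      push_cast
      rw [ZMod.natCast_zmod_val]
      have : (2 : ZMod 2) = 0 := by decide
      rw [this]; ring
    · have h0 := hp he
      have : (univ.filter fun v : ZMod n => par v = p) = univ := by
        apply filter_true_of_mem
        intro v _
        unfold par
        rw [if_neg he, h0]
      rw [this, card_univ, ZMod.card]
      omega
  omega

/-! ### membership in `All` -/

lemma inl_mem_All [NeZero n] (x : ZMod n) : (Sum.inl x : Elt n) ∈ All n := by
  unfold All
  simp

lemma inr_mem_All [NeZero n] {w : ZMod n} (h : ClOk w) : (Sum.inr (cl w) : Elt n) ∈ All n := by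
  unfold All
  simp only [mem_union, mem_image, mem_filter, mem_univ, true_and]
  exact Or.inr ⟨w, h, rfl⟩

lemma of_inr_mem_All [NeZero n] {c : Sym2 (ZMod n)} (h : (Sum.inr c : Elt n) ∈ All n) :
    ∃ w, ClOk w ∧ c = cl w := by
  unfold All at h
  simp only [mem_union, mem_image, mem_filter, mem_univ, true_and, reduceCtorEq, exists_false,
    Sum.inr.injEq, false_or] at h
  obtain ⟨w, h1, h2⟩ := h
  exact ⟨w, h1, h2.symm⟩

/-! ### packings -/

lemma packable_card {Q : ℕ} {U : ℕ → ZMod n} {J : Finset ℕ} {S : Finset (Elt n)}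
    (h : Packable n Q U J S) : S.card = (3 * Q - 2) * J.card := by
  obtain ⟨F, hF⟩ := h
  rw [← hF.cover, card_biUnion (fun i hi j hj hij => hF.disj i hi j hj hij),
    sum_congr rfl (fun j hj => (hF.fill j hj).card), sum_const, smul_eq_mul, mul_comm]

lemma packable_biUnion (h1 : StPackUnion) {ι : Type} [DecidableEq ι] {Q : ℕ} {U : ℕ → ZMod n}
    (I : Finset ι) (J : ι → Finset ℕ) (S : ι → Finset (Elt n))
    (hJ : ∀ i ∈ I, ∀ i' ∈ I, i ≠ i' → Disjoint (J i) (J i'))
    (hS : ∀ i ∈ I, ∀ i' ∈ I, i ≠ i' → Disjoint (S i) (S i'))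
    (hP : ∀ i ∈ I, Packable n Q U (J i) (S i)) :
    Packable n Q U (I.biUnion J) (I.biUnion S) := by
  induction I using Finset.induction_on with
  | empty =>
    refine ⟨fun _ => U, ⟨?_, ?_, ?_⟩⟩
    · simp
    · simp
    · simp
  | insert i I hi ih =>
    rw [biUnion_insert, biUnion_insert]
    apply h1
    · rw [disjoint_biUnion_right]
      intro i' hi'
      exact hJ i (mem_insert_self _ _) i' (mem_insert_of_mem hi') (by rintro rfl; exact hi hi')
    · rw [disjoint_biUnion_right]
      intro i' hi'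
      exact hS i (mem_insert_self _ _) i' (mem_insert_of_mem hi') (by rintro rfl; exact hi hi')
    · exact hP i (mem_insert_self _ _)
    · apply ih
      · intro a ha b hb
        exact hJ a (mem_insert_of_mem ha) b (mem_insert_of_mem hb)
      · intro a ha b hb
        exact hS a (mem_insert_of_mem ha) b (mem_insert_of_mem hb)
      · intro a ha
        exact hP a (mem_insert_of_mem ha)

/-! ### swaps -/

/-- number of blocks of a swap -/
def cost : Elt n → ℕ := Sum.elim (fun _ => 3) fun _ => 14

lemma cost_le (x : Elt n) : cost x ≤ 14 := by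
  rcases x with x | x <;> simp [cost]

/-- both kinds of swaps together -/
def Swp (Q : ℕ) : Prop :=
  ∃ N : ℕ, ∀ n : ℕ, N ≤ n → ∀ [NeZero n], ∀ (U : ℕ → ZMod n)
    (BadE : Finset (Elt n)) (BadJ : Finset ℕ), 50 * BadE.card ≤ n → 50 * Q * BadJ.card ≤ n →
    ∀ x x' : Elt n, x ∈ All n → x' ∈ All n → kd x = kd x' → x ≠ x' →
      ∃ Js ⊆ Blocks n Q \ BadJ, Js.card ≤ cost x ∧
        ∃ Z ⊆ All n \ (BadE ∪ {x, x'}),
          Packable n Q U Js (insert x Z) ∧ Packable n Q U Js (insert x' Z)

lemma par_eq_of_kd {x x' : ZMod n} (h : kd (Sum.inl x : Elt n) = kd (Sum.inl x')) :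
    par x = par x' := by
  simp only [kd, Sum.elim_inl] at h
  have two : ∀ p q : ZMod 2, (if p = 0 then (0 : Fin 3) else 1) = (if q = 0 then 0 else 1) → p = q := by
    decide
  exact two _ _ h

lemma kd_inl_of_par {x x' : ZMod n} (h : par x = par x') :
    kd (Sum.inl x : Elt n) = kd (Sum.inl x') := by
  simp only [kd, Sum.elim_inl, h]

lemma kd_inl_ne {x : ZMod n} {c : Sym2 (ZMod n)} : kd (Sum.inl x : Elt n) ≠ kd (Sum.inr c) := by
  simp only [kd, Sum.elim_inl, Sum.elim_inr]
  split_ifs <;> decide

lemma swp (h3 : StPS) (h4 : StCS) (Q : ℕ) (hQ : 100 ≤ Q) : Swp Q := by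
  obtain ⟨N1, hN1⟩ := h3 Q hQ
  obtain ⟨N2, hN2⟩ := h4 Q hQ
  refine ⟨max N1 N2, fun n hn _ U BadE BadJ hE hJ x x' hx hx' hk hne => ?_⟩
  rcases x with x | c <;> rcases x' with x' | c'
  · have hp := par_eq_of_kd hk
    obtain ⟨Js, hJs, hc, Z, hZ, hP, hP'⟩ := hN1 n (le_trans (le_max_left _ _) hn) U BadE BadJ
      (by omega) (by nlinarith) x x' (fun h => hne (by rw [h])) hp
    exact ⟨Js, hJs, by simpa [cost] using hc, Z, hZ, hP, hP'⟩
  · exact absurd hk kd_inl_ne
  · exact absurd hk.symm kd_inl_ne
  · obtain ⟨w, hw, rfl⟩ := of_inr_mem_All hx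
    obtain ⟨w', hw', rfl⟩ := of_inr_mem_All hx'
    obtain ⟨Js, hJs, hc, Z, hZ, hP, hP'⟩ := hN2 n (le_trans (le_max_right _ _) hn) U BadE BadJ
      hE hJ w w' hw hw' (fun h => hne (by rw [h]))
    exact ⟨Js, hJs, by simpa [cost] using hc, Z, hZ, hP, hP'⟩

/-- many disjoint swaps -/
lemma many {Q : ℕ} [NeZero n] (U : ℕ → ZMod n)
    (hsw : ∀ (BadE : Finset (Elt n)) (BadJ : Finset ℕ), 50 * BadE.card ≤ n →
      50 * Q * BadJ.card ≤ n →
      ∀ x x' : Elt n, x ∈ All n → x' ∈ All n → kd x = kd x' → x ≠ x' →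
      ∃ Js ⊆ Blocks n Q \ BadJ, Js.card ≤ cost x ∧
        ∃ Z ⊆ All n \ (BadE ∪ {x, x'}),
          Packable n Q U Js (insert x Z) ∧ Packable n Q U Js (insert x' Z))
    {ι : Type} [DecidableEq ι] (I : Finset ι) (x x' : ι → Elt n)
    (B : Finset (Elt n)) (BJ : Finset ℕ)
    (hx : ∀ i ∈ I, x i ∈ All n) (hx' : ∀ i ∈ I, x' i ∈ All n)
    (hk : ∀ i ∈ I, kd (x i) = kd (x' i)) (hne : ∀ i ∈ I, x i ≠ x' i)
    (hB : 50 * (B.card + 42 * Q * I.card) ≤ n) (hBJ : 50 * Q * (BJ.card + 14 * I.card) ≤ n) :
    ∃ (J : ι → Finset ℕ) (Z : ι → Finset (Elt n)),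
      (∀ i ∈ I, J i ⊆ Blocks n Q \ BJ) ∧ (∀ i ∈ I, (J i).card ≤ cost (x i)) ∧
      (∀ i ∈ I, Z i ⊆ All n \ B) ∧ (∀ i ∈ I, (Z i).card ≤ 42 * Q) ∧
      (∀ i ∈ I, Packable n Q U (J i) (insert (x i) (Z i))) ∧
      (∀ i ∈ I, Packable n Q U (J i) (insert (x' i) (Z i))) ∧
      (∀ i ∈ I, ∀ i' ∈ I, i ≠ i' → Disjoint (J i) (J i')) ∧
      (∀ i ∈ I, ∀ i' ∈ I, i ≠ i' → Disjoint (Z i) (Z i')) := by
  induction I using Finset.induction_on with
  | empty => exact ⟨fun _ => ∅, fun _ => ∅, by simp⟩
  | insert k I hkI ih =>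
    rw [card_insert_of_notMem hkI] at hB hBJ
    obtain ⟨J, Z, g1, g2, g3, g4, g5, g6, g7, g8⟩ := ih
      (fun i hi => hx i (mem_insert_of_mem hi)) (fun i hi => hx' i (mem_insert_of_mem hi))
      (fun i hi => hk i (mem_insert_of_mem hi)) (fun i hi => hne i (mem_insert_of_mem hi))
      (le_trans (by gcongr; omega) hB) (le_trans (by gcongr; omega) hBJ)
    have c1 : (B ∪ I.biUnion Z).card ≤ B.card + 42 * Q * (I.card + 1) := by
      have := card_union_le B (I.biUnion Z)
      have h2 : (I.biUnion Z).card ≤ I.card * (42 * Q) := card_biUnion_le_card_mul _ _ _ g4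
      nlinarith
    have c2 : (BJ ∪ I.biUnion J).card ≤ BJ.card + 14 * (I.card + 1) := by
      have := card_union_le BJ (I.biUnion J)
      have h2 : (I.biUnion J).card ≤ I.card * 14 :=
        card_biUnion_le_card_mul _ _ _ (fun i hi => le_trans (g2 i hi) (cost_le _))
      nlinarith
    have kI : k ∈ insert k I := mem_insert_self _ _
    obtain ⟨Js, hJs, hJc, Z1, hZ1, hP, hP'⟩ := hsw (B ∪ I.biUnion Z) (BJ ∪ I.biUnion J)
      (le_trans (Nat.mul_le_mul_left 50 c1) hB) (le_trans (Nat.mul_le_mul_left (50 * Q) c2) hBJ)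
      (x k) (x' k) (hx k kI) (hx' k kI) (hk k kI) (hne k kI)
    have hZB : Disjoint Z1 (B ∪ I.biUnion Z) := by
      rw [Finset.disjoint_left]
      intro z hz hz'
      exact (mem_sdiff.mp (hZ1 hz)).2 (mem_union_left _ hz')
    have hxZ : x k ∉ Z1 := by
      intro hz
      exact (mem_sdiff.mp (hZ1 hz)).2 (mem_union_right _ (by simp))
    have hJB : Disjoint Js (BJ ∪ I.biUnion J) := by
      rw [Finset.disjoint_left]
      intro z hz hz'
      exact (mem_sdiff.mp (hJs hz)).2 hz'
    have hZc : Z1.card ≤ 42 * Q := by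
      have := packable_card hP
      rw [card_insert_of_notMem hxZ] at this
      have h14 : Js.card ≤ 14 := le_trans hJc (cost_le _)
      have : Z1.card ≤ (3 * Q) * 14 := by
        calc Z1.card ≤ (3 * Q - 2) * Js.card := by omega
          _ ≤ (3 * Q) * 14 := Nat.mul_le_mul (by omega) h14
      omega
    have hdZ : ∀ i ∈ I, Disjoint Z1 (Z i) := by
      intro i hi
      refine Finset.disjoint_of_subset_right ?_ hZB
      exact (subset_biUnion_of_mem Z hi).trans subset_union_right
    have hdJ : ∀ i ∈ I, Disjoint Js (J i) := by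
      intro i hi
      refine Finset.disjoint_of_subset_right ?_ hJB
      exact (subset_biUnion_of_mem J hi).trans subset_union_right
    have hneI : ∀ i ∈ I, i ≠ k := by rintro i hi rfl; exact hkI hi
    refine ⟨Function.update J k Js, Function.update Z k Z1, ?_, ?_, ?_, ?_, ?_, ?_, ?_, ?_⟩
    · intro i hi
      rcases mem_insert.mp hi with rfl | hi
      · rw [Function.update_self]
        refine hJs.trans (sdiff_subset_sdiff (Subset.refl _) subset_union_left)
      · rw [Function.update_of_ne (hneI i hi)]; exact g1 i hi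
    · intro i hi
      rcases mem_insert.mp hi with rfl | hi
      · rw [Function.update_self]; exact hJc
      · rw [Function.update_of_ne (hneI i hi)]; exact g2 i hi
    · intro i hi
      rcases mem_insert.mp hi with rfl | hi
      · rw [Function.update_self]
        refine hZ1.trans (sdiff_subset_sdiff (Subset.refl _) ?_)
        exact subset_union_left.trans subset_union_left
      · rw [Function.update_of_ne (hneI i hi)]; exact g3 i hi
    · intro i hi
      rcases mem_insert.mp hi with rfl | hi
      · rw [Function.update_self]; exact hZc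
      · rw [Function.update_of_ne (hneI i hi)]; exact g4 i hi
    · intro i hi
      rcases mem_insert.mp hi with rfl | hi
      · rw [Function.update_self, Function.update_self]; exact hP
      · rw [Function.update_of_ne (hneI i hi), Function.update_of_ne (hneI i hi)]; exact g5 i hi
    · intro i hi
      rcases mem_insert.mp hi with rfl | hi
      · rw [Function.update_self, Function.update_self]; exact hP'
      · rw [Function.update_of_ne (hneI i hi), Function.update_of_ne (hneI i hi)]; exact g6 i hi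
    · intro i hi i' hi' hii
      rcases mem_insert.mp hi with rfl | k1 <;> rcases mem_insert.mp hi' with rfl | k2
      · exact absurd rfl hii
      · rw [Function.update_self, Function.update_of_ne (hneI i' k2)]; exact hdJ i' k2
      · rw [Function.update_self, Function.update_of_ne (hneI i k1)]; exact (hdJ i k1).symm
      · rw [Function.update_of_ne (hneI i k1), Function.update_of_ne (hneI i' k2)]
        exact g7 i k1 i' k2 hii
    · intro i hi i' hi' hii
      rcases mem_insert.mp hi with rfl | k1 <;> rcases mem_insert.mp hi' with rfl | k2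
      · exact absurd rfl hii
      · rw [Function.update_self, Function.update_of_ne (hneI i' k2)]; exact hdZ i' k2
      · rw [Function.update_self, Function.update_of_ne (hneI i k1)]; exact (hdZ i k1).symm
      · rw [Function.update_of_ne (hneI i k1), Function.update_of_ne (hneI i' k2)]
        exact g8 i k1 i' k2 hii

/-! ### choice of new elements -/

/-- a new point of given parity -/
lemma new_pt [NeZero n] (p : ZMod 2) (hp : ¬ Even n → p = 0) (B : Finset (Elt n))
    (hB : 4 * B.card + 2 ≤ n) : ∃ x : ZMod n, Sum.inl x ∉ B ∧ par x = p := by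
  obtain ⟨v, hv, hpv⟩ := exists_par p hp
    (univ.filter fun v : ZMod n => (Sum.inl (v - 0) : Elt n) ∈ B) (by
      have := card_pre_le (fun v : ZMod n => (Sum.inl (v - 0) : Elt n)) (fib_pt 0) B
      omega)
  refine ⟨v, ?_, hpv⟩
  intro h
  apply hv
  simp only [mem_filter, mem_univ, true_and, sub_zero]
  exact h

/-- values with `ClOk` for a translate -/
lemma bad_le [NeZero n] (a : ZMod n) : (univ.filter fun v : ZMod n => ¬ ClOk (v - a)).card ≤ 4 := by
  have hsub : (univ.filter fun v : ZMod n => ¬ ClOk (v - a)) ⊆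
      {a, a + 1} ∪ (univ.filter fun w : ZMod n => w + w = 1 + a + a) := by
    intro v hv
    simp only [mem_filter, mem_univ, true_and, ClOk, not_and_or, not_not] at hv
    simp only [mem_union, mem_insert, mem_singleton, mem_filter, mem_univ, true_and]
    rcases hv with h | h | h
    · left; left; exact sub_eq_zero.mp h
    · left; right; linear_combination h
    · right; linear_combination h
  refine le_trans (card_le_card hsub) (le_trans (card_union_le _ _) ?_)
  have h1 := two_fib (1 + a + a)
  have h2 : ({a, a + 1} : Finset (ZMod n)).card ≤ 2 := card_le_two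
  omega

lemma ClOk_symm {w : ZMod n} (h : ClOk (1 - w)) : ClOk w := by
  obtain ⟨h1, h2, h3⟩ := h
  refine ⟨fun h => h2 (by rw [h, sub_zero]), fun h => h1 (by rw [h, sub_self]), fun h => h3 ?_⟩
  linear_combination -h

/-- a new class -/
lemma new_cl [NeZero n] (B : Finset (Elt n)) (hB : 4 * B.card + 10 ≤ n) :
    ∃ w : ZMod n, ClOk w ∧ Sum.inr (cl w) ∉ B := by
  obtain ⟨v, hv, -⟩ := exists_par (n := n) (0 : ZMod 2) (fun _ => rfl)
    ((univ.filter fun v : ZMod n => (Sum.inr (cl (v - 0)) : Elt n) ∈ B) ∪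
      (univ.filter fun v : ZMod n => ¬ ClOk (v - 0))) (by
      have h1 := card_pre_le (fun v : ZMod n => (Sum.inr (cl (v - 0)) : Elt n)) (fib_cl 0) B
      have h2 := bad_le (0 : ZMod n)
      have h3 := card_union_le (univ.filter fun v : ZMod n => (Sum.inr (cl (v - 0)) : Elt n) ∈ B)
        (univ.filter fun v : ZMod n => ¬ ClOk (v - 0))
      omega)
  simp only [mem_union, mem_filter, mem_univ, true_and, not_or, not_not, sub_zero] at hv
  exact ⟨v, hv.2, hv.1⟩

/-- a new value at time `k` -/
lemma new_val [NeZero n] (p : ZMod 2) (hp : ¬ Even n → p = 0) (k : ℕ) (hk : (k : ZMod n) ≠ 0)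
    (a b : ZMod n) (hab : b - a ≠ 1) (B : Finset (Elt n)) (hB : 16 * B.card + 30 ≤ n) :
    ∃ v : ZMod n, par v = p ∧ (sta n k a b v).card = 4 ∧ ClOk (v - a) ∧ ClOk (b - v) ∧
      Disjoint (sta n k a b v) B := by
  obtain ⟨v, hv, hpv⟩ := exists_par p hp
    ((univ.filter fun v : ZMod n => (Sum.inl (v - 0) : Elt n) ∈ B) ∪
      (univ.filter fun v : ZMod n => (Sum.inl (v - (k : ZMod n)) : Elt n) ∈ B) ∪
      (univ.filter fun v : ZMod n => (Sum.inr (cl (v - a)) : Elt n) ∈ B) ∪
      (univ.filter fun v : ZMod n => (Sum.inr (cl (b - v)) : Elt n) ∈ B) ∪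
      (univ.filter fun v : ZMod n => ¬ ClOk (v - a)) ∪
      (univ.filter fun v : ZMod n => ¬ ClOk (v - (b - 1))) ∪
      (univ.filter fun v : ZMod n => v + v = a + b)) (by
      have h1 := card_pre_le (fun v : ZMod n => (Sum.inl (v - 0) : Elt n)) (fib_pt 0) B
      have h2 := card_pre_le (fun v : ZMod n => (Sum.inl (v - (k : ZMod n)) : Elt n)) (fib_pt _) B
      have h3 := card_pre_le (fun v : ZMod n => (Sum.inr (cl (v - a)) : Elt n)) (fib_cl a) B
      have h4 := card_pre_le (fun v : ZMod n => (Sum.inr (cl (b - v)) : Elt n)) (fib_cl' b) B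
      have h5 := bad_le a
      have h6 := bad_le (b - 1)
      have h7 := two_fib (a + b)
      have h8 : ∀ s1 s2 s3 s4 s5 s6 s7 : Finset (ZMod n),
          (s1 ∪ s2 ∪ s3 ∪ s4 ∪ s5 ∪ s6 ∪ s7).card ≤
          s1.card + s2.card + s3.card + s4.card + s5.card + s6.card + s7.card := by
        intro s1 s2 s3 s4 s5 s6 s7
        have e1 := card_union_le s1 s2
        have e2 := card_union_le (s1 ∪ s2) s3
        have e3 := card_union_le (s1 ∪ s2 ∪ s3) s4
        have e4 := card_union_le (s1 ∪ s2 ∪ s3 ∪ s4) s5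
        have e5 := card_union_le (s1 ∪ s2 ∪ s3 ∪ s4 ∪ s5) s6
        have e6 := card_union_le (s1 ∪ s2 ∪ s3 ∪ s4 ∪ s5 ∪ s6) s7
        omega
      refine le_trans (Nat.add_le_add_right (Nat.mul_le_mul_left 2 (h8 _ _ _ _ _ _ _)) 2) ?_
      omega)
  simp only [mem_union, mem_filter, mem_univ, true_and, not_or, not_not, sub_zero] at hv
  obtain ⟨⟨⟨⟨⟨⟨v1, v2⟩, v3⟩, v4⟩, v5⟩, v6⟩, v7⟩ := hv
  have v6' : ClOk (b - v) := by
    apply ClOk_symm
    have : 1 - (b - v) = v - (b - 1) := by ring
    rw [this]; exact v6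
  refine ⟨v, hpv, ?_, v5, v6', ?_⟩
  · have e1 : (Sum.inl v : Elt n) ≠ Sum.inl (v - (k : ZMod n)) := by
      intro h
      have := Sum.inl.inj h
      apply hk
      linear_combination this
    have e2 : (Sum.inr (cl (v - a)) : Elt n) ≠ Sum.inr (cl (b - v)) := by
      intro h
      rcases cl_eq.mp (Sum.inr.inj h) with h | h
      · apply v7
        linear_combination h
      · apply hab
        linear_combination h
    unfold sta
    rw [card_insert_of_notMem, card_insert_of_notMem, card_insert_of_notMem, card_singleton]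
    · simpa using fun h => e2 (by rw [h])
    · simp
    · simp only [mem_insert, mem_singleton, not_or]
      exact ⟨e1, by simp, by simp⟩
  · unfold sta
    simp only [disjoint_insert_left, disjoint_singleton_left]
    exact ⟨v1, v2, v3, v4⟩

/-- many values -/
lemma new_vals [NeZero n] {κ : Type} [DecidableEq κ] (p : ZMod 2) (hp : ¬ Even n → p = 0) (k : ℕ)
    (hk : (k : ZMod n) ≠ 0)
    (a b : ZMod n) (hab : b - a ≠ 1) (B : Finset (Elt n)) (R : Finset κ)
    (hB : 16 * (B.card + 4 * R.card) + 30 ≤ n) :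
    ∃ v : κ → ZMod n, (∀ y ∈ R, par (v y) = p) ∧ (∀ y ∈ R, (sta n k a b (v y)).card = 4) ∧
      (∀ y ∈ R, ClOk (v y - a)) ∧ (∀ y ∈ R, ClOk (b - v y)) ∧
      (∀ y ∈ R, Disjoint (sta n k a b (v y)) B) ∧
      (∀ y ∈ R, ∀ y' ∈ R, y ≠ y' → Disjoint (sta n k a b (v y)) (sta n k a b (v y'))) := by
  induction R using Finset.induction_on with
  | empty => exact ⟨fun _ => 0, by simp⟩
  | insert z R hz ih =>
    rw [card_insert_of_notMem hz] at hB
    obtain ⟨v, g1, g2, g3, g4, g5, g6⟩ := ih (by omega)
    obtain ⟨v0, f1, f2, f3, f4, f5⟩ := new_val p hp k hk a b hab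
      (B ∪ R.biUnion fun y => sta n k a b (v y)) (by
        have h1 := card_union_le B (R.biUnion fun y => sta n k a b (v y))
        have h2 : (R.biUnion fun y => sta n k a b (v y)).card ≤ R.card * 4 :=
          card_biUnion_le_card_mul _ _ _ (fun y hy => le_of_eq (g2 y hy))
        omega)
    have hne : ∀ y ∈ R, y ≠ z := by rintro y hy rfl; exact hz hy
    have hd : ∀ y ∈ R, Disjoint (sta n k a b v0) (sta n k a b (v y)) := by
      intro y hy
      refine Finset.disjoint_of_subset_right ?_ f5
      exact (subset_biUnion_of_mem (fun y => sta n k a b (v y)) hy).trans subset_union_right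
    refine ⟨Function.update v z v0, ?_, ?_, ?_, ?_, ?_, ?_⟩
    · intro y hy
      rcases mem_insert.mp hy with rfl | hy
      · rw [Function.update_self]; exact f1
      · rw [Function.update_of_ne (hne y hy)]; exact g1 y hy
    · intro y hy
      rcases mem_insert.mp hy with rfl | hy
      · rw [Function.update_self]; exact f2
      · rw [Function.update_of_ne (hne y hy)]; exact g2 y hy
    · intro y hy
      rcases mem_insert.mp hy with rfl | hy
      · rw [Function.update_self]; exact f3
      · rw [Function.update_of_ne (hne y hy)]; exact g3 y hy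
    · intro y hy
      rcases mem_insert.mp hy with rfl | hy
      · rw [Function.update_self]; exact f4
      · rw [Function.update_of_ne (hne y hy)]; exact g4 y hy
    · intro y hy
      rcases mem_insert.mp hy with rfl | hy
      · rw [Function.update_self]
        exact Finset.disjoint_of_subset_right subset_union_left f5
      · rw [Function.update_of_ne (hne y hy)]; exact g5 y hy
    · intro y hy y' hy' hyy
      rcases mem_insert.mp hy with rfl | k1 <;> rcases mem_insert.mp hy' with rfl | k2
      · exact absurd rfl hyy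
      · rw [Function.update_self, Function.update_of_ne (hne y' k2)]; exact hd y' k2
      · rw [Function.update_self, Function.update_of_ne (hne y k1)]; exact (hd y k1).symm
      · rw [Function.update_of_ne (hne y k1), Function.update_of_ne (hne y' k2)]
        exact g6 y k1 y' k2 hyy

/-- the four elements of `sta` as a function on `Fin 4` -/
def st (n k : ℕ) (a b v : ZMod n) : Fin 4 → Elt n :=
  ![Sum.inl v, Sum.inl (v - (k : ZMod n)), Sum.inr (cl (v - a)), Sum.inr (cl (b - v))]

lemma sta_eq (k : ℕ) (a b v : ZMod n) : sta n k a b v = univ.image (st n k a b v) := by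
  ext z
  simp only [sta, st, mem_insert, mem_singleton, mem_image, mem_univ, true_and]
  constructor
  · rintro (h | h | h | h)
    · exact ⟨0, h.symm⟩
    · exact ⟨1, h.symm⟩
    · exact ⟨2, h.symm⟩
    · exact ⟨3, h.symm⟩
  · rintro ⟨i, hi⟩
    fin_cases i
    · left; exact hi.symm
    · right; left; exact hi.symm
    · right; right; left; exact hi.symm
    · right; right; right; exact hi.symm

lemma st_inj {k : ℕ} {a b v : ZMod n} (h : (sta n k a b v).card = 4) :
    Function.Injective (st n k a b v) := by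
  rw [sta_eq] at h
  have : (univ.image (st n k a b v)).card = (univ : Finset (Fin 4)).card := by rw [h]; rfl
  exact fun i j hij => (card_image_iff.mp this) (mem_coe.mpr (mem_univ _)) (mem_coe.mpr (mem_univ _)) hij

lemma st_mem (k : ℕ) (a b v : ZMod n) (i : Fin 4) : st n k a b v i ∈ sta n k a b v := by
  rw [sta_eq]
  exact mem_image_of_mem _ (mem_univ i)

lemma st_mem_All [NeZero n] {k : ℕ} {a b v : ZMod n} (h1 : ClOk (v - a)) (h2 : ClOk (b - v))
    (i : Fin 4) : st n k a b v i ∈ All n := by
  fin_cases i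
  · exact inl_mem_All _
  · exact inl_mem_All _
  · exact inr_mem_All h1
  · exact inr_mem_All h2

/-- two new points at a given distance -/
lemma new_two [NeZero n] (c d : ZMod n) (B : Finset (Elt n)) (hB : 8 * B.card + 4 ≤ n) :
    ∃ a : ZMod n, (Sum.inl a : Elt n) ∉ B ∧ (Sum.inl (a - c) : Elt n) ∉ B ∧ a ≠ d := by
  obtain ⟨v, hv, -⟩ := exists_par (n := n) (0 : ZMod 2) (fun _ => rfl)
    ((univ.filter fun v : ZMod n => (Sum.inl (v - 0) : Elt n) ∈ B) ∪
      (univ.filter fun v : ZMod n => (Sum.inl (v - c) : Elt n) ∈ B) ∪ {d}) (by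
      have h1 := card_pre_le (fun v : ZMod n => (Sum.inl (v - 0) : Elt n)) (fib_pt 0) B
      have h2 := card_pre_le (fun v : ZMod n => (Sum.inl (v - c) : Elt n)) (fib_pt c) B
      have h3 := card_union_le (univ.filter fun v : ZMod n => (Sum.inl (v - 0) : Elt n) ∈ B)
        (univ.filter fun v : ZMod n => (Sum.inl (v - c) : Elt n) ∈ B)
      have h4 := card_union_le ((univ.filter fun v : ZMod n => (Sum.inl (v - 0) : Elt n) ∈ B) ∪
        (univ.filter fun v : ZMod n => (Sum.inl (v - c) : Elt n) ∈ B)) {d}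
      rw [card_singleton] at h4
      omega)
  simp only [mem_union, mem_filter, mem_univ, true_and, not_or, mem_singleton, sub_zero] at hv
  exact ⟨v, hv.1.1, hv.1.2, hv.2⟩

lemma tri_sub_All [NeZero n] (k : ℕ) (a b : ZMod n) : tri n k a b ⊆ All n := by
  intro z hz
  simp only [tri, mem_insert, mem_singleton] at hz
  rcases hz with rfl | rfl | rfl | rfl <;> exact inl_mem_All _

lemma cost_sum (k : ℕ) (a b v : ZMod n) : ∑ i, cost (st n k a b v i) = 34 := by
  rw [Fin.sum_univ_four]
  rfl

lemma natCast_ne_zero_of [NeZero n] {k : ℕ} (h0 : 0 < k) (h : k < n) : (k : ZMod n) ≠ 0 := by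
  intro hk
  rw [ZMod.natCast_eq_zero_iff] at hk
  exact absurd (Nat.le_of_dvd h0 hk) (by omega)

/-- a free block -/
lemma free_block {Q : ℕ} (hQ : 100 ≤ Q) (BadJ : Finset ℕ) (hn : 10 ^ 6 * Q ≤ n)
    (hJ : 60 * Q * BadJ.card ≤ n) : ∃ j ∈ Blocks n Q, j ∉ BadJ := by
  by_contra hcon
  push Not at hcon
  have hsub : Blocks n Q ⊆ BadJ := hcon
  have hle := card_le_card hsub
  unfold Blocks at hle
  rw [Nat.card_Ico] at hle
  have h1 : T1 n < Q * (J1 n Q + 1) := by
    unfold J1
    exact Nat.lt_mul_div_succ _ (by omega)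
  have h2 : 60 * Q * (J1 n Q - 1) ≤ n := le_trans (Nat.mul_le_mul_left _ hle) hJ
  have h3 : J1 n Q + 1 ≤ (J1 n Q - 1) + 2 := by omega
  have h4 : Q * (J1 n Q + 1) ≤ Q * ((J1 n Q - 1) + 2) := Nat.mul_le_mul_left _ h3
  have h5 : 60 * (Q * (J1 n Q - 1)) ≤ n := by rw [← mul_assoc]; exact h2
  have h6 : Q * ((J1 n Q - 1) + 2) = Q * (J1 n Q - 1) + 2 * Q := by ring
  have h7 : n ≤ 2 * T1 n + 2 := by unfold T1; omega
  omega

end SlotAux

open Finset SlotAux in
theorem stSlot (h1 : StPackUnion) (h2 : StFrame) (h3 : StPS) (h4 : StCS) : StSlot := by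
  intro Q hQ
  obtain ⟨N1, hN1⟩ := h2 Q (by omega)
  obtain ⟨N2, hN2⟩ := swp h3 h4 Q hQ
  refine ⟨max N1 N2, fun n hn _ U BadE BadJ hE hJ R hR hRne hk hRc => ?_⟩
  have hn1 : N1 ≤ n := le_trans (le_max_left _ _) hn
  have hn2 : N2 ≤ n := le_trans (le_max_right _ _) hn
  have hρ : 1 ≤ R.card := card_pos.mpr hRne
  set ρ := R.card with hρdef
  have hP : Q * ρ ≤ Q * ρ := le_rfl
  have hPρ : ρ ≤ Q * ρ := Nat.le_mul_of_pos_left _ (by omega)
  have hPQ : Q ≤ Q * ρ := Nat.le_mul_of_pos_right _ (by omega)
  have hPn : 10 ^ 6 * (Q * ρ) ≤ n := by rw [← mul_assoc]; exact hRc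
  have hQn : 10 ^ 6 * Q ≤ n := by omega
  -- the centre block and time
  obtain ⟨j0, hj0, hj0B⟩ := free_block hQ BadJ hQn hJ
  set k0 := j0 * Q + 4 with hk0
  have hj0' : 1 ≤ j0 ∧ j0 < J1 n Q := by simpa [Blocks] using hj0
  have hk0n : k0 + 4 ≤ (j0 + 1) * Q := by
    have : (j0 + 1) * Q = j0 * Q + Q := by ring
    omega
  have hk0lt : k0 + 4 < n := by
    have e1 : (j0 + 1) * Q ≤ J1 n Q * Q := Nat.mul_le_mul_right _ hj0'.2
    have e2 : J1 n Q * Q ≤ T1 n := Nat.div_mul_le_self _ _
    have e3 : T1 n < n := by unfold T1; omega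
    omega
  have hk0z : (k0 : ZMod n) ≠ 0 := natCast_ne_zero_of (by omega) (by omega)
  have hk0m : (k0 : ZMod n) - 1 ≠ 0 := by
    have : (k0 : ZMod n) - 1 = ((k0 - 1 : ℕ) : ZMod n) := by
      rw [Nat.cast_sub (by omega)]; simp
    rw [this]; exact natCast_ne_zero_of (by omega) (by omega)
  have hk0p : (k0 : ZMod n) + 1 ≠ 0 := by
    have : (k0 : ZMod n) + 1 = ((k0 + 1 : ℕ) : ZMod n) := by push_cast; ring
    rw [this]; exact natCast_ne_zero_of (by omega) (by omega)
  -- the neighbours
  have cB1 : (BadE ∪ R).card ≤ BadE.card + ρ := card_union_le _ _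
  obtain ⟨a, ha1, ha2, -⟩ := new_two ((k0 : ZMod n) - 1) 0 (BadE ∪ R) (by omega)
  have cA : ((BadE ∪ R) ∪ {Sum.inl a, Sum.inl (a - ((k0 : ZMod n) - 1))}).card ≤
      BadE.card + ρ + 2 := by
    have e1 := card_union_le (BadE ∪ R) {Sum.inl a, Sum.inl (a - ((k0 : ZMod n) - 1))}
    have e2 : ({Sum.inl a, Sum.inl (a - ((k0 : ZMod n) - 1))} : Finset (Elt n)).card ≤ 2 :=
      card_le_two
    omega
  obtain ⟨b, hb1, hb2, hb3⟩ := new_two ((k0 : ZMod n) + 1) (a + 1)
    ((BadE ∪ R) ∪ {Sum.inl a, Sum.inl (a - ((k0 : ZMod n) - 1))}) (by omega)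
  have hab : b - a ≠ 1 := by
    intro h; apply hb3; linear_combination h
  simp only [mem_union, mem_insert, mem_singleton, not_or] at ha1 ha2 hb1 hb2
  have htri4 : (tri n k0 a b).card = 4 := by
    have e1 : (Sum.inl a : Elt n) ≠ Sum.inl (a - ((k0 : ZMod n) - 1)) := by
      intro h
      apply hk0m
      linear_combination (Sum.inl.inj h)
    have e2 : (Sum.inl b : Elt n) ≠ Sum.inl (b - ((k0 : ZMod n) + 1)) := by
      intro h
      apply hk0p
      linear_combination (Sum.inl.inj h)
    unfold tri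
    rw [card_insert_of_notMem, card_insert_of_notMem, card_insert_of_notMem, card_singleton]
    · simpa using fun h => e2 (by rw [← h])
    · simp only [mem_insert, mem_singleton, not_or]
      exact ⟨fun h => hb1.2.2 h.symm, fun h => hb2.2.2 h.symm⟩
    · simp only [mem_insert, mem_singleton, not_or]
      exact ⟨e1, fun h => hb1.2.1 h.symm, fun h => hb2.2.1 h.symm⟩
  have htriE : Disjoint (tri n k0 a b) (BadE ∪ R) := by
    unfold tri
    simp only [disjoint_insert_left, disjoint_singleton_left, mem_union, not_or]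
    exact ⟨ha1, ha2, hb1.1, hb2.1⟩
  have htriA : tri n k0 a b ⊆ All n := tri_sub_All _ _ _
  set B2 := (BadE ∪ R) ∪ tri n k0 a b with hB2
  have cB2 : B2.card ≤ BadE.card + ρ + 4 := by
    have e1 := card_union_le (BadE ∪ R) (tri n k0 a b)
    rw [← hB2] at e1
    omega
  -- kind of `R`
  obtain ⟨π, i0, hπ, hRk⟩ : ∃ (π : ZMod 2) (i0 : Fin 4), (¬ Even n → π = 0) ∧
      ∀ (q : Fin 4 → Elt n), (∃ x, q 0 = Sum.inl x ∧ par x = π) → (∃ c, q 2 = Sum.inr c) →
        ∀ y ∈ R, kd y = kd (q i0) := by
    obtain ⟨y0, hy0⟩ := hRne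
    rcases y0 with x0 | c0
    · refine ⟨par x0, 0, ?_, ?_⟩
      · intro h; unfold par; rw [if_neg h]
      · rintro q ⟨x, hx, hpx⟩ - y hy
        rw [hx, hk y hy _ hy0]
        exact kd_inl_of_par hpx.symm
    · refine ⟨0, 2, fun _ => rfl, ?_⟩
      rintro q - ⟨c, hc⟩ y hy
      rw [hc, hk y hy _ hy0]
      rfl
  have hπ' : ¬ Even n → π - par (k0 : ZMod n) = 0 := by
    intro h
    rw [hπ h]; unfold par; rw [if_neg h]; simp
  -- the new elements `q`
  obtain ⟨q0, hq0, hq0p⟩ := new_pt π hπ B2 (by omega)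
  have c1 : (insert (Sum.inl q0) B2).card ≤ BadE.card + ρ + 5 := by
    have := card_insert_le (Sum.inl q0 : Elt n) B2
    omega
  obtain ⟨q1, hq1, hq1p⟩ := new_pt _ hπ' (insert (Sum.inl q0) B2) (by omega)
  have c2 : (insert (Sum.inl q1) (insert (Sum.inl q0) B2)).card ≤ BadE.card + ρ + 6 := by
    have := card_insert_le (Sum.inl q1 : Elt n) (insert (Sum.inl q0) B2)
    omega
  obtain ⟨q2, hq2o, hq2⟩ := new_cl (insert (Sum.inl q1) (insert (Sum.inl q0) B2)) (by omega)
  have c3 : (insert (Sum.inr (cl q2)) (insert (Sum.inl q1) (insert (Sum.inl q0) B2))).card ≤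
      BadE.card + ρ + 7 := by
    have := card_insert_le (Sum.inr (cl q2) : Elt n) (insert (Sum.inl q1) (insert (Sum.inl q0) B2))
    omega
  obtain ⟨q3, hq3o, hq3⟩ := new_cl
    (insert (Sum.inr (cl q2)) (insert (Sum.inl q1) (insert (Sum.inl q0) B2))) (by omega)
  simp only [mem_insert, not_or] at hq1 hq2 hq3
  set q : Fin 4 → Elt n := ![Sum.inl q0, Sum.inl q1, Sum.inr (cl q2), Sum.inr (cl q3)] with hq
  have hqA : ∀ i, q i ∈ All n := by
    intro i
    fin_cases i
    · exact inl_mem_All _
    · exact inl_mem_All _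
    · exact inr_mem_All hq2o
    · exact inr_mem_All hq3o
  have hqB : ∀ i, q i ∉ B2 := by
    intro i
    fin_cases i
    · exact hq0
    · exact hq1.2
    · exact hq2.2.2
    · exact hq3.2.2.2
  have hqI : Function.Injective q := by
    have f1 : (Sum.inl q1 : Elt n) ≠ Sum.inl q0 := hq1.1
    have f2 : (Sum.inr (cl q3) : Elt n) ≠ Sum.inr (cl q2) := hq3.1
    intro i j hij
    fin_cases i <;> fin_cases j <;> first
      | rfl
      | (exfalso; exact f1 hij)
      | (exfalso; exact f1 hij.symm)
      | (exfalso; exact f2 hij)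
      | (exfalso; exact f2 hij.symm)
      | (exfalso; exact Sum.inl_ne_inr hij)
      | (exfalso; exact Sum.inr_ne_inl hij)
  have hRk' : ∀ y ∈ R, kd y = kd (q i0) := hRk q ⟨q0, rfl, hq0p⟩ ⟨cl q2, rfl⟩
  set B3 := B2 ∪ univ.image q with hB3
  have cB3 : B3.card ≤ BadE.card + ρ + 8 := by
    have e1 := card_union_le B2 (univ.image q)
    have e2 : (univ.image q).card ≤ 4 := by
      refine le_trans card_image_le ?_
      simp
    rw [← hB3] at e1
    omega
  -- the values `v`
  obtain ⟨v, v1, v2, v3, v4, v5, v6⟩ := new_vals π hπ k0 hk0z a b hab B3 R (by omega)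
  set B4 := B3 ∪ R.biUnion (fun y => sta n k0 a b (v y)) with hB4
  have cB4 : B4.card ≤ BadE.card + 5 * ρ + 8 := by
    have e1 := card_union_le B3 (R.biUnion (fun y => sta n k0 a b (v y)))
    have e2 : (R.biUnion (fun y => sta n k0 a b (v y))).card ≤ R.card * 4 :=
      card_biUnion_le_card_mul _ _ _ (fun y hy => le_of_eq (v2 y hy))
    rw [← hB4] at e1
    omega
  -- the frame
  obtain ⟨f0, R0, hR0A, hR0B, hR0t, hfr⟩ := hN1 n hn1 U j0 k0 hj0 (by omega) hk0n a b B4 (by omega)
    htri4
  have B23 : B2 ⊆ B3 := subset_union_left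
  have B34 : B3 ⊆ B4 := subset_union_left
  have hEB : BadE ⊆ B2 := subset_union_left.trans subset_union_left
  have hRB : R ⊆ B2 := subset_union_right.trans subset_union_left
  have htB : tri n k0 a b ⊆ B2 := subset_union_right
  have hqB3 : ∀ i, q i ∈ B3 := fun i => mem_union_right _ (mem_image_of_mem _ (mem_univ i))
  have hstB4 : ∀ y ∈ R, sta n k0 a b (v y) ⊆ B4 := fun y hy =>
    (subset_biUnion_of_mem (fun y => sta n k0 a b (v y)) hy).trans subset_union_right
  have hcen : ∀ y ∈ R, IsFill n Q U j0 (Function.update f0 k0 (v y)) ∧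
      foot n Q j0 (Function.update f0 k0 (v y)) = tri n k0 a b ∪ R0 ∪ sta n k0 a b (v y) := by
    intro y hy
    apply hfr (v y) (v2 y hy) (v3 y hy) (v4 y hy)
    rw [disjoint_union_right]
    refine ⟨Finset.disjoint_of_subset_right (htB.trans B23) (v5 y hy), ?_⟩
    exact (Finset.disjoint_of_subset_right (hstB4 y hy) hR0B).symm
  have cR0 : R0.card ≤ 3 * Q := by
    obtain ⟨y0, hy0⟩ := hRne
    obtain ⟨e1, e2⟩ := hcen y0 hy0
    have e3 := e1.card
    have e4 : R0 ⊆ foot n Q j0 (Function.update f0 k0 (v y0)) := by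
      rw [e2]
      exact subset_union_right.trans subset_union_left
    have := card_le_card e4
    omega
  set B5 := B4 ∪ R0 with hB5
  have cB5 : B5.card ≤ BadE.card + 5 * ρ + 8 + 3 * Q := by
    have := card_union_le B4 R0
    rw [← hB5] at this
    omega
  have B45 : B4 ⊆ B5 := subset_union_left
  -- the swaps
  set T : Elt n → Fin 4 → Elt n := fun y i => if i = i0 then y else q i with hT
  set u : Elt n → Fin 4 → Elt n := fun y i => st n k0 a b (v y) i with hu
  have huA : ∀ y ∈ R, ∀ i, u y i ∈ All n := fun y hy i => st_mem_All (v3 y hy) (v4 y hy) i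
  have huS : ∀ y, ∀ i, u y i ∈ sta n k0 a b (v y) := fun y i => st_mem _ _ _ _ i
  have hTB3 : ∀ y ∈ R, ∀ i, T y i ∈ B3 := by
    intro y hy i
    simp only [hT]
    split_ifs
    · exact B23 (hRB hy)
    · exact hqB3 i
  have hTA : ∀ y ∈ R, ∀ i, T y i ∈ All n := by
    intro y hy i
    simp only [hT]
    split_ifs
    · exact hR hy
    · exact hqA i
  have huB3 : ∀ y ∈ R, ∀ i, u y i ∉ B3 := by
    intro y hy i h
    exact (Finset.disjoint_left.mp (v5 y hy)) (huS y i) h
  have hkq : ∀ y ∈ R, ∀ i, kd (u y i) = kd (q i) := by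
    intro y hy i
    fin_cases i
    · exact kd_inl_of_par (by rw [v1 y hy, hq0p])
    · refine kd_inl_of_par ?_
      rw [par_sub, v1 y hy, hq1p]
    · rfl
    · rfl
  have hkT : ∀ y ∈ R, ∀ i, kd (u y i) = kd (T y i) := by
    intro y hy i
    rw [hkq y hy i]
    simp only [hT]
    split_ifs with h
    · rw [h, hRk' y hy]
    · rfl
  have cI : (R ×ˢ (univ : Finset (Fin 4))).card = ρ * 4 := by
    rw [card_product]; rfl
  have cBJ : (insert j0 BadJ).card ≤ BadJ.card + 1 := card_insert_le _ _
  obtain ⟨J, Z, g1, g2, g3, g4, g5, g6, g7, g8⟩ := many U (hN2 n hn2 U)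
    (R ×ˢ (univ : Finset (Fin 4))) (fun p => u p.1 p.2) (fun p => T p.1 p.2) B5 (insert j0 BadJ)
    (fun p hp => huA p.1 (mem_product.mp hp).1 p.2) (fun p hp => hTA p.1 (mem_product.mp hp).1 p.2)
    (fun p hp => hkT p.1 (mem_product.mp hp).1 p.2)
    (fun p hp h => huB3 p.1 (mem_product.mp hp).1 p.2 (by
      have h' : u p.1 p.2 = T p.1 p.2 := h
      rw [h']; exact hTB3 p.1 (mem_product.mp hp).1 p.2))
    (by
      rw [cI]
      have e1 : 42 * Q * (ρ * 4) = 168 * (Q * ρ) := by ring
      rw [e1]
      omega)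
    (by
      rw [cI]
      have e1 : 50 * Q * ((insert j0 BadJ).card + 14 * (ρ * 4)) ≤
          50 * Q * ((BadJ.card + 1) + 14 * (ρ * 4)) := by gcongr
      have e2 : 50 * Q * ((BadJ.card + 1) + 14 * (ρ * 4)) =
          50 * (Q * BadJ.card) + 50 * Q + 2800 * (Q * ρ) := by ring
      have e3 : 60 * Q * BadJ.card = 60 * (Q * BadJ.card) := by ring
      rw [e3] at hJ
      omega)
  set I := R ×ˢ (univ : Finset (Fin 4)) with hI
  have hZB5 : ∀ p ∈ I, ∀ z ∈ Z p, z ∉ B5 := fun p hp z hz => (mem_sdiff.mp (g3 p hp hz)).2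
  refine ⟨insert j0 (I.biUnion J), ?_, ?_,
    tri n k0 a b ∪ R0 ∪ R.biUnion (fun y => sta n k0 a b (v y)) ∪ (univ.erase i0).image q ∪
      I.biUnion Z, ?_, ?_⟩
  · intro j hj
    rcases mem_insert.mp hj with rfl | hj
    · exact mem_sdiff.mpr ⟨hj0, hj0B⟩
    · obtain ⟨p, hp, hjp⟩ := mem_biUnion.mp hj
      have := g1 p hp hjp
      rw [mem_sdiff, mem_insert, not_or] at this
      exact mem_sdiff.mpr ⟨this.1, this.2.2⟩
  · have e1 := card_insert_le j0 (I.biUnion J)
    have e2 : (I.biUnion J).card ≤ ∑ p ∈ I, (J p).card := card_biUnion_le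
    have e3 : ∑ p ∈ I, (J p).card ≤ ∑ p ∈ I, cost (u p.1 p.2) := sum_le_sum g2
    have e4 : ∑ p ∈ I, cost (u p.1 p.2) = ρ * 34 := by
      rw [hI, sum_product]
      simp only [hu]
      rw [sum_congr rfl (fun y _ => cost_sum k0 a b (v y)), sum_const, smul_eq_mul]
    omega
  · intro z hz
    simp only [mem_union] at hz
    rw [mem_sdiff, mem_union]
    rcases hz with (((hz | hz) | hz) | hz) | hz
    · refine ⟨htriA hz, ?_⟩
      intro h
      exact (Finset.disjoint_left.mp htriE) hz (mem_union.mpr h)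
    · refine ⟨hR0A hz, ?_⟩
      intro h
      refine (Finset.disjoint_left.mp hR0B) hz (B34 (B23 ?_))
      rcases h with h | h
      · exact hEB h
      · exact hRB h
    · obtain ⟨y, hy, hzy⟩ := mem_biUnion.mp hz
      refine ⟨?_, ?_⟩
      · rw [sta_eq] at hzy
        obtain ⟨i, -, rfl⟩ := mem_image.mp hzy
        exact huA y hy i
      · intro h
        refine (Finset.disjoint_left.mp (v5 y hy)) hzy (B23 ?_)
        rcases h with h | h
        · exact hEB h
        · exact hRB h
    · obtain ⟨i, -, rfl⟩ := mem_image.mp hz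
      refine ⟨hqA i, ?_⟩
      intro h
      apply hqB i
      rcases h with h | h
      · exact hEB h
      · exact hRB h
    · obtain ⟨p, hp, hzp⟩ := mem_biUnion.mp hz
      refine ⟨(mem_sdiff.mp (g3 p hp hzp)).1, ?_⟩
      intro h
      refine hZB5 p hp z hzp (B45 (B34 (B23 ?_)))
      rcases h with h | h
      · exact hEB h
      · exact hRB h
  · intro y hy
    -- the elements covered by the swap gadgets
    set w : Elt n × Fin 4 → Elt n := fun p => if p.1 = y then T p.1 p.2 else u p.1 p.2 with hw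
    have hwB : ∀ p ∈ I, w p ∈ B4 := by
      intro p hp
      have hp1 := (mem_product.mp hp).1
      simp only [hw]
      split_ifs
      · exact B34 (hTB3 p.1 hp1 p.2)
      · exact hstB4 p.1 hp1 (huS p.1 p.2)
    have hwI : ∀ p ∈ I, ∀ p' ∈ I, w p = w p' → p = p' := by
      rintro ⟨y1, i1⟩ hp ⟨y2, i2⟩ hp' hww
      have hp1 := (mem_product.mp hp).1
      have hp2 := (mem_product.mp hp').1
      simp only at hp1 hp2
      simp only [hw] at hww
      split_ifs at hww with c1 c2 c2
      · subst c1; subst c2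
        simp only [hT] at hww
        have : i1 = i2 := by
          split_ifs at hww with d1 d2 d2
          · rw [d1, d2]
          · exact absurd (hRB hp1) (by rw [hww]; exact hqB i2)
          · exact absurd (hRB hp1) (by rw [← hww]; exact hqB i1)
          · exact hqI hww
        rw [this]
      · exact absurd (hTB3 y1 hp1 i1) (by rw [hww]; exact huB3 y2 hp2 i2)
      · exact absurd (hTB3 y2 hp2 i2) (by rw [← hww]; exact huB3 y1 hp1 i1)
      · by_cases hyy : y1 = y2
        · subst hyy
          have : i1 = i2 := st_inj (v2 y1 hp1) hww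
          rw [this]
        · exfalso
          refine (Finset.disjoint_left.mp (v6 y1 hp1 y2 hp2 hyy)) (huS y1 i1) ?_
          rw [hww]; exact huS y2 i2
    have hwC : ∀ p ∈ I, w p ∉ tri n k0 a b ∪ R0 ∪ sta n k0 a b (v y) := by
      rintro ⟨y1, i1⟩ hp
      have hp1 := (mem_product.mp hp).1
      simp only at hp1
      rw [mem_union, mem_union, not_or, not_or]
      refine ⟨⟨?_, ?_⟩, ?_⟩
      · simp only [hw]
        split_ifs with c1
        · simp only [hT]
          split_ifs with d1
          · intro h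
            exact (Finset.disjoint_left.mp htriE) h (mem_union_right _ hp1)
          · intro h
            exact hqB i1 (htB h)
        · intro h
          exact huB3 y1 hp1 i1 (B23 (htB h))
      · intro h
        exact (Finset.disjoint_left.mp hR0B) h (hwB _ hp)
      · simp only [hw]
        split_ifs with c1
        · intro h
          exact (Finset.disjoint_left.mp (v5 y hy)) h (hTB3 y1 hp1 i1)
        · intro h
          exact (Finset.disjoint_left.mp (v6 y1 hp1 y hy c1)) (huS y1 i1) h
    have hCB : tri n k0 a b ∪ R0 ∪ sta n k0 a b (v y) ⊆ B5 := by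
      refine union_subset (union_subset ?_ ?_) ?_
      · exact htB.trans (B23.trans (B34.trans B45))
      · exact subset_union_right
      · exact (hstB4 y hy).trans B45
    have hbig : Packable n Q U (insert j0 (I.biUnion J))
        ((tri n k0 a b ∪ R0 ∪ sta n k0 a b (v y)) ∪ I.biUnion fun p => insert (w p) (Z p)) := by
      rw [insert_eq]
      apply h1
      · rw [disjoint_singleton_left]
        intro h
        obtain ⟨p, hp, hjp⟩ := mem_biUnion.mp h
        have := (mem_sdiff.mp (g1 p hp hjp)).2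
        exact this (mem_insert_self _ _)
      · rw [disjoint_biUnion_right]
        intro p hp
        rw [disjoint_insert_right]
        refine ⟨hwC p hp, ?_⟩
        rw [Finset.disjoint_right]
        intro z hz hzC
        exact hZB5 p hp z hz (hCB hzC)
      · obtain ⟨e1, e2⟩ := hcen y hy
        refine ⟨fun _ => Function.update f0 k0 (v y), ⟨?_, ?_, ?_⟩⟩
        · intro j hj
          rw [mem_singleton] at hj
          subst hj; exact e1
        · intro i hi j hj hij
          rw [mem_singleton] at hi hj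
          exact absurd (hi.trans hj.symm) hij
        · rw [singleton_biUnion, e2]
      · apply packable_biUnion h1 I J _ g7
        · intro p hp p' hp' hpp
          rw [disjoint_insert_left, disjoint_insert_right, mem_insert, not_or]
          refine ⟨⟨fun h => hpp (hwI p hp p' hp' h), fun h => hZB5 p' hp' _ h (B45 (hwB p hp))⟩,
            fun h => hZB5 p hp _ h (B45 (hwB p' hp')), g8 p hp p' hp' hpp⟩
        · intro p hp
          simp only [hw]
          split_ifs with c1
          · exact g6 p hp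
          · exact g5 p hp
    convert hbig using 1
    ext z
    simp only [mem_insert, mem_union, mem_biUnion, mem_image, mem_erase, mem_univ, and_true]
    constructor
    · rintro (rfl | ((((hz | hz) | ⟨y1, hy1, hz⟩) | ⟨i, hi, rfl⟩) | ⟨p, hp, hz⟩))
      · right
        refine ⟨(z, i0), mem_product.mpr ⟨hy, mem_univ _⟩, ?_⟩
        left
        simp only [hw, hT, if_true]
      · left; left; left; exact hz
      · left; left; right; exact hz
      · by_cases hyy : y1 = y
        · subst hyy
          left; right; exact hz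
        · right
          rw [sta_eq] at hz
          obtain ⟨i, -, rfl⟩ := mem_image.mp hz
          refine ⟨(y1, i), mem_product.mpr ⟨hy1, mem_univ _⟩, ?_⟩
          left
          simp only [hw, if_neg hyy, hu]
      · right
        refine ⟨(y, i), mem_product.mpr ⟨hy, mem_univ _⟩, ?_⟩
        left
        simp only [hw, hT, if_true, if_neg hi]
      · right
        exact ⟨p, hp, Or.inr hz⟩
    · rintro (((hz | hz) | hz) | ⟨p, hp, (rfl | hz)⟩)
      · right; left; left; left; left; exact hz
      · right; left; left; left; right; exact hz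
      · right; left; left; right; exact ⟨y, hy, hz⟩
      · obtain ⟨y1, i1⟩ := p
        have hp1 := (mem_product.mp hp).1
        simp only at hp1
        simp only [hw]
        split_ifs with c1
        · simp only [hT]
          split_ifs with d1
          · left; exact c1
          · right; left; right; exact ⟨i1, d1, rfl⟩
        · right; left; left; right
          exact ⟨y1, hp1, huS y1 i1⟩
      · right; right; exact ⟨p, hp, hz⟩

end Pool.Agent.DNA
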