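import Pool.Agent.Lib.MP_845d9b_co.Abs.Defs
import Pool.Agent.Lib.Nibble.Stmts

/-!
# Statements of the modules (helper41). Blueprint: team-store dna_blueprint.md
-/

set_option autoImplicit false

namespace Pool.Agent.DNA

open Finset

/-! ## 1. Anchors -/

/-- the fixed points are well distributed -/
structure Reg (n Q : ℕ) (U : ℕ → ZMod n) : Prop where
  shift : ∀ s : ZMod n, s ≠ 0 →
    Q ^ 2 * (FixP n Q U ∩ (FixP n Q U).image (· + s)).card ≤ 20 * n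
  line : ∀ x : ZMod n, Q ^ 2 * (((FixT n Q).filter fun k : ℕ => x + (k : ZMod n) ∈ FixP n Q U).card +
    ((FixT n Q).filter fun k : ℕ => x - (k : ZMod n) ∈ FixP n Q U).card) ≤ 20 * n

def StAnchors : Prop :=
  ∀ Q : ℕ, 4 ≤ Q → ∃ N : ℕ, ∀ n : ℕ, N ≤ n → ∃ U : ℕ → ZMod n, FixOk n Q U ∧ Reg n Q U

/-! ## 2. Flexible elements and reserved blocks -/

def StY : Prop :=
  ∀ (ε : ℝ) (Q : ℕ), 0 < ε → 1 ≤ Q → ∃ c0 : ℝ, 0 < c0 ∧ ∃ N : ℕ, ∀ n : ℕ, N ≤ n → ∀ [NeZero n],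
    ∀ Bad : Finset (Elt n), 50 * Bad.card ≤ n →
      (∀ x : ZMod n, 2 * ((Blocks n Q).filter fun j =>
        Sum.inl (x - ((j * Q + 2 : ℕ) : ZMod n)) ∈ Bad).card ≤ (Blocks n Q).card) →
      ∃ Y ⊆ All n \ Bad, (Y.card : ℝ) ≤ ε * n ∧ YOk n Q c0 Y

def StRes : Prop :=
  ∀ c0 c1 : ℝ, 0 < c0 → 0 < c1 → ∃ c2 : ℝ, 0 < c2 ∧ ∃ N : ℕ, ∀ n : ℕ, N ≤ n →
    ∀ (X : Finset ℕ) (H : Fin n → Finset ℕ), X ⊆ range n → (∀ x, H x ⊆ X) →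
      (∀ x, c0 * n ≤ ((H x).card : ℝ)) →
      ∃ J ⊆ X, (J.card : ℝ) ≤ c1 * n ∧ ∀ x, c2 * n ≤ ((H x ∩ J).card : ℝ)

/-! ## 3. Absorber -/

/-- basic facts on `Packable` -/
def StPackUnion : Prop :=
  ∀ (n Q : ℕ) (U : ℕ → ZMod n) (A B : Finset ℕ) (S T : Finset (Elt n)),
    Disjoint A B → Disjoint S T → Packable n Q U A S → Packable n Q U B T →
    Packable n Q U (A ∪ B) (S ∪ T)

/-- the four points at the neighbours `k-1`, `k+1` of `k` -/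
def tri (n k : ℕ) (a b : ZMod n) : Finset (Elt n) :=
  {Sum.inl a, Sum.inl (a - ((k : ZMod n) - 1)), Sum.inl b, Sum.inl (b - ((k : ZMod n) + 1))}

/-- the four elements used by the value `v` at time `k` with neighbours `a`, `b` -/
def sta (n k : ℕ) (a b v : ZMod n) : Finset (Elt n) :=
  {Sum.inl v, Sum.inl (v - (k : ZMod n)), Sum.inr (cl (v - a)), Sum.inr (cl (b - v))}

/-- fill a block around prescribed neighbours `a`, `b` of the time `k`, value at `k` still free -/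
def StFrame : Prop :=
  ∀ Q : ℕ, 12 ≤ Q → ∃ N : ℕ, ∀ n : ℕ, N ≤ n → ∀ [NeZero n], ∀ (U : ℕ → ZMod n) (j k : ℕ),
    j ∈ Blocks n Q → j * Q + 4 ≤ k → k + 4 ≤ (j + 1) * Q →
    ∀ (a b : ZMod n) (Bad : Finset (Elt n)), 20 * Bad.card ≤ n → (tri n k a b).card = 4 →
      ∃ (f0 : ℕ → ZMod n) (R : Finset (Elt n)), R ⊆ All n ∧ Disjoint R Bad ∧
        Disjoint R (tri n k a b) ∧
        ∀ v : ZMod n, (sta n k a b v).card = 4 → ClOk (v - a) → ClOk (b - v) →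
          Disjoint (sta n k a b v) (tri n k a b ∪ R) →
          IsFill n Q U j (Function.update f0 k v) ∧
            foot n Q j (Function.update f0 k v) = tri n k a b ∪ R ∪ sta n k a b v

/-- one reflection: swap `x` and `x ± 2k` using one block -/
def StPS1 : Prop :=
  ∀ Q : ℕ, 12 ≤ Q → ∃ N : ℕ, ∀ n : ℕ, N ≤ n → ∀ [NeZero n], ∀ (U : ℕ → ZMod n) (j k : ℕ),
    j ∈ Blocks n Q → j * Q + 4 ≤ k → k + 4 ≤ (j + 1) * Q →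
    ∀ (BadE : Finset (Elt n)), 30 * BadE.card ≤ n →
    ∀ (x κ : ZMod n), κ = (k : ZMod n) ∨ κ = -(k : ZMod n) → Sum.inl (x + κ) ∉ BadE →
      ∃ Z ⊆ All n \ (BadE ∪ {Sum.inl x, Sum.inl (x + κ + κ)}),
        Packable n Q U {j} (insert (Sum.inl x) Z) ∧
        Packable n Q U {j} (insert (Sum.inl (x + κ + κ)) Z)

/-- point swap -/
def StPS : Prop :=
  ∀ Q : ℕ, 100 ≤ Q → ∃ N : ℕ, ∀ n : ℕ, N ≤ n → ∀ [NeZero n], ∀ (U : ℕ → ZMod n)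
    (BadE : Finset (Elt n)) (BadJ : Finset ℕ), 40 * BadE.card ≤ n → 40 * Q * BadJ.card ≤ n →
    ∀ x x' : ZMod n, x ≠ x' → par x = par x' →
      ∃ Js ⊆ Blocks n Q \ BadJ, Js.card ≤ 3 ∧
        ∃ Z ⊆ All n \ (BadE ∪ {Sum.inl x, Sum.inl x'}),
          Packable n Q U Js (insert (Sum.inl x) Z) ∧ Packable n Q U Js (insert (Sum.inl x') Z)

/-- class swap -/
def StCS : Prop :=
  ∀ Q : ℕ, 100 ≤ Q → ∃ N : ℕ, ∀ n : ℕ, N ≤ n → ∀ [NeZero n], ∀ (U : ℕ → ZMod n)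
    (BadE : Finset (Elt n)) (BadJ : Finset ℕ), 50 * BadE.card ≤ n → 50 * Q * BadJ.card ≤ n →
    ∀ w w' : ZMod n, ClOk w → ClOk w' → cl w ≠ cl w' →
      ∃ Js ⊆ Blocks n Q \ BadJ, Js.card ≤ 14 ∧
        ∃ Z ⊆ All n \ (BadE ∪ {Sum.inr (cl w), Sum.inr (cl w')}),
          Packable n Q U Js (insert (Sum.inr (cl w)) Z) ∧
          Packable n Q U Js (insert (Sum.inr (cl w')) Z)

/-- a slot: covers a fixed set and exactly one (any one) element of `R` -/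
def StSlot : Prop :=
  ∀ Q : ℕ, 100 ≤ Q → ∃ N : ℕ, ∀ n : ℕ, N ≤ n → ∀ [NeZero n], ∀ (U : ℕ → ZMod n)
    (BadE : Finset (Elt n)) (BadJ : Finset ℕ), 60 * BadE.card ≤ n → 60 * Q * BadJ.card ≤ n →
    ∀ R ⊆ All n, R.Nonempty → (∀ y ∈ R, ∀ y' ∈ R, kd y = kd y') → 10 ^ 6 * Q * R.card ≤ n →
      ∃ Js ⊆ Blocks n Q \ BadJ, Js.card ≤ 40 * R.card ∧
        ∃ Z ⊆ All n \ (BadE ∪ R), ∀ y ∈ R, Packable n Q U Js (insert y Z)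

/-- the absorber -/
def StAbsorb : Prop :=
  ∀ (Q : ℕ) (μ : ℝ), 100 ≤ Q → 0 < μ → ∃ ε : ℝ, 0 < ε ∧ ∃ N : ℕ, ∀ n : ℕ, N ≤ n → ∀ [NeZero n],
    ∀ (U : ℕ → ZMod n) (BadE : Finset (Elt n)) (BadJ : Finset ℕ),
    100 * BadE.card ≤ n → 100 * Q * BadJ.card ≤ n →
    ∀ (Y : Finset (Elt n)) (u : Fin 3 → ℕ), Y ⊆ All n → (Y.card : ℝ) ≤ ε * n →
      (∀ t, 2 * u t ≤ kc Y t) →
      ∃ JA ⊆ Blocks n Q \ BadJ, (JA.card : ℝ) ≤ μ * n ∧ ∃ Z ⊆ All n \ (BadE ∪ Y),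
        ∀ Y' ⊆ Y, (∀ t, kc Y' t + u t = kc Y t) → Packable n Q U JA (Z ∪ Y')

/-! ## 4. Nearly perfect packing -/

/-- a tuple of values for the free times of block `j`, as a function on times (with the anchors) -/
def ext (n Q : ℕ) (U : ℕ → ZMod n) (j : ℕ) (m : Fin (Q - 1) → ZMod n) (k : ℕ) : ZMod n :=
  if h : j * Q < k ∧ k - (j * Q + 1) < Q - 1 then m ⟨k - (j * Q + 1), h.2⟩ else U k

/-- number of times the element `y` occurs in the filling `f` of block `j` -/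
def mult (n Q j : ℕ) (f : ℕ → ZMod n) : Elt n → ℕ :=
  Sum.elim
    (fun x => ∑ k ∈ Ioo (j * Q) ((j + 1) * Q),
      ((if f k = x then 1 else 0) + (if f k - (k : ZMod n) = x then 1 else 0)))
    (fun c => ∑ k ∈ Ico (j * Q) ((j + 1) * Q), if cl (f (k + 1) - f k) = c then 1 else 0)

/-- data for the nearly perfect packing -/
structure NearHyp (n Q : ℕ) [NeZero n] (U : ℕ → ZMod n) (μ0 : ℝ) (J' : Finset ℕ)
    (E' : Finset (Elt n)) : Prop where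
  fix : FixOk n Q U
  reg : Reg n Q U
  sub : J' ⊆ Blocks n Q
  many : ((Blocks n Q \ J').card : ℝ) ≤ μ0 * n
  sub' : E' ⊆ All n \ FixE n Q U
  pts : kc E' 0 + kc E' 1 = 2 * (Q - 1) * J'.card
  cls : kc E' 2 = Q * J'.card

/-- exact, spread out fractional packing -/
def StFPM : Prop :=
  ∃ Q0 : ℕ, 20 ≤ Q0 ∧ ∀ Q : ℕ, Q0 ≤ Q → ∃ μ0 W : ℝ, 0 < μ0 ∧ 0 < W ∧ ∃ N : ℕ, ∀ n : ℕ, N ≤ n →
    ∀ [NeZero n], ∀ (U : ℕ → ZMod n) (J' : Finset ℕ) (E' : Finset (Elt n)),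
      NearHyp n Q U μ0 J' E' →
      ∃ w : ℕ → (Fin (Q - 1) → ZMod n) → ℝ,
        (∀ j m, 0 ≤ w j m) ∧ (∀ j m, w j m ≤ W / (n : ℝ) ^ (Q - 1)) ∧
        (∀ j m, w j m ≠ 0 → j ∈ J' ∧ ∀ y, mult n Q j (ext n Q U j m) y ≠ 0 → y ∈ E') ∧
        (∀ j ∈ J', ∑ m, w j m = 1) ∧
        (∀ y ∈ E', ∑ j ∈ J', ∑ m, w j m * (mult n Q j (ext n Q U j m) y : ℝ) = 1)

/-- counting of tuples -/
def StCount : Prop :=
  ∀ Q : ℕ, 4 ≤ Q → ∃ C : ℕ, ∀ n : ℕ, 4 * Q ≤ n → ∀ [NeZero n], ∀ U : ℕ → ZMod n, FixOk n Q U →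
    (∀ j ∈ Blocks n Q, ∀ y ∈ All n,
      ((univ.filter fun m : Fin (Q - 1) → ZMod n => mult n Q j (ext n Q U j m) y ≠ 0).card
        ≤ C * n ^ (Q - 2))) ∧
    (∀ j ∈ Blocks n Q,
      ((univ.filter fun m : Fin (Q - 1) → ZMod n =>
        ∃ y, 2 ≤ mult n Q j (ext n Q U j m) y).card ≤ C * n ^ (Q - 2))) ∧
    (∀ y ∈ All n, ∀ y' ∈ All n, y ≠ y' →
      ∑ j ∈ Blocks n Q, ((univ.filter fun m : Fin (Q - 1) → ZMod n =>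
        mult n Q j (ext n Q U j m) y ≠ 0 ∧ mult n Q j (ext n Q U j m) y' ≠ 0).card)
        ≤ C * n ^ (Q - 2)) ∧
    (∀ y ∈ All n,
      ∑ j ∈ Blocks n Q, ((univ.filter fun m : Fin (Q - 1) → ZMod n =>
        mult n Q j (ext n Q U j m) y ≠ 0 ∧ ∃ y', 2 ≤ mult n Q j (ext n Q U j m) y').card)
        ≤ C * n ^ (Q - 2))

def StNear : Prop :=
  ∃ Q0 : ℕ, 20 ≤ Q0 ∧ ∀ Q : ℕ, Q0 ≤ Q → ∃ μ0 : ℝ, 0 < μ0 ∧ ∀ γ : ℝ, 0 < γ → ∃ N : ℕ,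
    ∀ n : ℕ, N ≤ n → ∀ [NeZero n], ∀ (U : ℕ → ZMod n) (J' : Finset ℕ) (E' : Finset (Elt n)),
      NearHyp n Q U μ0 J' E' →
      ∃ J'' ⊆ J', (J''.card : ℝ) ≤ γ * n ∧ ∃ S ⊆ E', Packable n Q U (J' \ J'') S

/-! ## 5. Covering the rest with the flexible elements -/

def StCover : Prop :=
  ∀ (Q : ℕ) (c0 : ℝ), 20 ≤ Q → 0 < c0 → ∃ c1 : ℝ, 0 < c1 ∧ ∀ c2 : ℝ, 0 < c2 →
    ∃ γ : ℝ, 0 < γ ∧ ∃ N : ℕ, ∀ n : ℕ, N ≤ n → ∀ [NeZero n], ∀ (U : ℕ → ZMod n)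
      (Y : Finset (Elt n)) (Jres J'' : Finset ℕ) (E'' : Finset (Elt n)), FixOk n Q U →
      Y ⊆ All n → YOk n Q c0 Y → Jres ⊆ Blocks n Q → (Jres.card : ℝ) ≤ c1 * n →
      (∀ x : ZMod n, c2 * n ≤ ((Jres.filter fun j =>
        Sum.inl (x - ((j * Q + 2 : ℕ) : ZMod n)) ∈ Y).card : ℝ)) →
      J'' ⊆ Blocks n Q \ Jres → (J''.card : ℝ) ≤ γ * n → E'' ⊆ All n \ Y →
      kc E'' 0 + kc E'' 1 = 2 * (Q - 1) * J''.card → kc E'' 2 = Q * J''.card →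
      ((kc E'' 1 + uu n Q Jres.card 1 : ℕ) : ZMod 2) =
        ∑ j ∈ Jres ∪ J'', ∑ k ∈ Ioo (j * Q) ((j + 1) * Q), parT n k →
      ∃ Y'' ⊆ Y, (∀ t, kc Y'' t = uu n Q Jres.card t) ∧ Packable n Q U (Jres ∪ J'') (E'' ∪ Y'')

/-! ## 6. Assembly -/

def StAssemble : Prop :=
  StAnchors → StY → StRes → StAbsorb → StNear → StCover →
    ∃ N : ℕ, ∀ n : ℕ, N ≤ n → ∃ U : ℕ → ZMod n, HalfSol n U

end Pool.Agent.DNA
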